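import Pool.Agent.DDA.Defs2

/-!
# DDA: isoperimetry of boxes, by canonical paths
-/

open Finset

namespace DDA

set_option linter.unusedSectionVars false

variable {N d : ℕ} [NeZero N]

lemma mem_box {a : TV N d} {n : Fin d → ℕ} {x : TV N d} :
    x ∈ box a n ↔ ∀ i, (x i - a i).val < n i := by
  simp [box]

/-- the point of the line through `h` in direction `j` at height `t` -/
def lineP (a : TV N d) (h : TV N d) (j : Fin d) (t : ℕ) : TV N d :=
  Function.update h j (a j + (t : ZMod N))

lemma lineP_mem {a : TV N d} {n : Fin d → ℕ} (hN : ∀ i, n i ≤ N) {h : TV N d}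
    (hh : h ∈ box a n) (j : Fin d) {t : ℕ} (ht : t < n j) : lineP a h j t ∈ box a n := by
  rw [mem_box] at hh ⊢
  intro i
  unfold lineP
  by_cases hij : i = j
  · subst hij
    rw [Function.update_self, add_sub_cancel_left, ZMod.val_natCast_of_lt (lt_of_lt_of_le ht (hN i))]
    exact ht
  · rw [Function.update_of_ne hij]
    exact hh i

lemma lineP_succ (a : TV N d) (h : TV N d) (j : Fin d) (t : ℕ) :
    lineP a h j t + Pi.single j 1 = lineP a h j (t + 1) := by
  funext i
  unfold lineP
  by_cases hij : i = j
  · subst hij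
    simp [add_assoc]
  · simp [Function.update_of_ne hij, Pi.single_eq_of_ne hij]

lemma lineP_self (a : TV N d) (h : TV N d) (j : Fin d) :
    lineP a h j (h j - a j).val = h := by
  funext i
  unfold lineP
  by_cases hij : i = j
  · subst hij
    rw [Function.update_self, ZMod.natCast_zmod_val]
    ring
  · rw [Function.update_of_ne hij]

/-- a change of membership along a segment of `ℕ` -/
lemma exists_change_up {P : ℕ → Prop} {s t : ℕ} (hst : s ≤ t) (h : ¬ (P s ↔ P t)) :
    ∃ k, s ≤ k ∧ k < t ∧ ¬ (P k ↔ P (k + 1)) := by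
  by_contra hc
  push Not at hc
  apply h
  induction t, hst using Nat.le_induction with
  | base => exact Iff.rfl
  | succ t hst ih =>
    have h1 : P s ↔ P t := by
      apply Classical.byContradiction
      intro h2
      exact h2 (ih h2 (fun k hk hk2 => hc k hk (by omega)))
    exact h1.trans (hc t hst (by omega))

lemma exists_change {P : ℕ → Prop} {s t n : ℕ} (hs : s < n) (ht : t < n) (h : ¬ (P s ↔ P t)) :
    ∃ k, k + 1 < n ∧ ¬ (P k ↔ P (k + 1)) := by
  rcases le_total s t with hst | hst
  · obtain ⟨k, h1, h2, h3⟩ := exists_change_up hst h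
    exact ⟨k, by omega, h3⟩
  · obtain ⟨k, h1, h2, h3⟩ := exists_change_up hst (fun h' => h h'.symm)
    exact ⟨k, by omega, h3⟩

/-- hybrid point: coordinates `< k` of `y`, the others of `x` -/
def hyb (x y : TV N d) (k : ℕ) : TV N d := fun i => if i.val < k then y i else x i

lemma hyb_zero (x y : TV N d) : hyb x y 0 = x := by
  funext i; simp [hyb]

lemma hyb_last (x y : TV N d) : hyb x y d = y := by
  funext i; simp [hyb]

lemma hyb_mem {a : TV N d} {n : Fin d → ℕ} {x y : TV N d} (hx : x ∈ box a n) (hy : y ∈ box a n)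
    (k : ℕ) : hyb x y k ∈ box a n := by
  rw [mem_box] at *
  intro i
  unfold hyb
  split_ifs
  · exact hy i
  · exact hx i

lemma hyb_succ (a : TV N d) (x y : TV N d) (j : Fin d) :
    hyb x y (j.val + 1) = lineP a (hyb x y j.val) j (y j - a j).val := by
  funext i
  unfold lineP hyb
  by_cases hij : i = j
  · subst hij
    rw [Function.update_self, ZMod.natCast_zmod_val]
    simp
  · rw [Function.update_of_ne hij]
    have : i.val ≠ j.val := fun h => hij (Fin.ext h)
    by_cases h1 : i.val < j.val
    · rw [if_pos h1, if_pos (by omega)]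
    · rw [if_neg h1, if_neg (by omega)]

/-- the decoding map -/
def dec (a : TV N d) (q : TE N d × (TV N d × ℕ)) : TV N d × TV N d :=
  (fun i => if i.val ≤ q.1.2.val then q.2.1 i else q.1.1 i,
   fun i => if i.val < q.1.2.val then q.1.1 i else
     if i.val = q.1.2.val then a i + (q.2.2 : ZMod N) else q.2.1 i)

/-- boundary edges of `A` inside the box -/
def bdE (a : TV N d) (n : Fin d → ℕ) (A : Finset (TV N d)) : Finset (TE N d) :=
  (univ : Finset (TE N d)).filter (fun e => e.1 ∈ box a n ∧ e.1 + Pi.single e.2 1 ∈ box a n ∧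
        ¬ (e.1 ∈ A ↔ e.1 + Pi.single e.2 1 ∈ A))

lemma pairs_subset (a : TV N d) (n : Fin d → ℕ) (m : ℕ) (hn : ∀ i, n i ≤ m) (hN : ∀ i, n i ≤ N)
    (A : Finset (TV N d)) (hA : A ⊆ box a n) :
    A ×ˢ (box a n \ A) ⊆
      ((bdE a n A) ×ˢ ((box a n) ×ˢ (range m))).image (dec a) := by
  rintro ⟨x, y⟩ hxy
  rw [mem_product, mem_sdiff] at hxy
  obtain ⟨hxA, hyB, hyA⟩ := hxy
  simp only at hxA hyB hyA
  have hxB := hA hxA
  -- the direction
  obtain ⟨k, hk, hk2⟩ : ∃ k, k + 1 < d + 1 ∧ ¬ ((hyb x y k ∈ A) ↔ (hyb x y (k + 1) ∈ A)) := by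
    apply exists_change (P := fun k => hyb x y k ∈ A) (s := 0) (t := d) (by omega) (by omega)
    rw [hyb_zero, hyb_last]
    tauto
  let j : Fin d := ⟨k, by omega⟩
  have hjk : j.val = k := rfl
  have hhB : hyb x y k ∈ box a n := hyb_mem hxB hyB k
  have e1 : hyb x y (k + 1) = lineP a (hyb x y k) j (y j - a j).val := hyb_succ a x y j
  have e0 : lineP a (hyb x y k) j ((hyb x y k) j - a j).val = hyb x y k := lineP_self a _ j
  obtain ⟨t, ht, ht2⟩ : ∃ t, t + 1 < n j ∧
      ¬ (lineP a (hyb x y k) j t ∈ A ↔ lineP a (hyb x y k) j (t + 1) ∈ A) := by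
    apply exists_change (P := fun t => lineP a (hyb x y k) j t ∈ A)
      (s := ((hyb x y k) j - a j).val) (t := (y j - a j).val)
    · exact (mem_box.1 hhB) j
    · exact (mem_box.1 hyB) j
    · rw [e0, ← e1]
      exact hk2
  rw [mem_image]
  refine ⟨((lineP a (hyb x y k) j t, j), (fun i => if i.val ≤ k then x i else y i,
    (y j - a j).val)), ?_, ?_⟩
  · rw [mem_product, mem_product]
    refine ⟨?_, ?_, ?_⟩
    · unfold bdE
      rw [mem_filter]
      simp only
      rw [lineP_succ]
      exact ⟨mem_univ _, lineP_mem hN hhB j (by omega), lineP_mem hN hhB j ht, ht2⟩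
    · simp only
      rw [mem_box]
      intro i
      split_ifs
      · exact (mem_box.1 hxB) i
      · exact (mem_box.1 hyB) i
    · simp only
      rw [mem_range]
      exact lt_of_lt_of_le ((mem_box.1 hyB) j) (hn j)
  · unfold dec
    simp only
    rw [Prod.mk.injEq]
    refine ⟨?_, ?_⟩
    · funext i
      by_cases h : i.val ≤ j.val
      · rw [if_pos h, if_pos (by omega)]
      · rw [if_neg h]
        have hij : i ≠ j := fun h' => h (by rw [h'])
        unfold lineP hyb
        rw [Function.update_of_ne hij, if_neg (by omega)]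
    · funext i
      by_cases h : i.val < j.val
      · rw [if_pos h]
        have hij : i ≠ j := fun h' => by rw [h'] at h; omega
        unfold lineP hyb
        rw [Function.update_of_ne hij, if_pos (by omega)]
      · rw [if_neg h]
        by_cases h2 : i.val = j.val
        · rw [if_pos h2]
          have hij : i = j := Fin.ext h2
          rw [hij, ZMod.natCast_zmod_val]
          ring
        · rw [if_neg h2, if_neg (by omega)]

theorem iso_box (a : TV N d) (n : Fin d → ℕ) (m : ℕ) (hn : ∀ i, n i ≤ m) (hN : ∀ i, n i ≤ N)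
    (A : Finset (TV N d)) (hA : A ⊆ box a n) :
    A.card * (box a n \ A).card ≤ m * (box a n).card *
      ((univ : Finset (TE N d)).filter (fun e => e.1 ∈ box a n ∧ e.1 + Pi.single e.2 1 ∈ box a n ∧
        ¬ (e.1 ∈ A ↔ e.1 + Pi.single e.2 1 ∈ A))).card := by
  have h := (card_le_card (pairs_subset a n m hn hN A hA)).trans card_image_le
  rw [card_product, card_product, card_product, card_range] at h
  unfold bdE at h
  calc _ ≤ _ := h
    _ = _ := by ring

/-- an interval of `ZMod N` -/
lemma card_interval (b : ZMod N) (k : ℕ) (hk : k ≤ N) :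
    ((univ : Finset (ZMod N)).filter (fun z => (z - b).val < k)).card = k := by
  have : (univ : Finset (ZMod N)).filter (fun z => (z - b).val < k) =
      (range k).image (fun t : ℕ => b + (t : ZMod N)) := by
    ext z
    rw [mem_filter, mem_image]
    constructor
    · rintro ⟨-, h⟩
      exact ⟨(z - b).val, mem_range.2 h, by rw [ZMod.natCast_zmod_val]; ring⟩
    · rintro ⟨t, ht, rfl⟩
      rw [mem_range] at ht
      refine ⟨mem_univ _, ?_⟩
      rw [add_sub_cancel_left, ZMod.val_natCast_of_lt (by omega)]
      exact ht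
  rw [this, card_image_of_injOn, card_range]
  intro s hs t ht hst
  simp only [coe_range, Set.mem_Iio] at hs ht
  simp only [add_right_inj] at hst
  have h2 := congrArg ZMod.val hst
  rwa [ZMod.val_natCast_of_lt (by omega), ZMod.val_natCast_of_lt (by omega)] at h2

theorem card_box (a : TV N d) (n : Fin d → ℕ) (hN : ∀ i, n i ≤ N) :
    (box a n).card = ∏ i, n i := by
  have : box a n = Fintype.piFinset
      (fun i => (univ : Finset (ZMod N)).filter (fun z => (z - a i).val < n i)) := by
    ext x
    rw [mem_box, Fintype.mem_piFinset]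
    simp
  rw [this, Fintype.card_piFinset]
  exact prod_congr rfl (fun i _ => card_interval (a i) (n i) (hN i))

end DDA
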