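import Pool.Agent.DDA.Defs3
import Pool.Agent.DDA.Iso

/-!
# DDA: sprinkling (Ajtai–Komlós–Szemerédi)
-/

open Finset

namespace DDA

set_option linter.unusedSectionVars false

variable {N d : ℕ} [NeZero N]

namespace AK

/-! ### the norm -/

lemma nrm_zero : nrm (0 : TV N d) = 0 := by simp [nrm]

lemma eq_zero_of_nrm {x : TV N d} (h : nrm x = 0) : x = 0 := by
  funext i
  unfold nrm at h
  rw [sum_eq_zero_iff] at h
  have := h i (mem_univ i)
  rw [Int.natAbs_eq_zero, ZMod.valMinAbs_eq_zero] at this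
  exact this

lemma nrm_neg (x : TV N d) : nrm (-x) = nrm x := by
  unfold nrm
  exact sum_congr rfl (fun i _ => by rw [Pi.neg_apply, ZMod.natAbs_valMinAbs_neg])

lemma nrm_add_le (x y : TV N d) : nrm (x + y) ≤ nrm x + nrm y := by
  unfold nrm
  rw [← sum_add_distrib]
  apply sum_le_sum
  intro i _
  rw [Pi.add_apply]
  exact (ZMod.natAbs_valMinAbs_add_le _ _).trans (Int.natAbs_add_le _ _)

lemma nrm_sub_comm (x y : TV N d) : nrm (x - y) = nrm (y - x) := by
  rw [← nrm_neg, neg_sub]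

lemma nrm_tri (x y z : TV N d) : nrm (x - z) ≤ nrm (x - y) + nrm (y - z) := by
  have := nrm_add_le (x - y) (y - z)
  rwa [sub_add_sub_cancel] at this

lemma vma_one (hN : 3 ≤ N) : (1 : ZMod N).valMinAbs = 1 := by
  have := ZMod.valMinAbs_natCast_of_le_half (n := N) (a := 1) (by omega)
  simpa using this

lemma vma_neg_one (hN : 3 ≤ N) : (-1 : ZMod N).valMinAbs = -1 := by
  have h : Fact (1 < N) := ⟨by omega⟩
  rw [ZMod.valMinAbs_neg_of_ne_half, vma_one hN]
  rw [ZMod.val_one]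
  omega

/-- the unit steps -/
def stp (N d : ℕ) : Option (Fin d × Bool) → TV N d
  | none => 0
  | some (i, true) => Pi.single i 1
  | some (i, false) => -Pi.single i 1

lemma nrm_single (hN : 3 ≤ N) (i : Fin d) : nrm (Pi.single i 1 : TV N d) = 1 := by
  unfold nrm
  rw [Finset.sum_eq_single i]
  · rw [Pi.single_eq_same, vma_one hN]; rfl
  · intro j _ hj
    rw [Pi.single_eq_of_ne hj]; simp
  · intro h; exact absurd (mem_univ i) h

lemma nrm_stp (hN : 3 ≤ N) (s : Option (Fin d × Bool)) : nrm (stp N d s) ≤ 1 := by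
  rcases s with _ | ⟨i, _ | _⟩
  · show nrm (0 : TV N d) ≤ 1
    rw [nrm_zero]; omega
  · show nrm (-Pi.single i 1 : TV N d) ≤ 1
    rw [nrm_neg, nrm_single hN]
  · show nrm (Pi.single i 1 : TV N d) ≤ 1
    rw [nrm_single hN]

lemma nrm_split (x : TV N d) (i : Fin d) :
    nrm x = (x i).valMinAbs.natAbs + ∑ j ∈ univ.erase i, (x j).valMinAbs.natAbs := by
  unfold nrm
  exact (add_sum_erase _ (fun j => (x j).valMinAbs.natAbs) (mem_univ i)).symm

lemma exists_step (hN : 3 ≤ N) {x : TV N d} (hx : x ≠ 0) :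
    ∃ i, nrm (x - Pi.single i 1) + 1 ≤ nrm x ∨ nrm (x + Pi.single i 1) + 1 ≤ nrm x := by
  obtain ⟨i, hi⟩ : ∃ i, x i ≠ 0 := by
    by_contra h
    push Not at h
    exact hx (funext h)
  refine ⟨i, ?_⟩
  have hv : (x i).valMinAbs ≠ 0 := fun h => hi ((ZMod.valMinAbs_eq_zero _).1 h)
  rcases lt_or_gt_of_ne hv with h | h
  · right
    rw [nrm_split (x + Pi.single i 1) i, nrm_split x i]
    have e1 : ∑ j ∈ univ.erase i, ((x + Pi.single i 1 : TV N d) j).valMinAbs.natAbs =
        ∑ j ∈ univ.erase i, (x j).valMinAbs.natAbs := by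
      apply sum_congr rfl
      intro j hj
      rw [Pi.add_apply, Pi.single_eq_of_ne (ne_of_mem_erase hj), add_zero]
    have e2 := ZMod.natAbs_valMinAbs_add_le (x i) 1
    rw [vma_one hN] at e2
    rw [e1, Pi.add_apply, Pi.single_eq_same]
    omega
  · left
    rw [nrm_split (x - Pi.single i 1) i, nrm_split x i]
    have e1 : ∑ j ∈ univ.erase i, ((x - Pi.single i 1 : TV N d) j).valMinAbs.natAbs =
        ∑ j ∈ univ.erase i, (x j).valMinAbs.natAbs := by
      apply sum_congr rfl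
      intro j hj
      rw [Pi.sub_apply, Pi.single_eq_of_ne (ne_of_mem_erase hj), sub_zero]
    have e2 := ZMod.natAbs_valMinAbs_add_le (x i) (-1)
    rw [vma_neg_one hN, ← sub_eq_add_neg] at e2
    rw [e1, Pi.sub_apply, Pi.single_eq_same]
    omega

lemma card_nrm_le (hN : 3 ≤ N) (k : ℕ) :
    ((univ : Finset (TV N d)).filter (fun z => nrm z ≤ k)).card ≤ (2 * d + 1) ^ k := by
  induction k with
  | zero =>
    rw [pow_zero]
    have : (univ : Finset (TV N d)).filter (fun z => nrm z ≤ 0) ⊆ {0} := by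
      intro z hz
      rw [mem_filter] at hz
      rw [mem_singleton]
      exact eq_zero_of_nrm (by omega)
    exact (card_le_card this).trans (by simp)
  | succ k ih =>
    have hsub : (univ : Finset (TV N d)).filter (fun z => nrm z ≤ k + 1) ⊆
        ((((univ : Finset (TV N d)).filter (fun z => nrm z ≤ k)) ×ˢ
          (univ : Finset (Option (Fin d × Bool)))).image (fun q => q.1 + stp N d q.2)) := by
      intro z hz
      rw [mem_filter] at hz
      rw [mem_image]
      by_cases h : nrm z ≤ k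
      · refine ⟨(z, none), ?_, ?_⟩
        · rw [mem_product, mem_filter]; exact ⟨⟨mem_univ _, h⟩, mem_univ _⟩
        · show z + 0 = z
          simp
      · have hz0 : z ≠ 0 := by
          rintro rfl
          rw [nrm_zero] at h
          omega
        obtain ⟨i, hi | hi⟩ := exists_step hN hz0
        · refine ⟨(z - Pi.single i 1, some (i, true)), ?_, ?_⟩
          · rw [mem_product, mem_filter]
            exact ⟨⟨mem_univ _, by show nrm (z - Pi.single i 1) ≤ k; omega⟩, mem_univ _⟩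
          · show z - Pi.single i 1 + Pi.single i 1 = z
            simp
        · refine ⟨(z + Pi.single i 1, some (i, false)), ?_, ?_⟩
          · rw [mem_product, mem_filter]
            exact ⟨⟨mem_univ _, by show nrm (z + Pi.single i 1) ≤ k; omega⟩, mem_univ _⟩
          · show z + Pi.single i 1 + -Pi.single i 1 = z
            simp
    refine (card_le_card hsub).trans (card_image_le.trans ?_)
    rw [card_product, pow_succ]
    have hc : (univ : Finset (Option (Fin d × Bool))).card = 2 * d + 1 := by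
      simp [mul_comm]
    rw [hc]
    exact Nat.mul_le_mul_right _ ih

/-! ### paths -/

lemma closed_edge {R K : Finset (TV N d)} {ζ : Finset (TE N d)} (hK : ClosedIn R ζ K) {e : TE N d}
    (he : e ∈ ζ) {x y : TV N d} (hJ : (T N d).J e x y) (hx : x ∈ R) (hy : y ∈ R) :
    x ∈ K ↔ y ∈ K :=
  ⟨fun h => hK.2 x h y hy ⟨e, he, hJ⟩, fun h => hK.2 y h x hx ⟨e, he, LG.J_comm.1 hJ⟩⟩

lemma path (hN : 3 ≤ N) {R : Finset (TV N d)} {v : TV N d} (k : ℕ) (y : TV N d)
    (hy : nrm (y - v) ≤ k) (hR : ∀ z, nrm (z - v) ≤ k → z ∈ R) :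
    ∃ Γ : Finset (TE N d), Γ.card ≤ k ∧ (∀ e ∈ Γ, nrm (e.1 - v) ≤ k) ∧
      ∀ ζ K, ClosedIn R ζ K → Γ ⊆ ζ → (y ∈ K ↔ v ∈ K) := by
  induction k generalizing y with
  | zero =>
    have : y = v := by
      have := eq_zero_of_nrm (x := y - v) (by omega)
      exact sub_eq_zero.1 this
    subst this
    exact ⟨∅, by simp, by simp, fun _ _ _ _ => Iff.rfl⟩
  | succ k ih =>
    by_cases hk : nrm (y - v) ≤ k
    · obtain ⟨Γ, h1, h2, h3⟩ := ih y hk (fun z hz => hR z (by omega))
      exact ⟨Γ, by omega, fun e he => (h2 e he).trans (by omega), h3⟩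
    · have hne : y - v ≠ 0 := by
        intro h
        rw [h, nrm_zero] at hk
        omega
      obtain ⟨i, hi | hi⟩ := exists_step hN hne
      · have hy' : nrm (y - Pi.single i 1 - v) ≤ k := by
          have : y - Pi.single i 1 - v = y - v - Pi.single i 1 := by abel
          rw [this]
          omega
        obtain ⟨Γ, h1, h2, h3⟩ := ih (y - Pi.single i 1) hy' (fun z hz => hR z (by omega))
        refine ⟨insert (y - Pi.single i 1, i) Γ, (card_insert_le _ _).trans (by omega), ?_, ?_⟩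
        · intro e he
          rcases mem_insert.1 he with rfl | he
          · show nrm (y - Pi.single i 1 - v) ≤ k + 1
            omega
          · exact (h2 e he).trans (by omega)
        · intro ζ K hK hΓ
          rw [← h3 ζ K hK ((subset_insert _ _).trans hΓ)]
          apply closed_edge hK (hΓ (mem_insert_self _ _)) _ (hR _ hy) (hR _ (by omega))
          rw [T_J]
          right
          exact ⟨rfl, rfl⟩
      · have hy' : nrm (y + Pi.single i 1 - v) ≤ k := by
          have : y + Pi.single i 1 - v = y - v + Pi.single i 1 := by abel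
          rw [this]
          omega
        obtain ⟨Γ, h1, h2, h3⟩ := ih (y + Pi.single i 1) hy' (fun z hz => hR z (by omega))
        refine ⟨insert (y, i) Γ, (card_insert_le _ _).trans (by omega), ?_, ?_⟩
        · intro e he
          rcases mem_insert.1 he with rfl | he
          · exact hy
          · exact (h2 e he).trans (by omega)
        · intro ζ K hK hΓ
          rw [← h3 ζ K hK ((subset_insert _ _).trans hΓ)]
          apply closed_edge hK (hΓ (mem_insert_self _ _)) _ (hR _ hy) (hR _ (by omega))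
          rw [T_J]
          left
          exact ⟨rfl, rfl⟩

/-- a step: `v` and `v + stp s` -/
lemma path_step {R : Finset (TV N d)} (v : TV N d) (s : Option (Fin d × Bool))
    (hN : 3 ≤ N) (hv : v ∈ R) (hv' : v + stp N d s ∈ R) :
    ∃ Γ : Finset (TE N d), Γ.card ≤ 1 ∧ (∀ e ∈ Γ, nrm (e.1 - v) ≤ 1) ∧
      ∀ ζ K, ClosedIn R ζ K → Γ ⊆ ζ → (v ∈ K ↔ v + stp N d s ∈ K) := by
  rcases s with _ | ⟨i, _ | _⟩
  · refine ⟨∅, by simp, by simp, fun ζ K _ _ => ?_⟩
    show v ∈ K ↔ v + 0 ∈ K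
    rw [add_zero]
  · refine ⟨{(v + -Pi.single i 1, i)}, by simp, ?_, ?_⟩
    · intro e he
      rw [mem_singleton] at he
      subst he
      show nrm (v + -Pi.single i 1 - v) ≤ 1
      have : v + -Pi.single i 1 - v = (-Pi.single i 1 : TV N d) := by abel
      rw [this, nrm_neg, nrm_single hN]
    · intro ζ K hK hΓ
      apply closed_edge hK (hΓ (mem_singleton_self _)) _ hv hv'
      rw [T_J]
      right
      exact ⟨rfl, (sub_eq_add_neg v (Pi.single i 1)).symm⟩
  · refine ⟨{(v, i)}, by simp, ?_, ?_⟩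
    · intro e he
      rw [mem_singleton] at he
      subst he
      show nrm (v - v) ≤ 1
      rw [sub_self, nrm_zero]
      omega
    · intro ζ K hK hΓ
      apply closed_edge hK (hΓ (mem_singleton_self _)) _ hv hv'
      rw [T_J]
      left
      exact ⟨rfl, rfl⟩

/-- a path from near `v` to near `v + stp s` -/
lemma path_pair (hN : 3 ≤ N) {R : Finset (TV N d)} {v : TV N d} {s : Option (Fin d × Bool)} {ℓ : ℕ}
    {y y' : TV N d} (hy : nrm (y - v) ≤ ℓ) (hy' : nrm (y' - (v + stp N d s)) ≤ ℓ)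
    (hR : ∀ z, nrm (z - v) ≤ ℓ → z ∈ R) (hR' : ∀ z, nrm (z - (v + stp N d s)) ≤ ℓ → z ∈ R) :
    ∃ Γ : Finset (TE N d), Γ.card ≤ 2 * ℓ + 1 ∧ (∀ e ∈ Γ, nrm (e.1 - v) ≤ ℓ + 1) ∧
      ∀ ζ K, ClosedIn R ζ K → Γ ⊆ ζ → (y ∈ K ↔ y' ∈ K) := by
  obtain ⟨Γ1, a1, a2, a3⟩ := path hN ℓ y hy hR
  obtain ⟨Γ2, b1, b2, b3⟩ := path hN ℓ y' hy' hR'
  obtain ⟨Γ3, c1, c2, c3⟩ := path_step (R := R) v s hN
    (hR v (by rw [sub_self, nrm_zero]; omega)) (hR' _ (by rw [sub_self, nrm_zero]; omega))
  refine ⟨Γ1 ∪ Γ2 ∪ Γ3, ?_, ?_, ?_⟩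
  · have h1 := card_union_le (Γ1 ∪ Γ2) Γ3
    have h2 := card_union_le Γ1 Γ2
    omega
  · intro e he
    rcases mem_union.1 he with he | he
    · rcases mem_union.1 he with he | he
      · exact (a2 e he).trans (by omega)
      · have h1 := nrm_tri e.1 (v + stp N d s) v
        have h2 := b2 e he
        have h3 : nrm (v + stp N d s - v) ≤ 1 := by
          rw [add_sub_cancel_left]
          exact nrm_stp hN s
        omega
    · exact (c2 e he).trans (by omega)
  · intro ζ K hK hΓ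
    have h1 := a3 ζ K hK ((subset_union_left.trans subset_union_left).trans hΓ)
    have h2 := b3 ζ K hK ((subset_union_right.trans subset_union_left).trans hΓ)
    have h3 := c3 ζ K hK (subset_union_right.trans hΓ)
    rw [h1, h3, h2]

/-! ### greedy selection -/

lemma greedy {α : Type*} [DecidableEq α] (r : α → α → Prop) (hs : ∀ p q, r p q → r q p) (D : ℕ) (n : ℕ)
    (P : Finset α) (hn : P.card = n) (hr : ∀ p ∈ P, r p p)
    (hD : ∀ p ∈ P, ∀ Q ⊆ P, (∀ q ∈ Q, r p q) → Q.card ≤ D) :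
    ∃ I ⊆ P, (∀ p ∈ I, ∀ q ∈ I, p ≠ q → ¬ r p q) ∧ P.card ≤ D * I.card := by
  classical
  induction n using Nat.strong_induction_on generalizing P with
  | _ n ih =>
    rcases P.eq_empty_or_nonempty with rfl | ⟨p, hp⟩
    · exact ⟨∅, by simp, by simp, by simp⟩
    · set P' := P.filter (fun q => ¬ r p q) with hP'
      have hsub : P' ⊆ P := filter_subset _ _
      have hlt : P'.card < n := by
        rw [← hn]
        apply card_lt_card
        rw [ssubset_iff_of_subset hsub]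
        refine ⟨p, hp, ?_⟩
        rw [hP', mem_filter]
        intro h
        exact h.2 (hr p hp)
      obtain ⟨I, hI, hind, hcard⟩ := ih P'.card hlt P' rfl (fun q hq => hr q (hsub hq))
        (fun q hq Q hQ h => hD q (hsub hq) Q (hQ.trans hsub) h)
      have hpI : p ∉ I := by
        intro h
        have := hI h
        rw [hP', mem_filter] at this
        exact this.2 (hr p hp)
      refine ⟨insert p I, insert_subset hp (hI.trans hsub), ?_, ?_⟩
      · intro a ha b hb hab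
        rcases mem_insert.1 ha with rfl | ha
        · rcases mem_insert.1 hb with rfl | hb
          · exact absurd rfl hab
          · have := hI hb
            rw [hP', mem_filter] at this
            exact this.2
        · rcases mem_insert.1 hb with h | hb
          · have := hI ha
            rw [hP', mem_filter] at this
            rw [h]
            exact fun h => this.2 (hs _ _ h)
          · exact hind a ha b hb hab
      · rw [card_insert_of_notMem hpI]
        have h1 : (P.filter (fun q => r p q)).card ≤ D :=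
          hD p hp _ (filter_subset _ _) (fun q hq => (mem_filter.1 hq).2)
        have h2 : P.card = (P.filter (fun q => r p q)).card + P'.card := by
          rw [hP', card_filter_add_card_filter_not]
        rw [h2]
        calc _ ≤ D + D * I.card := by omega
          _ = D * (I.card + 1) := by ring

/-! ### probability that none of the disjoint sets is open -/

lemma Pr_subset {E : Type*} [DecidableEq E] {F Γ : Finset E} (h : Γ ⊆ F) (p : ℝ) :
    Pr F p (fun ω => Γ ⊆ ω) = p ^ Γ.card := by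
  classical
  induction Γ using Finset.induction_on with
  | empty =>
    simp only [empty_subset, card_empty, pow_zero]
    unfold Pr
    simp [Ex_one]
  | insert e Γ he ih =>
    rw [card_insert_of_notMem he, pow_succ, ← ih ((subset_insert _ _).trans h)]
    have h2 := Pr_indep (F := F) (A := Γ) (B := {e}) (p := p) (P := fun ω => Γ ⊆ ω)
      (Q := fun ω => e ∈ ω) (by simpa using he)
      (fun ω _ => ⟨fun h => subset_inter h (Subset.refl _), fun h => h.trans inter_subset_left⟩)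
      (fun ω _ => by simp)
    rw [Pr_mem (h (mem_insert_self _ _))] at h2
    rw [← h2]
    apply Pr_congr
    intro ω _
    rw [insert_subset_iff]
    exact and_comm

lemma Pr_not {E : Type*} [DecidableEq E] {F : Finset E} (p : ℝ) (A : Finset E → Prop) :
    Pr F p (fun ω => ¬ A ω) = 1 - Pr F p A := by
  classical
  have h1 : Pr F p (fun ω => ¬ A ω) = Ex F p (fun ω => 1 - (if A ω then (1:ℝ) else 0)) := by
    unfold Pr
    apply Ex_congr
    intro ω _
    by_cases h : A ω <;> simp [h]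
  rw [h1, Ex_sub, Ex_one]
  rfl

lemma Pr_none {E : Type*} [DecidableEq E] [Fintype E] {α : Type*} [DecidableEq α] {ε : ℝ}
    (h0 : 0 ≤ ε) (h1 : ε ≤ 1) (I : Finset α) (Γ : α → Finset E) (L : ℕ)
    (hL : ∀ p ∈ I, (Γ p).card ≤ L) (hd : ∀ p ∈ I, ∀ q ∈ I, p ≠ q → Disjoint (Γ p) (Γ q)) :
    Pr univ ε (fun η => ∀ p ∈ I, ¬ Γ p ⊆ η) ≤ (1 - ε ^ L) ^ I.card := by
  classical
  induction I using Finset.induction_on with
  | empty =>
    simp only [notMem_empty, IsEmpty.forall_iff, implies_true, card_empty, pow_zero]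
    exact Pr_le_one h0 h1 _
  | insert a I ha ih =>
    have hind := Pr_indep (F := (univ : Finset E)) (A := Γ a) (B := I.biUnion Γ) (p := ε)
      (P := fun η => ¬ Γ a ⊆ η) (Q := fun η => ∀ p ∈ I, ¬ Γ p ⊆ η)
      (by
        rw [disjoint_biUnion_right]
        intro q hq
        exact hd a (mem_insert_self _ _) q (mem_insert_of_mem hq) (fun h => ha (h ▸ hq)))
      (fun ω _ => not_congr
        ⟨fun h => subset_inter h (Subset.refl _), fun h => h.trans inter_subset_left⟩)
      (fun ω _ => by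
        apply forall₂_congr
        intro q hq
        apply not_congr
        exact ⟨fun h => subset_inter h (subset_biUnion_of_mem Γ hq),
          fun h => h.trans inter_subset_left⟩)
    have e1 : Pr univ ε (fun η => ∀ p ∈ insert a I, ¬ Γ p ⊆ η) =
        Pr univ ε (fun η => ¬ Γ a ⊆ η ∧ ∀ p ∈ I, ¬ Γ p ⊆ η) := by
      apply Pr_congr
      intro ω _
      rw [forall_mem_insert]
    rw [e1, hind, Pr_not, Pr_subset (subset_univ _), card_insert_of_notMem ha, pow_succ, mul_comm]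
    have ih' := ih (fun p hp => hL p (mem_insert_of_mem hp))
      (fun p hp q hq => hd p (mem_insert_of_mem hp) q (mem_insert_of_mem hq))
    have h2 : ε ^ L ≤ ε ^ (Γ a).card := pow_le_pow_of_le_one h0 h1 (hL a (mem_insert_self _ _))
    have h3 : ε ^ (Γ a).card ≤ 1 := pow_le_one₀ h0 h1
    have h4 : ε ^ L ≤ 1 := pow_le_one₀ h0 h1
    apply mul_le_mul ih' (by linarith) (by linarith)
    apply pow_nonneg
    linarith

/-! ### counting pairs -/

/-- pairs `(v, s)` with `v ∈ A` and `v + stp s ∈ A'` -/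
def prs (A A' : Finset (TV N d)) : Finset (TV N d × Option (Fin d × Bool)) :=
  univ.filter (fun q => q.1 ∈ A ∧ q.1 + stp N d q.2 ∈ A')

lemma mem_prs {A A' : Finset (TV N d)} {q : TV N d × Option (Fin d × Bool)} :
    q ∈ prs A A' ↔ q.1 ∈ A ∧ q.1 + stp N d q.2 ∈ A' := by
  simp [prs]

lemma card_inter_le_prs (A A' : Finset (TV N d)) : (A ∩ A').card ≤ (prs A A').card := by
  have h1 : ((A ∩ A').image (fun v => ((v, none) : TV N d × Option (Fin d × Bool)))).card
      = (A ∩ A').card := by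
    apply card_image_of_injective
    intro a b h
    exact (Prod.mk.injEq _ _ _ _ ▸ h).1
  rw [← h1]
  apply card_le_card
  intro q hq
  obtain ⟨v, hv, rfl⟩ := mem_image.1 hq
  rw [mem_inter] at hv
  rw [mem_prs]
  refine ⟨hv.1, ?_⟩
  show v + 0 ∈ A'
  rw [add_zero]
  exact hv.2

lemma bd_le (a : TV N d) (n : Fin d → ℕ) (A A' : Finset (TV N d)) :
    (bdE a n A).card ≤ (prs A A').card + 2 * d * (box a n \ (A ∪ A')).card := by
  classical
  let ψ : TE N d → TV N d × Option (Fin d × Bool) := fun e =>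
    if e.1 ∈ A then (e.1, some (e.2, true)) else (e.1 + Pi.single e.2 1, some (e.2, false))
  let φ : TE N d → TV N d × (Fin d × Bool) := fun e =>
    if e.1 ∈ A then (e.1 + Pi.single e.2 1, (e.2, true)) else (e.1, (e.2, false))
  have hψ : Function.Injective ψ := by
    intro e e' h
    simp only [ψ] at h
    split_ifs at h with h1 h2 h2
    · simp only [Prod.mk.injEq, Option.some.injEq, and_true] at h
      exact Prod.ext h.1 h.2
    · simp at h
    · simp at h
    · simp only [Prod.mk.injEq, Option.some.injEq, and_true] at h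
      obtain ⟨h3, h4⟩ := h
      rw [h4] at h3
      exact Prod.ext (add_right_cancel h3) h4
  have hφ : Function.Injective φ := by
    intro e e' h
    simp only [φ] at h
    split_ifs at h with h1 h2 h2
    · simp only [Prod.mk.injEq, and_true] at h
      obtain ⟨h3, h4⟩ := h
      rw [h4] at h3
      exact Prod.ext (add_right_cancel h3) h4
    · simp at h
    · simp at h
    · simp only [Prod.mk.injEq, and_true] at h
      exact Prod.ext h.1 h.2
  have hsplit : (bdE a n A).card = ((bdE a n A).filter (fun e => ψ e ∈ prs A A')).card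
      + ((bdE a n A).filter (fun e => ¬ ψ e ∈ prs A A')).card :=
    (card_filter_add_card_filter_not _).symm
  rw [hsplit]
  apply add_le_add
  · rw [← card_image_of_injective _ hψ]
    apply card_le_card
    intro q hq
    obtain ⟨e, he, rfl⟩ := mem_image.1 hq
    exact (mem_filter.1 he).2
  · rw [← card_image_of_injective _ hφ]
    have hsub : ((bdE a n A).filter (fun e => ¬ ψ e ∈ prs A A')).image φ ⊆
        (box a n \ (A ∪ A')) ×ˢ (univ : Finset (Fin d × Bool)) := by
      intro q hq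
      obtain ⟨e, he, rfl⟩ := mem_image.1 hq
      obtain ⟨he1, he2⟩ := mem_filter.1 he
      unfold bdE at he1
      obtain ⟨-, hb1, hb2, hb3⟩ := mem_filter.1 he1
      rw [mem_product]
      refine ⟨?_, mem_univ _⟩
      by_cases h1 : e.1 ∈ A
      · have h2 : e.1 + Pi.single e.2 1 ∉ A := fun h => hb3 ⟨fun _ => h, fun _ => h1⟩
        have h3 : ψ e = (e.1, some (e.2, true)) := by simp only [ψ, if_pos h1]
        have h4 : φ e = (e.1 + Pi.single e.2 1, (e.2, true)) := by simp only [φ, if_pos h1]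
        rw [h4]
        rw [h3, mem_prs] at he2
        have h5 : e.1 + Pi.single e.2 1 ∉ A' := fun h => he2 ⟨h1, h⟩
        rw [mem_sdiff, mem_union]
        exact ⟨hb2, fun h => h.elim h2 h5⟩
      · have h2 : e.1 + Pi.single e.2 1 ∈ A := by
          by_contra h
          exact hb3 ⟨fun h' => absurd h' h1, fun h' => absurd h' h⟩
        have h3 : ψ e = (e.1 + Pi.single e.2 1, some (e.2, false)) := by simp only [ψ, if_neg h1]
        have h4 : φ e = (e.1, (e.2, false)) := by simp only [φ, if_neg h1]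
        rw [h4]
        rw [h3, mem_prs] at he2
        have h5 : e.1 ∉ A' := by
          intro h
          apply he2
          refine ⟨h2, ?_⟩
          show e.1 + Pi.single e.2 1 + -Pi.single e.2 1 ∈ A'
          rwa [add_neg_cancel_right]
        rw [mem_sdiff, mem_union]
        exact ⟨hb1, fun h => h.elim h1 h5⟩
    refine (card_le_card hsub).trans ?_
    rw [card_product]
    have hc : (univ : Finset (Fin d × Bool)).card = 2 * d := by
      simp [mul_comm]
    rw [hc]
    exact le_of_eq (by ring)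

lemma count {a : TV N d} {n : Fin d → ℕ} {m : ℕ} (hm : 1 ≤ m) (hd : 1 ≤ d) (hn : ∀ i, n i ≤ m)
    (hnN : ∀ i, n i ≤ N) {A A' : Finset (TV N d)} (hA : A ⊆ box a n) (hA' : A' ⊆ box a n)
    (hc : 2 ^ 16 * m * d * (box a n \ (A ∪ A')).card ≤ (box a n).card)
    (hv : ¬ ((16 * A.card ≤ (box a n).card ∧ 15 * (box a n).card ≤ 16 * A'.card) ∨
      (16 * A'.card ≤ (box a n).card ∧ 15 * (box a n).card ≤ 16 * A.card))) :
    (box a n).card ≤ 2 ^ 12 * m * (prs A A').card := by
  set b := (box a n).card with hb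
  set c := (box a n \ (A ∪ A')).card with hcdef
  have hmd : 1 ≤ m * d := Nat.mul_pos hm hd
  have hc1 : 2 ^ 16 * c ≤ b := by
    calc 2 ^ 16 * c = 2 ^ 16 * 1 * c := by ring
      _ ≤ 2 ^ 16 * (m * d) * c := by gcongr
      _ = 2 ^ 16 * m * d * c := by ring
      _ ≤ b := hc
  have hAA : b ≤ A.card + A'.card + c := by
    have h1 : (box a n).card ≤ ((A ∪ A') ∪ (box a n \ (A ∪ A'))).card := by
      apply card_le_card
      intro x hx
      rw [mem_union, mem_sdiff]
      by_cases h : x ∈ A ∪ A'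
      · exact Or.inl h
      · exact Or.inr ⟨hx, h⟩
    have h2 := card_union_le (A ∪ A') (box a n \ (A ∪ A'))
    have h3 := card_union_le A A'
    omega
  have hA1 : b < 32 * A.card := by
    by_contra h
    apply hv
    left
    constructor <;> omega
  have hA2 : b < 32 * A'.card := by
    by_contra h
    apply hv
    right
    constructor <;> omega
  have hint := card_inter_le_prs A A'
  by_cases hcase : b ≤ 64 * (A ∩ A').card
  · calc b ≤ 64 * (prs A A').card := by omega
      _ = 64 * 1 * (prs A A').card := by ring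
      _ ≤ 2 ^ 12 * m * (prs A A').card := by
          apply Nat.mul_le_mul_right
          apply Nat.mul_le_mul (by norm_num) hm
  · have hBA : A'.card ≤ (box a n \ A).card + (A ∩ A').card := by
      have h1 : A' ⊆ (box a n \ A) ∪ (A ∩ A') := by
        intro x hx
        rw [mem_union, mem_sdiff, mem_inter]
        by_cases h : x ∈ A
        · exact Or.inr ⟨h, hx⟩
        · exact Or.inl ⟨hA' hx, h⟩
      exact (card_le_card h1).trans (card_union_le _ _)
    have hBA2 : b < 64 * (box a n \ A).card := by omega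
    have hiso := iso_box a n m hn hnN A hA
    have hbd := bd_le a n A A'
    have hiso' : A.card * (box a n \ A).card ≤ m * b * (bdE a n A).card := hiso
    set D := (bdE a n A).card with hD
    set P := (prs A A').card with hP
    have h1 : b * b ≤ 2048 * (m * b * D) := by
      calc b * b ≤ (32 * A.card) * (64 * (box a n \ A).card) := Nat.mul_le_mul hA1.le hBA2.le
        _ = 2048 * (A.card * (box a n \ A).card) := by ring
        _ ≤ _ := Nat.mul_le_mul_left _ hiso'
    have hb0 : 0 < b ∨ b = 0 := by omega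
    rcases hb0 with hb0 | hb0
    · have h2 : b ≤ 2048 * m * D := by
        apply Nat.le_of_mul_le_mul_left _ hb0
        calc b * b ≤ 2048 * (m * b * D) := h1
          _ = b * (2048 * m * D) := by ring
      have h3 : 2048 * m * D ≤ 2048 * m * P + 4096 * (m * d * c) := by
        calc 2048 * m * D ≤ 2048 * m * (P + 2 * d * c) := Nat.mul_le_mul_left _ hbd
          _ = _ := by ring
      have h4 : 2 ^ 16 * (m * d * c) ≤ b := by
        calc _ = 2 ^ 16 * m * d * c := by ring
          _ ≤ b := hc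
      have h5 : 2 ^ 12 * m * P = 2 * (2048 * m * P) := by ring
      rw [h5]
      omega
    · rw [hb0]
      exact Nat.zero_le _

/-! ### disjoint paths -/

lemma family (hN : 3 ≤ N) {R : Finset (TV N d)} {ℓ : ℕ} {A A' Y Y' : Finset (TV N d)}
    (hA : ∀ v ∈ A, ∃ y ∈ Y, nrm (y - v) ≤ ℓ) (hA' : ∀ v ∈ A', ∃ y ∈ Y', nrm (y - v) ≤ ℓ)
    (hR : ∀ v ∈ A, ∀ z, nrm (z - v) ≤ ℓ → z ∈ R) (hR' : ∀ v ∈ A', ∀ z, nrm (z - v) ≤ ℓ → z ∈ R) :
    ∃ (I : Finset (TV N d × Option (Fin d × Bool)))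
      (Γ : TV N d × Option (Fin d × Bool) → Finset (TE N d)),
      (prs A A').card ≤ (2 * d + 1) ^ (2 * ℓ + 3) * I.card ∧
      (∀ p ∈ I, (Γ p).card ≤ 2 * ℓ + 1) ∧ (∀ p ∈ I, ∀ q ∈ I, p ≠ q → Disjoint (Γ p) (Γ q)) ∧
      ∀ ζ K, ClosedIn R ζ K → Y ⊆ K → Disjoint Y' K → ∀ p ∈ I, ¬ Γ p ⊆ ζ := by
  classical
  have h : ∀ p ∈ prs A A', ∃ Γ : Finset (TE N d), Γ.card ≤ 2 * ℓ + 1 ∧
      (∀ e ∈ Γ, nrm (e.1 - p.1) ≤ ℓ + 1) ∧
      ∀ ζ K, ClosedIn R ζ K → Y ⊆ K → Disjoint Y' K → ¬ Γ ⊆ ζ := by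
    intro p hp
    rw [mem_prs] at hp
    obtain ⟨y, hyY, hy⟩ := hA _ hp.1
    obtain ⟨y', hyY', hy'⟩ := hA' _ hp.2
    obtain ⟨Γ, h1, h2, h3⟩ := path_pair hN hy hy' (hR _ hp.1) (hR' _ hp.2)
    refine ⟨Γ, h1, h2, ?_⟩
    intro ζ K hK hYK hY'K hΓ
    have h4 := (h3 ζ K hK hΓ).1 (hYK hyY)
    exact disjoint_left.1 hY'K hyY' h4
  choose! Γ h1 h2 h3 using h
  obtain ⟨I, hI, hind, hcard⟩ := greedy (fun p q => p = q ∨ ¬ Disjoint (Γ p) (Γ q))
    (fun p q h => h.elim (fun h => Or.inl h.symm) (fun h => Or.inr (fun h' => h h'.symm)))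
    ((2 * d + 1) ^ (2 * ℓ + 3)) _ (prs A A') rfl (fun p _ => Or.inl rfl) (by
      intro p hp Q hQ hr
      have hsub : Q ⊆ (((univ : Finset (TV N d)).filter (fun z => nrm z ≤ 2 * ℓ + 2)) ×ˢ
          (univ : Finset (Option (Fin d × Bool)))).image (fun q => (q.1 + p.1, q.2)) := by
        intro q hq
        rw [mem_image]
        refine ⟨(q.1 - p.1, q.2), ?_, ?_⟩
        · rw [mem_product, mem_filter]
          refine ⟨⟨mem_univ _, ?_⟩, mem_univ _⟩
          show nrm (q.1 - p.1) ≤ 2 * ℓ + 2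
          rcases hr q hq with rfl | hnd
          · rw [sub_self, nrm_zero]
            omega
          · rw [not_disjoint_iff] at hnd
            obtain ⟨e, he1, he2⟩ := hnd
            have t1 := h2 p hp e he1
            have t2 := h2 q (hQ hq) e he2
            have t3 := nrm_tri q.1 e.1 p.1
            rw [nrm_sub_comm q.1 e.1] at t3
            omega
        · simp
      refine (card_le_card hsub).trans (card_image_le.trans ?_)
      rw [card_product]
      have hc : (univ : Finset (Option (Fin d × Bool))).card = 2 * d + 1 := by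
        simp [mul_comm]
      rw [hc, show 2 * ℓ + 3 = (2 * ℓ + 2) + 1 from rfl, pow_succ]
      exact Nat.mul_le_mul_right _ (card_nrm_le hN _))
  refine ⟨I, Γ, hcard, fun p hp => h1 p (hI hp), ?_, fun ζ K hK hY hY' p hp =>
    h3 p (hI hp) ζ K hK hY hY'⟩
  intro p hp q hq hpq
  have := hind p hp q hq hpq
  push Not at this
  exact this.2

/-! ### big clusters -/

open Classical in
/-- the big clusters of `R` -/
noncomputable def bigC (R : Finset (TV N d)) (X0 : ℕ) (ω : Finset (TE N d)) :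
    Finset (Finset (TV N d)) :=
  (R.filter (fun x => X0 ≤ ((T N d).cl R ω x).card)).image (fun x => (T N d).cl R ω x)

lemma card_bigC (R : Finset (TV N d)) (X0 : ℕ) (ω : Finset (TE N d)) :
    (bigC R X0 ω).card * X0 ≤ R.card := by
  classical
  have h1 : (bigC R X0 ω).card * X0 ≤ ∑ C ∈ bigC R X0 ω, C.card := by
    rw [← smul_eq_mul]
    apply card_nsmul_le_sum
    intro C hC
    unfold bigC at hC
    obtain ⟨x, hx, rfl⟩ := mem_image.1 hC
    exact (mem_filter.1 hx).2
  have h2 : ∑ C ∈ bigC R X0 ω, C.card = ((bigC R X0 ω).biUnion id).card := by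
    rw [card_biUnion]
    · rfl
    · intro C hC C' hC' hne
      unfold bigC at hC hC'
      obtain ⟨x, hx, rfl⟩ := mem_image.1 hC
      obtain ⟨x', hx', rfl⟩ := mem_image.1 hC'
      show Disjoint ((T N d).cl R ω x) ((T N d).cl R ω x')
      rw [disjoint_left]
      intro z hz hz'
      apply hne
      rw [← LG.cl_eq_of_mem hz, ← LG.cl_eq_of_mem hz']
  rw [h2] at h1
  refine h1.trans (card_le_card ?_)
  intro z hz
  rw [mem_biUnion] at hz
  obtain ⟨C, hC, hz⟩ := hz
  unfold bigC at hC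
  obtain ⟨x, hx, rfl⟩ := mem_image.1 hC
  exact LG.cl_subset hz

lemma closed_cl {R K : Finset (TV N d)} {ω η : Finset (TE N d)} (hK : ClosedIn R (ω ∪ η) K)
    {y : TV N d} (hy : y ∈ K) : (T N d).cl R ω y ⊆ K := by
  intro z hz
  obtain ⟨k, hk⟩ := LG.mem_cl_iff.1 hz
  clear hz
  induction k generalizing z with
  | zero =>
    obtain ⟨_, h⟩ := LG.mem_ball_zero.1 hk
    rw [h]
    exact hy
  | succ k ih =>
    rcases LG.mem_ball_succ.1 hk with h | ⟨h1, w, hw, hadj⟩
    · exact ih h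
    · exact hK.2 w (ih hw) z h1 (hadj.mono subset_union_left)

lemma same_big {Sy : TV N d → Finset (TV N d)} {X0 : ℕ} {R K K' : Finset (TV N d)}
    {ω η : Finset (TE N d)} (hK : ClosedIn R (ω ∪ η) K)
    (h : ∀ C ∈ bigC R X0 ω, C ⊆ K → C ⊆ K') {y : TV N d} (hy : y ∈ bigU Sy X0 ω)
    (hyS : y ∈ Sy y) (hSR : Sy y ⊆ R) (hyK : y ∈ K) : y ∈ K' := by
  classical
  have hyR : y ∈ R := hSR hyS
  have hC : (T N d).cl R ω y ∈ bigC R X0 ω := by
    unfold bigC
    rw [mem_image]
    refine ⟨y, ?_, rfl⟩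
    rw [mem_filter]
    refine ⟨hyR, ?_⟩
    unfold bigU at hy
    exact (mem_filter.1 hy).2.trans (card_le_card (LG.cl_mono hSR (Subset.refl _)))
  exact h _ hC (closed_cl hK hyK) (LG.self_mem_cl hyR)

/-- the alternative in the definition of `Good` -/
def Alt (Sy : TV N d → Finset (TV N d)) (X0 ℓ : ℕ) (R B : Finset (TV N d))
    (ω : Finset (TE N d)) (K : Finset (TV N d)) : Prop :=
  (16 * (nbd Sy X0 ℓ B ω K).card ≤ B.card ∧ 15 * B.card ≤ 16 * (nbd Sy X0 ℓ B ω (R \ K)).card) ∨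
    (16 * (nbd Sy X0 ℓ B ω (R \ K)).card ≤ B.card ∧ 15 * B.card ≤ 16 * (nbd Sy X0 ℓ B ω K).card)

lemma mem_nbd {Sy : TV N d → Finset (TV N d)} {X0 ℓ : ℕ} {B : Finset (TV N d)}
    {ω : Finset (TE N d)} {K : Finset (TV N d)} {v : TV N d} :
    v ∈ nbd Sy X0 ℓ B ω K ↔ v ∈ B ∧ ∃ y ∈ bigU Sy X0 ω, y ∈ K ∧ nrm (y - v) ≤ ℓ := by
  unfold nbd
  rw [mem_filter]

open Classical in
/-- vertices which see no big cluster -/
noncomputable def bad0 (Sy : TV N d → Finset (TV N d)) (X0 ℓ : ℕ) (B : Finset (TV N d))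
    (ω : Finset (TE N d)) : Finset (TV N d) :=
  B.filter (fun v => ∀ y, nrm (y - v) ≤ ℓ → ((T N d).cl (Sy y) ω y).card < X0)

lemma one_case (hN : 3 ≤ N) (hd : 1 ≤ d) (Sy : TV N d → Finset (TV N d)) {X0 : ℕ} (ℓ : ℕ)
    (R : Finset (TV N d)) (a : TV N d) (n : Fin d → ℕ) {m : ℕ} (hm : 1 ≤ m) (hn : ∀ i, n i ≤ m)
    (hnN : ∀ i, n i ≤ N)
    (hR : ∀ v ∈ box a n, ∀ y, nrm (y - v) ≤ ℓ → y ∈ Sy y ∧ Sy y ⊆ R)
    {ε : ℝ} (hε0 : 0 ≤ ε) (hε1 : ε ≤ 1) (ω : Finset (TE N d))
    (hg : 2 ^ 16 * m * d * (bad0 Sy X0 ℓ (box a n) ω).card ≤ (box a n).card)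
    (U : Finset (Finset (TV N d))) :
    Pr univ ε (fun η => ∃ K, ClosedIn R (ω ∪ η) K ∧ ¬ Alt Sy X0 ℓ R (box a n) ω K ∧
        ∀ C ∈ bigC R X0 ω, C ⊆ K ↔ C ∈ U) ≤
      Real.exp (-(ε ^ (2 * ℓ + 1) * (box a n).card / (2 ^ 16 * m * (2 * d + 1) ^ (2 * ℓ + 3)))) := by
  classical
  by_cases hex : ∃ η K, ClosedIn R (ω ∪ η) K ∧ ¬ Alt Sy X0 ℓ R (box a n) ω K ∧
        ∀ C ∈ bigC R X0 ω, C ⊆ K ↔ C ∈ U
  · obtain ⟨η0, K0, hK0, hv0, hU0⟩ := hex
    set A := nbd Sy X0 ℓ (box a n) ω K0 with hAdef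
    set A' := nbd Sy X0 ℓ (box a n) ω (R \ K0) with hA'def
    set W := (bigU Sy X0 ω).filter (fun y => ∃ v ∈ box a n, nrm (y - v) ≤ ℓ) with hW
    have hWR : ∀ y ∈ W, y ∈ Sy y ∧ Sy y ⊆ R := by
      intro y hy
      rw [hW, mem_filter] at hy
      obtain ⟨_, v, hv, hyv⟩ := hy
      exact hR v hv y hyv
    have hAB : A ⊆ box a n := fun v hv => (mem_nbd.1 hv).1
    have hAB' : A' ⊆ box a n := fun v hv => (mem_nbd.1 hv).1
    have hcov : box a n \ (A ∪ A') ⊆ bad0 Sy X0 ℓ (box a n) ω := by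
      intro v hv
      rw [mem_sdiff, mem_union] at hv
      obtain ⟨hvB, hv2⟩ := hv
      unfold bad0
      rw [mem_filter]
      refine ⟨hvB, ?_⟩
      intro y hy
      by_contra hcon
      push Not at hcon
      have hyU : y ∈ bigU Sy X0 ω := by
        unfold bigU
        rw [mem_filter]
        exact ⟨mem_univ _, hcon⟩
      obtain ⟨hyS, hSR⟩ := hR v hvB y hy
      by_cases hyK : y ∈ K0
      · exact hv2 (Or.inl (mem_nbd.2 ⟨hvB, y, hyU, hyK, hy⟩))
      · exact hv2 (Or.inr (mem_nbd.2 ⟨hvB, y, hyU, mem_sdiff.2 ⟨hSR hyS, hyK⟩, hy⟩))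
    have hc : 2 ^ 16 * m * d * (box a n \ (A ∪ A')).card ≤ (box a n).card :=
      (Nat.mul_le_mul_left _ (card_le_card hcov)).trans hg
    have hcount := count hm hd hn hnN hAB hAB' hc hv0
    obtain ⟨I, Γ, hI1, hI2, hI3, hI4⟩ := family (R := R) (ℓ := ℓ) (A := A) (A' := A')
      (Y := W.filter (fun y => y ∈ K0)) (Y' := W.filter (fun y => y ∉ K0)) hN
      (by
        intro v hv
        obtain ⟨hvB, y, hyU, hyK, hy⟩ := mem_nbd.1 hv
        refine ⟨y, ?_, hy⟩
        rw [mem_filter, hW, mem_filter]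
        exact ⟨⟨hyU, v, hvB, hy⟩, hyK⟩)
      (by
        intro v hv
        obtain ⟨hvB, y, hyU, hyK, hy⟩ := mem_nbd.1 hv
        refine ⟨y, ?_, hy⟩
        rw [mem_filter, hW, mem_filter]
        exact ⟨⟨hyU, v, hvB, hy⟩, (mem_sdiff.1 hyK).2⟩)
      (by
        intro v hv z hz
        obtain ⟨h1, h2⟩ := hR v (hAB hv) z hz
        exact h2 h1)
      (by
        intro v hv z hz
        obtain ⟨h1, h2⟩ := hR v (hAB' hv) z hz
        exact h2 h1)
    have hstep : Pr univ ε (fun η => ∃ K, ClosedIn R (ω ∪ η) K ∧ ¬ Alt Sy X0 ℓ R (box a n) ω K ∧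
        ∀ C ∈ bigC R X0 ω, C ⊆ K ↔ C ∈ U) ≤ Pr univ ε (fun η => ∀ p ∈ I, ¬ Γ p ⊆ η) := by
      apply Pr_mono hε0 hε1
      rintro η - ⟨K, hK, hv, hU⟩ p hp hΓ
      refine hI4 (ω ∪ η) K hK ?_ ?_ p hp (hΓ.trans subset_union_right)
      · intro y hy
        rw [mem_filter] at hy
        obtain ⟨hyS, hSR⟩ := hWR y hy.1
        rw [hW, mem_filter] at hy
        exact same_big hK0 (fun C hC h => (hU C hC).2 ((hU0 C hC).1 h)) hy.1.1 hyS hSR hy.2
      · rw [disjoint_left]
        intro y hy hyK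
        rw [mem_filter] at hy
        obtain ⟨hyS, hSR⟩ := hWR y hy.1
        rw [hW, mem_filter] at hy
        exact hy.2 (same_big hK (fun C hC h => (hU0 C hC).2 ((hU C hC).1 h)) hy.1.1 hyS hSR hyK)
    refine hstep.trans ((Pr_none hε0 hε1 I Γ (2 * ℓ + 1) hI2 hI3).trans ?_)
    have h1 : 1 - ε ^ (2 * ℓ + 1) ≤ Real.exp (-ε ^ (2 * ℓ + 1)) := Real.one_sub_le_exp_neg _
    have h0 : 0 ≤ 1 - ε ^ (2 * ℓ + 1) := by
      have : ε ^ (2 * ℓ + 1) ≤ 1 := pow_le_one₀ hε0 hε1
      linarith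
    refine (pow_le_pow_left₀ h0 h1 _).trans ?_
    rw [← Real.exp_nat_mul]
    apply Real.exp_le_exp.2
    have hb : ((box a n).card : ℝ) ≤ 2 ^ 12 * m * ((2 * d + 1) ^ (2 * ℓ + 3) * I.card) := by
      have : (box a n).card ≤ 2 ^ 12 * m * ((2 * d + 1) ^ (2 * ℓ + 3) * I.card) :=
        hcount.trans (Nat.mul_le_mul_left _ hI1)
      exact_mod_cast this
    have hmpos : (0:ℝ) < m := by exact_mod_cast hm
    have hden : (0:ℝ) < 2 ^ 16 * m * (2 * d + 1) ^ (2 * ℓ + 3) := by positivity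
    have hεL : 0 ≤ ε ^ (2 * ℓ + 1) := by positivity
    have key : ε ^ (2 * ℓ + 1) * (box a n).card / (2 ^ 16 * m * (2 * d + 1) ^ (2 * ℓ + 3)) ≤
        I.card * ε ^ (2 * ℓ + 1) := by
      rw [div_le_iff₀ hden]
      calc ε ^ (2 * ℓ + 1) * ((box a n).card : ℝ)
          ≤ ε ^ (2 * ℓ + 1) * (2 ^ 12 * m * ((2 * d + 1) ^ (2 * ℓ + 3) * I.card)) :=
            mul_le_mul_of_nonneg_left hb hεL
        _ ≤ ε ^ (2 * ℓ + 1) * (2 ^ 16 * m * ((2 * d + 1) ^ (2 * ℓ + 3) * I.card)) := by
            apply mul_le_mul_of_nonneg_left _ hεL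
            apply mul_le_mul_of_nonneg_right _ (by positivity)
            apply mul_le_mul_of_nonneg_right _ hmpos.le
            norm_num
        _ = _ := by ring
    linarith
  · push Not at hex
    have h0 : Pr univ ε (fun η => ∃ K, ClosedIn R (ω ∪ η) K ∧ ¬ Alt Sy X0 ℓ R (box a n) ω K ∧
        ∀ C ∈ bigC R X0 ω, C ⊆ K ↔ C ∈ U) ≤ Pr (univ : Finset (TE N d)) ε (fun _ => False) := by
      apply Pr_mono hε0 hε1
      rintro η - ⟨K, hK, hv, hU⟩
      obtain ⟨C, hC, hC2⟩ := hex η K hK hv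
      rcases hC2 with ⟨h1, h2⟩ | ⟨h1, h2⟩
      · exact h2 ((hU C hC).1 h1)
      · exact h1 ((hU C hC).2 h2)
    have h1 : Pr (univ : Finset (TE N d)) ε (fun _ => False) = 0 := by
      unfold Pr
      simp [Ex_const]
    rw [h1] at h0
    exact h0.trans (Real.exp_pos _).le

lemma fixed (hN : 3 ≤ N) (hd : 1 ≤ d) (Sy : TV N d → Finset (TV N d)) {X0 : ℕ} (hX0 : 1 ≤ X0)
    (ℓ : ℕ) (R : Finset (TV N d)) (a : TV N d) (n : Fin d → ℕ) {m : ℕ} (hm : 1 ≤ m)
    (hn : ∀ i, n i ≤ m) (hnN : ∀ i, n i ≤ N)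
    (hR : ∀ v ∈ box a n, ∀ y, nrm (y - v) ≤ ℓ → y ∈ Sy y ∧ Sy y ⊆ R)
    {ε : ℝ} (hε0 : 0 ≤ ε) (hε1 : ε ≤ 1) (ω : Finset (TE N d))
    (hg : 2 ^ 16 * m * d * (bad0 Sy X0 ℓ (box a n) ω).card ≤ (box a n).card) :
    Pr univ ε (fun η => ¬ Good Sy X0 ℓ R (box a n) ω η) ≤ (2 : ℝ) ^ ((R.card : ℝ) / X0)
        * Real.exp (-(ε ^ (2 * ℓ + 1) * (box a n).card / (2 ^ 16 * m * (2 * d + 1) ^ (2 * ℓ + 3)))) := by
  classical
  have h1 := Pr_sum_le (F := (univ : Finset (TE N d))) hε0 hε1 (bigC R X0 ω).powerset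
    (A := fun η => ¬ Good Sy X0 ℓ R (box a n) ω η)
    (fun U η => ∃ K, ClosedIn R (ω ∪ η) K ∧ ¬ Alt Sy X0 ℓ R (box a n) ω K ∧
        ∀ C ∈ bigC R X0 ω, C ⊆ K ↔ C ∈ U)
    (by
      intro η _ hη
      unfold Good at hη
      push Not at hη
      obtain ⟨K, hK, hv⟩ := hη
      refine ⟨(bigC R X0 ω).filter (fun C => C ⊆ K), ?_, K, hK, ?_, ?_⟩
      · rw [mem_powerset]
        exact filter_subset _ _
      · unfold Alt
        push Not
        exact hv
      · intro C hC
        rw [mem_filter]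
        exact ⟨fun h => ⟨hC, h⟩, fun h => h.2⟩)
  refine h1.trans ((sum_le_sum (fun U _ =>
    one_case hN hd Sy ℓ R a n hm hn hnN hR hε0 hε1 ω hg U)).trans ?_)
  rw [sum_const, card_powerset, nsmul_eq_mul]
  apply mul_le_mul_of_nonneg_right _ (Real.exp_pos _).le
  push_cast
  rw [← Real.rpow_natCast]
  apply Real.rpow_le_rpow_of_exponent_le (by norm_num)
  rw [le_div_iff₀ (by exact_mod_cast hX0)]
  exact_mod_cast card_bigC R X0 ω

end AK

theorem aks (hN : 3 ≤ N) (hd : 1 ≤ d) (Sy : TV N d → Finset (TV N d)) {X0 : ℕ} (hX0 : 1 ≤ X0) (ℓ : ℕ)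
    (R : Finset (TV N d)) (a : TV N d) (n : Fin d → ℕ) {m : ℕ} (hm : 1 ≤ m) (hn : ∀ i, n i ≤ m)
    (hnN : ∀ i, n i ≤ N)
    (hR : ∀ v ∈ box a n, ∀ y, nrm (y - v) ≤ ℓ → y ∈ Sy y ∧ Sy y ⊆ R)
    {p ε κ : ℝ} (hp0 : 0 ≤ p) (hp1 : p ≤ 1) (hε0 : 0 ≤ ε) (hε1 : ε ≤ 1)
    (hκ : ∀ v ∈ box a n, Pr univ p (fun ω => ∀ y, nrm (y - v) ≤ ℓ →
      ((T N d).cl (Sy y) ω y).card < X0) ≤ κ) (hκ0 : 0 ≤ κ) :
    Ex univ p (fun ω => Pr univ ε (fun η => ¬ Good Sy X0 ℓ R (box a n) ω η))
      ≤ 2 ^ 16 * m * d * κ + (2 : ℝ) ^ ((R.card : ℝ) / X0)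
        * Real.exp (-(ε ^ (2 * ℓ + 1) * (box a n).card / (2 ^ 16 * m * (2 * d + 1) ^ (2 * ℓ + 3)))) := by
  classical
  set E2 : ℝ := (2 : ℝ) ^ ((R.card : ℝ) / X0)
        * Real.exp (-(ε ^ (2 * ℓ + 1) * (box a n).card / (2 ^ 16 * m * (2 * d + 1) ^ (2 * ℓ + 3))))
    with hE2
  have hE2pos : 0 ≤ E2 := by positivity
  have hmd : (0:ℝ) ≤ 2 ^ 16 * m * d := by positivity
  rcases Nat.eq_zero_or_pos (box a n).card with hb | hb
  · apply (Ex_le hp0 hp1 (c := E2) _).trans
    · have : 0 ≤ 2 ^ 16 * (m:ℝ) * d * κ := by positivity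
      linarith
    · intro ω _
      apply AK.fixed hN hd Sy hX0 ℓ R a n hm hn hnN hR hε0 hε1 ω
      have : (AK.bad0 Sy X0 ℓ (box a n) ω).card ≤ (box a n).card := by
        unfold AK.bad0
        exact card_le_card (filter_subset _ _)
      rw [hb] at this ⊢
      have h0 : (AK.bad0 Sy X0 ℓ (box a n) ω).card = 0 := by omega
      rw [h0]
      simp
  · have hbR : (0:ℝ) < (box a n).card := by exact_mod_cast hb
    have hpt : ∀ ω ⊆ (univ : Finset (TE N d)), Pr univ ε (fun η => ¬ Good Sy X0 ℓ R (box a n) ω η) ≤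
        2 ^ 16 * m * d / (box a n).card * ((AK.bad0 Sy X0 ℓ (box a n) ω).card : ℝ) + E2 := by
      intro ω _
      by_cases hg : 2 ^ 16 * m * d * (AK.bad0 Sy X0 ℓ (box a n) ω).card ≤ (box a n).card
      · have h1 := AK.fixed hN hd Sy hX0 ℓ R a n hm hn hnN hR hε0 hε1 ω hg
        have h2 : 0 ≤ 2 ^ 16 * (m:ℝ) * d / (box a n).card *
            ((AK.bad0 Sy X0 ℓ (box a n) ω).card : ℝ) := by positivity
        linarith
      · have h1 : Pr univ ε (fun η => ¬ Good Sy X0 ℓ R (box a n) ω η) ≤ 1 := Pr_le_one hε0 hε1 _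
        have h2 : 1 ≤ 2 ^ 16 * (m:ℝ) * d / (box a n).card *
            ((AK.bad0 Sy X0 ℓ (box a n) ω).card : ℝ) := by
          rw [div_mul_eq_mul_div, le_div_iff₀ hbR, one_mul]
          push Not at hg
          exact_mod_cast hg.le
        linarith
    refine (Ex_mono hp0 hp1 hpt).trans ?_
    rw [Ex_add, Ex_const, Ex_mul_left]
    have hE : Ex univ p (fun ω => ((AK.bad0 Sy X0 ℓ (box a n) ω).card : ℝ)) ≤
        (box a n).card * κ := by
      have h1 : ∀ ω : Finset (TE N d), ((AK.bad0 Sy X0 ℓ (box a n) ω).card : ℝ) =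
          ∑ v ∈ box a n, (if (∀ y, nrm (y - v) ≤ ℓ → ((T N d).cl (Sy y) ω y).card < X0)
            then (1:ℝ) else 0) := by
        intro ω
        unfold AK.bad0
        rw [card_filter]
        push_cast
        rfl
      have e1 : Ex univ p (fun ω => ((AK.bad0 Sy X0 ℓ (box a n) ω).card : ℝ)) =
          Ex univ p (fun ω => ∑ v ∈ box a n, (if (∀ y, nrm (y - v) ≤ ℓ →
            ((T N d).cl (Sy y) ω y).card < X0) then (1:ℝ) else 0)) := Ex_congr (fun ω _ => h1 ω)
      rw [e1, Ex_sum, ← nsmul_eq_mul, ← sum_const]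
      refine sum_le_sum (fun v hv => le_trans (le_of_eq ?_) (hκ v hv))
      unfold Pr
      apply Ex_congr
      intro ω _
      by_cases h : ∀ y, nrm (y - v) ≤ ℓ → ((T N d).cl (Sy y) ω y).card < X0
      · rw [if_pos h, if_pos h]
      · rw [if_neg h, if_neg h]
    have h3 : 2 ^ 16 * (m:ℝ) * d / (box a n).card *
        Ex univ p (fun ω => ((AK.bad0 Sy X0 ℓ (box a n) ω).card : ℝ)) ≤ 2 ^ 16 * m * d * κ := by
      calc _ ≤ 2 ^ 16 * (m:ℝ) * d / (box a n).card * ((box a n).card * κ) := by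
            apply mul_le_mul_of_nonneg_left hE
            positivity
        _ = _ := by
          field_simp
    linarith

end DDA
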