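import Pool.Agent.DDA.Torus

/-!
# DDA: the Benjamini-Schramm coupling of percolation on `T_N` and on `T_4`, `4 ∣ N`
-/

open Finset
set_option linter.unusedSectionVars false
set_option linter.unusedVariables false
namespace DDA
variable {N d : ℕ} [NeZero N]

/-- the covering map -/
def pr4 (N d : ℕ) (x : TV N d) : TV 4 d := fun i => ZMod.cast (x i)
def pr4E (N d : ℕ) (e : TE N d) : TE 4 d := (pr4 N d e.1, e.2)

structure Lift (N d : ℕ) [NeZero N] (ω : Finset (TE 4 d)) where
  D : Finset (TV N d)
  O : Finset (TE N d)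
  C : Finset (TE N d)
  zero_mem : (0 : TV N d) ∈ D
  inj : Set.InjOn (pr4 N d) D
  image : D.image (pr4 N d) = (T 4 d).cl univ ω 0
  disj : Disjoint O C
  /-- `D` is connected by the lifted open edges -/
  conn : ∀ x ∈ D, x ∈ (T N d).cl D O 0
  open_mem : ∀ e ∈ O, pr4E N d e ∈ ω ∧ (T N d).s e ∈ D ∧ (T N d).t e ∈ D
  closed_mem : ∀ e ∈ C, pr4E N d e ∉ ω ∧ ((T N d).s e ∈ D ∨ (T N d).t e ∈ D)
  /-- every edge from `D` to a vertex which is not above the cluster has been queried (and found closed) -/
  boundary : ∀ e : TE N d, ∀ x y, (T N d).J e x y → x ∈ D → pr4 N d y ∉ D.image (pr4 N d) → e ∈ C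
  /-- the state of the exploration at the time when the edge `e` was queried -/
  history : ∀ e ∈ O ∪ C, ∃ D' ⊆ D, ∃ O' ⊆ O, ∃ x y, (T N d).J e x y ∧ x ∈ D' ∧ (0 : TV N d) ∈ D' ∧
    pr4 N d y ∉ D'.image (pr4 N d) ∧ ∀ z ∈ D', z ∈ (T N d).cl D' O' 0

lemma pr4_add (h4 : 4 ∣ N) (x y : TV N d) : pr4 N d (x + y) = pr4 N d x + pr4 N d y := by
  funext i
  exact ZMod.cast_add h4 _ _

lemma pr4_sub (h4 : 4 ∣ N) (x y : TV N d) : pr4 N d (x - y) = pr4 N d x - pr4 N d y := by
  funext i
  exact ZMod.cast_sub h4 _ _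

lemma pr4_single (h4 : 4 ∣ N) (i : Fin d) :
    pr4 N d (Pi.single i 1) = Pi.single i 1 := by
  funext j
  unfold pr4
  by_cases h : j = i
  · subst h
    rw [Pi.single_eq_same, Pi.single_eq_same]
    exact ZMod.cast_one h4
  · rw [Pi.single_eq_of_ne h, Pi.single_eq_of_ne h]
    exact ZMod.cast_zero

lemma pr4_zero : pr4 N d 0 = 0 := by
  funext i
  exact ZMod.cast_zero

/-- the covering map preserves incidence -/
lemma pr4_J (h4 : 4 ∣ N) {e : TE N d} {x y : TV N d} (h : (T N d).J e x y) :
    (T 4 d).J (pr4E N d e) (pr4 N d x) (pr4 N d y) := by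
  rw [T_J] at h ⊢
  rcases h with ⟨h1, h2⟩ | ⟨h1, h2⟩
  · left
    refine ⟨?_, ?_⟩
    · rw [← h1]; rfl
    · rw [h2, pr4_add h4, pr4_single h4]; rfl
  · right
    refine ⟨?_, ?_⟩
    · rw [← h1]; rfl
    · rw [h2, pr4_sub h4, pr4_single h4]; rfl

/-- lifting of edges -/
lemma lift_J (h4 : 4 ∣ N) {f : TE 4 d} {x : TV N d} {v : TV 4 d}
    (h : (T 4 d).J f (pr4 N d x) v) :
    ∃ e y, (T N d).J e x y ∧ pr4E N d e = f ∧ pr4 N d y = v := by
  rw [T_J] at h
  rcases h with ⟨h1, h2⟩ | ⟨h1, h2⟩
  · refine ⟨(x, f.2), x + Pi.single f.2 1, ?_, ?_, ?_⟩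
    · rw [T_J]; exact Or.inl ⟨rfl, rfl⟩
    · unfold pr4E; rw [← h1]
    · rw [h2, pr4_add h4, pr4_single h4]
  · refine ⟨(x - Pi.single f.2 1, f.2), x - Pi.single f.2 1, ?_, ?_, ?_⟩
    · rw [T_J]; exact Or.inr ⟨rfl, rfl⟩
    · unfold pr4E
      rw [pr4_sub h4, pr4_single h4, ← h2, ← h1]
    · rw [h2, pr4_sub h4, pr4_single h4]

/-- invariants of the exploration -/
structure Inv (ω : Finset (TE 4 d)) (D : Finset (TV N d)) (O C : Finset (TE N d)) : Prop where
  zero_mem : (0 : TV N d) ∈ D
  inj : Set.InjOn (pr4 N d) D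
  disj : Disjoint O C
  conn : ∀ x ∈ D, x ∈ (T N d).cl D O 0
  open_mem : ∀ e ∈ O, pr4E N d e ∈ ω ∧ (T N d).s e ∈ D ∧ (T N d).t e ∈ D
  closed_mem : ∀ e ∈ C, pr4E N d e ∉ ω ∧ ((T N d).s e ∈ D ∨ (T N d).t e ∈ D)
  history : ∀ e ∈ O ∪ C, ∃ D' ⊆ D, ∃ O' ⊆ O, ∃ x y, (T N d).J e x y ∧ x ∈ D' ∧ (0 : TV N d) ∈ D' ∧
    pr4 N d y ∉ D'.image (pr4 N d) ∧ ∀ z ∈ D', z ∈ (T N d).cl D' O' 0

/-- no unqueried edge leads from a discovered vertex to an undiscovered one -/
def Term (D : Finset (TV N d)) (O C : Finset (TE N d)) : Prop :=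
  ∀ e x y, (T N d).J e x y → x ∈ D → pr4 N d y ∉ D.image (pr4 N d) →
    pr4E N d e ∈ (O ∪ C).image (pr4E N d)

omit [NeZero N] in
lemma J_mem {e : TE N d} {x y : TV N d} (h : (T N d).J e x y) (D : Finset (TV N d)) (hx : x ∈ D) :
    (T N d).s e ∈ D ∨ (T N d).t e ∈ D := by
  rcases h with ⟨h1, _⟩ | ⟨_, h1⟩
  · left; rw [h1]; exact hx
  · right; rw [h1]; exact hx

lemma Inv.start (ω : Finset (TE 4 d)) : Inv (N := N) ω {0} ∅ ∅ where
  zero_mem := mem_singleton_self _
  inj := by
    intro x hx y hy _
    have h1 : x = 0 := mem_singleton.mp hx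
    have h2 : y = 0 := mem_singleton.mp hy
    rw [h1, h2]
  disj := disjoint_empty_left _
  conn := by
    intro x hx
    rw [mem_singleton.mp hx]
    exact LG.self_mem_cl (mem_singleton_self _)
  open_mem := by intro e he; exact absurd he (notMem_empty _)
  closed_mem := by intro e he; exact absurd he (notMem_empty _)
  history := by
    intro e he
    rw [union_empty] at he
    exact absurd he (notMem_empty _)

lemma Inv.step_closed {ω : Finset (TE 4 d)} {D : Finset (TV N d)} {O C : Finset (TE N d)}
    (h : Inv ω D O C) {e : TE N d} {x y : TV N d} (hJ : (T N d).J e x y) (hx : x ∈ D)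
    (hy : pr4 N d y ∉ D.image (pr4 N d)) (he : pr4E N d e ∉ (O ∪ C).image (pr4E N d))
    (hω : pr4E N d e ∉ ω) : Inv ω D O (insert e C) where
  zero_mem := h.zero_mem
  inj := h.inj
  disj := by
    rw [disjoint_insert_right]
    exact ⟨fun h1 => he (mem_image_of_mem _ (mem_union_left _ h1)), h.disj⟩
  conn := h.conn
  open_mem := h.open_mem
  closed_mem := by
    intro e' he'
    rcases mem_insert.mp he' with rfl | h1
    · exact ⟨hω, J_mem hJ D hx⟩
    · exact h.closed_mem e' h1
  history := by
    intro e' he'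
    rw [union_insert] at he'
    rcases mem_insert.mp he' with rfl | h1
    · exact ⟨D, Subset.refl _, O, Subset.refl _, x, y, hJ, hx, h.zero_mem, hy, h.conn⟩
    · exact h.history e' h1

lemma Inv.step_open {ω : Finset (TE 4 d)} {D : Finset (TV N d)} {O C : Finset (TE N d)}
    (h : Inv ω D O C) {e : TE N d} {x y : TV N d} (hJ : (T N d).J e x y) (hx : x ∈ D)
    (hy : pr4 N d y ∉ D.image (pr4 N d)) (he : pr4E N d e ∉ (O ∪ C).image (pr4E N d))
    (hω : pr4E N d e ∈ ω) : Inv ω (insert y D) (insert e O) C where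
  zero_mem := mem_insert_of_mem h.zero_mem
  inj := by
    intro a ha b hb hab
    have key : ∀ c ∈ D, pr4 N d c ≠ pr4 N d y := by
      intro c hc hcy
      apply hy
      rw [← hcy]
      exact mem_image_of_mem _ hc
    rcases mem_insert.mp ha with ha1 | ha1
    · rcases mem_insert.mp hb with hb1 | hb1
      · rw [ha1, hb1]
      · exfalso
        apply key b hb1
        rw [← hab, ha1]
    · rcases mem_insert.mp hb with hb1 | hb1
      · exfalso
        apply key a ha1
        rw [hab, hb1]
      · exact h.inj ha1 hb1 hab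
  disj := by
    rw [disjoint_insert_left]
    exact ⟨fun h1 => he (mem_image_of_mem _ (mem_union_right _ h1)), h.disj⟩
  conn := by
    have hmono : ∀ z ∈ D, z ∈ (T N d).cl (insert y D) (insert e O) 0 := by
      intro z hz
      obtain ⟨k, hk⟩ := LG.mem_cl_iff.mp (h.conn z hz)
      exact LG.mem_cl_iff.mpr ⟨k, LG.ball_mono (subset_insert _ _) (subset_insert _ _) hk⟩
    intro z hz
    rcases mem_insert.mp hz with rfl | hz
    · exact LG.mem_cl_step (hmono x hx) ⟨e, mem_insert_self _ _, hJ⟩ (mem_insert_self _ _)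
    · exact hmono z hz
  open_mem := by
    intro e' he'
    rcases mem_insert.mp he' with rfl | h1
    · refine ⟨hω, ?_⟩
      rcases hJ with ⟨h1, h2⟩ | ⟨h1, h2⟩
      · rw [h1, h2]; exact ⟨mem_insert_of_mem hx, mem_insert_self _ _⟩
      · rw [h1, h2]; exact ⟨mem_insert_self _ _, mem_insert_of_mem hx⟩
    · have h2 := h.open_mem e' h1
      exact ⟨h2.1, mem_insert_of_mem h2.2.1, mem_insert_of_mem h2.2.2⟩
  closed_mem := by
    intro e' he'
    have h2 := h.closed_mem e' he'
    exact ⟨h2.1, h2.2.imp mem_insert_of_mem mem_insert_of_mem⟩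
  history := by
    intro e' he'
    rw [insert_union] at he'
    rcases mem_insert.mp he' with rfl | h1
    · exact ⟨D, subset_insert _ _, O, subset_insert _ _, x, y, hJ, hx, h.zero_mem, hy, h.conn⟩
    · obtain ⟨D', hD', O', hO', r⟩ := h.history e' h1
      exact ⟨D', hD'.trans (subset_insert _ _), O', hO'.trans (subset_insert _ _), r⟩

/-- a terminal state gives a lift -/
lemma Inv.lift (h4 : 4 ∣ N) {ω : Finset (TE 4 d)} {D : Finset (TV N d)} {O C : Finset (TE N d)}
    (h : Inv ω D O C) (ht : Term D O C) :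
    ∃ L : Lift N d ω, L.D = D ∧ L.O = O ∧ L.C = C := by
  have himage : D.image (pr4 N d) = (T 4 d).cl univ ω 0 := by
    apply Subset.antisymm
    · intro u hu
      obtain ⟨x, hx, rfl⟩ := mem_image.mp hu
      have key : ∀ k, ∀ z ∈ (T N d).ball D O 0 k, pr4 N d z ∈ (T 4 d).ball univ ω 0 k := by
        intro k
        induction k with
        | zero =>
          intro z hz
          obtain ⟨_, rfl⟩ := LG.mem_ball_zero.mp hz
          exact LG.mem_ball_zero.mpr ⟨mem_univ _, pr4_zero⟩
        | succ k ih =>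
          intro z hz
          rcases LG.mem_ball_succ.mp hz with h1 | ⟨h1, w, hw, e, he, hJ⟩
          · exact LG.mem_ball_succ.mpr (Or.inl (ih z h1))
          · refine LG.mem_ball_succ.mpr (Or.inr ⟨mem_univ _, pr4 N d w, ih w hw, pr4E N d e,
              (h.open_mem e he).1, pr4_J h4 hJ⟩)
      obtain ⟨k, hk⟩ := LG.mem_cl_iff.mp (h.conn x hx)
      exact LG.mem_cl_iff.mpr ⟨k, key k x hk⟩
    · intro u hu
      obtain ⟨k, hk⟩ := LG.mem_cl_iff.mp hu
      clear hu
      induction k generalizing u with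
      | zero =>
        obtain ⟨_, rfl⟩ := LG.mem_ball_zero.mp hk
        exact mem_image.mpr ⟨0, h.zero_mem, pr4_zero⟩
      | succ k ih =>
        rcases LG.mem_ball_succ.mp hk with h1 | ⟨_, w, hw, f, hf, hJ⟩
        · exact ih h1
        · obtain ⟨x, hx, rfl⟩ := mem_image.mp (ih hw)
          by_contra hu
          obtain ⟨e, y, hJ', hef, hyu⟩ := lift_J h4 hJ
          have h2 := ht e x y hJ' hx (by rw [hyu]; exact hu)
          obtain ⟨e', he', hee⟩ := mem_image.mp h2
          rcases mem_union.mp he' with h3 | h3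
          · have h4' := h.open_mem e' h3
            apply hu
            have h5 : (T 4 d).J (pr4E N d e') (pr4 N d ((T N d).s e')) (pr4 N d ((T N d).t e')) :=
              pr4_J h4 (Or.inl ⟨rfl, rfl⟩)
            rw [hee, hef] at h5
            rcases hJ with ⟨a, b⟩ | ⟨a, b⟩ <;> rcases h5 with ⟨c, c'⟩ | ⟨c, c'⟩
            · rw [← b, c']; exact mem_image_of_mem _ h4'.2.2
            · rw [← b, c']; exact mem_image_of_mem _ h4'.2.1
            · rw [← a, c]; exact mem_image_of_mem _ h4'.2.1
            · rw [← a, c]; exact mem_image_of_mem _ h4'.2.2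
          · apply (h.closed_mem e' h3).1
            rw [hee, hef]
            exact hf
  refine ⟨⟨D, O, C, h.zero_mem, h.inj, himage, h.disj, h.conn, h.open_mem, h.closed_mem, ?_,
    h.history⟩, rfl, rfl, rfl⟩
  intro e x y hJ hx hy
  obtain ⟨e', he', hee⟩ := mem_image.mp (ht e x y hJ hx hy)
  unfold pr4E at hee
  have hee1 : pr4 N d e'.1 = pr4 N d e.1 := (Prod.mk.inj hee).1
  have hee2 : e'.2 = e.2 := (Prod.mk.inj hee).2
  have hs' : (T N d).s e' = e'.1 := rfl
  have ht' : (T N d).t e' = e'.1 + Pi.single e'.2 1 := rfl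
  rcases mem_union.mp he' with h3 | h3
  · exfalso
    apply hy
    have h5 := h.open_mem e' h3
    rw [T_J] at hJ
    rcases hJ with ⟨a, b⟩ | ⟨a, b⟩
    · have : pr4 N d y = pr4 N d ((T N d).t e') := by
        rw [ht', pr4_add h4, hee1, hee2, b, pr4_add h4, a]
      rw [this]
      exact mem_image_of_mem _ h5.2.2
    · have : pr4 N d y = pr4 N d ((T N d).s e') := by
        rw [hs', hee1, a]
      rw [this]
      exact mem_image_of_mem _ h5.2.1
  · have h5 := (h.closed_mem e' h3).2
    rw [T_J] at hJ
    have hne : e' = e := by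
      rcases hJ with ⟨a, b⟩ | ⟨a, b⟩
      · -- e starts at x
        have hty : pr4 N d ((T N d).t e') = pr4 N d y := by
          rw [ht', pr4_add h4, hee1, hee2, b, pr4_add h4, a]
        rcases h5 with h6 | h6
        · have h7 : e'.1 = e.1 := by
            rw [hs'] at h6
            refine h.inj h6 ?_ hee1
            rw [a]; exact hx
          exact Prod.ext h7 hee2
        · exact absurd (hty ▸ mem_image_of_mem _ h6) hy
      · have hsy : pr4 N d ((T N d).s e') = pr4 N d y := by
          rw [hs', hee1, a]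
        rcases h5 with h6 | h6
        · exact absurd (hsy ▸ mem_image_of_mem _ h6) hy
        · have hx' : x = e.1 + Pi.single e.2 1 := by rw [a, b]; simp
          have h7 : e'.1 + Pi.single e'.2 1 = e.1 + Pi.single e.2 1 := by
            rw [ht'] at h6
            refine h.inj h6 ?_ ?_
            · rw [← hx']; exact hx
            · rw [pr4_add h4, pr4_add h4, hee1, hee2]
          rw [hee2] at h7
          exact Prod.ext (add_right_cancel h7) hee2
    rw [← hne]
    exact h3

/-- the exploration from a given state -/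
lemma explore (h4 : 4 ∣ N) (p : ℝ) (m : ℕ) : ∀ (D : Finset (TV N d)) (O C : Finset (TE N d)),
    (univ \ (O ∪ C)).card ≤ m →
    ∃ L : Finset (TE 4 d) → Finset (TV N d) × Finset (TE N d) × Finset (TE N d),
      (∀ ω, Inv ω D O C → Inv ω (L ω).1 (L ω).2.1 (L ω).2.2 ∧ Term (L ω).1 (L ω).2.1 (L ω).2.2) ∧
      (∀ ω ω', (∀ f, f ∉ (O ∪ C).image (pr4E N d) → (f ∈ ω ↔ f ∈ ω')) → L ω = L ω') ∧
      (∀ f : Finset (TE N d) → ℝ, Ex univ p (fun ω => Ex univ p (fun η =>
          f ((L ω).2.1 ∪ (η \ ((L ω).2.1 ∪ (L ω).2.2)))))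
        = Ex univ p (fun η => f (O ∪ (η \ (O ∪ C))))) := by
  induction m with
  | zero =>
    intro D O C hcard
    by_cases ht : Term D O C
    · exact ⟨fun _ => (D, O, C), fun ω h => ⟨h, ht⟩, fun _ _ _ => rfl, fun f => Ex_const _ _ _⟩
    · exfalso
      apply ht
      intro e x y _ _ _
      have h1 : univ \ (O ∪ C) = ∅ := card_eq_zero.mp (Nat.le_zero.mp hcard)
      have h2 : e ∈ O ∪ C := by
        by_contra h3
        have : e ∈ univ \ (O ∪ C) := mem_sdiff.mpr ⟨mem_univ _, h3⟩
        rw [h1] at this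
        exact notMem_empty _ this
      exact mem_image_of_mem _ h2
  | succ m ih =>
    intro D O C hcard
    by_cases ht : Term D O C
    · exact ⟨fun _ => (D, O, C), fun ω h => ⟨h, ht⟩, fun _ _ _ => rfl, fun f => Ex_const _ _ _⟩
    · unfold Term at ht
      push Not at ht
      obtain ⟨e, x, y, hJ, hx, hy, he⟩ := ht
      have heOC : e ∉ O ∪ C := fun h => he (mem_image_of_mem _ h)
      have heO : e ∉ O := fun h => heOC (mem_union_left _ h)
      have heC : e ∉ C := fun h => heOC (mem_union_right _ h)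
      have hc1 : (univ \ (insert e O ∪ C)).card ≤ m := by
        rw [insert_union, sdiff_insert]
        have := card_erase_lt_of_mem (mem_sdiff.mpr ⟨mem_univ e, heOC⟩)
        omega
      have hc2 : (univ \ (O ∪ insert e C)).card ≤ m := by
        rw [union_insert, sdiff_insert]
        have := card_erase_lt_of_mem (mem_sdiff.mpr ⟨mem_univ e, heOC⟩)
        omega
      obtain ⟨Lo, ho1, ho2, ho3⟩ := ih (insert y D) (insert e O) C hc1
      obtain ⟨Lc, hl1, hl2, hl3⟩ := ih D O (insert e C) hc2
      refine ⟨fun ω => if pr4E N d e ∈ ω then Lo ω else Lc ω, ?_, ?_, ?_⟩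
      · intro ω hinv
        by_cases hω : pr4E N d e ∈ ω
        · simp only [hω, if_true]
          exact ho1 ω (hinv.step_open hJ hx hy he hω)
        · simp only [hω, if_false]
          exact hl1 ω (hinv.step_closed hJ hx hy he hω)
      · intro ω ω' h
        have h1 := h _ he
        by_cases hω : pr4E N d e ∈ ω
        · have hω' := h1.mp hω
          simp only [hω, hω', if_true]
          apply ho2
          intro f hf
          apply h
          intro hf'
          apply hf
          rw [insert_union]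
          exact image_subset_image (subset_insert _ _) hf'
        · have hω' : pr4E N d e ∉ ω' := fun h2 => hω (h1.mpr h2)
          simp only [hω, hω', if_false]
          apply hl2
          intro f hf
          apply h
          intro hf'
          apply hf
          rw [union_insert]
          exact image_subset_image (subset_insert _ _) hf'
      · intro f
        have e1 : ∀ ω : Finset (TE 4 d), Lo (insert (pr4E N d e) ω) = Lo ω := by
          intro ω
          apply ho2
          intro g hg
          have hge : g ≠ pr4E N d e := by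
            rintro rfl
            apply hg
            exact mem_image_of_mem _ (mem_union_left _ (mem_insert_self _ _))
          simp [hge]
        have e2 : ∀ ω : Finset (TE 4 d), Lc (ω.erase (pr4E N d e)) = Lc ω := by
          intro ω
          apply hl2
          intro g hg
          have hge : g ≠ pr4E N d e := by
            rintro rfl
            apply hg
            exact mem_image_of_mem _ (mem_union_right _ (mem_insert_self _ _))
          simp [hge]
        rw [Ex_edge (mem_univ (pr4E N d e))]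
        have e3 : (fun ω : Finset (TE 4 d) => Ex univ p (fun η =>
            f ((if pr4E N d e ∈ insert (pr4E N d e) ω then Lo (insert (pr4E N d e) ω)
              else Lc (insert (pr4E N d e) ω)).2.1 ∪ (η \
              ((if pr4E N d e ∈ insert (pr4E N d e) ω then Lo (insert (pr4E N d e) ω)
              else Lc (insert (pr4E N d e) ω)).2.1 ∪
              (if pr4E N d e ∈ insert (pr4E N d e) ω then Lo (insert (pr4E N d e) ω)
              else Lc (insert (pr4E N d e) ω)).2.2)))))
            = (fun ω => Ex univ p (fun η =>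
              f ((Lo ω).2.1 ∪ (η \ ((Lo ω).2.1 ∪ (Lo ω).2.2))))) := by
          funext ω
          rw [if_pos (mem_insert_self _ _), e1]
        have e4 : (fun ω : Finset (TE 4 d) => Ex univ p (fun η =>
            f ((if pr4E N d e ∈ ω.erase (pr4E N d e) then Lo (ω.erase (pr4E N d e))
              else Lc (ω.erase (pr4E N d e))).2.1 ∪ (η \
              ((if pr4E N d e ∈ ω.erase (pr4E N d e) then Lo (ω.erase (pr4E N d e))
              else Lc (ω.erase (pr4E N d e))).2.1 ∪
              (if pr4E N d e ∈ ω.erase (pr4E N d e) then Lo (ω.erase (pr4E N d e))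
              else Lc (ω.erase (pr4E N d e))).2.2)))))
            = (fun ω => Ex univ p (fun η =>
              f ((Lc ω).2.1 ∪ (η \ ((Lc ω).2.1 ∪ (Lc ω).2.2))))) := by
          funext ω
          rw [if_neg (notMem_erase _ _), e2]
        rw [e3, e4, ho3, hl3]
        rw [Ex_edge (mem_univ e) p (fun η => f (O ∪ (η \ (O ∪ C))))]
        congr 1
        · congr 1
          apply Ex_congr
          intro η _
          congr 1
          ext a
          simp only [mem_union, mem_insert, mem_sdiff]
          by_cases ha : a = e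
          · subst ha; simp [heO, heC]
          · simp [ha]
        · congr 1
          apply Ex_congr
          intro η _
          congr 1
          ext a
          simp only [mem_union, mem_insert, mem_sdiff, mem_erase]
          by_cases ha : a = e
          · subst ha; simp [heO, heC]
          · simp [ha]

/-- the lifted explorations, together with the law of the revealed edges -/
theorem coupling (h4 : 4 ∣ N) (hN : 4 ≤ N) (p : ℝ) :
    ∃ L : ∀ ω : Finset (TE 4 d), Lift N d ω, ∀ f : Finset (TE N d) → ℝ,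
      Ex univ p (fun ω => Ex univ p (fun η => f ((L ω).O ∪ (η \ ((L ω).O ∪ (L ω).C)))))
        = Ex univ p f := by
  obtain ⟨L, h1, _, h3⟩ := explore (N := N) (d := d) h4 p _ {0} ∅ ∅ le_rfl
  have h5 : ∀ ω, ∃ M : Lift N d ω, M.D = (L ω).1 ∧ M.O = (L ω).2.1 ∧ M.C = (L ω).2.2 :=
    fun ω => (h1 ω (Inv.start ω)).1.lift h4 (h1 ω (Inv.start ω)).2
  choose M hD hO hC using h5
  refine ⟨M, fun f => ?_⟩
  have h6 := h3 f
  simp only [empty_union, union_empty, sdiff_empty] at h6
  rw [← h6]
  apply Ex_congr
  intro ω _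
  apply Ex_congr
  intro η _
  rw [hO, hC]

end DDA
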