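import Pool.Agent.DDA.Defs2

/-!
# DDA: one-step inequalities for the two-point functions
-/

open Finset

namespace DDA

set_option linter.unusedSectionVars false

section general

variable {E : Type*} [DecidableEq E]

/-- probability that all the edges of `A` are closed -/
lemma Pr_disjoint (F A : Finset E) (p : ℝ) :
    Pr F p (fun ω => Disjoint ω A) = (1 - p) ^ (F ∩ A).card := by
  induction F using Finset.induction_on with
  | empty =>
    unfold Pr
    rw [Ex_empty]
    simp
  | insert e F he ih =>
    rw [Pr_insert he, ih]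
    by_cases heA : e ∈ A
    · have h1 : Pr F p (fun ω => Disjoint (insert e ω) A) = 0 := by
        have h2 : Pr F p (fun ω => Disjoint (insert e ω) A) = Pr F p (fun _ => False) := by
          apply Pr_congr
          intro ω _
          rw [disjoint_insert_left]
          exact ⟨fun h => h.1 heA, fun h => h.elim⟩
        rw [h2]
        unfold Pr
        simp [Ex_const]
      rw [h1, insert_inter_of_mem heA, card_insert_of_notMem (fun h => he (mem_inter.mp h).1),
        pow_succ]
      ring
    · have h1 : Pr F p (fun ω => Disjoint (insert e ω) A) = (1 - p) ^ (F ∩ A).card := by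
        rw [← ih]
        apply Pr_congr
        intro ω _
        rw [disjoint_insert_left]
        exact ⟨fun h => h.2, fun h => ⟨heA, h⟩⟩
      rw [h1, insert_inter_of_notMem heA]
      ring

open Classical in
lemma Pr_mul_Ex {F A B : Finset E} {p : ℝ} {P : Finset E → Prop} {g : Finset E → ℝ}
    (hAB : Disjoint A B) (hP : ∀ ω ⊆ F, P ω ↔ P (ω ∩ A)) (hg : ∀ ω ⊆ F, g ω = g (ω ∩ B)) :
    Pr F p P * Ex F p g = Ex F p (fun ω => if P ω then g ω else 0) := by
  unfold Pr
  rw [← Ex_indep hAB (f := fun ω => if P ω then (1:ℝ) else 0) (g := g)]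
  · apply Ex_congr
    intro ω _
    split_ifs <;> simp
  · intro ω hω
    simp only [hP ω hω]
  · exact hg

end general

variable {N d : ℕ}

/-- the neighbours of `x` -/
def nb (x : TV N d) (j : Fin d × Bool) : TV N d :=
  if j.2 then x + Pi.single j.1 1 else x - Pi.single j.1 1

/-- the edges at `x` -/
def eg (x : TV N d) (j : Fin d × Bool) : TE N d :=
  if j.2 then (x, j.1) else (x - Pi.single j.1 1, j.1)

lemma nbS_eq (f : TV N d → ℝ) (x : TV N d) : nbS f x = ∑ j, f (nb x j) := by
  unfold nbS
  rw [Fintype.sum_prod_type]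
  apply sum_congr rfl
  intro i _
  rw [Fintype.sum_bool]
  simp [nb]

lemma J_eg {e : TE N d} {x z : TV N d} (h : (T N d).J e x z) : ∃ j, e = eg x j ∧ z = nb x j := by
  rcases T_J.mp h with ⟨h1, h2⟩ | ⟨h1, h2⟩
  · refine ⟨(e.2, true), ?_, ?_⟩
    · simp only [eg, if_true]
      exact Prod.ext h1 rfl
    · simp only [nb, if_true]
      exact h2
  · refine ⟨(e.2, false), ?_, ?_⟩
    · simp only [eg]
      exact Prod.ext (h1.trans h2) rfl
    · simp only [nb]
      exact h2

lemma eg_J (x : TV N d) (j : Fin d × Bool) : (T N d).J (eg x j) x (nb x j) := by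
  rw [T_J]
  obtain ⟨i, b⟩ := j
  cases b
  · right
    simp [eg, nb]
  · left
    simp [eg, nb]

lemma eg_not_in (x : TV N d) (j : Fin d × Bool) (S : Finset (TV N d)) :
    ¬ (T N d).In (S \ {x}) (eg x j) := by
  rintro ⟨h1, h2⟩
  rcases eg_J x j with ⟨a, b⟩ | ⟨a, b⟩
  · rw [a] at h1
    simp at h1
  · rw [b] at h2
    simp at h2

variable [NeZero N]

theorem tau_oneStep (hN : 3 ≤ N) (hd : 1 ≤ d) {p : ℝ} (hp0 : 0 ≤ p) (hp1 : p ≤ 1)
    (S : Finset (TV N d)) (k : ℕ) {F : ℝ} (hF : ∀ x, (T N d).bex univ p S k x ≤ F) :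
    OneStep (2 * d * p) F (fun x y => (T N d).tau univ p S k x y) := by
  have _ := hN
  have hd0 : (0:ℝ) < d := by exact_mod_cast hd
  have hrow : ∀ x, ∑ y, (T N d).tau univ p S k x y ≤ F := by
    intro x
    refine le_trans (le_of_eq ?_) (hF x)
    rw [LG.bex_eq_sum]
    symm
    apply sum_subset (subset_univ _)
    intro y _ hy
    exact LG.tau_eq_zero_right hy
  refine ⟨fun x y => LG.tau_nonneg hp0 hp1 x y, ?_, hrow, ?_⟩
  · intro x y
    have hq : 2 * (d:ℝ) * p / (2 * d) = p := by
      field_simp
    rw [hq, nbS_eq]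
    have hnn : 0 ≤ p * ∑ j, (T N d).tau univ p S k (nb x j) y :=
      mul_nonneg hp0 (sum_nonneg fun j _ => LG.tau_nonneg hp0 hp1 _ _)
    by_cases hxy : x = y
    · rw [if_pos hxy]
      have := LG.tau_le_one (G := T N d) (F := univ) (S := S) (k := k) hp0 hp1 x y
      linarith
    · rw [if_neg hxy, zero_add]
      cases k with
      | zero =>
        have : (T N d).tau univ p S 0 x y = 0 := by
          unfold LG.tau Pr
          have : ∀ ω, ¬ (T N d).Re S 0 x y ω := fun ω h => hxy (LG.mem_ball_zero.mp h).2.symm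
          simp [this, Ex_const]
        rw [this]
        exact hnn
      | succ k =>
        have h1 : (T N d).tau univ p S (k + 1) x y ≤ ∑ j, Pr univ p (fun ω => eg x j ∈ ω ∧
            y ∈ (T N d).ball (S \ {x}) ω (nb x j) k) := by
          apply Pr_sum_le hp0 hp1
          intro ω _ h
          obtain ⟨e, he, z, hz, hJ, hy⟩ := LG.first_step h (Ne.symm hxy)
          obtain ⟨j, rfl, rfl⟩ := J_eg hJ
          exact ⟨j, mem_univ _, he, hy⟩
        refine h1.trans ?_
        rw [mul_sum]
        apply sum_le_sum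
        intro j _
        have h2 : Pr univ p (fun ω => eg x j ∈ ω ∧ y ∈ (T N d).ball (S \ {x}) ω (nb x j) k)
            = Pr univ p (fun ω => eg x j ∈ ω)
              * Pr univ p (fun ω => y ∈ (T N d).ball (S \ {x}) ω (nb x j) k) := by
          apply Pr_indep (A := {eg x j}) (B := (T N d).ins (S \ {x}) univ)
          · rw [disjoint_singleton_left, LG.mem_ins]
            rintro ⟨_, h⟩
            exact eg_not_in x j S h
          · intro ω _
            simp
          · intro ω hω
            rw [LG.ball_ins hω]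
        rw [h2, Pr_mem (mem_univ _)]
        apply mul_le_mul_of_nonneg_left _ hp0
        exact LG.tau_mono hp0 hp1 sdiff_subset (Nat.le_succ k) _ _
  · intro y
    have : ∀ x, (T N d).tau univ p S k x y = (T N d).tau univ p S k y x :=
      fun x => LG.tau_comm x y
    simp only [this]
    exact hrow y

lemma one_sub_pow_ge (hd : 2 ≤ d) {p : ℝ} (hp1 : p ≤ 1 / d) :
    1 / 16 ≤ (1 - p) ^ (2 * d) := by
  have hd0 : (0:ℝ) < d := by
    have : 0 < d := by omega
    exact_mod_cast this
  have hd2 : (2:ℝ) ≤ d := by exact_mod_cast hd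
  have h0 : (0:ℝ) ≤ 1 - 1 / d := by
    rw [sub_nonneg, div_le_one hd0]
    linarith
  have h1 : (1:ℝ) / 2 ≤ (1 - 1 / (d:ℝ)) ^ ((d:ℝ) / 2) := by
    have := one_add_mul_self_le_rpow_one_add (s := -(1 / (d:ℝ))) (by linarith)
      (p := (d:ℝ) / 2) (by linarith)
    have h2 : 1 + (d:ℝ) / 2 * -(1 / (d:ℝ)) = 1 / 2 := by
      field_simp
      norm_num
    rw [h2] at this
    rw [← sub_eq_add_neg] at this
    exact this
  have h3 : ((1 - 1 / (d:ℝ)) ^ ((d:ℝ) / 2)) ^ 4 = (1 - 1 / (d:ℝ)) ^ (2 * d) := by
    rw [← Real.rpow_natCast, ← Real.rpow_mul h0, ← Real.rpow_natCast]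
    congr 1
    push_cast
    ring
  calc (1:ℝ) / 16 = (1 / 2) ^ 4 := by norm_num
    _ ≤ ((1 - 1 / (d:ℝ)) ^ ((d:ℝ) / 2)) ^ 4 := by gcongr
    _ = (1 - 1 / (d:ℝ)) ^ (2 * d) := h3
    _ ≤ (1 - p) ^ (2 * d) := by
        gcongr

open Classical in
lemma tauh_nonneg {p : ℝ} (hp0 : 0 ≤ p) (hp1 : p ≤ 1) (S : Finset (TV N d)) (h : ℝ)
    (x y : TV N d) : 0 ≤ (T N d).tauh univ p S h x y := by
  unfold LG.tauh
  apply Ex_nonneg hp0 hp1
  intro ω _
  split_ifs
  · positivity
  · exact le_rfl

lemma mul_exp_neg_le {h : ℝ} (hh : 0 < h) (u : ℝ) : u * Real.exp (-h * u) ≤ 1 / h := by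
  rw [le_div_iff₀ hh]
  have h1 : h * u ≤ Real.exp (h * u) := by
    have := Real.add_one_le_exp (h * u)
    linarith
  have h2 : Real.exp (-h * u) * Real.exp (h * u) = 1 := by
    rw [← Real.exp_add]
    simp
  have h3 : 0 < Real.exp (-h * u) := Real.exp_pos _
  calc u * Real.exp (-h * u) * h = (h * u) * Real.exp (-h * u) := by ring
    _ ≤ Real.exp (h * u) * Real.exp (-h * u) := by gcongr
    _ = 1 := by rw [mul_comm]; exact h2

open Classical in
/-- closing the edges at `x` -/
lemma tauh_sdiff (hd : 2 ≤ d) {p : ℝ} (hp0 : 0 ≤ p) (hp1 : p ≤ 1 / d)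
    (S : Finset (TV N d)) (h : ℝ) (x z y : TV N d) (hz : z ≠ x) :
    1 / 16 * (T N d).tauh univ p (S \ {x}) h z y ≤ (T N d).tauh univ p S h z y := by
  have hd0 : (0:ℝ) < d := by
    have : 0 < d := by omega
    exact_mod_cast this
  have hd2 : (2:ℝ) ≤ d := by exact_mod_cast hd
  have hpp : p ≤ 1 := by
    refine hp1.trans ?_
    rw [div_le_one hd0]
    linarith
  set A : Finset (TE N d) := univ.image (eg x) with hA
  have hcard : (univ ∩ A).card ≤ 2 * d := by
    rw [univ_inter]
    refine card_image_le.trans ?_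
    simp [mul_comm]
  have h1 : (1:ℝ) / 16 ≤ Pr univ p (fun ω => Disjoint ω A) := by
    rw [Pr_disjoint]
    refine (one_sub_pow_ge hd hp1).trans ?_
    apply pow_le_pow_of_le_one _ _ hcard
    · linarith
    · linarith
  have hnn := tauh_nonneg (N := N) (d := d) hp0 hpp (S \ {x}) h z y
  refine (mul_le_mul_of_nonneg_right h1 hnn).trans ?_
  unfold LG.tauh
  rw [Pr_mul_Ex (A := A) (B := (T N d).ins (S \ {x}) univ)]
  · apply Ex_mono hp0 hpp
    intro ω _
    by_cases hdis : Disjoint ω A
    · rw [if_pos hdis]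
      have hcl : (T N d).cl (S \ {x}) ω z = (T N d).cl S ω z := by
        apply LG.cl_off
        · intro a ha w _ hadj
          rw [mem_singleton] at ha
          subst ha
          obtain ⟨e, he, hJ⟩ := hadj
          obtain ⟨j, rfl, rfl⟩ := J_eg hJ
          exact absurd (mem_image_of_mem _ (mem_univ j)) (Finset.disjoint_left.mp hdis he)
        · rw [mem_singleton]
          exact hz
      rw [hcl]
    · rw [if_neg hdis]
      split_ifs
      · positivity
      · exact le_rfl
  · rw [Finset.disjoint_left]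
    intro e he he'
    obtain ⟨j, _, rfl⟩ := mem_image.mp he
    exact eg_not_in x j S (LG.mem_ins.mp he').2
  · intro ω _
    rw [disjoint_iff_inter_eq_empty, disjoint_iff_inter_eq_empty, inter_assoc, inter_self]
  · intro ω hω
    rw [LG.cl_ins hω]

open Classical in
theorem tauh_oneStep (hN : 3 ≤ N) (hd : 2 ≤ d) {p : ℝ} (hp0 : 0 ≤ p) (hp1 : p ≤ 1 / d)
    (S : Finset (TV N d)) {h : ℝ} (hh : 0 < h) :
    OneStep 32 (1 / h) (fun x y => (T N d).tauh univ p S h x y) := by
  have hd0 : (0:ℝ) < d := by
    have : 0 < d := by omega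
    exact_mod_cast this
  have hd2 : (2:ℝ) ≤ d := by exact_mod_cast hd
  have hpp : p ≤ 1 := by
    refine hp1.trans ?_
    rw [div_le_one hd0]
    linarith
  have hrow : ∀ x, ∑ y, (T N d).tauh univ p S h x y ≤ 1 / h := by
    intro x
    unfold LG.tauh
    rw [← Ex_sum]
    apply Ex_le hp0 hpp
    intro ω _
    rw [← sum_filter, sum_const, nsmul_eq_mul]
    have : univ.filter (fun y => y ∈ (T N d).cl S ω x) = (T N d).cl S ω x := by
      ext y
      simp
    rw [this]
    exact mul_exp_neg_le hh _
  refine ⟨fun x y => tauh_nonneg hp0 hpp S h x y, ?_, hrow, ?_⟩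
  · intro x y
    have hnn : 0 ≤ 32 / (2 * (d:ℝ)) * nbS (fun x' => (T N d).tauh univ p S h x' y) x := by
      rw [nbS_eq]
      exact mul_nonneg (by positivity) (sum_nonneg fun j _ => tauh_nonneg hp0 hpp S h _ _)
    by_cases hxy : x = y
    · rw [if_pos hxy]
      have h1 : (T N d).tauh univ p S h x y ≤ 1 := by
        unfold LG.tauh
        apply Ex_le hp0 hpp
        intro ω _
        split_ifs
        · rw [Real.exp_le_one_iff]
          have : (0:ℝ) ≤ (((T N d).cl S ω x).card : ℝ) := by positivity
          nlinarith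
        · norm_num
      linarith
    · rw [if_neg hxy, zero_add, nbS_eq]
      -- first step of the path
      have h1 : (T N d).tauh univ p S h x y ≤ ∑ j, Ex univ p (fun ω =>
          (if eg x j ∈ ω then (1:ℝ) else 0) * (if y ∈ (T N d).cl (S \ {x}) ω (nb x j) then
            Real.exp (-h * (((T N d).cl (S \ {x}) ω (nb x j)).card : ℝ)) else 0)) := by
        unfold LG.tauh
        rw [← Ex_sum]
        apply Ex_mono hp0 hpp
        intro ω _
        have hnn' : ∀ j ∈ (univ : Finset (Fin d × Bool)), (0:ℝ) ≤ (if eg x j ∈ ω then (1:ℝ) else 0)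
            * (if y ∈ (T N d).cl (S \ {x}) ω (nb x j) then
              Real.exp (-h * (((T N d).cl (S \ {x}) ω (nb x j)).card : ℝ)) else 0) := by
          intro j _
          apply mul_nonneg
          · split_ifs <;> norm_num
          · split_ifs
            · positivity
            · exact le_rfl
        by_cases hy : y ∈ (T N d).cl S ω x
        · rw [if_pos hy]
          have hxS : x ∈ S := LG.base_mem_of_mem hy
          have hy' : y ∈ (T N d).ball S ω x (S.card + 1) := LG.ball_mono_k (Nat.le_succ _) hy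
          obtain ⟨e, he, z, hz, hJ, hyz⟩ := LG.first_step hy' (Ne.symm hxy)
          obtain ⟨j, rfl, rfl⟩ := J_eg hJ
          have hyc : y ∈ (T N d).cl (S \ {x}) ω (nb x j) := LG.ball_subset_cl _ hyz
          have hzS : nb x j ∈ S \ {x} := LG.base_mem_of_mem hyz
          have hzc : nb x j ∈ (T N d).cl S ω x :=
            LG.mem_cl_step (LG.self_mem_cl hxS) ⟨_, he, hJ⟩ (mem_sdiff.mp hzS).1
          have hsub : (T N d).cl (S \ {x}) ω (nb x j) ⊆ (T N d).cl S ω x := by
            rw [← LG.cl_eq_of_mem hzc]
            exact LG.cl_mono sdiff_subset (Subset.refl _)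
          have hcard : (((T N d).cl (S \ {x}) ω (nb x j)).card : ℝ)
              ≤ (((T N d).cl S ω x).card : ℝ) := by exact_mod_cast card_le_card hsub
          calc Real.exp (-h * (((T N d).cl S ω x).card : ℝ))
              ≤ Real.exp (-h * (((T N d).cl (S \ {x}) ω (nb x j)).card : ℝ)) := by
                apply Real.exp_le_exp.mpr
                nlinarith
            _ = (if eg x j ∈ ω then (1:ℝ) else 0) * (if y ∈ (T N d).cl (S \ {x}) ω (nb x j) then
                Real.exp (-h * (((T N d).cl (S \ {x}) ω (nb x j)).card : ℝ)) else 0) := by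
                rw [if_pos he, if_pos hyc, one_mul]
            _ ≤ _ := single_le_sum (f := fun j => (if eg x j ∈ ω then (1:ℝ) else 0)
                * (if y ∈ (T N d).cl (S \ {x}) ω (nb x j) then
                  Real.exp (-h * (((T N d).cl (S \ {x}) ω (nb x j)).card : ℝ)) else 0)) hnn'
                (mem_univ j)
        · rw [if_neg hy]
          exact sum_nonneg hnn'
      refine h1.trans ?_
      rw [mul_sum]
      apply sum_le_sum
      intro j _
      have h2 : Ex univ p (fun ω =>
          (if eg x j ∈ ω then (1:ℝ) else 0) * (if y ∈ (T N d).cl (S \ {x}) ω (nb x j) then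
            Real.exp (-h * (((T N d).cl (S \ {x}) ω (nb x j)).card : ℝ)) else 0))
          = p * (T N d).tauh univ p (S \ {x}) h (nb x j) y := by
        rw [Ex_indep (A := {eg x j}) (B := (T N d).ins (S \ {x}) univ)]
        · congr 1
          have := Pr_mem (mem_univ (eg x j)) p
          unfold Pr at this
          convert this
        · rw [disjoint_singleton_left, LG.mem_ins]
          rintro ⟨_, h⟩
          exact eg_not_in x j S h
        · intro ω _
          simp
        · intro ω hω
          rw [LG.cl_ins hω]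
      rw [h2]
      have hne : nb x j ≠ x := by
        intro hcon
        have hs := single_ne_zero (N := N) (d := d) (by omega) j.1
        unfold nb at hcon
        split_ifs at hcon
        · exact hs (by simpa using hcon)
        · exact hs (by simpa using hcon)
      have h3 := tauh_sdiff hd hp0 hp1 S h x (nb x j) y hne
      have h4 := tauh_nonneg hp0 hpp (S \ {x}) h (nb x j) y
      have h5 : 32 / (2 * (d:ℝ)) = 16 * (1 / d) := by
        field_simp
        norm_num
      rw [h5]
      have h6 := tauh_nonneg hp0 hpp S h (nb x j) y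
      calc p * (T N d).tauh univ p (S \ {x}) h (nb x j) y
          ≤ p * (16 * (T N d).tauh univ p S h (nb x j) y) := by
            apply mul_le_mul_of_nonneg_left _ hp0
            linarith
        _ ≤ (1 / d) * (16 * (T N d).tauh univ p S h (nb x j) y) := by
            apply mul_le_mul_of_nonneg_right hp1
            linarith
        _ = _ := by ring
  · intro y
    have hsymm : ∀ x, (T N d).tauh univ p S h x y = (T N d).tauh univ p S h y x := by
      intro x
      unfold LG.tauh
      apply Ex_congr
      intro ω _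
      by_cases hy : y ∈ (T N d).cl S ω x
      · have hx : x ∈ (T N d).cl S ω y := LG.mem_cl_symm hy
        rw [if_pos hy, if_pos hx, LG.cl_eq_of_mem hy]
      · have hx : ¬ x ∈ (T N d).cl S ω y := fun hx => hy (LG.mem_cl_symm hx)
        rw [if_neg hy, if_neg hx]
    simp only [hsymm]
    exact hrow y

end DDA
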