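import Pool.Agent.DDA.Kernel
import Pool.Agent.DDA.OneStepTau

/-!
# DDA: large clusters are everywhere nearby (variance bound)
-/

open Finset

namespace DDA

set_option linter.unusedSectionVars false

section general

variable {V E : Type*} [DecidableEq V] [DecidableEq E] {G : LG V E}

lemma LG.ball_subset_of_closed {S B : Finset V} {ω : Finset E} {x : V} (hx : x ∈ B)
    (hB : ∀ b ∈ B, ∀ z ∈ S, G.Adj ω b z → z ∈ B) (k : ℕ) : G.ball S ω x k ⊆ B := by
  induction k with
  | zero =>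
    intro y hy
    exact (LG.mem_ball_zero.mp hy).2 ▸ hx
  | succ k ih =>
    intro y hy
    rcases LG.mem_ball_succ.mp hy with h | ⟨h1, z, hz, ha⟩
    · exact ih h
    · exact hB z (ih hz) y h1 ha

/-- exploring the cluster of `y` in `S` first -/
lemma explore_le {F : Finset E} {p : ℝ} (hp0 : 0 ≤ p) (hp1 : p ≤ 1) {h : ℝ} (hh : 0 ≤ h)
    (S S' : Finset V) (y y' : V) :
    Ex F p (fun ω => Real.exp (-h * ((G.cl S ω y).card : ℝ))
        * Real.exp (-h * ((G.cl S' ω y').card : ℝ)))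
      ≤ Ex F p (fun ω => Real.exp (-h * ((G.cl S ω y).card : ℝ)) *
          Ex F p (fun ω' => Real.exp (-h * ((G.cl (S' \ G.cl S ω y) ω' y').card : ℝ)))) := by
  classical
  have h1 := Ex_markov (F := F) (p := p) (X := fun ω => G.cl S ω y)
    (R := fun A => F.filter (fun e => G.In S e → G.In (S \ A) e))
    (φ := fun A ω => Real.exp (-h * (A.card : ℝ))
      * Real.exp (-h * ((G.cl (S' \ A) ω y').card : ℝ))) ?_ ?_
  · simp only [Ex_mul_left] at h1
    rw [← h1]
    apply Ex_mono hp0 hp1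
    intro ω _
    apply mul_le_mul_of_nonneg_left _ (Real.exp_pos _).le
    apply Real.exp_le_exp.mpr
    have : ((G.cl (S' \ G.cl S ω y) ω y').card : ℝ) ≤ ((G.cl S' ω y').card : ℝ) :=
      Nat.cast_le.mpr (card_le_card
        (LG.cl_mono (G := G) (x := y') (sdiff_subset (s := S') (t := G.cl S ω y)) (Subset.refl ω)))
    nlinarith
  · intro ω hω ω' hω' heq
    apply LG.cl_local
    intro e he1 he2
    have hn : e ∉ F.filter (fun e => G.In S e → G.In (S \ G.cl S ω y) e) := by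
      rw [mem_filter]
      rintro ⟨_, h3⟩
      exact he2 (h3 he1)
    constructor
    · intro h
      have h4 : e ∈ ω \ F.filter (fun e => G.In S e → G.In (S \ G.cl S ω y) e) :=
        mem_sdiff.mpr ⟨h, hn⟩
      rw [heq] at h4
      exact (mem_sdiff.mp h4).1
    · intro h
      have h4 : e ∈ ω' \ F.filter (fun e => G.In S e → G.In (S \ G.cl S ω y) e) :=
        mem_sdiff.mpr ⟨h, hn⟩
      rw [← heq] at h4
      exact (mem_sdiff.mp h4).1
  · intro A ω hω
    have hc : G.cl (S' \ A) ω y'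
        = G.cl (S' \ A) (ω ∩ F.filter (fun e => G.In S e → G.In (S \ A) e)) y' := by
      apply LG.cl_congr
      rintro e ⟨h1, h2⟩
      rw [mem_inter, mem_filter]
      constructor
      · intro h
        refine ⟨h, hω h, ?_⟩
        rintro ⟨h3, h4⟩
        exact ⟨mem_sdiff.mpr ⟨h3, (mem_sdiff.mp h1).2⟩, mem_sdiff.mpr ⟨h4, (mem_sdiff.mp h2).2⟩⟩
      · exact fun h => h.1
    rw [← hc]

end general

variable {N d : ℕ} [NeZero N]

open Classical in
/-- deleting the set `A` from the ambient set -/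
lemma delete_bound {p : ℝ} (hp0 : 0 ≤ p) (hp1 : p ≤ 1) {h : ℝ} (hh : 0 ≤ h)
    (S' A : Finset (TV N d)) (y' : TV N d) :
    Ex univ p (fun ω => Real.exp (-h * (((T N d).cl (S' \ A) ω y').card : ℝ)))
      ≤ Ex univ p (fun ω => Real.exp (-h * (((T N d).cl S' ω y').card : ℝ)))
        + ((if y' ∈ A then 1 else 0)
          + p * ∑ a ∈ A, ∑ j, (T N d).tauh univ p (S' \ A) h y' (nb a j)) := by
  have hterm : ∀ a ∈ A, ∀ j, p * (T N d).tauh univ p (S' \ A) h y' (nb a j)
      = Ex univ p (fun ω => (if eg a j ∈ ω then (1:ℝ) else 0)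
        * (if nb a j ∈ (T N d).cl (S' \ A) ω y' then
          Real.exp (-h * (((T N d).cl (S' \ A) ω y').card : ℝ)) else 0)) := by
    intro a ha j
    rw [Ex_indep (A := {eg a j}) (B := (T N d).ins (S' \ A) univ)]
    · congr 1
      have := Pr_mem (mem_univ (eg a j)) p
      unfold Pr at this
      convert this.symm
    · rw [disjoint_singleton_left, LG.mem_ins]
      rintro ⟨_, h1, h2⟩
      rcases eg_J a j with ⟨b1, b2⟩ | ⟨b1, b2⟩
      · rw [b1] at h1
        exact (mem_sdiff.mp h1).2 ha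
      · rw [b2] at h2
        exact (mem_sdiff.mp h2).2 ha
    · intro ω _
      simp
    · intro ω hω
      rw [LG.cl_ins hω]
  have hsum : p * ∑ a ∈ A, ∑ j, (T N d).tauh univ p (S' \ A) h y' (nb a j)
      = Ex univ p (fun ω => ∑ a ∈ A, ∑ j, (if eg a j ∈ ω then (1:ℝ) else 0)
        * (if nb a j ∈ (T N d).cl (S' \ A) ω y' then
          Real.exp (-h * (((T N d).cl (S' \ A) ω y').card : ℝ)) else 0)) := by
    rw [Ex_sum, mul_sum]
    apply sum_congr rfl
    intro a ha
    rw [Ex_sum, mul_sum]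
    exact sum_congr rfl (fun j _ => hterm a ha j)
  have hc : (if y' ∈ A then (1:ℝ) else 0) = Ex (univ : Finset (TE N d)) p
      (fun _ => if y' ∈ A then (1:ℝ) else 0) := (Ex_const _ _ _).symm
  rw [hsum, hc, ← Ex_add, ← Ex_add]
  apply Ex_mono hp0 hp1
  intro ω _
  have hnn : ∀ a j, (0:ℝ) ≤ (if eg a j ∈ ω then (1:ℝ) else 0)
        * (if nb a j ∈ (T N d).cl (S' \ A) ω y' then
          Real.exp (-h * (((T N d).cl (S' \ A) ω y').card : ℝ)) else 0) := by
    intro a j
    apply mul_nonneg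
    · split_ifs <;> norm_num
    · split_ifs
      · positivity
      · exact le_rfl
  have hnn2 : (0:ℝ) ≤ ∑ a ∈ A, ∑ j, (if eg a j ∈ ω then (1:ℝ) else 0)
        * (if nb a j ∈ (T N d).cl (S' \ A) ω y' then
          Real.exp (-h * (((T N d).cl (S' \ A) ω y').card : ℝ)) else 0) :=
    sum_nonneg (fun a _ => sum_nonneg (fun j _ => hnn a j))
  have hexp : (0:ℝ) < Real.exp (-h * (((T N d).cl S' ω y').card : ℝ)) := Real.exp_pos _
  by_cases hyA : y' ∈ A
  · rw [if_pos hyA]
    have : Real.exp (-h * (((T N d).cl (S' \ A) ω y').card : ℝ)) ≤ 1 := by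
      rw [Real.exp_le_one_iff]
      have : (0:ℝ) ≤ (((T N d).cl (S' \ A) ω y').card : ℝ) := Nat.cast_nonneg _
      nlinarith
    linarith
  · rw [if_neg hyA]
    by_cases hyS : y' ∈ S'
    · by_cases hex : ∃ a ∈ A, ∃ j, eg a j ∈ ω ∧ nb a j ∈ (T N d).cl (S' \ A) ω y'
      · obtain ⟨a, ha, j, h1, h2⟩ := hex
        have h3 : Real.exp (-h * (((T N d).cl (S' \ A) ω y').card : ℝ))
            = (if eg a j ∈ ω then (1:ℝ) else 0)
              * (if nb a j ∈ (T N d).cl (S' \ A) ω y' then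
              Real.exp (-h * (((T N d).cl (S' \ A) ω y').card : ℝ)) else 0) := by
          rw [if_pos h1, if_pos h2, one_mul]
        have h4 : (if eg a j ∈ ω then (1:ℝ) else 0)
              * (if nb a j ∈ (T N d).cl (S' \ A) ω y' then
              Real.exp (-h * (((T N d).cl (S' \ A) ω y').card : ℝ)) else 0)
            ≤ ∑ a ∈ A, ∑ j, (if eg a j ∈ ω then (1:ℝ) else 0)
              * (if nb a j ∈ (T N d).cl (S' \ A) ω y' then
              Real.exp (-h * (((T N d).cl (S' \ A) ω y').card : ℝ)) else 0) := by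
          refine le_trans ?_ (single_le_sum (f := fun a => ∑ j, (if eg a j ∈ ω then (1:ℝ) else 0)
              * (if nb a j ∈ (T N d).cl (S' \ A) ω y' then
              Real.exp (-h * (((T N d).cl (S' \ A) ω y').card : ℝ)) else 0))
              (fun a _ => sum_nonneg (fun j _ => hnn a j)) ha)
          exact single_le_sum (f := fun j => (if eg a j ∈ ω then (1:ℝ) else 0)
              * (if nb a j ∈ (T N d).cl (S' \ A) ω y' then
              Real.exp (-h * (((T N d).cl (S' \ A) ω y').card : ℝ)) else 0))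
              (fun j _ => hnn a j) (mem_univ j)
        rw [← h3] at h4
        linarith
      · have hsub : (T N d).cl S' ω y' ⊆ (T N d).cl (S' \ A) ω y' := by
          apply LG.ball_subset_of_closed (LG.self_mem_cl (mem_sdiff.mpr ⟨hyS, hyA⟩))
          intro b hb z hz hadj
          by_cases hzA : z ∈ A
          · exfalso
            apply hex
            obtain ⟨e, he, hJ⟩ := LG.Adj_comm.mp hadj
            obtain ⟨j, rfl, rfl⟩ := J_eg hJ
            exact ⟨z, hzA, j, he, hb⟩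
          · exact LG.mem_cl_step hb hadj (mem_sdiff.mpr ⟨hz, hzA⟩)
        have h1 : (((T N d).cl S' ω y').card : ℝ) ≤ (((T N d).cl (S' \ A) ω y').card : ℝ) := by
          exact_mod_cast card_le_card hsub
        have h2 : Real.exp (-h * (((T N d).cl (S' \ A) ω y').card : ℝ))
            ≤ Real.exp (-h * (((T N d).cl S' ω y').card : ℝ)) := by
          apply Real.exp_le_exp.mpr
          nlinarith
        linarith
    · have h1 : (T N d).cl S' ω y' = ∅ := LG.cl_empty_of_notMem hyS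
      have h2 : (T N d).cl (S' \ A) ω y' = ∅ :=
        LG.cl_empty_of_notMem (fun h => hyS (mem_sdiff.mp h).1)
      have h3 : Real.exp (-h * (((T N d).cl (S' \ A) ω y').card : ℝ))
          = Real.exp (-h * (((T N d).cl S' ω y').card : ℝ)) := by rw [h1, h2]
      linarith

/-- the perturbative error -/
noncomputable def er (d L : ℕ) (F : ℝ) : ℝ :=
  32 ^ L * (L + 1).factorial * (Real.sqrt (2 * d))⁻¹ ^ L * F

lemma er_nonneg (d L : ℕ) {F : ℝ} (hF : 0 ≤ F) : 0 ≤ er d L F := by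
  unfold er
  positivity

lemma tauh_le (hE : Even N) (hN : 4 ≤ N) (hd : 2 ≤ d) {p : ℝ} (hp0 : 0 ≤ p) (hp1 : p ≤ 1 / d)
    {h F : ℝ} (hh : 0 < h) (hF : 1 / h ≤ F) (L : ℕ) (S : Finset (TV N d)) (x y : TV N d) :
    (T N d).tauh univ p S h x y ≤ ∑ i ∈ range L, 32 ^ i * DD N d i (y - x) + er d L F :=
  ((tauh_oneStep (by omega) hd hp0 hp1 S hh).mono le_rfl hF).le hE hN (by omega) (by norm_num) L x y

lemma nb_sub (a y : TV N d) (j : Fin d × Bool) : nb a j - y = nb (a - y) j := by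
  unfold nb
  split_ifs
  · rw [add_sub_right_comm]
  · rw [sub_right_comm]

/-- the weight of a point of the explored cluster -/
noncomputable def wt (N d L : ℕ) [NeZero N] (F : ℝ) (z : TV N d) : ℝ :=
  ∑ i ∈ range L, 2 * 32 ^ i * DD N d (i + 1) z + 2 * er d L F

lemma wt_nonneg (L : ℕ) {F : ℝ} (hF : 0 ≤ F) (z : TV N d) : 0 ≤ wt N d L F z := by
  unfold wt
  have := er_nonneg d L hF
  have h1 : 0 ≤ ∑ i ∈ range L, 2 * 32 ^ i * DD N d (i + 1) z :=
    sum_nonneg (fun i _ => mul_nonneg (by positivity) (DD_nonneg _ _))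
  linarith

lemma nbr_sum_le (hE : Even N) (hN : 4 ≤ N) (hd : 2 ≤ d) {p : ℝ} (hp0 : 0 ≤ p) (hp1 : p ≤ 1 / d)
    {h F : ℝ} (hh : 0 < h) (hF : 1 / h ≤ F) (L : ℕ) (S : Finset (TV N d)) (a y' : TV N d) :
    p * ∑ j, (T N d).tauh univ p S h y' (nb a j) ≤ wt N d L F (a - y') := by
  have hd0 : (0:ℝ) < d := by
    have : 0 < d := by omega
    exact_mod_cast this
  have hF0 : 0 ≤ F := le_trans (by positivity) hF
  have her := er_nonneg d L hF0
  have h1 : ∑ j, (T N d).tauh univ p S h y' (nb a j)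
      ≤ ∑ j : Fin d × Bool, (∑ i ∈ range L, 32 ^ i * DD N d i (nb (a - y') j) + er d L F) := by
    apply sum_le_sum
    intro j _
    rw [← nb_sub]
    exact tauh_le hE hN hd hp0 hp1 hh hF L S y' (nb a j)
  have h2 : ∑ j : Fin d × Bool, (∑ i ∈ range L, 32 ^ i * DD N d i (nb (a - y') j) + er d L F)
      = ∑ i ∈ range L, 32 ^ i * nbS (DD N d i) (a - y') + 2 * d * er d L F := by
    rw [sum_add_distrib]
    congr 1
    · rw [sum_comm]
      apply sum_congr rfl
      intro i _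
      rw [nbS_eq, mul_sum]
    · rw [sum_const, nsmul_eq_mul, card_univ, Fintype.card_prod, Fintype.card_fin,
        Fintype.card_bool]
      push_cast
      ring
  have hnn : 0 ≤ ∑ i ∈ range L, 32 ^ i * nbS (DD N d i) (a - y') + 2 * d * er d L F := by
    have : 0 ≤ ∑ i ∈ range L, (32:ℝ) ^ i * nbS (DD N d i) (a - y') :=
      sum_nonneg (fun i _ => mul_nonneg (by positivity) (nbS_nonneg (DD_nonneg _) _))
    positivity
  calc p * ∑ j, (T N d).tauh univ p S h y' (nb a j)
      ≤ p * (∑ i ∈ range L, 32 ^ i * nbS (DD N d i) (a - y') + 2 * d * er d L F) := by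
        rw [← h2]
        exact mul_le_mul_of_nonneg_left h1 hp0
    _ ≤ 1 / d * (∑ i ∈ range L, 32 ^ i * nbS (DD N d i) (a - y') + 2 * d * er d L F) :=
        mul_le_mul_of_nonneg_right hp1 hnn
    _ = wt N d L F (a - y') := by
        unfold wt
        rw [mul_add, mul_sum]
        congr 1
        · apply sum_congr rfl
          intro i _
          rw [DD_succ]
          field_simp
        · field_simp

open Classical in
/-- covariance bound, first form -/
lemma cov_le_tauh (hE : Even N) (hN : 4 ≤ N) (hd : 2 ≤ d) {p : ℝ} (hp0 : 0 ≤ p)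
    (hp1 : p ≤ 1 / d) {h F : ℝ} (hh : 0 < h) (hF : 1 / h ≤ F) (L : ℕ)
    (S S' : Finset (TV N d)) (y y' : TV N d) :
    Ex univ p (fun ω => Real.exp (-h * (((T N d).cl S ω y).card : ℝ))
        * Real.exp (-h * (((T N d).cl S' ω y').card : ℝ)))
      - Ex univ p (fun ω => Real.exp (-h * (((T N d).cl S ω y).card : ℝ)))
        * Ex univ p (fun ω => Real.exp (-h * (((T N d).cl S' ω y').card : ℝ)))
      ≤ (T N d).tauh univ p S h y y'
        + ∑ a, (T N d).tauh univ p S h y a * wt N d L F (a - y') := by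
  have hd0 : (0:ℝ) < d := by
    have : 0 < d := by omega
    exact_mod_cast this
  have hd2 : (2:ℝ) ≤ d := by exact_mod_cast hd
  have hpp : p ≤ 1 := by
    refine hp1.trans ?_
    rw [div_le_one hd0]
    linarith
  have h1 := explore_le (G := T N d) (F := univ) hp0 hpp hh.le S S' y y'
  have h2 : Ex univ p (fun ω => Real.exp (-h * (((T N d).cl S ω y).card : ℝ)) *
      Ex univ p (fun ω' => Real.exp (-h * (((T N d).cl (S' \ (T N d).cl S ω y) ω' y').card : ℝ))))
      ≤ Ex univ p (fun ω => Real.exp (-h * (((T N d).cl S ω y).card : ℝ))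
          * Ex univ p (fun ω => Real.exp (-h * (((T N d).cl S' ω y').card : ℝ)))
        + ((if y' ∈ (T N d).cl S ω y then Real.exp (-h * (((T N d).cl S ω y).card : ℝ)) else 0)
          + ∑ a, (if a ∈ (T N d).cl S ω y then Real.exp (-h * (((T N d).cl S ω y).card : ℝ))
            else 0) * wt N d L F (a - y'))) := by
    apply Ex_mono hp0 hpp
    intro ω _
    set A := (T N d).cl S ω y with hA
    have h3 := delete_bound hp0 hpp hh.le S' A y'
    have h4 : p * ∑ a ∈ A, ∑ j, (T N d).tauh univ p (S' \ A) h y' (nb a j)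
        ≤ ∑ a ∈ A, wt N d L F (a - y') := by
      rw [mul_sum]
      exact sum_le_sum (fun a _ => nbr_sum_le hE hN hd hp0 hp1 hh hF L (S' \ A) a y')
    have h5 : Ex univ p (fun ω' => Real.exp (-h * (((T N d).cl (S' \ A) ω' y').card : ℝ)))
        ≤ Ex univ p (fun ω => Real.exp (-h * (((T N d).cl S' ω y').card : ℝ)))
          + ((if y' ∈ A then 1 else 0) + ∑ a ∈ A, wt N d L F (a - y')) := by linarith
    have h6 := mul_le_mul_of_nonneg_left h5 (Real.exp_pos (-h * (A.card : ℝ))).le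
    refine h6.trans (le_of_eq ?_)
    rw [mul_add, mul_add]
    congr 2
    · split_ifs <;> simp
    · rw [mul_sum]
      have : ∀ a, (if a ∈ A then Real.exp (-h * (A.card : ℝ)) else 0) * wt N d L F (a - y')
          = if a ∈ A then Real.exp (-h * (A.card : ℝ)) * wt N d L F (a - y') else 0 := by
        intro a
        split_ifs <;> simp
      simp only [this]
      rw [← sum_filter]
      apply sum_congr _ (fun _ _ => rfl)
      ext a
      simp
  have h7 : Ex univ p (fun ω => Real.exp (-h * (((T N d).cl S ω y).card : ℝ))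
          * Ex univ p (fun ω => Real.exp (-h * (((T N d).cl S' ω y').card : ℝ)))
        + ((if y' ∈ (T N d).cl S ω y then Real.exp (-h * (((T N d).cl S ω y).card : ℝ)) else 0)
          + ∑ a, (if a ∈ (T N d).cl S ω y then Real.exp (-h * (((T N d).cl S ω y).card : ℝ))
            else 0) * wt N d L F (a - y')))
      = Ex univ p (fun ω => Real.exp (-h * (((T N d).cl S ω y).card : ℝ)))
        * Ex univ p (fun ω => Real.exp (-h * (((T N d).cl S' ω y').card : ℝ)))
        + ((T N d).tauh univ p S h y y'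
        + ∑ a, (T N d).tauh univ p S h y a * wt N d L F (a - y')) := by
    rw [Ex_add, Ex_add, Ex_mul_right, Ex_sum]
    unfold LG.tauh
    congr 2
    apply sum_congr rfl
    intro a _
    rw [Ex_mul_right]
  rw [h7] at h2
  linarith

/-- covariance bound in terms of the random walk kernels -/
lemma cov_le (hE : Even N) (hN : 4 ≤ N) (hd : 2 ≤ d) {p : ℝ} (hp0 : 0 ≤ p)
    (hp1 : p ≤ 1 / d) {h F : ℝ} (hh : 0 < h) (hF : 1 / h ≤ F) (L : ℕ)
    (S S' : Finset (TV N d)) (y y' : TV N d) :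
    Ex univ p (fun ω => Real.exp (-h * (((T N d).cl S ω y).card : ℝ))
        * Real.exp (-h * (((T N d).cl S' ω y').card : ℝ)))
      - Ex univ p (fun ω => Real.exp (-h * (((T N d).cl S ω y).card : ℝ)))
        * Ex univ p (fun ω => Real.exp (-h * (((T N d).cl S' ω y').card : ℝ)))
      ≤ ∑ j ∈ range L, 32 ^ j * DD N d j (y' - y)
        + ∑ j ∈ range L, ∑ i ∈ range L, 2 * 32 ^ (i + j) * DD N d (j + (i + 1)) (y' - y)
        + er d L F * (1 + ∑ i ∈ range L, 2 * 32 ^ i + 2 * F) := by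
  classical
  have hd1 : 1 ≤ d := by omega
  have hF0 : 0 ≤ F := le_trans (by positivity) hF
  have her := er_nonneg d L hF0
  refine (cov_le_tauh hE hN hd hp0 hp1 hh hF L S S' y y').trans ?_
  have h1 := tauh_le hE hN hd hp0 hp1 hh hF L S y y'
  have hone := tauh_oneStep (N := N) (d := d) (by omega) hd hp0 hp1 S hh
  have hrow : ∑ a, (T N d).tauh univ p S h y a ≤ F := (hone.row y).trans hF
  have hnn : ∀ a, 0 ≤ (T N d).tauh univ p S h y a := hone.nonneg y
  -- split the weight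
  have h2 : ∑ a, (T N d).tauh univ p S h y a * wt N d L F (a - y')
      = ∑ a, (T N d).tauh univ p S h y a * ∑ i ∈ range L, 2 * 32 ^ i * DD N d (i + 1) (a - y')
        + (∑ a, (T N d).tauh univ p S h y a) * (2 * er d L F) := by
    rw [sum_mul, ← sum_add_distrib]
    apply sum_congr rfl
    intro a _
    unfold wt
    ring
  have h3 : ∑ a, (T N d).tauh univ p S h y a * ∑ i ∈ range L, 2 * 32 ^ i * DD N d (i + 1) (a - y')
      ≤ ∑ a, (∑ j ∈ range L, 32 ^ j * DD N d j (a - y) + er d L F)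
        * ∑ i ∈ range L, 2 * 32 ^ i * DD N d (i + 1) (a - y') := by
    apply sum_le_sum
    intro a _
    apply mul_le_mul_of_nonneg_right (tauh_le hE hN hd hp0 hp1 hh hF L S y a)
    exact sum_nonneg (fun i _ => mul_nonneg (by positivity) (DD_nonneg _ _))
  have h4 : ∑ a, (∑ j ∈ range L, 32 ^ j * DD N d j (a - y) + er d L F)
        * ∑ i ∈ range L, 2 * 32 ^ i * DD N d (i + 1) (a - y')
      = ∑ j ∈ range L, ∑ i ∈ range L, 2 * 32 ^ (i + j) * DD N d (j + (i + 1)) (y' - y)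
        + er d L F * ∑ i ∈ range L, 2 * 32 ^ i := by
    have e1 : ∀ a, (∑ j ∈ range L, 32 ^ j * DD N d j (a - y) + er d L F)
        * ∑ i ∈ range L, 2 * 32 ^ i * DD N d (i + 1) (a - y')
        = ∑ j ∈ range L, ∑ i ∈ range L, 2 * 32 ^ (i + j)
            * (DD N d j (a - y) * DD N d (i + 1) (y' - a))
          + ∑ i ∈ range L, er d L F * (2 * 32 ^ i) * DD N d (i + 1) (y' - a) := by
      intro a
      have hneg : ∀ i, DD N d (i + 1) (a - y') = DD N d (i + 1) (y' - a) := by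
        intro i
        rw [← DD_neg, neg_sub]
      simp only [hneg]
      rw [add_mul, sum_mul, mul_sum]
      congr 1
      · apply sum_congr rfl
        intro j _
        rw [mul_sum]
        apply sum_congr rfl
        intro i _
        rw [pow_add]
        ring
      · apply sum_congr rfl
        intro i _
        ring
    simp only [e1]
    rw [sum_add_distrib]
    congr 1
    · rw [sum_comm]
      apply sum_congr rfl
      intro j _
      rw [sum_comm]
      apply sum_congr rfl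
      intro i _
      rw [← mul_sum, DD_conv]
    · rw [sum_comm, mul_sum]
      apply sum_congr rfl
      intro i _
      rw [← mul_sum]
      have : ∑ a, DD N d (i + 1) (y' - a) = 1 := by
        rw [← DD_sum (N := N) hd1 (i + 1)]
        exact Fintype.sum_equiv (Equiv.subLeft y') _ _ (fun a => rfl)
      rw [this, mul_one]
  have h5 : (∑ a, (T N d).tauh univ p S h y a) * (2 * er d L F) ≤ F * (2 * er d L F) :=
    mul_le_mul_of_nonneg_right hrow (by positivity)
  have h6 : er d L F * (1 + ∑ i ∈ range L, 2 * 32 ^ i + 2 * F)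
      = er d L F + er d L F * ∑ i ∈ range L, 2 * 32 ^ i + F * (2 * er d L F) := by ring
  rw [h6, h2]
  linarith

/-- the convolution of three kernels -/
lemma DD_triple (ℓ n : ℕ) (v : TV N d) :
    ∑ y, ∑ y', DD N d ℓ (y - v) * DD N d ℓ (y' - v) * DD N d n (y' - y)
      = DD N d (ℓ + (n + ℓ)) 0 := by
  have h1 : ∀ y, ∑ y', DD N d ℓ (y - v) * DD N d ℓ (y' - v) * DD N d n (y' - y)
      = DD N d ℓ (y - v) * DD N d (n + ℓ) (v - y) := by
    intro y
    rw [← DD_conv n ℓ y v, mul_sum]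
    apply sum_congr rfl
    intro y' _
    rw [← DD_neg ℓ (y' - v), neg_sub]
    ring
  simp only [h1]
  rw [DD_conv, sub_self]

lemma inv_sqrt_pow (d ℓ : ℕ) : (Real.sqrt (2 * (d:ℝ)))⁻¹ ^ (2 * ℓ) = ((2 * (d:ℝ)) ^ ℓ)⁻¹ := by
  rw [pow_mul, inv_pow, Real.sq_sqrt (by positivity), inv_pow]

lemma DD_triple_le (hE : Even N) (hN : 4 ≤ N) (hd : 1 ≤ d) (ℓ n : ℕ) (v : TV N d) :
    ∑ y, ∑ y', DD N d ℓ (y - v) * DD N d ℓ (y' - v) * DD N d n (y' - y)
      ≤ (2 * ℓ + n + 1).factorial * ((2 * (d:ℝ)) ^ ℓ)⁻¹ := by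
  rw [DD_triple]
  have hd1 : (1 : ℝ) ≤ 2 * d := by
    have : (1 : ℝ) ≤ d := by exact_mod_cast hd
    linarith
  have hr1 : (Real.sqrt (2 * (d:ℝ)))⁻¹ ≤ 1 := by
    apply inv_le_one_of_one_le₀
    rw [Real.one_le_sqrt]
    exact hd1
  have hr0 : 0 ≤ (Real.sqrt (2 * (d:ℝ)))⁻¹ := by positivity
  refine (DD_le' hE hN hd (ℓ + (n + ℓ)) 0).trans ?_
  have e1 : ℓ + (n + ℓ) + 1 = 2 * ℓ + n + 1 := by ring
  rw [e1, nrm_zero, add_zero, ← inv_sqrt_pow]
  apply mul_le_mul_of_nonneg_left _ (by positivity)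
  exact pow_le_pow_of_le_one hr0 hr1 (by omega)

/-- the constant of the variance bound -/
noncomputable def Cvar (L ℓ : ℕ) : ℝ :=
  ∑ j ∈ range L, 32 ^ j * ((2 * ℓ + j + 1).factorial : ℝ)
    + ∑ j ∈ range L, ∑ i ∈ range L, 2 * 32 ^ (i + j) * ((2 * ℓ + (j + (i + 1)) + 1).factorial : ℝ)
    + 32 ^ L * (L + 1).factorial * (3 + ∑ i ∈ range L, 2 * 32 ^ i)

lemma Cvar_pos (L ℓ : ℕ) : 0 < Cvar L ℓ := by
  unfold Cvar
  positivity

lemma sum_rot {α ι : Type*} [Fintype α] (s : Finset ι) (f : α → α → ι → ℝ) :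
    ∑ x, ∑ y, ∑ j ∈ s, f x y j = ∑ j ∈ s, ∑ x, ∑ y, f x y j := by
  have h : ∀ x, ∑ y, ∑ j ∈ s, f x y j = ∑ j ∈ s, ∑ y, f x y j := fun x => sum_comm
  simp only [h]
  exact sum_comm

/-- double sum of the majorant of the covariances -/
lemma var_majorant (hE : Even N) (hN : 4 ≤ N) (hd : 2 ≤ d) (K ℓ : ℕ) (v : TV N d) :
    ∑ y, ∑ y', DD N d ℓ (y - v) * DD N d ℓ (y' - v) *
      (∑ j ∈ range (2 * (2 * K + ℓ)), 32 ^ j * DD N d j (y' - y)
        + ∑ j ∈ range (2 * (2 * K + ℓ)), ∑ i ∈ range (2 * (2 * K + ℓ)),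
          2 * 32 ^ (i + j) * DD N d (j + (i + 1)) (y' - y)
        + er d (2 * (2 * K + ℓ)) ((2 * (d:ℝ)) ^ K)
          * (1 + ∑ i ∈ range (2 * (2 * K + ℓ)), 2 * 32 ^ i + 2 * (2 * (d:ℝ)) ^ K))
      ≤ Cvar (2 * (2 * K + ℓ)) ℓ * ((2 * (d:ℝ)) ^ ℓ)⁻¹ := by
  have hd1 : 1 ≤ d := by omega
  have hdr : (1 : ℝ) ≤ 2 * d := by
    have : (1 : ℝ) ≤ d := by exact_mod_cast hd1
    linarith
  set L := 2 * (2 * K + ℓ) with hL
  set F : ℝ := (2 * (d:ℝ)) ^ K with hFdef
  have hF1 : 1 ≤ F := one_le_pow₀ hdr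
  set S2 : ℝ := ∑ i ∈ range L, 2 * 32 ^ i with hS2
  have hS2n : 0 ≤ S2 := sum_nonneg (fun i _ => by positivity)
  have e1 : ∑ y, ∑ y', DD N d ℓ (y - v) * DD N d ℓ (y' - v) *
      (∑ j ∈ range L, 32 ^ j * DD N d j (y' - y)
        + ∑ j ∈ range L, ∑ i ∈ range L,
          2 * 32 ^ (i + j) * DD N d (j + (i + 1)) (y' - y)
        + er d L F * (1 + S2 + 2 * F))
      = ∑ j ∈ range L, 32 ^ j * (∑ y, ∑ y', DD N d ℓ (y - v) * DD N d ℓ (y' - v)
          * DD N d j (y' - y))
        + ∑ j ∈ range L, ∑ i ∈ range L, 2 * 32 ^ (i + j) * (∑ y, ∑ y', DD N d ℓ (y - v)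
          * DD N d ℓ (y' - v) * DD N d (j + (i + 1)) (y' - y))
        + er d L F * (1 + S2 + 2 * F) * (∑ y, ∑ y', DD N d ℓ (y - v) * DD N d ℓ (y' - v)) := by
    have a1 : ∀ y y' : TV N d, DD N d ℓ (y - v) * DD N d ℓ (y' - v) *
        (∑ j ∈ range L, 32 ^ j * DD N d j (y' - y)
          + ∑ j ∈ range L, ∑ i ∈ range L,
            2 * 32 ^ (i + j) * DD N d (j + (i + 1)) (y' - y)
          + er d L F * (1 + S2 + 2 * F))
        = ∑ j ∈ range L, 32 ^ j * (DD N d ℓ (y - v) * DD N d ℓ (y' - v) * DD N d j (y' - y))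
          + ∑ j ∈ range L, ∑ i ∈ range L, 2 * 32 ^ (i + j) * (DD N d ℓ (y - v)
            * DD N d ℓ (y' - v) * DD N d (j + (i + 1)) (y' - y))
          + er d L F * (1 + S2 + 2 * F) * (DD N d ℓ (y - v) * DD N d ℓ (y' - v)) := by
      intro y y'
      rw [mul_add, mul_add, mul_sum, mul_sum]
      congr 1
      · congr 1
        · exact sum_congr rfl (fun j _ => by ring)
        · apply sum_congr rfl
          intro j _
          rw [mul_sum]
          exact sum_congr rfl (fun i _ => by ring)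
      · ring
    simp only [a1]
    simp only [sum_add_distrib, mul_sum]
    congr 1
    congr 1
    · exact sum_rot _ _
    · rw [sum_rot]
      exact sum_congr rfl (fun j _ => sum_rot _ _)
  rw [e1]
  have hprod : ∑ y, ∑ y', DD N d ℓ (y - v) * DD N d ℓ (y' - v) = 1 := by
    have hs : ∑ y, DD N d ℓ (y - v) = 1 := by
      rw [← DD_sum (N := N) hd1 ℓ]
      exact Fintype.sum_equiv (Equiv.subRight v) _ _ (fun a => rfl)
    simp only [← mul_sum, hs, mul_one]
  rw [hprod, mul_one]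
  have b1 : ∑ j ∈ range L, 32 ^ j * (∑ y, ∑ y', DD N d ℓ (y - v) * DD N d ℓ (y' - v)
          * DD N d j (y' - y))
      ≤ (∑ j ∈ range L, 32 ^ j * ((2 * ℓ + j + 1).factorial : ℝ)) * ((2 * (d:ℝ)) ^ ℓ)⁻¹ := by
    rw [sum_mul]
    apply sum_le_sum
    intro j _
    rw [mul_assoc]
    exact mul_le_mul_of_nonneg_left (DD_triple_le hE hN hd1 ℓ j v) (by positivity)
  have b2 : ∑ j ∈ range L, ∑ i ∈ range L, 2 * 32 ^ (i + j) * (∑ y, ∑ y', DD N d ℓ (y - v)
          * DD N d ℓ (y' - v) * DD N d (j + (i + 1)) (y' - y))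
      ≤ (∑ j ∈ range L, ∑ i ∈ range L, 2 * 32 ^ (i + j)
          * ((2 * ℓ + (j + (i + 1)) + 1).factorial : ℝ)) * ((2 * (d:ℝ)) ^ ℓ)⁻¹ := by
    rw [sum_mul]
    apply sum_le_sum
    intro j _
    rw [sum_mul]
    apply sum_le_sum
    intro i _
    have h := mul_le_mul_of_nonneg_left (DD_triple_le hE hN hd1 ℓ (j + (i + 1)) v)
      (show (0:ℝ) ≤ 2 * 32 ^ (i + j) by positivity)
    exact h.trans (le_of_eq (by ring))
  have b3 : er d L F * (1 + S2 + 2 * F)
      ≤ 32 ^ L * (L + 1).factorial * (3 + S2) * ((2 * (d:ℝ)) ^ ℓ)⁻¹ := by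
    have c1 : 1 + S2 + 2 * F ≤ (3 + S2) * F := by nlinarith
    have c2 : (Real.sqrt (2 * (d:ℝ)))⁻¹ ^ L * F * F = ((2 * (d:ℝ)) ^ ℓ)⁻¹ := by
      rw [hL, inv_sqrt_pow, hFdef, pow_add, pow_mul']
      field_simp
    have her := er_nonneg d L (zero_le_one.trans hF1)
    calc er d L F * (1 + S2 + 2 * F) ≤ er d L F * ((3 + S2) * F) :=
          mul_le_mul_of_nonneg_left c1 her
      _ = 32 ^ L * (L + 1).factorial * (3 + S2) * ((Real.sqrt (2 * (d:ℝ)))⁻¹ ^ L * F * F) := by
          unfold er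
          ring
      _ = _ := by rw [c2]
  unfold Cvar
  rw [add_mul, add_mul]
  linarith

theorem cover (K ℓ : ℕ) : ∃ C : ℝ, 0 < C ∧ ∃ d0 : ℕ, ∀ d ≥ d0, ∀ (N : ℕ) [NeZero N],
    Even N → 4 ≤ N → ∀ p h s : ℝ, 0 ≤ p → p ≤ 1 / d → ((2 * (d : ℝ)) ^ K)⁻¹ ≤ h → 0 < s →
    ∀ Sy : TV N d → Finset (TV N d), (∀ y, y ∈ Sy y) → ∀ v : TV N d,
    (∀ y, nrm (y - v) ≤ ℓ → s ≤ (T N d).MM univ p (Sy y) h y) →
    Pr univ p (fun ω => ∀ y, nrm (y - v) ≤ ℓ → h * (((T N d).cl (Sy y) ω y).card : ℝ) < s / 2)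
      ≤ C / ((2 * (d : ℝ)) ^ ℓ * s ^ 2) := by
  classical
  refine ⟨4 * Cvar (2 * (2 * K + ℓ)) ℓ, by have := Cvar_pos (2 * (2 * K + ℓ)) ℓ; positivity, 2, ?_⟩
  intro d hd N _ hE hN p h s hp0 hp1 hh hs Sy _ v hM
  have hd1 : 1 ≤ d := by omega
  have hd0 : (0:ℝ) < d := by exact_mod_cast hd1
  have hd2 : (2:ℝ) ≤ d := by exact_mod_cast hd
  have hpp : p ≤ 1 := by
    refine hp1.trans ?_
    rw [div_le_one hd0]
    linarith
  have hFpos : (0:ℝ) < (2 * (d : ℝ)) ^ K := by positivity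
  have hh0 : 0 < h := lt_of_lt_of_le (by positivity) hh
  have hF : 1 / h ≤ (2 * (d : ℝ)) ^ K := by
    rw [one_div]
    exact inv_le_of_inv_le₀ hFpos hh
  -- notation
  set a : TV N d → ℝ := fun y => DD N d ℓ (y - v) with ha
  set e : TV N d → Finset (TE N d) → ℝ :=
    fun y ω => Real.exp (-h * (((T N d).cl (Sy y) ω y).card : ℝ)) with he
  set m : TV N d → ℝ := fun y => Ex univ p (e y) with hm
  have ha0 : ∀ y, 0 ≤ a y := fun y => DD_nonneg _ _
  have hasum : ∑ y, a y = 1 := by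
    rw [← DD_sum (N := N) hd1 ℓ]
    exact Fintype.sum_equiv (Equiv.subRight v) _ _ (fun a => rfl)
  have hMM : ∀ y, (T N d).MM univ p (Sy y) h y = 1 - m y := by
    intro y
    unfold LG.MM
    rw [Ex_sub, Ex_const]
  -- variance
  have hvar : Ex univ p (fun ω => (∑ y, a y * (m y - e y ω)) ^ 2)
      = ∑ y, ∑ y', a y * a y' * (Ex univ p (fun ω => e y ω * e y' ω) - m y * m y') := by
    have e1 : ∀ ω, (∑ y, a y * (m y - e y ω)) ^ 2
        = ∑ y, ∑ y', a y * a y' * (m y * m y' - m y * e y' ω - e y ω * m y' + e y ω * e y' ω) := by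
      intro ω
      rw [sq, sum_mul_sum]
      exact sum_congr rfl (fun y _ => sum_congr rfl (fun y' _ => by ring))
    simp only [e1]
    rw [Ex_sum]
    apply sum_congr rfl
    intro y _
    rw [Ex_sum]
    apply sum_congr rfl
    intro y' _
    rw [Ex_mul_left, Ex_add, Ex_sub, Ex_sub, Ex_const, Ex_mul_left, Ex_mul_right]
    have e2 : Ex univ p (fun ω => e y' ω) = m y' := rfl
    have e3 : Ex univ p (fun ω => e y ω) = m y := rfl
    rw [e2, e3]
    ring
  have hvar2 : Ex univ p (fun ω => (∑ y, a y * (m y - e y ω)) ^ 2)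
      ≤ Cvar (2 * (2 * K + ℓ)) ℓ * ((2 * (d:ℝ)) ^ ℓ)⁻¹ := by
    rw [hvar]
    refine le_trans ?_ (var_majorant hE hN hd K ℓ v)
    apply sum_le_sum
    intro y _
    apply sum_le_sum
    intro y' _
    apply mul_le_mul_of_nonneg_left _ (mul_nonneg (ha0 y) (ha0 y'))
    exact cov_le hE hN hd hp0 hp1 hh0 hF (2 * (2 * K + ℓ)) (Sy y) (Sy y') y y'
  -- Chebyshev
  have hcheb : Pr univ p (fun ω => ∀ y, nrm (y - v) ≤ ℓ →
      h * (((T N d).cl (Sy y) ω y).card : ℝ) < s / 2)
      ≤ Ex univ p (fun ω => 4 / s ^ 2 * (∑ y, a y * (m y - e y ω)) ^ 2) := by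
    unfold Pr
    apply Ex_mono hp0 hpp
    intro ω _
    split_ifs with hev
    · have h1 : ∑ y, a y * (m y - e y ω) ≤ -(s / 2) := by
        have h2 : ∀ y, a y * (m y - e y ω) ≤ a y * (-(s / 2)) := by
          intro y
          by_cases hy : nrm (y - v) ≤ ℓ
          · apply mul_le_mul_of_nonneg_left _ (ha0 y)
            have h3 := hM y hy
            rw [hMM] at h3
            have h4 := hev y hy
            have h5 : 1 - e y ω ≤ h * (((T N d).cl (Sy y) ω y).card : ℝ) := by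
              have := Real.add_one_le_exp (-h * (((T N d).cl (Sy y) ω y).card : ℝ))
              rw [he]
              simp only
              linarith
            linarith
          · have : a y = 0 := DD_eq_zero hE hN ℓ (y - v) (by omega)
            rw [this]
            simp
        calc ∑ y, a y * (m y - e y ω) ≤ ∑ y, a y * (-(s / 2)) := sum_le_sum (fun y _ => h2 y)
          _ = -(s / 2) := by rw [← sum_mul, hasum, one_mul]
      have h6 : (s / 2) ^ 2 ≤ (∑ y, a y * (m y - e y ω)) ^ 2 := by nlinarith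
      have h7 : (1:ℝ) = 4 / s ^ 2 * (s / 2) ^ 2 := by
        field_simp
        norm_num
      rw [h7]
      exact mul_le_mul_of_nonneg_left h6 (by positivity)
    · positivity
  refine hcheb.trans ?_
  rw [Ex_mul_left]
  calc 4 / s ^ 2 * Ex univ p (fun ω => (∑ y, a y * (m y - e y ω)) ^ 2)
      ≤ 4 / s ^ 2 * (Cvar (2 * (2 * K + ℓ)) ℓ * ((2 * (d:ℝ)) ^ ℓ)⁻¹) :=
        mul_le_mul_of_nonneg_left hvar2 (by positivity)
    _ = 4 * Cvar (2 * (2 * K + ℓ)) ℓ / ((2 * (d : ℝ)) ^ ℓ * s ^ 2) := by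
        field_simp

end DDA
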