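import Pool.Agent.DDA.Defs2

/-!
# DDA: random walk kernels and perturbative bounds (module KER)
-/

open Finset

namespace DDA

variable {N d : ℕ}

/-! ### The neighbour sum -/

lemma nbS_nonneg {f : TV N d → ℝ} (hf : ∀ x, 0 ≤ f x) (x : TV N d) : 0 ≤ nbS f x := by
  unfold nbS
  exact sum_nonneg (fun i _ => add_nonneg (hf _) (hf _))

lemma nbS_add (f g : TV N d → ℝ) (x : TV N d) : nbS (fun y => f y + g y) x = nbS f x + nbS g x := by
  unfold nbS
  rw [← sum_add_distrib]
  exact sum_congr rfl (fun i _ => by ring)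

variable [NeZero N]

/-- summation by parts: `nbS` is symmetric -/
lemma sum_nbS_mul (f g : TV N d → ℝ) :
    ∑ x, nbS f x * g x = ∑ x, f x * nbS g x := by
  unfold nbS
  simp only [sum_mul, mul_sum]
  rw [sum_comm, sum_comm (s := (univ : Finset (TV N d)))]
  refine sum_congr rfl (fun i _ => ?_)
  simp only [add_mul, mul_add, sum_add_distrib]
  rw [add_comm]
  congr 1
  · refine (Equiv.sum_comp (Equiv.addRight (Pi.single i 1 : TV N d)) _).symm.trans ?_
    exact sum_congr rfl (fun x _ => by simp)
  · refine (Equiv.sum_comp (Equiv.subRight (Pi.single i 1 : TV N d)) _).symm.trans ?_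
    exact sum_congr rfl (fun x _ => by simp)

lemma sum_nbS (f : TV N d → ℝ) : ∑ x, nbS f x = 2 * d * ∑ x, f x := by
  have h := sum_nbS_mul f (fun _ => 1)
  simp only [mul_one] at h
  rw [h, mul_sum]
  refine sum_congr rfl (fun x _ => ?_)
  unfold nbS
  simp
  ring

/-! ### Kernels -/

omit [NeZero N] in
theorem DD_nonneg (i : ℕ) (x : TV N d) : 0 ≤ DD N d i x := by
  induction i generalizing x with
  | zero => unfold DD; split_ifs <;> norm_num
  | succ i ih =>
    unfold DD
    exact mul_nonneg (by positivity) (nbS_nonneg ih x)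

theorem DD_sum (hd : 1 ≤ d) (i : ℕ) : ∑ x, DD N d i x = 1 := by
  induction i with
  | zero => unfold DD; simp
  | succ i ih =>
    unfold DD
    rw [← mul_sum, sum_nbS, ih]
    have : (d : ℝ) ≠ 0 := by positivity
    field_simp

omit [NeZero N] in
theorem DD_neg (i : ℕ) (x : TV N d) : DD N d i (-x) = DD N d i x := by
  induction i generalizing x with
  | zero => unfold DD; simp
  | succ i ih =>
    unfold DD nbS
    congr 1
    refine sum_congr rfl (fun k _ => ?_)
    rw [add_comm]
    congr 1
    · rw [← ih]; congr 1; abel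
    · rw [← ih]; congr 1; abel

omit [NeZero N] in
lemma DD_succ (i : ℕ) (x : TV N d) : DD N d (i + 1) x = (2 * (d : ℝ))⁻¹ * nbS (DD N d i) x := rfl

theorem DD_conv (i j : ℕ) (x z : TV N d) :
    ∑ y, DD N d i (y - x) * DD N d j (z - y) = DD N d (i + j) (z - x) := by
  induction i generalizing x with
  | zero =>
    rw [Nat.zero_add]
    rw [sum_eq_single x]
    · unfold DD; simp
    · intro y _ hy
      have : y - x ≠ 0 := sub_ne_zero.mpr hy
      unfold DD; simp [this]
    · intro h; exact absurd (mem_univ _) h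
  | succ i ih =>
    have e1 : i + 1 + j = (i + j) + 1 := by omega
    rw [e1, DD_succ]
    have h1 : ∀ y, DD N d (i + 1) (y - x) * DD N d j (z - y)
        = (2 * (d : ℝ))⁻¹ * ∑ k, (DD N d i (y - (x - Pi.single k 1)) * DD N d j (z - y)
          + DD N d i (y - (x + Pi.single k 1)) * DD N d j (z - y)) := by
      intro y
      rw [DD_succ]
      unfold nbS
      rw [mul_assoc, sum_mul]
      congr 1
      refine sum_congr rfl (fun k _ => ?_)
      rw [add_mul]
      congr 3 <;> abel
    rw [sum_congr rfl (fun y _ => h1 y), ← mul_sum, sum_comm]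
    congr 1
    unfold nbS
    refine sum_congr rfl (fun k _ => ?_)
    rw [sum_add_distrib, ih, ih]
    congr 2 <;> abel

/-! ### The norm -/

/-- absolute value of a coordinate -/
lemma wabs (a : ZMod N) : a.valMinAbs.natAbs = min a.val (N - a.val) := ZMod.valMinAbs_natAbs_eq_min a

lemma wabs_add (_hE : Even N) (hN : 4 ≤ N) (a : ZMod N) :
    (a + 1).valMinAbs.natAbs = min (a.val + 1) (N - a.val - 1) := by
  have hv := ZMod.val_lt a
  have : Fact (1 < N) := ⟨by omega⟩
  rw [wabs]
  rcases Nat.lt_or_ge (a.val + 1) N with h | h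
  · rw [ZMod.val_add, ZMod.val_one, Nat.mod_eq_of_lt h]
    omega
  · have h2 : a.val + 1 = N := by omega
    rw [ZMod.val_add, ZMod.val_one, h2, Nat.mod_self]
    omega

lemma wabs_sub (hE : Even N) (hN : 4 ≤ N) (a : ZMod N) :
    (a - 1).valMinAbs.natAbs = if a.val = 0 then 1 else min (a.val - 1) (N - a.val + 1) := by
  have hv := ZMod.val_lt a
  have : Fact (1 < N) := ⟨by omega⟩
  have h1 := wabs_add hE hN (a - 1)
  rw [sub_add_cancel, wabs a] at h1
  have hv2 := ZMod.val_lt (a - 1)
  rw [wabs (a - 1)]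
  have h3 : (a - 1 + 1).val = ((a - 1).val + 1) % N := by
    rw [ZMod.val_add, ZMod.val_one]
  rw [sub_add_cancel] at h3
  rcases Nat.lt_or_ge ((a - 1).val + 1) N with h | h
  · rw [Nat.mod_eq_of_lt h] at h3
    split_ifs with h4 <;> omega
  · have h2 : (a - 1).val + 1 = N := by omega
    rw [h2, Nat.mod_self] at h3
    rw [if_pos h3]
    omega

lemma wabs_add_or (hE : Even N) (hN : 4 ≤ N) (a : ZMod N) :
    (a + 1).valMinAbs.natAbs = a.valMinAbs.natAbs + 1 ∨
      (a + 1).valMinAbs.natAbs + 1 = a.valMinAbs.natAbs := by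
  have hv := ZMod.val_lt a
  rw [wabs_add hE hN, wabs]
  obtain ⟨M, rfl⟩ := hE
  omega

lemma wabs_sub_or (hE : Even N) (hN : 4 ≤ N) (a : ZMod N) :
    (a - 1).valMinAbs.natAbs = a.valMinAbs.natAbs + 1 ∨
      (a - 1).valMinAbs.natAbs + 1 = a.valMinAbs.natAbs := by
  have hv := ZMod.val_lt a
  rw [wabs_sub hE hN, wabs]
  obtain ⟨M, rfl⟩ := hE
  split_ifs <;> omega

lemma wabs_count (hE : Even N) (hN : 4 ≤ N) (a : ZMod N) :
    (if (a + 1).valMinAbs.natAbs + 1 = a.valMinAbs.natAbs then 1 else 0)
      + (if (a - 1).valMinAbs.natAbs + 1 = a.valMinAbs.natAbs then 1 else 0)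
      ≤ a.valMinAbs.natAbs := by
  have hv := ZMod.val_lt a
  rw [wabs_add hE hN, wabs_sub hE hN, wabs]
  obtain ⟨M, rfl⟩ := hE
  split_ifs <;> omega

omit [NeZero N] in
lemma nrm_add_single (x : TV N d) (k : Fin d) (b : ZMod N) :
    nrm (x + Pi.single k b) + (x k).valMinAbs.natAbs = nrm x + (x k + b).valMinAbs.natAbs := by
  obtain ⟨y, hy⟩ : ∃ y : TV N d, y = x + Pi.single k b := ⟨_, rfl⟩
  rw [← hy]
  unfold nrm
  have h1 : ∑ i, (x i).valMinAbs.natAbs = (x k).valMinAbs.natAbs
      + ∑ i ∈ univ.erase k, (x i).valMinAbs.natAbs :=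
    (add_sum_erase univ (fun i => (x i).valMinAbs.natAbs) (mem_univ k)).symm
  have h2 : ∑ i, (y i).valMinAbs.natAbs = (y k).valMinAbs.natAbs
      + ∑ i ∈ univ.erase k, (y i).valMinAbs.natAbs :=
    (add_sum_erase univ (fun i => (y i).valMinAbs.natAbs) (mem_univ k)).symm
  have h3 : ∑ i ∈ univ.erase k, (y i).valMinAbs.natAbs
      = ∑ i ∈ univ.erase k, (x i).valMinAbs.natAbs := by
    refine sum_congr rfl (fun i hi => ?_)
    have : i ≠ k := ne_of_mem_erase hi
    rw [hy]
    simp [Pi.single_eq_of_ne this]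
  have h4 : y k = x k + b := by rw [hy]; simp
  rw [h4] at h2
  rw [h1, h2, h3]
  ring

omit [NeZero N] in
lemma nrm_sub_single (x : TV N d) (k : Fin d) (b : ZMod N) :
    nrm (x - Pi.single k b) + (x k).valMinAbs.natAbs = nrm x + (x k - b).valMinAbs.natAbs := by
  have h := nrm_add_single x k (-b)
  rw [Pi.single_neg, ← sub_eq_add_neg, ← sub_eq_add_neg] at h
  exact h

omit [NeZero N] in
@[simp] lemma nrm_zero : nrm (0 : TV N d) = 0 := by
  unfold nrm; simp

omit [NeZero N] in
lemma eq_zero_of_nrm {x : TV N d} (h : nrm x = 0) : x = 0 := by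
  unfold nrm at h
  rw [sum_eq_zero_iff] at h
  funext i
  have := h i (mem_univ i)
  rw [Int.natAbs_eq_zero, ZMod.valMinAbs_eq_zero] at this
  exact this

/-- the closer neighbours -/
lemma nrm_nb (hE : Even N) (hN : 4 ≤ N) (x : TV N d) (k : Fin d) :
    (nrm (x + Pi.single k 1) = nrm x + 1 ∨ nrm (x + Pi.single k 1) + 1 = nrm x) ∧
    (nrm (x - Pi.single k 1) = nrm x + 1 ∨ nrm (x - Pi.single k 1) + 1 = nrm x) := by
  have h1 := nrm_add_single x k 1
  have h2 := nrm_sub_single x k 1
  have h3 := wabs_add_or hE hN (x k)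
  have h4 := wabs_sub_or hE hN (x k)
  omega

lemma nrm_nb_count (hE : Even N) (hN : 4 ≤ N) (x : TV N d) :
    ∑ k, ((if nrm (x + Pi.single k 1) + 1 = nrm x then 1 else 0)
      + (if nrm (x - Pi.single k 1) + 1 = nrm x then 1 else 0)) ≤ nrm x := by
  show _ ≤ ∑ k, (x k).valMinAbs.natAbs
  refine sum_le_sum (fun k _ => ?_)
  refine le_trans (le_of_eq ?_) (wabs_count hE hN (x k))
  have h1 := nrm_add_single x k 1
  have h2 := nrm_sub_single x k 1
  congr 1
  · congr 1
    apply propext
    constructor <;> intro h <;> omega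
  · congr 1
    apply propext
    constructor <;> intro h <;> omega

theorem DD_eq_zero (hE : Even N) (hN : 4 ≤ N) (i : ℕ) (x : TV N d) (h : i < nrm x) :
    DD N d i x = 0 := by
  induction i generalizing x with
  | zero =>
    have : x ≠ 0 := by
      rintro rfl
      simp at h
    unfold DD
    simp [this]
  | succ i ih =>
    rw [DD_succ]
    unfold nbS
    rw [sum_eq_zero, mul_zero]
    intro k _
    have h1 := nrm_nb hE hN x k
    rw [ih _ (by omega), ih _ (by omega), add_zero]

theorem DD_le' (hE : Even N) (hN : 4 ≤ N) (hd : 1 ≤ d) (i : ℕ) (x : TV N d) :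
    DD N d i x ≤ (i + 1).factorial * (Real.sqrt (2 * d))⁻¹ ^ (i + nrm x) := by
  have hd0 : (0 : ℝ) < d := by positivity
  set r : ℝ := (Real.sqrt (2 * d))⁻¹ with hr
  have hr0 : 0 < r := by rw [hr]; positivity
  have hr2 : r ^ 2 = (2 * (d : ℝ))⁻¹ := by
    rw [hr, inv_pow, Real.sq_sqrt (by positivity)]
  have hr3 : r ^ 2 * (2 * d) = 1 := by rw [hr2]; field_simp
  induction i generalizing x with
  | zero =>
    unfold DD
    split_ifs with h
    · rw [h]; simp
    · positivity
  | succ i ih =>
    rcases Nat.lt_or_ge (i + 1) (nrm x) with hx | hx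
    · rw [DD_eq_zero hE hN _ _ hx]; positivity
    · rw [DD_succ, ← hr2]
      set A : ℝ := ((i + 1).factorial : ℝ) with hA
      have hA0 : 0 < A := by rw [hA]; positivity
      set u : ℝ := r ^ (i + 1 + nrm x) with hu
      have hu0 : 0 < u := by positivity
      have key : ∀ y : TV N d, (nrm y = nrm x + 1 ∨ nrm y + 1 = nrm x) →
          DD N d i y ≤ A * u * (1 + 2 * d * (if nrm y + 1 = nrm x then (1:ℝ) else 0)) := by
        intro y hy
        refine (ih y).trans ?_
        rw [mul_assoc A u]
        refine mul_le_mul_of_nonneg_left ?_ hA0.le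
        rcases hy with hy | hy
        · rw [if_neg (by omega), mul_zero, add_zero, mul_one, hu, hy]
          exact le_of_eq (by congr 1; omega)
        · rw [if_pos hy, mul_one]
          have e : u * (2 * d) = r ^ (i + nrm y) := by
            rw [hu, ← hy, show i + 1 + (nrm y + 1) = (i + nrm y) + 2 by omega, pow_add, mul_assoc, hr3,
              mul_one]
          nlinarith
      have hsum : nbS (DD N d i) x ≤ A * u * (2 * d * (1 + nrm x)) := by
        calc nbS (DD N d i) x
            ≤ ∑ k, (A * u * (1 + 2 * d * (if nrm (x + Pi.single k 1) + 1 = nrm x then (1:ℝ) else 0))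
              + A * u * (1 + 2 * d * (if nrm (x - Pi.single k 1) + 1 = nrm x then (1:ℝ) else 0))) := by
              unfold nbS
              exact sum_le_sum (fun k _ => add_le_add (key _ (nrm_nb hE hN x k).1)
                (key _ (nrm_nb hE hN x k).2))
          _ = A * u * (2 * d) * (1 + ((∑ k, ((if nrm (x + Pi.single k 1) + 1 = nrm x then 1 else 0)
              + (if nrm (x - Pi.single k 1) + 1 = nrm x then 1 else 0)) : ℕ) : ℝ)) := by
              have e : ∀ k : Fin d, A * u * (1 + 2 * d * (if nrm (x + Pi.single k 1) + 1 = nrm x then (1:ℝ) else 0))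
                + A * u * (1 + 2 * d * (if nrm (x - Pi.single k 1) + 1 = nrm x then (1:ℝ) else 0))
                = A * u * 2 + A * u * (2 * d) * ((((if nrm (x + Pi.single k 1) + 1 = nrm x then 1 else 0)
              + (if nrm (x - Pi.single k 1) + 1 = nrm x then 1 else 0)) : ℕ) : ℝ) := by
                intro k
                push_cast
                ring
              rw [sum_congr rfl (fun k _ => e k), sum_add_distrib, sum_const, ← mul_sum, ← Nat.cast_sum,
                card_univ, Fintype.card_fin, nsmul_eq_mul]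
              ring
          _ ≤ A * u * (2 * d * (1 + nrm x)) := by
              have hc : ((∑ k, ((if nrm (x + Pi.single k 1) + 1 = nrm x then 1 else 0)
                + (if nrm (x - Pi.single k 1) + 1 = nrm x then 1 else 0)) : ℕ) : ℝ) ≤ (nrm x : ℝ) := by
                exact_mod_cast nrm_nb_count hE hN x
              rw [mul_assoc (A * u)]
              gcongr
      have hx2 : (nrm x : ℝ) ≤ (i : ℝ) + 1 := by exact_mod_cast hx
      calc r ^ 2 * nbS (DD N d i) x ≤ r ^ 2 * (A * u * (2 * d * (1 + nrm x))) := by gcongr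
        _ = A * u * (1 + nrm x) * (r ^ 2 * (2 * d)) := by ring
        _ = A * u * (1 + nrm x) := by rw [hr3, mul_one]
        _ ≤ A * u * (1 + (i + 1)) := by gcongr
        _ = _ := by
          rw [hA, Nat.factorial_succ (i + 1)]
          push_cast
          ring

theorem DD_le (hE : Even N) (hN : 4 ≤ N) (hd : 1 ≤ d) (i : ℕ) (x : TV N d) :
    DD N d i x ≤ (i + 1).factorial * ((2 * (d : ℝ))⁻¹) ^ (nrm x) := by
  rcases Nat.lt_or_ge i (nrm x) with hx | hx
  · rw [DD_eq_zero hE hN _ _ hx]; positivity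
  · refine (DD_le' hE hN hd i x).trans ?_
    have hd1 : (1 : ℝ) ≤ 2 * d := by
      have : (1 : ℝ) ≤ d := by exact_mod_cast hd
      linarith
    have hr1 : (Real.sqrt (2 * d))⁻¹ ≤ 1 := by
      apply inv_le_one_of_one_le₀
      rw [Real.one_le_sqrt]
      exact hd1
    have hr2 : (Real.sqrt (2 * d))⁻¹ ^ 2 = (2 * (d : ℝ))⁻¹ := by
      rw [inv_pow, Real.sq_sqrt (by positivity)]
    refine mul_le_mul_of_nonneg_left ?_ (by positivity)
    rw [← hr2, ← pow_mul]
    exact pow_le_pow_of_le_one (by positivity) hr1 (by omega)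

theorem DD_zero_le (hE : Even N) (hN : 4 ≤ N) (hd : 1 ≤ d) {i : ℕ} (hi : 1 ≤ i) :
    DD N d i (0 : TV N d) ≤ (i + 1).factorial * (2 * (d : ℝ))⁻¹ := by
  have hd1 : (1 : ℝ) ≤ 2 * d := by
    have : (1 : ℝ) ≤ d := by exact_mod_cast hd
    linarith
  rcases Nat.lt_or_ge i 2 with h | h
  · have : i = 1 := by omega
    subst this
    rw [DD_succ]
    have : nbS (DD N d 0) (0 : TV N d) = 0 := by
      unfold nbS DD
      refine sum_eq_zero (fun k _ => ?_)
      have h1 : (Pi.single k 1 : TV N d) ≠ 0 := single_ne_zero (by omega) k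
      simp [h1]
    rw [this, mul_zero]
    positivity
  · refine (DD_le' hE hN hd i 0).trans ?_
    have hr1 : (Real.sqrt (2 * d))⁻¹ ≤ 1 := by
      apply inv_le_one_of_one_le₀
      rw [Real.one_le_sqrt]
      exact hd1
    have hr2 : (Real.sqrt (2 * d))⁻¹ ^ 2 = (2 * (d : ℝ))⁻¹ := by
      rw [inv_pow, Real.sq_sqrt (by positivity)]
    refine mul_le_mul_of_nonneg_left ?_ (by positivity)
    rw [← hr2, nrm_zero, add_zero]
    exact pow_le_pow_of_le_one (by positivity) hr1 h

/-! ### One-step inequalities -/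

theorem OneStep.mono {q q' F F' : ℝ} (hq : q ≤ q') (hF : F ≤ F') {f : Matrix (TV N d) (TV N d) ℝ}
    (hf : OneStep q F f) : OneStep q' F' f where
  nonneg := hf.nonneg
  step := fun x y => by
    refine (hf.step x y).trans ?_
    have h1 : 0 ≤ nbS (fun x' => f x' y) x := nbS_nonneg (fun x' => hf.nonneg x' y) x
    have h2 : q / (2 * d) ≤ q' / (2 * d) := by gcongr
    have h3 := mul_le_mul_of_nonneg_right h2 h1
    linarith
  row := fun x => (hf.row x).trans hF
  col := fun y => (hf.col y).trans hF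

/-- the kernel acts on a column by the neighbour sum -/
lemma DD_mul_nbS (i : ℕ) (x : TV N d) (g : TV N d → ℝ) :
    ∑ z, DD N d i (z - x) * ((2 * (d : ℝ))⁻¹ * nbS g z) = ∑ z, DD N d (i + 1) (z - x) * g z := by
  have h := sum_nbS_mul (fun z => DD N d i (z - x)) g
  have h1 : ∀ z, nbS (fun z => DD N d i (z - x)) z = nbS (DD N d i) (z - x) := by
    intro z
    unfold nbS
    refine sum_congr rfl (fun k _ => ?_)
    show DD N d i (z + Pi.single k 1 - x) + DD N d i (z - Pi.single k 1 - x) = _
    rw [add_sub_right_comm, sub_right_comm]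
  calc ∑ z, DD N d i (z - x) * ((2 * (d : ℝ))⁻¹ * nbS g z)
      = (2 * (d : ℝ))⁻¹ * ∑ z, DD N d i (z - x) * nbS g z := by
        rw [mul_sum]
        exact sum_congr rfl (fun z _ => by ring)
    _ = (2 * (d : ℝ))⁻¹ * ∑ z, nbS (DD N d i) (z - x) * g z := by
        rw [← h]
        congr 1
        exact sum_congr rfl (fun z _ => by rw [h1])
    _ = _ := by
        rw [mul_sum]
        exact sum_congr rfl (fun z _ => by rw [DD_succ]; ring)

lemma OneStep.iterate {q F : ℝ} (hq : 0 ≤ q)
    {f : Matrix (TV N d) (TV N d) ℝ} (hf : OneStep q F f) (L : ℕ) (x y : TV N d) :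
    f x y ≤ ∑ i ∈ range L, q ^ i * DD N d i (y - x)
      + q ^ L * ∑ z, DD N d L (z - x) * f z y := by
  induction L with
  | zero =>
    have : ∑ z, DD N d 0 (z - x) * f z y = f x y := by
      rw [sum_eq_single x]
      · unfold DD; simp
      · intro z _ hz
        have : z - x ≠ 0 := sub_ne_zero.mpr hz
        unfold DD; simp [this]
      · intro h; exact absurd (mem_univ _) h
    rw [this]
    simp
  | succ L ih =>
    refine ih.trans ?_
    rw [sum_range_succ, add_assoc]
    refine add_le_add le_rfl ?_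
    have h1 : ∑ z, DD N d L (z - x) * f z y ≤ ∑ z, DD N d L (z - x) *
        ((if z = y then 1 else 0) + q / (2 * d) * nbS (fun x' => f x' y) z) := by
      refine sum_le_sum (fun z _ => mul_le_mul_of_nonneg_left (hf.step z y) (DD_nonneg _ _))
    have h2 : ∑ z, DD N d L (z - x) *
        ((if z = y then 1 else 0) + q / (2 * d) * nbS (fun x' => f x' y) z)
        = DD N d L (y - x) + q * ∑ z, DD N d (L + 1) (z - x) * f z y := by
      rw [← DD_mul_nbS]
      simp only [mul_add, sum_add_distrib]
      congr 1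
      · simp
      · rw [mul_sum]
        refine sum_congr rfl (fun z _ => ?_)
        rw [div_eq_mul_inv]
        ring
    rw [h2] at h1
    calc q ^ L * ∑ z, DD N d L (z - x) * f z y
        ≤ q ^ L * (DD N d L (y - x) + q * ∑ z, DD N d (L + 1) (z - x) * f z y) := by gcongr
      _ = _ := by ring

theorem OneStep.le (hE : Even N) (hN : 4 ≤ N) (hd : 1 ≤ d) {q F : ℝ} (hq : 0 ≤ q)
    {f : Matrix (TV N d) (TV N d) ℝ} (hf : OneStep q F f) (L : ℕ) (x y : TV N d) :
    f x y ≤ ∑ i ∈ range L, q ^ i * DD N d i (y - x)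
      + q ^ L * (L + 1).factorial * (Real.sqrt (2 * d))⁻¹ ^ L * F := by
  refine (hf.iterate hq L x y).trans ?_
  refine add_le_add le_rfl ?_
  have hd1 : (1 : ℝ) ≤ 2 * d := by
    have : (1 : ℝ) ≤ d := by exact_mod_cast hd
    linarith
  have hr1 : (Real.sqrt (2 * d))⁻¹ ≤ 1 := by
    apply inv_le_one_of_one_le₀
    rw [Real.one_le_sqrt]
    exact hd1
  have h1 : ∀ z : TV N d, DD N d L (z - x) ≤ (L + 1).factorial * (Real.sqrt (2 * d))⁻¹ ^ L := by
    intro z
    refine (DD_le' hE hN hd L _).trans ?_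
    refine mul_le_mul_of_nonneg_left ?_ (by positivity)
    exact pow_le_pow_of_le_one (by positivity) hr1 (by omega)
  have h2 : ∑ z, DD N d L (z - x) * f z y
      ≤ (L + 1).factorial * (Real.sqrt (2 * d))⁻¹ ^ L * F := by
    calc ∑ z, DD N d L (z - x) * f z y
        ≤ ∑ z, ((L + 1).factorial * (Real.sqrt (2 * d))⁻¹ ^ L) * f z y :=
          sum_le_sum (fun z _ => mul_le_mul_of_nonneg_right (h1 z) (hf.nonneg z y))
      _ = ((L + 1).factorial * (Real.sqrt (2 * d))⁻¹ ^ L) * ∑ z, f z y := by rw [mul_sum]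
      _ ≤ _ := mul_le_mul_of_nonneg_left (hf.col y) (by positivity)
  calc q ^ L * ∑ z, DD N d L (z - x) * f z y
      ≤ q ^ L * ((L + 1).factorial * (Real.sqrt (2 * d))⁻¹ ^ L * F) := by gcongr
    _ = _ := by ring

/-- majorant for products -/
lemma prod_major (q : ℝ) (hq : 0 ≤ q) (L : ℕ) (hL : 1 ≤ L) (m : ℕ) :
    ∃ (M : ℕ) (c : ℕ → ℝ) (E : ℝ), 1 ≤ M ∧ (∀ n, 0 ≤ c n) ∧ c 0 = 1 ∧ 0 ≤ E ∧
      ∀ (d N : ℕ) [NeZero N], 1 ≤ d → Even N → 4 ≤ N → ∀ F : ℝ, 1 ≤ F →
      ∀ l : List (Matrix (TV N d) (TV N d) ℝ), l.length = m →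
      (∀ f ∈ l, OneStep q F f) → (∀ x y, 0 ≤ l.prod x y) ∧ ∀ x y,
      l.prod x y ≤ ∑ n ∈ range M, c n * DD N d n (y - x)
        + E * F ^ m * (Real.sqrt (2 * d))⁻¹ ^ L := by
  induction m with
  | zero =>
    refine ⟨1, fun _ => 1, 0, le_rfl, fun _ => zero_le_one, rfl, le_rfl, ?_⟩
    intro d N _ hd hE hN F hF l hl hf
    rw [List.length_eq_zero_iff] at hl
    subst hl
    constructor
    · intro x y
      rw [List.prod_nil, Matrix.one_apply]
      split_ifs <;> norm_num
    · intro x y
      rw [List.prod_nil, Matrix.one_apply]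
      simp only [range_one, sum_singleton, one_mul, zero_mul, add_zero]
      unfold DD
      rcases eq_or_ne x y with h | h
      · rw [h]; simp
      · rw [if_neg h]
        have : y - x ≠ 0 := sub_ne_zero.mpr h.symm
        simp [this]
  | succ m ih =>
    obtain ⟨M, c, E, hM, hc, hc0, hE0, H⟩ := ih
    set c' : ℕ → ℝ := fun k => ∑ i ∈ range L, ∑ n ∈ range M, if i + n = k then q ^ i * c n else 0
      with hc'
    set e0 : ℝ := q ^ L * (L + 1).factorial with he0
    have he00 : 0 ≤ e0 := by positivity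
    set C : ℝ := ∑ n ∈ range M, c n with hC
    have hC0 : 0 ≤ C := sum_nonneg (fun n _ => hc n)
    refine ⟨L + M, c', e0 * C + E, by omega, ?_, ?_, by positivity, ?_⟩
    · intro k
      rw [hc']
      refine sum_nonneg (fun i _ => sum_nonneg (fun n _ => ?_))
      split_ifs
      · exact mul_nonneg (pow_nonneg hq _) (hc n)
      · exact le_rfl
    · rw [hc']
      simp only
      rw [sum_eq_single 0, sum_eq_single 0]
      · simp [hc0]
      · intro n _ hn
        rw [if_neg (by omega)]
      · intro h; exact absurd (mem_range.mpr (by omega)) h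
      · intro i _ hi
        refine sum_eq_zero (fun n _ => ?_)
        rw [if_neg (by omega)]
      · intro h; exact absurd (mem_range.mpr (by omega)) h
    · intro d N _ hd hE hN F hF l hl hf
      obtain ⟨f, l', rfl⟩ : ∃ f l', l = f :: l' := by
        cases l with
        | nil => simp at hl
        | cons a b => exact ⟨a, b, rfl⟩
      have hl' : l'.length = m := by simpa using hl
      obtain ⟨H1, H2⟩ := H d N hd hE hN F hF l' hl' (fun g hg => hf g (List.mem_cons_of_mem _ hg))
      have hf0 : OneStep q F f := hf f (List.mem_cons_self)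
      set r : ℝ := (Real.sqrt (2 * d))⁻¹ with hr
      have hr0 : 0 ≤ r := by rw [hr]; positivity
      constructor
      · intro x y
        rw [List.prod_cons, Matrix.mul_apply]
        exact sum_nonneg (fun z _ => mul_nonneg (hf0.nonneg _ _) (H1 _ _))
      · intro x y
        rw [List.prod_cons, Matrix.mul_apply]
        have hP0 : ∀ z : TV N d, 0 ≤ ∑ n ∈ range M, c n * DD N d n (y - z) :=
          fun z => sum_nonneg (fun n _ => mul_nonneg (hc n) (DD_nonneg _ _))
        calc ∑ z, f x z * l'.prod z y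
            ≤ ∑ z, f x z * (∑ n ∈ range M, c n * DD N d n (y - z) + E * F ^ m * r ^ L) :=
              sum_le_sum (fun z _ => mul_le_mul_of_nonneg_left (H2 z y) (hf0.nonneg x z))
          _ = ∑ z, f x z * ∑ n ∈ range M, c n * DD N d n (y - z)
              + (∑ z, f x z) * (E * F ^ m * r ^ L) := by
              simp only [mul_add, sum_add_distrib, ← sum_mul]
          _ ≤ ∑ z, (∑ i ∈ range L, q ^ i * DD N d i (z - x) + e0 * r ^ L * F)
                * ∑ n ∈ range M, c n * DD N d n (y - z)
              + F * (E * F ^ m * r ^ L) := by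
              refine add_le_add (sum_le_sum (fun z _ => ?_)) ?_
              · exact mul_le_mul_of_nonneg_right (hf0.le hE hN hd hq L x z) (hP0 z)
              · exact mul_le_mul_of_nonneg_right (hf0.row x) (by positivity)
          _ = ∑ i ∈ range L, ∑ n ∈ range M, q ^ i * c n * DD N d (i + n) (y - x)
              + e0 * r ^ L * F * C + F * (E * F ^ m * r ^ L) := by
              congr 1
              simp only [add_mul, sum_add_distrib]
              congr 1
              · simp only [sum_mul_sum]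
                rw [sum_comm]
                refine sum_congr rfl (fun i _ => ?_)
                rw [sum_comm]
                refine sum_congr rfl (fun n _ => ?_)
                rw [← DD_conv (N := N) (d := d) i n x y, mul_sum]
                exact sum_congr rfl (fun z _ => by ring)
              · rw [← mul_sum]
                congr 1
                rw [sum_comm, hC]
                refine sum_congr rfl (fun n _ => ?_)
                rw [← mul_sum]
                have : ∑ z, DD N d n (y - z) = 1 := by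
                  rw [← DD_sum (N := N) hd n]
                  exact Equiv.sum_comp (Equiv.subLeft y) (fun z => DD N d n z)
                rw [this, mul_one]
          _ ≤ ∑ k ∈ range (L + M), c' k * DD N d k (y - x)
              + (e0 * C + E) * F ^ (m + 1) * r ^ L := by
              have h1 : ∑ i ∈ range L, ∑ n ∈ range M, q ^ i * c n * DD N d (i + n) (y - x)
                  = ∑ k ∈ range (L + M), c' k * DD N d k (y - x) := by
                rw [hc']
                simp only [sum_mul]
                symm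
                rw [sum_comm]
                refine sum_congr rfl (fun i hi => ?_)
                rw [sum_comm]
                refine sum_congr rfl (fun n hn => ?_)
                rw [mem_range] at hi hn
                rw [sum_eq_single (i + n)]
                · simp
                · intro k _ hk
                  rw [if_neg (Ne.symm hk), zero_mul]
                · intro h; exact absurd (mem_range.mpr (by omega)) h
              have h2 : F ≤ F ^ (m + 1) := by
                calc F = F ^ 1 := (pow_one F).symm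
                  _ ≤ F ^ (m + 1) := pow_le_pow_right₀ hF (by omega)
              have h3 : e0 * r ^ L * F * C ≤ e0 * r ^ L * F ^ (m + 1) * C := by gcongr
              rw [h1]
              have h4 : F * (E * F ^ m * r ^ L) = E * F ^ (m + 1) * r ^ L := by ring
              rw [h4]
              nlinarith

lemma DD_le_max (hE : Even N) (hN : 4 ≤ N) (hd : 1 ≤ d) {i : ℕ} (hi : 1 ≤ i) (x : TV N d) :
    DD N d i x ≤ (i + 1).factorial * ((2 * (d : ℝ))⁻¹) ^ (max 1 (nrm x)) := by
  rcases Nat.eq_zero_or_pos (nrm x) with h | h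
  · rw [h, eq_zero_of_nrm h]
    simpa using DD_zero_le hE hN hd hi
  · rw [max_eq_right h]
    exact DD_le hE hN hd i x

/-- products of `m` matrices -/
theorem prod_bound (K K' m : ℕ) (q : ℝ) (hq : 0 ≤ q) : ∃ C : ℝ, 0 < C ∧ ∃ d0 : ℕ, ∀ d ≥ d0, ∀ (N : ℕ) [NeZero N],
    Even N → 4 ≤ N → ∀ l : List (Matrix (TV N d) (TV N d) ℝ), l.length = m →
    (∀ f ∈ l, OneStep q ((2 * (d : ℝ)) ^ K) f) → ∀ x y,
    l.prod x y ≤ (if x = y then 1 else 0) + C * ((2 * (d : ℝ))⁻¹) ^ (max 1 (nrm (y - x)))
      + ((2 * (d : ℝ))⁻¹) ^ K' := by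
  obtain ⟨M, c, E, hM, hc, hc0, hE0, H⟩ := prod_major q hq (2 * (m * K + K' + 1)) (by omega) m
  obtain ⟨M', rfl⟩ : ∃ M', M = M' + 1 := ⟨M - 1, by omega⟩
  refine ⟨1 + ∑ n ∈ range M', c (n + 1) * (n + 2).factorial, ?_, max 1 ⌈E⌉₊, ?_⟩
  · have : 0 ≤ ∑ n ∈ range M', c (n + 1) * ((n + 2).factorial : ℝ) :=
      sum_nonneg (fun n _ => mul_nonneg (hc _) (by positivity))
    linarith
  intro d hd N _ hE hN l hl hf x y
  have hd1 : 1 ≤ d := (le_max_left _ _).trans hd
  have hdR : (1 : ℝ) ≤ d := by exact_mod_cast hd1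
  have hdE : E ≤ 2 * (d : ℝ) := by
    have h1 : E ≤ (⌈E⌉₊ : ℝ) := Nat.le_ceil E
    have h2 : (⌈E⌉₊ : ℝ) ≤ (d : ℝ) := by exact_mod_cast (le_max_right _ _).trans hd
    linarith
  set t : ℝ := (2 * (d : ℝ))⁻¹ with ht
  have ht0 : 0 < t := by rw [ht]; positivity
  have htd : t * (2 * d) = 1 := by rw [ht]; field_simp
  have hF : (1 : ℝ) ≤ (2 * (d : ℝ)) ^ K := one_le_pow₀ (by linarith)
  obtain ⟨_, H2⟩ := H d N hd1 hE hN _ hF l hl hf
  refine (H2 x y).trans ?_
  refine add_le_add ?_ ?_
  · rw [sum_range_succ', hc0, one_mul, add_comm]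
    refine add_le_add ?_ ?_
    · unfold DD
      rcases eq_or_ne x y with h | h
      · rw [h]; simp
      · rw [if_neg h]
        have : y - x ≠ 0 := sub_ne_zero.mpr h.symm
        simp [this]
    · rw [add_mul, one_mul, sum_mul]
      have h1 : ∑ n ∈ range M', c (n + 1) * DD N d (n + 1) (y - x)
          ≤ ∑ n ∈ range M', c (n + 1) * ((n + 2).factorial : ℝ) * t ^ (max 1 (nrm (y - x))) := by
        refine sum_le_sum (fun n _ => ?_)
        rw [mul_assoc]
        exact mul_le_mul_of_nonneg_left (DD_le_max hE hN hd1 (by omega) _) (hc _)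
      have h2 : 0 ≤ t ^ (max 1 (nrm (y - x))) := by positivity
      linarith
  · have hr : (Real.sqrt (2 * d))⁻¹ ^ (2 * (m * K + K' + 1)) = t ^ (m * K + K' + 1) := by
      rw [pow_mul, inv_pow, Real.sq_sqrt (by positivity)]
    rw [hr, ← pow_mul, show m * K + K' + 1 = K * m + (K' + 1) by ring, pow_add t]
    have h3 : (2 * (d : ℝ)) ^ (K * m) * t ^ (K * m) = 1 := by
      rw [← mul_pow, mul_comm (2 * (d : ℝ)), htd, one_pow]
    calc E * (2 * (d : ℝ)) ^ (K * m) * (t ^ (K * m) * t ^ (K' + 1))
        = E * ((2 * (d : ℝ)) ^ (K * m) * t ^ (K * m)) * t ^ (K' + 1) := by ring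
      _ = E * t ^ (K' + 1) := by rw [h3, mul_one]
      _ ≤ (2 * d) * t ^ (K' + 1) := by gcongr
      _ = t ^ K' * (t * (2 * d)) := by ring
      _ = t ^ K' := by rw [htd, mul_one]

end DDA
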