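import Pool.Agent.DDA.DLowD
import Pool.Agent.DDA.Kernel
import Pool.Agent.DDA.OneStepTau

/-!
# DDA: lower bound for the difference of the susceptibilities of `T_N` and `T_4`
-/

open Finset

namespace DDA

set_option linter.unusedSectionVars false

namespace DLo

section
variable {N d : ℕ} [NeZero N]

lemma nrm_ge (hN : 8 ≤ N) {x : TV N d} (k : Fin d) (h : x k = 4 ∨ x k = -4) : 2 ≤ nrm x := by
  unfold nrm
  refine le_trans ?_ (single_le_sum (f := fun i => (x i).valMinAbs.natAbs)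
    (fun _ _ => Nat.zero_le _) (mem_univ k))
  by_contra hcon
  set a := (x k).valMinAbs with ha
  have h1 : ((a : ℤ) : ZMod N) = x k := ZMod.coe_valMinAbs _
  have h2 : a = -1 ∨ a = 0 ∨ a = 1 := by omega
  have key : ∀ m : ℤ, 3 ≤ m → m ≤ 5 → ((m : ℤ) : ZMod N) ≠ 0 := by
    intro m hm1 hm2 h0
    rw [ZMod.intCast_zmod_eq_zero_iff_dvd] at h0
    have := Int.le_of_dvd (by omega) h0
    omega
  rcases h with h | h
  · apply key (4 - a) (by omega) (by omega)
    push_cast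
    rw [h1, h]
    ring
  · apply key (4 + a) (by omega) (by omega)
    push_cast
    rw [h1, h]
    ring

lemma sg_apply_self (i : Fin d) (k : ℕ) : sg N d i k i = (k : ZMod N) := by
  unfold sg
  rw [Pi.single_eq_same]

lemma sg_apply_ne {i j : Fin d} (h : j ≠ i) (k : ℕ) : sg N d i k j = 0 := by
  unfold sg
  rw [Pi.single_eq_of_ne h]

lemma dang_idx {u a : TV N d} {i : Fin d} (h : a ∈ dang N d u i) :
    ∃ j : ℕ, 0 < j ∧ j < 4 ∧ a = u + sg N d i j := by
  rcases mem_dang.mp h with h | h | h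
  · exact ⟨1, by omega, by omega, h⟩
  · exact ⟨2, by omega, by omega, h⟩
  · exact ⟨3, by omega, by omega, h⟩

lemma wv_ne_dang (hN : 8 ≤ N) (P : TV N d × Fin d) {a : TV N d} (h : a ∈ dang N d P.1 P.2) :
    wv P ≠ a := by
  obtain ⟨j, hj0, hj4, rfl⟩ := dang_idx h
  intro h1
  have := sg_inj (N := N) (i := P.2) (j := 4) (k := j) (by omega) (by omega) (add_left_cancel h1)
  omega

lemma four_ne_zero' (hN : 8 ≤ N) : ((4 : ℕ) : ZMod N) ≠ 0 := by
  intro h
  rw [ZMod.natCast_eq_zero_iff] at h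
  have := Nat.le_of_dvd (by omega) h
  omega

lemma wv_ne_wv (hN : 8 ≤ N) (P Q : TV N d × Fin d) (h : Q.1 ∈ dang N d P.1 P.2) :
    wv P ≠ wv Q := by
  obtain ⟨j, hj0, hj4, hQ⟩ := dang_idx h
  intro h1
  unfold wv at h1
  rw [hQ, add_assoc] at h1
  have h2 := add_left_cancel h1
  by_cases hi : Q.2 = P.2
  · rw [hi] at h2
    have h3 : sg N d P.2 j = 0 := by simpa using h2.symm
    exact sg_ne_zero hj0 (by omega) h3
  · have h3 := congrFun h2 Q.2
    rw [Pi.add_apply, sg_apply_ne hi, sg_apply_ne hi, sg_apply_self, zero_add] at h3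
    exact four_ne_zero' hN h3.symm

lemma chi_pos {p : ℝ} (hp0 : 0 ≤ p) (hp1 : p ≤ 1) : 1 ≤ chi N d p := by
  unfold chi
  apply le_Ex hp0 hp1
  intro ω _
  have : 0 < ((T N d).cl univ ω 0).card := card_pos.mpr ⟨0, LG.self_mem_cl (mem_univ _)⟩
  exact_mod_cast this

lemma Mt_oneStep (hN : 3 ≤ N) (hd : 1 ≤ d) {p : ℝ} (hp0 : 0 ≤ p) (hp1 : p ≤ 1) (hpd : p ≤ 1 / d)
    {F : ℝ} (hF : chi N d p ≤ F) : OneStep 2 F (Mt N d p) := by
  have h1 := tau_oneStep hN hd hp0 hp1 (univ : Finset (TV N d)) (nv N d) (F := chi N d p)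
    (fun x => by rw [bex_eq_bb]; exact le_rfl)
  refine OneStep.mono ?_ hF h1
  have hd0 : (0:ℝ) < d := by exact_mod_cast hd
  calc 2 * d * p ≤ 2 * d * (1 / d) := by gcongr
    _ = 2 := by field_simp

lemma cpl_card {ω : Finset (TE 4 d)} (L : Lift N d ω) :
    L.D.card = ((T 4 d).cl univ ω 0).card := by
  rw [← L.image, card_image_of_injOn L.inj]

/-- the averaged inequality -/
lemma main_ineq (h4 : 4 ∣ N) (hN : 8 ≤ N) {p : ℝ} (hp0 : 0 ≤ p) (hp1 : p ≤ 1 / 2)
    {L : ∀ ω : Finset (TE 4 d), Lift N d ω} (hL : Cpl p L) :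
    chi 4 d p + p * chi N d p * (EP p L
      - Ex univ p (fun ω => ∑ P ∈ PL (L ω), ∑ a ∈ (L ω).D, Mt N d p (wv P) a)
      - p * Ex univ p (fun ω => ∑ P ∈ PL (L ω), ∑ Q ∈ (PL (L ω)).erase P,
        ∑ v, Mt N d p (wv P) v * Mt N d p v (wv Q))) ≤ chi N d p := by
  have hpp : p ≤ 1 := by linarith
  have h1 := Ex_mono (F := univ) hp0 hpp (fun ω _ => exp_gain h4 hN hp0 hp1 (L ω))
  have h2 : Ex univ p (fun ω => Ex univ p (fun η =>
      (((T N d).cl univ (wt (L ω) η) 0).card : ℝ))) = chi N d p :=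
    hL (fun ω' => (((T N d).cl univ ω' 0).card : ℝ))
  rw [h2] at h1
  refine le_trans (le_of_eq ?_) h1
  rw [Ex_add, Ex_mul_left, Ex_sub, Ex_sub, Ex_mul_left]
  congr 1
  unfold chi
  congr 1
  funext ω
  rw [cpl_card (L ω)]

lemma chi4_le (hN4 : 4 ∣ N) {p : ℝ} (hp0 : 0 ≤ p) (hp1 : p ≤ 1)
    {L : ∀ ω : Finset (TE 4 d), Lift N d ω} (hL : Cpl p L) : chi 4 d p ≤ chi N d p := by
  have h2 : Ex univ p (fun ω => Ex univ p (fun η =>
      (((T N d).cl univ (wt (L ω) η) 0).card : ℝ))) = chi N d p :=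
    hL (fun ω' => (((T N d).cl univ ω' 0).card : ℝ))
  rw [← h2]
  unfold chi
  apply Ex_mono hp0 hp1
  intro ω _
  apply le_Ex hp0 hp1
  intro η _
  rw [← cpl_card (L ω)]
  exact_mod_cast card_le_card (D_sub (L := L ω) η)

end

lemma exp_bound {d : ℕ} (hd : 2 ≤ d) {p : ℝ} (hp0 : 0 ≤ p) (hp1 : p ≤ 1 / d) :
    Real.exp (-12) ≤ (1 - p) ^ (6 * d) := by
  have hd0 : (2:ℝ) ≤ d := by exact_mod_cast hd
  have hp2 : p ≤ 1 / 2 := hp1.trans (one_div_le_one_div_of_le (by norm_num) hd0)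
  have h1 : Real.exp (-(2 * p)) ≤ 1 - p := by
    have h2 : 1 / (1 - p) ≤ Real.exp (2 * p) := by
      have h3 := Real.add_one_le_exp (2 * p)
      refine le_trans ?_ h3
      rw [div_le_iff₀ (by linarith)]
      nlinarith
    rw [Real.exp_neg]
    rw [div_le_iff₀ (by linarith)] at h2
    rw [inv_le_iff_one_le_mul₀ (Real.exp_pos _)]
    linarith
  calc Real.exp (-12) ≤ Real.exp (((6 * d : ℕ) : ℝ) * (-(2 * p))) := by
        apply Real.exp_le_exp.mpr
        push_cast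
        have : p * d ≤ 1 := by
          rw [← le_div_iff₀ (by linarith)]
          exact hp1
        nlinarith
    _ = (Real.exp (-(2 * p))) ^ (6 * d) := by rw [Real.exp_nat_mul]
    _ ≤ (1 - p) ^ (6 * d) := pow_le_pow_left₀ (Real.exp_pos _).le h1 _

end DLo

open DLo

theorem D_low : ∃ c : ℝ, 0 < c ∧ ∀ c' : ℝ, 0 < c' → ∃ d0 : ℕ, ∀ d ≥ d0, ∀ (N : ℕ) [NeZero N],
    4 ∣ N → 8 ≤ N → ∀ p : ℝ, 1 / (4 * d) ≤ p → p ≤ 1 / d → chi N d p ≤ (2 * (d : ℝ)) ^ 4 →
    c' * (2 * (d : ℝ)) ^ 3 ≤ chi 4 d p →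
    c / (2 * (d : ℝ)) ^ 3 * chi N d p * chi 4 d p ≤ chi N d p - chi 4 d p := by
  obtain ⟨C1, hC1, d1, H1⟩ := prod_bound 4 2 1 2 (by norm_num)
  obtain ⟨C2, hC2, d2, H2⟩ := prod_bound 4 2 2 2 (by norm_num)
  obtain ⟨C3, hC3, d3, H3⟩ := prod_bound 4 2 3 2 (by norm_num)
  obtain ⟨C4, hC4, d4, H4⟩ := prod_bound 4 2 4 2 (by norm_num)
  set C := C1 + C2 + C3 + C4 + 1 with hC
  have hC0 : 0 < C := by rw [hC]; positivity
  set e0 := Real.exp (-12) with he0
  have he0p : 0 < e0 := Real.exp_pos _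
  refine ⟨e0 / 256, by positivity, ?_⟩
  intro c' hc'
  refine ⟨d1 + d2 + d3 + d4 + 2 + ⌈6 * C⌉₊ + ⌈16 * C / (c' * e0)⌉₊, ?_⟩
  intro d hd N _ hN4 hN p hpl hpu hchiN hchi4
  have hd2 : 2 ≤ d := by omega
  have hdC : 6 * C ≤ d := by
    have h1 := Nat.le_ceil (6 * C)
    have h2 : ((⌈6 * C⌉₊ : ℕ) : ℝ) ≤ d := by exact_mod_cast (by omega : ⌈6 * C⌉₊ ≤ d)
    linarith
  have hdC' : 16 * C ≤ c' * e0 * d := by
    have h1 := Nat.le_ceil (16 * C / (c' * e0))
    have h2 : ((⌈16 * C / (c' * e0)⌉₊ : ℕ) : ℝ) ≤ d := by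
      exact_mod_cast (by omega : ⌈16 * C / (c' * e0)⌉₊ ≤ d)
    have h3 := h1.trans h2
    rw [div_le_iff₀ (by positivity)] at h3
    linarith
  have hdr : (2:ℝ) ≤ d := by exact_mod_cast hd2
  have hd0 : (0:ℝ) < d := by linarith
  have hp0 : 0 < p := lt_of_lt_of_le (by positivity) hpl
  have hp2 : p ≤ 1 / 2 := hpu.trans (one_div_le_one_div_of_le (by norm_num) hdr)
  have hp1 : p ≤ 1 := by linarith
  obtain ⟨L, hL⟩ := coupling (N := N) (d := d) hN4 (by omega) p
  have hL' : Cpl p L := hL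
  have hE : Even N := (by
    obtain ⟨m, rfl⟩ := hN4
    exact ⟨2 * m, by ring⟩)
  -- abbreviations
  set r : ℝ := (2 * (d : ℝ))⁻¹ with hr
  have hr0 : 0 < r := by rw [hr]; positivity
  have hr1 : r ≤ 1 := by
    rw [hr]
    exact inv_le_one_of_one_le₀ (by linarith)
  have hrd : d * r = 1 / 2 := by rw [hr]; field_simp
  have hM := Mt_oneStep (N := N) (d := d) (by omega) (by omega) hp0.le hp1 hpu hchiN
  have hchi44 : chi 4 d p ≤ (2 * (d : ℝ)) ^ 4 := (chi4_le hN4 hp0.le hp1 hL').trans hchiN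
  have hM4 := Mt_oneStep (N := 4) (d := d) (by omega) (by omega) hp0.le hp1 hpu hchi44
  -- powers of `r`
  have hpow1 : ∀ k : ℕ, r ^ (max 1 k) ≤ r := by
    intro k
    calc r ^ (max 1 k) ≤ r ^ 1 := pow_le_pow_of_le_one hr0.le hr1 (le_max_left _ _)
      _ = r := pow_one r
  have hpow2 : ∀ k : ℕ, 2 ≤ k → r ^ (max 1 k) ≤ r ^ 2 := by
    intro k hk
    exact pow_le_pow_of_le_one hr0.le hr1 (hk.trans (le_max_right _ _))
  have hr2 : r ^ 2 ≤ r := by
    calc r ^ 2 = r * r := by ring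
      _ ≤ r * 1 := mul_le_mul_of_nonneg_left hr1 hr0.le
      _ = r := mul_one r
  have comb1 : ∀ Ci s : ℝ, 0 < Ci → Ci + 1 ≤ C → s ≤ r → Ci * s + r ^ 2 ≤ C * r := by
    intro Ci s h1 h2 h3
    calc Ci * s + r ^ 2 ≤ Ci * r + r := add_le_add (mul_le_mul_of_nonneg_left h3 h1.le) hr2
      _ = (Ci + 1) * r := by ring
      _ ≤ C * r := mul_le_mul_of_nonneg_right h2 hr0.le
  have comb2 : ∀ Ci s : ℝ, 0 < Ci → Ci + 1 ≤ C → s ≤ r ^ 2 → Ci * s + r ^ 2 ≤ C * r ^ 2 := by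
    intro Ci s h1 h2 h3
    calc Ci * s + r ^ 2 ≤ Ci * r ^ 2 + r ^ 2 :=
          add_le_add (mul_le_mul_of_nonneg_left h3 h1.le) le_rfl
      _ = (Ci + 1) * r ^ 2 := by ring
      _ ≤ C * r ^ 2 := mul_le_mul_of_nonneg_right h2 (by positivity)
  have hC1C : C1 + 1 ≤ C := by rw [hC]; linarith
  have hC2C : C2 + 1 ≤ C := by rw [hC]; linarith
  have hC3C : C3 + 1 ≤ C := by rw [hC]; linarith
  have hC4C : C4 + 1 ≤ C := by rw [hC]; linarith
  -- the bounds
  have B0 : ∀ P : TV N d × Fin d, ∀ a ∈ dang N d P.1 P.2, Mt N d p (wv P) a ≤ C * r := by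
    intro P a ha
    have h := H1 d (by omega) N hE (by omega) [Mt N d p] rfl (by simpa using hM) (wv P) a
    rw [if_neg (wv_ne_dang hN P ha), List.prod_singleton] at h
    have h' := comb1 C1 _ hC1 hC1C (hpow1 (nrm (a - wv P)))
    linarith
  have Bb : ∀ (x : TV 4 d) (i : Fin d), ∀ a ∈ dang 4 d x i, Mt 4 d p a x ≤ C * r := by
    intro x i a ha
    have hne : a ≠ x := by
      rintro rfl
      exact self_notMem_dang (by norm_num) _ _ ha
    have h := H1 d (by omega) 4 (by decide) (by omega) [Mt 4 d p] rfl (by simpa using hM4) a x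
    rw [if_neg hne, List.prod_singleton] at h
    have h' := comb1 C1 _ hC1 hC1C (hpow1 (nrm (x - a)))
    linarith
  have B1 : ∀ P Q : TV N d × Fin d, Q.1 ∈ dang N d P.1 P.2 →
      (Mt N d p * Mt N d p) (wv P) (wv Q) ≤ C * r := by
    intro P Q hQ
    have h := H2 d (by omega) N hE (by omega) [Mt N d p, Mt N d p] rfl (by simpa using hM)
      (wv P) (wv Q)
    rw [if_neg (wv_ne_wv hN P Q hQ), List.prod_cons, List.prod_singleton] at h
    have h' := comb1 C2 _ hC2 hC2C (hpow1 (nrm (wv Q - wv P)))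
    linarith
  have B4 : ∀ (i : Fin d) (v : TV N d),
      (Mt N d p * (Mt N d p * Mt N d p)) v (v - sg N d i 4) ≤ C * r ^ 2 := by
    intro i v
    have h := H3 d (by omega) N hE (by omega) [Mt N d p, Mt N d p, Mt N d p] rfl
      (by simpa using hM) v (v - sg N d i 4)
    have hne : v ≠ v - sg N d i 4 := by
      intro h1
      have : sg N d i 4 = 0 := by simpa using h1.symm
      exact sg_ne_zero (by norm_num) (by omega) this
    rw [if_neg hne, List.prod_cons, List.prod_cons, List.prod_singleton] at h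
    have hn : 2 ≤ nrm (v - sg N d i 4 - v) := by
      apply nrm_ge hN i
      right
      have : v - sg N d i 4 - v = - sg N d i 4 := by abel
      rw [this, Pi.neg_apply, sg_apply_self]
      norm_num
    have h' := comb2 C3 _ hC3 hC3C (hpow2 _ hn)
    linarith
  have B2 : ∀ v : TV N d, (Mt N d p * (Mt N d p * Mt N d p) * Mt N d p) v v ≤ 1 + C * r := by
    intro v
    have h := H4 d (by omega) N hE (by omega) [Mt N d p, Mt N d p, Mt N d p, Mt N d p] rfl
      (by simpa using hM) v v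
    rw [if_pos rfl, List.prod_cons, List.prod_cons, List.prod_cons, List.prod_singleton,
      ← Matrix.mul_assoc (Mt N d p) (Mt N d p) (Mt N d p), ← Matrix.mul_assoc] at h
    have h' := comb1 C4 _ hC4 hC4C (hpow1 (nrm (v - v)))
    linarith
  have B3 : ∀ i j : Fin d, i ≠ j → ∀ v : TV N d,
      (Mt N d p * (Mt N d p * Mt N d p) * Mt N d p) v (v + (sg N d j 4 - sg N d i 4))
        ≤ C * r ^ 2 := by
    intro i j hij v
    have h := H4 d (by omega) N hE (by omega) [Mt N d p, Mt N d p, Mt N d p, Mt N d p] rfl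
      (by simpa using hM) v (v + (sg N d j 4 - sg N d i 4))
    have hcoord : (sg N d j 4 - sg N d i 4) j = 4 := by
      rw [Pi.sub_apply, sg_apply_self, sg_apply_ne hij.symm, sub_zero]
      norm_num
    have hne : v ≠ v + (sg N d j 4 - sg N d i 4) := by
      intro h1
      have h2 : sg N d j 4 - sg N d i 4 = 0 := by simpa using h1
      rw [h2, Pi.zero_apply] at hcoord
      apply four_ne_zero' hN
      push_cast
      exact hcoord.symm
    rw [if_neg hne, List.prod_cons, List.prod_cons, List.prod_cons, List.prod_singleton,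
      ← Matrix.mul_assoc (Mt N d p) (Mt N d p) (Mt N d p), ← Matrix.mul_assoc] at h
    have hn : 2 ≤ nrm (v + (sg N d j 4 - sg N d i 4) - v) := by
      apply nrm_ge hN j
      left
      rw [add_sub_cancel_left]
      exact hcoord
    have h' := comb2 C4 _ hC4 hC4C (hpow2 _ hn)
    linarith
  -- collect
  have G0 := main_ineq hN4 hN hp0.le hp2 hL'
  have G2 := E2_bound hN4 hN hp0.le hp2 hL' B0 B4
  have G3 := E3_bound hN4 hN hp0.le hp2 hL' (B1 := C * r) (B2 := C * r) (B3 := C * r ^ 2)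
    (by positivity) (by positivity) B1 B2 B3
  have G1 := EP_lower (L := L) hp0.le hp2 Bb
  have hexp := exp_bound hd2 hp0.le hpu
  set X := chi N d p with hX
  set Y := chi 4 d p with hY
  set EE := EP p L with hEE
  set E2 := Ex univ p (fun ω => ∑ P ∈ PL (L ω), ∑ a ∈ (L ω).D, Mt N d p (wv P) a) with hE2
  set E3 := Ex univ p (fun ω => ∑ P ∈ PL (L ω), ∑ Q ∈ (PL (L ω)).erase P,
        ∑ v, Mt N d p (wv P) v * Mt N d p v (wv Q)) with hE3
  have hX1 : 1 ≤ X := chi_pos hp0.le hp1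
  have hY1 : 1 ≤ Y := chi_pos hp0.le hp1
  have hCr : C * r ≤ 1 / 12 := by
    have h1 : 6 * C * r ≤ d * r := mul_le_mul_of_nonneg_right hdC hr0.le
    rw [hrd] at h1
    linarith
  have hpd : p * d ≤ 1 := by
    rw [← le_div_iff₀ hd0]
    exact hpu
  -- lower bound for `EE`
  have K1 : p ^ 3 * e0 * (d * Y * (1 / 2)) ≤ EE := by
    refine le_trans ?_ G1
    have h1 : (1:ℝ) / 2 ≤ 1 - 3 * (C * r) := by linarith
    have h2 : (0:ℝ) ≤ p ^ 3 * (1 - p) ^ (6 * d) := by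
      have : 0 ≤ 1 - p := by linarith
      positivity
    gcongr
  have hEEn : 0 ≤ EE := le_trans (by positivity) K1
  -- the corrections
  have K2 : E2 ≤ 1 / 4 * EE + p ^ 3 * (X * (C * r / 2)) := by
    refine G2.trans ?_
    have h1 : 3 * (C * r) * EE ≤ 1 / 4 * EE := by
      apply mul_le_mul_of_nonneg_right _ hEEn
      linarith
    have h2 : p ^ 3 * (d * X * (C * r ^ 2)) = p ^ 3 * (X * (C * r / 2)) := by
      have : d * X * (C * r ^ 2) = X * (C * r) * (d * r) := by ring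
      rw [this, hrd]
      ring
    linarith
  have K3 : p * E3 ≤ 1 / 4 * EE + p ^ 3 * (X * (3 / 2 * C * r)) := by
    have h0 : p * E3 ≤ p * (3 * d * (C * r) * EE + p ^ 3 * (X * (d * (C * r) +
        (d : ℝ) ^ 2 * (C * r ^ 2)))) := mul_le_mul_of_nonneg_left G3 hp0.le
    refine h0.trans ?_
    have h1 : p * (3 * d * (C * r) * EE) ≤ 1 / 4 * EE := by
      have : p * (3 * d * (C * r) * EE) = (p * d) * (3 * (C * r) * EE) := by ring
      rw [this]
      calc (p * d) * (3 * (C * r) * EE) ≤ 1 * (3 * (C * r) * EE) := by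
            apply mul_le_mul_of_nonneg_right hpd
            positivity
        _ ≤ 1 / 4 * EE := by
            rw [one_mul]
            apply mul_le_mul_of_nonneg_right _ hEEn
            linarith
    have h2 : p * (p ^ 3 * (X * (d * (C * r) + (d : ℝ) ^ 2 * (C * r ^ 2))))
        ≤ p ^ 3 * (X * (3 / 2 * C * r)) := by
      have h3 : (d : ℝ) ^ 2 * (C * r ^ 2) = d * (C * r) * (d * r) := by ring
      rw [h3, hrd]
      have h4 : p * (p ^ 3 * (X * (d * (C * r) + d * (C * r) * (1 / 2))))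
          = (p * d) * (p ^ 3 * (X * (3 / 2 * C * r))) := by ring
      rw [h4]
      have h5 : 0 ≤ p ^ 3 * (X * (3 / 2 * C * r)) := by positivity
      nlinarith
    nlinarith
  have K4 : r * X ≤ Y / c' := by
    rw [le_div_iff₀ hc']
    have h1 : r * X ≤ r * (2 * (d:ℝ)) ^ 4 := mul_le_mul_of_nonneg_left hchiN hr0.le
    have h2 : r * (2 * (d:ℝ)) ^ 4 = (2 * (d:ℝ)) ^ 3 := by
      rw [hr]; field_simp
    calc r * X * c' ≤ (2 * (d:ℝ)) ^ 3 * c' := by rw [← h2]; gcongr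
      _ ≤ Y := by linarith
  have K5 : p ^ 3 * (X * (C * r / 2)) + p ^ 3 * (X * (3 / 2 * C * r))
      ≤ p ^ 3 * (e0 * d * Y / 8) := by
    have h1 : p ^ 3 * (X * (C * r / 2)) + p ^ 3 * (X * (3 / 2 * C * r))
        = p ^ 3 * (2 * C * (r * X)) := by ring
    rw [h1]
    apply mul_le_mul_of_nonneg_left _ (by positivity)
    calc 2 * C * (r * X) ≤ 2 * C * (Y / c') := by gcongr
      _ ≤ e0 * d * Y / 8 := by
        rw [mul_div_assoc', div_le_iff₀ hc']
        nlinarith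
  have K6 : p ^ 3 * (e0 * d * Y / 8) ≤ EE - E2 - p * E3 := by
    have : p ^ 3 * e0 * (d * Y * (1 / 2)) = p ^ 3 * (e0 * d * Y / 8) * 4 := by ring
    rw [this] at K1
    linarith
  have K7 : p * X * (p ^ 3 * (e0 * d * Y / 8)) ≤ X - Y := by
    have := mul_le_mul_of_nonneg_left K6 (by positivity : 0 ≤ p * X)
    linarith
  refine le_trans ?_ K7
  have hp4 : (1 / (4 * (d:ℝ))) ^ 4 ≤ p ^ 4 := pow_le_pow_left₀ (by positivity) hpl 4
  calc e0 / 256 / (2 * (d:ℝ)) ^ 3 * X * Y = (1 / (4 * (d:ℝ))) ^ 4 * (e0 * d * X * Y / 8) := by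
        field_simp
        ring
    _ ≤ p ^ 4 * (e0 * d * X * Y / 8) := by gcongr
    _ = p * X * (p ^ 3 * (e0 * d * Y / 8)) := by ring

end DDA
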