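import Pool.Agent.DDA.DLSE

/-!
# DDA: sharp lower bound for the difference of the susceptibilities of `T_N` and `T_4`
-/

open Finset

namespace DDA

open DDA.DLo DDA.DLs

set_option linter.unusedSectionVars false

lemma smul_st_nrm {N d : ℕ} [NeZero N] (hN : 8 ≤ N) (j : Fin d × Bool) :
    2 ≤ nrm (4 • st N d j) := by
  apply nrm_ge hN j.1
  rw [smul_st_self]
  split_ifs
  · left; norm_num
  · right; norm_num

theorem D_low_sharp (δ : ℝ) (hδ : 0 < δ) (c' : ℝ) (hc' : 0 < c') : ∃ d0 : ℕ, ∀ d ≥ d0,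
    ∀ (N : ℕ) [NeZero N], 4 ∣ N → 12 ≤ N → ∀ p : ℝ, 1 / (4 * d) ≤ p → p ≤ 1 / d →
    chi N d p ≤ (2 * (d : ℝ)) ^ 4 → c' * (2 * (d : ℝ)) ^ 3 ≤ chi 4 d p →
    (5 / 2 - δ) * (2 * (d : ℝ)) * p ^ 4 * chi N d p * chi 4 d p ≤ chi N d p - chi 4 d p := by
  obtain ⟨C2, hC2, d2, H2⟩ := prod_bound 4 2 2 2 (by norm_num)
  obtain ⟨C3, hC3, d3, H3⟩ := prod_bound 4 2 3 2 (by norm_num)
  obtain ⟨C4, hC4, d4, H4⟩ := prod_bound 4 2 4 2 (by norm_num)
  set C := C2 + C3 + C4 + 1 with hC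
  have hC0 : 0 < C := by rw [hC]; positivity
  refine ⟨d2 + d3 + d4 + 2 + ⌈(45 / 2 * C + 3 + 125 * C / c') / (2 * δ)⌉₊, ?_⟩
  intro d hd N _ hN4 hN p hpl hpu hchiN hchi4
  have hd2 : 2 ≤ d := by omega
  have hdC : 45 / 2 * C + 3 + 125 * C / c' ≤ 2 * δ * d := by
    have h1 := Nat.le_ceil ((45 / 2 * C + 3 + 125 * C / c') / (2 * δ))
    have h2 : ((⌈(45 / 2 * C + 3 + 125 * C / c') / (2 * δ)⌉₊ : ℕ) : ℝ) ≤ d := by
      exact_mod_cast (by omega : ⌈(45 / 2 * C + 3 + 125 * C / c') / (2 * δ)⌉₊ ≤ d)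
    have h3 := h1.trans h2
    rw [div_le_iff₀ (by positivity)] at h3
    linarith
  have hdr : (2:ℝ) ≤ d := by exact_mod_cast hd2
  have hd0 : (0:ℝ) < d := by linarith
  have hp0 : 0 < p := lt_of_lt_of_le (by positivity) hpl
  have hp2 : p ≤ 1 / 2 := hpu.trans (one_div_le_one_div_of_le (by norm_num) hdr)
  have hp1 : p ≤ 1 := by linarith
  obtain ⟨L, hL, hXm⟩ := coupling2 (N := N) (d := d) hN4 (by omega) p
  have hL' : Cpl2 p L := hL
  have hE : Even N := (by
    obtain ⟨m, rfl⟩ := hN4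
    exact ⟨2 * m, by ring⟩)
  set r : ℝ := (2 * (d : ℝ))⁻¹ with hr
  have hr0 : 0 < r := by rw [hr]; positivity
  have hr1 : r ≤ 1 := by
    rw [hr]
    exact inv_le_one_of_one_le₀ (by linarith)
  have hrd : 2 * d * r = 1 := by rw [hr]; field_simp
  have hM := Mt_oneStep (N := N) (d := d) (by omega) (by omega) hp0.le hp1 hpu hchiN
  have hchi44 : chi 4 d p ≤ (2 * (d : ℝ)) ^ 4 := (chi4_le hN4 hp0.le hp1 hL').trans hchiN
  have hM4 := Mt_oneStep (N := 4) (d := d) (by omega) (by omega) hp0.le hp1 hpu hchi44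
  have hMs := Ms_oneStep (N := N) (d := d) hN4 (by omega) (by omega) hp0.le hp1 hpu hchiN
  -- powers of `r`
  have hpow1 : ∀ k : ℕ, r ^ (max 1 k) ≤ r := by
    intro k
    calc r ^ (max 1 k) ≤ r ^ 1 := pow_le_pow_of_le_one hr0.le hr1 (le_max_left _ _)
      _ = r := pow_one r
  have hpow2 : ∀ k : ℕ, 2 ≤ k → r ^ (max 1 k) ≤ r ^ 2 := by
    intro k hk
    exact pow_le_pow_of_le_one hr0.le hr1 (hk.trans (le_max_right _ _))
  have hr2 : r ^ 2 ≤ r := by
    calc r ^ 2 = r * r := by ring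
      _ ≤ r * 1 := mul_le_mul_of_nonneg_left hr1 hr0.le
      _ = r := mul_one r
  have comb1 : ∀ Ci s : ℝ, 0 < Ci → Ci + 1 ≤ C → s ≤ r → Ci * s + r ^ 2 ≤ C * r := by
    intro Ci s h1 h2 h3
    calc Ci * s + r ^ 2 ≤ Ci * r + r := add_le_add (mul_le_mul_of_nonneg_left h3 h1.le) hr2
      _ = (Ci + 1) * r := by ring
      _ ≤ C * r := mul_le_mul_of_nonneg_right h2 hr0.le
  have comb2 : ∀ Ci s : ℝ, 0 < Ci → Ci + 1 ≤ C → s ≤ r ^ 2 → Ci * s + r ^ 2 ≤ C * r ^ 2 := by
    intro Ci s h1 h2 h3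
    calc Ci * s + r ^ 2 ≤ Ci * r ^ 2 + r ^ 2 :=
          add_le_add (mul_le_mul_of_nonneg_left h3 h1.le) le_rfl
      _ = (Ci + 1) * r ^ 2 := by ring
      _ ≤ C * r ^ 2 := mul_le_mul_of_nonneg_right h2 (by positivity)
  have hC2C : C2 + 1 ≤ C := by rw [hC]; linarith
  have hC3C : C3 + 1 ≤ C := by rw [hC]; linarith
  have hC34 : (C3 + C4) + 1 ≤ C := by rw [hC]; linarith
  -- the bounds
  have Bfr : ∀ (i : Fin d) (k : ℕ), 0 < k → k < 4 → ∀ x : TV 4 d,
      (Mt 4 d p * Mt 4 d p) x (x - sg 4 d i k) ≤ C * r := by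
    intro i k hk0 hk4 x
    have hne : x ≠ x - sg 4 d i k := by
      intro h1
      have : sg 4 d i k = 0 := by simpa using h1.symm
      exact sg_ne_zero hk0 hk4 this
    have h := H2 d (by omega) 4 (by decide) (by omega) [Mt 4 d p, Mt 4 d p] rfl
      (by simpa using hM4) x (x - sg 4 d i k)
    rw [if_neg hne, List.prod_cons, List.prod_singleton] at h
    have h' := comb1 C2 _ hC2 hC2C (hpow1 (nrm (x - sg 4 d i k - x)))
    linarith
  have BA : ∀ (j : Fin d × Bool) (w : TV N d),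
      (Mt N d p * (Mt N d p * Mt N d p)) w (w - 4 • st N d j) ≤ C * r ^ 2 := by
    intro j w
    have h := H3 d (by omega) N hE (by omega) [Mt N d p, Mt N d p, Mt N d p] rfl
      (by simpa using hM) w (w - 4 • st N d j)
    have hne : w ≠ w - 4 • st N d j := by
      intro h1
      have : 4 • st N d j = 0 := by simpa using h1.symm
      exact smul_st_ne_zero (by norm_num) (by omega) this
    rw [if_neg hne, List.prod_cons, List.prod_cons, List.prod_singleton] at h
    have hn : 2 ≤ nrm (w - 4 • st N d j - w) := by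
      have : w - 4 • st N d j - w = - (4 • st N d j) := by abel
      rw [this, nrm_neg']
      exact smul_st_nrm (by omega) j
    have h' := comb2 C3 _ hC3 hC3C (hpow2 _ hn)
    linarith
  have BA' : ∀ (j : Fin d × Bool) (w : TV N d),
      (Mt N d p * Mt N d p) (w + 4 • st N d j) w ≤ C * r ^ 2 := by
    intro j w
    have h := H2 d (by omega) N hE (by omega) [Mt N d p, Mt N d p] rfl
      (by simpa using hM) (w + 4 • st N d j) w
    have hne : w + 4 • st N d j ≠ w := by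
      intro h1
      have : 4 • st N d j = 0 := by simpa using h1
      exact smul_st_ne_zero (by norm_num) (by omega) this
    rw [if_neg hne, List.prod_cons, List.prod_singleton] at h
    have hn : 2 ≤ nrm (w - (w + 4 • st N d j)) := by
      have : w - (w + 4 • st N d j) = - (4 • st N d j) := by abel
      rw [this, nrm_neg']
      exact smul_st_nrm (by omega) j
    have h' := comb2 C2 _ hC2 hC2C (hpow2 _ hn)
    linarith
  have BB : ∀ k : ℕ, 0 < k → k < 4 → ∀ (j : Fin d × Bool) (w : TV 4 d),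
      ((Mt 4 d p * Ms N d p) * Mt 4 d p) w (w - k • st 4 d j) ≤ C * r := by
    intro k hk0 hk4 j w
    have hne : w ≠ w - k • st 4 d j := by
      intro h1
      have : k • st 4 d j = 0 := by simpa using h1.symm
      exact smul_st_ne_zero hk0 hk4 this
    have h := H3 d (by omega) 4 (by decide) (by omega) [Mt 4 d p, Ms N d p, Mt 4 d p] rfl
      (by simp [hM4, hMs]) w (w - k • st 4 d j)
    rw [if_neg hne, List.prod_cons, List.prod_cons, List.prod_singleton, ← Matrix.mul_assoc] at h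
    have h' := comb1 C3 _ hC3 hC3C (hpow1 (nrm (w - k • st 4 d j - w)))
    linarith
  have BB' : ∀ k : ℕ, 0 < k → k < 4 → ∀ (j : Fin d × Bool) (w : TV 4 d),
      (Mt 4 d p * Ms N d p) (w + k • st 4 d j) w ≤ C * r := by
    intro k hk0 hk4 j w
    have hne : w + k • st 4 d j ≠ w := by
      intro h1
      have : k • st 4 d j = 0 := by simpa using h1
      exact smul_st_ne_zero hk0 hk4 this
    have h := H2 d (by omega) 4 (by decide) (by omega) [Mt 4 d p, Ms N d p] rfl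
      (by simp [hM4, hMs]) (w + k • st 4 d j) w
    rw [if_neg hne, List.prod_cons, List.prod_singleton] at h
    have h' := comb1 C2 _ hC2 hC2C (hpow1 (nrm (w - (w + k • st 4 d j))))
    linarith
  let β : TV N d → ℝ := fun c => (C3 + C4) * r ^ (max 1 (nrm c)) + r ^ 2
  have hβ4 : ∀ w c : TV N d, (Mt N d p * ((Mt N d p * Mt N d p) * Mt N d p)) w (w + c)
      ≤ (if c = 0 then 1 else 0) + β c := by
    intro w c
    have h := H4 d (by omega) N hE (by omega) [Mt N d p, Mt N d p, Mt N d p, Mt N d p] rfl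
      (by simpa using hM) w (w + c)
    rw [List.prod_cons, List.prod_cons, List.prod_cons, List.prod_singleton,
      ← Matrix.mul_assoc (Mt N d p) (Mt N d p) (Mt N d p), add_sub_cancel_left] at h
    have h5 : (if w = w + c then (1:ℝ) else 0) = (if c = 0 then 1 else 0) := by
      by_cases hc0 : c = 0
      · simp [hc0]
      · rw [if_neg hc0, if_neg]
        intro h6
        exact hc0 (by simpa using h6)
    rw [h5] at h
    have h6 : C4 * r ^ (max 1 (nrm c)) ≤ (C3 + C4) * r ^ (max 1 (nrm c)) := by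
      apply mul_le_mul_of_nonneg_right _ (by positivity)
      linarith
    simp only [β]
    linarith
  have hβ3 : ∀ w c : TV N d, (Mt N d p * (Mt N d p * Mt N d p)) w (w + c)
      ≤ (if c = 0 then 1 else 0) + β c := by
    intro w c
    have h := H3 d (by omega) N hE (by omega) [Mt N d p, Mt N d p, Mt N d p] rfl
      (by simpa using hM) w (w + c)
    rw [List.prod_cons, List.prod_cons, List.prod_singleton, add_sub_cancel_left] at h
    have h5 : (if w = w + c then (1:ℝ) else 0) = (if c = 0 then 1 else 0) := by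
      by_cases hc0 : c = 0
      · simp [hc0]
      · rw [if_neg hc0, if_neg]
        intro h6
        exact hc0 (by simpa using h6)
    rw [h5] at h
    have h6 : C3 * r ^ (max 1 (nrm c)) ≤ (C3 + C4) * r ^ (max 1 (nrm c)) := by
      apply mul_le_mul_of_nonneg_right _ (by positivity)
      linarith
    simp only [β]
    linarith
  have hβB : ∀ c, β c ≤ C * r := fun c => comb1 (C3 + C4) _ (by linarith) hC34 (hpow1 _)
  have hβB' : ∀ c, 2 ≤ nrm c → β c ≤ C * r ^ 2 :=
    fun c hc => comb2 (C3 + C4) _ (by linarith) hC34 (hpow2 _ hc)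
  -- collect
  have G0 := main_ineq2 hN4 (by omega) hp0.le hp2 hL'
  have GA := E2A hN4 (by omega) hp0.le hp2 hL' BA BA'
  have GB1 := E2B hN4 (by omega) hp0.le hp2 L 1 (BB 1 (by norm_num) (by norm_num))
    (BB' 1 (by norm_num) (by norm_num))
  have GB2 := E2B hN4 (by omega) hp0.le hp2 L 2 (BB 2 (by norm_num) (by norm_num))
    (BB' 2 (by norm_num) (by norm_num))
  have GB3 := E2B hN4 (by omega) hp0.le hp2 L 3 (BB 3 (by norm_num) (by norm_num))
    (BB' 3 (by norm_num) (by norm_num))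
  have G3 := E3B hN4 hN hp0.le hp2 hL' (β := β) (B := C * r) (B' := C * r ^ 2) (by positivity)
    (by positivity) hβ4 hβ3 hβB hβB'
  have G1 := fr_lower hp0.le hp2 L Bfr
  have G2 : Ex univ p (fun ω => ∑ P ∈ PM (L ω), ∑ a ∈ (L ω).D, Mt N d p (wj P) a) ≤
      Ex univ p (fun ω => SS p (L ω) 0) + Ex univ p (fun ω => SS p (L ω) 1) +
        Ex univ p (fun ω => SS p (L ω) 2) + Ex univ p (fun ω => SS p (L ω) 3) := by
    rw [← Ex_add, ← Ex_add, ← Ex_add]
    apply Ex_mono hp0.le hp1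
    intro ω _
    have h := E2_split hN4 (by omega) hp0.le hp1 (L ω)
    rw [sum_range_succ, sum_range_succ, sum_range_succ, sum_range_one] at h
    exact h
  have hPM : Ex univ p (fun ω => ((PM (L ω)).card : ℝ)) = (5 * p ^ 3 - 3 * p ^ 4) *
      Ex univ p (fun ω => (((L ω).fr.card : ℕ) : ℝ)) := by
    rw [← hXm]
    congr 1
    funext ω
    rw [card_PM (by omega)]
  rw [hPM] at G0
  set X := chi N d p with hX
  set Y := chi 4 d p with hY
  set FR := Ex univ p (fun ω => (((L ω).fr.card : ℕ) : ℝ)) with hFR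
  set E2 := Ex univ p (fun ω => ∑ P ∈ PM (L ω), ∑ a ∈ (L ω).D, Mt N d p (wj P) a) with hE2
  set E3 := Ex univ p (fun ω => ∑ P ∈ PM (L ω), ∑ Q ∈ (PM (L ω)).erase P,
        ∑ v, Mt N d p (wj P) v * Mt N d p v (wj Q)) with hE3
  set S0 := Ex univ p (fun ω => SS p (L ω) 0)
  set S1 := Ex univ p (fun ω => SS p (L ω) 1)
  set S2 := Ex univ p (fun ω => SS p (L ω) 2)
  set S3 := Ex univ p (fun ω => SS p (L ω) 3)
  have hX1 : 1 ≤ X := chi_pos hp0.le hp1
  have hY1 : 1 ≤ Y := chi_pos hp0.le hp1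
  have hX0 : 0 < X := by linarith
  have hY0 : 0 < Y := by linarith
  have hpd : p * d ≤ 1 := by
    rw [← le_div_iff₀ hd0]
    exact hpu
  have hp3 : 0 < p ^ 3 := by positivity
  -- `r X ≤ Y / c'`
  have K4 : r * X ≤ Y / c' := by
    rw [le_div_iff₀ hc']
    have h1 : r * X ≤ r * (2 * (d:ℝ)) ^ 4 := mul_le_mul_of_nonneg_left hchiN hr0.le
    have h2 : r * (2 * (d:ℝ)) ^ 4 = (2 * (d:ℝ)) ^ 3 := by
      rw [hr]; field_simp
    calc r * X * c' ≤ (2 * (d:ℝ)) ^ 3 * c' := by rw [← h2]; gcongr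
      _ ≤ Y := by linarith
  -- the corrections
  have T0 : S0 ≤ p ^ 3 * (5 * C * (Y / c')) := by
    refine GA.trans ?_
    have e1 : 2 * d * (X * (C * r ^ 2 + 4 * (C * r ^ 2))) = 5 * C * (r * X) * (2 * d * r) := by ring
    rw [e1, hrd, mul_one]
    gcongr
  have T1 : ∀ S : ℝ, S ≤ p ^ 3 * (2 * d * (Y * (C * r + 4 * (C * r)))) → S ≤ p ^ 3 * (5 * C * Y) := by
    intro S hS
    have e1 : 2 * d * (Y * (C * r + 4 * (C * r))) = 5 * C * Y * (2 * d * r) := by ring
    rwa [e1, hrd, mul_one] at hS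
  have T1' := T1 _ GB1
  have T2' := T1 _ GB2
  have T3' := T1 _ GB3
  have T3 : p * E3 ≤ p ^ 3 * (120 * C * (Y / c')) := by
    have e0 : p * E3 ≤ p * (p ^ 3 * (X * (20 * (2 * d * (2 * (C * r) + 2 * d * (C * r ^ 2)))))) :=
      mul_le_mul_of_nonneg_left G3 hp0.le
    refine e0.trans ?_
    have e1 : 2 * d * (2 * (C * r) + 2 * d * (C * r ^ 2)) = 3 * C := by
      have : 2 * (d:ℝ) * (2 * (C * r) + 2 * d * (C * r ^ 2))
        = 2 * C * (2 * d * r) + C * (2 * d * r) * (2 * d * r) := by ring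
      rw [this, hrd]
      ring
    rw [e1]
    have e2 : p * (p ^ 3 * (X * (20 * (3 * C)))) = p ^ 3 * (60 * C * (p * X)) := by ring
    rw [e2]
    have e3 : p * X ≤ 2 * (Y / c') := by
      have e4 : p ≤ 2 * r := by
        refine hpu.trans (le_of_eq ?_)
        rw [hr]
        field_simp
      calc p * X ≤ 2 * r * X := mul_le_mul_of_nonneg_right e4 hX0.le
        _ = 2 * (r * X) := by ring
        _ ≤ 2 * (Y / c') := by gcongr
    calc p ^ 3 * (60 * C * (p * X)) ≤ p ^ 3 * (60 * C * (2 * (Y / c'))) := by gcongr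
      _ = _ := by ring
  -- the main term
  have TM : p ^ 3 * (5 * d * Y - 15 / 2 * C * Y - 3 * Y) ≤ (5 * p ^ 3 - 3 * p ^ 4) * FR := by
    have h53 : 0 ≤ 5 * p ^ 3 - 3 * p ^ 4 := by
      have : 5 * p ^ 3 - 3 * p ^ 4 = p ^ 3 * (5 - 3 * p) := by ring
      rw [this]
      apply mul_nonneg hp3.le
      linarith
    refine le_trans ?_ (mul_le_mul_of_nonneg_left G1 h53)
    have e1 : (5 * p ^ 3 - 3 * p ^ 4) * (d * Y * (1 - 3 * (C * r)))
        = p ^ 3 * (5 * d * Y - 15 / 2 * C * Y * (2 * d * r) - 3 * (p * d) * Y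
          + 9 / 2 * p * C * Y * (2 * d * r)) := by ring
    rw [e1, hrd]
    apply mul_le_mul_of_nonneg_left _ hp3.le
    have e2 : (p * d) * Y ≤ 1 * Y := mul_le_mul_of_nonneg_right hpd hY0.le
    have e3 : 0 ≤ 9 / 2 * p * C * Y := by positivity
    linarith
  have KK : p ^ 3 * ((5 - 2 * δ) * d * Y) ≤ (5 * p ^ 3 - 3 * p ^ 4) * FR - E2 - p * E3 := by
    have e1 : p ^ 3 * ((5 - 2 * δ) * d * Y) ≤ p ^ 3 * (5 * d * Y - 15 / 2 * C * Y - 3 * Y)
        - p ^ 3 * (5 * C * (Y / c')) - 3 * (p ^ 3 * (5 * C * Y)) - p ^ 3 * (120 * C * (Y / c')) := by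
      have e2 : p ^ 3 * (5 * d * Y - 15 / 2 * C * Y - 3 * Y)
        - p ^ 3 * (5 * C * (Y / c')) - 3 * (p ^ 3 * (5 * C * Y)) - p ^ 3 * (120 * C * (Y / c'))
        = p ^ 3 * (5 * d * Y - (45 / 2 * C + 3 + 125 * C / c') * Y) := by
        field_simp
        ring
      rw [e2]
      apply mul_le_mul_of_nonneg_left _ hp3.le
      have e3 := mul_le_mul_of_nonneg_right hdC hY0.le
      linarith
    linarith
  have KF := mul_le_mul_of_nonneg_left KK (by positivity : 0 ≤ p * X)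
  calc (5 / 2 - δ) * (2 * (d:ℝ)) * p ^ 4 * X * Y = p * X * (p ^ 3 * ((5 - 2 * δ) * d * Y)) := by ring
    _ ≤ p * X * ((5 * p ^ 3 - 3 * p ^ 4) * FR - E2 - p * E3) := KF
    _ ≤ X - Y := by linarith

end DDA
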