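import Pool.Agent.DDA.DUpC

/-!
# DDA: upper bound for the susceptibility of `T_N` in terms of that of `T_4`
-/

open Finset

namespace DDA

set_option linter.unusedSectionVars false

namespace DUp

open DLo

section
variable {N d : ℕ} [NeZero N]

lemma nrm_nb_zero (hE : Even N) (hN : 4 ≤ N) (j : Fin d × Bool) : nrm (nb (0 : TV N d) j) = 1 := by
  have h := nrm_nb hE hN (0 : TV N d) j.1
  rw [nrm_zero] at h
  unfold nb
  split_ifs
  · rcases h.1 with h1 | h1
    · omega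
    · omega
  · rcases h.2 with h1 | h1
    · omega
    · omega

/-- the displacements of the pairs of discovered vertices which an edge of `XL` produces -/
noncomputable def disp (N : ℕ) {d : ℕ} [NeZero N] (j : Fin d × Bool) : Finset (TV N d) :=
  (fib N (pr4 N d (nb 0 j))).erase (nb 0 j)

lemma zero_notMem_fib (h4 : 4 ∣ N) (j : Fin d × Bool) : (0 : TV N d) ∉ fib N (pr4 N d (nb 0 j)) := by
  rw [mem_fib, pr4_nb h4, pr4_zero]
  intro h
  have h1 := nb_zero_self (d := d) j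
  rw [← h] at h1
  rcases h1 with h1 | h1
  · revert h1; simp only [Pi.zero_apply]; decide
  · revert h1; simp only [Pi.zero_apply]; decide

/-- weighted count of the displacements -/
lemma disp_weight (h4 : 4 ∣ N) (hN : 4 ≤ N) (hd : 4 ≤ d) (j : Fin d × Bool) :
    ∑ z ∈ disp N j, ((2 * (d : ℝ))⁻¹) ^ (max 1 (nrm z)) ≤ 2 * ((2 * (d : ℝ))⁻¹) ^ 3 := by
  have hEven : Even N := by
    obtain ⟨m, rfl⟩ := h4
    exact ⟨2 * m, by ring⟩
  have hdR : (4 : ℝ) ≤ d := by exact_mod_cast hd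
  have h1 := fib_bound (N := N) h4 hd j
  have h2 : nb (0 : TV N d) j ∈ fib N (pr4 N d (nb 0 j)) := mem_fib.mpr rfl
  rw [← add_sum_erase _ _ h2, nrm_nb_zero hEven hN, pow_one] at h1
  have h3 : ∑ z ∈ disp N j, ((2 * (d : ℝ))⁻¹) ^ (max 1 (nrm z))
      = ∑ z ∈ (fib N (pr4 N d (nb 0 j))).erase (nb 0 j), ((2 * (d : ℝ))⁻¹) ^ nrm z := by
    unfold disp
    apply sum_congr rfl
    intro z hz
    have h5 : z ≠ 0 := by
      rintro rfl
      exact zero_notMem_fib h4 j (mem_of_mem_erase hz)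
    have h6 : nrm z ≠ 0 := fun h => h5 (eq_zero_of_nrm h)
    rw [max_eq_right (by omega)]
  rw [h3]
  set t : ℝ := (2 * (d : ℝ))⁻¹ with ht
  have ht0 : 0 < t := by rw [ht]; positivity
  have ht8 : t ≤ 1 / 8 := by
    rw [ht, one_div]
    apply inv_anti₀ (by norm_num)
    linarith
  have h5 : 6 * t ^ 4 ≤ t ^ 3 := by
    calc 6 * t ^ 4 = 6 * t * t ^ 3 := by ring
      _ ≤ 1 * t ^ 3 := by
        apply mul_le_mul_of_nonneg_right _ (by positivity)
        linarith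
      _ = t ^ 3 := one_mul _
  linarith

open Classical in
/-- the edges which leave the explored set produce pairs of discovered vertices -/
lemma card_XL_le (h4 : 4 ∣ N) {ω : Finset (TE 4 d)} (L : Lift N d ω) :
    ((XL L).card : ℝ) ≤ ∑ j : Fin d × Bool, ∑ z ∈ disp N j,
      (((univ : Finset (TV N d)).filter (fun a => a ∈ L.D ∧ a + z ∈ L.D)).card : ℝ) := by
  have h1 : XL L ⊆ (univ : Finset (Fin d × Bool)).biUnion (fun j => (disp N j).biUnion (fun z =>
      ((univ : Finset (TV N d)).filter (fun a => a ∈ L.D ∧ a + z ∈ L.D)).image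
        (fun a => (a, j)))) := by
    rintro ⟨a, j⟩ hP
    obtain ⟨b, hb, hb1, hb2⟩ := XL_above hP
    obtain ⟨ha, _, _⟩ := mem_XL.mp hP
    simp only at hb1 hb2 ha
    rw [mem_biUnion]
    refine ⟨j, mem_univ _, ?_⟩
    rw [mem_biUnion]
    refine ⟨b - a, ?_, ?_⟩
    · unfold disp
      rw [mem_erase, mem_fib]
      constructor
      · intro h
        apply hb2
        rw [nb_add, ← h]
        abel
      · rw [pr4_sub h4, hb1, nb_add, pr4_add h4]
        abel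
    · rw [mem_image]
      refine ⟨a, ?_, rfl⟩
      rw [mem_filter]
      refine ⟨mem_univ _, ha, ?_⟩
      rw [add_sub_cancel]
      exact hb
  have h2 := (card_le_card h1).trans card_biUnion_le
  have h3 : (XL L).card ≤ ∑ j : Fin d × Bool, ∑ z ∈ disp N j,
      ((univ : Finset (TV N d)).filter (fun a => a ∈ L.D ∧ a + z ∈ L.D)).card := by
    refine h2.trans (sum_le_sum (fun j _ => ?_))
    refine card_biUnion_le.trans (sum_le_sum (fun z _ => ?_))
    exact card_image_le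
  exact_mod_cast h3

end

/-- **the expected number of unexplored edges which leave the explored set** -/
theorem EXL_bound : ∃ C : ℝ, 0 < C ∧ ∃ d0 : ℕ, ∀ d ≥ d0, ∀ (N : ℕ) [NeZero N], 4 ∣ N → 8 ≤ N →
    ∀ p : ℝ, 0 ≤ p → p ≤ 1 / d → chi N d p ≤ (2 * (d : ℝ)) ^ 4 →
    ∀ L : (∀ ω : Finset (TE 4 d), Lift N d ω), Cpl p L →
    Ex univ p (fun ω => ((XL (L ω)).card : ℝ)) ≤ C * ((2 * (d : ℝ))⁻¹) ^ 2 * chi N d p := by
  classical
  obtain ⟨C, hC, d1, H⟩ := coset_bound 4 3 2 (by norm_num)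
  refine ⟨2 * C + 1, by linarith, max d1 4, ?_⟩
  intro d hd N _ h4 hN p hp0 hpd hchi L hL
  have hd1 : d1 ≤ d := (le_max_left _ _).trans hd
  have hd4 : 4 ≤ d := (le_max_right _ _).trans hd
  have hdR : (4 : ℝ) ≤ d := by exact_mod_cast hd4
  have hp4 : p ≤ 1 / 4 := by
    refine hpd.trans ?_
    apply one_div_le_one_div_of_le (by norm_num) hdR
  have hp1 : p ≤ 1 / 2 := by linarith
  have hpp : p ≤ 1 := by linarith
  have hchi1 : 1 ≤ chi N d p := chi_pos hp0 hpp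
  set t : ℝ := (2 * (d : ℝ))⁻¹ with ht
  have ht0 : 0 < t := by rw [ht]; positivity
  have htd : (d : ℝ) * t = 1 / 2 := by rw [ht]; field_simp
  have hone : OneStep 2 ((2 * (d : ℝ)) ^ 4) (Mt N d p) :=
    Mt_oneStep (by omega) (by omega) hp0 hpp hpd hchi
  have h1 : Ex univ p (fun ω => ((XL (L ω)).card : ℝ)) ≤
      ∑ j : Fin d × Bool, ∑ z ∈ disp N j, chi N d p * (Mt N d p * Mt N d p) 0 z := by
    refine (Ex_mono hp0 hpp (fun ω _ => card_XL_le h4 (L ω))).trans ?_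
    rw [Ex_sum]
    apply sum_le_sum
    intro j _
    rw [Ex_sum]
    apply sum_le_sum
    intro z _
    exact pair_bound (by omega) hp0 hp1 hL z
  refine h1.trans ?_
  have h2 : ∀ j : Fin d × Bool, ∑ z ∈ disp N j, chi N d p * (Mt N d p * Mt N d p) 0 z
      ≤ chi N d p * ((2 * C + 1) * t ^ 3) := by
    intro j
    rw [← mul_sum]
    apply mul_le_mul_of_nonneg_left _ (by linarith)
    have h3 := H d hd1 N h4 (by omega) (Mt N d p) hone Mt_add (pr4 N d (nb 0 j)) (disp N j)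
      (fun z hz => mem_fib.mp (mem_of_mem_erase hz))
    have h0 : (0 : TV N d) ∉ disp N j := fun h => zero_notMem_fib h4 j (mem_of_mem_erase h)
    rw [if_neg h0, zero_add] at h3
    have h5 := mul_le_mul_of_nonneg_left (disp_weight (N := N) h4 (by omega) hd4 j) hC.le
    refine h3.trans ?_
    rw [← ht] at h5 ⊢
    linarith
  refine (sum_le_sum (fun j _ => h2 j)).trans (le_of_eq ?_)
  rw [sum_const, card_univ, Fintype.card_prod, Fintype.card_fin, Fintype.card_bool, nsmul_eq_mul]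
  push_cast
  calc (d : ℝ) * 2 * (chi N d p * ((2 * C + 1) * t ^ 3))
      = 2 * (d * t) * ((2 * C + 1) * t ^ 2 * chi N d p) := by ring
    _ = (2 * C + 1) * t ^ 2 * chi N d p := by rw [htd]; ring

/-- the quadratic inequality for the susceptibilities -/
theorem chi_quad : ∃ C : ℝ, 0 < C ∧ ∃ d0 : ℕ, ∀ d ≥ d0, ∀ (N : ℕ) [NeZero N], 4 ∣ N → 8 ≤ N →
    ∀ p : ℝ, 0 ≤ p → p ≤ 1 / d → chi N d p ≤ (2 * (d : ℝ)) ^ 4 →
    chi N d p ≤ chi 4 d p + C * ((2 * (d : ℝ))⁻¹) ^ 3 * chi N d p ^ 2 := by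
  obtain ⟨C, hC, d0, H⟩ := EXL_bound
  refine ⟨2 * C, by linarith, max d0 4, ?_⟩
  intro d hd N _ h4 hN p hp0 hpd hchi
  have hd0 : d0 ≤ d := (le_max_left _ _).trans hd
  have hd4 : 4 ≤ d := (le_max_right _ _).trans hd
  have hdR : (4 : ℝ) ≤ d := by exact_mod_cast hd4
  have hp4 : p ≤ 1 / 4 := by
    refine hpd.trans ?_
    apply one_div_le_one_div_of_le (by norm_num) hdR
  have hpp : p ≤ 1 := by linarith
  have hchi1 : 1 ≤ chi N d p := chi_pos hp0 hpp
  obtain ⟨L, hL⟩ := coupling (N := N) (d := d) h4 (by omega) p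
  have h1 := H d hd0 N h4 hN p hp0 hpd hchi L hL
  have h2 := chi_le_XL hp0 hpp hL
  set t : ℝ := (2 * (d : ℝ))⁻¹ with ht
  have ht0 : 0 < t := by rw [ht]; positivity
  have hpt : p ≤ 2 * t := by
    refine hpd.trans (le_of_eq ?_)
    rw [ht]
    field_simp
  have h3 : p * chi N d p * Ex univ p (fun ω => ((XL (L ω)).card : ℝ))
      ≤ 2 * t * chi N d p * (C * t ^ 2 * chi N d p) := by
    have h5 : 0 ≤ Ex univ p (fun ω => ((XL (L ω)).card : ℝ)) :=
      Ex_nonneg hp0 hpp (fun _ _ => Nat.cast_nonneg _)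
    gcongr
  calc chi N d p ≤ chi 4 d p + p * chi N d p * Ex univ p (fun ω => ((XL (L ω)).card : ℝ)) := h2
    _ ≤ chi 4 d p + 2 * t * chi N d p * (C * t ^ 2 * chi N d p) := by linarith
    _ = _ := by ring

end DUp

open DUp DLo

theorem D_up : ∃ c3 : ℝ, 0 < c3 ∧ ∃ d0 : ℕ, ∀ d ≥ d0, ∀ (N : ℕ) [NeZero N], 4 ∣ N → 8 ≤ N →
    ∀ p : ℝ, 0 ≤ p → p ≤ 1 / d → chi 4 d p ≤ c3 * (2 * (d : ℝ)) ^ 3 →
    chi N d p ≤ 2 * c3 * (2 * (d : ℝ)) ^ 3 := by
  obtain ⟨C0, hC0, d0, H0⟩ := chi_quad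
  obtain ⟨C, hCdef⟩ : ∃ C, C = C0 + 1 := ⟨_, rfl⟩
  have hC1 : 1 ≤ C := by rw [hCdef]; linarith
  have hC : 0 < C := by linarith
  refine ⟨1 / (8 * C), by positivity, max d0 4, ?_⟩
  intro d hd N _ h4 hN p hp0 hpd hchi
  have hd0 : d0 ≤ d := (le_max_left _ _).trans hd
  have hd4 : 4 ≤ d := (le_max_right _ _).trans hd
  have hdR : (4 : ℝ) ≤ d := by exact_mod_cast hd4
  have hp4 : p ≤ 1 / 4 := by
    refine hpd.trans ?_
    apply one_div_le_one_div_of_le (by norm_num) hdR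
  have hpp : p ≤ 1 := by linarith
  set Om : ℝ := 2 * (d : ℝ) with hOm
  have hOm8 : 8 ≤ Om := by rw [hOm]; linarith
  set X : ℝ := 2 * (1 / (8 * C)) * Om ^ 3 with hX
  have hX0 : 0 < X := by rw [hX]; positivity
  have hX4 : X ≤ Om ^ 4 := by
    have h1 : 2 * (1 / (8 * C)) ≤ 1 := by
      rw [mul_one_div, div_le_one (by positivity)]
      linarith
    calc X ≤ 1 * Om ^ 3 := by rw [hX]; gcongr
      _ ≤ Om * Om ^ 3 := by gcongr; linarith
      _ = Om ^ 4 := by ring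
  have hhalf : chi 4 d p ≤ X / 2 := by
    refine hchi.trans (le_of_eq ?_)
    rw [hX]
    ring
  by_contra hcon
  push Not at hcon
  have hmono : ∀ p' : ℝ, 0 ≤ p' → p' ≤ p → chi 4 d p' ≤ X / 2 := by
    intro p' h1 h2
    refine le_trans ?_ hhalf
    exact LG.bex_mono_p h1 h2 hpp 0
  have hzero : chi N d 0 ≤ X := by
    obtain ⟨L, hL⟩ := coupling (N := N) (d := d) h4 (by omega) 0
    have h1 := chi_le_XL le_rfl zero_le_one hL
    have h2 := hmono 0 le_rfl hp0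
    rw [zero_mul, zero_mul, add_zero] at h1
    linarith
  have hcont : ContinuousOn (fun p => chi N d p) (Set.Icc 0 p) :=
    (Ex_continuous _ _).continuousOn
  obtain ⟨p', hp', hp'X⟩ := intermediate_value_Icc hp0 hcont ⟨hzero, hcon.le⟩
  simp only at hp'X
  have h1 := H0 d hd0 N h4 hN p' hp'.1 (hp'.2.trans hpd) (by rw [hp'X]; exact hX4)
  have h2 := hmono p' hp'.1 hp'.2
  rw [hp'X] at h1
  have h3 : C0 * (Om⁻¹) ^ 3 * X ^ 2 ≤ X / 4 := by
    have h5 : (Om⁻¹) ^ 3 * Om ^ 3 = 1 := by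
      rw [← mul_pow, inv_mul_cancel₀ (by linarith), one_pow]
    calc C0 * (Om⁻¹) ^ 3 * X ^ 2 ≤ C * (Om⁻¹) ^ 3 * X ^ 2 := by
          have : C0 ≤ C := by rw [hCdef]; linarith
          gcongr
      _ = C * (2 * (1 / (8 * C))) * ((Om⁻¹) ^ 3 * Om ^ 3) * X := by rw [hX]; ring
      _ = X / 4 := by
          rw [h5]
          field_simp
          ring
  linarith

end DDA
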