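import Pool.Agent.DDA.Torus

/-!
# DDA: further definitions shared by the modules
-/

open Finset

namespace DDA

set_option linter.unusedSectionVars false

section general

variable {V E : Type*} [DecidableEq V] [DecidableEq E]

/-- `E[1 - exp(-h |C_S(y)|)]` -/
noncomputable def LG.MM (G : LG V E) (F : Finset E) (p : ℝ) (S : Finset V) (h : ℝ) (y : V) : ℝ :=
  Ex F p (fun ω => 1 - Real.exp (-h * ((G.cl S ω y).card : ℝ)))

open Classical in
/-- truncated two-point function `E[1{y ∈ C_S(x)} exp(-h |C_S(x)|)]` -/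
noncomputable def LG.tauh (G : LG V E) (F : Finset E) (p : ℝ) (S : Finset V) (h : ℝ) (x y : V) : ℝ :=
  Ex F p (fun ω => if y ∈ G.cl S ω x then Real.exp (-h * ((G.cl S ω x).card : ℝ)) else 0)

end general

variable {N d : ℕ}

/-- `ℓ¹` norm on the torus -/
def nrm (x : TV N d) : ℕ := ∑ i, (x i).valMinAbs.natAbs

/-- kernel of simple random walk on the torus -/
noncomputable def DD (N d : ℕ) : ℕ → TV N d → ℝ
  | 0 => fun x => if x = 0 then 1 else 0
  | (i + 1) => fun x => (2 * (d : ℝ))⁻¹ * nbS (DD N d i) x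

/-- `f` is a nonnegative matrix with `f(x,y) ≤ 1{x=y} + q/(2d) ∑_{x' ~ x} f(x',y)` and whose row and
column sums are at most `F` -/
structure OneStep [NeZero N] (q F : ℝ) (f : Matrix (TV N d) (TV N d) ℝ) : Prop where
  nonneg : ∀ x y, 0 ≤ f x y
  step : ∀ x y, f x y ≤ (if x = y then 1 else 0) + q / (2 * d) * nbS (fun x' => f x' y) x
  row : ∀ x, ∑ y, f x y ≤ F
  col : ∀ y, ∑ x, f x y ≤ F

/-- box with corner `a` and sides `n i` -/
def box [NeZero N] (a : TV N d) (n : Fin d → ℕ) : Finset (TV N d) :=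
  univ.filter (fun x => ∀ i, (x i - a i).val < n i)

/-- the box `[-n,n]^d` in the torus -/
def bx (N d n : ℕ) [NeZero N] : Finset (TV N d) :=
  univ.filter (fun x => ∀ i, (x i).valMinAbs.natAbs ≤ n)

/-- probability in the torus that `0` is connected to the boundary of `[-n,n]^d` inside that box -/
noncomputable def thT (N d n : ℕ) [NeZero N] (p : ℝ) : ℝ :=
  Pr (univ : Finset (TE N d)) p
    (fun ω => ∃ y ∈ (T N d).cl (bx N d n) ω 0, ∃ i, (y i).valMinAbs.natAbs = n)

end DDA
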