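import Pool.Agent.DDA.Defs2

/-!
# DDA: definitions for the sprinkling (Ajtai–Komlós–Szemerédi) argument and the renormalization
-/

open Finset

namespace DDA

variable {N d : ℕ} [NeZero N]

/-- the vertices whose local cluster (inside `Sy y`) has at least `X0` vertices -/
noncomputable def bigU (Sy : TV N d → Finset (TV N d)) (X0 : ℕ) (ω : Finset (TE N d)) :
    Finset (TV N d) :=
  univ.filter (fun y => X0 ≤ ((T N d).cl (Sy y) ω y).card)

open Classical in
/-- the vertices of `B` within distance `ℓ` of `bigU ∩ K` -/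
noncomputable def nbd (Sy : TV N d → Finset (TV N d)) (X0 ℓ : ℕ) (B : Finset (TV N d))
    (ω : Finset (TE N d)) (K : Finset (TV N d)) : Finset (TV N d) :=
  B.filter (fun v => ∃ y ∈ bigU Sy X0 ω, y ∈ K ∧ nrm (y - v) ≤ ℓ)

/-- `K` is a union of open clusters of the region `R` -/
def ClosedIn (R : Finset (TV N d)) (ω : Finset (TE N d)) (K : Finset (TV N d)) : Prop :=
  K ⊆ R ∧ ∀ x ∈ K, ∀ y ∈ R, (T N d).Adj ω x y → y ∈ K

/-- The region `R` with core `B` is good for the configuration `ω` and the sprinkling `η`: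
every union `K` of open clusters of `ω ∪ η` in `R` either is seen from few vertices of `B` and its
complement from most of them, or the other way round. -/
def Good (Sy : TV N d → Finset (TV N d)) (X0 ℓ : ℕ) (R B : Finset (TV N d))
    (ω η : Finset (TE N d)) : Prop :=
  ∀ K, ClosedIn R (ω ∪ η) K →
    (16 * (nbd Sy X0 ℓ B ω K).card ≤ B.card ∧ 15 * B.card ≤ 16 * (nbd Sy X0 ℓ B ω (R \ K)).card) ∨
    (16 * (nbd Sy X0 ℓ B ω (R \ K)).card ≤ B.card ∧ 15 * B.card ≤ 16 * (nbd Sy X0 ℓ B ω K).card)

/-- the box `[-n,n]^d` around `y` -/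
def sbx (N d n : ℕ) [NeZero N] (y : TV N d) : Finset (TV N d) := (bx N d n).image (· + y)

end DDA
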