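import Pool.Agent.DDA.Defs2

/-!
# DDA: the Duminil-Copin–Tassion argument with a ghost field
-/

open Finset

namespace DDA

set_option linter.unusedSectionVars false

namespace Gho

section aux

variable {E W : Type*} [DecidableEq E] [DecidableEq W]

lemma Ex_comm (F : Finset E) (S : Finset W) (p g : ℝ) (f : Finset E → Finset W → ℝ) :
    Ex F p (fun ω => Ex S g (fun γ => f ω γ)) = Ex S g (fun γ => Ex F p (fun ω => f ω γ)) := by
  unfold Ex
  simp only [mul_sum]
  rw [sum_comm]
  apply sum_congr rfl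
  intro γ _
  apply sum_congr rfl
  intro ω _
  ring

lemma Ex_disjoint {S C : Finset W} (hC : C ⊆ S) (g : ℝ) :
    Ex S g (fun γ => if Disjoint C γ then (1:ℝ) else 0) = (1 - g) ^ C.card := by
  rw [Ex_restrict (A := C)]
  · rw [inter_eq_right.mpr hC]
    unfold Ex
    rw [sum_eq_single ∅]
    · simp
    · intro b hb hb'
      have h1 : ¬ Disjoint C b := by
        intro h
        apply hb'
        rw [mem_powerset] at hb
        exact disjoint_self_iff_empty b |>.mp (disjoint_of_subset_left hb h)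
      simp [h1]
    · intro h
      exact absurd (empty_mem_powerset C) h
  · intro γ _
    have : Disjoint C γ ↔ Disjoint C (γ ∩ C) := by
      rw [disjoint_left, disjoint_left]
      constructor
      · intro h a ha hb
        exact h ha (mem_inter.mp hb).1
      · intro h a ha hb
        exact h ha (mem_inter.mpr ⟨hb, ha⟩)
    simp only [this]

/-- `1 - exp(-h n)` -/
noncomputable def qq (h : ℝ) (n : ℕ) : ℝ := 1 - Real.exp (-h * (n : ℝ))

lemma qq_zero (h : ℝ) : qq h 0 = 0 := by simp [qq]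

lemma qq_nonneg {h : ℝ} (hh : 0 ≤ h) (n : ℕ) : 0 ≤ qq h n := by
  unfold qq
  have : Real.exp (-h * (n : ℝ)) ≤ 1 := by
    rw [Real.exp_le_one_iff]
    have : 0 ≤ h * (n : ℝ) := by positivity
    linarith
  linarith

lemma qq_le_one (h : ℝ) (n : ℕ) : qq h n ≤ 1 := by
  unfold qq
  have := Real.exp_pos (-h * (n : ℝ))
  linarith

lemma qq_mono {h h' : ℝ} (hh : 0 ≤ h) (hhh : h ≤ h') {m n : ℕ} (hmn : m ≤ n) :
    qq h m ≤ qq h' n := by
  unfold qq
  have h1 : (m : ℝ) ≤ n := by exact_mod_cast hmn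
  have : Real.exp (-h' * (n : ℝ)) ≤ Real.exp (-h * (m : ℝ)) := by
    apply Real.exp_le_exp.mpr
    have h2 : (0:ℝ) ≤ m := by positivity
    nlinarith [mul_le_mul hhh h1 h2 (hh.trans hhh)]
  linarith

lemma qq_add {h : ℝ} (hh : 0 ≤ h) (m n : ℕ) : qq h (m + n) ≤ qq h m + qq h n := by
  have h1 := qq_nonneg hh m
  have h2 := qq_nonneg hh n
  unfold qq at *
  have : Real.exp (-h * ((m + n : ℕ) : ℝ)) = Real.exp (-h * (m : ℝ)) * Real.exp (-h * (n : ℝ)) := by
    rw [← Real.exp_add]
    congr 1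
    push_cast
    ring
  rw [this]
  nlinarith

lemma qq_biUnion {ι : Type*} {h : ℝ} (hh : 0 ≤ h) (I : Finset ι) (B : Finset W)
    (D : ι → Finset W) {A : Finset W} (hA : A ⊆ B ∪ I.biUnion D) :
    qq h A.card ≤ qq h B.card + ∑ i ∈ I, qq h (D i).card := by
  classical
  induction I using Finset.induction_on generalizing A with
  | empty =>
    simp only [biUnion_empty, union_empty] at hA
    simp only [sum_empty, add_zero]
    exact qq_mono hh le_rfl (card_le_card hA)
  | insert i I hi ih =>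
    rw [sum_insert hi]
    have h1 : qq h A.card ≤ qq h (A \ D i).card + qq h (D i).card := by
      refine le_trans ?_ (qq_add hh _ _)
      apply qq_mono hh le_rfl
      calc A.card ≤ ((A \ D i) ∪ D i).card := by
            apply card_le_card
            intro a ha
            by_cases h : a ∈ D i
            · exact mem_union_right _ h
            · exact mem_union_left _ (mem_sdiff.mpr ⟨ha, h⟩)
        _ ≤ _ := card_union_le _ _
    have h2 := ih (A := A \ D i) (by
      intro a ha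
      obtain ⟨h3, h4⟩ := mem_sdiff.mp ha
      have h5 := hA h3
      rw [biUnion_insert, mem_union, mem_union] at h5
      rcases h5 with h5 | h5 | h5
      · exact mem_union_left _ h5
      · exact absurd h5 h4
      · exact mem_union_right _ h5)
    linarith

end aux

end Gho

variable {V E : Type*} [DecidableEq V] [DecidableEq E]

namespace Gho

open LG

variable {G : LG V E} {F : Finset E} {p h m : ℝ} {S S' : Finset V} {y : V}

lemma MM_eq (G : LG V E) (F : Finset E) (p : ℝ) (S : Finset V) (h : ℝ) (y : V) :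
    G.MM F p S h y = Ex F p (fun ω => qq h (G.cl S ω y).card) := rfl

lemma MM_mono (hp0 : 0 ≤ p) (hp1 : p ≤ 1) (hh : 0 ≤ h) (hS : S' ⊆ S) (z : V) :
    G.MM F p S' h z ≤ G.MM F p S h z := by
  rw [MM_eq, MM_eq]
  exact Ex_mono hp0 hp1 fun ω _ => qq_mono hh le_rfl
    (card_le_card (cl_mono hS (Subset.refl _)))

/-- decomposition of a cluster -/
lemma cl_cover (hy : y ∈ S') {ω : Finset E} {v : V} (hv : v ∈ G.cl S ω y) :
    v ∈ G.cl S' ω y ∨ ∃ z ∈ S \ S', (∃ e ∈ ω, ∃ x ∈ G.cl S' ω y, G.J e x z) ∧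
      v ∈ G.cl (S \ G.cl S' ω y) ω z := by
  obtain ⟨k, hk⟩ := mem_cl_iff.mp hv
  clear hv
  induction k generalizing v with
  | zero =>
    obtain ⟨_, rfl⟩ := mem_ball_zero.mp hk
    exact Or.inl (self_mem_cl hy)
  | succ k ih =>
    rcases mem_ball_succ.mp hk with h' | ⟨h1, u, hu, ha⟩
    · exact ih h'
    · by_cases hvC : v ∈ G.cl S' ω y
      · exact Or.inl hvC
      · right
        rcases ih hu with hu' | ⟨z, hz, he, hu'⟩
        · have hvS' : v ∉ S' := fun h => hvC (mem_cl_step hu' ha h)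
          refine ⟨v, mem_sdiff.mpr ⟨h1, hvS'⟩, ?_, self_mem_cl (mem_sdiff.mpr ⟨h1, hvC⟩)⟩
          obtain ⟨e, he, hj⟩ := ha
          exact ⟨e, he, u, hu', hj⟩
        · exact ⟨z, hz, he, mem_cl_step hu' ha (mem_sdiff.mpr ⟨h1, hvC⟩)⟩

open Classical in
/-- number of the edges of `F` from `a` to `S \ S'` -/
noncomputable def NB (G : LG V E) (F : Finset E) (S S' a : Finset V) : ℝ :=
  ∑ e ∈ F, ∑ z ∈ S \ S', if ∃ x ∈ a, G.J e x z then (1:ℝ) else 0

open Classical in
/-- the exploration of `cl S' ω y` leaves these edges untouched -/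
noncomputable def RR (G : LG V E) (F : Finset E) (S' a : Finset V) : Finset E :=
  F.filter (fun e => ¬ (G.In S' e ∧ ¬ G.In (S' \ a) e))

lemma cl_markov {ω ω' : Finset E}
    (h : ω \ RR G F S' (G.cl S' ω y) = ω' \ RR G F S' (G.cl S' ω y)) :
    G.cl S' ω' y = G.cl S' ω y := by
  classical
  apply cl_local
  intro e h1 h2
  have hR : e ∉ RR G F S' (G.cl S' ω y) := by
    unfold RR
    rw [mem_filter]
    rintro ⟨_, h3⟩
    exact h3 ⟨h1, h2⟩
  constructor
  · intro he
    have : e ∈ ω \ RR G F S' (G.cl S' ω y) := mem_sdiff.mpr ⟨he, hR⟩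
    rw [h] at this
    exact (mem_sdiff.mp this).1
  · intro he
    have : e ∈ ω' \ RR G F S' (G.cl S' ω y) := mem_sdiff.mpr ⟨he, hR⟩
    rw [← h] at this
    exact (mem_sdiff.mp this).1

/-- independence of an edge at `x ∈ a` and of a cluster in `S \ a` -/
lemma Ex_edge_cl {e : E} (he : e ∈ F) {a : Finset V} {x z : V} (hx : x ∈ a) (hj : G.J e x z) :
    Ex F p (fun ω => (if e ∈ ω then (1:ℝ) else 0) * qq h (G.cl (S \ a) ω z).card)
      = p * G.MM F p (S \ a) h z := by
  have hd : Disjoint ({e} : Finset E) (G.ins (S \ a) F) := by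
    rw [disjoint_singleton_left]
    intro h1
    obtain ⟨_, h2, h3⟩ := mem_ins.mp h1
    rcases hj with ⟨h4, _⟩ | ⟨_, h4⟩
    · exact (mem_sdiff.mp h2).2 (h4 ▸ hx)
    · exact (mem_sdiff.mp h3).2 (h4 ▸ hx)
  rw [Ex_indep (f := fun ω => if e ∈ ω then (1:ℝ) else 0)
    (g := fun ω => qq h (G.cl (S \ a) ω z).card) hd]
  · congr 1
    rw [Ex_edge he]
    simp [Ex_const]
  · intro ω _
    by_cases h1 : e ∈ ω <;> simp [h1]
  · intro ω hω
    rw [cl_ins hω]

/-- removing a part of the graph -/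
theorem MM_le_add (hp0 : 0 ≤ p) (hp1 : p ≤ 1) (hh : 0 ≤ h)
    (hm : ∀ z ∈ S, G.MM F p S h z ≤ m) (_hS : S' ⊆ S) (hy : y ∈ S') :
    G.MM F p S h y ≤ G.MM F p S' h y +
      p * m * Ex F p (fun ω => NB G F S S' (G.cl S' ω y)) := by
  classical
  set φ : Finset V → Finset E → ℝ := fun a ω => ∑ e ∈ F, ∑ z ∈ S \ S',
    if e ∈ ω ∧ ∃ x ∈ a ∩ S', G.J e x z then qq h (G.cl (S \ a) ω z).card else 0 with hφdef
  have h1 : G.MM F p S h y ≤ Ex F p (fun ω => qq h (G.cl S' ω y).card + φ (G.cl S' ω y) ω) := by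
    rw [MM_eq]
    apply Ex_mono hp0 hp1
    intro ω hω
    set C := G.cl S' ω y with hC
    have hCS' : C ⊆ S' := cl_subset
    have h2 := qq_biUnion hh (S \ S') C (fun z => if (∃ e ∈ ω, ∃ x ∈ C, G.J e x z) then
      G.cl (S \ C) ω z else ∅) (A := G.cl S ω y) (by
        intro v hv
        rcases cl_cover hy hv with h3 | ⟨z, hz, h3, h4⟩
        · exact mem_union_left _ h3
        · refine mem_union_right _ (mem_biUnion.mpr ⟨z, hz, ?_⟩)
          rw [if_pos h3]
          exact h4)
    refine h2.trans ?_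
    gcongr
    rw [hφdef]
    simp only
    rw [sum_comm]
    apply sum_le_sum
    intro z _
    by_cases h3 : ∃ e ∈ ω, ∃ x ∈ C, G.J e x z
    · rw [if_pos h3]
      obtain ⟨e, he, x, hx, hj⟩ := h3
      have h4 : e ∈ ω ∧ ∃ x ∈ C ∩ S', G.J e x z := ⟨he, x, mem_inter.mpr ⟨hx, hCS' hx⟩, hj⟩
      calc qq h (G.cl (S \ C) ω z).card = if e ∈ ω ∧ ∃ x ∈ C ∩ S', G.J e x z then
            qq h (G.cl (S \ C) ω z).card else 0 := by rw [if_pos h4]
        _ ≤ _ := single_le_sum (f := fun e => if e ∈ ω ∧ ∃ x ∈ C ∩ S', G.J e x z then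
            qq h (G.cl (S \ C) ω z).card else 0)
            (fun e _ => by split_ifs <;> [exact qq_nonneg hh _; exact le_rfl]) (hω he)
    · rw [if_neg h3, card_empty, qq_zero]
      exact sum_nonneg fun e _ => by split_ifs <;> [exact qq_nonneg hh _; exact le_rfl]
  rw [Ex_add, ← MM_eq] at h1
  refine h1.trans ?_
  gcongr
  have hmk := Ex_markov (F := F) (p := p) (fun ω => G.cl S' ω y) (RR G F S') φ
    (fun _ _ _ _ h => cl_markov h) (by
      intro a ω hω
      rw [hφdef]
      simp only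
      apply sum_congr rfl
      intro e he
      apply sum_congr rfl
      intro z hz
      have hzS' : z ∉ S' := (mem_sdiff.mp hz).2
      by_cases h3 : ∃ x ∈ a ∩ S', G.J e x z
      · obtain ⟨x, hx, hj⟩ := id h3
        have heR : e ∈ RR G F S' a := by
          unfold RR
          rw [mem_filter]
          refine ⟨he, ?_⟩
          rintro ⟨⟨h4, h5⟩, _⟩
          rcases hj with ⟨_, h6⟩ | ⟨h6, _⟩
          · exact hzS' (h6 ▸ h5)
          · exact hzS' (h6 ▸ h4)
        have h6 : (e ∈ ω ∩ RR G F S' a) ↔ e ∈ ω := by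
          rw [mem_inter]
          exact ⟨fun h => h.1, fun h => ⟨h, heR⟩⟩
        have h7 : G.cl (S \ a) (ω ∩ RR G F S' a) z = G.cl (S \ a) ω z := by
          apply cl_congr
          rintro e' ⟨h8, h9⟩
          rw [mem_inter]
          constructor
          · exact fun h => h.1
          · intro h10
            refine ⟨h10, ?_⟩
            unfold RR
            rw [mem_filter]
            refine ⟨hω h10, ?_⟩
            rintro ⟨⟨h11, h12⟩, h13⟩
            exact h13 ⟨mem_sdiff.mpr ⟨h11, (mem_sdiff.mp h8).2⟩,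
              mem_sdiff.mpr ⟨h12, (mem_sdiff.mp h9).2⟩⟩
        rw [h7]
        simp only [h6]
      · rw [if_neg (fun hc => h3 hc.2), if_neg (fun hc => h3 hc.2)])
  rw [hmk, ← Ex_mul_left]
  apply Ex_mono hp0 hp1
  intro ω _
  set a := G.cl S' ω y with ha
  have haS' : a ⊆ S' := cl_subset
  rw [hφdef]
  simp only
  rw [Ex_sum]
  unfold NB
  rw [mul_sum]
  apply sum_le_sum
  intro e he
  rw [Ex_sum, mul_sum]
  apply sum_le_sum
  intro z hz
  by_cases h3 : ∃ x ∈ a, G.J e x z
  · obtain ⟨x, hx, hj⟩ := id h3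
    have h4 : ∃ x ∈ a ∩ S', G.J e x z := ⟨x, mem_inter.mpr ⟨hx, haS' hx⟩, hj⟩
    rw [if_pos h3, mul_one]
    have h5 : Ex F p (fun ω => if e ∈ ω ∧ ∃ x ∈ a ∩ S', G.J e x z then
        qq h (G.cl (S \ a) ω z).card else 0)
        = Ex F p (fun ω => (if e ∈ ω then (1:ℝ) else 0) * qq h (G.cl (S \ a) ω z).card) := by
      apply Ex_congr
      intro ω _
      by_cases h6 : e ∈ ω
      · rw [if_pos ⟨h6, h4⟩, if_pos h6, one_mul]
      · rw [if_neg (fun hc => h6 hc.1), if_neg h6, zero_mul]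
    rw [h5, Ex_edge_cl he hx hj]
    apply mul_le_mul_of_nonneg_left _ hp0
    exact (MM_mono hp0 hp1 hh sdiff_subset z).trans (hm z (mem_sdiff.mp hz).1)
  · have h4 : ¬ ∃ x ∈ a ∩ S', G.J e x z := by
      rintro ⟨x, hx, hj⟩
      exact h3 ⟨x, (mem_inter.mp hx).1, hj⟩
    simp only [h4, and_false, if_false, h3, mul_zero]
    rw [Ex_const]

/-- the vertices of `S` which are not connected to the ghost set `γ` -/
noncomputable def SSt (G : LG V E) (S γ : Finset V) (ω : Finset E) : Finset V :=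
  S.filter (fun x => Disjoint (G.cl S ω x) γ)

lemma mem_SSt {γ : Finset V} {ω : Finset E} {x : V} :
    x ∈ SSt G S γ ω ↔ x ∈ S ∧ Disjoint (G.cl S ω x) γ := by
  unfold SSt
  rw [mem_filter]

lemma SSt_subset {γ : Finset V} {ω : Finset E} : SSt G S γ ω ⊆ S := filter_subset _ _

lemma SSt_adj {γ : Finset V} {ω : Finset E} {x z : V} (hx : x ∈ SSt G S γ ω) (hz : z ∈ S)
    (ha : G.Adj ω x z) : z ∈ SSt G S γ ω := by
  rw [mem_SSt] at hx ⊢
  refine ⟨hz, ?_⟩
  have h1 : z ∈ G.cl S ω x := mem_cl_step (self_mem_cl hx.1) ha hz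
  rw [cl_eq_of_mem h1]
  exact hx.2

lemma cl_SSt {γ : Finset V} {ω : Finset E} {x : V} (hx : x ∈ SSt G S γ ω) :
    G.cl (SSt G S γ ω) ω x = G.cl S ω x := by
  have h1 : S \ (S \ SSt G S γ ω) = SSt G S γ ω := by
    exact Finset.sdiff_sdiff_eq_self SSt_subset
  have h2 := cl_off (G := G) (S := S) (A := S \ SSt G S γ ω) (ω := ω) (x := x) (by
    intro a ha z hz hadj
    rw [mem_sdiff] at ha ⊢
    refine ⟨hz, fun h => ha.2 ?_⟩
    exact SSt_adj h ha.1 (Adj_comm.mp hadj)) (fun h => (mem_sdiff.mp h).2 hx)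
  rwa [h1] at h2

lemma SSt_markov {γ : Finset V} {ω ω' : Finset E}
    (h : ω \ G.ins (SSt G S γ ω) F = ω' \ G.ins (SSt G S γ ω) F) :
    SSt G S γ ω' = SSt G S γ ω := by
  have hag : ∀ e, ¬ G.In (SSt G S γ ω) e → (e ∈ ω ↔ e ∈ ω') := by
    intro e he
    have hR : e ∉ G.ins (SSt G S γ ω) F := by
      rw [mem_ins]
      rintro ⟨_, h1, h2⟩
      exact he ⟨h1, h2⟩
    constructor
    · intro h1
      have : e ∈ ω \ G.ins (SSt G S γ ω) F := mem_sdiff.mpr ⟨h1, hR⟩
      rw [h] at this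
      exact (mem_sdiff.mp this).1
    · intro h1
      have : e ∈ ω' \ G.ins (SSt G S γ ω) F := mem_sdiff.mpr ⟨h1, hR⟩
      rw [← h] at this
      exact (mem_sdiff.mp this).1
  have hcl : ∀ x ∈ S, x ∉ SSt G S γ ω → G.cl S ω' x = G.cl S ω x := by
    intro x hx hxS
    apply cl_local
    intro e h1 h2
    apply hag
    rintro ⟨h3, h4⟩
    apply h2
    have key : ∀ v, v ∈ SSt G S γ ω → v ∉ G.cl S ω x := by
      intro v hv hv'
      apply hxS
      rw [mem_SSt] at hv ⊢
      refine ⟨hx, ?_⟩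
      rw [← cl_eq_of_mem hv']
      exact hv.2
    exact ⟨mem_sdiff.mpr ⟨h1.1, key _ h3⟩, mem_sdiff.mpr ⟨h1.2, key _ h4⟩⟩
  ext x
  by_cases hxS : x ∈ S
  · constructor
    · intro hx
      by_contra hcon
      rw [mem_SSt, hcl x hxS hcon] at hx
      exact hcon (mem_SSt.mpr hx)
    · intro hx
      rw [mem_SSt]
      refine ⟨hxS, ?_⟩
      rw [disjoint_left]
      intro g hg hgγ
      have hgS : g ∈ S := cl_subset hg
      have hg1 : g ∉ SSt G S γ ω := by
        intro h1
        exact disjoint_left.mp (mem_SSt.mp h1).2 (self_mem_cl hgS) hgγ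
      have h2 : x ∈ G.cl S ω' g := mem_cl_symm hg
      rw [hcl g hgS hg1] at h2
      have h3 : g ∈ G.cl S ω x := mem_cl_symm h2
      exact disjoint_left.mp (mem_SSt.mp hx).2 h3 hgγ
  · constructor
    · intro hx
      exact absurd (SSt_subset hx) hxS
    · intro hx
      exact absurd (SSt_subset hx) hxS

/-- the indicator that `y` is connected to the ghost set -/
noncomputable def gi (G : LG V E) (S γ : Finset V) (y : V) (ω : Finset E) : ℝ :=
  if Disjoint (G.cl S ω y) γ then 0 else 1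

lemma gi_mono {γ : Finset V} {ω ω' : Finset E} (hω : ω ⊆ ω') : gi G S γ y ω ≤ gi G S γ y ω' := by
  unfold gi
  by_cases h1 : Disjoint (G.cl S ω' y) γ
  · have h2 : Disjoint (G.cl S ω y) γ :=
      disjoint_of_subset_left (cl_mono (Subset.refl _) hω) h1
    simp [h1, h2]
  · rw [if_neg h1]
    split_ifs <;> norm_num

lemma Ex_gi (ω : Finset E) :
    Ex S (1 - Real.exp (-h)) (fun γ => gi G S γ y ω) = qq h (G.cl S ω y).card := by
  have h1 : (fun γ => gi G S γ y ω)
      = (fun γ => 1 - (if Disjoint (G.cl S ω y) γ then (1:ℝ) else 0)) := by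
    funext γ
    unfold gi
    split_ifs <;> norm_num
  rw [h1, Ex_sub, Ex_one, Ex_disjoint cl_subset]
  unfold qq
  congr 1
  rw [sub_sub_cancel, ← Real.exp_nat_mul]
  congr 1
  ring

/-- pivotal edges -/
lemma pivotal {γ : Finset V} {ω : Finset E} (hyS : y ∈ SSt G S γ ω) (e : E) :
    (∑ z ∈ S \ SSt G S γ ω, open Classical in
      if ∃ x ∈ G.cl (SSt G S γ ω) ω y, G.J e x z then (1:ℝ) else 0)
      ≤ gi G S γ y (insert e ω) - gi G S γ y (ω.erase e) := by
  classical
  have hmono : 0 ≤ gi G S γ y (insert e ω) - gi G S γ y (ω.erase e) := by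
    have := gi_mono (G := G) (S := S) (y := y) (γ := γ) (ω := ω.erase e) (ω' := insert e ω)
      ((erase_subset _ _).trans (subset_insert _ _))
    linarith
  by_cases hex : ∃ z ∈ S \ SSt G S γ ω, ∃ x ∈ G.cl (SSt G S γ ω) ω y, G.J e x z
  · obtain ⟨z, hz, x, hx, hj⟩ := hex
    have hxSS : x ∈ SSt G S γ ω := cl_subset hx
    obtain ⟨hzS, hzSS⟩ := mem_sdiff.mp hz
    rw [sum_eq_single z]
    · rw [if_pos ⟨x, hx, hj⟩]
      have e1 : gi G S γ y (ω.erase e) = 0 := by
        unfold gi
        rw [if_pos]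
        exact disjoint_of_subset_left (cl_mono (Subset.refl _) (erase_subset _ _))
          (mem_SSt.mp hyS).2
      have e2 : gi G S γ y (insert e ω) = 1 := by
        unfold gi
        rw [if_neg]
        intro h1
        apply hzSS
        rw [mem_SSt]
        refine ⟨hzS, disjoint_of_subset_left ?_ h1⟩
        intro v hv
        have h2 : x ∈ G.cl S (insert e ω) y :=
          cl_mono SSt_subset (subset_insert _ _) hx
        have h3 : z ∈ G.cl S (insert e ω) y :=
          mem_cl_step h2 ⟨e, mem_insert_self _ _, hj⟩ hzS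
        exact mem_cl_trans h3 (cl_mono (Subset.refl _) (subset_insert _ _) hv)
      rw [e1, e2]
      norm_num
    · intro z' hz' hne
      rw [if_neg]
      rintro ⟨x', hx', hj'⟩
      have hx'SS : x' ∈ SSt G S γ ω := cl_subset hx'
      obtain ⟨hz'S, hz'SS⟩ := mem_sdiff.mp hz'
      rcases hj with ⟨a1, a2⟩ | ⟨a1, a2⟩ <;> rcases hj' with ⟨b1, b2⟩ | ⟨b1, b2⟩
      · exact hne (b2.symm.trans a2)
      · exact hz'SS ((b1.symm.trans a1) ▸ hxSS)
      · exact hz'SS ((b2.symm.trans a2) ▸ hxSS)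
      · exact hne (b1.symm.trans a1)
    · exact fun h => absurd hz h
  · push Not at hex
    rw [sum_eq_zero]
    · exact hmono
    · intro z hz
      rw [if_neg]
      rintro ⟨x, hx, hj⟩
      exact hex z hz x hx hj

end Gho

open LG Gho

/-- the differential inequality -/
theorem ghost_deriv (G : LG V E) (F : Finset E) (S : Finset V) {y : V} (hy : y ∈ S) {p h m : ℝ}
    (hp0 : 0 < p) (hp1 : p < 1) (hh : 0 < h) (hm0 : 0 < m) (hm : ∀ z ∈ S, G.MM F p S h z ≤ m) :
    ((2 - G.MM F p S h y) * G.MM F p S h y - G.MM F p S (2 * h) y) / (p * m)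
      ≤ deriv (fun p => G.MM F p S h y) p := by
  classical
  set g : ℝ := 1 - Real.exp (-h) with hg
  have hg0 : 0 ≤ g := by
    have : Real.exp (-h) ≤ 1 := by
      rw [Real.exp_le_one_iff]
      linarith
    linarith
  have hg1 : g ≤ 1 := by
    have := Real.exp_pos (-h)
    linarith
  set M := G.MM F p S h y with hM
  -- the derivative
  have hder : deriv (fun p => G.MM F p S h y) p
      = Ex S g (fun γ => Ex F p (fun ω => ∑ e ∈ F,
        (gi G S γ y (insert e ω) - gi G S γ y (ω.erase e)))) := by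
    have h1 := (Ex_hasDerivAt F (fun ω => qq h (G.cl S ω y).card) p).deriv
    have h2 : (fun p => G.MM F p S h y) = (fun p => Ex F p (fun ω => qq h (G.cl S ω y).card)) := rfl
    rw [h2, h1, ← Ex_sum, ← Ex_comm]
    apply Ex_congr
    intro ω _
    rw [Ex_sum]
    apply sum_congr rfl
    intro e _
    rw [Ex_sub, Ex_gi, Ex_gi]
  rw [hder]
  -- for every ghost set
  have key : ∀ γ ⊆ S, (1 / (p * m)) * Ex F p (fun ω => (if Disjoint (G.cl S ω y) γ then (1:ℝ) else 0)
      * (M - qq h (G.cl S ω y).card)) ≤ Ex F p (fun ω => ∑ e ∈ F,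
        (gi G S γ y (insert e ω) - gi G S γ y (ω.erase e))) := by
    intro γ _
    set X : Finset E → Finset V := SSt G S γ with hX
    set φ : Finset V → Finset E → ℝ := fun a ω => if y ∈ a then NB G F S a (G.cl a ω y) else 0
      with hφ
    set ψ : Finset V → Finset E → ℝ := fun a ω => if y ∈ a then M - qq h (G.cl a ω y).card else 0
      with hψ
    have hXm : ∀ ω ⊆ F, ∀ ω' ⊆ F, ω \ G.ins (X ω) F = ω' \ G.ins (X ω) F → X ω' = X ω :=
      fun ω _ ω' _ h => SSt_markov h
    have m1 := Ex_markov (F := F) (p := p) X (fun a => G.ins a F) φ hXm (by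
      intro a ω hω
      rw [hφ]
      simp only
      rw [cl_ins hω])
    have m2 := Ex_markov (F := F) (p := p) X (fun a => G.ins a F) ψ hXm (by
      intro a ω hω
      rw [hψ]
      simp only
      rw [cl_ins hω])
    -- lower bound by the pivotal edges
    have b1 : Ex F p (fun ω => φ (X ω) ω) ≤ Ex F p (fun ω => ∑ e ∈ F,
        (gi G S γ y (insert e ω) - gi G S γ y (ω.erase e))) := by
      apply Ex_mono hp0.le hp1.le
      intro ω _
      rw [hφ]
      simp only
      by_cases hyX : y ∈ X ω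
      · rw [if_pos hyX]
        unfold NB
        apply sum_le_sum
        intro e _
        exact pivotal hyX e
      · rw [if_neg hyX]
        apply sum_nonneg
        intro e _
        have := gi_mono (G := G) (S := S) (y := y) (γ := γ) (ω := ω.erase e) (ω' := insert e ω)
          ((erase_subset _ _).trans (subset_insert _ _))
        linarith
    have b2 : (1 / (p * m)) * Ex F p (fun ω => ψ (X ω) ω) ≤ Ex F p (fun ω => φ (X ω) ω) := by
      rw [m1, m2, ← Ex_mul_left]
      apply Ex_mono hp0.le hp1.le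
      intro ω _
      by_cases hyX : y ∈ X ω
      · have e1 : Ex F p (fun ω' => ψ (X ω) ω') = M - G.MM F p (X ω) h y := by
          rw [hψ]
          simp only [if_pos hyX]
          rw [Ex_sub, Ex_const, MM_eq]
        have e2 : Ex F p (fun ω' => φ (X ω) ω')
            = Ex F p (fun ω' => NB G F S (X ω) (G.cl (X ω) ω' y)) := by
          rw [hφ]
          simp only [if_pos hyX]
        rw [e1, e2]
        have h3 := MM_le_add (G := G) (F := F) hp0.le hp1.le hh.le hm (SSt_subset : X ω ⊆ S) hyX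
        rw [one_div, inv_mul_le_iff₀ (by positivity)]
        linarith
      · have e1 : Ex F p (fun ω' => ψ (X ω) ω') = 0 := by
          rw [hψ]
          simp only [if_neg hyX]
          rw [Ex_const]
        have e2 : Ex F p (fun ω' => φ (X ω) ω') = 0 := by
          rw [hφ]
          simp only [if_neg hyX]
          rw [Ex_const]
        rw [e1, e2, mul_zero]
    have b3 : Ex F p (fun ω => ψ (X ω) ω)
        = Ex F p (fun ω => (if Disjoint (G.cl S ω y) γ then (1:ℝ) else 0)
      * (M - qq h (G.cl S ω y).card)) := by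
      apply Ex_congr
      intro ω _
      rw [hψ]
      simp only
      by_cases hyX : y ∈ X ω
      · have h4 : Disjoint (G.cl S ω y) γ := (mem_SSt.mp hyX).2
        rw [if_pos hyX, if_pos h4, one_mul, hX, cl_SSt hyX]
      · have h4 : ¬ Disjoint (G.cl S ω y) γ := fun h => hyX (mem_SSt.mpr ⟨hy, h⟩)
        rw [if_neg hyX, if_neg h4, zero_mul]
    rw [← b3]
    exact b2.trans b1
  refine le_trans ?_ (Ex_mono hg0 hg1 key)
  rw [Ex_mul_left, ← Ex_comm]
  have h5 : Ex F p (fun ω => Ex S g (fun γ => (if Disjoint (G.cl S ω y) γ then (1:ℝ) else 0)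
      * (M - qq h (G.cl S ω y).card)))
      = (M - 1) * (1 - M) + (1 - G.MM F p S (2 * h) y) := by
    have h6 : ∀ ω, Ex S g (fun γ => (if Disjoint (G.cl S ω y) γ then (1:ℝ) else 0)
        * (M - qq h (G.cl S ω y).card))
        = (M - 1) * (1 - qq h (G.cl S ω y).card) + (1 - qq (2 * h) (G.cl S ω y).card) := by
      intro ω
      rw [Ex_mul_right, Ex_disjoint cl_subset]
      have e1 : (1 - g) ^ (G.cl S ω y).card = Real.exp (-h * ((G.cl S ω y).card : ℝ)) := by
        rw [hg, sub_sub_cancel, ← Real.exp_nat_mul]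
        congr 1
        ring
      have e2 : Real.exp (-(2 * h) * ((G.cl S ω y).card : ℝ))
          = Real.exp (-h * ((G.cl S ω y).card : ℝ)) * Real.exp (-h * ((G.cl S ω y).card : ℝ)) := by
        rw [← Real.exp_add]
        congr 1
        ring
      rw [e1]
      unfold qq
      rw [e2]
      ring
    rw [Ex_congr (fun ω _ => h6 ω), Ex_add, Ex_mul_left, Ex_sub, Ex_sub, Ex_const, ← MM_eq,
      ← MM_eq]
  rw [h5]
  apply le_of_eq
  field_simp
  ring

theorem ghost_main (G : LG V E) (F : Finset E) (S : Finset V) {y : V} (hy : y ∈ S)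
    {p2 ε X h0 s : ℝ} {R : ℕ} (hp2 : 0 < p2) (hε : 0 < ε) (hp : p2 + ε < 1) (hX : 1 ≤ X)
    (hR : 2 * X ≤ (7 / 4 : ℝ) ^ R) (hh0 : 0 < h0) (hs0 : 0 < s) (hs1 : s ≤ 1 / 20)
    (hs : s ≤ ε / (10 * (p2 + ε) * Real.log (2 * X)))
    (hM : 1 / (2 * X) ≤ G.MM F p2 S h0 y) :
    ∃ z ∈ S, s < G.MM F (p2 + ε) S (2 ^ R * h0) z := by
  by_contra hcon
  push Not at hcon
  have h2X : 2 ≤ 2 * X := by linarith
  have hlog : 0 < Real.log (2 * X) := Real.log_pos (by linarith)
  have hpε : 0 < p2 + ε := by linarith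
  -- monotonicity in `p` and `h`
  have hmonop : ∀ (h : ℝ), 0 ≤ h → ∀ z p q, 0 ≤ p → p ≤ q → q ≤ 1 →
      G.MM F p S h z ≤ G.MM F q S h z := by
    intro h hh z p q h1 h2 h3
    rw [MM_eq, MM_eq]
    exact Ex_mono_p (fun ω ω' hω => qq_mono hh le_rfl
      (card_le_card (cl_mono (Subset.refl _) hω))) h1 h2 h3
  have hmonoh : ∀ (h h' : ℝ), 0 ≤ h → h ≤ h' → ∀ z p, 0 ≤ p → p ≤ 1 →
      G.MM F p S h z ≤ G.MM F p S h' z := by
    intro h h' hh hhh z p h1 h2
    rw [MM_eq, MM_eq]
    exact Ex_mono h1 h2 fun ω _ => qq_mono hh hhh le_rfl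
  have hnn : ∀ (h : ℝ), 0 ≤ h → ∀ z p, 0 ≤ p → p ≤ 1 → 0 ≤ G.MM F p S h z := by
    intro h hh z p h1 h2
    rw [MM_eq]
    exact Ex_nonneg h1 h2 fun ω _ => qq_nonneg hh _
  have hle : ∀ k ≤ R, ∀ p, p2 ≤ p → p ≤ p2 + ε → ∀ z ∈ S, G.MM F p S (2 ^ k * h0) z ≤ s := by
    intro k hk p h1 h2 z hz
    calc G.MM F p S (2 ^ k * h0) z ≤ G.MM F (p2 + ε) S (2 ^ k * h0) z :=
          hmonop _ (by positivity) z p _ (by linarith) h2 hp.le
      _ ≤ G.MM F (p2 + ε) S (2 ^ R * h0) z := by
          apply hmonoh _ _ (by positivity) _ z _ hpε.le hp.le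
          apply mul_le_mul_of_nonneg_right _ hh0.le
          exact pow_le_pow_right₀ (by norm_num) hk
      _ ≤ s := hcon z hz
  -- the weighted sum
  set W : ℝ → ℝ := fun p => ∑ k ∈ range R, (4 / 7 : ℝ) ^ k * G.MM F p S (2 ^ k * h0) y with hW
  have hdiff : ∀ h p, DifferentiableAt ℝ (fun p => G.MM F p S h y) p := fun h p =>
    (Ex_hasDerivAt F (fun ω => qq h (G.cl S ω y).card) p).differentiableAt
  have hWd : ∀ p, HasDerivAt W (∑ k ∈ range R, (4 / 7 : ℝ) ^ k *
      deriv (fun p => G.MM F p S (2 ^ k * h0) y) p) p := by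
    intro p
    rw [hW]
    apply HasDerivAt.fun_sum
    intro k _
    exact (hdiff _ p).hasDerivAt.const_mul _
  have hR1 : 1 ≤ R := by
    rcases Nat.eq_zero_or_pos R with h1 | h1
    · rw [h1, pow_zero] at hR
      linarith
    · exact h1
  have hWnn : ∀ p, 0 ≤ p → p ≤ 1 → 0 ≤ W p := fun p h1 h2 =>
    sum_nonneg fun k _ => mul_nonneg (by positivity) (hnn _ (by positivity) y p h1 h2)
  have hW0 : 1 / (2 * X) ≤ W p2 := by
    refine hM.trans ?_
    have h1 : G.MM F p2 S h0 y = (4 / 7 : ℝ) ^ 0 * G.MM F p2 S (2 ^ 0 * h0) y := by simp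
    rw [h1, hW]
    exact single_le_sum (f := fun k => (4 / 7 : ℝ) ^ k * G.MM F p2 S (2 ^ k * h0) y)
      (fun k _ => mul_nonneg (by positivity) (hnn _ (by positivity) y p2 hp2.le (by linarith)))
      (mem_range.mpr hR1)
  -- the geometric sum
  have hgeo : ∑ k ∈ range R, (4 / 7 : ℝ) ^ k ≤ 7 / 3 := by
    have h1 := geom_sum_eq (x := (4 / 7 : ℝ)) (by norm_num) R
    rw [h1]
    have h2 : 0 < (4 / 7 : ℝ) ^ R := by positivity
    rw [show (4 / 7 : ℝ) - 1 = -(3 / 7) by norm_num, div_neg, ← neg_div, neg_sub, div_le_iff₀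
      (by norm_num)]
    linarith
  have hWle : W (p2 + ε) ≤ 7 / 3 * s := by
    calc W (p2 + ε) ≤ ∑ k ∈ range R, (4 / 7 : ℝ) ^ k * s := by
          apply sum_le_sum
          intro k hk
          apply mul_le_mul_of_nonneg_left _ (by positivity)
          exact hle k (mem_range.mp hk).le _ (by linarith) le_rfl y hy
      _ = (∑ k ∈ range R, (4 / 7 : ℝ) ^ k) * s := by rw [sum_mul]
      _ ≤ _ := mul_le_mul_of_nonneg_right hgeo hs0.le
  -- the differential inequality for `W`
  set c : ℝ := 1 / (5 * (p2 + ε) * s) with hc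
  have hc0 : 0 < c := by positivity
  have hWder : ∀ p, p2 ≤ p → p ≤ p2 + ε → c * W p ≤ ∑ k ∈ range R, (4 / 7 : ℝ) ^ k *
      deriv (fun p => G.MM F p S (2 ^ k * h0) y) p := by
    intro p h1 h2
    have hp0 : 0 < p := by linarith
    have hp1 : p < 1 := by linarith
    set M : ℕ → ℝ := fun k => G.MM F p S (2 ^ k * h0) y with hMdef
    have hMnn : ∀ k, 0 ≤ M k := fun k => hnn _ (by positivity) y p hp0.le hp1.le
    have hMs : ∀ k ≤ R, M k ≤ s := fun k hk => hle k hk p h1 h2 y hy
    have e1 : ∀ k ∈ range R, (4 / 7 : ℝ) ^ k * ((39 / 20 * M k - M (k + 1)) / (p * s)) ≤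
        (4 / 7 : ℝ) ^ k * deriv (fun p => G.MM F p S (2 ^ k * h0) y) p := by
      intro k hk
      have hkR : k ≤ R := (mem_range.mp hk).le
      apply mul_le_mul_of_nonneg_left _ (by positivity)
      refine le_trans ?_ (ghost_deriv G F S hy hp0 hp1 (h := 2 ^ k * h0) (by positivity) hs0
        (hle k hkR p h1 h2))
      have e2 : 2 * (2 ^ k * h0) = 2 ^ (k + 1) * h0 := by ring
      rw [e2]
      apply div_le_div_of_nonneg_right _ (by positivity)
      have e3 := hMs k hkR
      have e4 := hMnn k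
      change 39 / 20 * M k - M (k + 1) ≤ (2 - M k) * M k - M (k + 1)
      nlinarith
    refine le_trans ?_ (sum_le_sum e1)
    have e5 : ∑ k ∈ range R, (4 / 7 : ℝ) ^ k * ((39 / 20 * M k - M (k + 1)) / (p * s))
        = (39 / 20 * W p - 7 / 4 * ∑ k ∈ range R, (4 / 7 : ℝ) ^ (k + 1) * M (k + 1)) / (p * s) := by
      rw [hW, mul_sum, mul_sum, ← sum_sub_distrib, sum_div]
      apply sum_congr rfl
      intro k _
      rw [pow_succ]
      change _ = (39 / 20 * ((4 / 7 : ℝ) ^ k * M k) - _) / (p * s)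
      ring
    have e6 : ∑ k ∈ range R, (4 / 7 : ℝ) ^ (k + 1) * M (k + 1)
        = W p - M 0 + (4 / 7 : ℝ) ^ R * M R := by
      have e7 := sum_range_succ (fun k => (4 / 7 : ℝ) ^ k * M k) R
      have e8 := sum_range_succ' (fun k => (4 / 7 : ℝ) ^ k * M k) R
      have e9 : W p = ∑ k ∈ range R, (4 / 7 : ℝ) ^ k * M k := rfl
      rw [pow_zero, one_mul] at e8
      rw [e9]
      linarith
    rw [e5, e6]
    have e10 : (4 / 7 : ℝ) ^ R * M R ≤ M 0 := by
      have f1 : M R ≤ 1 := by
        have := hMs R le_rfl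
        linarith
      have f2 : (4 / 7 : ℝ) ^ R ≤ 1 / (2 * X) := by
        have f3 : (4 / 7 : ℝ) ^ R = 1 / (7 / 4 : ℝ) ^ R := by
          rw [← one_div_pow]
          norm_num
        rw [f3]
        exact one_div_le_one_div_of_le (by linarith) hR
      have f4 : G.MM F p2 S h0 y ≤ M 0 := by
        have : M 0 = G.MM F p S h0 y := by simp [hMdef]
        rw [this]
        exact hmonop _ hh0.le y p2 p hp2.le h1 hp1.le
      have f5 : 0 < (4 / 7 : ℝ) ^ R := by positivity
      nlinarith [hMnn R]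
    have e11 : 0 ≤ W p := hWnn p hp0.le hp1.le
    rw [hc]
    have e12 : 1 / (5 * (p2 + ε) * s) * W p ≤ (1 / 5 * W p) / (p * s) := by
      rw [div_mul_eq_mul_div, one_mul, div_le_div_iff₀ (by positivity) (by positivity)]
      have : p * s ≤ (p2 + ε) * s := mul_le_mul_of_nonneg_right h2 hs0.le
      nlinarith
    refine e12.trans ?_
    apply div_le_div_of_nonneg_right _ (by positivity)
    linarith
  -- integration
  have hmono : MonotoneOn (fun p => W p * Real.exp (-c * p)) (Set.Icc p2 (p2 + ε)) := by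
    have hd : ∀ p, HasDerivAt (fun p => W p * Real.exp (-c * p))
        ((∑ k ∈ range R, (4 / 7 : ℝ) ^ k * deriv (fun p => G.MM F p S (2 ^ k * h0) y) p) *
          Real.exp (-c * p) + W p * (Real.exp (-c * p) * (-c))) p := by
      intro p
      apply (hWd p).mul
      have h1 : HasDerivAt (fun p : ℝ => -c * p) (-c) p := by
        simpa using (hasDerivAt_id p).const_mul (-c)
      exact h1.exp
    apply monotoneOn_of_deriv_nonneg (convex_Icc _ _)
    · exact fun p _ => (hd p).continuousAt.continuousWithinAt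
    · exact fun p _ => (hd p).differentiableAt.differentiableWithinAt
    · intro p hpi
      rw [interior_Icc] at hpi
      rw [(hd p).deriv]
      have h1 := hWder p hpi.1.le hpi.2.le
      have h2 := Real.exp_pos (-c * p)
      nlinarith
  have hfin := hmono (Set.left_mem_Icc.mpr (by linarith)) (Set.right_mem_Icc.mpr (by linarith))
    (by linarith : p2 ≤ p2 + ε)
  simp only at hfin
  have h1 : W p2 * Real.exp (c * ε) ≤ W (p2 + ε) := by
    have h2 : Real.exp (-c * p2) = Real.exp (-c * (p2 + ε)) * Real.exp (c * ε) := by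
      rw [← Real.exp_add]
      congr 1
      ring
    rw [h2] at hfin
    have h3 := Real.exp_pos (-c * (p2 + ε))
    have h4 : (W p2 * Real.exp (c * ε)) * Real.exp (-c * (p2 + ε)) ≤
        W (p2 + ε) * Real.exp (-c * (p2 + ε)) := by
      calc _ = W p2 * (Real.exp (-c * (p2 + ε)) * Real.exp (c * ε)) := by ring
        _ ≤ _ := hfin
    exact le_of_mul_le_mul_right h4 h3
  have h2 : 2 * Real.log (2 * X) ≤ c * ε := by
    rw [hc, div_mul_eq_mul_div, one_mul, le_div_iff₀ (by positivity)]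
    rw [le_div_iff₀ (by positivity)] at hs
    linarith
  have h3 : (2 * X) ^ 2 ≤ Real.exp (c * ε) := by
    calc (2 * X) ^ 2 = Real.exp (2 * Real.log (2 * X)) := by
          rw [two_mul (Real.log (2 * X)), Real.exp_add, Real.exp_log (by linarith)]
          ring
      _ ≤ _ := Real.exp_le_exp.mpr h2
  have h4 : 2 * X ≤ W (p2 + ε) := by
    calc 2 * X = 1 / (2 * X) * (2 * X) ^ 2 := by
          field_simp
      _ ≤ W p2 * Real.exp (c * ε) := by
          apply mul_le_mul hW0 h3 (by positivity)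
          exact hWnn p2 hp2.le (by linarith)
      _ ≤ _ := h1
  linarith

end DDA
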