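import Pool.Agent.DDA.Defs2
import Pool.Agent.DDA.Kernel
import Pool.Agent.DDA.OneStepTau

/-!
# DDA: differential inequalities for the expected volume of balls and clusters in the torus
-/

open Finset

namespace DDA

set_option linter.unusedSectionVars false

section general

variable {V E : Type*} [DecidableEq V] [DecidableEq E] {G : LG V E}

namespace LG

/-- a ball is contained in every set which contains the centre and is closed for the open edges -/
lemma ball_subset_of_closed {S W : Finset V} {ω : Finset E} {x : V} (hx : x ∈ W)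
    (hW : ∀ a ∈ W, ∀ y ∈ S, G.Adj ω a y → y ∈ W) (k : ℕ) : G.ball S ω x k ⊆ W := by
  induction k with
  | zero =>
    intro y hy
    obtain ⟨_, rfl⟩ := mem_ball_zero.mp hy
    exact hx
  | succ k ih =>
    intro y hy
    rcases mem_ball_succ.mp hy with h | ⟨h1, z, hz, ha⟩
    · exact ih h
    · exact hW z (ih hz) y h1 ha

/-- the ball of radius `k + 1` is determined by the edges which touch the ball of radius `k` -/
lemma ball_local_succ {S : Finset V} {ω ω' : Finset E} {x : V} {k : ℕ}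
    (h : ∀ e, G.In S e → ¬ G.In (S \ G.ball S ω x k) e → (e ∈ ω ↔ e ∈ ω')) :
    G.ball S ω' x (k + 1) = G.ball S ω x (k + 1) := by
  have ih' := ball_local h le_rfl
  ext y
  rw [mem_ball_succ, mem_ball_succ, ih']
  have key : ∀ z ∈ G.ball S ω x k, ∀ e, G.J e z y → y ∈ S → (e ∈ ω ↔ e ∈ ω') := by
    intro z hz e hj' hy
    have hzS := ball_subset hz
    apply h
    · rcases hj' with ⟨a, b⟩ | ⟨a, b⟩
      · exact ⟨a ▸ hzS, b ▸ hy⟩
      · exact ⟨a ▸ hy, b ▸ hzS⟩
    · rintro ⟨h1, h2⟩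
      rcases hj' with ⟨a, b⟩ | ⟨a, b⟩
      · rw [a] at h1
        exact (mem_sdiff.mp h1).2 hz
      · rw [b] at h2
        exact (mem_sdiff.mp h2).2 hz
  constructor
  · rintro (h1 | ⟨h1, z, hz, e, he, hj'⟩)
    · exact Or.inl h1
    · exact Or.inr ⟨h1, z, hz, e, (key z hz e hj' h1).mpr he, hj'⟩
  · rintro (h1 | ⟨h1, z, hz, e, he, hj'⟩)
    · exact Or.inl h1
    · exact Or.inr ⟨h1, z, hz, e, (key z hz e hj' h1).mp he, hj'⟩

lemma Pr_eq' {F : Finset E} {p : ℝ} (A : Finset E → Prop) [DecidablePred A] :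
    Pr F p A = Ex F p (fun ω => if A ω then 1 else 0) := by
  unfold Pr
  apply Ex_congr
  intro ω _
  by_cases h : A ω <;> simp [h]

lemma tau_eq_Ex {F : Finset E} {p : ℝ} {S : Finset V} {k : ℕ} (x y : V) :
    G.tau F p S k x y = Ex F p (fun ω => if y ∈ G.ball S ω x k then 1 else 0) :=
  Pr_eq' (fun ω => y ∈ G.ball S ω x k)

lemma bex_nonneg {F : Finset E} {p : ℝ} (hp0 : 0 ≤ p) (hp1 : p ≤ 1) (S : Finset V) (k : ℕ)
    (x : V) : 0 ≤ G.bex F p S k x := Ex_nonneg hp0 hp1 (fun _ _ => by positivity)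

/-- the expected square of the volume of a ball -/
lemma second_moment_gen (hG : ∀ e, G.s e ≠ G.t e) {F : Finset E} {p : ℝ} (hp0 : 0 ≤ p)
    (hp1 : p ≤ 1 / 2) (S : Finset V) (k : ℕ) (x : V) {b : ℝ}
    (hb : ∀ w, G.bex F p S k w = b) :
    Ex F p (fun ω => ((G.ball S ω x k).card : ℝ) ^ 2) ≤ b ^ 3 := by
  classical
  have hpp : p ≤ 1 := by linarith
  have h1 : Ex F p (fun ω => ((G.ball S ω x k).card : ℝ) ^ 2)
      = ∑ y ∈ S, ∑ z ∈ S, Pr F p (fun ω => y ∈ G.ball S ω x k ∧ z ∈ G.ball S ω x k) := by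
    have h3 : Ex F p (fun ω => ∑ y ∈ S, ∑ z ∈ S,
        if y ∈ G.ball S ω x k ∧ z ∈ G.ball S ω x k then (1:ℝ) else 0)
        = ∑ y ∈ S, ∑ z ∈ S, Pr F p (fun ω => y ∈ G.ball S ω x k ∧ z ∈ G.ball S ω x k) := by
      rw [Ex_sum]
      apply sum_congr rfl
      intro y _
      rw [Ex_sum]
      apply sum_congr rfl
      intro z _
      rw [Pr_eq']
    rw [← h3]
    apply Ex_congr
    intro ω _
    have h2 : ((G.ball S ω x k).card : ℝ) = ∑ y ∈ S, if y ∈ G.ball S ω x k then (1:ℝ) else 0 := by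
      have h1 : G.ball S ω x k = S.filter (fun y => y ∈ G.ball S ω x k) := by
        ext y
        rw [mem_filter]
        exact ⟨fun h => ⟨ball_subset h, h⟩, fun h => h.2⟩
      conv_lhs => rw [h1, card_filter]
      push_cast
      rfl
    rw [h2, sq, sum_mul_sum]
    apply sum_congr rfl
    intro y _
    apply sum_congr rfl
    intro z _
    by_cases h1 : y ∈ G.ball S ω x k <;> by_cases h2 : z ∈ G.ball S ω x k <;> simp [h1, h2]
  rw [h1]
  calc ∑ y ∈ S, ∑ z ∈ S, Pr F p (fun ω => y ∈ G.ball S ω x k ∧ z ∈ G.ball S ω x k)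
      ≤ ∑ y ∈ S, ∑ z ∈ S, ∑ w ∈ S, G.tau F p S k x w * G.tau F p S k w y * G.tau F p S k w z :=
        sum_le_sum (fun y _ => sum_le_sum (fun z _ => tree_graph hG hp0 hp1 x y z))
    _ = ∑ w ∈ S, G.tau F p S k x w * (∑ y ∈ S, G.tau F p S k w y)
        * (∑ z ∈ S, G.tau F p S k w z) := by
        rw [show (∑ y ∈ S, ∑ z ∈ S, ∑ w ∈ S, G.tau F p S k x w * G.tau F p S k w y
            * G.tau F p S k w z) = ∑ w ∈ S, ∑ y ∈ S, ∑ z ∈ S, G.tau F p S k x w
              * G.tau F p S k w y * G.tau F p S k w z by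
          rw [sum_congr rfl (fun y _ => sum_comm), sum_comm]]
        apply sum_congr rfl
        intro w _
        rw [mul_assoc, sum_mul_sum, mul_sum]
        apply sum_congr rfl
        intro y _
        rw [mul_sum]
        apply sum_congr rfl
        intro z _
        ring
    _ = b ^ 3 := by
        have h2 : ∀ w, ∑ y ∈ S, G.tau F p S k w y = b := fun w => by rw [← bex_eq_sum, hb]
        simp only [h2]
        rw [← sum_mul, ← sum_mul, h2]
        ring

/-- exploring the ball of radius `j` only looks at edges which touch it -/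
lemma explore_aux {F : Finset E} {S : Finset V} {x : V} {j : ℕ} {ω ω' : Finset E}
    (h : ω \ G.ins (S \ G.ball S ω x j) F = ω' \ G.ins (S \ G.ball S ω x j) F) :
    ∀ e, G.In S e → ¬ G.In (S \ G.ball S ω x j) e → (e ∈ ω ↔ e ∈ ω') := by
  intro e _ he
  have h1 : e ∉ G.ins (S \ G.ball S ω x j) F := fun h' => he ⟨(mem_ins.mp h').2.1,
    (mem_ins.mp h').2.2⟩
  constructor
  · intro h2
    have : e ∈ ω \ G.ins (S \ G.ball S ω x j) F := mem_sdiff.mpr ⟨h2, h1⟩
    rw [h] at this
    exact (mem_sdiff.mp this).1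
  · intro h2
    have : e ∈ ω' \ G.ins (S \ G.ball S ω x j) F := mem_sdiff.mpr ⟨h2, h1⟩
    rw [← h] at this
    exact (mem_sdiff.mp this).1

lemma cl_sphere {S : Finset V} {ω : Finset E} {x : V} (hx : x ∈ S) (j : ℕ) :
    G.cl S ω x ⊆ G.ball S ω x j ∪ (G.ball S ω x (j + 1) \ G.ball S ω x j).biUnion
      (fun z => G.cl (S \ G.ball S ω x j) ω z) := by
  apply ball_subset_of_closed
  · exact mem_union_left _ (self_mem_ball hx)
  · intro a ha y hy hadj
    by_cases hyB : y ∈ G.ball S ω x j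
    · exact mem_union_left _ hyB
    · apply mem_union_right
      rcases mem_union.mp ha with ha | ha
      · refine mem_biUnion.mpr ⟨y, mem_sdiff.mpr ⟨mem_ball_step ha hadj hy, hyB⟩, ?_⟩
        exact self_mem_cl (mem_sdiff.mpr ⟨hy, hyB⟩)
      · obtain ⟨z, hz, haz⟩ := mem_biUnion.mp ha
        exact mem_biUnion.mpr ⟨z, hz, mem_cl_step haz hadj (mem_sdiff.mpr ⟨hy, hyB⟩)⟩

theorem ball_start_gen {F : Finset E} {p : ℝ} (hp0 : 0 ≤ p) (hp1 : p ≤ 1) {S : Finset V} {x : V}
    (hx : x ∈ S) {χ : ℝ} (hχ : ∀ w, Ex F p (fun ω => ((G.cl S ω w).card : ℝ)) ≤ χ) (j : ℕ) :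
    Ex F p (fun ω => ((G.cl S ω x).card : ℝ))
      ≤ G.bex F p S j x + (G.bex F p S (j + 1) x - G.bex F p S j x) * χ := by
  classical
  set X : Finset E → Finset V × Finset V := fun ω => (G.ball S ω x j, G.ball S ω x (j + 1))
    with hX
  set φ : Finset V × Finset V → Finset E → ℝ := fun a ω =>
    ∑ z ∈ a.2 \ a.1, ((G.cl (S \ a.1) ω z).card : ℝ) with hφ
  have h1 : Ex F p (fun ω => φ (X ω) ω) = Ex F p (fun ω => Ex F p (fun ω' => φ (X ω) ω')) := by
    apply Ex_markov X (fun a => G.ins (S \ a.1) F) φ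
    · intro ω hω ω' hω' h
      have h2 := explore_aux h
      rw [hX]
      simp only
      rw [ball_local h2 le_rfl, ball_local_succ h2]
    · intro a ω hω
      rw [hφ]
      simp only
      apply sum_congr rfl
      intro z _
      rw [cl_ins hω]
  have h2 : Ex F p (fun ω => ((G.cl S ω x).card : ℝ))
      ≤ G.bex F p S j x + Ex F p (fun ω => φ (X ω) ω) := by
    unfold bex
    rw [← Ex_add]
    apply Ex_mono hp0 hp1
    intro ω _
    have h3 := (card_le_card (cl_sphere (G := G) (ω := ω) hx j)).trans (card_union_le _ _)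
    have h4 := card_biUnion_le (s := G.ball S ω x (j + 1) \ G.ball S ω x j)
      (t := fun z => G.cl (S \ G.ball S ω x j) ω z)
    have h5 : (G.cl S ω x).card ≤ (G.ball S ω x j).card
        + ∑ z ∈ G.ball S ω x (j + 1) \ G.ball S ω x j, (G.cl (S \ G.ball S ω x j) ω z).card := by
      omega
    have h6 : ((G.cl S ω x).card : ℝ) ≤ ((G.ball S ω x j).card : ℝ)
        + ∑ z ∈ G.ball S ω x (j + 1) \ G.ball S ω x j,
          ((G.cl (S \ G.ball S ω x j) ω z).card : ℝ) := by
      exact_mod_cast h5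
    exact h6
  refine h2.trans ?_
  rw [h1]
  gcongr
  unfold bex
  rw [← Ex_sub, ← Ex_mul_right]
  apply Ex_mono hp0 hp1
  intro ω _
  rw [hφ]
  simp only
  rw [Ex_sum]
  calc ∑ z ∈ (X ω).2 \ (X ω).1, Ex F p (fun ω' => ((G.cl (S \ (X ω).1) ω' z).card : ℝ))
      ≤ ∑ z ∈ (X ω).2 \ (X ω).1, χ := by
        apply sum_le_sum
        intro z _
        refine le_trans ?_ (hχ z)
        apply Ex_mono hp0 hp1
        intro ω' _
        have h7 := card_le_card (cl_mono (G := G) (x := z) (sdiff_subset (s := S) (t := (X ω).1))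
          (Subset.refl ω'))
        exact_mod_cast h7
    _ = (((G.ball S ω x (j + 1)).card : ℝ) - ((G.ball S ω x j).card : ℝ)) * χ := by
        rw [sum_const, nsmul_eq_mul]
        congr 1
        have h3 : (X ω).1 ⊆ (X ω).2 := ball_mono_k (Nat.le_succ _)
        rw [card_sdiff_of_subset h3, Nat.cast_sub (card_le_card h3)]

/-- opening the edge `e`: upper bound for the growth of the cluster -/
lemma cl_insert_mem {S : Finset V} {ω : Finset E} {x : V} (hx : x ∈ S) (e : E) {y : V}
    (hy : y ∈ G.cl S (insert e ω) x) :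
    y ∈ G.cl S (ω.erase e) x ∨
    (G.s e ∈ G.cl S (ω.erase e) x ∧ G.t e ∉ G.cl S (ω.erase e) x ∧
      y ∈ G.cl (S \ G.cl S (ω.erase e) x) ω (G.t e)) ∨
    (G.t e ∈ G.cl S (ω.erase e) x ∧ G.s e ∉ G.cl S (ω.erase e) x ∧
      y ∈ G.cl (S \ G.cl S (ω.erase e) x) ω (G.s e)) := by
  classical
  set C := G.cl S (ω.erase e) x with hC
  set W : Finset V := S.filter (fun y => y ∈ C ∨ (G.s e ∈ C ∧ G.t e ∉ C ∧
    y ∈ G.cl (S \ C) ω (G.t e)) ∨ (G.t e ∈ C ∧ G.s e ∉ C ∧ y ∈ G.cl (S \ C) ω (G.s e))) with hW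
  have key : G.ball S (insert e ω) x S.card ⊆ W := by
    apply ball_subset_of_closed
    · rw [hW, mem_filter]
      exact ⟨hx, Or.inl (self_mem_cl hx)⟩
    · intro a ha y hyS ⟨e', he', hj⟩
      rw [hW, mem_filter] at ha ⊢
      refine ⟨hyS, ?_⟩
      by_cases hyC : y ∈ C
      · exact Or.inl hyC
      · right
        rcases ha.2 with haC | ⟨h1, h2, h3⟩ | ⟨h1, h2, h3⟩
        · by_cases hee : e' = e
          · subst hee
            rcases hj with ⟨a1, a2⟩ | ⟨a1, a2⟩
            · left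
              rw [a1, a2]
              exact ⟨haC, hyC, self_mem_cl (mem_sdiff.mpr ⟨hyS, hyC⟩)⟩
            · right
              rw [a1, a2]
              exact ⟨haC, hyC, self_mem_cl (mem_sdiff.mpr ⟨hyS, hyC⟩)⟩
          · exfalso
            apply hyC
            refine mem_cl_step haC ⟨e', mem_erase.mpr ⟨hee, ?_⟩, hj⟩ hyS
            exact (mem_insert.mp he').resolve_left hee
        · left
          refine ⟨h1, h2, ?_⟩
          have haC : a ∉ C := (mem_sdiff.mp (cl_subset h3)).2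
          by_cases hee : e' = e
          · subst hee
            exfalso
            rcases hj with ⟨a1, a2⟩ | ⟨a1, a2⟩
            · exact haC (a1 ▸ h1)
            · exact hyC (a1 ▸ h1)
          · exact mem_cl_step h3 ⟨e', (mem_insert.mp he').resolve_left hee, hj⟩
              (mem_sdiff.mpr ⟨hyS, hyC⟩)
        · right
          refine ⟨h1, h2, ?_⟩
          have haC : a ∉ C := (mem_sdiff.mp (cl_subset h3)).2
          by_cases hee : e' = e
          · subst hee
            exfalso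
            rcases hj with ⟨a1, a2⟩ | ⟨a1, a2⟩
            · exact hyC (a2 ▸ h1)
            · exact haC (a2 ▸ h1)
          · exact mem_cl_step h3 ⟨e', (mem_insert.mp he').resolve_left hee, hj⟩
              (mem_sdiff.mpr ⟨hyS, hyC⟩)
  exact (mem_filter.mp (key hy)).2

open Classical in
/-- the contribution of the orientation `(u, v)` of a closed edge -/
noncomputable def gup (G : LG V E) (S : Finset V) (u v : V) (C : Finset V) (ω : Finset E) : ℝ :=
  if u ∈ C ∧ v ∉ C then ((G.cl (S \ C) ω v).card : ℝ) else 0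

lemma card_cl_insert_le {S : Finset V} {ω : Finset E} {x : V} (hx : x ∈ S) (e : E) :
    ((G.cl S (insert e ω) x).card : ℝ) ≤ ((G.cl S (ω.erase e) x).card : ℝ)
      + (G.gup S (G.s e) (G.t e) (G.cl S (ω.erase e) x) ω
        + G.gup S (G.t e) (G.s e) (G.cl S (ω.erase e) x) ω) := by
  classical
  set C := G.cl S (ω.erase e) x with hC
  unfold gup
  by_cases h1 : G.s e ∈ C ∧ G.t e ∉ C
  · have h2 : ¬ (G.t e ∈ C ∧ G.s e ∉ C) := fun h => h1.2 h.1
    rw [if_pos h1, if_neg h2, add_zero]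
    have h3 : G.cl S (insert e ω) x ⊆ C ∪ G.cl (S \ C) ω (G.t e) := by
      intro y hy
      rcases cl_insert_mem hx e hy with h | ⟨_, _, h⟩ | ⟨ha, _, _⟩
      · exact mem_union_left _ h
      · exact mem_union_right _ h
      · exact absurd ha h1.2
    have h4 := (card_le_card h3).trans (card_union_le _ _)
    exact_mod_cast h4
  · rw [if_neg h1, zero_add]
    by_cases h2 : G.t e ∈ C ∧ G.s e ∉ C
    · rw [if_pos h2]
      have h3 : G.cl S (insert e ω) x ⊆ C ∪ G.cl (S \ C) ω (G.s e) := by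
        intro y hy
        rcases cl_insert_mem hx e hy with h | ⟨ha, _, h⟩ | ⟨_, _, h⟩
        · exact mem_union_left _ h
        · exact absurd ha h2.2
        · exact mem_union_right _ h
      have h4 := (card_le_card h3).trans (card_union_le _ _)
      exact_mod_cast h4
    · rw [if_neg h2, add_zero]
      have h3 : G.cl S (insert e ω) x ⊆ C := by
        intro y hy
        rcases cl_insert_mem hx e hy with h | ⟨ha, hb, h⟩ | ⟨ha, hb, h⟩
        · exact h
        · exact absurd ⟨ha, hb⟩ h1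
        · exact absurd ⟨ha, hb⟩ h2
      exact_mod_cast card_le_card h3

lemma Ex_gup_le {F : Finset E} {p : ℝ} (hp0 : 0 ≤ p) (hp1 : p ≤ 1) {S : Finset V} {x : V}
    {χ : ℝ} (hχ : ∀ w, Ex F p (fun ω => ((G.cl S ω w).card : ℝ)) ≤ χ) (e : E) (u v : V) :
    Ex F p (fun ω => G.gup S u v (G.cl S (ω.erase e) x) ω) ≤ G.tau F p S S.card x u * χ := by
  classical
  have h1 := Ex_markov (F := F) (p := p) (fun ω => G.cl S (ω.erase e) x)
    (fun a => G.ins (S \ a) F) (G.gup S u v) (by
      intro ω hω ω' hω' h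
      apply cl_local
      intro e' h1 h2
      have h3 : e' ∉ G.ins (S \ G.cl S (ω.erase e) x) F := fun h' => h2 ⟨(mem_ins.mp h').2.1,
        (mem_ins.mp h').2.2⟩
      have h4 : e' ∈ ω ↔ e' ∈ ω' := by
        constructor
        · intro h5
          have : e' ∈ ω \ G.ins (S \ G.cl S (ω.erase e) x) F := mem_sdiff.mpr ⟨h5, h3⟩
          rw [h] at this
          exact (mem_sdiff.mp this).1
        · intro h5
          have : e' ∈ ω' \ G.ins (S \ G.cl S (ω.erase e) x) F := mem_sdiff.mpr ⟨h5, h3⟩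
          rw [← h] at this
          exact (mem_sdiff.mp this).1
      rw [mem_erase, mem_erase, h4]) (by
      intro a ω hω
      unfold gup
      rw [cl_ins hω])
  rw [h1]
  have h2 : G.tau F p S S.card x u * χ
      = Ex F p (fun ω => (if u ∈ G.cl S ω x then (1:ℝ) else 0) * χ) := by
    rw [Ex_mul_right]
    congr 1
    exact tau_eq_Ex x u
  rw [h2]
  have hχ0 : 0 ≤ χ := le_trans (Ex_nonneg hp0 hp1 (fun _ _ => by positivity)) (hχ x)
  apply Ex_mono hp0 hp1
  intro ω _
  by_cases h3 : u ∈ G.cl S (ω.erase e) x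
  · have h4 : u ∈ G.cl S ω x := cl_mono (Subset.refl _) (erase_subset _ _) h3
    rw [if_pos h4, one_mul]
    refine le_trans ?_ (hχ v)
    apply Ex_mono hp0 hp1
    intro ω' _
    unfold gup
    split_ifs
    · have h7 := card_le_card (cl_mono (G := G) (x := v)
        (sdiff_subset (s := S) (t := G.cl S (ω.erase e) x)) (Subset.refl ω'))
      exact_mod_cast h7
    · positivity
  · have : Ex F p (fun ω' => G.gup S u v (G.cl S (ω.erase e) x) ω') = 0 := by
      unfold gup
      simp only [h3, false_and, if_false]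
      exact Ex_const _ _ _
    rw [this]
    split_ifs <;> simp [hχ0]

open Classical in
/-- the contribution of the orientation `(u, v)` of a closed edge to the growth of a ball -/
noncomputable def gdn (G : LG V E) (S : Finset V) (u v : V) (k : ℕ) (a : Finset V × Finset V)
    (ω : Finset E) : ℝ :=
  if u ∈ a.1 ∧ v ∉ a.2 then ((G.ball (S \ a.2) ω v k).card : ℝ) else 0

lemma gdn_nonneg (S : Finset V) (u v : V) (k : ℕ) (a : Finset V × Finset V) (ω : Finset E) :
    0 ≤ G.gdn S u v k a ω := by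
  unfold gdn
  split_ifs <;> positivity

lemma gdn_le_aux {S : Finset V} {ω : Finset E} {x u v : V} {e : E} (huv : G.J e u v) (k : ℕ)
    (h1 : u ∈ G.ball S ω x k) :
    (G.ball (S \ G.ball S ω x (2 * k + 1)) ω v k).card + (G.ball S (ω.erase e) x (2 * k + 1)).card
      ≤ (G.ball S (insert e ω) x (2 * k + 1)).card := by
  have h2 : (G.ball S (ω.erase e) x (2 * k + 1)).card ≤ (G.ball S ω x (2 * k + 1)).card :=
    card_le_card (ball_mono (Subset.refl _) (erase_subset _ _))
  have h3 : G.ball (S \ G.ball S ω x (2 * k + 1)) ω v k ∪ G.ball S ω x (2 * k + 1)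
      ⊆ G.ball S (insert e ω) x (2 * k + 1) := by
    apply union_subset
    · intro y hy
      have hv := (mem_sdiff.mp (base_mem_of_mem hy)).1
      have h4 : v ∈ G.ball S (insert e ω) x (k + 1) :=
        mem_ball_step (ball_mono (Subset.refl _) (subset_insert _ _) h1)
          ⟨e, mem_insert_self _ _, huv⟩ hv
      have h5 : y ∈ G.ball S (insert e ω) v k :=
        ball_mono sdiff_subset (subset_insert _ _) hy
      have h6 := mem_ball_trans h4 h5
      rwa [show k + 1 + k = 2 * k + 1 by ring] at h6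
    · exact ball_mono (Subset.refl _) (subset_insert _ _)
  have h4 := card_le_card h3
  rw [card_union_of_disjoint] at h4
  · omega
  · rw [Finset.disjoint_left]
    intro y hy hy'
    exact (mem_sdiff.mp (ball_subset hy)).2 hy'

lemma gdn_le {S : Finset V} {ω : Finset E} {x : V} (e : E) (k : ℕ) :
    G.gdn S (G.s e) (G.t e) k (G.ball S ω x k, G.ball S ω x (2 * k + 1)) ω
      + G.gdn S (G.t e) (G.s e) k (G.ball S ω x k, G.ball S ω x (2 * k + 1)) ω
      ≤ ((G.ball S (insert e ω) x (2 * k + 1)).card : ℝ)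
        - ((G.ball S (ω.erase e) x (2 * k + 1)).card : ℝ) := by
  classical
  have hsub : G.ball S ω x k ⊆ G.ball S ω x (2 * k + 1) := ball_mono_k (by omega)
  unfold gdn
  simp only
  by_cases h1 : G.s e ∈ G.ball S ω x k ∧ G.t e ∉ G.ball S ω x (2 * k + 1)
  · have h2 : ¬ (G.t e ∈ G.ball S ω x k ∧ G.s e ∉ G.ball S ω x (2 * k + 1)) :=
      fun h => h1.2 (hsub h.1)
    rw [if_pos h1, if_neg h2, add_zero]
    have h3 := gdn_le_aux (S := S) (ω := ω) (x := x) (u := G.s e) (v := G.t e) (e := e)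
      (Or.inl ⟨rfl, rfl⟩) k h1.1
    have h4 : ((G.ball (S \ G.ball S ω x (2 * k + 1)) ω (G.t e) k).card : ℝ)
      + ((G.ball S (ω.erase e) x (2 * k + 1)).card : ℝ)
      ≤ ((G.ball S (insert e ω) x (2 * k + 1)).card : ℝ) := by exact_mod_cast h3
    linarith
  · rw [if_neg h1, zero_add]
    by_cases h2 : G.t e ∈ G.ball S ω x k ∧ G.s e ∉ G.ball S ω x (2 * k + 1)
    · rw [if_pos h2]
      have h3 := gdn_le_aux (S := S) (ω := ω) (x := x) (u := G.t e) (v := G.s e) (e := e)
        (Or.inr ⟨rfl, rfl⟩) k h2.1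
      have h4 : ((G.ball (S \ G.ball S ω x (2 * k + 1)) ω (G.s e) k).card : ℝ)
        + ((G.ball S (ω.erase e) x (2 * k + 1)).card : ℝ)
        ≤ ((G.ball S (insert e ω) x (2 * k + 1)).card : ℝ) := by exact_mod_cast h3
      linarith
    · rw [if_neg h2, sub_nonneg]
      have h3 := card_le_card (ball_mono (G := G) (x := x) (k := 2 * k + 1) (Subset.refl S)
        ((erase_subset e ω).trans (subset_insert e ω)))
      exact_mod_cast h3

lemma Ex_gdn_ge {F : Finset E} {p : ℝ} (hp0 : 0 ≤ p) (hp1 : p ≤ 1 / 2) {S : Finset V} {x : V}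
    {k : ℕ} {b : ℝ} (hb : ∀ w ∈ S, G.bex F p S k w = b) {u v : V} (hv : v ∈ S) :
    b * G.tau F p S k x u - b * ∑ a ∈ S, Pr F p (fun ω => u ∈ G.ball S ω x k ∧
      a ∈ G.ball S ω x (2 * k + 1)) * G.tau F p S k v a
    ≤ Ex F p (fun ω => G.gdn S u v k (G.ball S ω x k, G.ball S ω x (2 * k + 1)) ω) := by
  classical
  have hpp : p ≤ 1 := by linarith
  have hb0 : 0 ≤ b := (hb v hv) ▸ bex_nonneg hp0 hpp _ _ _
  have h1 := Ex_markov (F := F) (p := p)
    (fun ω => (G.ball S ω x k, G.ball S ω x (2 * k + 1)))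
    (fun a => G.ins (S \ a.2) F) (G.gdn S u v k) (by
      intro ω hω ω' hω' h
      have h2 := explore_aux h
      rw [ball_local h2 le_rfl, ball_local h2 (show k ≤ 2 * k + 1 by omega)]) (by
      intro a ω hω
      unfold gdn
      rw [ball_ins hω])
  rw [h1]
  have h2 : b * G.tau F p S k x u - b * ∑ a ∈ S, Pr F p (fun ω => u ∈ G.ball S ω x k ∧
      a ∈ G.ball S ω x (2 * k + 1)) * G.tau F p S k v a
      = Ex F p (fun ω => b * (if u ∈ G.ball S ω x k then (1:ℝ) else 0)
        - b * ∑ a ∈ S, (if u ∈ G.ball S ω x k ∧ a ∈ G.ball S ω x (2 * k + 1) then (1:ℝ) else 0)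
          * G.tau F p S k v a) := by
    rw [Ex_sub, Ex_mul_left, Ex_mul_left, ← tau_eq_Ex, Ex_sum]
    congr 2
    apply sum_congr rfl
    intro a _
    rw [Ex_mul_right, Pr_eq']
  rw [h2]
  apply Ex_mono hp0 hpp
  intro ω _
  by_cases hu : u ∈ G.ball S ω x k
  · simp only [hu, if_true, true_and, mul_one]
    set A := G.ball S ω x (2 * k + 1) with hA
    have hAS : A ⊆ S := ball_subset
    have h3 : ∑ a ∈ S, (if a ∈ A then (1:ℝ) else 0) * G.tau F p S k v a
        = ∑ a ∈ A, G.tau F p S k v a := by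
      rw [← sum_subset hAS (f := fun a => (if a ∈ A then (1:ℝ) else 0) * G.tau F p S k v a)]
      · apply sum_congr rfl
        intro a ha
        rw [if_pos ha, one_mul]
      · intro a _ ha
        rw [if_neg ha, zero_mul]
    rw [h3]
    by_cases hvA : v ∈ A
    · have h4 : 1 ≤ ∑ a ∈ A, G.tau F p S k v a := by
        rw [← tau_self (G := G) (F := F) (p := p) (k := k) (hAS hvA)]
        exact single_le_sum (f := fun a => G.tau F p S k v a)
          (fun a _ => tau_nonneg hp0 hpp v a) hvA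
      have h5 : 0 ≤ Ex F p (fun ω' => G.gdn S u v k (G.ball S ω x k, A) ω') :=
        Ex_nonneg hp0 hpp (fun _ _ => gdn_nonneg _ _ _ _ _ _)
      nlinarith
    · have h4 : Ex F p (fun ω' => G.gdn S u v k (G.ball S ω x k, A) ω')
          = G.bex F p (S \ A) k v := by
        unfold gdn bex
        simp only [hu, hvA, not_false_iff, true_and, if_true]
      rw [h4]
      have h5 := bex_off (G := G) (F := F) (S := S) (k := k) hp0 hp1 A v
      rw [hb v hv] at h5
      have h6 : ∑ a ∈ A ∩ S, G.tau F p S k v a * G.bex F p S k a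
          = b * ∑ a ∈ A, G.tau F p S k v a := by
        rw [inter_eq_left.mpr hAS, mul_sum]
        apply sum_congr rfl
        intro a ha
        rw [hb a (hAS ha)]
        ring
      linarith
  · simp only [hu, if_false, false_and, zero_mul, sum_const_zero, mul_zero, sub_zero]
    exact Ex_nonneg hp0 hpp (fun _ _ => gdn_nonneg _ _ _ _ _ _)

end LG

end general

variable {N d : ℕ}

theorem ball_start {N d : ℕ} [NeZero N] {p : ℝ} (hp0 : 0 ≤ p) (hp1 : p ≤ 1) (k : ℕ) :
    min (chi N d p / 2) (k / 2) ≤ bb N d k p := by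
  have hb0 : ∀ j, 0 ≤ bb N d j p := fun j => LG.bex_nonneg hp0 hp1 _ _ _
  have hmono : ∀ i j, i ≤ j → bb N d i p ≤ bb N d j p := fun i j h =>
    LG.bex_mono hp0 hp1 (Subset.refl _) h _
  have key : ∀ j, chi N d p ≤ bb N d j p + (bb N d (j + 1) p - bb N d j p) * chi N d p := by
    intro j
    apply LG.ball_start_gen hp0 hp1 (mem_univ _)
    intro w
    have := bex_eq_bb (N := N) (d := d) w (univ : Finset (TV N d)).card p
    rw [chi_eq_bb, ← this]
    exact le_rfl
  by_cases h : ∃ j < k, bb N d (j + 1) p - bb N d j p ≤ 1 / 2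
  · obtain ⟨j, hj, h1⟩ := h
    have h2 := key j
    have h3 : 0 ≤ chi N d p := by
      rw [chi_eq_bb]
      exact hb0 _
    have h4 := hmono j k hj.le
    apply min_le_of_left_le
    nlinarith
  · push Not at h
    have h1 : ∀ j ≤ k, (j : ℝ) / 2 ≤ bb N d j p := by
      intro j
      induction j with
      | zero =>
        intro _
        simpa using hb0 0
      | succ j ih =>
        intro hj
        have := h j (by omega)
        have := ih (by omega)
        push_cast
        linarith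
    exact min_le_of_right_le (h1 k le_rfl)

/-- sum over all oriented edges of the torus -/
lemma sum_oriented {N d : ℕ} [NeZero N] (H : TV N d → TV N d → ℝ) :
    ∑ e : TE N d, (H ((T N d).s e) ((T N d).t e) + H ((T N d).t e) ((T N d).s e))
      = ∑ x : TV N d, nbS (H x) x := by
  have h1 : ∑ e : TE N d, (H ((T N d).s e) ((T N d).t e) + H ((T N d).t e) ((T N d).s e))
      = ∑ x : TV N d, ∑ i : Fin d, (H x (x + Pi.single i 1) + H (x + Pi.single i 1) x) :=
    Fintype.sum_prod_type _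
  rw [h1]
  unfold nbS
  simp only [sum_add_distrib]
  congr 1
  rw [sum_comm]
  refine Eq.trans ?_ sum_comm
  apply sum_congr rfl
  intro i _
  exact Fintype.sum_equiv (Equiv.addRight (Pi.single i 1 : TV N d)) _ _ (fun x => by simp)

lemma chi_hasDerivAt {N d : ℕ} [NeZero N] (p : ℝ) : HasDerivAt (chi N d)
    (∑ e : TE N d, Ex univ p (fun ω => (((T N d).cl univ (insert e ω) 0).card : ℝ)
      - (((T N d).cl univ (ω.erase e) 0).card : ℝ))) p :=
  Ex_hasDerivAt univ _ p

lemma one_le_chi {N d : ℕ} [NeZero N] {p : ℝ} (hp0 : 0 ≤ p) (hp1 : p ≤ 1) : 1 ≤ chi N d p := by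
  apply le_Ex hp0 hp1
  intro ω _
  have : (0 : TV N d) ∈ (T N d).cl univ ω 0 := LG.self_mem_cl (mem_univ _)
  have h2 : 1 ≤ ((T N d).cl univ ω 0).card := card_pos.mpr ⟨_, this⟩
  exact_mod_cast h2

lemma chi_deriv_le {N d : ℕ} [NeZero N] {p : ℝ} (hp0 : 0 ≤ p) (hp1 : p ≤ 1) :
    ∑ e : TE N d, Ex univ p (fun ω => (((T N d).cl univ (insert e ω) 0).card : ℝ)
      - (((T N d).cl univ (ω.erase e) 0).card : ℝ)) ≤ 2 * d * (chi N d p) ^ 2 := by
  have hχ : ∀ w, Ex univ p (fun ω => (((T N d).cl univ ω w).card : ℝ)) ≤ chi N d p := by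
    intro w
    have := bex_eq_bb (N := N) (d := d) w (univ : Finset (TV N d)).card p
    rw [chi_eq_bb, ← this]
    exact le_rfl
  set n := (univ : Finset (TV N d)).card with hn
  have h1 : ∀ e : TE N d, Ex univ p (fun ω => (((T N d).cl univ (insert e ω) 0).card : ℝ)
      - (((T N d).cl univ (ω.erase e) 0).card : ℝ))
      ≤ (tt N d p n ((T N d).s e) * chi N d p + tt N d p n ((T N d).t e) * chi N d p) := by
    intro e
    calc Ex univ p (fun ω => (((T N d).cl univ (insert e ω) 0).card : ℝ)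
        - (((T N d).cl univ (ω.erase e) 0).card : ℝ))
        ≤ Ex univ p (fun ω => (T N d).gup univ ((T N d).s e) ((T N d).t e)
            ((T N d).cl univ (ω.erase e) 0) ω + (T N d).gup univ ((T N d).t e) ((T N d).s e)
            ((T N d).cl univ (ω.erase e) 0) ω) := by
          apply Ex_mono hp0 hp1
          intro ω _
          have := LG.card_cl_insert_le (G := T N d) (S := univ) (ω := ω) (x := 0) (mem_univ _) e
          linarith
      _ ≤ _ := by
          rw [Ex_add]
          exact add_le_add (LG.Ex_gup_le hp0 hp1 hχ e _ _) (LG.Ex_gup_le hp0 hp1 hχ e _ _)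
  refine (sum_le_sum (fun e _ => h1 e)).trans (le_of_eq ?_)
  rw [sum_oriented (fun x _ => tt N d p n x * chi N d p)]
  unfold nbS
  simp only [sum_const, card_univ, Fintype.card_fin, nsmul_eq_mul]
  rw [← mul_sum, sum_add_distrib, ← sum_mul, ← bb_eq_sum, chi_eq_bb]
  ring

theorem chi_upper {N d : ℕ} [NeZero N] (hN : 3 ≤ N) {p q : ℝ} (hp0 : 0 ≤ p) (hpq : p ≤ q)
    (hq : q ≤ 1 / 2) : 1 / chi N d p - 1 / chi N d q ≤ 2 * d * (q - p) := by
  have _ := hN
  set f : ℝ → ℝ := fun s => 2 * d * s + (chi N d s)⁻¹ with hf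
  have hpos : ∀ s ∈ Set.Icc p q, 0 < chi N d s := fun s hs => by
    have := one_le_chi (N := N) (d := d) (hp0.trans hs.1) (hs.2.trans (hq.trans (by norm_num)))
    linarith
  have hder : ∀ s ∈ Set.Icc p q, HasDerivAt f (2 * d * 1 + -(∑ e : TE N d, Ex univ s (fun ω =>
      (((T N d).cl univ (insert e ω) 0).card : ℝ)
      - (((T N d).cl univ (ω.erase e) 0).card : ℝ))) / (chi N d s) ^ 2) s := by
    intro s hs
    have h1 := (hasDerivAt_id s).const_mul (2 * (d:ℝ))
    have h2 := (chi_hasDerivAt (N := N) (d := d) s).inv (hpos s hs).ne'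
    exact h1.add h2
  have hmono : MonotoneOn f (Set.Icc p q) := by
    apply monotoneOn_of_deriv_nonneg (convex_Icc p q)
    · intro s hs
      exact (hder s hs).continuousAt.continuousWithinAt
    · intro s hs
      rw [interior_Icc] at hs
      exact (hder s ⟨hs.1.le, hs.2.le⟩).differentiableAt.differentiableWithinAt
    · intro s hs
      rw [interior_Icc] at hs
      have hs' : s ∈ Set.Icc p q := ⟨hs.1.le, hs.2.le⟩
      rw [(hder s hs').deriv]
      have h1 := chi_deriv_le (N := N) (d := d) (hp0.trans hs.1.le)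
        (hs.2.le.trans (hq.trans (by norm_num)))
      have h2 := hpos s hs'
      have h3 : (0:ℝ) < (chi N d s) ^ 2 := by positivity
      rw [neg_div]
      have h4 := (div_le_iff₀ h3).mpr h1
      linarith
  have := hmono (Set.left_mem_Icc.mpr hpq) (Set.right_mem_Icc.mpr hpq) hpq
  rw [hf] at this
  simp only at this
  rw [one_div, one_div]
  linarith

lemma nbS_swap {N d : ℕ} [NeZero N] (p : ℝ) (k : ℕ) (f : TV N d → ℝ) (w : TV N d) :
    ∑ x, (T N d).tau univ p univ k w x * nbS f x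
      = nbS (fun x' => ∑ x, (T N d).tau univ p univ k x' x * f x) w := by
  have h1 : ∀ v : TV N d, ∑ x, (T N d).tau univ p univ k w x * f (x + v)
      = ∑ x, (T N d).tau univ p univ k (w + v) x * f x := by
    intro v
    refine Fintype.sum_equiv (Equiv.addRight v) _ _ (fun x => ?_)
    rw [Equiv.coe_addRight, tau_eq_tt, tau_eq_tt, add_sub_add_right_eq_sub]
  unfold nbS
  simp only [mul_sum]
  rw [sum_comm]
  apply sum_congr rfl
  intro i _
  simp only [mul_add, sum_add_distrib]
  rw [h1]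
  simp only [sub_eq_add_neg]
  rw [h1]

/-- lower bound for the derivative of the expected volume of a ball -/
lemma bb_deriv_ge {N d : ℕ} [NeZero N] (hN : 2 ≤ N) {p : ℝ} (hp0 : 0 ≤ p) (hp1 : p ≤ 1 / 2)
    (k : ℕ) :
    2 * d * (bb N d k p) ^ 2 - bb N d k p * ∑ w, (T N d).tau univ p univ k 0 w *
      nbS (fun x' => ∑ x, (T N d).tau univ p univ k x' x *
        ∑ a, (T N d).tau univ p univ k x a * (T N d).tau univ p univ (2 * k + 1) a w) w
    ≤ ∑ e : TE N d, Ex univ p (fun ω =>
      (((T N d).ball univ (insert e ω) 0 (2 * k + 1)).card : ℝ)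
      - (((T N d).ball univ (ω.erase e) 0 (2 * k + 1)).card : ℝ)) := by
  have hpp : p ≤ 1 := by linarith
  set b := bb N d k p with hb
  have hb0 : 0 ≤ b := LG.bex_nonneg hp0 hpp _ _ _
  set M : TV N d → TV N d → ℝ := fun x y => (T N d).tau univ p univ k x y with hM
  set M' : TV N d → TV N d → ℝ := fun x y => (T N d).tau univ p univ (2 * k + 1) x y with hM'
  have hM0 : ∀ x y, 0 ≤ M x y := fun x y => LG.tau_nonneg hp0 hpp _ _
  set H : TV N d → TV N d → ℝ := fun u v => b * M 0 u
    - b * ∑ w, M 0 w * M w u * ∑ a, M v a * M' a w with hH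
  have h1 : ∀ u v : TV N d, H u v ≤ Ex univ p (fun ω => (T N d).gdn univ u v k
      ((T N d).ball univ ω 0 k, (T N d).ball univ ω 0 (2 * k + 1)) ω) := by
    intro u v
    refine le_trans ?_ (LG.Ex_gdn_ge hp0 hp1 (fun w _ => bex_eq_bb w k p) (mem_univ v))
    rw [hH]
    simp only
    apply sub_le_sub_left
    apply mul_le_mul_of_nonneg_left _ hb0
    calc ∑ a, Pr univ p (fun ω => u ∈ (T N d).ball univ ω 0 k ∧
          a ∈ (T N d).ball univ ω 0 (2 * k + 1)) * (T N d).tau univ p univ k v a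
        ≤ ∑ a, (∑ w, M 0 w * M w u * M' w a) * M v a := by
          apply sum_le_sum
          intro a _
          apply mul_le_mul_of_nonneg_right _ (hM0 v a)
          exact LG.tree_graph (T_loopless hN) hp0 hp1 0 u a
      _ = ∑ w, M 0 w * M w u * ∑ a, M v a * M' a w := by
          simp only [sum_mul, mul_sum]
          rw [sum_comm]
          apply sum_congr rfl
          intro w _
          apply sum_congr rfl
          intro a _
          rw [show M' w a = M' a w from LG.tau_comm w a]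
          ring
  have h2 : ∑ e : TE N d, (H ((T N d).s e) ((T N d).t e) + H ((T N d).t e) ((T N d).s e))
      ≤ ∑ e : TE N d, Ex univ p (fun ω =>
      (((T N d).ball univ (insert e ω) 0 (2 * k + 1)).card : ℝ)
      - (((T N d).ball univ (ω.erase e) 0 (2 * k + 1)).card : ℝ)) := by
    apply sum_le_sum
    intro e _
    refine le_trans (add_le_add (h1 _ _) (h1 _ _)) ?_
    rw [← Ex_add]
    apply Ex_mono hp0 hpp
    intro ω _
    exact LG.gdn_le e k
  refine le_trans (le_of_eq ?_) h2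
  rw [sum_oriented H]
  have h3 : ∀ x, nbS (H x) x = 2 * d * b * M 0 x
      - b * ∑ w, M 0 w * (M w x * nbS (fun v => ∑ a, M v a * M' a w) x) := by
    intro x
    have h4 : ∀ v, H x v = b * M 0 x - b * ∑ w, M 0 w * (M w x * ∑ a, M v a * M' a w) := by
      intro v
      rw [hH]
      simp only [mul_assoc]
    unfold nbS
    simp only [h4]
    have h5 : ∀ i : Fin d, (b * M 0 x - b * ∑ w, M 0 w * (M w x * ∑ a, M (x + Pi.single i 1) a
        * M' a w)) + (b * M 0 x - b * ∑ w, M 0 w * (M w x * ∑ a, M (x - Pi.single i 1) a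
        * M' a w)) = 2 * (b * M 0 x) - b * ∑ w, M 0 w * (M w x * (∑ a, M (x + Pi.single i 1) a
        * M' a w + ∑ a, M (x - Pi.single i 1) a * M' a w)) := by
      intro i
      simp only [mul_add, sum_add_distrib]
      ring
    simp only [h5]
    rw [sum_sub_distrib, sum_const, card_univ, Fintype.card_fin, nsmul_eq_mul, ← mul_sum,
      sum_comm]
    have h6 : ∀ w, ∑ i : Fin d, M 0 w * (M w x * (∑ a, M (x + Pi.single i 1) a
        * M' a w + ∑ a, M (x - Pi.single i 1) a * M' a w))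
        = M 0 w * (M w x * ∑ i : Fin d, (∑ a, M (x + Pi.single i 1) a
        * M' a w + ∑ a, M (x - Pi.single i 1) a * M' a w)) := by
      intro w
      rw [← mul_sum, ← mul_sum]
    simp only [h6]
    ring
  simp only [h3]
  rw [sum_sub_distrib, ← mul_sum, ← mul_sum, sum_comm]
  have h7 : ∑ x, M 0 x = b := (LG.bex_eq_sum (0 : TV N d)).symm
  rw [h7]
  have h8 : ∀ w, ∑ x, M 0 w * (M w x * nbS (fun v => ∑ a, M v a * M' a w) x)
      = M 0 w * nbS (fun x' => ∑ x, M x' x * ∑ a, M x a * M' a w) w := by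
    intro w
    rw [← mul_sum, nbS_swap]
  simp only [h8]
  ring

lemma bb_nonneg {N d : ℕ} [NeZero N] {p : ℝ} (hp0 : 0 ≤ p) (hp1 : p ≤ 1) (k : ℕ) :
    0 ≤ bb N d k p := LG.bex_nonneg hp0 hp1 _ _ _

lemma bb_mono_k {N d : ℕ} [NeZero N] {p : ℝ} (hp0 : 0 ≤ p) (hp1 : p ≤ 1) {i j : ℕ} (h : i ≤ j) :
    bb N d i p ≤ bb N d j p := LG.bex_mono hp0 hp1 (Subset.refl _) h _

lemma bb_mono_p {N d : ℕ} [NeZero N] {p q : ℝ} (hp0 : 0 ≤ p) (hpq : p ≤ q) (hq1 : q ≤ 1) (k : ℕ) :
    bb N d k p ≤ bb N d k q := LG.bex_mono_p hp0 hpq hq1 _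

/-- the derivative of the volume of balls is at least `(2 d - C) b_k ^ 2` -/
lemma bb_deriv_ge' (K : ℕ) : ∃ C : ℝ, 0 < C ∧ ∃ d0 : ℕ, ∀ d ≥ d0, ∀ (N : ℕ) [NeZero N],
    Even N → 4 ≤ N → ∀ (k : ℕ) (p : ℝ), 0 ≤ p → p ≤ 1 / d →
    bb N d (2 * k + 1) p ≤ (2 * (d : ℝ)) ^ K →
    (2 * d - C) * (bb N d k p) ^ 2 ≤ ∑ e : TE N d, Ex univ p (fun ω =>
      (((T N d).ball univ (insert e ω) 0 (2 * k + 1)).card : ℝ)
      - (((T N d).ball univ (ω.erase e) 0 (2 * k + 1)).card : ℝ)) := by
  obtain ⟨C, hC, d0, h0⟩ := prod_bound K 1 3 2 (by norm_num)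
  refine ⟨C + 1, by linarith, max d0 2, ?_⟩
  intro d hd N _ hE hN k p hp0 hp1 hb
  have hd0 : d0 ≤ d := (le_max_left _ _).trans hd
  have hd2 : 2 ≤ d := (le_max_right _ _).trans hd
  have hd2' : (2:ℝ) ≤ d := by exact_mod_cast hd2
  have hdpos : (0:ℝ) < d := by linarith
  have hp2 : p ≤ 1 / 2 := by
    refine hp1.trans ?_
    rw [div_le_div_iff₀ hdpos (by norm_num)]
    linarith
  have hpp : p ≤ 1 := by linarith
  refine le_trans ?_ (bb_deriv_ge (by omega) hp0 hp2 k)
  set b := bb N d k p with hbdef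
  have hb0 : 0 ≤ b := bb_nonneg hp0 hpp k
  have hq : 2 * d * p ≤ 2 := by
    have : d * p ≤ 1 := by
      calc d * p ≤ d * (1 / d) := by gcongr
        _ = 1 := by field_simp
    linarith
  have hMs : ∀ j ≤ 2 * k + 1, OneStep 2 ((2 * (d : ℝ)) ^ K)
      (fun x y => (T N d).tau univ p univ j x y) := by
    intro j hj
    refine OneStep.mono hq le_rfl (tau_oneStep (by omega) (by omega) hp0 hpp univ j ?_)
    intro x
    rw [bex_eq_bb]
    exact (bb_mono_k hp0 hpp hj).trans hb
  set M : Matrix (TV N d) (TV N d) ℝ := fun x y => (T N d).tau univ p univ k x y with hM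
  set M' : Matrix (TV N d) (TV N d) ℝ := fun x y => (T N d).tau univ p univ (2 * k + 1) x y
    with hM'
  have hprod : ∀ x y : TV N d, x ≠ y →
      ∑ z, M x z * ∑ a, M z a * M' a y ≤ (C + 1) * (2 * (d:ℝ))⁻¹ := by
    intro x y hxy
    have h1 := h0 d hd0 N hE hN [M, M, M'] rfl (by
      intro f hf
      simp only [List.mem_cons, List.not_mem_nil, or_false] at hf
      rcases hf with rfl | rfl | rfl
      · exact hMs k (by omega)
      · exact hMs k (by omega)
      · exact hMs _ le_rfl) x y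
    have h2 : ([M, M, M'].prod) x y = ∑ z, M x z * ∑ a, M z a * M' a y := by
      simp only [List.prod_cons, List.prod_nil, mul_one, Matrix.mul_apply]
    rw [h2, if_neg hxy, zero_add, pow_one] at h1
    refine h1.trans ?_
    have h3 : (0:ℝ) ≤ (2 * (d:ℝ))⁻¹ := by positivity
    have h4 : (2 * (d:ℝ))⁻¹ ≤ 1 := by
      apply inv_le_one_of_one_le₀
      linarith
    have h5 : (2 * (d:ℝ))⁻¹ ^ (max 1 (nrm (y - x))) ≤ (2 * (d:ℝ))⁻¹ := by
      calc (2 * (d:ℝ))⁻¹ ^ (max 1 (nrm (y - x))) ≤ (2 * (d:ℝ))⁻¹ ^ 1 :=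
            pow_le_pow_of_le_one h3 h4 (le_max_left _ _)
        _ = _ := pow_one _
    nlinarith
  have hnb : ∀ w : TV N d, nbS (fun x' => ∑ x, M x' x * ∑ a, M x a * M' a w) w ≤ C + 1 := by
    intro w
    unfold nbS
    have h1 : ∀ i : Fin d, (∑ x, M (w + Pi.single i 1) x * ∑ a, M x a * M' a w)
        + (∑ x, M (w - Pi.single i 1) x * ∑ a, M x a * M' a w)
        ≤ 2 * ((C + 1) * (2 * (d:ℝ))⁻¹) := by
      intro i
      have hne := single_ne_zero (d := d) (show 2 ≤ N by omega) i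
      have h2 := hprod (w + Pi.single i 1) w (by simpa using hne)
      have h3 := hprod (w - Pi.single i 1) w (by simpa using hne)
      linarith
    refine (sum_le_sum (fun i _ => h1 i)).trans (le_of_eq ?_)
    rw [sum_const, card_univ, Fintype.card_fin, nsmul_eq_mul]
    field_simp
  have hsum : ∑ w, M 0 w * nbS (fun x' => ∑ x, M x' x * ∑ a, M x a * M' a w) w
      ≤ b * (C + 1) := by
    have h7 : ∑ x, M 0 x = b := (LG.bex_eq_sum (0 : TV N d)).symm
    rw [← h7, sum_mul]
    apply sum_le_sum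
    intro w _
    exact mul_le_mul_of_nonneg_left (hnb w) (LG.tau_nonneg hp0 hpp _ _)
  have h8 := mul_le_mul_of_nonneg_left hsum hb0
  calc (2 * d - (C + 1)) * b ^ 2 = 2 * d * b ^ 2 - b * (b * (C + 1)) := by ring
    _ ≤ _ := sub_le_sub_left h8 _

lemma bb_hasDerivAt {N d : ℕ} [NeZero N] (k : ℕ) (p : ℝ) : HasDerivAt (bb N d k)
    (∑ e : TE N d, Ex univ p (fun ω => (((T N d).ball univ (insert e ω) 0 k).card : ℝ)
      - (((T N d).ball univ (ω.erase e) 0 k).card : ℝ))) p :=
  Ex_hasDerivAt univ _ p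

theorem growth_step (K : ℕ) : ∃ d0 : ℕ, ∀ d ≥ d0, ∀ (N : ℕ) [NeZero N], Even N → 4 ≤ N →
    ∀ (k : ℕ) (p q : ℝ), 0 ≤ p → p ≤ q → q ≤ 1 / d →
    min ((2 * (d : ℝ)) ^ K) (d * (q - p) * (bb N d k p) ^ 2) ≤ bb N d (2 * k + 1) q := by
  obtain ⟨C, hC, d0, h0⟩ := bb_deriv_ge' K
  refine ⟨max d0 (max 2 ⌈C⌉₊), ?_⟩
  intro d hd N _ hE hN k p q hp0 hpq hq
  have hd0 : d0 ≤ d := (le_max_left _ _).trans hd
  have hd2 : 2 ≤ d := ((le_max_left _ _).trans (le_max_right _ _)).trans hd
  have hdC : C ≤ d := (Nat.le_ceil C).trans (by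
    exact_mod_cast ((le_max_right _ _).trans (le_max_right _ _)).trans hd)
  have hd2' : (2:ℝ) ≤ d := by exact_mod_cast hd2
  have hdpos : (0:ℝ) < d := by linarith
  have hq1 : q ≤ 1 := by
    refine hq.trans ?_
    rw [div_le_one hdpos]
    linarith
  by_cases hbig : (2 * (d : ℝ)) ^ K ≤ bb N d (2 * k + 1) q
  · exact min_le_of_left_le hbig
  · push Not at hbig
    apply min_le_of_right_le
    set b := bb N d k p with hb
    have hb0 : 0 ≤ b := bb_nonneg hp0 (hpq.trans hq1) k
    have hmvt : (d * b ^ 2) * (q - p) ≤ bb N d (2 * k + 1) q - bb N d (2 * k + 1) p := by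
      apply (convex_Icc p q).mul_sub_le_image_sub_of_le_deriv
        (f := bb N d (2 * k + 1)) (C := d * b ^ 2) ?_ ?_ ?_ p (Set.left_mem_Icc.mpr hpq) q
        (Set.right_mem_Icc.mpr hpq) hpq
      · intro s _
        exact (bb_hasDerivAt (2 * k + 1) s).continuousAt.continuousWithinAt
      · intro s _
        exact (bb_hasDerivAt (2 * k + 1) s).differentiableAt.differentiableWithinAt
      · intro s hs
        rw [interior_Icc] at hs
        rw [(bb_hasDerivAt (2 * k + 1) s).deriv]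
        have hs0 : 0 ≤ s := hp0.trans hs.1.le
        have hs1 : s ≤ 1 := hs.2.le.trans hq1
        have h1 := h0 d hd0 N hE hN k s hs0 (hs.2.le.trans hq)
          ((bb_mono_p hs0 hs.2.le hq1 _).trans hbig.le)
        refine le_trans ?_ h1
        have h2 : b ≤ bb N d k s := bb_mono_p hp0 hs.1.le hs1 k
        have h3 : b ^ 2 ≤ (bb N d k s) ^ 2 := by gcongr
        have h4 : 0 ≤ b ^ 2 := by positivity
        nlinarith
    have h5 : 0 ≤ bb N d (2 * k + 1) p := bb_nonneg hp0 (hpq.trans hq1) _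
    nlinarith

theorem chi_lower (K : ℕ) : ∃ C : ℝ, 0 < C ∧ ∃ d0 : ℕ, ∀ d ≥ d0, ∀ (N : ℕ) [NeZero N],
    Even N → 4 ≤ N → ∀ p q : ℝ, 0 ≤ p → p ≤ q → q ≤ 1 / d → chi N d q ≤ (2 * (d : ℝ)) ^ K →
    (2 * d - C) * (q - p) ≤ 1 / chi N d p - 1 / chi N d q := by
  obtain ⟨C, hC, d0, h0⟩ := bb_deriv_ge' K
  refine ⟨C, hC, max d0 1, ?_⟩
  intro d hd N _ hE hN p q hp0 hpq hq hchi
  have hd0 : d0 ≤ d := (le_max_left _ _).trans hd
  have hd1 : 1 ≤ d := (le_max_right _ _).trans hd
  have hd1' : (1:ℝ) ≤ d := by exact_mod_cast hd1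
  have hdpos : (0:ℝ) < d := by linarith
  have hq1 : q ≤ 1 := by
    refine hq.trans ?_
    rw [div_le_one hdpos]
    linarith
  set n := (univ : Finset (TV N d)).card with hn
  have hball : ∀ ω : Finset (TE N d), (T N d).ball univ ω 0 (2 * n + 1) = (T N d).cl univ ω 0 :=
    fun ω => LG.ball_eq_cl (by omega)
  have hbb : ∀ s, bb N d (2 * n + 1) s = chi N d s := by
    intro s
    apply Ex_congr
    intro ω _
    rw [hball]
  set f : ℝ → ℝ := fun s => -(2 * d - C) * s - (chi N d s)⁻¹ with hf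
  have hpos : ∀ s ∈ Set.Icc p q, 0 < chi N d s := fun s hs => by
    have := one_le_chi (N := N) (d := d) (hp0.trans hs.1) (hs.2.trans hq1)
    linarith
  have hder : ∀ s ∈ Set.Icc p q, HasDerivAt f (-(2 * d - C) * 1 - -(∑ e : TE N d, Ex univ s
      (fun ω => (((T N d).cl univ (insert e ω) 0).card : ℝ)
      - (((T N d).cl univ (ω.erase e) 0).card : ℝ))) / (chi N d s) ^ 2) s := by
    intro s hs
    have h1 := (hasDerivAt_id s).const_mul (-(2 * (d:ℝ) - C))
    have h2 := (chi_hasDerivAt (N := N) (d := d) s).inv (hpos s hs).ne'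
    exact h1.sub h2
  have hmono : MonotoneOn f (Set.Icc p q) := by
    apply monotoneOn_of_deriv_nonneg (convex_Icc p q)
    · intro s hs
      exact (hder s hs).continuousAt.continuousWithinAt
    · intro s hs
      rw [interior_Icc] at hs
      exact (hder s ⟨hs.1.le, hs.2.le⟩).differentiableAt.differentiableWithinAt
    · intro s hs
      rw [interior_Icc] at hs
      have hs' : s ∈ Set.Icc p q := ⟨hs.1.le, hs.2.le⟩
      rw [(hder s hs').deriv]
      have hs0 : 0 ≤ s := hp0.trans hs.1.le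
      have h1 := h0 d hd0 N hE hN n s hs0 (hs.2.le.trans hq) (by
        rw [hbb]
        refine le_trans ?_ hchi
        rw [chi_eq_bb, chi_eq_bb]
        exact bb_mono_p hs0 hs.2.le hq1 _)
      simp only [hball] at h1
      rw [← chi_eq_bb] at h1
      have h2 := hpos s hs'
      have h3 : (0:ℝ) < (chi N d s) ^ 2 := by positivity
      rw [neg_div]
      have h4 := (le_div_iff₀ h3).mpr h1
      linarith
  have := hmono (Set.left_mem_Icc.mpr hpq) (Set.right_mem_Icc.mpr hpq) hpq
  rw [hf] at this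
  simp only at this
  rw [one_div, one_div]
  linarith

theorem second_moment {N d : ℕ} [NeZero N] (hN : 2 ≤ N) {p : ℝ} (hp0 : 0 ≤ p) (hp1 : p ≤ 1 / 2)
    (k : ℕ) : Ex univ p (fun ω => (((T N d).ball univ ω 0 k).card : ℝ) ^ 2) ≤ (bb N d k p) ^ 3 :=
  LG.second_moment_gen (T_loopless hN) hp0 hp1 _ _ _ (fun w => bex_eq_bb w k p)

end DDA
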