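import Pool.Agent.DDA.Glue

/-!
# DDA: the hypercube `{0,1}^{2d}` is the torus `(ℤ/4)^d`
-/

open Finset MeasureTheory ProbabilityTheory

namespace DDA

/-- Gray code, first bit -/
def gr1 (a : ZMod 4) : Bool := decide (a = 2 ∨ a = 3)
/-- Gray code, second bit -/
def gr2 (a : ZMod 4) : Bool := decide (a = 1 ∨ a = 2)

lemma gr_inj : ∀ a b : ZMod 4, gr1 a = gr1 b → gr2 a = gr2 b → a = b := by decide

lemma gr_step : ∀ a : ZMod 4, (gr1 a = gr1 (a + 1) ∧ gr2 a ≠ gr2 (a + 1)) ∨
    (gr1 a ≠ gr1 (a + 1) ∧ gr2 a = gr2 (a + 1)) := by decide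

lemma gr_adj : ∀ a b : ZMod 4, ((gr1 a = gr1 b ∧ gr2 a ≠ gr2 b) ∨
    (gr1 a ≠ gr1 b ∧ gr2 a = gr2 b)) → b = a + 1 ∨ a = b + 1 := by decide

variable {d : ℕ}

/-- the Gray code on vertices -/
def phi (d : ℕ) (x : TV 4 d) : Fin (2 * d) → Bool := fun j =>
  if j.1 % 2 = 0 then gr1 (x ⟨j.1 / 2, by omega⟩) else gr2 (x ⟨j.1 / 2, by omega⟩)

lemma phi_even (x : TV 4 d) (k : Fin d) : phi d x ⟨2 * k.1, by omega⟩ = gr1 (x k) := by
  unfold phi
  have h : 2 * k.1 / 2 = k.1 := by omega
  have h2 : 2 * k.1 % 2 = 0 := by omega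
  simp only [h, h2, if_true]

lemma phi_odd (x : TV 4 d) (k : Fin d) : phi d x ⟨2 * k.1 + 1, by omega⟩ = gr2 (x k) := by
  unfold phi
  have h : (2 * k.1 + 1) / 2 = k.1 := by omega
  have h2 : ¬ ((2 * k.1 + 1) % 2 = 0) := by omega
  simp only [h, h2, if_false]

lemma fin_cases (j : Fin (2 * d)) : ∃ k : Fin d, j = ⟨2 * k.1, by omega⟩ ∨
    j = ⟨2 * k.1 + 1, by omega⟩ := by
  refine ⟨⟨j.1 / 2, by omega⟩, ?_⟩
  rcases Nat.even_or_odd' j.1 with ⟨c, hc | hc⟩
  · left
    apply Fin.ext
    simp only
    omega
  · right
    apply Fin.ext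
    simp only
    omega

lemma phi_inj : Function.Injective (phi d) := by
  intro x y h
  funext k
  apply gr_inj
  · rw [← phi_even, h, phi_even]
  · rw [← phi_odd, h, phi_odd]

lemma phi_bij : Function.Bijective (phi d) := by
  rw [Fintype.bijective_iff_injective_and_card]
  refine ⟨phi_inj, ?_⟩
  simp only [Fintype.card_pi, Finset.prod_const, Finset.card_univ, Fintype.card_fin,
    Fintype.card_bool, ZMod.card]
  rw [pow_mul]
  norm_num

lemma cube_adj_step (x : TV 4 d) (i : Fin d) :
    (cube (2 * d)).Adj (phi d x) (phi d (x + Pi.single i 1)) := by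
  show {j | phi d x j ≠ phi d (x + Pi.single i 1) j}.ncard = 1
  rw [Set.ncard_eq_one]
  have hne : ∀ k, k ≠ i → (x + Pi.single i 1 : TV 4 d) k = x k := by
    intro k hk
    rw [Pi.add_apply, Pi.single_eq_of_ne hk, add_zero]
  have heq : (x + Pi.single i 1 : TV 4 d) i = x i + 1 := by
    rw [Pi.add_apply, Pi.single_eq_same]
  rcases gr_step (x i) with ⟨h1, h2⟩ | ⟨h1, h2⟩
  · refine ⟨⟨2 * i.1 + 1, by omega⟩, ?_⟩
    ext j
    rw [Set.mem_ofPred_eq, Set.mem_singleton_iff]
    obtain ⟨k, rfl | rfl⟩ := fin_cases j
    · rw [phi_even, phi_even]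
      by_cases hk : k = i
      · subst hk
        rw [heq]
        refine ⟨fun h => absurd h1 h, fun h => ?_⟩
        have := congrArg Fin.val h
        simp only at this
        omega
      · rw [hne k hk]
        refine ⟨fun h => absurd rfl h, fun h => ?_⟩
        have := congrArg Fin.val h
        simp only at this
        omega
    · rw [phi_odd, phi_odd]
      by_cases hk : k = i
      · subst hk
        rw [heq]
        exact ⟨fun _ => rfl, fun _ => h2⟩
      · rw [hne k hk]
        refine ⟨fun h => absurd rfl h, fun h => ?_⟩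
        exfalso
        apply hk
        apply Fin.ext
        have := congrArg Fin.val h
        simp only at this
        omega
  · refine ⟨⟨2 * i.1, by omega⟩, ?_⟩
    ext j
    rw [Set.mem_ofPred_eq, Set.mem_singleton_iff]
    obtain ⟨k, rfl | rfl⟩ := fin_cases j
    · rw [phi_even, phi_even]
      by_cases hk : k = i
      · subst hk
        rw [heq]
        exact ⟨fun _ => rfl, fun _ => h1⟩
      · rw [hne k hk]
        refine ⟨fun h => absurd rfl h, fun h => ?_⟩
        exfalso
        apply hk
        apply Fin.ext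
        have := congrArg Fin.val h
        simp only at this
        omega
    · rw [phi_odd, phi_odd]
      by_cases hk : k = i
      · subst hk
        rw [heq]
        refine ⟨fun h => absurd h2 h, fun h => ?_⟩
        have := congrArg Fin.val h
        simp only at this
        omega
      · rw [hne k hk]
        refine ⟨fun h => absurd rfl h, fun h => ?_⟩
        have := congrArg Fin.val h
        simp only at this
        omega

lemma cube_adj_inv {x y : TV 4 d} (h : (cube (2 * d)).Adj (phi d x) (phi d y)) :
    ∃ i, y = x + Pi.single i 1 ∨ x = y + Pi.single i 1 := by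
  have h1 : {j | phi d x j ≠ phi d y j}.ncard = 1 := h
  rw [Set.ncard_eq_one] at h1
  obtain ⟨j0, hj0⟩ := h1
  have hj : ∀ j, phi d x j ≠ phi d y j ↔ j = j0 := by
    intro j
    have := congrArg (fun s => j ∈ s) hj0
    simp only [Set.mem_ofPred_eq, Set.mem_singleton_iff, eq_iff_iff] at this
    exact this
  obtain ⟨i, hi⟩ := fin_cases j0
  have hother : ∀ k, k ≠ i → x k = y k := by
    intro k hk
    apply gr_inj
    · rw [← phi_even, ← phi_even]
      by_contra hcon
      have h2 := (hj _).1 hcon
      rcases hi with hi | hi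
      · rw [hi] at h2
        apply hk
        apply Fin.ext
        have := congrArg Fin.val h2
        simp only at this
        omega
      · rw [hi] at h2
        have := congrArg Fin.val h2
        simp only at this
        omega
    · rw [← phi_odd, ← phi_odd]
      by_contra hcon
      have h2 := (hj _).1 hcon
      rcases hi with hi | hi
      · rw [hi] at h2
        have := congrArg Fin.val h2
        simp only at this
        omega
      · rw [hi] at h2
        apply hk
        apply Fin.ext
        have := congrArg Fin.val h2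
        simp only at this
        omega
  have hki : y i = x i + 1 ∨ x i = y i + 1 := by
    apply gr_adj
    have he := hj ⟨2 * i.1, by omega⟩
    have ho := hj ⟨2 * i.1 + 1, by omega⟩
    rw [phi_even, phi_even] at he
    rw [phi_odd, phi_odd] at ho
    rcases hi with hi | hi
    · right
      refine ⟨he.2 hi.symm, ?_⟩
      by_contra hcon
      have h2 := ho.1 hcon
      rw [hi] at h2
      have := congrArg Fin.val h2
      simp only at this
      omega
    · left
      refine ⟨?_, ho.2 hi.symm⟩
      by_contra hcon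
      have h2 := he.1 hcon
      rw [hi] at h2
      have := congrArg Fin.val h2
      simp only at this
      omega
  refine ⟨i, ?_⟩
  rcases hki with hki | hki
  · left
    funext k
    rw [Pi.add_apply]
    by_cases hk : k = i
    · subst hk
      rw [Pi.single_eq_same, hki]
    · rw [Pi.single_eq_of_ne hk, add_zero, hother k hk]
  · right
    funext k
    rw [Pi.add_apply]
    by_cases hk : k = i
    · subst hk
      rw [Pi.single_eq_same, hki]
    · rw [Pi.single_eq_of_ne hk, add_zero, hother k hk]

/-- the edge of the cube of an edge of the torus -/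
def psq (e : TE 4 d) : Sym2 (Fin (2 * d) → Bool) := s(phi d e.1, phi d (e.1 + Pi.single e.2 1))

lemma psq_mem (e : TE 4 d) : psq e ∈ (cube (2 * d)).edgeSet := by
  unfold psq
  rw [SimpleGraph.mem_edgeSet]
  exact cube_adj_step _ _

lemma psq_inj : Function.Injective (psq (d := d)) := by
  intro e f h
  unfold psq at h
  rw [Sym2.eq_iff] at h
  rcases h with ⟨h1, h2⟩ | ⟨h1, h2⟩
  · have h3 : e.1 = f.1 := phi_inj h1
    have h4 := phi_inj h2
    rw [h3] at h4
    have h5 := add_left_cancel h4
    have h6 : e.2 = f.2 := by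
      by_contra hne
      have := congrFun h5 e.2
      rw [Pi.single_eq_same, Pi.single_eq_of_ne hne] at this
      exact absurd this (by decide)
    exact Prod.ext h3 h6
  · exfalso
    have h3 := phi_inj h1
    have h4 := phi_inj h2
    rw [h3, add_assoc] at h4
    have h5 : (Pi.single f.2 1 + Pi.single e.2 1 : TV 4 d) = 0 :=
      add_left_cancel (a := f.1) (by rw [add_zero]; exact h4)
    have h6 := congrFun h5 f.2
    rw [Pi.add_apply, Pi.single_eq_same, Pi.zero_apply] at h6
    by_cases hef : f.2 = e.2
    · rw [hef, Pi.single_eq_same] at h6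
      exact absurd h6 (by decide)
    · rw [Pi.single_eq_of_ne hef] at h6
      exact absurd h6 (by decide)

open Classical in
/-- the torus configuration -/
noncomputable def wQ (d : ℕ) (ω : Set (Sym2 (Fin (2 * d) → Bool))) : Finset (TE 4 d) :=
  (univ : Finset (TE 4 d)).filter (fun e => psq e ∈ ω)

lemma mem_wQ {ω : Set (Sym2 (Fin (2 * d) → Bool))} {e : TE 4 d} : e ∈ wQ d ω ↔ psq e ∈ ω := by
  classical
  unfold wQ
  rw [mem_filter]
  simp

lemma cluster_cube {ω : Set (Sym2 (Fin (2 * d) → Bool))} (hω : ω ⊆ (cube (2 * d)).edgeSet)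
    (y : TV 4 d) :
    cluster ω (phi d y) = phi d '' ((T 4 d).cl univ (wQ d ω) y : Set (TV 4 d)) := by
  ext u
  obtain ⟨w, rfl⟩ := phi_bij.2 u
  rw [phi_inj.mem_set_image, Finset.mem_coe]
  constructor
  · intro h
    have hr : (SimpleGraph.fromEdgeSet ω).Reachable (phi d y) (phi d w) := h
    rw [SimpleGraph.reachable_iff_reflTransGen] at hr
    have key : ∀ u, Relation.ReflTransGen (SimpleGraph.fromEdgeSet ω).Adj (phi d y) u →
        ∀ w, phi d w = u → w ∈ (T 4 d).cl univ (wQ d ω) y := by
      intro u hu
      induction hu with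
      | refl =>
        intro w hw
        rw [phi_inj hw]
        exact LG.self_mem_cl (mem_univ _)
      | @tail z v hz hzv ih =>
        intro w hw
        obtain ⟨z', rfl⟩ := phi_bij.2 z
        have h1 := ih z' rfl
        rw [SimpleGraph.fromEdgeSet_adj] at hzv
        subst hw
        have hmem := hzv.1
        have hadj : (cube (2 * d)).Adj (phi d z') (phi d w) :=
          (SimpleGraph.mem_edgeSet _).1 (hω hmem)
        obtain ⟨i, hi | hi⟩ := cube_adj_inv hadj
        · refine LG.mem_cl_step h1 ⟨(z', i), ?_, ?_⟩ (mem_univ _)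
          · rw [mem_wQ]
            show s(phi d z', phi d (z' + Pi.single i 1)) ∈ ω
            rw [← hi]
            exact hmem
          · rw [T_J]
            exact Or.inl ⟨rfl, hi⟩
        · refine LG.mem_cl_step h1 ⟨(w, i), ?_, ?_⟩ (mem_univ _)
          · rw [mem_wQ]
            show s(phi d w, phi d (w + Pi.single i 1)) ∈ ω
            rw [← hi, Sym2.eq_swap]
            exact hmem
          · rw [T_J]
            refine Or.inr ⟨rfl, ?_⟩
            rw [hi, add_sub_cancel_right]
    exact key _ hr w rfl
  · intro h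
    obtain ⟨k, hk⟩ := LG.mem_cl_iff.1 h
    clear h
    induction k generalizing w with
    | zero =>
      obtain ⟨_, rfl⟩ := LG.mem_ball_zero.1 hk
      exact SimpleGraph.Reachable.refl _
    | succ k ih =>
      rcases LG.mem_ball_succ.1 hk with h | ⟨_, z, hz, e, he, hj⟩
      · exact ih w h
      · have h1 := ih z hz
        rw [mem_wQ] at he
        have h3 : (SimpleGraph.fromEdgeSet ω).Adj (phi d e.1) (phi d (e.1 + Pi.single e.2 1)) := by
          rw [SimpleGraph.fromEdgeSet_adj]
          exact ⟨he, (cube_adj_step _ _).ne⟩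
        have h4 : (SimpleGraph.fromEdgeSet ω).Adj (phi d z) (phi d w) := by
          rcases T_J.1 hj with ⟨a, b⟩ | ⟨a, b⟩
          · rw [b, ← a]
            exact h3
          · have hz' : z = e.1 + Pi.single e.2 1 := by rw [a, b, sub_add_cancel]
            rw [hz', ← a]
            exact h3.symm
        exact SimpleGraph.Reachable.trans h1 h4.reachable

open Classical in
/-- integrals of functions of finitely many edges -/
theorem integral_setBer {ι κ : Type*} [DecidableEq κ] (u : Set ι) (p : unitInterval) (F : Finset κ)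
    (ψ : κ → ι) (hψ : Set.InjOn ψ F) (hF : ∀ e ∈ F, ψ e ∈ u) (h : Finset κ → ℝ) :
    ∫ ω, h (F.filter (fun e => ψ e ∈ ω)) ∂(setBernoulli u p) = Ex F p h := by
  have h1 : ∀ ω : Set ι, h (F.filter (fun e => ψ e ∈ ω))
      = ∑ s ∈ F.powerset, Set.indicator {ω : Set ι | F.filter (fun e => ψ e ∈ ω) = s}
        (fun _ => h s) ω := by
    intro ω
    rw [Finset.sum_eq_single (F.filter (fun e => ψ e ∈ ω))]
    · rw [Set.indicator_of_mem]
      exact rfl
    · intro s _ hs
      rw [Set.indicator_of_notMem]
      exact fun h => hs h.symm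
    · intro h
      exact absurd (mem_powerset.2 (filter_subset _ _)) h
  have hm : ∀ s, MeasurableSet {ω : Set ι | F.filter (fun e => ψ e ∈ ω) = s} := fun s =>
    (setBer_event u p F ψ hψ hF (fun t => t = s)).1
  simp_rw [h1]
  rw [integral_finsetSum]
  · have h2 : ∀ s ∈ F.powerset, ∫ ω, Set.indicator {ω : Set ι | F.filter (fun e => ψ e ∈ ω) = s}
        (fun _ => h s) ω ∂(setBernoulli u p) = (p : ℝ) ^ s.card * (1 - (p : ℝ)) ^ (F \ s).card * h s := by
      intro s hs
      rw [integral_indicator_const _ (hm s)]
      have h3 := (setBer_event u p F ψ hψ hF (fun t => t = s)).2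
      rw [h3]
      unfold Pr Ex
      rw [Finset.sum_eq_single s]
      · simp
      · intro t _ ht
        simp [ht]
      · intro h
        exact absurd hs h
    rw [Finset.sum_congr rfl h2]
    rfl
  · intro s _
    exact (integrable_const _).indicator (hm s)

theorem meanCluster_cube (d : ℕ) (p : unitInterval) (x : Fin (2 * d) → Bool) :
    meanCluster (cube (2 * d)) x p = chi 4 d p := by
  classical
  obtain ⟨y, rfl⟩ := phi_bij.2 x
  have h1 : meanCluster (cube (2 * d)) (phi d y) p
      = ∫ ω, (fun s => (((T 4 d).cl univ s y).card : ℝ))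
        ((univ : Finset (TE 4 d)).filter (fun e => psq e ∈ ω))
        ∂(setBernoulli (cube (2 * d)).edgeSet p) := by
    unfold meanCluster
    apply integral_congr_ae
    have hc : ∀ᵐ ω ∂(setBernoulli (cube (2 * d)).edgeSet p), ω ⊆ (cube (2 * d)).edgeSet :=
      setBernoulli_ae_subset
    filter_upwards [hc] with ω hω
    rw [cluster_cube hω, Set.ncard_image_of_injective _ phi_inj, Set.ncard_coe_finset]
    unfold wQ
    norm_cast
  have h2 := integral_setBer (cube (2 * d)).edgeSet p (univ : Finset (TE 4 d)) psq psq_inj.injOn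
    (fun e _ => psq_mem e) (fun s => (((T 4 d).cl univ s y).card : ℝ))
  rw [h1]
  have h3 : ∫ ω, (fun s => (((T 4 d).cl univ s y).card : ℝ))
        ((univ : Finset (TE 4 d)).filter (fun e => psq e ∈ ω))
        ∂(setBernoulli (cube (2 * d)).edgeSet p)
      = Ex univ p (fun s => (((T 4 d).cl univ s y).card : ℝ)) := by
    rw [← h2]
  rw [h3]
  have h4 := bex_eq_bb (N := 4) (d := d) y (univ : Finset (TV 4 d)).card p
  rw [chi_eq_bb, ← h4]
  rfl

end DDA
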