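import Pool.Agent.DDA.Glue
import Pool.Agent.DDA.Defs2

/-!
# DDA: infinite volume percolation on `ℤ^d` versus boxes in the torus
-/

open Finset MeasureTheory ProbabilityTheory

namespace DDA

set_option linter.unusedVariables false

variable {N d : ℕ}

/-- lift of a point of the torus -/
def lft (x : TV N d) : Fin d → ℤ := fun i => (x i).valMinAbs

/-- reduction of a point of `ℤ^d` -/
def cst (N : ℕ) (y : Fin d → ℤ) : TV N d := fun i => (y i : ZMod N)

/-- the edge of `ℤ^d` of an edge of the torus -/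
def psi (e : TE N d) : Sym2 (Fin d → ℤ) := s(lft e.1, lft e.1 + Pi.single e.2 1)

lemma cst_lft (x : TV N d) : cst N (lft x) = x := by
  funext i
  simp [cst, lft, ZMod.coe_valMinAbs]

lemma lft_inj : Function.Injective (lft (N := N) (d := d)) := fun x y h => by
  rw [← cst_lft x, h, cst_lft]

lemma lft_cst {y : Fin d → ℤ} {n : ℕ} (hN : 2 * n + 3 ≤ N) (hy : ∀ i, (y i).natAbs ≤ n + 1) :
    lft (cst N y) = y := by
  have : NeZero N := ⟨by omega⟩
  funext i
  simp only [lft, cst]
  rw [ZMod.valMinAbs_spec]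
  have := hy i
  refine ⟨rfl, ?_, ?_⟩
  · omega
  · omega

lemma lft_zero : lft (0 : TV N d) = 0 := by
  funext i
  simp [lft]

lemma cst_zero : cst N (0 : Fin d → ℤ) = 0 := by
  funext i
  simp [cst]

lemma cst_add (x y : Fin d → ℤ) : cst N (x + y) = cst N x + cst N y := by
  funext i
  simp [cst]

lemma cst_single (i : Fin d) : cst N (Pi.single i 1 : Fin d → ℤ) = Pi.single i 1 := by
  funext j
  by_cases h : j = i
  · subst h; simp [cst]
  · simp [cst, Pi.single_eq_of_ne h]

lemma mem_bx [NeZero N] {n : ℕ} {x : TV N d} : x ∈ bx N d n ↔ ∀ i, (lft x i).natAbs ≤ n := by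
  simp [bx, lft]

/-- the lift commutes with steps inside the box -/
lemma lft_step [NeZero N] {n : ℕ} (hN : 2 * n + 3 ≤ N) {x : TV N d} {i : Fin d}
    (hx : x ∈ bx N d n) : lft (x + Pi.single i 1) = lft x + Pi.single i 1 := by
  rw [mem_bx] at hx
  have h1 : x + Pi.single i 1 = cst N (lft x + Pi.single i 1) := by
    rw [cst_add, cst_lft, cst_single]
  rw [h1]
  apply lft_cst hN
  intro j
  have := hx j
  simp only [Pi.add_apply]
  by_cases h : j = i
  · subst h
    rw [Pi.single_eq_same]
    omega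
  · rw [Pi.single_eq_of_ne h]
    omega

lemma single_int_ne (i j : Fin d) : (Pi.single i 1 + Pi.single j 1 : Fin d → ℤ) ≠ 0 := by
  intro h
  have := congrFun h i
  simp only [Pi.add_apply, Pi.single_eq_same, Pi.zero_apply] at this
  by_cases hij : i = j
  · subst hij
    simp at this
  · rw [Pi.single_eq_of_ne hij] at this
    simp at this

lemma psi_inj : Function.Injective (psi (N := N) (d := d)) := by
  intro e f h
  unfold psi at h
  rw [Sym2.eq_iff] at h
  rcases h with ⟨h1, h2⟩ | ⟨h1, h2⟩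
  · have h3 : e.1 = f.1 := lft_inj h1
    rw [h1] at h2
    have h4 := add_left_cancel h2
    have h5 : e.2 = f.2 := by
      by_contra hne
      have := congrFun h4 e.2
      rw [Pi.single_eq_same, Pi.single_eq_of_ne hne] at this
      exact one_ne_zero this
    exact Prod.ext h3 h5
  · exfalso
    rw [h1, add_assoc] at h2
    have h3 : (Pi.single f.2 1 + Pi.single e.2 1 : Fin d → ℤ) = 0 := by
      have := add_left_cancel (a := lft f.1) (b := Pi.single f.2 1 + Pi.single e.2 1) (c := 0)
        (by rw [add_zero]; exact h2)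
      exact this
    exact single_int_ne _ _ h3

lemma Zd_adj_single (x : Fin d → ℤ) (i : Fin d) : (Zd d).Adj x (x + Pi.single i 1) := by
  show ∑ j, |x j - (x + Pi.single i 1 : Fin d → ℤ) j| = 1
  rw [Finset.sum_eq_single i]
  · simp
  · intro j _ hj
    simp [Pi.single_eq_of_ne hj]
  · simp

lemma psi_mem (e : TE N d) : psi e ∈ (Zd d).edgeSet := by
  unfold psi
  rw [SimpleGraph.mem_edgeSet]
  exact Zd_adj_single _ _

/-- neighbours in `ℤ^d` -/
lemma Zd_adj_iff {x y : Fin d → ℤ} (h : (Zd d).Adj x y) :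
    ∃ i, y = x + Pi.single i 1 ∨ x = y + Pi.single i 1 := by
  have h1 : ∑ i, |x i - y i| = 1 := h
  have h2 : ∃ i, x i ≠ y i := by
    by_contra hcon
    push Not at hcon
    rw [Finset.sum_eq_zero (fun i _ => by rw [hcon i]; simp)] at h1
    exact zero_ne_one h1
  obtain ⟨i, hi⟩ := h2
  have h3 : 1 ≤ |x i - y i| := Int.one_le_abs (sub_ne_zero.2 hi)
  have h4 : ∑ j ∈ univ.erase i, |x j - y j| + |x i - y i| = 1 := by
    rw [Finset.sum_erase_add _ _ (mem_univ i)]
    exact h1
  have h5 : 0 ≤ ∑ j ∈ univ.erase i, |x j - y j| := Finset.sum_nonneg (fun j _ => abs_nonneg _)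
  have h6 : |x i - y i| = 1 := by omega
  have h7 : ∑ j ∈ univ.erase i, |x j - y j| = 0 := by omega
  have h8 : ∀ j, j ≠ i → x j = y j := by
    intro j hj
    have := (Finset.sum_eq_zero_iff_of_nonneg (fun j _ => abs_nonneg _)).1 h7 j
      (mem_erase.2 ⟨hj, mem_univ _⟩)
    exact sub_eq_zero.1 (abs_eq_zero.1 this)
  refine ⟨i, ?_⟩
  rcases (abs_eq (zero_le_one)).1 h6 with h | h
  · right
    funext j
    by_cases hj : j = i
    · subst hj
      simp only [Pi.add_apply, Pi.single_eq_same]
      omega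
    · simp only [Pi.add_apply, Pi.single_eq_of_ne hj, add_zero]
      exact h8 j hj
  · left
    funext j
    by_cases hj : j = i
    · subst hj
      simp only [Pi.add_apply, Pi.single_eq_same]
      omega
    · simp only [Pi.add_apply, Pi.single_eq_of_ne hj, add_zero]
      exact (h8 j hj).symm

/-- the edges of the box -/
def Fb (N d n : ℕ) [NeZero N] : Finset (TE N d) := (T N d).ins (bx N d n) univ

open Classical in
/-- the torus configuration of a configuration in `ℤ^d` -/
noncomputable def wT (N d n : ℕ) [NeZero N] (ω : Set (Sym2 (Fin d → ℤ))) : Finset (TE N d) :=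
  (Fb N d n).filter (fun e => psi e ∈ ω)

/-- the event in the torus -/
def Av (N d n : ℕ) [NeZero N] (ω : Finset (TE N d)) : Prop :=
  ∃ y ∈ (T N d).cl (bx N d n) ω 0, ∃ i, (y i).valMinAbs.natAbs = n

lemma mem_Fb [NeZero N] {n : ℕ} {e : TE N d} :
    e ∈ Fb N d n ↔ e.1 ∈ bx N d n ∧ e.1 + Pi.single e.2 1 ∈ bx N d n := by
  unfold Fb
  rw [LG.mem_ins]
  simp [T]

lemma mem_wT [NeZero N] {n : ℕ} {ω : Set (Sym2 (Fin d → ℤ))} {e : TE N d} :
    e ∈ wT N d n ω ↔ e ∈ Fb N d n ∧ psi e ∈ ω := by
  classical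
  unfold wT
  rw [mem_filter]

lemma zero_mem_bx [NeZero N] (n : ℕ) : (0 : TV N d) ∈ bx N d n := by
  rw [mem_bx, lft_zero]
  simp

/-- probability of the box event -/
theorem event_box [NeZero N] (n : ℕ) (p : unitInterval) :
    MeasurableSet {ω : Set (Sym2 (Fin d → ℤ)) | Av N d n (wT N d n ω)} ∧
    (setBernoulli (Zd d).edgeSet p).real {ω | Av N d n (wT N d n ω)} = thT N d n p := by
  classical
  obtain ⟨h1, h2⟩ := setBer_event (Zd d).edgeSet p (Fb N d n) psi psi_inj.injOn
    (fun e _ => psi_mem e) (Av N d n)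
  have h3 : {ω : Set (Sym2 (Fin d → ℤ)) | Av N d n (wT N d n ω)}
      = {ω | Av N d n ((Fb N d n).filter (fun e => psi e ∈ ω))} := by
    ext ω
    simp only [Set.mem_ofPred_eq, wT]
  refine ⟨h3 ▸ ?_, ?_⟩
  · convert h1
  · rw [h3]
    have h4 : (setBernoulli (Zd d).edgeSet p).real
        {ω | Av N d n ((Fb N d n).filter (fun e => psi e ∈ ω))} = Pr (Fb N d n) p (Av N d n) := by
      rw [← h2]
    rw [h4]
    unfold thT Pr
    have h5 := Ex_restrict (F := (univ : Finset (TE N d))) (A := Fb N d n) (p := p)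
      (f := fun ω => if Av N d n ω then (1 : ℝ) else 0) (fun ω hω => by
        have : Av N d n (ω ∩ Fb N d n) ↔ Av N d n ω := by
          unfold Av Fb
          rw [LG.cl_ins (subset_univ _)]
        simp only [this])
    rw [univ_inter] at h5
    convert h5.symm
    exact Iff.rfl

/-- if no box event occurs the cluster stays inside the box -/
lemma reach_box [NeZero N] {n : ℕ} (hN : 2 * n + 3 ≤ N) {ω : Set (Sym2 (Fin d → ℤ))}
    (hω : ω ⊆ (Zd d).edgeSet) (hA : ¬ Av N d n (wT N d n ω)) {y : Fin d → ℤ}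
    (hy : y ∈ cluster ω 0) :
    (∀ i, (y i).natAbs ≤ n) ∧ cst N y ∈ (T N d).cl (bx N d n) (wT N d n ω) 0 := by
  have hr : (SimpleGraph.fromEdgeSet ω).Reachable 0 y := hy
  rw [SimpleGraph.reachable_iff_reflTransGen] at hr
  induction hr with
  | refl =>
    refine ⟨by simp, ?_⟩
    rw [cst_zero]
    exact LG.self_mem_cl (zero_mem_bx n)
  | @tail z w hz hzw ih =>
    have hz' : z ∈ cluster ω 0 := (SimpleGraph.reachable_iff_reflTransGen _ _).2 hz
    obtain ⟨hzn, hzc⟩ := ih hz'
    have hzl : lft (cst N z) = z := lft_cst hN (fun i => (hzn i).trans (Nat.le_succ n))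
    have hzlt : ∀ i, (z i).natAbs < n := by
      intro i
      rcases lt_or_eq_of_le (hzn i) with h | h
      · exact h
      · exfalso
        apply hA
        refine ⟨cst N z, hzc, i, ?_⟩
        have : (cst N z i).valMinAbs = z i := congrFun hzl i
        rw [this, h]
    rw [SimpleGraph.fromEdgeSet_adj] at hzw
    have hzwω : s(z, w) ∈ ω := hzw.1
    have hadj : (Zd d).Adj z w := (SimpleGraph.mem_edgeSet _).1 (hω hzwω)
    obtain ⟨i, hi⟩ := Zd_adj_iff hadj
    have hwn : ∀ j, (w j).natAbs ≤ n := by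
      intro j
      have h1 := hzlt j
      rcases hi with hi | hi
      · rw [hi, Pi.add_apply]
        by_cases hj : j = i
        · subst hj
          rw [Pi.single_eq_same]
          omega
        · rw [Pi.single_eq_of_ne hj]
          omega
      · have h2 : z j = w j + (Pi.single i 1 : Fin d → ℤ) j := by rw [hi, Pi.add_apply]
        by_cases hj : j = i
        · subst hj
          rw [Pi.single_eq_same] at h2
          omega
        · rw [Pi.single_eq_of_ne hj] at h2
          omega
    have hwl : lft (cst N w) = w := lft_cst hN (fun i => (hwn i).trans (Nat.le_succ n))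
    refine ⟨hwn, ?_⟩
    have hwb : cst N w ∈ bx N d n := by rw [mem_bx, hwl]; exact hwn
    have hzb : cst N z ∈ bx N d n := by rw [mem_bx, hzl]; exact hzn
    refine LG.mem_cl_step hzc ?_ hwb
    rcases hi with hi | hi
    · have hcw : cst N w = cst N z + Pi.single i 1 := by rw [hi, cst_add, cst_single]
      refine ⟨(cst N z, i), ?_, ?_⟩
      · rw [mem_wT, mem_Fb]
        refine ⟨⟨hzb, ?_⟩, ?_⟩
        · show cst N z + Pi.single i 1 ∈ bx N d n
          rw [← hcw]
          exact hwb
        · show s(lft (cst N z), lft (cst N z) + Pi.single i 1) ∈ ω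
          rw [hzl, ← hi]
          exact hzwω
      · rw [T_J]
        exact Or.inl ⟨rfl, hcw⟩
    · have hcz : cst N z = cst N w + Pi.single i 1 := by rw [hi, cst_add, cst_single]
      refine ⟨(cst N w, i), ?_, ?_⟩
      · rw [mem_wT, mem_Fb]
        refine ⟨⟨hwb, ?_⟩, ?_⟩
        · show cst N w + Pi.single i 1 ∈ bx N d n
          rw [← hcz]
          exact hzb
        · show s(lft (cst N w), lft (cst N w) + Pi.single i 1) ∈ ω
          rw [hwl, ← hi, Sym2.eq_swap]
          exact hzwω
      · rw [T_J]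
        refine Or.inr ⟨rfl, ?_⟩
        rw [hcz, add_sub_cancel_right]

/-- the lift of a cluster in the box is contained in the infinite volume cluster -/
lemma lift_cluster [NeZero N] {n : ℕ} (hN : 2 * n + 3 ≤ N) {ω : Set (Sym2 (Fin d → ℤ))}
    {y : TV N d} (hy : y ∈ (T N d).cl (bx N d n) (wT N d n ω) 0) : lft y ∈ cluster ω 0 := by
  obtain ⟨k, hk⟩ := LG.mem_cl_iff.1 hy
  clear hy
  induction k generalizing y with
  | zero =>
    obtain ⟨_, rfl⟩ := LG.mem_ball_zero.1 hk
    rw [lft_zero]
    exact SimpleGraph.Reachable.refl _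
  | succ k ih =>
    rcases LG.mem_ball_succ.1 hk with h | ⟨_, z, hz, e, he, hj⟩
    · exact ih h
    · have h1 := ih hz
      rw [mem_wT, mem_Fb] at he
      obtain ⟨⟨he1, he2⟩, he3⟩ := he
      have h2 : lft (e.1 + Pi.single e.2 1) = lft e.1 + Pi.single e.2 1 := lft_step hN he1
      have h3 : (SimpleGraph.fromEdgeSet ω).Adj (lft e.1) (lft e.1 + Pi.single e.2 1) := by
        rw [SimpleGraph.fromEdgeSet_adj]
        exact ⟨he3, (Zd_adj_single _ _).ne⟩
      have h4 : (SimpleGraph.fromEdgeSet ω).Adj (lft z) (lft y) := by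
        rcases T_J.1 hj with ⟨a, b⟩ | ⟨a, b⟩
        · rw [b, ← a, h2]
          exact h3
        · have hz' : z = e.1 + Pi.single e.2 1 := by rw [a, b, sub_add_cancel]
          rw [hz', h2, ← a]
          exact h3.symm
      exact SimpleGraph.Reachable.trans h1 h4.reachable

/-- the infinite volume percolation probability is the limit of the finite volume ones. -/
theorem theta_le (hd : 1 ≤ d) (p : unitInterval) (n : ℕ) (N : ℕ) [NeZero N] (hN : 2 * n + 3 ≤ N) :
    theta (Zd d) 0 p ≤ thT N d n p := by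
  rw [← (event_box (N := N) (d := d) n p).2]
  unfold theta Measure.real
  refine ENNReal.toReal_mono (measure_ne_top _ _) (measure_mono_ae ?_)
  have hc : ∀ᵐ ω ∂(setBernoulli (Zd d).edgeSet p), ω ⊆ (Zd d).edgeSet := setBernoulli_ae_subset
  filter_upwards [hc] with ω hω hinf
  by_contra hA
  apply hinf
  have hfin : Set.Finite {y : Fin d → ℤ | ∀ i, (y i).natAbs ≤ n} := by
    apply (Set.finite_Icc (fun _ => -(n : ℤ)) (fun _ : Fin d => (n : ℤ))).subset
    intro y hy
    rw [Set.mem_Icc]
    constructor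
    · intro i
      have := hy i
      show -(n : ℤ) ≤ y i
      omega
    · intro i
      have := hy i
      show y i ≤ (n : ℤ)
      omega
  exact hfin.subset (fun y hy => (reach_box hN hω hA hy).1)

theorem le_theta (hd : 1 ≤ d) (p : unitInterval) (c : ℝ)
    (h : ∀ n : ℕ, ∃ N : ℕ, ∃ _ : NeZero N, 2 * n + 3 ≤ N ∧ c ≤ thT N d n p) :
    c ≤ theta (Zd d) 0 p := by
  choose Nn hne hNn hc using h
  set μ := setBernoulli (Zd d).edgeSet p with hμ
  have hprob : IsProbabilityMeasure μ := by rw [hμ]; infer_instance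
  set B : ℕ → Set (Set (Sym2 (Fin d → ℤ))) := fun n =>
    letI := hne n
    {ω | Av (Nn n) d n (wT (Nn n) d n ω)} with hB
  have hBm : ∀ n, MeasurableSet (B n) := fun n => by
    let _ := hne n
    exact (event_box (N := Nn n) (d := d) n p).1
  have hBc : ∀ n, c ≤ μ.real (B n) := fun n => by
    let _ := hne n
    have := (event_box (N := Nn n) (d := d) n p).2
    rw [hB, hμ]
    simp only
    rw [this]
    exact hc n
  set U : ℕ → Set (Set (Sym2 (Fin d → ℤ))) := fun n => ⋃ m ≥ n, B m with hU
  have hUm : ∀ n, MeasurableSet (U n) := fun n =>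
    MeasurableSet.iUnion (fun m => MeasurableSet.iUnion (fun _ => hBm m))
  have hUanti : Antitone U := by
    intro a b hab ω hω
    rw [hU] at hω ⊢
    simp only [Set.mem_iUnion] at hω ⊢
    obtain ⟨m, hm, h⟩ := hω
    exact ⟨m, le_trans hab hm, h⟩
  have hUc : ∀ n, c ≤ μ.real (U n) := fun n =>
    (hBc n).trans (measureReal_mono (by
      intro ω hω
      rw [hU]
      simp only [Set.mem_iUnion]
      exact ⟨n, le_refl n, hω⟩) (measure_ne_top _ _))
  have hlim : Filter.Tendsto (fun n => μ.real (U n)) Filter.atTop (nhds (μ.real (⋂ n, U n))) := by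
    have := tendsto_measure_iInter_atTop (μ := μ) (fun n => (hUm n).nullMeasurableSet) hUanti
      ⟨0, measure_ne_top _ _⟩
    exact (ENNReal.tendsto_toReal (measure_ne_top _ _)).comp this
  have hcc : c ≤ μ.real (⋂ n, U n) := ge_of_tendsto' hlim hUc
  refine hcc.trans ?_
  unfold theta
  refine measureReal_mono ?_ (measure_ne_top _ _)
  intro ω hω
  show (cluster ω 0).Infinite
  intro hfin
  -- bound the finite cluster
  obtain ⟨M, hM⟩ : ∃ M : ℕ, ∀ y ∈ cluster ω 0, ∀ i, (y i).natAbs < M := by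
    have h1 : Set.Finite ((fun y : Fin d → ℤ => ∑ i, (y i).natAbs) '' cluster ω 0) := hfin.image _
    obtain ⟨M, hM⟩ := h1.bddAbove
    refine ⟨M + 1, fun y hy i => ?_⟩
    have h2 : ∑ i, (y i).natAbs ≤ M := hM (Set.mem_image_of_mem _ hy)
    have h3 : (y i).natAbs ≤ ∑ i, (y i).natAbs :=
      Finset.single_le_sum (f := fun i => (y i).natAbs) (fun _ _ => Nat.zero_le _) (mem_univ i)
    omega
  have h2 := Set.mem_iInter.1 hω M
  rw [hU] at h2
  simp only [Set.mem_iUnion] at h2
  obtain ⟨m, hm, hmB⟩ := h2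
  let _ := hne m
  obtain ⟨y, hy, i, hi⟩ := (show Av (Nn m) d m (wT (Nn m) d m ω) from hmB)
  have h3 := lift_cluster (hNn m) hy
  have h4 := hM _ h3 i
  have h5 : (lft y i).natAbs = m := hi
  omega

end DDA
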