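import Pool.Agent.DDA.TilesProb
import Pool.Agent.DDA.AKS

/-!
# DDA: two-dimensional renormalization
-/

open Finset Pool.Agent.H95.SumRule Pool.Agent.H95.Perc

namespace DDA

set_option linter.unusedSectionVars false

open Tiles in
theorem tiles : ∃ q0 : ℝ, 0 < q0 ∧ ∀ d : ℕ, 2 ≤ d → ∀ (ℓ n1 X0 n : ℕ) (κ ε p : ℝ),
    0 ≤ p → p ≤ 1 → 0 < ε → ε ≤ 1 → 1 ≤ X0 → 2 * d * (n1 + ℓ + 1) ≤ n →
    2 ^ 18 * n * d * κ ≤ q0 →
    (2 : ℝ) ^ 20 * n * (2 * d + 1) ^ (2 * ℓ + 3) ≤ X0 * ε ^ (2 * ℓ + 1) →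
    (2 : ℝ) ^ 18 * n * (2 * d + 1) ^ (2 * ℓ + 3) ≤ q0 * ε ^ (2 * ℓ + 1) * (n : ℝ) ^ d →
    ∃ c : ℝ, 0 < c ∧ ∀ k : ℕ, ∃ N0 : ℕ, ∀ (N : ℕ) [NeZero N], N0 ≤ N →
      Pr (univ : Finset (TE N d)) p (fun ω => ∀ y, nrm y ≤ ℓ →
        ((T N d).cl (sbx N d n1 y) ω y).card < X0) ≤ κ →
      c ≤ thT N d k (1 - (1 - p) * (1 - ε)) := by
  obtain ⟨q0, hq0, htwo⟩ := two_dim
  refine ⟨q0, hq0, ?_⟩
  intro d hd ℓ n1 X0 n κ ε p hp0 hp1 hε0 hε1 hX0 hn hκ h1 h2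
  have hw : 2 * (n1 + ℓ) < n := by nlinarith
  have hn0 : 0 < n := by omega
  set w := n1 + ℓ with hwdef
  refine ⟨1 / (2 * ((6 * n + 2 * w : ℕ) : ℝ) ^ d), by positivity, ?_⟩
  intro k
  refine ⟨2 * (2 ^ (k + 4) + 4) * n + 1, ?_⟩
  intro N _ hN hk
  set M : ℤ := 2 ^ (k + 4) with hM
  have hMnn : 0 ≤ M := by rw [hM]; positivity
  have hf : Fine N n (n1 + ℓ) M := by
    refine ⟨hn0, hw, hMnn, ?_⟩
    have : ((2 * (2 ^ (k + 4) + 4) * n + 1 : ℕ) : ℤ) ≤ N := by exact_mod_cast hN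
    push_cast at this
    rw [hM]
    omega
  have h8 := hf.h8
  have hκ0 : 0 ≤ κ := (Pr_nonneg hp0 hp1 _).trans hk
  have hkM : (k : ℤ) + 8 < M := by
    have h3 : k + 1 ≤ 2 ^ k := Nat.lt_two_pow_self
    have h4 : ((k + 1 : ℕ) : ℤ) ≤ ((2 ^ k : ℕ) : ℤ) := by exact_mod_cast h3
    push_cast at h4
    rw [hM, pow_add]
    omega
  have hkey := htwo _ (W p ε) (W_nonneg (E := TE N d) hp0 hp1 hε0.le hε1) (sum_W p ε) (k + 4)
    (gam N d n1 X0 ℓ n M) ?_ ?_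
  · -- conclusion
    have hstep : fp (W p ε) (fun o : Finset (TE N d) × Finset (TE N d) => ∃ u v : ℤ × ℤ,
        (0 ≤ u.1 ∧ u.1 ≤ 4 ∧ 0 ≤ u.2 ∧ u.2 ≤ 4) ∧
        (v.1 = 2 ^ (k + 4) ∨ v.2 = 2 ^ (k + 4)) ∧ v ∈ rect 0 (2 ^ (k + 4)) 0 (2 ^ (k + 4)) ∧
        conn (rect 0 (2 ^ (k + 4)) 0 (2 ^ (k + 4))) (gam N d n1 X0 ℓ n M o) u v)
        ≤ fp (W p ε) (fun o => ∃ x ∈ A0 N d n w, Exit k x (o.1 ∪ o.2)) := by
      apply Two.fp_mono (W_nonneg hp0 hp1 hε0.le hε1)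
      rintro ⟨ω, η⟩ ⟨u, v, hu, hv, hvR, hc⟩
      rw [← hM] at hv hvR hc
      have hlink := linking hd hf hu hc
      rcases hlink with rfl | ⟨c, hc1, hc2, z, hz, _, x, hx, hzx⟩
      · exfalso
        rcases hv with h | h <;> omega
      · have hfar : c.1.1 + 1 ≥ M ∨ c.1.2 + 1 ≥ M := by
          obtain ⟨⟨a, b⟩, i⟩ := c
          simp only at hc2 ⊢
          rcases hc2 with rfl | rfl
          · simp only at hv
            omega
          · unfold stp at hv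
            fin_cases i <;> simp at hv <;> omega
        obtain ⟨i0, hi0⟩ := far_point hd hf.hw hkM hf.hN hc1 hfar hx hz
        exact ⟨x, hx, exit_of_conn hzx hi0⟩
    have hstep2 : fp (W p ε) (fun o : Finset (TE N d) × Finset (TE N d) =>
        ∃ x ∈ A0 N d n w, Exit k x (o.1 ∪ o.2)) ≤
        ((6 * n + 2 * w : ℕ) : ℝ) ^ d * thT N d k (1 - (1 - p) * (1 - ε)) := by
      have hq0' : 0 ≤ 1 - (1 - p) * (1 - ε) := by nlinarith
      have hq1' : 1 - (1 - p) * (1 - ε) ≤ 1 := by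
        have : 0 ≤ (1 - p) * (1 - ε) := mul_nonneg (by linarith) (by linarith)
        linarith
      rw [fp_W]
      have e1 : Ex univ p (fun ω => Pr univ ε (fun η =>
          ∃ x ∈ A0 N d n w, Exit k x ((ω, η).1 ∪ (ω, η).2)))
          = Pr univ (1 - (1 - p) * (1 - ε)) (fun ω => ∃ x ∈ A0 N d n w, Exit k x ω) := by
        classical
        unfold Pr
        rw [← Ex_sprinkle]
      rw [e1]
      refine (Pr_sum_le hq0' hq1' (A0 N d n w) (fun x ω => Exit k x ω)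
        (fun ω _ h => h)).trans ?_
      rw [sum_congr rfl (fun x _ => Pr_exit _ k x), sum_const, card_A0 (by omega), nsmul_eq_mul]
      push_cast
      exact le_rfl
    have hfin := (hkey.trans hstep).trans hstep2
    rw [div_le_iff₀ (by positivity)]
    linarith
  · -- density of good bonds
    intro e he
    obtain ⟨c, hc1, hc2, rfl⟩ := exists_bond he
    have e1 : fp (W p ε) (fun o : Finset (TE N d) × Finset (TE N d) =>
        s(c.1, c.1 + stp c.2) ∉ gam N d n1 X0 ℓ n M o)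
        ≤ fp (W p ε) (fun o => ¬ GB N d n1 X0 ℓ n o c) := by
      apply Two.fp_mono (W_nonneg hp0 hp1 hε0.le hε1)
      intro o ho hg
      apply ho
      rw [mem_gam]
      exact ⟨c, by rw [hM]; exact hc1, hg, rfl⟩
    refine e1.trans ?_
    rw [fp_W]
    have hside : ∀ j : Fin d, side d n c.2 j ≤ N := fun j => (side_le n c.2 j).trans (by omega)
    have haks := aks (N := N) (d := d) (by omega) (by omega) (sbx N d n1) hX0 ℓ
      (RR N d n (n1 + ℓ) c) (fun i => ((cor d n c.1 i : ℤ) : ZMod N)) (side d n c.2)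
      (m := 2 * n) (by omega) (side_le n c.2) hside (seen_mem hf c) hp0 hp1 hε0.le hε1
      (κ := κ) ?_ hκ0
    · refine haks.trans ?_
      refine numeric hq0 hn0 hε0 hX0 hκ h1 h2 ?_ ?_
      · exact card_RR (by omega) hn0 hn c
      · exact card_BB hd (by omega) c
    · intro v hv
      rw [kappa_shift]
      exact hk
  · -- independence
    intro R R' hR hR' hfar A B
    rw [← hM] at hR hR'
    exact gam_indep hd hf hR hR' hfar A B

end DDA
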