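import Pool.Agent.H95.Perc.RSW2

/-!
# DDA: finite-range dependent bond percolation on `ℤ²` with high density

`two_dim`: in a finite-range dependent bond percolation of high density in the square
`[0, 2^K]²`, with probability at least `1/2` the corner is connected to the opposite sides.
-/

open Finset Pool.Agent.H95.SumRule Pool.Agent.H95.Perc

namespace DDA

open Classical in
/-- probability of `A` on the finite probability space with weights `w` -/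
noncomputable def fp {Ω : Type} [Fintype Ω] (w : Ω → ℝ) (A : Ω → Prop) : ℝ :=
  ∑ o, if A o then w o else 0

/-- all points of `R` and `R'` differ by at least `3` in one of the coordinates -/
def Far (R R' : Finset (ℤ × ℤ)) : Prop :=
  ∀ u ∈ R, ∀ v ∈ R', 3 ≤ |u.1 - v.1| ∨ 3 ≤ |u.2 - v.2|

namespace Two

section fp
variable {Ω : Type} [Fintype Ω] {w : Ω → ℝ}

lemma fp_nonneg (hw : ∀ o, 0 ≤ w o) (A : Ω → Prop) : 0 ≤ fp w A := by
  classical
  unfold fp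
  exact sum_nonneg (fun o _ => by split_ifs; exacts [hw o, le_rfl])

lemma fp_mono (hw : ∀ o, 0 ≤ w o) {A B : Ω → Prop} (h : ∀ o, A o → B o) : fp w A ≤ fp w B := by
  classical
  unfold fp
  apply sum_le_sum
  intro o _
  by_cases hA : A o
  · simp [hA, h o hA]
  · by_cases hB : B o <;> simp [hA, hB, hw o]

lemma fp_congr {A B : Ω → Prop} (h : ∀ o, A o ↔ B o) : fp w A = fp w B := by
  have : A = B := funext fun o => propext (h o)
  rw [this]

lemma fp_or (hw : ∀ o, 0 ≤ w o) (A B : Ω → Prop) :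
    fp w (fun o => A o ∨ B o) ≤ fp w A + fp w B := by
  classical
  unfold fp
  rw [← sum_add_distrib]
  apply sum_le_sum
  intro o _
  by_cases hA : A o <;> by_cases hB : B o <;> simp [hA, hB, hw o]

lemma fp_not (hw1 : ∑ o, w o = 1) (A : Ω → Prop) : fp w A = 1 - fp w (fun o => ¬ A o) := by
  classical
  unfold fp
  rw [← hw1, ← sum_sub_distrib]
  apply sum_congr rfl
  intro o _
  by_cases hA : A o <;> simp [hA]

lemma fp_biUnion (hw : ∀ o, 0 ≤ w o) {ι : Type} [DecidableEq ι] (S : Finset ι)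
    (P : ι → Ω → Prop) :
    fp w (fun o => ∃ i ∈ S, P i o) ≤ ∑ i ∈ S, fp w (P i) := by
  classical
  induction S using Finset.induction_on with
  | empty => simp [fp]
  | insert i S hi ih =>
    rw [sum_insert hi]
    refine le_trans (fp_mono hw (B := fun o => P i o ∨ ∃ j ∈ S, P j o) ?_) ?_
    · rintro o ⟨j, hj, hP⟩
      rcases mem_insert.mp hj with rfl | hj
      · exact Or.inl hP
      · exact Or.inr ⟨j, hj, hP⟩
    · exact (fp_or hw _ _).trans (by gcongr)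

end fp

/-- the standing hypotheses on the random edge set `γ` -/
structure Good {Ω : Type} [Fintype Ω] (w : Ω → ℝ) (M : ℤ) (q : ℝ)
    (γ : Ω → Finset (Sym2 (ℤ × ℤ))) : Prop where
  nn : ∀ o, 0 ≤ w o
  one : ∑ o, w o = 1
  edge : ∀ e ∈ edgesIn (rect 0 M 0 M), fp w (fun o => e ∉ γ o) ≤ q
  indep : ∀ R R' : Finset (ℤ × ℤ), R ⊆ rect 0 M 0 M → R' ⊆ rect 0 M 0 M →
      Far R R' → ∀ A B : Finset (Sym2 (ℤ × ℤ)) → Prop,
      fp w (fun o => A (γ o ∩ edgesIn R) ∧ B (γ o ∩ edgesIn R'))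
        = fp w (fun o => A (γ o ∩ edgesIn R)) * fp w (fun o => B (γ o ∩ edgesIn R'))

lemma act_diag_inter (ω : Finset (Sym2 (ℤ × ℤ))) (R : Finset (ℤ × ℤ)) :
    act diag ω ∩ edgesIn R = act diag (ω ∩ edgesIn (R.image diag)) := by
  have h1 : edgesIn R = act diag (edgesIn (R.image diag)) := by
    rw [edgesIn_image isAut_diag]
    ext e
    induction e with
    | _ x y =>
      have hx : x = diag (diag x) := rfl
      have hy : y = diag (diag y) := rfl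
      rw [hx, hy, mem_act, mem_act]
      rfl
  rw [h1]
  unfold act
  rw [image_inter _ _ (Sym2.map.injective diag.injective)]

lemma Good.flip {Ω : Type} [Fintype Ω] {w : Ω → ℝ} {M : ℤ} {q : ℝ}
    {γ : Ω → Finset (Sym2 (ℤ × ℤ))} (h : Good w M q γ) :
    Good w M q (fun o => act diag (γ o)) where
  nn := h.nn
  one := h.one
  edge := by
    intro e he
    induction e with
    | _ x y =>
      have h1 : s(Pool.Agent.H95.Perc.diag x, Pool.Agent.H95.Perc.diag y) ∈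
          edgesIn (rect 0 M 0 M) := by
        rw [mem_edgesIn', mem_rect, mem_rect] at he ⊢
        refine ⟨?_, ?_, (isAut_diag x y).mpr he.2.2⟩
        · simp only [Pool.Agent.H95.Perc.diag, Equiv.coe_fn_mk]; omega
        · simp only [Pool.Agent.H95.Perc.diag, Equiv.coe_fn_mk]; omega
      refine le_trans (le_of_eq (fp_congr fun o => ?_)) (h.edge _ h1)
      have hx : x = Pool.Agent.H95.Perc.diag (Pool.Agent.H95.Perc.diag x) := rfl
      have hy : y = Pool.Agent.H95.Perc.diag (Pool.Agent.H95.Perc.diag y) := rfl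
      conv_lhs => rw [hx, hy]
      rw [mem_act]
  indep := by
    intro R R' hR hR' hfar A B
    have hsub : ∀ S : Finset (ℤ × ℤ), S ⊆ rect 0 M 0 M →
        S.image Pool.Agent.H95.Perc.diag ⊆ rect 0 M 0 M := by
      intro S hS v hv
      rw [mem_image] at hv
      obtain ⟨u, hu, rfl⟩ := hv
      have := hS hu
      rw [mem_rect] at this ⊢
      simp only [Pool.Agent.H95.Perc.diag, Equiv.coe_fn_mk]
      omega
    have hfar' : Far (R.image Pool.Agent.H95.Perc.diag) (R'.image Pool.Agent.H95.Perc.diag) := by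
      intro u hu v hv
      rw [mem_image] at hu hv
      obtain ⟨u, hu, rfl⟩ := hu
      obtain ⟨v, hv, rfl⟩ := hv
      exact (hfar u hu v hv).symm
    have := h.indep _ _ (hsub R hR) (hsub R' hR') hfar' (fun ω => A (act Pool.Agent.H95.Perc.diag ω))
      (fun ω => B (act Pool.Agent.H95.Perc.diag ω))
    simpa only [act_diag_inter] using this

lemma hor_diag {x0 x1 y0 y1 : ℤ} {ω : Finset (Sym2 (ℤ × ℤ))} :
    hor x0 x1 y0 y1 (act Pool.Agent.H95.Perc.diag ω) ↔ ver y0 y1 x0 x1 ω := by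
  unfold hor ver
  rw [← rect_diag, link_act isAut_diag]
  rfl

/-- vertical crossings of a shorter rectangle -/
lemma ver_shrink {x0 x1 y0 y1 y0' y1' : ℤ} (h0 : y0 ≤ y0') (h01 : y0' ≤ y1') (h1 : y1' ≤ y1)
    {ω : Finset (Sym2 (ℤ × ℤ))} (h : ver x0 x1 y0 y1 ω) : ver x0 x1 y0' y1' ω :=
  hor_diag.mp (hor_shrink h0 h01 h1 (hor_diag.mpr h))

lemma ver_mono {x0 x1 y0 y1 x0' x1' : ℤ} (h0 : x0' ≤ x0) (h1 : x1 ≤ x1')
    {ω : Finset (Sym2 (ℤ × ℤ))} (h : ver x0 x1 y0 y1 ω) : ver x0' x1' y0 y1 ω :=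
  h.mono (rect_mono h0 h1 le_rfl le_rfl) (fun _ _ h => h) (fun _ _ h => h)

/-- a vertical connection reaches every intermediate height -/
lemma cut_top {x0 x1 y0 y1 h : ℤ} (h0 : y0 ≤ h) (h1 : h ≤ y1) {ω : Finset (Sym2 (ℤ × ℤ))}
    {s t : ℤ × ℤ} (hs : s ∈ rect x0 x1 y0 y1) (hs2 : s.2 = y0) (ht2 : t.2 = y1)
    (hst : conn (rect x0 x1 y0 y1) ω s t) :
    ∃ z, z.2 = h ∧ conn (rect x0 x1 y0 h) ω s z := by
  have hs' : s ∈ rect x0 x1 y0 h := by rw [mem_rect] at hs ⊢; omega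
  by_cases ht' : t ∈ rect x0 x1 y0 h
  · have : y1 = h := by rw [mem_rect] at ht'; omega
    subst this
    exact ⟨t, ht2, hst⟩
  · obtain ⟨z, v, z1, z2, w1, w2, hadj, _, hc'⟩ := hst.exit hs hs' ht'
    refine ⟨z, ?_, hc'.mono inter_subset_right (Subset.refl _)⟩
    have hadj' : IsUnit2 (v - z) := hadj
    simp only [IsUnit2, Prod.fst_sub, Prod.snd_sub] at hadj'
    rw [mem_rect] at z1 z2 w1 w2
    omega

/-- horizontal crossing estimate at scale `L` -/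
def SH {Ω : Type} [Fintype Ω] (w : Ω → ℝ) (M : ℤ) (γ : Ω → Finset (Sym2 (ℤ × ℤ))) (L : ℤ)
    (φ : ℝ) : Prop :=
  ∀ x y : ℤ, 0 ≤ x → x + 3 * L ≤ M → 0 ≤ y → y + L ≤ M →
    fp w (fun o => ¬ hor x (x + 3 * L) y (y + L) (γ o)) ≤ φ

section
variable {Ω : Type} [Fintype Ω] {w : Ω → ℝ} {M : ℤ} {q : ℝ}

/-- vertical crossings of squares -/
lemma sq_bound {L : ℤ} {φ : ℝ} (hL : 0 ≤ L) (hM : 3 * L ≤ M) {γ : Ω → Finset (Sym2 (ℤ × ℤ))}
    (hγ : Good w M q γ) (H : ∀ γ, Good w M q γ → SH w M γ L φ) {x y : ℤ} (hx : 0 ≤ x)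
    (hx1 : x + L ≤ M) (hy : 0 ≤ y) (hy1 : y + L ≤ M) :
    fp w (fun o => ¬ ver x (x + L) y (y + L) (γ o)) ≤ φ := by
  obtain ⟨y', h1, h2, h3, h4⟩ : ∃ y', 0 ≤ y' ∧ y' + 3 * L ≤ M ∧ y' ≤ y ∧ y + L ≤ y' + 3 * L := by
    by_cases h : y + 3 * L ≤ M
    · exact ⟨y, hy, h, le_rfl, by omega⟩
    · exact ⟨M - 3 * L, by omega, by omega, by omega, by omega⟩
  refine le_trans (fp_mono hγ.nn fun o ho => ?_) (H _ hγ.flip y' x h1 h2 hx hx1)
  exact fun hv => ho (ver_shrink h3 (by omega) h4 (hor_diag.mp hv))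

/-- crossing of a vertical rectangle -/
lemma ver_bound {L : ℤ} {φ : ℝ} {γ : Ω → Finset (Sym2 (ℤ × ℤ))}
    (hγ : Good w M q γ) (H : ∀ γ, Good w M q γ → SH w M γ L φ) {x y : ℤ} (hx : 0 ≤ x)
    (hx1 : x + L ≤ M) (hy : 0 ≤ y) (hy1 : y + 3 * L ≤ M) :
    fp w (fun o => ¬ ver x (x + L) y (y + 3 * L) (γ o)) ≤ φ := by
  refine le_trans (fp_mono hγ.nn fun o ho => ?_) (H _ hγ.flip y x hy hy1 hx hx1)
  exact fun hv => ho (hor_diag.mp hv)

lemma fp_or5 (hw : ∀ o, 0 ≤ w o) {A : Ω → Prop} {A1 A2 A3 A4 A5 : Ω → Prop} {φ : ℝ}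
    (h1 : fp w A1 ≤ φ) (h2 : fp w A2 ≤ φ) (h3 : fp w A3 ≤ φ) (h4 : fp w A4 ≤ φ) (h5 : fp w A5 ≤ φ)
    (h : ∀ o, A o → A1 o ∨ A2 o ∨ A3 o ∨ A4 o ∨ A5 o) : fp w A ≤ 5 * φ := by
  have e1 := fp_mono hw h
  have e2 := fp_or hw A1 (fun o => A2 o ∨ A3 o ∨ A4 o ∨ A5 o)
  have e3 := fp_or hw A2 (fun o => A3 o ∨ A4 o ∨ A5 o)
  have e4 := fp_or hw A3 (fun o => A4 o ∨ A5 o)
  have e5 := fp_or hw A4 A5
  linarith

/-- crossing of a long thin strip -/
lemma strip {L : ℤ} {φ : ℝ} (hL : 9 ≤ L) {γ : Ω → Finset (Sym2 (ℤ × ℤ))}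
    (hγ : Good w M q γ) (H : ∀ γ, Good w M q γ → SH w M γ L φ) {x y : ℤ} (hx : 0 ≤ x)
    (hx1 : x + (6 * L + 9) ≤ M) (hy : 0 ≤ y) (hy1 : y + L ≤ M) :
    fp w (fun o => ¬ hor x (x + (6 * L + 9)) y (y + L) (γ o)) ≤ 5 * φ := by
  have a1 := H γ hγ x y hx (by omega) hy hy1
  have a2 := H γ hγ (x + 2 * L) y (by omega) (by omega) hy hy1
  have a3 := H γ hγ (x + (3 * L + 9)) y (by omega) (by omega) hy hy1
  have a4 := sq_bound (x := x + 2 * L) (y := y) (by omega) (by omega) hγ H (by omega) (by omega)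
    hy hy1
  have a5 := sq_bound (x := x + (3 * L + 9)) (y := y) (by omega) (by omega) hγ H (by omega)
    (by omega) hy hy1
  refine fp_or5 hγ.nn a1 a2 a3 a4 a5 fun o ho => ?_
  by_contra hcon
  push Not at hcon
  obtain ⟨c1, c2, c3, c4, c5⟩ := hcon
  apply ho
  have d1 : hor x (x + 5 * L) y (y + L) (γ o) := by
    refine hor_glue (x0 := x) (x1 := x + 2 * L) (x2 := x + 3 * L) (x3 := x + 5 * L) (by omega)
      (by omega) (by omega) (by omega) c1 ?_ ?_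
    · rw [show x + 5 * L = x + 2 * L + 3 * L by ring]
      exact c2
    · rw [show x + 3 * L = x + 2 * L + L by ring]
      exact c4
  refine hor_glue (x0 := x) (x1 := x + (3 * L + 9)) (x2 := x + 5 * L) (x3 := x + (6 * L + 9))
    (by omega) (by omega) (by omega) (by omega) d1 ?_ ?_
  · rw [show x + (6 * L + 9) = x + (3 * L + 9) + 3 * L by ring]
    exact c3
  · exact ver_mono le_rfl (by omega) c5

/-- the renormalisation step -/
lemma step {L : ℤ} {φ : ℝ} (hL : 9 ≤ L) (H : ∀ γ, Good w M q γ → SH w M γ L φ) :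
    ∀ γ, Good w M q γ → SH w M γ (2 * L + 3) (25 * φ ^ 2) := by
  intro γ hγ x y hx hx1 hy hy1
  have a1 := strip (x := x) (y := y) hL hγ H hx (by omega) hy (by omega)
  have a2 := strip (x := x) (y := y + (L + 3)) hL hγ H hx (by omega) (by omega) (by omega)
  set R := rect x (x + (6 * L + 9)) y (y + L) with hR
  set R' := rect x (x + (6 * L + 9)) (y + (L + 3)) (y + (L + 3) + L) with hR'
  have hfar : Far R R' := by
    intro u hu v hv
    rw [hR, mem_rect] at hu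
    rw [hR', mem_rect] at hv
    right
    rw [le_abs]
    omega
  have hsub : R ⊆ rect 0 M 0 M := rect_mono (by omega) (by omega) (by omega) (by omega)
  have hsub' : R' ⊆ rect 0 M 0 M := rect_mono (by omega) (by omega) (by omega) (by omega)
  have key := hγ.indep R R' hsub hsub' hfar
    (fun ω => ¬ hor x (x + (6 * L + 9)) y (y + L) ω)
    (fun ω => ¬ hor x (x + (6 * L + 9)) (y + (L + 3)) (y + (L + 3) + L) ω)
  have e1 : fp w (fun o => ¬ hor x (x + (6 * L + 9)) y (y + L) (γ o ∩ edgesIn R)) ≤ 5 * φ := by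
    refine le_trans (le_of_eq (fp_congr fun o => ?_)) a1
    exact not_congr (dep_link R _ _ (γ o)).symm
  have e2 : fp w (fun o => ¬ hor x (x + (6 * L + 9)) (y + (L + 3)) (y + (L + 3) + L)
      (γ o ∩ edgesIn R')) ≤ 5 * φ := by
    refine le_trans (le_of_eq (fp_congr fun o => ?_)) a2
    exact not_congr (dep_link R' _ _ (γ o)).symm
  have e3 : fp w (fun o => ¬ hor x (x + 3 * (2 * L + 3)) y (y + (2 * L + 3)) (γ o)) ≤
      fp w (fun o => ¬ hor x (x + (6 * L + 9)) y (y + L) (γ o ∩ edgesIn R) ∧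
        ¬ hor x (x + (6 * L + 9)) (y + (L + 3)) (y + (L + 3) + L) (γ o ∩ edgesIn R')) := by
    apply fp_mono hγ.nn
    intro o ho
    rw [show x + 3 * (2 * L + 3) = x + (6 * L + 9) by ring] at ho
    constructor
    · intro h
      have h' := (dep_link R _ _ (γ o)).mpr h
      exact ho (hor_mono le_rfl (by omega) h')
    · intro h
      have h' := (dep_link R' _ _ (γ o)).mpr h
      exact ho (hor_mono (by omega) (by omega) h')
  refine e3.trans (key.le.trans ?_)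
  have n1 := fp_nonneg (w := w) hγ.nn
    (fun o => ¬ hor x (x + (6 * L + 9)) y (y + L) (γ o ∩ edgesIn R))
  have n2 := fp_nonneg (w := w) hγ.nn
    (fun o => ¬ hor x (x + (6 * L + 9)) (y + (L + 3)) (y + (L + 3) + L) (γ o ∩ edgesIn R'))
  calc _ ≤ (5 * φ) * (5 * φ) := by gcongr; linarith
    _ = 25 * φ ^ 2 := by ring

/-- number of edges of a rectangle -/
lemma card_edgesIn (V : Finset (ℤ × ℤ)) : (edgesIn V).card ≤ 2 * V.card := by
  unfold edgesIn
  refine (card_union_le _ _).trans ?_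
  have h1 := (card_image_le (s := V.filter fun v => v + (1, 0) ∈ V)
    (f := fun v : ℤ × ℤ => s(v, v + (1, 0)))).trans (card_filter_le _ _)
  have h2 := (card_image_le (s := V.filter fun v => v + (0, 1) ∈ V)
    (f := fun v : ℤ × ℤ => s(v, v + (0, 1)))).trans (card_filter_le _ _)
  omega

/-- all edges of a small rectangle are open with high probability -/
lemma all_open {γ : Ω → Finset (Sym2 (ℤ × ℤ))} (hγ : Good w M q γ) (hq : 0 ≤ q)
    {x0 x1 y0 y1 : ℤ} (h : rect x0 x1 y0 y1 ⊆ rect 0 M 0 M) {n : ℕ}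
    (hn : (rect x0 x1 y0 y1).card ≤ n) :
    fp w (fun o => ¬ edgesIn (rect x0 x1 y0 y1) ⊆ γ o) ≤ 2 * n * q := by
  have e1 : fp w (fun o => ¬ edgesIn (rect x0 x1 y0 y1) ⊆ γ o) ≤
      fp w (fun o => ∃ e ∈ edgesIn (rect x0 x1 y0 y1), e ∉ γ o) := by
    apply fp_mono hγ.nn
    intro o ho
    rw [not_subset] at ho
    exact ho
  refine e1.trans ((fp_biUnion hγ.nn _ _).trans ?_)
  have e2 : ∑ e ∈ edgesIn (rect x0 x1 y0 y1), fp w (fun o => e ∉ γ o) ≤
      ∑ _e ∈ edgesIn (rect x0 x1 y0 y1), q :=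
    sum_le_sum (fun e he => hγ.edge e (edgesIn_mono h he))
  refine e2.trans ?_
  rw [sum_const, nsmul_eq_mul]
  have : ((edgesIn (rect x0 x1 y0 y1)).card : ℝ) ≤ 2 * n := by
    have := (card_edgesIn (rect x0 x1 y0 y1)).trans (Nat.mul_le_mul_left 2 hn)
    exact_mod_cast this
  gcongr

lemma card_rect (x0 x1 y0 y1 : ℤ) :
    (rect x0 x1 y0 y1).card = (x1 + 1 - x0).toNat * (y1 + 1 - y0).toNat := by
  unfold rect
  rw [card_product, Int.card_Icc, Int.card_Icc]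

/-- horizontal segments are connected when everything is open -/
lemma conn_seg {x0 x1 y0 y1 : ℤ} (hx : x0 ≤ x1) (hy : y0 ≤ y1) {ω : Finset (Sym2 (ℤ × ℤ))}
    (h : edgesIn (rect x0 x1 y0 y1) ⊆ ω) :
    conn (rect x0 x1 y0 y1) ω (x0, y0) (x1, y0) := by
  obtain ⟨n, hn⟩ : ∃ n : ℕ, x1 = x0 + n := ⟨(x1 - x0).toNat, by omega⟩
  have key : ∀ k : ℕ, k ≤ n → conn (rect x0 x1 y0 y1) ω (x0, y0) (x0 + k, y0) := by
    intro k hk
    induction k with
    | zero => simpa using conn_refl _ _ _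
    | succ k ih =>
      refine (ih (by omega)).trans ?_
      have m1 : ((x0 + k, y0) : ℤ × ℤ) ∈ rect x0 x1 y0 y1 := by
        rw [mem_rect]; simp only; omega
      have m2 : ((x0 + (k + 1 : ℕ), y0) : ℤ × ℤ) ∈ rect x0 x1 y0 y1 := by
        rw [mem_rect]; simp only; push_cast; omega
      have hadj : Z2.Adj ((x0 + k, y0) : ℤ × ℤ) (x0 + (k + 1 : ℕ), y0) := by
        show IsUnit2 _
        simp only [IsUnit2, Prod.fst_sub, Prod.snd_sub]
        left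
        push_cast
        constructor <;> ring
      exact conn_step m1 m2 hadj (h (mem_edgesIn'.mpr ⟨m1, m2, hadj⟩))
  have := key n le_rfl
  rwa [← hn] at this

lemma base {γ : Ω → Finset (Sym2 (ℤ × ℤ))} (hγ : Good w M q γ) (hq : 0 ≤ q) :
    SH w M γ 13 (1120 * q) := by
  intro x y hx hx1 hy hy1
  have h1 := all_open (x0 := x) (x1 := x + 3 * 13) (y0 := y) (y1 := y + 13) hγ hq
    (rect_mono hx hx1 hy hy1) (n := 560) (by
      rw [card_rect, show x + 3 * 13 + 1 - x = 40 by ring, show y + 13 + 1 - y = 14 by ring]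
      decide)
  refine (fp_mono hγ.nn fun o ho => ?_).trans (h1.trans (by norm_num))
  intro hs
  apply ho
  refine ⟨(x, y), (x + 3 * 13, y), ?_, ?_, rfl, rfl, conn_seg (by omega) (by omega) hs⟩
  · rw [mem_rect]; simp only; omega
  · rw [mem_rect]; simp only; omega

/-- the scales `2 ^ (k + 4) - 3` -/
def Ls (k : ℕ) : ℤ := 2 ^ (k + 4) - 3

lemma Ls_zero : Ls 0 = 13 := by norm_num [Ls]

lemma Ls_succ (k : ℕ) : Ls (k + 1) = 2 * Ls k + 3 := by
  unfold Ls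
  ring

lemma Ls_ge (k : ℕ) : 13 ≤ Ls k := by
  induction k with
  | zero => exact Ls_zero.ge
  | succ k ih => rw [Ls_succ]; omega

lemma iter (hq : 0 ≤ q) (hq1 : 50 * (1120 * q) ≤ 1) (k : ℕ) :
    ∀ γ, Good w M q γ → SH w M γ (Ls k) (1120 * q / 2 ^ k) := by
  induction k with
  | zero =>
    intro γ hγ
    rw [Ls_zero, pow_zero, div_one]
    exact base hγ hq
  | succ k ih =>
    intro γ hγ
    have h1 := step (by have := Ls_ge k; omega) ih γ hγ
    rw [Ls_succ]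
    intro x y hx hx1 hy hy1
    refine (h1 x y hx hx1 hy hy1).trans ?_
    set φ := 1120 * q with hφ
    have h0 : 0 ≤ φ := by positivity
    have h2 : (0 : ℝ) < 2 ^ k := by positivity
    have h3 : (1 : ℝ) ≤ 2 ^ k := one_le_pow₀ (by norm_num)
    have h4 : 50 * φ ≤ 2 ^ k := hq1.trans h3
    have h5 : 25 * (φ / 2 ^ k) ^ 2 = φ / 2 ^ (k + 1) * ((50 * φ) / 2 ^ k) := by
      field_simp
      ring
    rw [h5]
    exact mul_le_of_le_one_right (by positivity) ((div_le_one h2).mpr h4)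

/-- the origin is connected to a horizontal crossing at scale `k` -/
def Cev (M : ℤ) (γ : Ω → Finset (Sym2 (ℤ × ℤ))) (k : ℕ) (o : Ω) : Prop :=
  ∃ a b : ℤ × ℤ, a ∈ rect 0 (3 * Ls k) 0 (Ls k) ∧ a.1 = 0 ∧ b.1 = 3 * Ls k ∧
    conn (rect 0 (3 * Ls k) 0 (Ls k)) (γ o) a b ∧ conn (rect 0 M 0 M) (γ o) (0, 0) a

/-- a vertical crossing at scale `k` or `k + 1` is connected to a horizontal one at scale `k` -/
lemma meet {L L' Y X : ℤ} (hL : 0 < L) (hLY : L ≤ Y) (hX : L' ≤ X)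
    {ω : Finset (Sym2 (ℤ × ℤ))} {s t a b : ℤ × ℤ} (hs : s ∈ rect 0 L' 0 Y) (hs2 : s.2 = 0)
    (ht2 : t.2 = Y) (hst : conn (rect 0 L' 0 Y) ω s t) (ha : a ∈ rect 0 X 0 L) (ha1 : a.1 = 0)
    (hb1 : b.1 = X) (hab : conn (rect 0 X 0 L) ω a b) : conn (rect 0 X 0 L) ω s a := by
  obtain ⟨z, hz2, hsz⟩ := cut_top hL.le hLY hs hs2 ht2 hst
  refine conn_cross hL ?_ ha hs2 hz2 ha1 hb1 (hsz.mono (rect_mono le_rfl hX le_rfl le_rfl)
    (Subset.refl _)) hab
  rw [mem_rect] at hs ⊢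
  omega

lemma Cev_succ {γ : Ω → Finset (Sym2 (ℤ × ℤ))} {k : ℕ} (hM : 3 * Ls (k + 1) ≤ M) {o : Ω}
    (h : Cev M γ k o) (hv : ver 0 (Ls (k + 1)) 0 (3 * Ls (k + 1)) (γ o))
    (hh : hor 0 (3 * Ls (k + 1)) 0 (Ls (k + 1)) (γ o)) : Cev M γ (k + 1) o := by
  obtain ⟨a, b, ha, ha1, hb1, hab, h0⟩ := h
  obtain ⟨s, t, hs, ht, hs2, ht2, hst⟩ := hv
  obtain ⟨a', b', ha', hb', ha1', hb1', hab'⟩ := hh
  have e1 := Ls_ge k
  have e2 := Ls_succ k
  have m1 := meet (L := Ls k) (by omega) (by omega) (X := 3 * Ls k) (by omega) hs hs2 ht2 hst ha ha1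
    hb1 hab
  have m2 := meet (L := Ls (k + 1)) (by omega) (by omega) (X := 3 * Ls (k + 1)) (by omega) hs hs2
    ht2 hst ha' ha1' hb1' hab'
  refine ⟨a', b', ha', ha1', hb1', hab', h0.trans ?_⟩
  exact (m1.symm.mono (rect_mono le_rfl (by omega) le_rfl (by omega)) (Subset.refl _)).trans
    (m2.mono (rect_mono le_rfl (by omega) le_rfl (by omega)) (Subset.refl _))

lemma Cev_final {γ : Ω → Finset (Sym2 (ℤ × ℤ))} {k : ℕ} (hM : 3 * Ls k ≤ M) {o : Ω}
    (h : Cev M γ k o) (hv : ver 0 (Ls k) 0 (3 * Ls k) (γ o)) (hh : hor 0 M 0 (Ls k) (γ o)) :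
    ∃ v : ℤ × ℤ, v.1 = M ∧ v ∈ rect 0 M 0 M ∧ conn (rect 0 M 0 M) (γ o) (0, 0) v := by
  obtain ⟨a, b, ha, ha1, hb1, hab, h0⟩ := h
  obtain ⟨s, t, hs, ht, hs2, ht2, hst⟩ := hv
  obtain ⟨a', b', ha', hb', ha1', hb1', hab'⟩ := hh
  have e1 := Ls_ge k
  have m1 := meet (L := Ls k) (by omega) (by omega) (X := 3 * Ls k) (by omega) hs hs2 ht2 hst ha ha1
    hb1 hab
  have m2 := meet (L := Ls k) (by omega) (by omega) (X := M) (by omega) hs hs2
    ht2 hst ha' ha1' hb1' hab'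
  refine ⟨b', hb1', rect_mono le_rfl le_rfl le_rfl (by omega) hb', h0.trans ?_⟩
  exact (m1.symm.mono (rect_mono le_rfl (by omega) le_rfl (by omega)) (Subset.refl _)).trans
    ((m2.mono (rect_mono le_rfl le_rfl le_rfl (by omega)) (Subset.refl _)).trans
      (hab'.mono (rect_mono le_rfl le_rfl le_rfl (by omega)) (Subset.refl _)))

lemma Cev_bound (hq : 0 ≤ q) (hq1 : 50 * (1120 * q) ≤ 1) {γ : Ω → Finset (Sym2 (ℤ × ℤ))}
    (hγ : Good w M q γ) (k : ℕ) (hM : 3 * Ls k ≤ M) :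
    fp w (fun o => ¬ Cev M γ k o) ≤ 1120 * q * (3 - 2 / 2 ^ k) := by
  induction k with
  | zero =>
    have hL := Ls_zero
    have h1 := all_open (x0 := 0) (x1 := 3 * Ls 0) (y0 := 0) (y1 := Ls 0) hγ hq
      (rect_mono le_rfl hM le_rfl (by omega)) (n := 560) (by
        rw [card_rect, hL]; decide)
    refine (fp_mono hγ.nn fun o ho => ?_).trans (h1.trans (by norm_num))
    intro hs
    apply ho
    have hc := conn_seg (x0 := 0) (x1 := 3 * Ls 0) (y0 := 0) (y1 := Ls 0) (by omega) (by omega) hs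
    refine ⟨(0, 0), (3 * Ls 0, 0), ?_, rfl, rfl, hc, conn_refl _ _ _⟩
    rw [mem_rect]; simp only; omega
  | succ k ih =>
    have e1 := Ls_ge k
    have e2 := Ls_succ k
    have h1 := ih (by omega)
    have h2 := ver_bound (x := 0) (y := 0) hγ (iter (w := w) (M := M) hq hq1 (k + 1)) le_rfl
      (by omega) le_rfl (by omega)
    have h3 := iter hq hq1 (k + 1) γ hγ 0 0 le_rfl (by omega) le_rfl (by omega)
    simp only [zero_add] at h2 h3
    have h4 : fp w (fun o => ¬ Cev M γ (k + 1) o) ≤ fp w (fun o => ¬ Cev M γ k o ∨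
        (¬ ver 0 (Ls (k + 1)) 0 (3 * Ls (k + 1)) (γ o) ∨
          ¬ hor 0 (3 * Ls (k + 1)) 0 (Ls (k + 1)) (γ o))) := by
      apply fp_mono hγ.nn
      intro o ho
      by_contra hcon
      push Not at hcon
      exact ho (Cev_succ hM hcon.1 hcon.2.1 hcon.2.2)
    have h5 := fp_or (w := w) hγ.nn (fun o => ¬ Cev M γ k o)
      (fun o => ¬ ver 0 (Ls (k + 1)) 0 (3 * Ls (k + 1)) (γ o) ∨
          ¬ hor 0 (3 * Ls (k + 1)) 0 (Ls (k + 1)) (γ o))
    have h6 := fp_or (w := w) hγ.nn (fun o => ¬ ver 0 (Ls (k + 1)) 0 (3 * Ls (k + 1)) (γ o))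
      (fun o => ¬ hor 0 (3 * Ls (k + 1)) 0 (Ls (k + 1)) (γ o))
    have h7 : 1120 * q * (3 - 2 / 2 ^ k) + (1120 * q / 2 ^ (k + 1) + 1120 * q / 2 ^ (k + 1))
        = 1120 * q * (3 - 2 / 2 ^ (k + 1)) := by
      field_simp
      ring
    linarith

/-- horizontal crossing of the final strip -/
lemma last (hq : 0 ≤ q) (hq1 : 50 * (1120 * q) ≤ 1) {γ : Ω → Finset (Sym2 (ℤ × ℤ))}
    (hγ : Good w M q γ) (k : ℕ) (hM : M = 4 * Ls k + 12) :
    fp w (fun o => ¬ hor 0 M 0 (Ls k) (γ o)) ≤ 3 * (1120 * q) := by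
  have e1 := Ls_ge k
  have hφ : 1120 * q / 2 ^ k ≤ 1120 * q := div_le_self (by positivity) (one_le_pow₀ (by norm_num))
  have h1 := iter hq hq1 k γ hγ 0 0 le_rfl (by omega) le_rfl (by omega)
  have h2 := iter hq hq1 k γ hγ (Ls k + 12) 0 (by omega) (by omega) le_rfl (by omega)
  have h3 := sq_bound (x := Ls k + 12) (y := 0) (by omega) (by omega) hγ
    (iter (w := w) (M := M) hq hq1 k) (by omega) (by omega) le_rfl (by omega)
  simp only [zero_add] at h1 h2 h3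
  have h4 : fp w (fun o => ¬ hor 0 M 0 (Ls k) (γ o)) ≤
      fp w (fun o => ¬ hor 0 (3 * Ls k) 0 (Ls k) (γ o) ∨
        (¬ hor (Ls k + 12) (Ls k + 12 + 3 * Ls k) 0 (Ls k) (γ o) ∨
          ¬ ver (Ls k + 12) (Ls k + 12 + Ls k) 0 (Ls k) (γ o))) := by
    apply fp_mono hγ.nn
    intro o ho
    by_contra hcon
    push Not at hcon
    obtain ⟨c1, c2, c3⟩ := hcon
    apply ho
    refine hor_glue (x0 := 0) (x1 := Ls k + 12) (x2 := 3 * Ls k) (x3 := M) (by omega) (by omega)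
      (by omega) (by omega) c1 ?_ (ver_mono le_rfl (by omega) c3)
    rw [hM, show 4 * Ls k + 12 = Ls k + 12 + 3 * Ls k by ring]
    exact c2
  have h5 := fp_or (w := w) hγ.nn (fun o => ¬ hor 0 (3 * Ls k) 0 (Ls k) (γ o))
    (fun o => ¬ hor (Ls k + 12) (Ls k + 12 + 3 * Ls k) 0 (Ls k) (γ o) ∨
          ¬ ver (Ls k + 12) (Ls k + 12 + Ls k) 0 (Ls k) (γ o))
  have h6 := fp_or (w := w) hγ.nn
    (fun o => ¬ hor (Ls k + 12) (Ls k + 12 + 3 * Ls k) 0 (Ls k) (γ o))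
    (fun o => ¬ ver (Ls k + 12) (Ls k + 12 + Ls k) 0 (Ls k) (γ o))
  linarith

end

end Two

open Two in
/-- Finite-range dependent bond percolation of high density in a square of side `2 ^ K`: the corner
is connected to the opposite sides with probability at least `1 / 2`. -/
theorem two_dim : ∃ q0 : ℝ, 0 < q0 ∧ ∀ (Ω : Type) [Fintype Ω] (w : Ω → ℝ), (∀ o, 0 ≤ w o) →
    ∑ o, w o = 1 → ∀ (K : ℕ) (γ : Ω → Finset (Sym2 (ℤ × ℤ))),
    (∀ e ∈ edgesIn (rect 0 (2 ^ K) 0 (2 ^ K)), fp w (fun o => e ∉ γ o) ≤ q0) →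
    (∀ R R' : Finset (ℤ × ℤ), R ⊆ rect 0 (2 ^ K) 0 (2 ^ K) → R' ⊆ rect 0 (2 ^ K) 0 (2 ^ K) →
      Far R R' → ∀ A B : Finset (Sym2 (ℤ × ℤ)) → Prop,
      fp w (fun o => A (γ o ∩ edgesIn R) ∧ B (γ o ∩ edgesIn R'))
        = fp w (fun o => A (γ o ∩ edgesIn R)) * fp w (fun o => B (γ o ∩ edgesIn R'))) →
    1 / 2 ≤ fp w (fun o => ∃ u v : ℤ × ℤ, (0 ≤ u.1 ∧ u.1 ≤ 4 ∧ 0 ≤ u.2 ∧ u.2 ≤ 4) ∧
      (v.1 = 2 ^ K ∨ v.2 = 2 ^ K) ∧ v ∈ rect 0 (2 ^ K) 0 (2 ^ K) ∧
      conn (rect 0 (2 ^ K) 0 (2 ^ K)) (γ o) u v) := by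
  refine ⟨1 / 10 ^ 7, by norm_num, ?_⟩
  intro Ω _ w hw0 hw1 K γ hedge hind
  set q : ℝ := 1 / 10 ^ 7 with hq
  have hq0 : 0 ≤ q := by rw [hq]; norm_num
  have hq1 : 50 * (1120 * q) ≤ 1 := by rw [hq]; norm_num
  have hγ : Good w (2 ^ K) q γ := ⟨hw0, hw1, hedge, hind⟩
  rw [fp_not hw1]
  set M : ℤ := 2 ^ K with hM
  by_cases hK : 6 ≤ K
  · obtain ⟨k, rfl⟩ := Nat.exists_eq_add_of_le hK
    have hML : M = 4 * Ls k + 12 := by
      rw [hM]; unfold Ls; ring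
    have e1 := Ls_ge k
    have b1 := Cev_bound hq0 hq1 hγ k (by omega)
    have b2 := ver_bound (x := 0) (y := 0) hγ (iter (w := w) (M := M) hq0 hq1 k) le_rfl
      (by omega) le_rfl (by omega)
    have b3 := last hq0 hq1 hγ k hML
    simp only [zero_add] at b2
    have b4 : fp w (fun o => ¬ ∃ u v : ℤ × ℤ, (0 ≤ u.1 ∧ u.1 ≤ 4 ∧ 0 ≤ u.2 ∧ u.2 ≤ 4) ∧
        (v.1 = M ∨ v.2 = M) ∧ v ∈ rect 0 M 0 M ∧ conn (rect 0 M 0 M) (γ o) u v) ≤
        fp w (fun o => ¬ Cev M γ k o ∨ (¬ ver 0 (Ls k) 0 (3 * Ls k) (γ o) ∨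
          ¬ hor 0 M 0 (Ls k) (γ o))) := by
      apply fp_mono hw0
      intro o ho
      by_contra hcon
      push Not at hcon
      obtain ⟨v, v1, v2, v3⟩ := Cev_final (by omega) hcon.1 hcon.2.1 hcon.2.2
      exact ho ⟨(0, 0), v, by norm_num, Or.inl v1, v2, v3⟩
    have b5 := fp_or (w := w) hw0 (fun o => ¬ Cev M γ k o)
      (fun o => ¬ ver 0 (Ls k) 0 (3 * Ls k) (γ o) ∨ ¬ hor 0 M 0 (Ls k) (γ o))
    have b6 := fp_or (w := w) hw0 (fun o => ¬ ver 0 (Ls k) 0 (3 * Ls k) (γ o))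
      (fun o => ¬ hor 0 M 0 (Ls k) (γ o))
    have b7 : 1120 * q * (3 - 2 / 2 ^ k) ≤ 1120 * q * 3 := by
      apply mul_le_mul_of_nonneg_left _ (by positivity)
      have : (0 : ℝ) ≤ 2 / 2 ^ k := by positivity
      linarith
    have b8 : 1120 * q / 2 ^ k ≤ 1120 * q :=
      div_le_self (by positivity) (one_le_pow₀ (by norm_num))
    have b9 : 1120 * q * 7 ≤ 1 / 2 := by rw [hq]; norm_num
    linarith
  · have hK' : K ≤ 5 := by omega
    have hM1 : 1 ≤ M := by rw [hM]; exact one_le_pow₀ (by norm_num)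
    have hM2 : M ≤ 32 := by
      rw [hM]
      calc (2 : ℤ) ^ K ≤ 2 ^ 5 := pow_le_pow_right₀ (by norm_num) hK'
        _ = 32 := by norm_num
    have h1 := all_open (x0 := 0) (x1 := M) (y0 := 0) (y1 := M) hγ hq0 (Subset.refl _) (n := 33 * 33)
      (by rw [card_rect]; exact Nat.mul_le_mul (by omega) (by omega))
    have h2 : fp w (fun o => ¬ ∃ u v : ℤ × ℤ, (0 ≤ u.1 ∧ u.1 ≤ 4 ∧ 0 ≤ u.2 ∧ u.2 ≤ 4) ∧
        (v.1 = M ∨ v.2 = M) ∧ v ∈ rect 0 M 0 M ∧ conn (rect 0 M 0 M) (γ o) u v) ≤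
        fp w (fun o => ¬ edgesIn (rect 0 M 0 M) ⊆ γ o) := by
      apply fp_mono hw0
      intro o ho hs
      apply ho
      refine ⟨(0, 0), (M, 0), by norm_num, Or.inl rfl, ?_, conn_seg (by omega) (by omega) hs⟩
      rw [mem_rect]; simp only; omega
    have h3 : 2 * ((33 * 33 : ℕ) : ℝ) * q ≤ 1 / 2 := by rw [hq]; norm_num
    have h4 := (h2.trans h1).trans h3
    linarith

end DDA
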