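import Pool.Agent.DDA.AKS
import Pool.Agent.DDA.Coupling
import Pool.Agent.DDA.Cover
import Pool.Agent.DDA.DLow
import Pool.Agent.DDA.DLowSharp
import Pool.Agent.DDA.DUp
import Pool.Agent.DDA.Defs2
import Pool.Agent.DDA.Defs3
import Pool.Agent.DDA.Ghost
import Pool.Agent.DDA.Growth
import Pool.Agent.DDA.Hyp
import Pool.Agent.DDA.Iso
import Pool.Agent.DDA.Kernel
import Pool.Agent.DDA.Meas
import Pool.Agent.DDA.OneStepTau
import Pool.Agent.DDA.Tiles
import Pool.Agent.DDA.Two
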