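import Pool.Agent.DDA.AsmLemmas
import Pool.Agent.DDA.BaseAll

/-!
# DDA: coverage by large local clusters (combination of the ghost field inequality and the variance
bound)
-/

open Finset Filter

namespace DDA

set_option linter.unusedSectionVars false

lemma ev_ge (A : ℝ) : ∀ᶠ d : ℕ in atTop, A ≤ 2 * (d : ℝ) := by
  have : Tendsto (fun d : ℕ => 2 * (d : ℝ)) atTop atTop :=
    tendsto_natCast_atTop_atTop.const_mul_atTop (by norm_num)
  exact this.eventually_ge_atTop A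

lemma ev_log (K : ℕ) {c : ℝ} (hc : 0 < c) :
    ∀ᶠ d : ℕ in atTop, Real.log (2 * (2 * (d : ℝ)) ^ K) ≤ c * (2 * (d : ℝ)) := by
  have t : Tendsto (fun d : ℕ => 2 * (d : ℝ)) atTop atTop :=
    tendsto_natCast_atTop_atTop.const_mul_atTop (by norm_num)
  set δ : ℝ := c / (2 * (K + 1)) with hδ
  have hδ0 : 0 < δ := by positivity
  have h1 := t.eventually (Real.isLittleO_log_id_atTop.def hδ0)
  filter_upwards [h1, ev_ge 1, ev_ge (2 / c)] with d h1 h2 h3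
  have hpos : (0:ℝ) < 2 * d := by linarith
  rw [Real.log_mul (by norm_num) (by positivity), Real.log_pow]
  simp only [id_eq, Real.norm_eq_abs] at h1
  rw [abs_of_pos hpos] at h1
  have h4 := (le_abs_self _).trans h1
  have h5 : Real.log 2 ≤ 1 := by
    have := Real.log_two_lt_d9
    linarith
  have h6 : 2 ≤ c * (2 * d) := by
    rw [div_le_iff₀ hc] at h3
    linarith
  have h7 : (K:ℝ) * Real.log (2 * d) ≤ K * (δ * (2 * d)) :=
    mul_le_mul_of_nonneg_left h4 (by positivity)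
  have h8 : (K:ℝ) * δ ≤ c / 2 := by
    rw [hδ]
    have : (K:ℝ) * (c / (2 * (K + 1))) = c / 2 * (K / (K + 1)) := by
      field_simp
    rw [this]
    have : (K:ℝ) / (K + 1) ≤ 1 := by
      rw [div_le_one (by positivity)]
      linarith
    nlinarith
  nlinarith

/-- the scale reached by the ghost field argument -/
lemma exists_R {X : ℝ} (hX : 1 ≤ X) :
    ∃ R : ℕ, 2 * X ≤ (7 / 4 : ℝ) ^ R ∧ ((2:ℝ) ^ R) ^ 4 ≤ 512 * X ^ 5 := by
  classical
  have hex : ∃ R : ℕ, 2 * X ≤ (7 / 4 : ℝ) ^ R :=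
    ⟨_, (pow_unbounded_of_one_lt (2 * X) (by norm_num : (1:ℝ) < 7 / 4)).choose_spec.le⟩
  refine ⟨Nat.find hex, Nat.find_spec hex, ?_⟩
  set R := Nat.find hex with hR
  have hR0 : R ≠ 0 := by
    intro h0
    have := Nat.find_spec hex
    rw [← hR, h0, pow_zero] at this
    linarith
  obtain ⟨r, hr⟩ := Nat.exists_eq_succ_of_ne_zero hR0
  have h1 : (7 / 4 : ℝ) ^ r < 2 * X := by
    have := Nat.find_min hex (m := r) (by omega)
    exact not_le.mp this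
  rw [hr]
  have h2 : ((2:ℝ) ^ r) ^ 4 ≤ ((7 / 4 : ℝ) ^ r) ^ 5 := by
    rw [← pow_mul, ← pow_mul, mul_comm r 4, mul_comm r 5, pow_mul, pow_mul]
    exact pow_le_pow_left₀ (by norm_num) (by norm_num) r
  have h3 : ((7 / 4 : ℝ) ^ r) ^ 5 ≤ (2 * X) ^ 5 :=
    pow_le_pow_left₀ (by positivity) h1.le 5
  have h4 : ((2:ℝ) ^ (r + 1)) ^ 4 = 16 * ((2:ℝ) ^ r) ^ 4 := by
    have : (2:ℝ) ^ (r + 1) = 2 * (2:ℝ) ^ r := by ring
    rw [this, mul_pow]
    norm_num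
  show ((2:ℝ) ^ (r + 1)) ^ 4 ≤ _
  rw [h4]
  calc 16 * ((2:ℝ) ^ r) ^ 4 ≤ 16 * (2 * X) ^ 5 := by linarith
    _ = 512 * X ^ 5 := by ring

theorem coverage (K' ℓ : ℕ) (hK' : 5 ≤ 3 * K') {c0 : ℝ} (hc0 : 0 < c0) :
    ∃ C : ℝ, 0 < C ∧ ∀ᶠ d : ℕ in atTop,
    ∀ (N : ℕ) [NeZero N], Even N → 4 ≤ N →
    ∀ (S : Finset (TV N d)) (Sy : TV N d → Finset (TV N d)), (0 : TV N d) ∈ S → (∀ y, y ∈ Sy y) →
    (∀ p h : ℝ, 0 ≤ p → p ≤ 1 → 0 ≤ h → ∀ z ∈ S, ∀ y,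
      (T N d).MM univ p S h z ≤ (T N d).MM univ p (Sy y) h y) →
    ∀ p2 : ℝ, 0 < p2 → p2 + c0 / (2 * (d : ℝ)) ^ 4 ≤ 1 / d →
    1 / (2 * (2 * (d : ℝ)) ^ (4 * K')) ≤
      (T N d).MM univ p2 S ((((2 * (d : ℝ)) ^ (4 * K')) ^ 2)⁻¹) 0 →
    ∀ v : TV N d, Pr univ (p2 + c0 / (2 * (d : ℝ)) ^ 4) (fun ω => ∀ y, nrm (y - v) ≤ ℓ →
      ((T N d).cl (Sy y) ω y).card < (2 * d) ^ (3 * K' - 5)) ≤ C / (2 * (d : ℝ)) ^ ℓ * (2 * (d : ℝ)) ^ 8 := by
  obtain ⟨C, hC, d0, hcov⟩ := cover (8 * K') ℓ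
  refine ⟨C, hC, ?_⟩
  filter_upwards [eventually_ge_atTop d0, ev_ge 20, eventually_ge_atTop 2,
    ev_log (4 * K') (c := c0 / 80) (by positivity), ev_ge c0] with d hd0 hd20 hd2 hlog hdc
  intro N _ hE hN S Sy h0S hSy hMM p2 hp2 hp2' hM v
  set Om : ℝ := 2 * (d : ℝ) with hOm
  have hOm0 : 0 < Om := by linarith
  have hOm1 : 1 ≤ Om := by linarith
  set X : ℝ := Om ^ (4 * K') with hX
  have hX1 : 1 ≤ X := one_le_pow₀ hOm1
  set ε : ℝ := c0 / Om ^ 4 with hε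
  have hε0 : 0 < ε := by positivity
  have hd1 : (1:ℝ) / d = 2 / Om := by
    rw [hOm]
    have : (d:ℝ) ≠ 0 := by
      have : 0 < d := by omega
      positivity
    field_simp
  have hdle : (1:ℝ) / d ≤ 1 / 2 := by
    have : (2:ℝ) ≤ d := by exact_mod_cast hd2
    exact one_div_le_one_div_of_le (by norm_num) this
  obtain ⟨R, hR1, hR2⟩ := exists_R hX1
  set s : ℝ := (Om ^ 4)⁻¹ with hs
  have hs0 : 0 < s := by positivity
  have hs1 : s ≤ 1 / 20 := by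
    rw [hs, one_div]
    apply inv_anti₀ (by norm_num)
    calc (20:ℝ) ≤ Om := hd20
      _ = Om ^ 1 := (pow_one _).symm
      _ ≤ Om ^ 4 := pow_le_pow_right₀ hOm1 (by norm_num)
  have hlogpos : 0 < Real.log (2 * X) := Real.log_pos (by linarith)
  have hs2 : s ≤ ε / (10 * (p2 + ε) * Real.log (2 * X)) := by
    rw [le_div_iff₀ (by positivity), hs, hε]
    have h1 : 10 * (p2 + c0 / Om ^ 4) * Real.log (2 * X) ≤ 10 * (2 / Om) * (c0 / 80 * Om) := by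
      have a1 : p2 + c0 / Om ^ 4 ≤ 2 / Om := hd1 ▸ hp2'
      have a2 : 0 ≤ p2 + c0 / Om ^ 4 := by positivity
      apply mul_le_mul (by linarith) hlog hlogpos.le
      positivity
    have h2 : 10 * (2 / Om) * (c0 / 80 * Om) = c0 / 4 := by
      field_simp
      norm_num
    have h3 : (Om ^ 4)⁻¹ * (10 * (p2 + c0 / Om ^ 4) * Real.log (2 * X)) ≤ (Om ^ 4)⁻¹ * c0 := by
      apply mul_le_mul_of_nonneg_left _ (by positivity)
      linarith
    calc _ ≤ (Om ^ 4)⁻¹ * c0 := h3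
      _ = c0 / Om ^ 4 := by rw [mul_comm, div_eq_mul_inv]
  have hp3 : p2 + ε < 1 := by
    have : p2 + ε ≤ 1 / 2 := hp2'.trans hdle
    linarith
  have hM' : 1 / (2 * X) ≤ (T N d).MM univ p2 S ((X ^ 2)⁻¹) 0 := hM
  obtain ⟨z, hz, hzs⟩ := ghost_main (T N d) univ S h0S hp2 hε0 hp3 hX1 hR1
    (by positivity : (0:ℝ) < (X ^ 2)⁻¹) hs0 hs1 hs2 hM'
  set hh : ℝ := 2 ^ R * (X ^ 2)⁻¹ with hhh
  have hh0 : 0 < hh := by positivity
  have hp30 : 0 ≤ p2 + ε := by positivity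
  have hall : ∀ y, s ≤ (T N d).MM univ (p2 + ε) (Sy y) hh y := fun y =>
    hzs.le.trans (hMM _ _ hp30 hp3.le hh0.le z hz y)
  have hX2 : ((2 * (d:ℝ)) ^ (8 * K'))⁻¹ ≤ hh := by
    have : X ^ 2 = (2 * (d:ℝ)) ^ (8 * K') := by
      rw [hX, ← pow_mul]
      congr 1
      ring
    rw [← this, hhh]
    exact le_mul_of_one_le_left (by positivity) (one_le_pow₀ (by norm_num))
  have hcov' := hcov d hd0 N hE hN (p2 + ε) hh s hp30 hp2' hX2 hs0 Sy hSy v (fun y _ => hall y)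
  -- h ≤ 5 Om^(-3K')
  have hh5 : hh ≤ 5 * (Om ^ (3 * K'))⁻¹ := by
    have h4 : hh ^ 4 ≤ (5 * (Om ^ (3 * K'))⁻¹) ^ 4 := by
      have e1 : hh ^ 4 = ((2:ℝ) ^ R) ^ 4 * (X ^ 8)⁻¹ := by
        rw [hhh, mul_pow, inv_pow, ← pow_mul X 2 4]
      have e2 : (5 * (Om ^ (3 * K'))⁻¹) ^ 4 = 625 * (X ^ 3)⁻¹ := by
        rw [mul_pow, inv_pow, ← pow_mul, hX, ← pow_mul]
        norm_num
        congr 1
        ring
      have e3 : 512 * X ^ 5 * (X ^ 8)⁻¹ = 512 * (X ^ 3)⁻¹ := by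
        have : X ≠ 0 := by positivity
        field_simp
      rw [e1, e2]
      calc ((2:ℝ) ^ R) ^ 4 * (X ^ 8)⁻¹ ≤ 512 * X ^ 5 * (X ^ 8)⁻¹ :=
            mul_le_mul_of_nonneg_right hR2 (by positivity)
        _ = 512 * (X ^ 3)⁻¹ := e3
        _ ≤ 625 * (X ^ 3)⁻¹ := by
            apply mul_le_mul_of_nonneg_right (by norm_num) (by positivity)
    exact le_of_pow_le_pow_left₀ (by norm_num) (by positivity) h4
  refine (Pr_mono hp30 hp3.le ?_).trans (hcov'.trans ?_)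
  · intro ω _ h y hy
    have h1 := h y hy
    have h2 : (((T N d).cl (Sy y) ω y).card : ℝ) < Om ^ (3 * K' - 5) := by
      have : (((T N d).cl (Sy y) ω y).card : ℝ) < (((2 * d) ^ (3 * K' - 5) : ℕ) : ℝ) := by
        exact_mod_cast h1
      rw [hOm]
      push_cast at this
      exact this
    have h3 : hh * Om ^ (3 * K' - 5) ≤ s / 2 := by
      have a1 : hh * Om ^ (3 * K' - 5) ≤ 5 * (Om ^ (3 * K'))⁻¹ * Om ^ (3 * K' - 5) :=
        mul_le_mul_of_nonneg_right hh5 (by positivity)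
      have a2 : Om ^ (3 * K') = Om ^ (3 * K' - 5) * Om ^ 5 := by
        rw [← pow_add]
        congr 1
        omega
      have a3 : 5 * (Om ^ (3 * K'))⁻¹ * Om ^ (3 * K' - 5) = 5 / Om * (Om ^ 4)⁻¹ := by
        rw [a2]
        field_simp
      rw [a3] at a1
      refine a1.trans ?_
      rw [hs]
      have a4 : 5 / Om ≤ 1 / 2 := by
        rw [div_le_div_iff₀ hOm0 (by norm_num)]
        linarith
      have a5 : (0:ℝ) ≤ (Om ^ 4)⁻¹ := by positivity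
      nlinarith
    calc hh * (((T N d).cl (Sy y) ω y).card : ℝ) < hh * Om ^ (3 * K' - 5) :=
          mul_lt_mul_of_pos_left h2 hh0
      _ ≤ s / 2 := h3
  · rw [hs]
    apply le_of_eq
    field_simp
    ring

end DDA
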