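import Pool.Agent.DDA.AsmCover

/-!
# DDA: from a large susceptibility to huge expected balls of moderate radius
-/

open Finset Filter

namespace DDA

set_option linter.unusedSectionVars false

theorem big_ball (K : ℕ) (hK : 1 ≤ K) {c0 : ℝ} (hc0 : 0 < c0) : ∀ᶠ d : ℕ in atTop,
    ∀ (N : ℕ) [NeZero N], Even N → 4 ≤ N → ∀ pa : ℝ, 0 ≤ pa →
    pa + c0 / (2 * (d : ℝ)) ^ 4 ≤ 1 / d → (2 * (d : ℝ)) ^ 4 ≤ chi N d pa →
    (2 * (d : ℝ)) ^ K ≤ bb N d (2 ^ K * ((2 * d) ^ 4 + 1) - 1) (pa + c0 / (2 * (d : ℝ)) ^ 4) := by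
  obtain ⟨d0, hgrow⟩ := growth_step K
  have hK' : (0:ℝ) < K := by exact_mod_cast hK
  set a : ℝ := c0 / (4 * K) with ha
  have ha0 : 0 < a := by positivity
  filter_upwards [eventually_ge_atTop d0, eventually_ge_atTop 2, ev_ge 1, ev_ge (1 / a),
    ev_ge (2 / a ^ K)] with d hd0 hd2 hd1 hda hdaK
  intro N _ hE hN pa hpa hpa' hchi
  set Om : ℝ := 2 * (d : ℝ) with hOm
  have hOm0 : 0 < Om := by linarith
  have hdle : (1:ℝ) / d ≤ 1 / 2 := by
    have : (2:ℝ) ≤ d := by exact_mod_cast hd2
    exact one_div_le_one_div_of_le (by norm_num) this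
  have haOm : 1 ≤ a * Om := by
    rw [div_le_iff₀ ha0] at hda
    linarith
  set e : ℝ := c0 / (K * Om ^ 4) with he
  have he0 : 0 < e := by positivity
  have hKe : K * e = c0 / Om ^ 4 := by
    rw [he]
    field_simp
  have hbound : ∀ j : ℕ, j ≤ K → pa + j * e ≤ 1 / d := by
    intro j hj
    have : (j:ℝ) * e ≤ K * e := mul_le_mul_of_nonneg_right (by exact_mod_cast hj) he0.le
    rw [hKe] at this
    linarith
  have main : ∀ j : ℕ, j ≤ K →
      min (Om ^ K) ((a * Om) ^ j * (Om ^ 4 / 2)) ≤ bb N d (2 ^ j * ((2 * d) ^ 4 + 1) - 1) (pa + j * e) := by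
    intro j
    induction j with
    | zero =>
      intro _
      have h1 := ball_start (N := N) (d := d) hpa (by linarith [hbound 0 (Nat.zero_le _)] : pa ≤ 1)
        ((2 * d) ^ 4)
      simp only [pow_zero, one_mul, Nat.add_sub_cancel, Nat.cast_zero, zero_mul, add_zero]
      refine le_trans (min_le_right _ _) (le_trans ?_ h1)
      apply le_min
      · linarith
      · rw [hOm]
        push_cast
        exact le_rfl
    | succ j ih =>
      intro hj
      have hj' : j ≤ K := by omega
      have ihj := ih hj'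
      set k : ℕ := 2 ^ j * ((2 * d) ^ 4 + 1) - 1 with hk
      have hk1 : 1 ≤ 2 ^ j * ((2 * d) ^ 4 + 1) := Nat.one_le_iff_ne_zero.mpr (by positivity)
      have hk2 : 2 ^ (j + 1) * ((2 * d) ^ 4 + 1) - 1 = 2 * k + 1 := by
        have : 2 ^ (j + 1) * ((2 * d) ^ 4 + 1) = 2 * (2 ^ j * ((2 * d) ^ 4 + 1)) := by ring
        rw [this, hk]
        omega
      rw [hk2]
      set pj : ℝ := pa + j * e with hpj
      have hpj0 : 0 ≤ pj := by positivity
      have hpj1 : pa + ((j + 1 : ℕ):ℝ) * e = pj + e := by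
        rw [hpj]
        push_cast
        ring
      rw [hpj1]
      have hb1 : pj + e ≤ 1 / d := by
        rw [← hpj1]
        exact hbound (j + 1) hj
      have hstep := hgrow d hd0 N hE hN k pj (pj + e) hpj0 (by linarith) hb1
      have hmono : bb N d k pj ≤ bb N d (2 * k + 1) (pj + e) :=
        (bb_mono_p' hpj0 (by linarith) (by linarith)).trans
          (bb_mono_k' (by omega) (by linarith) (by linarith))
      by_cases hcase : Om ^ K ≤ (a * Om) ^ j * (Om ^ 4 / 2)
      · rw [min_eq_left hcase] at ihj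
        exact (min_le_left _ _).trans (ihj.trans hmono)
      · rw [min_eq_right (not_le.mp hcase).le] at ihj
        refine le_trans ?_ hstep
        apply min_le_min le_rfl
        set b := bb N d k pj with hb
        have hpow : 1 ≤ (a * Om) ^ j := one_le_pow₀ haOm
        have hb4 : Om ^ 4 / 2 ≤ b := by
          refine le_trans ?_ ihj
          have : 0 ≤ Om ^ 4 / 2 := by positivity
          nlinarith
        have hbpos : 0 < b := lt_of_lt_of_le (by positivity) hb4
        have e1 : (d:ℝ) * (pj + e - pj) * b ^ 2 = Om / 2 * e * (b * b) := by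
          rw [hOm]
          ring
        rw [e1]
        have e2 : Om / 2 * e * (b * (Om ^ 4 / 2)) = a * Om * b := by
          rw [he, ha]
          field_simp
          ring
        calc (a * Om) ^ (j + 1) * (Om ^ 4 / 2) = a * Om * ((a * Om) ^ j * (Om ^ 4 / 2)) := by ring
          _ ≤ a * Om * b := mul_le_mul_of_nonneg_left ihj (by positivity)
          _ = Om / 2 * e * (b * (Om ^ 4 / 2)) := e2.symm
          _ ≤ Om / 2 * e * (b * b) := by
              apply mul_le_mul_of_nonneg_left _ (by positivity)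
              exact mul_le_mul_of_nonneg_left hb4 hbpos.le
  have hfin := main K le_rfl
  rw [hKe] at hfin
  refine le_trans (le_of_eq ?_) hfin
  symm
  apply min_eq_left
  have h1 : 2 ≤ a ^ K * Om ^ 4 := by
    have h2 : 2 ≤ a ^ K * Om := by
      rw [div_le_iff₀ (by positivity)] at hdaK
      linarith
    have h3 : Om ≤ Om ^ 4 := by
      calc Om = Om ^ 1 := (pow_one _).symm
        _ ≤ Om ^ 4 := pow_le_pow_right₀ hd1 (by norm_num)
    have h4 : a ^ K * Om ≤ a ^ K * Om ^ 4 := mul_le_mul_of_nonneg_left h3 (by positivity)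
    linarith
  rw [mul_pow a Om K]
  have h5 : a ^ K * Om ^ K * (Om ^ 4 / 2) = Om ^ K * (a ^ K * Om ^ 4 / 2) := by ring
  rw [h5]
  have h6 : (0:ℝ) ≤ Om ^ K := by positivity
  nlinarith

end DDA
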