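import Pool.Agent.DDA.Defs3

/-!
# DDA: auxiliary lemmas for the assembly
-/

open Finset

namespace DDA

set_option linter.unusedSectionVars false

section general

variable {V E : Type*} [DecidableEq V] [DecidableEq E] {G : LG V E}

namespace LG

lemma MM_le_one {F : Finset E} {p : ℝ} (hp0 : 0 ≤ p) (hp1 : p ≤ 1) (S : Finset V) (h : ℝ) (y : V) :
    G.MM F p S h y ≤ 1 :=
  Ex_le hp0 hp1 (fun _ _ => by
    have := Real.exp_pos (-h * ((G.cl S ‹Finset E› y).card : ℝ))
    linarith)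

lemma MM_nonneg {F : Finset E} {p : ℝ} (hp0 : 0 ≤ p) (hp1 : p ≤ 1) (S : Finset V) {h : ℝ}
    (hh : 0 ≤ h) (y : V) : 0 ≤ G.MM F p S h y :=
  Ex_nonneg hp0 hp1 (fun ω _ => by
    have : Real.exp (-h * ((G.cl S ω y).card : ℝ)) ≤ 1 := by
      rw [Real.exp_le_one_iff]
      have : (0:ℝ) ≤ ((G.cl S ω y).card : ℝ) := by positivity
      nlinarith
    linarith)

lemma MM_mono {F : Finset E} {p : ℝ} (hp0 : 0 ≤ p) (hp1 : p ≤ 1) {S S' : Finset V} (hS : S ⊆ S')
    {h : ℝ} (hh : 0 ≤ h) (y : V) : G.MM F p S h y ≤ G.MM F p S' h y :=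
  Ex_mono hp0 hp1 (fun ω _ => by
    have h1 : ((G.cl S ω y).card : ℝ) ≤ ((G.cl S' ω y).card : ℝ) := by
      exact_mod_cast card_le_card (cl_mono hS (Subset.refl ω))
    have : Real.exp (-h * ((G.cl S' ω y).card : ℝ)) ≤ Real.exp (-h * ((G.cl S ω y).card : ℝ)) := by
      apply Real.exp_le_exp.mpr
      nlinarith
    linarith)

lemma MM_mono_p {F : Finset E} {p q : ℝ} (hp0 : 0 ≤ p) (hpq : p ≤ q) (hq1 : q ≤ 1) (S : Finset V)
    {h : ℝ} (hh : 0 ≤ h) (y : V) : G.MM F p S h y ≤ G.MM F q S h y := by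
  apply Ex_mono_p _ hp0 hpq hq1
  intro ω ω' hω
  have h1 : ((G.cl S ω y).card : ℝ) ≤ ((G.cl S ω' y).card : ℝ) := by
    exact_mod_cast card_le_card (cl_mono (Subset.refl S) hω)
  have : Real.exp (-h * ((G.cl S ω' y).card : ℝ)) ≤ Real.exp (-h * ((G.cl S ω y).card : ℝ)) := by
    apply Real.exp_le_exp.mpr
    nlinarith
  linarith

/-- lower bound from two moments -/
lemma MM_ge {F : Finset E} {p : ℝ} (hp0 : 0 ≤ p) (hp1 : p ≤ 1) (S : Finset V) {h : ℝ}
    (hh : 0 ≤ h) (y : V) (f : Finset E → ℝ) (hf0 : ∀ ω ⊆ F, 0 ≤ f ω)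
    (hf : ∀ ω ⊆ F, f ω ≤ ((G.cl S ω y).card : ℝ)) :
    h * Ex F p f - h ^ 2 / 2 * Ex F p (fun ω => f ω ^ 2) ≤ G.MM F p S h y := by
  rw [← Ex_mul_left, ← Ex_mul_left, ← Ex_sub]
  apply Ex_mono hp0 hp1
  intro ω hω
  have h1 := hf ω hω
  have h0 := hf0 ω hω
  have h2 : Real.exp (-h * ((G.cl S ω y).card : ℝ)) ≤ Real.exp (-(h * f ω)) := by
    apply Real.exp_le_exp.mpr
    nlinarith
  have h3 : Real.exp (-(h * f ω)) ≤ 1 - h * f ω + (h * f ω) ^ 2 / 2 := by
    have hx : 0 ≤ h * f ω := by positivity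
    have h4 := Real.quadratic_le_exp_of_nonneg hx
    -- exp(-x) ≤ 1 - x + x²/2 for x ≥ 0
    have key : ∀ x : ℝ, 0 ≤ x → Real.exp (-x) ≤ 1 - x + x ^ 2 / 2 := by
      intro x hx
      have hmono : MonotoneOn (fun t : ℝ => 1 - t + t ^ 2 / 2 - Real.exp (-t)) (Set.Ici 0) := by
        apply monotoneOn_of_deriv_nonneg (convex_Ici 0)
        · fun_prop
        · fun_prop
        · intro t ht
          have hd : HasDerivAt (fun t : ℝ => 1 - t + t ^ 2 / 2 - Real.exp (-t))
              (0 - 1 + (2 * t ^ 1 * 1) / 2 - Real.exp (-t) * (-1)) t := by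
            refine HasDerivAt.sub ?_ ?_
            · refine HasDerivAt.add ?_ ?_
              · exact (hasDerivAt_const t (1:ℝ)).sub (hasDerivAt_id t)
              · simpa using ((hasDerivAt_id t).pow 2).div_const 2
            · exact (hasDerivAt_neg t).exp
          rw [hd.deriv]
          have := Real.add_one_le_exp (-t)
          nlinarith
      have := hmono (Set.mem_Ici.mpr le_rfl) (Set.mem_Ici.mpr hx) hx
      simp only [neg_zero, Real.exp_zero] at this
      nlinarith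
    exact key _ hx
  nlinarith

end LG

end general

variable {N d : ℕ} [NeZero N]

lemma natAbs_valMinAbs_one_le : ((1 : ZMod N).valMinAbs).natAbs ≤ 1 := by
  rw [ZMod.valMinAbs_natAbs_eq_min]
  refine (min_le_left _ _).trans ?_
  rw [ZMod.val_one_eq_one_mod]
  exact Nat.mod_le _ _

lemma natAbs_valMinAbs_neg_one_le : ((-1 : ZMod N).valMinAbs).natAbs ≤ 1 := by
  rw [ZMod.natAbs_valMinAbs_neg]
  exact natAbs_valMinAbs_one_le

/-- a step changes a coordinate by at most one -/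
lemma natAbs_step {e : TE N d} {x y : TV N d} (h : (T N d).J e x y) (i : Fin d) :
    (y i).valMinAbs.natAbs ≤ (x i).valMinAbs.natAbs + 1 := by
  have key : ∀ a b : ZMod N, b.valMinAbs.natAbs ≤ 1 →
      (a + b).valMinAbs.natAbs ≤ a.valMinAbs.natAbs + 1 := by
    intro a b hb
    have h1 := ZMod.natAbs_valMinAbs_add_le a b
    have h2 := Int.natAbs_add_le a.valMinAbs b.valMinAbs
    omega
  rcases T_J.mp h with ⟨_, rfl⟩ | ⟨_, rfl⟩
  · simp only [Pi.add_apply]
    apply key
    by_cases hi : i = e.2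
    · subst hi
      simpa using natAbs_valMinAbs_one_le
    · rw [Pi.single_eq_of_ne hi]
      simp
  · rw [sub_eq_add_neg]
    simp only [Pi.add_apply, Pi.neg_apply]
    apply key
    by_cases hi : i = e.2
    · subst hi
      simpa using natAbs_valMinAbs_neg_one_le
    · rw [Pi.single_eq_of_ne hi]
      simp

lemma mem_bx_iff {n : ℕ} {x : TV N d} : x ∈ bx N d n ↔ ∀ i, (x i).valMinAbs.natAbs ≤ n := by
  simp [bx]

lemma zero_mem_bx0 (n : ℕ) : (0 : TV N d) ∈ bx N d n := by
  rw [mem_bx_iff]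
  intro i
  simp

lemma ball_subset_bx_aux {ω : Finset (TE N d)} {k : ℕ} {y : TV N d}
    (h : y ∈ (T N d).ball univ ω 0 k) : y ∈ bx N d k ∧ y ∈ (T N d).ball (bx N d k) ω 0 k := by
  induction k generalizing y with
  | zero =>
    obtain ⟨_, rfl⟩ := LG.mem_ball_zero.mp h
    exact ⟨zero_mem_bx0 0, LG.self_mem_ball (zero_mem_bx0 0)⟩
  | succ k ih =>
    have hmono : bx N d k ⊆ bx N d (k + 1) := by
      intro x hx
      rw [mem_bx_iff] at hx ⊢
      intro i
      exact (hx i).trans (Nat.le_succ k)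
    rcases LG.mem_ball_succ.mp h with h' | ⟨_, z, hz, ha⟩
    · obtain ⟨h1, h2⟩ := ih h'
      exact ⟨hmono h1, LG.ball_mono hmono (Subset.refl _) (LG.ball_mono_k (Nat.le_succ k) h2)⟩
    · obtain ⟨h1, h2⟩ := ih hz
      have hy : y ∈ bx N d (k + 1) := by
        rw [mem_bx_iff] at h1 ⊢
        obtain ⟨e, _, he⟩ := ha
        intro i
        exact (natAbs_step he i).trans (Nat.succ_le_succ (h1 i))
      exact ⟨hy, LG.mem_ball_step (LG.ball_mono hmono (Subset.refl _) h2) ha hy⟩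

lemma ball_subset_bx {ω : Finset (TE N d)} {k : ℕ} :
    (T N d).ball univ ω 0 k ⊆ (T N d).cl (bx N d k) ω 0 := by
  intro y hy
  exact LG.ball_subset_cl k (ball_subset_bx_aux hy).2

lemma card_image_add (S : Finset (TV N d)) (v : TV N d) : (S.image (· + v)).card = S.card :=
  card_image_of_injective _ (add_left_injective v)

/-- translation invariance of cluster functionals -/
theorem Ex_cl_translate (S : Finset (TV N d)) (v x : TV N d) (p : ℝ) (hx : x ∈ S) (f : ℕ → ℝ) :
    Ex univ p (fun ω => f ((T N d).cl (S.image (· + v)) ω (x + v)).card)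
      = Ex univ p (fun ω => f ((T N d).cl S ω x).card) := by
  have := Ex_translate S v x S.card p (fun B => f B.card) hx
  unfold LG.cl
  rw [card_image_add]
  rw [this]
  simp only [card_image_add]

theorem MM_translate (S : Finset (TV N d)) (v x : TV N d) (p h : ℝ) (hx : x ∈ S) :
    (T N d).MM univ p (S.image (· + v)) h (x + v) = (T N d).MM univ p S h x :=
  Ex_cl_translate S v x p hx (fun n => 1 - Real.exp (-h * (n : ℝ)))

lemma mem_sbx {n : ℕ} {x y : TV N d} : x ∈ sbx N d n y ↔ x - y ∈ bx N d n := by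
  unfold sbx
  rw [mem_image]
  constructor
  · rintro ⟨a, ha, rfl⟩
    simpa using ha
  · intro h
    exact ⟨x - y, h, by simp⟩

lemma self_mem_sbx (n : ℕ) (y : TV N d) : y ∈ sbx N d n y := by
  rw [mem_sbx, sub_self]
  exact zero_mem_bx0 n

lemma bx_subset_sbx {n : ℕ} {z : TV N d} (hz : z ∈ bx N d n) : bx N d n ⊆ sbx N d (2 * n) z := by
  intro x hx
  rw [mem_sbx, mem_bx_iff]
  rw [mem_bx_iff] at hx hz
  intro i
  have h1 := ZMod.natAbs_valMinAbs_add_le (x i) (-(z i))
  have h2 := Int.natAbs_add_le (x i).valMinAbs (-(z i)).valMinAbs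
  rw [ZMod.natAbs_valMinAbs_neg] at h2
  have h3 := hx i
  have h4 := hz i
  simp only [Pi.sub_apply, sub_eq_add_neg]
  omega

/-- all local boxes have the same functional -/
theorem MM_sbx (n : ℕ) (y : TV N d) (p h : ℝ) :
    (T N d).MM univ p (sbx N d n y) h y = (T N d).MM univ p (bx N d n) h 0 := by
  have := MM_translate (bx N d n) y 0 p h (zero_mem_bx0 n)
  rw [zero_add] at this
  exact this

/-- all clusters of the whole torus have the same functional -/
theorem MM_univ (y : TV N d) (p h : ℝ) :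
    (T N d).MM univ p univ h y = (T N d).MM univ p univ h 0 := by
  have := MM_translate (univ : Finset (TV N d)) y 0 p h (mem_univ _)
  rw [zero_add, image_univ_add] at this
  exact this

lemma bb_mono_p' {k : ℕ} {p q : ℝ} (hp0 : 0 ≤ p) (hpq : p ≤ q) (hq1 : q ≤ 1) :
    bb N d k p ≤ bb N d k q := LG.bex_mono_p hp0 hpq hq1 _

lemma bb_mono_k' {k l : ℕ} (hk : k ≤ l) {p : ℝ} (hp0 : 0 ≤ p) (hp1 : p ≤ 1) :
    bb N d k p ≤ bb N d l p := LG.bex_mono hp0 hp1 (Subset.refl _) hk _

lemma bb_continuous (k : ℕ) : Continuous (fun p => bb N d k p) := Ex_continuous _ _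

lemma chi_continuous : Continuous (fun p => chi N d p) := Ex_continuous _ _

lemma chi_mono {p q : ℝ} (hp0 : 0 ≤ p) (hpq : p ≤ q) (hq1 : q ≤ 1) : chi N d p ≤ chi N d q :=
  bb_mono_p' hp0 hpq hq1

lemma bb_ge_one {k : ℕ} {p : ℝ} (hp0 : 0 ≤ p) (hp1 : p ≤ 1) : 1 ≤ bb N d k p := by
  apply le_Ex hp0 hp1
  intro ω _
  have : 0 < ((T N d).ball univ ω 0 k).card := card_pos.mpr ⟨0, LG.self_mem_ball (mem_univ _)⟩
  exact_mod_cast this

lemma chi_ge_one {p : ℝ} (hp0 : 0 ≤ p) (hp1 : p ≤ 1) : 1 ≤ chi N d p := bb_ge_one hp0 hp1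

/-- at `p = 0` all edges are closed -/
lemma Ex_p_zero {E : Type*} [DecidableEq E] (F : Finset E) (f : Finset E → ℝ) :
    Ex F 0 f = f ∅ := by
  induction F using Finset.induction_on with
  | empty => exact Ex_empty _ _
  | insert e F he ih =>
    rw [Ex_insert he, ih]
    ring

lemma bb_p_zero (k : ℕ) : bb N d k 0 = 1 := by
  unfold bb LG.bex
  rw [Ex_p_zero]
  have : (T N d).ball univ ∅ 0 k = {0} := by
    induction k with
    | zero =>
      ext y
      rw [LG.mem_ball_zero, mem_singleton]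
      constructor
      · rintro ⟨_, rfl⟩
        rfl
      · rintro rfl
        exact ⟨mem_univ _, rfl⟩
    | succ k ih =>
      ext y
      rw [LG.mem_ball_succ, ih, mem_singleton]
      constructor
      · rintro (h | ⟨_, z, _, e, he, _⟩)
        · exact h
        · simp at he
      · exact fun h => Or.inl h
  rw [this]
  simp

lemma chi_p_zero : chi N d 0 = 1 := bb_p_zero _

end DDA
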