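import Pool.Agent.DDA.AsmGrowth

/-!
# DDA: `p_c(ℤ^d) ≤ p - c (2d)^(-4)` whenever the hypercube susceptibility at `p` is at least `(2d)^4`
-/

open Finset Filter

namespace DDA

set_option linter.unusedSectionVars false

lemma Pr_anti_p {E : Type*} [DecidableEq E] {F : Finset E} {A : Finset E → Prop}
    (hA : ∀ ω ω', ω ⊆ ω' → A ω' → A ω) {p q : ℝ} (hp0 : 0 ≤ p) (hpq : p ≤ q) (hq1 : q ≤ 1) :
    Pr F q A ≤ Pr F p A := by
  classical
  have h := Ex_mono_p (F := F) (f := fun ω => 1 - (if A ω then (1:ℝ) else 0)) (by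
    intro ω ω' h
    by_cases h1 : A ω'
    · simp [h1, hA ω ω' h h1]
    · simp only [h1, if_false]
      split_ifs <;> norm_num) hp0 hpq hq1
  rw [Ex_sub, Ex_sub, Ex_const, Ex_const] at h
  unfold Pr
  linarith

lemma Pr_mono_p {E : Type*} [DecidableEq E] {F : Finset E} {A : Finset E → Prop}
    (hA : ∀ ω ω', ω ⊆ ω' → A ω → A ω') {p q : ℝ} (hp0 : 0 ≤ p) (hpq : p ≤ q) (hq1 : q ≤ 1) :
    Pr F p A ≤ Pr F q A := by
  classical
  apply Ex_mono_p _ hp0 hpq hq1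
  intro ω ω' h
  by_cases h1 : A ω
  · simp [h1, hA ω ω' h h1]
  · simp only [h1, if_false]
    split_ifs <;> norm_num

lemma thT_mono_p {N d n : ℕ} [NeZero N] {p q : ℝ} (hp0 : 0 ≤ p) (hpq : p ≤ q) (hq1 : q ≤ 1) :
    thT N d n p ≤ thT N d n q := by
  apply Pr_mono_p _ hp0 hpq hq1
  rintro ω ω' h ⟨y, hy, hy'⟩
  exact ⟨y, LG.cl_mono (Subset.refl _) h hy, hy'⟩

lemma theta_nonneg {V : Type} (G : SimpleGraph V) (x : V) (p : unitInterval) : 0 ≤ theta G x p :=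
  MeasureTheory.measureReal_nonneg

lemma Pr_p_zero {E : Type*} [DecidableEq E] (F : Finset E) {A : Finset E → Prop} (hA : ¬ A ∅) :
    Pr F 0 A = 0 := by
  classical
  unfold Pr
  rw [Ex_p_zero, if_neg hA]

lemma cl_empty {N d : ℕ} (S : Finset (TV N d)) {y : TV N d} (hy : y ∈ (T N d).cl S ∅ 0) : y = 0 := by
  unfold LG.cl at hy
  generalize S.card = k at hy
  induction k generalizing y with
  | zero => exact (LG.mem_ball_zero.mp hy).2
  | succ k ih =>
    rcases LG.mem_ball_succ.mp hy with h | ⟨_, z, _, e, he, _⟩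
    · exact ih h
    · simp at he

lemma theta_zero {d : ℕ} (hd : 1 ≤ d) : theta (Zd d) 0 ⟨0, unitInterval.zero_mem⟩ = 0 := by
  apply le_antisymm _ (theta_nonneg _ _ _)
  refine (theta_le hd ⟨0, unitInterval.zero_mem⟩ 1 5 (by norm_num)).trans (le_of_eq ?_)
  apply Pr_p_zero
  rintro ⟨y, hy, i, hi⟩
  rw [cl_empty _ hy] at hi
  simp at hi

/-- a uniform lower bound on the finite volume connection probabilities bounds `p_c` -/
lemma pcZ_le {d : ℕ} (hd : 1 ≤ d) {p4 c : ℝ} (hp40 : 0 ≤ p4) (hc : 0 < c)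
    (h : ∀ n : ℕ, ∃ N : ℕ, ∃ _ : NeZero N, 2 * n + 3 ≤ N ∧ c ≤ thT N d n p4) :
    pcZ d ≤ p4 := by
  apply csSup_le
  · exact ⟨0, unitInterval.zero_mem, theta_zero hd⟩
  · rintro q ⟨hq, hq0⟩
    by_contra hcon
    push Not at hcon
    have h1 : c ≤ theta (Zd d) 0 ⟨q, hq⟩ := by
      apply le_theta hd
      intro n
      obtain ⟨N, hN, h2, h3⟩ := h n
      exact ⟨N, hN, h2, h3.trans (thT_mono_p hp40 hcon.le hq.2)⟩
    rw [hq0] at h1
    linarith

end DDA
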