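import Pool.Agent.DDA.AsmLow

open Finset Filter

namespace DDA

set_option linter.unusedSectionVars false

/-- radius of the local boxes -/
@[irreducible] def n0 (d : ℕ) : ℕ := 2 ^ 224 * ((2 * d) ^ 4 + 1) - 1

/-- If the susceptibility of the torus is at least `(2d)^4` at `pa`, then slightly above `pa` every
vertex is close to a vertex with a huge local cluster. -/
theorem local_cov {c0 : ℝ} (hc0 : 0 < c0) : ∃ C : ℝ, 0 < C ∧ ∀ᶠ d : ℕ in atTop,
    ∀ (N : ℕ) [NeZero N], Even N → 4 ≤ N → ∀ pa : ℝ, 0 ≤ pa →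
    pa + c0 / (2 * (d : ℝ)) ^ 4 + c0 / (2 * (d : ℝ)) ^ 4 ≤ 1 / d → (2 * (d : ℝ)) ^ 4 ≤ chi N d pa →
    Pr univ (pa + c0 / (2 * (d : ℝ)) ^ 4 + c0 / (2 * (d : ℝ)) ^ 4) (fun ω => ∀ y : TV N d,
      nrm y ≤ 15 → ((T N d).cl (sbx N d (2 * n0 d) y) ω y).card < (2 * d) ^ 163)
      ≤ C / (2 * (d : ℝ)) ^ 7 := by
  obtain ⟨C, hC, hcov⟩ := coverage 56 15 (by norm_num) hc0
  simp only [show 4 * 56 = 224 from rfl, show 3 * 56 - 5 = 163 from rfl] at hcov
  refine ⟨C, hC, ?_⟩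
  filter_upwards [hcov, big_ball 224 (by norm_num) hc0, ev_ge 2, eventually_ge_atTop 2]
    with d hcov hbig hd2 hd2'
  intro N _ hE hN pa hpa hpa' hchi
  set Om : ℝ := 2 * (d : ℝ) with hOm
  have hOm0 : 0 < Om := by linarith
  set e : ℝ := c0 / Om ^ 4 with he
  have he0 : 0 < e := by positivity
  have hdle : (1:ℝ) / d ≤ 1 / 2 := by
    have : (2:ℝ) ≤ d := by exact_mod_cast hd2'
    exact one_div_le_one_div_of_le (by norm_num) this
  have hpa1 : pa + c0 / Om ^ 4 ≤ 1 / d := by linarith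
  have hb := hbig N hE hN pa hpa hpa1 hchi
  set pb : ℝ := pa + e with hpb
  have hpb0 : 0 ≤ pb := by positivity
  have hX1' : (1:ℝ) < Om ^ 224 := one_lt_pow₀ (by linarith) (by norm_num)
  obtain ⟨X, hX⟩ : ∃ X : ℝ, X = Om ^ 224 := ⟨_, rfl⟩
  have hX1 : 1 < X := hX ▸ hX1'
  have hb' : X ≤ bb N d (n0 d) pb := by
    rw [hX, n0]
    exact hb
  rw [← hX] at hcov
  clear hb hX1' hX
  -- choose p2
  obtain ⟨p2, hp2, hp2e⟩ : ∃ p2 ∈ Set.Icc (0:ℝ) pb, bb N d (n0 d) p2 = X := by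
    have := intermediate_value_Icc hpb0 (bb_continuous (N := N) (d := d) (n0 d)).continuousOn
    exact this ⟨by simp only [bb_p_zero]; exact hX1.le, hb'⟩
  have hp20 : 0 < p2 := by
    rcases eq_or_lt_of_le hp2.1 with h | h
    · rw [← h, bb_p_zero] at hp2e
      linarith
    · exact h
  have hp2le : p2 ≤ pb := hp2.2
  have hp2e1 : p2 + e ≤ 1 / d := by linarith
  have hp2half : p2 ≤ 1 / 2 := by linarith
  have hXpos : 0 < X := by linarith
  have hM : 1 / (2 * X) ≤ (T N d).MM univ p2 (bx N d (n0 d)) ((X ^ 2)⁻¹) 0 := by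
    have h1 := LG.MM_ge (G := T N d) (F := univ) hp20.le (by linarith) (bx N d (n0 d))
      (by positivity : (0:ℝ) ≤ (X ^ 2)⁻¹) 0
      (fun ω => (((T N d).ball univ ω 0 (n0 d)).card : ℝ)) (fun ω _ => Nat.cast_nonneg _)
      (fun ω _ => by exact_mod_cast card_le_card ball_subset_bx)
    have h2 := second_moment (N := N) (d := d) (by omega) hp20.le hp2half (n0 d)
    rw [hp2e] at h2
    have h3 : Ex univ p2 (fun ω => (((T N d).ball univ ω 0 (n0 d)).card : ℝ)) = X := hp2e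
    rw [h3] at h1
    refine le_trans ?_ h1
    have h4 : ((X ^ 2)⁻¹) ^ 2 / 2 * Ex univ p2 (fun ω => (((T N d).ball univ ω 0 (n0 d)).card : ℝ) ^ 2)
        ≤ ((X ^ 2)⁻¹) ^ 2 / 2 * X ^ 3 := mul_le_mul_of_nonneg_left h2 (by positivity)
    have h5 : (X ^ 2)⁻¹ * X = 1 / X := by
      field_simp
    have h6 : ((X ^ 2)⁻¹) ^ 2 / 2 * X ^ 3 = 1 / X / 2 := by
      field_simp
    have h7 : 1 / (2 * X) = 1 / X / 2 := by
      field_simp
    rw [h5, h7]
    rw [h6] at h4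
    linarith
  have hMM : ∀ p h : ℝ, 0 ≤ p → p ≤ 1 → 0 ≤ h → ∀ z ∈ bx N d (n0 d), ∀ y,
      (T N d).MM univ p (bx N d (n0 d)) h z ≤ (T N d).MM univ p (sbx N d (2 * n0 d) y) h y := by
    intro p h hp0 hp1 hh z hz y
    rw [MM_sbx, ← MM_sbx (2 * n0 d) z]
    exact LG.MM_mono hp0 hp1 (bx_subset_sbx hz) hh z
  have hres := hcov N hE hN (bx N d (n0 d)) (fun y => sbx N d (2 * n0 d) y) (zero_mem_bx0 _)
    (fun y => self_mem_sbx _ y) hMM p2 hp20 hp2e1 hM 0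
  simp only [sub_zero] at hres
  refine (Pr_anti_p ?_ (by positivity : (0:ℝ) ≤ p2 + e) (by linarith) (by linarith)).trans
    (hres.trans (le_of_eq ?_))
  · intro ω ω' hω h y hy
    exact lt_of_le_of_lt (card_le_card (LG.cl_mono (Subset.refl _) hω)) (h y hy)
  · field_simp

end DDA
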