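import Pool.Agent.DDA.AsmLow2

open Finset Filter

namespace DDA

set_option linter.unusedSectionVars false

/-- from large torus susceptibilities to percolation in `ℤ^d` -/
theorem pcZ_of_chi {c0 : ℝ} (hc0 : 0 < c0) : ∀ᶠ d : ℕ in atTop,
    ∀ pa : ℝ, 0 ≤ pa → pa + c0 / (2 * (d : ℝ)) ^ 4 + c0 / (2 * (d : ℝ)) ^ 4 ≤ 1 / d →
    (∀ (N : ℕ) [NeZero N], 4 ∣ N → 12 ≤ N → (2 * (d : ℝ)) ^ 4 ≤ chi N d pa) →
    pcZ d ≤ pa + c0 / (2 * (d : ℝ)) ^ 4 + c0 / (2 * (d : ℝ)) ^ 4 + c0 / (2 * (d : ℝ)) ^ 4 := by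
  obtain ⟨C, hC, hloc⟩ := local_cov hc0
  obtain ⟨q0, hq0, htiles⟩ := tiles
  obtain ⟨A, hA⟩ : ∃ A : ℝ, A = 2 ^ 224 := ⟨_, rfl⟩
  have hA1 : 1 ≤ A := by rw [hA]; exact one_le_pow₀ (by norm_num)
  filter_upwards [hloc, ev_ge 2, eventually_ge_atTop 159, ev_ge 8, ev_ge c0,
    ev_ge (2 ^ 18 * (4 * A) * C / q0), ev_ge (2 ^ 53 * (4 * A) / c0 ^ 31),
    ev_ge (2 ^ 51 / (q0 * c0 ^ 31))]
    with d hloc hd2 hd159 hd8 hdc0 hn1 hn2 hn3
  intro pa hpa hpa' hchi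
  set Om : ℝ := 2 * (d : ℝ) with hOm
  have hOm0 : 0 < Om := by linarith
  have hOm1 : 1 ≤ Om := by linarith
  have hdle : (1:ℝ) / d ≤ 1 / 2 := by
    have : (2:ℝ) ≤ d := by linarith
    exact one_div_le_one_div_of_le (by norm_num) this
  set e : ℝ := c0 / Om ^ 4 with he
  have he0 : 0 < e := by positivity
  have he1 : e ≤ 1 := by
    rw [he, div_le_one (by positivity)]
    calc c0 ≤ Om := hdc0
      _ = Om ^ 1 := (pow_one _).symm
      _ ≤ Om ^ 4 := pow_le_pow_right₀ hOm1 (by norm_num)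
  set p3 : ℝ := pa + e + e with hp3
  have hp30 : 0 ≤ p3 := by positivity
  have hp31 : p3 ≤ 1 := by linarith
  set n : ℕ := 2 * d * (2 * n0 d + 15 + 1) with hn
  have hnle : (n:ℝ) ≤ 4 * A * Om ^ 5 := by
    have h1 : ((2 * n0 d + 15 + 1 : ℕ) : ℝ) ≤ 4 * A * Om ^ 4 := by
      have h2 : ((n0 d : ℕ) : ℝ) ≤ A * (Om ^ 4 + 1) := by
        have : n0 d ≤ 2 ^ 224 * ((2 * d) ^ 4 + 1) := by
          rw [n0]
          exact Nat.sub_le _ _
        have h3 : ((n0 d : ℕ) : ℝ) ≤ ((2 ^ 224 * ((2 * d) ^ 4 + 1) : ℕ) : ℝ) := by exact_mod_cast this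
        refine h3.trans (le_of_eq ?_)
        rw [hA, hOm]
        push_cast
        ring
      have h4 : (16:ℝ) ≤ Om ^ 4 := by
        calc (16:ℝ) ≤ 8 ^ 4 := by norm_num
          _ ≤ Om ^ 4 := pow_le_pow_left₀ (by norm_num) hd8 4
      have h5 : Om ^ 4 ≤ A * Om ^ 4 := le_mul_of_one_le_left (by positivity) hA1
      push_cast
      nlinarith
    have h2 : (n:ℝ) = Om * ((2 * n0 d + 15 + 1 : ℕ) : ℝ) := by
      rw [hn, hOm]
      push_cast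
      ring
    rw [h2]
    calc Om * ((2 * n0 d + 15 + 1 : ℕ) : ℝ) ≤ Om * (4 * A * Om ^ 4) :=
          mul_le_mul_of_nonneg_left h1 hOm0.le
      _ = 4 * A * Om ^ 5 := by ring
  have hnge : Om ≤ (n:ℝ) := by
    have h2 : (n:ℝ) = Om * ((2 * n0 d + 15 + 1 : ℕ) : ℝ) := by
      rw [hn, hOm]
      push_cast
      ring
    rw [h2]
    have : (1:ℝ) ≤ ((2 * n0 d + 15 + 1 : ℕ) : ℝ) := by exact_mod_cast (by omega)
    exact le_mul_of_one_le_right hOm0.le this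
  have hn0 : (0:ℝ) < n := by linarith
  have hX0 : 1 ≤ (2 * d) ^ 163 := Nat.one_le_iff_ne_zero.mpr (by
    have : 0 < d := by omega
    positivity)
  have hd33 : (2 * (d:ℝ) + 1) ^ (2 * 15 + 3) ≤ 2 ^ 33 * Om ^ 33 := by
    rw [← mul_pow]
    apply pow_le_pow_left₀ (by positivity)
    rw [← hOm]
    linarith
  have he31 : e ^ (2 * 15 + 1) = c0 ^ 31 / Om ^ 124 := by
    rw [he, div_pow, ← pow_mul]
  -- the conditions of `tiles`
  have c3 : 2 ^ 18 * (n:ℝ) * d * (C / Om ^ 7) ≤ q0 := by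
    have h1 : (d:ℝ) ≤ Om := by rw [hOm]; linarith
    have h2 : 2 ^ 18 * (n:ℝ) * d * (C / Om ^ 7) ≤ 2 ^ 18 * (4 * A * Om ^ 5) * Om * (C / Om ^ 7) := by
      apply mul_le_mul_of_nonneg_right _ (by positivity)
      apply mul_le_mul _ h1 (by positivity) (by positivity)
      exact mul_le_mul_of_nonneg_left hnle (by norm_num)
    refine h2.trans ?_
    have h3 : 2 ^ 18 * (4 * A * Om ^ 5) * Om * (C / Om ^ 7) = 2 ^ 18 * (4 * A) * C / Om := by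
      field_simp
    rw [h3, div_le_iff₀ hOm0]
    rw [div_le_iff₀ hq0] at hn1
    linarith
  have c4 : (2:ℝ) ^ 20 * n * (2 * d + 1) ^ (2 * 15 + 3) ≤ ((2 * d) ^ 163 : ℕ) * e ^ (2 * 15 + 1) := by
    have h1 : (2:ℝ) ^ 20 * n * (2 * d + 1) ^ (2 * 15 + 3)
        ≤ 2 ^ 20 * (4 * A * Om ^ 5) * (2 ^ 33 * Om ^ 33) := by
      apply mul_le_mul _ hd33 (by positivity) (by positivity)
      exact mul_le_mul_of_nonneg_left hnle (by norm_num)
    refine h1.trans ?_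
    rw [he31]
    have h2 : (((2 * d) ^ 163 : ℕ) : ℝ) = Om ^ 163 := by
      rw [hOm]
      push_cast
      rfl
    rw [h2]
    have h3 : Om ^ 163 * (c0 ^ 31 / Om ^ 124) = c0 ^ 31 * Om ^ 39 := by
      have : Om ^ 163 = Om ^ 39 * Om ^ 124 := by rw [← pow_add]
      rw [this]
      have h0 : Om ^ 124 ≠ 0 := by positivity
      field_simp
    rw [h3]
    have h4 : 2 ^ 20 * (4 * A * Om ^ 5) * (2 ^ 33 * Om ^ 33) = 2 ^ 53 * (4 * A) * Om ^ 38 := by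
      have : Om ^ 38 = Om ^ 5 * Om ^ 33 := by rw [← pow_add]
      rw [this]
      ring
    rw [h4]
    rw [div_le_iff₀ (by positivity)] at hn2
    calc 2 ^ 53 * (4 * A) * Om ^ 38 ≤ (Om * c0 ^ 31) * Om ^ 38 :=
          mul_le_mul_of_nonneg_right hn2 (by positivity)
      _ = c0 ^ 31 * Om ^ 39 := by
          have : Om ^ 39 = Om * Om ^ 38 := by rw [← pow_succ']
          rw [this]
          ring
  have c5 : (2:ℝ) ^ 18 * n * (2 * d + 1) ^ (2 * 15 + 3) ≤ q0 * e ^ (2 * 15 + 1) * (n:ℝ) ^ d := by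
    have h1 : (2:ℝ) ^ 18 * n * (2 * d + 1) ^ (2 * 15 + 3) ≤ 2 ^ 18 * n * (2 ^ 33 * Om ^ 33) :=
      mul_le_mul_of_nonneg_left hd33 (by positivity)
    refine h1.trans ?_
    rw [he31]
    have h2 : (n:ℝ) * Om ^ 158 ≤ (n:ℝ) ^ d := by
      have h3 : (n:ℝ) ^ d = n * (n:ℝ) ^ (d - 1) := by
        rw [← pow_succ']
        congr 1
        omega
      rw [h3]
      apply mul_le_mul_of_nonneg_left _ hn0.le
      calc Om ^ 158 ≤ (n:ℝ) ^ 158 := pow_le_pow_left₀ hOm0.le hnge 158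
        _ ≤ (n:ℝ) ^ (d - 1) := pow_le_pow_right₀ (hOm1.trans hnge) (by omega)
    have h4 : q0 * (c0 ^ 31 / Om ^ 124) * (n * Om ^ 158) ≤ q0 * (c0 ^ 31 / Om ^ 124) * (n:ℝ) ^ d :=
      mul_le_mul_of_nonneg_left h2 (by positivity)
    refine le_trans ?_ h4
    have h5 : q0 * (c0 ^ 31 / Om ^ 124) * (n * Om ^ 158) = n * (q0 * c0 ^ 31 * Om ^ 34) := by
      have : Om ^ 158 = Om ^ 34 * Om ^ 124 := by rw [← pow_add]
      rw [this]
      have h0 : Om ^ 124 ≠ 0 := by positivity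
      field_simp
    rw [h5]
    rw [div_le_iff₀ (by positivity)] at hn3
    have h6 : 2 ^ 51 * Om ^ 33 ≤ q0 * c0 ^ 31 * Om ^ 34 := by
      calc 2 ^ 51 * Om ^ 33 ≤ (Om * (q0 * c0 ^ 31)) * Om ^ 33 :=
            mul_le_mul_of_nonneg_right hn3 (by positivity)
        _ = q0 * c0 ^ 31 * Om ^ 34 := by
            have : Om ^ 34 = Om * Om ^ 33 := by rw [← pow_succ']
            rw [this]
            ring
    calc 2 ^ 18 * (n:ℝ) * (2 ^ 33 * Om ^ 33) = n * (2 ^ 51 * Om ^ 33) := by ring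
      _ ≤ n * (q0 * c0 ^ 31 * Om ^ 34) := mul_le_mul_of_nonneg_left h6 hn0.le
  obtain ⟨c, hc, hc'⟩ := htiles d (by omega) 15 (2 * n0 d) ((2 * d) ^ 163) n (C / Om ^ 7) e p3 hp30 hp31
    he0 he1 hX0 le_rfl c3 c4 c5
  have hp4 : 1 - (1 - p3) * (1 - e) ≤ p3 + e := by nlinarith
  have hp40 : 0 ≤ 1 - (1 - p3) * (1 - e) := by nlinarith [mul_nonneg hp30 (sub_nonneg.mpr he1)]
  refine (pcZ_le (d := d) (by omega) hp40 hc ?_).trans hp4
  intro k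
  obtain ⟨N0, hN0⟩ := hc' k
  have hne : NeZero (4 * (N0 + 2 * k + 3)) := ⟨by omega⟩
  refine ⟨4 * (N0 + 2 * k + 3), hne, by omega, ?_⟩
  apply hN0 _ (by omega)
  exact hloc (4 * (N0 + 2 * k + 3)) (by
    rw [Nat.even_iff]
    omega) (by omega) pa hpa hpa' (hchi _ (Dvd.intro _ rfl) (by omega))

end DDA
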