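import Pool.Agent.DDA.AsmLow3

open Finset Filter

namespace DDA

set_option linter.unusedSectionVars false

/-- **Lower bound.** -/
theorem lower : ∃ c : ℝ, 0 < c ∧ ∀ᶠ d : ℕ in atTop, ∀ p : ℝ, 0 ≤ p → p ≤ 1 →
    (2 * (d : ℝ)) ^ 4 ≤ chi 4 d p → pcZ d ≤ p - c / (2 * (d : ℝ)) ^ 4 := by
  obtain ⟨c1, hc1, hD⟩ := D_low
  set c0 : ℝ := c1 / 4 with hc0
  have hc00 : 0 < c0 := by positivity
  obtain ⟨dD, hD'⟩ := hD (1 / (3 * c0)) (by positivity)
  obtain ⟨CL, hCL, dL, hL⟩ := chi_lower 4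
  refine ⟨c0, hc00, ?_⟩
  have hc04 : 0 < c0 / 4 := by positivity
  filter_upwards [pcZ_of_chi hc04, eventually_ge_atTop dD, eventually_ge_atTop dL,
    eventually_ge_atTop 4, ev_ge (4 * CL), ev_ge (8 * c0), ev_ge (2 / c0), ev_ge 4]
    with d hpc hdD hdL hd4 hdC hd8 hd1 hdO4
  intro p hp0 hp1 hp
  set Om : ℝ := 2 * (d : ℝ) with hOm
  have hOm0 : 0 < Om := by linarith
  have hOm1 : 1 ≤ Om := by linarith
  have hdpos : (0:ℝ) < d := by
    have : 0 < d := by omega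
    exact_mod_cast this
  have hdd : (1:ℝ) / d = 2 / Om := by
    rw [hOm]
    field_simp
  have hdle : (1:ℝ) / d ≤ 1 / 2 := by
    have : (2:ℝ) ≤ d := by linarith
    exact one_div_le_one_div_of_le (by norm_num) this
  have hX1 : (1:ℝ) ≤ Om ^ 4 := one_le_pow₀ hOm1
  obtain ⟨pX, hpX, hpXe⟩ : ∃ pX ∈ Set.Icc (0:ℝ) p, chi 4 d pX = Om ^ 4 := by
    have := intermediate_value_Icc hp0 (chi_continuous (N := 4) (d := d)).continuousOn
    exact this ⟨by simp only [chi_p_zero]; exact hX1, hp⟩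
  have hpX0 : 0 ≤ pX := hpX.1
  have hpXp : pX ≤ p := hpX.2
  have hchi_inv : ∀ q : ℝ, 0 ≤ q → q ≤ 1 → 0 < 1 / chi 4 d q := fun q h0 h1 => by
    have := chi_ge_one (N := 4) (d := d) h0 h1
    positivity
  -- upper bound on pX
  have hpXd : pX ≤ 1 / d := by
    by_contra hcon
    push Not at hcon
    have h1 : chi 4 d (1 / d) ≤ Om ^ 4 := hpXe ▸ chi_mono (by positivity) hcon.le (hpXp.trans hp1)
    have h2 := hL d hdL 4 (by decide) le_rfl 0 (1 / d) le_rfl (by positivity) le_rfl h1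
    rw [chi_p_zero] at h2
    have h3 := hchi_inv (1 / d) (by positivity) (by linarith)
    have h4 : (2 * (d:ℝ) - CL) * (1 / d - 0) = 2 - CL / d := by
      field_simp
      ring
    rw [h4] at h2
    have h5 : CL / d ≤ 1 / 2 := by
      rw [div_le_iff₀ hdpos]
      linarith
    linarith
  -- lower bound on pX
  have hpXlow : (1 - 1 / Om ^ 4) / Om ≤ pX := by
    have h1 := chi_upper (N := 4) (d := d) (by norm_num) le_rfl hpX0 (by linarith : pX ≤ 1 / 2)
    rw [chi_p_zero, hpXe] at h1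
    rw [div_le_iff₀ hOm0]
    have : 2 * (d:ℝ) * (pX - 0) = pX * Om := by rw [hOm]; ring
    rw [this] at h1
    linarith
  set pa : ℝ := pX - 2 * c0 / Om ^ 4 with hpa
  have hpaX : pa ≤ pX := by
    have : 0 ≤ 2 * c0 / Om ^ 4 := by positivity
    linarith
  have hpa4 : 1 / (4 * (d:ℝ)) ≤ pa := by
    have e1 : 1 / (4 * (d:ℝ)) = 1 / 2 / Om := by
      rw [hOm]
      field_simp
      norm_num
    have e2 : 2 * c0 / Om ^ 4 = 2 * c0 / Om ^ 3 / Om := by
      field_simp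
    rw [e1, hpa, e2]
    have h3 : 2 * c0 / Om ^ 3 ≤ 1 / 4 := by
      rw [div_le_div_iff₀ (by positivity) (by norm_num)]
      have : Om ≤ Om ^ 3 := by
        calc Om = Om ^ 1 := (pow_one _).symm
          _ ≤ Om ^ 3 := pow_le_pow_right₀ hOm1 (by norm_num)
      linarith
    have h4 : 1 / Om ^ 4 ≤ 1 / 4 := by
      apply one_div_le_one_div_of_le (by norm_num)
      calc (4:ℝ) ≤ Om := hdO4
        _ = Om ^ 1 := (pow_one _).symm
        _ ≤ Om ^ 4 := pow_le_pow_right₀ hOm1 (by norm_num)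
    have h5 : 1 / 2 / Om ≤ (1 - 1 / Om ^ 4) / Om - 2 * c0 / Om ^ 3 / Om := by
      rw [← sub_div]
      apply div_le_div_of_nonneg_right _ hOm0.le
      linarith
    linarith
  have hpa0 : 0 ≤ pa := le_trans (by positivity) hpa4
  have hpad : pa ≤ 1 / d := hpaX.trans hpXd
  -- the tori
  have hchiN : ∀ (N : ℕ) [NeZero N], 4 ∣ N → 8 ≤ N → Om ^ 4 ≤ chi N d pa := by
    intro N _ h4 h8
    by_contra hcon
    push Not at hcon
    have h1 := chi_upper (N := 4) (d := d) (by norm_num) hpa0 hpaX (by linarith : pX ≤ 1 / 2)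
    have h2 : 2 * (d:ℝ) * (pX - pa) = 2 * c0 / Om ^ 3 := by
      rw [hpa, ← hOm]
      field_simp
      ring
    rw [h2, hpXe] at h1
    have h3 : 1 / Om ^ 4 ≤ c0 / 2 / Om ^ 3 := by
      have : 1 / Om ^ 4 = 1 / Om / Om ^ 3 := by
        field_simp
      rw [this]
      apply div_le_div_of_nonneg_right _ (by positivity)
      rw [div_le_iff₀ hOm0]
      rw [div_le_iff₀ hc00] at hd1
      linarith
    have h4' : 1 / chi 4 d pa ≤ 3 * c0 / Om ^ 3 := by
      have : 3 * c0 / Om ^ 3 = 2 * c0 / Om ^ 3 + c0 / 2 / Om ^ 3 + c0 / 2 / Om ^ 3 := by ring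
      rw [this]
      have : 0 ≤ c0 / 2 / Om ^ 3 := by positivity
      linarith
    have hχ := chi_ge_one (N := 4) (d := d) hpa0 (by linarith : pa ≤ 1)
    have hχN := chi_ge_one (N := N) (d := d) hpa0 (by linarith : pa ≤ 1)
    have hχ0 : 0 < chi 4 d pa := by linarith
    have hχN0 : 0 < chi N d pa := by linarith
    have h5 : 1 / (3 * c0) * Om ^ 3 ≤ chi 4 d pa := by
      rw [div_le_div_iff₀ hχ0 (by positivity)] at h4'
      rw [div_mul_eq_mul_div, one_mul, div_le_iff₀ (by positivity)]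
      linarith
    have h6 := hD' d hdD N h4 h8 pa hpa4 hpad hcon.le h5
    have h7 : c1 / Om ^ 3 ≤ 1 / chi 4 d pa - 1 / chi N d pa := by
      have e1 : 1 / chi 4 d pa - 1 / chi N d pa
          = (chi N d pa - chi 4 d pa) / (chi N d pa * chi 4 d pa) := by
        field_simp
      rw [e1, le_div_iff₀ (by positivity)]
      linarith
    have h8' : 0 < 1 / chi N d pa := by positivity
    have h9 : c1 / Om ^ 3 ≤ 3 * c0 / Om ^ 3 := by linarith
    rw [div_le_div_iff_of_pos_right (by positivity)] at h9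
    rw [hc0] at h9
    linarith
  have hres := hpc pa hpa0 (by
    have : pa + c0 / 4 / Om ^ 4 + c0 / 4 / Om ^ 4 ≤ pX := by
      rw [hpa]
      have : 0 ≤ c0 / Om ^ 4 := by positivity
      have e1 : c0 / 4 / Om ^ 4 = c0 / Om ^ 4 / 4 := by ring
      have e2 : 2 * c0 / Om ^ 4 = 2 * (c0 / Om ^ 4) := by ring
      rw [e1, e2]
      linarith
    linarith) (fun N _ h4 h8 => hchiN N h4 (by omega))
  refine hres.trans ?_
  rw [hpa]
  have : 0 ≤ c0 / Om ^ 4 := by positivity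
  have e1 : c0 / 4 / Om ^ 4 = c0 / Om ^ 4 / 4 := by ring
  have e2 : 2 * c0 / Om ^ 4 = 2 * (c0 / Om ^ 4) := by ring
  rw [e1, e2]
  linarith

end DDA
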