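import Pool.Agent.DDA.AsmLow3

open Finset Filter

namespace DDA

set_option linter.unusedSectionVars false

/-- **Sharp lower bound.** -/
theorem lower_sharp {δ : ℝ} (hδ : 0 < δ) (hδ1 : δ ≤ 1) : ∀ᶠ d : ℕ in atTop, ∀ p : ℝ, 0 ≤ p →
    p ≤ 1 → (2 * (d : ℝ)) ^ 4 ≤ chi 4 d p → pcZ d ≤ p - (5 / 2 - δ) / (2 * (d : ℝ)) ^ 4 := by
  obtain ⟨dD, hD'⟩ := D_low_sharp (δ / 8) (by positivity) (1 / 3) (by norm_num)
  set A : ℝ := 5 / 2 - δ / 2 with hA
  have hA0 : 2 ≤ A := by rw [hA]; linarith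
  have hA1 : A ≤ 5 / 2 := by rw [hA]; linarith
  obtain ⟨CL, hCL, dL, hL⟩ := chi_lower 4
  have hc04 : 0 < δ / 6 := by positivity
  filter_upwards [pcZ_of_chi hc04, eventually_ge_atTop dD, eventually_ge_atTop dL,
    eventually_ge_atTop 4, ev_ge (4 * CL), ev_ge (1000 / δ), ev_ge 1000]
    with d hpc hdD hdL hd4 hdC hdδ hd1000
  intro p hp0 hp1 hp
  set Om : ℝ := 2 * (d : ℝ) with hOm
  have hOm0 : 0 < Om := by linarith
  have hOm1 : 1 ≤ Om := by linarith
  have hdpos : (0:ℝ) < d := by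
    have : 0 < d := by omega
    exact_mod_cast this
  have hdd : (1:ℝ) / d = 2 / Om := by
    rw [hOm]
    field_simp
  have hdle : (1:ℝ) / d ≤ 1 / 2 := by
    have : (2:ℝ) ≤ d := by linarith
    exact one_div_le_one_div_of_le (by norm_num) this
  have hX1 : (1:ℝ) ≤ Om ^ 4 := one_le_pow₀ hOm1
  have hOm3 : Om ≤ Om ^ 3 := by
    calc Om = Om ^ 1 := (pow_one _).symm
      _ ≤ Om ^ 3 := pow_le_pow_right₀ hOm1 (by norm_num)
  have hOm4 : Om ≤ Om ^ 4 := by
    calc Om = Om ^ 1 := (pow_one _).symm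
      _ ≤ Om ^ 4 := pow_le_pow_right₀ hOm1 (by norm_num)
  obtain ⟨pX, hpX, hpXe⟩ : ∃ pX ∈ Set.Icc (0:ℝ) p, chi 4 d pX = Om ^ 4 := by
    have := intermediate_value_Icc hp0 (chi_continuous (N := 4) (d := d)).continuousOn
    exact this ⟨by simp only [chi_p_zero]; exact hX1, hp⟩
  have hpX0 : 0 ≤ pX := hpX.1
  have hpXp : pX ≤ p := hpX.2
  have hchi_inv : ∀ q : ℝ, 0 ≤ q → q ≤ 1 → 0 < 1 / chi 4 d q := fun q h0 h1 => by
    have := chi_ge_one (N := 4) (d := d) h0 h1
    positivity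
  -- upper bound on pX
  have hpXd : pX ≤ 1 / d := by
    by_contra hcon
    push Not at hcon
    have h1 : chi 4 d (1 / d) ≤ Om ^ 4 := hpXe ▸ chi_mono (by positivity) hcon.le (hpXp.trans hp1)
    have h2 := hL d hdL 4 (by decide) le_rfl 0 (1 / d) le_rfl (by positivity) le_rfl h1
    rw [chi_p_zero] at h2
    have h3 := hchi_inv (1 / d) (by positivity) (by linarith)
    have h4 : (2 * (d:ℝ) - CL) * (1 / d - 0) = 2 - CL / d := by
      field_simp
      ring
    rw [h4] at h2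
    have h5 : CL / d ≤ 1 / 2 := by
      rw [div_le_iff₀ hdpos]
      linarith
    linarith
  -- lower bound on pX
  have hpXlow : (1 - 1 / Om ^ 4) / Om ≤ pX := by
    have h1 := chi_upper (N := 4) (d := d) (by norm_num) le_rfl hpX0 (by linarith : pX ≤ 1 / 2)
    rw [chi_p_zero, hpXe] at h1
    rw [div_le_iff₀ hOm0]
    have : 2 * (d:ℝ) * (pX - 0) = pX * Om := by rw [hOm]; ring
    rw [this] at h1
    linarith
  set pa : ℝ := pX - A / Om ^ 4 with hpa
  have hpaX : pa ≤ pX := by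
    have : 0 ≤ A / Om ^ 4 := by positivity
    linarith
  have hpalow : (1 - 4 / Om) / Om ≤ pa := by
    have e2 : A / Om ^ 4 = A / Om ^ 3 / Om := by
      field_simp
    rw [hpa, e2]
    have h3 : A / Om ^ 3 ≤ 3 / Om := by
      rw [div_le_div_iff₀ (by positivity) hOm0]
      nlinarith
    have h4 : 1 / Om ^ 4 ≤ 1 / Om := one_div_le_one_div_of_le hOm0 hOm4
    have h5 : (1 - 4 / Om) / Om ≤ (1 - 1 / Om ^ 4) / Om - A / Om ^ 3 / Om := by
      rw [← sub_div]
      apply div_le_div_of_nonneg_right _ hOm0.le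
      have : 4 / Om = 1 / Om + 3 / Om := by ring
      linarith
    linarith
  have hsmall : 4 / Om ≤ 1 / 250 := by
    rw [div_le_div_iff₀ hOm0 (by norm_num)]
    linarith
  have hpa4 : 1 / (4 * (d:ℝ)) ≤ pa := by
    have e1 : 1 / (4 * (d:ℝ)) = 1 / 2 / Om := by
      rw [hOm]
      field_simp
      norm_num
    rw [e1]
    refine le_trans ?_ hpalow
    apply div_le_div_of_nonneg_right _ hOm0.le
    linarith
  have hpa0 : 0 ≤ pa := le_trans (by positivity) hpa4
  have hpad : pa ≤ 1 / d := hpaX.trans hpXd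
  -- the tori
  have hchiN : ∀ (N : ℕ) [NeZero N], 4 ∣ N → 12 ≤ N → Om ^ 4 ≤ chi N d pa := by
    intro N _ h4 h8
    by_contra hcon
    push Not at hcon
    have h1 := chi_upper (N := 4) (d := d) (by norm_num) hpa0 hpaX (by linarith : pX ≤ 1 / 2)
    have h2 : 2 * (d:ℝ) * (pX - pa) = A / Om ^ 3 := by
      rw [hpa, ← hOm]
      field_simp
      ring
    rw [h2, hpXe] at h1
    have h3 : 1 / Om ^ 4 = 1 / Om / Om ^ 3 := by
      field_simp
    have h4' : 1 / chi 4 d pa ≤ (A + 1 / Om) / Om ^ 3 := by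
      rw [add_div, ← h3]
      linarith
    have hχ := chi_ge_one (N := 4) (d := d) hpa0 (by linarith : pa ≤ 1)
    have hχN := chi_ge_one (N := N) (d := d) hpa0 (by linarith : pa ≤ 1)
    have hχ0 : 0 < chi 4 d pa := by linarith
    have hχN0 : 0 < chi N d pa := by linarith
    have hOmi : 1 / Om ≤ 1 / 1000 := one_div_le_one_div_of_le (by norm_num) hd1000
    have hOmi0 : 0 < 1 / Om := by positivity
    have h5 : 1 / 3 * Om ^ 3 ≤ chi 4 d pa := by
      have h51 : 1 / chi 4 d pa ≤ 3 / Om ^ 3 := h4'.trans (by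
        apply div_le_div_of_nonneg_right _ (by positivity)
        linarith)
      rw [div_le_div_iff₀ hχ0 (by positivity)] at h51
      linarith
    have h6 := hD' d hdD N h4 h8 pa hpa4 hpad hcon.le h5
    have h7 : (5 / 2 - δ / 8) * Om * pa ^ 4 ≤ 1 / chi 4 d pa - 1 / chi N d pa := by
      have e1 : 1 / chi 4 d pa - 1 / chi N d pa
          = (chi N d pa - chi 4 d pa) / (chi N d pa * chi 4 d pa) := by
        field_simp
      rw [e1, le_div_iff₀ (by positivity)]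
      linarith
    have h8' : 0 < 1 / chi N d pa := by positivity
    have h9 : (5 / 2 - δ / 8) * Om * pa ^ 4 ≤ (A + 1 / Om) / Om ^ 3 := by linarith
    have h10 : (1 - 16 / Om) / Om ^ 3 ≤ Om * pa ^ 4 := by
      have hb0 : 0 ≤ (1 - 4 / Om) / Om := by
        apply div_nonneg _ hOm0.le
        linarith
      have hb : ((1 - 4 / Om) / Om) ^ 4 ≤ pa ^ 4 := pow_le_pow_left₀ hb0 hpalow 4
      have hb2 : 1 - 16 / Om ≤ (1 - 4 / Om) ^ 4 := by
        have := one_add_mul_le_pow (a := -(4 / Om)) (by linarith) 4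
        have e : (1:ℝ) + ((4:ℕ):ℝ) * -(4 / Om) = 1 - 16 / Om := by
          push_cast
          ring
        rw [e] at this
        have e' : (1:ℝ) + -(4 / Om) = 1 - 4 / Om := by ring
        rw [e'] at this
        exact this
      calc (1 - 16 / Om) / Om ^ 3 ≤ (1 - 4 / Om) ^ 4 / Om ^ 3 :=
            div_le_div_of_nonneg_right hb2 (by positivity)
        _ = Om * ((1 - 4 / Om) / Om) ^ 4 := by
            rw [div_pow]
            field_simp
        _ ≤ Om * pa ^ 4 := mul_le_mul_of_nonneg_left hb hOm0.le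
    have h11 : (5 / 2 - δ / 8) * ((1 - 16 / Om) / Om ^ 3) ≤ (A + 1 / Om) / Om ^ 3 := by
      have : (5 / 2 - δ / 8) * ((1 - 16 / Om) / Om ^ 3) ≤ (5 / 2 - δ / 8) * (Om * pa ^ 4) :=
        mul_le_mul_of_nonneg_left h10 (by linarith)
      linarith
    rw [← mul_div_assoc, div_le_div_iff_of_pos_right (by positivity)] at h11
    have h12 : 41 / Om ≤ δ * (41 / 1000) := by
      rw [div_le_iff₀ hOm0]
      rw [div_le_iff₀ hδ] at hdδ
      nlinarith
    have e1 : 16 / Om = 16 * (1 / Om) := by ring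
    have e2 : 41 / Om = 41 * (1 / Om) := by ring
    rw [e1] at h11
    rw [e2] at h12
    rw [hA] at h11
    obtain ⟨t, ht⟩ : ∃ t : ℝ, t = 1 / Om := ⟨_, rfl⟩
    rw [← ht] at h11 h12 hOmi0
    have h13 : (5 / 2 - δ / 8) * (1 - 16 * t) = (5 / 2 - δ / 8) - 40 * t + 2 * (δ * t) := by ring
    have h14 : 0 < δ * t := mul_pos hδ hOmi0
    rw [h13] at h11
    linarith
  have hres := hpc pa hpa0 (by
    have : pa + δ / 6 / Om ^ 4 + δ / 6 / Om ^ 4 ≤ pX := by
      rw [hpa]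
      have h1 : 0 ≤ 1 / Om ^ 4 := by positivity
      have e1 : δ / 6 / Om ^ 4 = δ / 6 * (1 / Om ^ 4) := by ring
      have e2 : A / Om ^ 4 = A * (1 / Om ^ 4) := by ring
      rw [e1, e2]
      nlinarith
    linarith) (fun N _ h4 h8 => hchiN N h4 h8)
  refine hres.trans ?_
  rw [hpa, hA]
  have e1 : δ / 6 / Om ^ 4 = δ / 6 * (1 / Om ^ 4) := by ring
  have e2 : (5 / 2 - δ / 2) / Om ^ 4 = (5 / 2 - δ / 2) * (1 / Om ^ 4) := by ring
  have e3 : (5 / 2 - δ) / Om ^ 4 = (5 / 2 - δ) * (1 / Om ^ 4) := by ring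
  rw [e1, e2, e3]
  linarith

end DDA
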