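import Pool.Agent.DDA.Coupling

/-!
# DDA: the refined coupling of percolation on `T_N` and on `T_4`: line explorations
-/

open Finset
set_option linter.unusedSectionVars false
set_option linter.unusedVariables false
namespace DDA
variable {N d : ℕ} [NeZero N]

/-- `y` lies on the line of `Q` through `x` in direction `i` -/
def SameLine (i : Fin d) (x y : TV 4 d) : Prop := ∀ j, j ≠ i → y j = x j

structure Lift2 (N d : ℕ) [NeZero N] (ω : Finset (TE 4 d)) extends Lift N d ω where
  /-- the macro steps -/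
  fr : Finset (TV N d × Fin d)
  /-- the main unexplored oriented edges -/
  Xm : Finset (TV N d × TV N d)
  fr_mem : ∀ z ∈ fr, z.1 ∈ D
  fr_of : ∀ x ∈ D, ∀ i, (∀ y ∈ D, SameLine i (pr4 N d x) (pr4 N d y) → y = x) → (x, i) ∈ fr
  Xm_line : ∀ z ∈ Xm, ∃ i : Fin d, ∃ s : TV N d, (s = Pi.single i 1 ∨ s = - Pi.single i 1) ∧
    z.2 = z.1 + s ∧ (∀ j : ℕ, j ≤ 3 → z.1 - j • s ∈ D) ∧
    (∀ j : ℕ, j < 3 → ∃ e ∈ O, (T N d).J e (z.1 - j • s) (z.1 - (j + 1) • s)) ∧
    (∀ e, (T N d).J e z.1 z.2 → e ∉ O ∪ C)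
  X_all : ∀ e a b, (T N d).J e a b → a ∈ D → b ∉ D → e ∉ O ∪ C → (a, b) ∈ Xm ∨
    ∃ v ∈ D, ∃ w ∈ D, v ≠ w ∧ SameLine e.2 (pr4 N d a) (pr4 N d v) ∧
      SameLine e.2 (pr4 N d a) (pr4 N d w) ∧
      ∃ O' ⊆ O, (∀ e' ∈ O', ¬ (e'.2 = e.2 ∧ SameLine e.2 (pr4 N d a) (pr4 N d e'.1))) ∧
        w ∈ (T N d).cl univ O' v

/-! ### lines -/

lemma SameLine.rfl' {i : Fin d} {x : TV 4 d} : SameLine i x x := fun _ _ => rfl
lemma SameLine.symm' {i : Fin d} {x y : TV 4 d} (h : SameLine i x y) : SameLine i y x :=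
  fun j hj => (h j hj).symm
lemma SameLine.trans' {i : Fin d} {x y z : TV 4 d} (h : SameLine i x y) (h' : SameLine i y z) :
    SameLine i x z := fun j hj => (h' j hj).trans (h j hj)

/-- the covering map as a homomorphism -/
def pr4H (h4 : 4 ∣ N) : TV N d →+ TV 4 d where
  toFun := pr4 N d
  map_zero' := pr4_zero
  map_add' := pr4_add h4

lemma pr4_zsmul (h4 : 4 ∣ N) (x : TV N d) (k : ℤ) (i : Fin d) :
    pr4 N d (x + k • Pi.single i 1) = pr4 N d x + k • Pi.single i 1 := by
  rw [pr4_add h4]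
  congr 1
  have h1 : pr4 N d (k • Pi.single i 1) = k • pr4 N d (Pi.single i 1) :=
    map_zsmul (pr4H h4) k (Pi.single i 1 : TV N d)
  rw [h1, pr4_single h4]

lemma zsmul_single_eq_zero {M : ℕ} {k : ℤ} {i : Fin d} (h : k • (Pi.single i 1 : TV M d) = 0) :
    (M : ℤ) ∣ k := by
  have h1 := congrFun h i
  simp only [Pi.smul_apply, Pi.single_eq_same, Pi.zero_apply, zsmul_one] at h1
  exact (ZMod.intCast_zmod_eq_zero_iff_dvd k M).mp h1

lemma eq_of_zsmul {M : ℕ} {x : TV M d} {k l : ℤ} {i : Fin d}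
    (h : x + k • (Pi.single i 1 : TV M d) = x + l • (Pi.single i 1 : TV M d)) :
    (M : ℤ) ∣ k - l := by
  apply zsmul_single_eq_zero (i := i)
  rw [sub_smul, sub_eq_zero]
  exact add_left_cancel h

lemma sameLine_zsmul {i : Fin d} {u : TV 4 d} (k : ℤ) :
    SameLine i u (u + k • Pi.single i 1) := by
  intro j hj
  simp [Pi.single_eq_of_ne hj]

lemma sameLine_pr4 (h4 : 4 ∣ N) {i : Fin d} {x : TV N d} (k : ℤ) :
    SameLine i (pr4 N d x) (pr4 N d (x + k • Pi.single i 1)) := by
  rw [pr4_zsmul h4]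
  exact sameLine_zsmul k

lemma pr4_ne (h4 : 4 ∣ N) {i : Fin d} {x : TV N d} {k l : ℤ}
    (h : pr4 N d (x + k • Pi.single i 1) = pr4 N d (x + l • Pi.single i 1)) : (4 : ℤ) ∣ k - l := by
  rw [pr4_zsmul h4, pr4_zsmul h4] at h
  exact_mod_cast eq_of_zsmul h

/-- the edge `e` lies over the line `(i, u)` -/
def Over (i : Fin d) (u : TV 4 d) (e : TE N d) : Prop := e.2 = i ∧ SameLine i u (pr4 N d e.1)

/-- an edge incident to `x`, `y` is over the line through `x` -/
lemma over_of_J (h4 : 4 ∣ N) {e : TE N d} {x y : TV N d} (h : (T N d).J e x y) :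
    SameLine e.2 (pr4 N d x) (pr4 N d e.1) := by
  rw [T_J] at h
  rcases h with ⟨h1, h2⟩ | ⟨h1, h2⟩
  · rw [h1]
    exact SameLine.rfl'
  · have h3 : e.1 = x + (-1 : ℤ) • Pi.single e.2 1 := by
      rw [h1, h2]
      module
    rw [h3]
    exact sameLine_pr4 h4 _

lemma sameLine_of_J (h4 : 4 ∣ N) {e : TE N d} {x y : TV N d} (h : (T N d).J e x y) :
    SameLine e.2 (pr4 N d x) (pr4 N d y) :=
  (over_of_J h4 h).trans' (over_of_J h4 (LG.J_comm.mp h)).symm'

lemma J_pos {i : Fin d} {a : TV N d} :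
    (T N d).J (a, i) a (a + Pi.single i 1) := Or.inl ⟨rfl, rfl⟩

lemma eq_single_of {M : ℕ} (hM : 3 ≤ M) {i j : Fin d} (h : (Pi.single i 1 : TV M d) = Pi.single j 1) :
    i = j := by
  by_contra hne
  have h1 := congrFun h i
  rw [Pi.single_eq_same, Pi.single_eq_of_ne hne] at h1
  have : Fact (1 < M) := ⟨by omega⟩
  exact one_ne_zero h1

lemma neg_single_ne {M : ℕ} (hM : 3 ≤ M) {i j : Fin d} : (Pi.single i 1 : TV M d) ≠ - Pi.single j 1 := by
  intro h
  by_cases hij : i = j
  · subst hij
    have h1 : (2 : ℤ) • (Pi.single i 1 : TV M d) = 0 := by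
      have : (2 : ℤ) • (Pi.single i 1 : TV M d) = Pi.single i 1 + Pi.single i 1 := by module
      rw [this]
      nth_rw 1 [h]
      simp
    have h2 := zsmul_single_eq_zero h1
    have h3 := Int.le_of_dvd (by norm_num) h2
    omega
  · have h1 := congrFun h i
    rw [Pi.single_eq_same, Pi.neg_apply, Pi.single_eq_of_ne hij, neg_zero] at h1
    have : Fact (1 < M) := ⟨by omega⟩
    exact one_ne_zero h1

lemma J_pos_eq (hN : 3 ≤ N) {i : Fin d} {a : TV N d} {f : TE N d}
    (h : (T N d).J f a (a + Pi.single i 1)) : f = (a, i) := by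
  rw [T_J] at h
  rcases h with ⟨h1, h2⟩ | ⟨h1, h2⟩
  · have := eq_single_of hN (add_left_cancel h2)
    exact Prod.ext h1 this.symm
  · exfalso
    rw [sub_eq_add_neg] at h2
    exact neg_single_ne hN (add_left_cancel h2)

lemma J_neg_eq (hN : 3 ≤ N) {i : Fin d} {a : TV N d} {f : TE N d}
    (h : (T N d).J f (a + Pi.single i 1) a) : f = (a, i) := J_pos_eq hN (LG.J_comm.mp h)

/-! ### states -/

structure St (N d : ℕ) where
  D : Finset (TV N d)
  O : Finset (TE N d)
  C : Finset (TE N d)
  fr : Finset (TV N d × Fin d)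
  Xm : Finset (TV N d × TV N d)

/-- the deterministic invariants -/
structure InvD (D : Finset (TV N d)) (O C : Finset (TE N d)) : Prop where
  zero_mem : (0 : TV N d) ∈ D
  inj : Set.InjOn (pr4 N d) D
  disj : Disjoint O C
  conn : ∀ x ∈ D, x ∈ (T N d).cl D O 0
  open_mem : ∀ e ∈ O, (T N d).s e ∈ D ∧ (T N d).t e ∈ D
  closed_mem : ∀ e ∈ C, (T N d).s e ∈ D ∨ (T N d).t e ∈ D
  history : ∀ e ∈ O ∪ C, ∃ D' ⊆ D, ∃ O' ⊆ O, ∃ x y, (T N d).J e x y ∧ x ∈ D' ∧ (0 : TV N d) ∈ D' ∧
    pr4 N d y ∉ D'.image (pr4 N d) ∧ ∀ z ∈ D', z ∈ (T N d).cl D' O' 0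

/-- `ω` is compatible with the open lifts `O` and the closed lifts `C` -/
def Compat (ω : Finset (TE 4 d)) (O C : Finset (TE N d)) : Prop :=
  (∀ e ∈ O, pr4E N d e ∈ ω) ∧ ∀ e ∈ C, pr4E N d e ∉ ω

lemma InvD.toInv {ω : Finset (TE 4 d)} {D : Finset (TV N d)} {O C : Finset (TE N d)}
    (h : InvD D O C) (hc : Compat ω O C) : Inv ω D O C :=
  ⟨h.zero_mem, h.inj, h.disj, h.conn, fun e he => ⟨hc.1 e he, h.open_mem e he⟩,
    fun e he => ⟨hc.2 e he, h.closed_mem e he⟩, h.history⟩

lemma Inv.toInvD {ω : Finset (TE 4 d)} {D : Finset (TV N d)} {O C : Finset (TE N d)}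
    (h : Inv ω D O C) : InvD D O C :=
  ⟨h.zero_mem, h.inj, h.disj, h.conn, fun e he => (h.open_mem e he).2,
    fun e he => (h.closed_mem e he).2, h.history⟩

lemma InvD.start : InvD (N := N) (d := d) {0} ∅ ∅ := (Inv.start ∅).toInvD

lemma InvD.step_closed {D : Finset (TV N d)} {O C : Finset (TE N d)}
    (h : InvD D O C) {e : TE N d} {x y : TV N d} (hJ : (T N d).J e x y) (hx : x ∈ D)
    (hy : pr4 N d y ∉ D.image (pr4 N d)) (he : e ∉ O ∪ C) : InvD D O (insert e C) where
  zero_mem := h.zero_mem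
  inj := h.inj
  disj := by
    rw [disjoint_insert_right]
    exact ⟨fun h1 => he (mem_union_left _ h1), h.disj⟩
  conn := h.conn
  open_mem := h.open_mem
  closed_mem := by
    intro e' he'
    rcases mem_insert.mp he' with rfl | h1
    · exact J_mem hJ D hx
    · exact h.closed_mem e' h1
  history := by
    intro e' he'
    rw [union_insert] at he'
    rcases mem_insert.mp he' with rfl | h1
    · exact ⟨D, Subset.refl _, O, Subset.refl _, x, y, hJ, hx, h.zero_mem, hy, h.conn⟩
    · exact h.history e' h1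

lemma InvD.step_open {D : Finset (TV N d)} {O C : Finset (TE N d)}
    (h : InvD D O C) {e : TE N d} {x y : TV N d} (hJ : (T N d).J e x y) (hx : x ∈ D)
    (hy : pr4 N d y ∉ D.image (pr4 N d)) (he : e ∉ O ∪ C) :
    InvD (insert y D) (insert e O) C where
  zero_mem := mem_insert_of_mem h.zero_mem
  inj := by
    intro a ha b hb hab
    have key : ∀ c ∈ D, pr4 N d c ≠ pr4 N d y := by
      intro c hc hcy
      apply hy
      rw [← hcy]
      exact mem_image_of_mem _ hc
    rcases mem_insert.mp ha with ha1 | ha1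
    · rcases mem_insert.mp hb with hb1 | hb1
      · rw [ha1, hb1]
      · exfalso
        apply key b hb1
        rw [← hab, ha1]
    · rcases mem_insert.mp hb with hb1 | hb1
      · exfalso
        apply key a ha1
        rw [hab, hb1]
      · exact h.inj ha1 hb1 hab
  disj := by
    rw [disjoint_insert_left]
    exact ⟨fun h1 => he (mem_union_right _ h1), h.disj⟩
  conn := by
    have hmono : ∀ z ∈ D, z ∈ (T N d).cl (insert y D) (insert e O) 0 := by
      intro z hz
      obtain ⟨k, hk⟩ := LG.mem_cl_iff.mp (h.conn z hz)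
      exact LG.mem_cl_iff.mpr ⟨k, LG.ball_mono (subset_insert _ _) (subset_insert _ _) hk⟩
    intro z hz
    rcases mem_insert.mp hz with rfl | hz
    · exact LG.mem_cl_step (hmono x hx) ⟨e, mem_insert_self _ _, hJ⟩ (mem_insert_self _ _)
    · exact hmono z hz
  open_mem := by
    intro e' he'
    rcases mem_insert.mp he' with rfl | h1
    · rcases hJ with ⟨h1, h2⟩ | ⟨h1, h2⟩
      · rw [h1, h2]; exact ⟨mem_insert_of_mem hx, mem_insert_self _ _⟩
      · rw [h1, h2]; exact ⟨mem_insert_self _ _, mem_insert_of_mem hx⟩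
    · have h2 := h.open_mem e' h1
      exact ⟨mem_insert_of_mem h2.1, mem_insert_of_mem h2.2⟩
  closed_mem := by
    intro e' he'
    have h2 := h.closed_mem e' he'
    exact h2.imp mem_insert_of_mem mem_insert_of_mem
  history := by
    intro e' he'
    rw [insert_union] at he'
    rcases mem_insert.mp he' with rfl | h1
    · exact ⟨D, subset_insert _ _, O, subset_insert _ _, x, y, hJ, hx, h.zero_mem, hy, h.conn⟩
    · obtain ⟨D', hD', O', hO', r⟩ := h.history e' h1
      exact ⟨D', hD'.trans (subset_insert _ _), O', hO'.trans (subset_insert _ _), r⟩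

/-! ### the state of a line -/

/-- no edge over the line has been queried -/
def Fresh (S : St N d) (i : Fin d) (u : TV 4 d) : Prop := ∀ e ∈ S.O ∪ S.C, ¬ Over i u e

def Dirty (S : St N d) (i : Fin d) (u : TV 4 d) : Prop :=
  ∃ v ∈ S.D, ∃ w ∈ S.D, v ≠ w ∧ SameLine i u (pr4 N d v) ∧ SameLine i u (pr4 N d w) ∧
    ∃ O' ⊆ S.O, (∀ e' ∈ O', ¬ Over i u e') ∧ w ∈ (T N d).cl univ O' v

/-- the macro step has been done -/
def Done (S : St N d) (i : Fin d) (u : TV 4 d) : Prop :=
  ∃ (x : TV N d) (l r : ℤ), l ≤ 0 ∧ 0 ≤ r ∧ (x, i) ∈ S.fr ∧ SameLine i u (pr4 N d x) ∧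
    (∀ k : ℤ, l ≤ k → k ≤ r → x + k • Pi.single i 1 ∈ S.D) ∧
    (∀ y ∈ S.D, SameLine i u (pr4 N d y) → ∃ k : ℤ, l ≤ k ∧ k ≤ r ∧ y = x + k • Pi.single i 1) ∧
    ((x + r • Pi.single i 1, i) ∈ S.C ∨
      (x + r • Pi.single i 1, x + (r + 1) • Pi.single i 1) ∈ S.Xm) ∧
    ((x + (l - 1) • Pi.single i 1, i) ∈ S.C ∨
      (x + l • Pi.single i 1, x + (l - 1) • Pi.single i 1) ∈ S.Xm)

def LineOK (S : St N d) (i : Fin d) (u : TV 4 d) : Prop := Fresh S i u ∨ Done S i u ∨ Dirty S i u

lemma Dirty.mono {S S' : St N d} {i : Fin d} {u : TV 4 d} (h : Dirty S i u) (hD : S.D ⊆ S'.D)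
    (hO : S.O ⊆ S'.O) : Dirty S' i u := by
  obtain ⟨v, hv, w, hw, hne, h1, h2, O', hO', h3, h4⟩ := h
  exact ⟨v, hD hv, w, hD hw, hne, h1, h2, O', hO'.trans hO, h3, h4⟩

/-- first hitting of the line `(i, u)` -/
lemma first_hit {D : Finset (TV N d)} {O : Finset (TE N d)} {i : Fin d} {u : TV 4 d}
    (h4 : 4 ∣ N) {a : TV N d} (ha : SameLine i u (pr4 N d a)) (k : ℕ) :
    ∀ z ∈ (T N d).ball D O a k, ∃ v ∈ D, SameLine i u (pr4 N d v) ∧
      ∃ O' ⊆ O, (∀ e' ∈ O', ¬ Over i u e') ∧ z ∈ (T N d).cl univ O' v := by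
  classical
  induction k with
  | zero =>
    intro z hz
    obtain ⟨h1, rfl⟩ := LG.mem_ball_zero.mp hz
    exact ⟨z, h1, ha, ∅, empty_subset _, fun e he => absurd he (notMem_empty _),
      LG.self_mem_cl (mem_univ _)⟩
  | succ k ih =>
    intro z hz
    rcases LG.mem_ball_succ.mp hz with h1 | ⟨h1, w, hw, e, he, hJ⟩
    · exact ih z h1
    · by_cases hov : Over i u e
      · refine ⟨z, h1, ?_, ∅, empty_subset _, fun e he => absurd he (notMem_empty _),
          LG.self_mem_cl (mem_univ _)⟩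
        obtain ⟨h2, h3⟩ := hov
        have h5 := over_of_J h4 (LG.J_comm.mp hJ)
        rw [h2] at h5
        exact h3.trans' h5.symm'
      · obtain ⟨v, hv, h2, O', hO', h3, h5⟩ := ih w hw
        refine ⟨v, hv, h2, insert e O', insert_subset he hO', ?_, ?_⟩
        · intro e' he'
          rcases mem_insert.mp he' with rfl | h6
          · exact hov
          · exact h3 e' h6
        · exact LG.mem_cl_step (LG.cl_mono (Subset.refl _) (subset_insert _ _) h5)
            ⟨e, mem_insert_self _ _, hJ⟩ (mem_univ _)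

lemma dirty_of_fresh {S : St N d} (h : InvD S.D S.O S.C) {i : Fin d} {u : TV 4 d}
    (hf : Fresh S i u) {v w : TV N d} (hv : v ∈ S.D) (hw : w ∈ S.D) (hne : v ≠ w)
    (h1 : SameLine i u (pr4 N d v)) (h2 : SameLine i u (pr4 N d w)) : Dirty S i u := by
  refine ⟨v, hv, w, hw, hne, h1, h2, S.O, Subset.refl _, fun e he => hf e (mem_union_left _ he), ?_⟩
  have h3 := LG.mem_cl_trans (LG.mem_cl_symm (h.conn v hv)) (h.conn w hw)
  exact LG.cl_mono (subset_univ _) (Subset.refl _) h3

lemma LineOK.step_closed {S : St N d} {i : Fin d} {u : TV 4 d} {fr' : Finset (TV N d × Fin d)}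
    {e : TE N d} (h : LineOK S i u) (hov : ¬ Over i u e) (hfr : S.fr ⊆ fr') :
    LineOK ⟨S.D, S.O, insert e S.C, fr', S.Xm⟩ i u := by
  rcases h with h | h | h
  · left
    intro e' he'
    have he2 : e' ∈ S.O ∪ insert e S.C := he'
    rw [union_insert] at he2
    rcases mem_insert.mp he2 with rfl | h1
    · exact hov
    · exact h e' h1
  · right; left
    obtain ⟨x, l, r, h1, h2, h3, h4, h5, h6, h7, h8⟩ := h
    exact ⟨x, l, r, h1, h2, hfr h3, h4, h5, h6, h7.imp (fun a => mem_insert_of_mem a) id,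
      h8.imp (fun a => mem_insert_of_mem a) id⟩
  · right; right
    exact h.mono (Subset.refl _) (Subset.refl _)

lemma LineOK.step_open (h4 : 4 ∣ N) {S : St N d} (hS : InvD S.D S.O S.C) {i : Fin d} {u : TV 4 d}
    {fr' : Finset (TV N d × Fin d)} {e : TE N d} (h : LineOK S i u) (hov : ¬ Over i u e)
    (hfr : S.fr ⊆ fr') {x y : TV N d} (hJ : (T N d).J e x y) (hx : x ∈ S.D)
    (hy : pr4 N d y ∉ S.D.image (pr4 N d)) :
    LineOK ⟨insert y S.D, insert e S.O, S.C, fr', S.Xm⟩ i u := by
  rcases h with h | h | h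
  · left
    intro e' he'
    have he2 : e' ∈ insert e S.O ∪ S.C := he'
    rw [insert_union] at he2
    rcases mem_insert.mp he2 with rfl | h1
    · exact hov
    · exact h e' h1
  · by_cases hyl : SameLine i u (pr4 N d y)
    · right; right
      obtain ⟨x0, l, r, h1, h2, h3, h5, h6, h7, h8, h9⟩ := h
      have hx0 : x0 ∈ S.D := by simpa using h6 0 h1 h2
      have h10 := LG.mem_cl_trans (LG.mem_cl_symm (hS.conn x0 hx0)) (hS.conn x hx)
      obtain ⟨k, hk⟩ := LG.mem_cl_iff.mp h10
      obtain ⟨v, hv, hvl, O', hO', h11, h12⟩ := first_hit h4 h5 k x hk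
      refine ⟨v, mem_insert_of_mem hv, y, mem_insert_self _ _, ?_, hvl, hyl, insert e O',
        insert_subset_insert _ hO', ?_, ?_⟩
      · rintro rfl
        exact hy (mem_image_of_mem _ hv)
      · intro e' he'
        rcases mem_insert.mp he' with rfl | h13
        · exact hov
        · exact h11 e' h13
      · exact LG.mem_cl_step (LG.cl_mono (Subset.refl _) (subset_insert _ _) h12)
          ⟨e, mem_insert_self _ _, hJ⟩ (mem_univ _)
    · right; left
      obtain ⟨x0, l, r, h1, h2, h3, h5, h6, h7, h8, h9⟩ := h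
      refine ⟨x0, l, r, h1, h2, hfr h3, h5, fun k a b => mem_insert_of_mem (h6 k a b), ?_, h8, h9⟩
      intro z hz hzl
      rcases mem_insert.mp hz with rfl | hz1
      · exact absurd hzl hyl
      · exact h7 z hz1 hzl
  · right; right
    exact h.mono (subset_insert _ _) (subset_insert _ _)

/-- the condition on a main unexplored edge -/
def XOK (S : St N d) (z : TV N d × TV N d) : Prop :=
  ∃ i : Fin d, ∃ s : TV N d, (s = Pi.single i 1 ∨ s = - Pi.single i 1) ∧
    z.2 = z.1 + s ∧ (∀ j : ℕ, j ≤ 3 → z.1 - j • s ∈ S.D) ∧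
    (∀ j : ℕ, j < 3 → ∃ e ∈ S.O, (T N d).J e (z.1 - j • s) (z.1 - (j + 1) • s)) ∧
    (∀ e, (T N d).J e z.1 z.2 → e ∉ S.O ∪ S.C)

lemma XOK.pr4_mem (h4 : 4 ∣ N) {S : St N d} {z : TV N d × TV N d} (h : XOK S z) :
    z.1 ∈ S.D ∧ pr4 N d z.2 ∈ S.D.image (pr4 N d) := by
  obtain ⟨i, s, hs, h1, h2, h3, h5⟩ := h
  refine ⟨by simpa using h2 0 (by norm_num), ?_⟩
  have h6 := h2 3 le_rfl
  have h7 : pr4 N d z.2 = pr4 N d (z.1 - 3 • s) := by
    have key : ∀ k : ℤ, (4 : ℤ) • ((k : ℤ) • (Pi.single i 1 : TV 4 d)) = 0 := by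
      intro k
      funext j
      simp only [Pi.smul_apply, Pi.zero_apply, smul_smul]
      by_cases hj : j = i
      · subst hj
        simp only [Pi.single_eq_same, zsmul_one]
        rw [ZMod.intCast_zmod_eq_zero_iff_dvd]
        exact dvd_mul_right _ _
      · simp [Pi.single_eq_of_ne hj]
    rcases hs with rfl | rfl
    · have e1 : z.2 = (z.1 - 3 • Pi.single i 1) + (4 : ℤ) • Pi.single i 1 := by
        rw [h1]; module
      rw [e1, pr4_zsmul h4]
      have := key 1
      rw [one_smul] at this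
      rw [this, add_zero]
    · have e1 : z.2 = (z.1 - 3 • -Pi.single i 1) + (-4 : ℤ) • Pi.single i 1 := by
        rw [h1]; module
      rw [e1, pr4_zsmul h4]
      have := key (-1)
      rw [smul_smul] at this
      norm_num at this ⊢
      exact this
  rw [h7]
  exact mem_image_of_mem _ h6

lemma XOK.step (h4 : 4 ∣ N) {S S' : St N d} {z : TV N d × TV N d} (h : XOK S z) {e : TE N d}
    {x y : TV N d} (hJ : (T N d).J e x y) (hx : x ∈ S.D)
    (hy : pr4 N d y ∉ S.D.image (pr4 N d)) (hD : S.D ⊆ S'.D) (hO : S.O ⊆ S'.O)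
    (hOC : S'.O ∪ S'.C ⊆ insert e (S.O ∪ S.C)) : XOK S' z := by
  have hz := h.pr4_mem h4
  obtain ⟨i, s, hs, h1, h2, h3, h5⟩ := h
  refine ⟨i, s, hs, h1, fun j hj => hD (h2 j hj), fun j hj => ?_, ?_⟩
  · obtain ⟨e', he', hJ'⟩ := h3 j hj
    exact ⟨e', hO he', hJ'⟩
  · intro e' hJ' he'
    rcases mem_insert.mp (hOC he') with rfl | h6
    · have h7 : (x = z.1 ∧ y = z.2) ∨ (x = z.2 ∧ y = z.1) := by
        rcases hJ with ⟨a, b⟩ | ⟨a, b⟩ <;> rcases hJ' with ⟨a', b'⟩ | ⟨a', b'⟩
        · exact Or.inl ⟨a.symm.trans a', b.symm.trans b'⟩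
        · exact Or.inr ⟨a.symm.trans a', b.symm.trans b'⟩
        · exact Or.inr ⟨b.symm.trans b', a.symm.trans a'⟩
        · exact Or.inl ⟨b.symm.trans b', a.symm.trans a'⟩
      rcases h7 with ⟨_, h8⟩ | ⟨_, h8⟩
      · rw [h8] at hy
        exact hy hz.2
      · rw [h8] at hy
        exact hy (mem_image_of_mem _ hz.1)
    · exact h5 e' hJ' h6

/-- the invariants; the lines in `P` are excluded -/
structure GInv (S : St N d) (P : Fin d → TV 4 d → Prop) : Prop where
  base : InvD S.D S.O S.C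
  frm : ∀ z ∈ S.fr, z.1 ∈ S.D
  fre : ∀ z ∈ S.fr, ∃ f ∈ S.O ∪ S.C, Over z.2 (pr4 N d z.1) f
  xml : ∀ z ∈ S.Xm, XOK S z
  line : ∀ i u, ¬ P i u → LineOK S i u

lemma GInv.step_closed (h4 : 4 ∣ N) {S : St N d} {P P' : Fin d → TV 4 d → Prop} (h : GInv S P)
    {e : TE N d} {x y : TV N d} (hJ : (T N d).J e x y) (hx : x ∈ S.D)
    (hy : pr4 N d y ∉ S.D.image (pr4 N d)) (he : pr4E N d e ∉ (S.O ∪ S.C).image (pr4E N d))
    {fr' : Finset (TV N d × Fin d)} (hfr : S.fr ⊆ fr') (hfr1 : ∀ z ∈ fr', z.1 ∈ S.D)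
    (hfr2 : ∀ z ∈ fr', ∃ f ∈ insert e (S.O ∪ S.C), Over z.2 (pr4 N d z.1) f)
    (hP : ∀ i u, ¬ P' i u → (¬ P i u ∧ ¬ Over i u e) ∨ Dirty S i u) :
    GInv ⟨S.D, S.O, insert e S.C, fr', S.Xm⟩ P' where
  base := h.base.step_closed hJ hx hy (fun h1 => he (mem_image_of_mem _ h1))
  frm := hfr1
  fre := by
    intro z hz
    obtain ⟨f, hf, hov⟩ := hfr2 z hz
    refine ⟨f, ?_, hov⟩
    show f ∈ S.O ∪ insert e S.C
    rw [union_insert]
    exact hf
  xml := by
    intro z hz
    refine (h.xml z hz).step h4 hJ hx hy (Subset.refl _) (Subset.refl _) ?_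
    show S.O ∪ insert e S.C ⊆ _
    rw [union_insert]
  line := by
    intro i u hu
    rcases hP i u hu with ⟨h1, h2⟩ | h1
    · exact (h.line i u h1).step_closed h2 hfr
    · exact Or.inr (Or.inr (h1.mono (Subset.refl _) (Subset.refl _)))

lemma GInv.step_open (h4 : 4 ∣ N) {S : St N d} {P P' : Fin d → TV 4 d → Prop} (h : GInv S P)
    {e : TE N d} {x y : TV N d} (hJ : (T N d).J e x y) (hx : x ∈ S.D)
    (hy : pr4 N d y ∉ S.D.image (pr4 N d)) (he : pr4E N d e ∉ (S.O ∪ S.C).image (pr4E N d))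
    {fr' : Finset (TV N d × Fin d)} (hfr : S.fr ⊆ fr') (hfr1 : ∀ z ∈ fr', z.1 ∈ S.D)
    (hfr2 : ∀ z ∈ fr', ∃ f ∈ insert e (S.O ∪ S.C), Over z.2 (pr4 N d z.1) f)
    (hP : ∀ i u, ¬ P' i u → (¬ P i u ∧ ¬ Over i u e) ∨ Dirty S i u) :
    GInv ⟨insert y S.D, insert e S.O, S.C, fr', S.Xm⟩ P' where
  base := h.base.step_open hJ hx hy (fun h1 => he (mem_image_of_mem _ h1))
  frm := fun z hz => mem_insert_of_mem (hfr1 z hz)
  fre := by
    intro z hz
    obtain ⟨f, hf, hov⟩ := hfr2 z hz
    refine ⟨f, ?_, hov⟩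
    show f ∈ insert e S.O ∪ S.C
    rw [insert_union]
    exact hf
  xml := by
    intro z hz
    refine (h.xml z hz).step h4 hJ hx hy (subset_insert _ _) (subset_insert _ _) ?_
    show insert e S.O ∪ S.C ⊆ _
    rw [insert_union]
  line := by
    intro i u hu
    rcases hP i u hu with ⟨h1, h2⟩ | h1
    · exact (h.line i u h1).step_open h4 h.base h2 hfr hJ hx hy
    · exact Or.inr (Or.inr (h1.mono (subset_insert _ _) (subset_insert _ _)))

lemma GInv.start : GInv (N := N) (d := d) ⟨{0}, ∅, ∅, ∅, ∅⟩ (fun _ _ => False) where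
  base := InvD.start
  frm := fun z hz => absurd hz (notMem_empty _)
  fre := fun z hz => absurd hz (notMem_empty _)
  xml := fun z hz => absurd hz (notMem_empty _)
  line := by
    intro i u _
    left
    intro e he
    have he2 : e ∈ (∅ : Finset (TE N d)) ∪ ∅ := he
    rw [union_empty] at he2
    exact absurd he2 (notMem_empty _)

/-- no macro step is possible -/
def NoFresh (S : St N d) : Prop :=
  ∀ x ∈ S.D, ∀ i, Fresh S i (pr4 N d x) → ∃ y ∈ S.D, y ≠ x ∧ SameLine i (pr4 N d x) (pr4 N d y)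

/-- no edge over a line whose macro step is done can be queried -/
lemma Done.no_query (h4 : 4 ∣ N) {S : St N d} {P : Fin d → TV 4 d → Prop} (h : GInv S P)
    {e : TE N d} {x y : TV N d}
    (hd : Done S e.2 (pr4 N d x)) (hJ : (T N d).J e x y) (hx : x ∈ S.D)
    (hy : pr4 N d y ∉ S.D.image (pr4 N d)) (he : e ∉ S.O ∪ S.C) : False := by
  obtain ⟨x0, l, r, h1, h2, h3, h5, h6, h7, h8, h9⟩ := hd
  obtain ⟨k, hk1, hk2, hk⟩ := h7 x hx SameLine.rfl'
  rw [T_J] at hJ
  rcases hJ with ⟨a, b⟩ | ⟨a, b⟩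
  · have hy' : y = x0 + (k + 1) • Pi.single e.2 1 := by
      rw [b, hk]; module
    by_cases hkr : k + 1 ≤ r
    · exact hy (mem_image_of_mem _ (hy' ▸ h6 (k + 1) (by omega) hkr))
    · have hkr' : k = r := by omega
      subst hkr'
      rcases h8 with h8 | h8
      · apply he
        apply mem_union_right
        rw [← hk, ← a] at h8
        exact h8
      · have h10 := ((h.xml _ h8).pr4_mem h4).2
        rw [← hy'] at h10
        exact hy h10
  · have hy' : y = x0 + (k - 1) • Pi.single e.2 1 := by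
      rw [b, hk]; module
    by_cases hkr : l ≤ k - 1
    · exact hy (mem_image_of_mem _ (hy' ▸ h6 (k - 1) hkr (by omega)))
    · have hkr' : k = l := by omega
      subst hkr'
      rcases h9 with h9 | h9
      · apply he
        apply mem_union_right
        rw [← hy', ← a] at h9
        exact h9
      · have h10 := ((h.xml _ h9).pr4_mem h4).2
        rw [← hy'] at h10
        exact hy h10


/-! ### macro steps in progress -/

structure Prog (S : St N d) (x : TV N d) (i : Fin d) (l r q : ℤ) : Prop where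
  mem : ∀ k : ℤ, l ≤ k → k ≤ r → x + k • Pi.single i 1 ∈ S.D
  only : ∀ y ∈ S.D, SameLine i (pr4 N d x) (pr4 N d y) →
    ∃ k : ℤ, l ≤ k ∧ k ≤ r ∧ y = x + k • Pi.single i 1
  opn : ∀ k : ℤ, l ≤ k → k < r → (x + k • Pi.single i 1, i) ∈ S.O
  qry : ∀ f ∈ S.O ∪ S.C, Over i (pr4 N d x) f → ∃ k : ℤ, l ≤ k ∧ k < q ∧ f.1 = x + k • Pi.single i 1
  xm : ∀ k : ℤ, (x + k • Pi.single i 1, x + (k + 1) • Pi.single i 1) ∉ S.Xm ∧
    (x + k • Pi.single i 1, x + (k - 1) • Pi.single i 1) ∉ S.Xm

/-- the excluded line of a macro step -/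
def PL (x : TV N d) (i : Fin d) : Fin d → TV 4 d → Prop :=
  fun i' u' => i' = i ∧ SameLine i (pr4 N d x) u'

lemma not_over_of_not_PL (h4 : 4 ∣ N) {x : TV N d} {i : Fin d} (k : ℤ) {i' : Fin d} {u' : TV 4 d}
    (h : ¬ PL x i i' u') : ¬ Over i' u' ((x + k • Pi.single i 1, i) : TE N d) := by
  rintro ⟨h1, h2⟩
  apply h
  have h1' : i = i' := h1
  subst h1'
  exact ⟨rfl, (sameLine_pr4 h4 k).trans' h2.symm'⟩

lemma Prog.new_vertex (h4 : 4 ∣ N) {S : St N d} {x : TV N d} {i : Fin d} {l r q : ℤ}
    (h : Prog S x i l r q) (k : ℤ) (hk : k < l ∨ r < k) (hk1 : r - 3 ≤ k) (hk2 : k ≤ l + 3) :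
    pr4 N d (x + k • Pi.single i 1) ∉ S.D.image (pr4 N d) := by
  intro h1
  obtain ⟨y, hy, hxy⟩ := mem_image.mp h1
  obtain ⟨k', h2, h3, rfl⟩ := h.only y hy (by rw [hxy]; exact sameLine_pr4 h4 k)
  obtain ⟨m, hm⟩ := pr4_ne h4 hxy
  omega

lemma Prog.new_edge (h4 : 4 ∣ N) {S : St N d} {x : TV N d} {i : Fin d} {l r q : ℤ}
    (h : Prog S x i l r q) (k : ℤ) (hk : k < l ∨ q ≤ k) (hk1 : q - 4 ≤ k) (hk2 : k ≤ l + 3) :
    pr4E N d (x + k • Pi.single i 1, i) ∉ (S.O ∪ S.C).image (pr4E N d) := by
  intro h1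
  obtain ⟨f, hf, hxf⟩ := mem_image.mp h1
  unfold pr4E at hxf
  have e1 : pr4 N d f.1 = pr4 N d (x + k • Pi.single i 1) := (Prod.mk.inj hxf).1
  have e2 : f.2 = i := (Prod.mk.inj hxf).2
  obtain ⟨k', h2, h3, h5⟩ := h.qry f hf ⟨e2, by rw [e1]; exact sameLine_pr4 h4 k⟩
  rw [h5] at e1
  obtain ⟨m, hm⟩ := pr4_ne h4 e1
  omega

lemma Prog.fwd_open (h4 : 4 ∣ N) {S : St N d} {x : TV N d} {i : Fin d} {l r : ℤ}
    (h : Prog S x i l r r) (hlr : l ≤ r) (fr' : Finset (TV N d × Fin d)) :
    Prog ⟨insert (x + (r + 1) • Pi.single i 1) S.D, insert (x + r • Pi.single i 1, i) S.O, S.C,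
      fr', S.Xm⟩ x i l (r + 1) (r + 1) where
  mem := by
    intro k h1 h2
    by_cases hk : k ≤ r
    · exact mem_insert_of_mem (h.mem k h1 hk)
    · have : k = r + 1 := by omega
      rw [this]
      exact mem_insert_self _ _
  only := by
    intro y hy hyl
    rcases mem_insert.mp hy with rfl | hy1
    · exact ⟨r + 1, by omega, le_rfl, rfl⟩
    · obtain ⟨k, h1, h2, h3⟩ := h.only y hy1 hyl
      exact ⟨k, h1, by omega, h3⟩
  opn := by
    intro k h1 h2
    by_cases hk : k < r
    · exact mem_insert_of_mem (h.opn k h1 hk)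
    · have : k = r := by omega
      rw [this]
      exact mem_insert_self _ _
  qry := by
    intro f hf hov
    have hf2 : f ∈ insert (x + r • Pi.single i 1, i) S.O ∪ S.C := hf
    rw [insert_union] at hf2
    rcases mem_insert.mp hf2 with rfl | hf3
    · exact ⟨r, hlr, by omega, rfl⟩
    · obtain ⟨k, h1, h2, h3⟩ := h.qry f hf3 hov
      exact ⟨k, h1, by omega, h3⟩
  xm := h.xm

lemma Prog.fwd_closed (h4 : 4 ∣ N) {S : St N d} {x : TV N d} {i : Fin d} {l r : ℤ}
    (h : Prog S x i l r r) (hlr : l ≤ r) (fr' : Finset (TV N d × Fin d)) :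
    Prog ⟨S.D, S.O, insert (x + r • Pi.single i 1, i) S.C, fr', S.Xm⟩ x i l r (r + 1) where
  mem := h.mem
  only := h.only
  opn := h.opn
  qry := by
    intro f hf hov
    have hf2 : f ∈ S.O ∪ insert (x + r • Pi.single i 1, i) S.C := hf
    rw [union_insert] at hf2
    rcases mem_insert.mp hf2 with rfl | hf3
    · exact ⟨r, hlr, by omega, rfl⟩
    · obtain ⟨k, h1, h2, h3⟩ := h.qry f hf3 hov
      exact ⟨k, h1, by omega, h3⟩
  xm := h.xm

lemma Prog.bwd_open (h4 : 4 ∣ N) {S : St N d} {x : TV N d} {i : Fin d} {l r q : ℤ}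
    (h : Prog S x i l r q) (hlr : l ≤ r) (hlq : l ≤ q) (fr' : Finset (TV N d × Fin d)) :
    Prog ⟨insert (x + (l - 1) • Pi.single i 1) S.D, insert (x + (l - 1) • Pi.single i 1, i) S.O, S.C,
      fr', S.Xm⟩ x i (l - 1) r q where
  mem := by
    intro k h1 h2
    by_cases hk : l ≤ k
    · exact mem_insert_of_mem (h.mem k hk h2)
    · have : k = l - 1 := by omega
      rw [this]
      exact mem_insert_self _ _
  only := by
    intro y hy hyl
    rcases mem_insert.mp hy with rfl | hy1
    · exact ⟨l - 1, le_rfl, by omega, rfl⟩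
    · obtain ⟨k, h1, h2, h3⟩ := h.only y hy1 hyl
      exact ⟨k, by omega, h2, h3⟩
  opn := by
    intro k h1 h2
    by_cases hk : l ≤ k
    · exact mem_insert_of_mem (h.opn k hk h2)
    · have : k = l - 1 := by omega
      rw [this]
      exact mem_insert_self _ _
  qry := by
    intro f hf hov
    have hf2 : f ∈ insert (x + (l - 1) • Pi.single i 1, i) S.O ∪ S.C := hf
    rw [insert_union] at hf2
    rcases mem_insert.mp hf2 with rfl | hf3
    · exact ⟨l - 1, le_rfl, by omega, rfl⟩
    · obtain ⟨k, h1, h2, h3⟩ := h.qry f hf3 hov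
      exact ⟨k, by omega, h2, h3⟩
  xm := h.xm

lemma Prog.xok_right (h4 : 4 ∣ N) (hN : 8 ≤ N) {S : St N d} {x : TV N d} {i : Fin d} {l r : ℤ}
    (h : Prog S x i l r r) (hlr : r = l + 3) :
    XOK S (x + r • Pi.single i 1, x + (r + 1) • Pi.single i 1) := by
  refine ⟨i, Pi.single i 1, Or.inl rfl, ?_, ?_, ?_, ?_⟩
  · show x + (r + 1) • Pi.single i 1 = x + r • Pi.single i 1 + Pi.single i 1
    module
  · intro j hj
    have e1 : (x + r • Pi.single i 1 : TV N d) - j • Pi.single i 1
        = x + (r - j) • Pi.single i 1 := by module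
    show x + r • Pi.single i 1 - j • Pi.single i 1 ∈ S.D
    rw [e1]
    exact h.mem _ (by omega) (by omega)
  · intro j hj
    refine ⟨(x + (r - j - 1) • Pi.single i 1, i), h.opn _ (by omega) (by omega), ?_⟩
    have e1 : (x + r • Pi.single i 1 : TV N d) - j • Pi.single i 1
        = x + (r - j - 1) • Pi.single i 1 + Pi.single i 1 := by module
    have e2 : (x + r • Pi.single i 1 : TV N d) - (j + 1) • Pi.single i 1
        = x + (r - j - 1) • Pi.single i 1 := by module
    show (T N d).J _ (x + r • Pi.single i 1 - j • Pi.single i 1)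
      (x + r • Pi.single i 1 - (j + 1) • Pi.single i 1)
    rw [e1, e2]
    exact LG.J_comm.mp J_pos
  · intro f hJ hf
    have e1 : (x + (r + 1) • Pi.single i 1 : TV N d) = x + r • Pi.single i 1 + Pi.single i 1 := by
      module
    have hJ' : (T N d).J f (x + r • Pi.single i 1) (x + (r + 1) • Pi.single i 1) := hJ
    rw [e1] at hJ'
    have hfe := J_pos_eq (by omega) hJ'
    obtain ⟨k, h1, h2, h3⟩ := h.qry f hf ⟨by rw [hfe], by rw [hfe]; exact sameLine_pr4 h4 _⟩
    rw [hfe] at h3
    obtain ⟨m, hm⟩ := eq_of_zsmul h3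
    have hm1 : 0 < m := by
      by_contra hm2
      have : (N : ℤ) * m ≤ 0 := mul_nonpos_of_nonneg_of_nonpos (by positivity) (by omega)
      omega
    have : (N : ℤ) ≤ N * m := by nlinarith
    omega

lemma Prog.xok_left (h4 : 4 ∣ N) (hN : 8 ≤ N) {S : St N d} {x : TV N d} {i : Fin d} {l r q : ℤ}
    (h : Prog S x i l r q) (hlr : r = l + 3) (hq : q ≤ r + 1) :
    XOK S (x + l • Pi.single i 1, x + (l - 1) • Pi.single i 1) := by
  refine ⟨i, - Pi.single i 1, Or.inr rfl, ?_, ?_, ?_, ?_⟩
  · show x + (l - 1) • Pi.single i 1 = x + l • Pi.single i 1 + - Pi.single i 1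
    module
  · intro j hj
    have e1 : (x + l • Pi.single i 1 : TV N d) - j • - Pi.single i 1
        = x + (l + j) • Pi.single i 1 := by module
    show x + l • Pi.single i 1 - j • - Pi.single i 1 ∈ S.D
    rw [e1]
    exact h.mem _ (by omega) (by omega)
  · intro j hj
    refine ⟨(x + (l + j) • Pi.single i 1, i), h.opn _ (by omega) (by omega), ?_⟩
    have e1 : (x + l • Pi.single i 1 : TV N d) - j • - Pi.single i 1
        = x + (l + j) • Pi.single i 1 := by module
    have e2 : (x + l • Pi.single i 1 : TV N d) - (j + 1) • - Pi.single i 1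
        = x + (l + j) • Pi.single i 1 + Pi.single i 1 := by module
    show (T N d).J _ (x + l • Pi.single i 1 - j • - Pi.single i 1)
      (x + l • Pi.single i 1 - (j + 1) • - Pi.single i 1)
    rw [e1, e2]
    exact J_pos
  · intro f hJ hf
    have e1 : (x + l • Pi.single i 1 : TV N d) = x + (l - 1) • Pi.single i 1 + Pi.single i 1 := by
      module
    have hJ' : (T N d).J f (x + l • Pi.single i 1) (x + (l - 1) • Pi.single i 1) := hJ
    rw [e1] at hJ'
    have hfe := J_neg_eq (by omega) hJ'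
    obtain ⟨k, h1, h2, h3⟩ := h.qry f hf ⟨by rw [hfe], by rw [hfe]; exact sameLine_pr4 h4 _⟩
    rw [hfe] at h3
    obtain ⟨m, hm⟩ := eq_of_zsmul h3
    have hm1 : m < 0 := by
      by_contra hm2
      have : 0 ≤ (N : ℤ) * m := mul_nonneg (by positivity) (by omega)
      omega
    have : (N : ℤ) * m ≤ - N := by nlinarith
    omega

lemma XOK.of_Xm {S : St N d} {z : TV N d × TV N d} (h : XOK S z) (Xm' : Finset (TV N d × TV N d)) :
    XOK ⟨S.D, S.O, S.C, S.fr, Xm'⟩ z := h

/-- the end of a macro step -/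
lemma GInv.finish (h4 : 4 ∣ N) {S : St N d} {x : TV N d} {i : Fin d} {l r : ℤ}
    (hG : GInv S (PL x i)) (hl : l ≤ 0) (hr : 0 ≤ r) (hfr : (x, i) ∈ S.fr)
    (hmem : ∀ k : ℤ, l ≤ k → k ≤ r → x + k • Pi.single i 1 ∈ S.D)
    (honly : ∀ y ∈ S.D, SameLine i (pr4 N d x) (pr4 N d y) →
      ∃ k : ℤ, l ≤ k ∧ k ≤ r ∧ y = x + k • Pi.single i 1)
    (Xm' : Finset (TV N d × TV N d)) (hX : S.Xm ⊆ Xm') (hX1 : ∀ z ∈ Xm', XOK S z)
    (hR : (x + r • Pi.single i 1, i) ∈ S.C ∨
      (x + r • Pi.single i 1, x + (r + 1) • Pi.single i 1) ∈ Xm')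
    (hL : (x + (l - 1) • Pi.single i 1, i) ∈ S.C ∨
      (x + l • Pi.single i 1, x + (l - 1) • Pi.single i 1) ∈ Xm') :
    GInv ⟨S.D, S.O, S.C, S.fr, Xm'⟩ (fun _ _ => False) where
  base := hG.base
  frm := hG.frm
  fre := hG.fre
  xml := hX1
  line := by
    intro i' u' _
    by_cases hP : PL x i i' u'
    · obtain ⟨rfl, hu⟩ := hP
      right; left
      exact ⟨x, l, r, hl, hr, hfr, hu.symm', hmem, fun y hy hyl => honly y hy (hu.trans' hyl),
        hR, hL⟩
    · rcases hG.line i' u' hP with h | h | h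
      · exact Or.inl h
      · right; left
        obtain ⟨x0, l0, r0, h1, h2, h3, h5, h6, h7, h8, h9⟩ := h
        exact ⟨x0, l0, r0, h1, h2, h3, h5, h6, h7, h8.imp id (fun a => hX a),
          h9.imp id (fun a => hX a)⟩
      · exact Or.inr (Or.inr h)

/-! ### the explorations -/

def Final (ω : Finset (TE 4 d)) (S : St N d) : Prop :=
  Compat ω S.O S.C ∧ GInv S (fun _ _ => False) ∧ Term S.D S.O S.C ∧ NoFresh S

/-- there is an exploration started from `(O, C)` with expectation `v` of `|Xm| - c |fr|` -/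
def Run (p c : ℝ) (O C : Finset (TE N d)) (v : ℝ) : Prop :=
  ∃ L : Finset (TE 4 d) → St N d,
    (∀ ω, Compat ω O C → Final ω (L ω)) ∧
    (∀ ω ω', (∀ f, f ∉ (O ∪ C).image (pr4E N d) → (f ∈ ω ↔ f ∈ ω')) → L ω = L ω') ∧
    (∀ f : Finset (TE N d) → ℝ, Ex univ p (fun ω => Ex univ p (fun η =>
        f ((L ω).O ∪ (η \ ((L ω).O ∪ (L ω).C)))))
      = Ex univ p (fun η => f (O ∪ (η \ (O ∪ C))))) ∧
    Ex univ p (fun ω => ((L ω).Xm.card : ℝ) - c * ((L ω).fr.card : ℝ)) = v

lemma Run.query {p c : ℝ} {O C : Finset (TE N d)} {v1 v2 v : ℝ} {e : TE N d}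
    (he : pr4E N d e ∉ (O ∪ C).image (pr4E N d)) (h1 : Run p c (insert e O) C v1)
    (h2 : Run p c O (insert e C) v2) (hv : v = p * v1 + (1 - p) * v2) : Run p c O C v := by
  have heOC : e ∉ O ∪ C := fun h => he (mem_image_of_mem _ h)
  have heO : e ∉ O := fun h => heOC (mem_union_left _ h)
  have heC : e ∉ C := fun h => heOC (mem_union_right _ h)
  obtain ⟨Lo, ho1, ho2, ho3, ho4⟩ := h1
  obtain ⟨Lc, hl1, hl2, hl3, hl4⟩ := h2
  refine ⟨fun ω => if pr4E N d e ∈ ω then Lo ω else Lc ω, ?_, ?_, ?_, ?_⟩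
  · intro ω hc
    by_cases hω : pr4E N d e ∈ ω
    · simp only [hω, if_true]
      refine ho1 ω ⟨?_, hc.2⟩
      intro e' he'
      rcases mem_insert.mp he' with rfl | h3
      · exact hω
      · exact hc.1 e' h3
    · simp only [hω, if_false]
      refine hl1 ω ⟨hc.1, ?_⟩
      intro e' he'
      rcases mem_insert.mp he' with rfl | h3
      · exact hω
      · exact hc.2 e' h3
  · intro ω ω' h
    have h1 := h _ he
    by_cases hω : pr4E N d e ∈ ω
    · have hω' := h1.mp hω
      simp only [hω, hω', if_true]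
      apply ho2
      intro f hf
      apply h
      intro hf'
      apply hf
      rw [insert_union]
      exact image_subset_image (subset_insert _ _) hf'
    · have hω' : pr4E N d e ∉ ω' := fun h2 => hω (h1.mpr h2)
      simp only [hω, hω', if_false]
      apply hl2
      intro f hf
      apply h
      intro hf'
      apply hf
      rw [union_insert]
      exact image_subset_image (subset_insert _ _) hf'
  · intro f
    have e1 : ∀ ω : Finset (TE 4 d), Lo (insert (pr4E N d e) ω) = Lo ω := by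
      intro ω
      apply ho2
      intro g hg
      have hge : g ≠ pr4E N d e := by
        rintro rfl
        apply hg
        exact mem_image_of_mem _ (mem_union_left _ (mem_insert_self _ _))
      simp [hge]
    have e2 : ∀ ω : Finset (TE 4 d), Lc (ω.erase (pr4E N d e)) = Lc ω := by
      intro ω
      apply hl2
      intro g hg
      have hge : g ≠ pr4E N d e := by
        rintro rfl
        apply hg
        exact mem_image_of_mem _ (mem_union_right _ (mem_insert_self _ _))
      simp [hge]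
    rw [Ex_edge (mem_univ (pr4E N d e))]
    simp only [mem_insert_self, if_true, notMem_erase, if_false, e1, e2]
    rw [ho3, hl3]
    rw [Ex_edge (mem_univ e) p (fun η => f (O ∪ (η \ (O ∪ C))))]
    congr 1
    · congr 1
      apply Ex_congr
      intro η _
      congr 1
      ext a
      simp only [mem_union, mem_insert, mem_sdiff]
      by_cases ha : a = e
      · subst ha; simp [heO, heC]
      · simp [ha]
    · congr 1
      apply Ex_congr
      intro η _
      congr 1
      ext a
      simp only [mem_union, mem_insert, mem_sdiff, mem_erase]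
      by_cases ha : a = e
      · subst ha; simp [heO, heC]
      · simp [ha]
  · have e1 : ∀ ω : Finset (TE 4 d), Lo (insert (pr4E N d e) ω) = Lo ω := by
      intro ω
      apply ho2
      intro g hg
      have hge : g ≠ pr4E N d e := by
        rintro rfl
        apply hg
        exact mem_image_of_mem _ (mem_union_left _ (mem_insert_self _ _))
      simp [hge]
    have e2 : ∀ ω : Finset (TE 4 d), Lc (ω.erase (pr4E N d e)) = Lc ω := by
      intro ω
      apply hl2
      intro g hg
      have hge : g ≠ pr4E N d e := by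
        rintro rfl
        apply hg
        exact mem_image_of_mem _ (mem_union_right _ (mem_insert_self _ _))
      simp [hge]
    rw [Ex_edge (mem_univ (pr4E N d e))]
    simp only [mem_insert_self, if_true, notMem_erase, if_false, e1, e2]
    rw [ho4, hl4, hv]

/-- the potential -/
def Phi (c : ℝ) (S : St N d) : ℝ := (S.Xm.card : ℝ) - c * (S.fr.card : ℝ)

lemma Run.stop {p c : ℝ} {S : St N d} (hG : GInv S (fun _ _ => False)) (ht : Term S.D S.O S.C)
    (hf : NoFresh S) : Run p c S.O S.C (Phi c S) := by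
  refine ⟨fun _ => S, fun ω hc => ⟨hc, hG, ht, hf⟩, fun _ _ _ => rfl, fun f => Ex_const _ _ _, ?_⟩
  rw [Ex_const]
  rfl

lemma card_lt_of_new {O C : Finset (TE N d)} {e : TE N d} (he : e ∉ O ∪ C) :
    (univ \ (insert e O ∪ C)).card < (univ \ (O ∪ C)).card ∧
    (univ \ (O ∪ insert e C)).card < (univ \ (O ∪ C)).card := by
  have := card_erase_lt_of_mem (mem_sdiff.mpr ⟨mem_univ e, he⟩)
  rw [insert_union, union_insert, sdiff_insert]
  exact ⟨this, this⟩


/-- second phase of a macro step -/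
lemma phase2 (h4 : 4 ∣ N) (hN : 8 ≤ N) {p c : ℝ} {M : ℕ}
    (IH : ∀ S : St N d, GInv S (fun _ _ => False) → (univ \ (S.O ∪ S.C)).card < M →
      Run p c S.O S.C (Phi c S)) {x : TV N d} {i : Fin d} {r : ℤ} (hr : 0 ≤ r) (m : ℕ) :
    ∀ (S : St N d) (l : ℤ), l ≤ 0 → r - l + m = 3 → GInv S (PL x i) → Prog S x i l r (r + 1) →
      (x, i) ∈ S.fr → (x + r • Pi.single i 1, i) ∈ S.C → (univ \ (S.O ∪ S.C)).card < M →
      Run p c S.O S.C (Phi c S + p ^ m) := by
  induction m with
  | zero =>
    intro S l hl hrl hG hP hfr hC hM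
    have hrl' : r = l + 3 := by push_cast at hrl; omega
    have hG' := hG.finish h4 hl hr hfr hP.mem hP.only
      (insert (x + l • Pi.single i 1, x + (l - 1) • Pi.single i 1) S.Xm) (subset_insert _ _)
      (by
        intro z hz
        rcases mem_insert.mp hz with rfl | hz1
        · exact hP.xok_left h4 hN hrl' le_rfl
        · exact hG.xml z hz1) (Or.inl hC) (Or.inr (mem_insert_self _ _))
    have h1 := IH _ hG' hM
    have h2 : Phi c (⟨S.D, S.O, S.C, S.fr,
        insert (x + l • Pi.single i 1, x + (l - 1) • Pi.single i 1) S.Xm⟩ : St N d)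
        = Phi c S + p ^ 0 := by
      unfold Phi
      simp only
      rw [card_insert_of_notMem (hP.xm l).2]
      push_cast
      ring
    rw [← h2]
    exact h1
  | succ m ih =>
    intro S l hl hrl hG hP hfr hC hM
    push_cast at hrl
    have hJ : (T N d).J (x + (l - 1) • Pi.single i 1, i) (x + l • Pi.single i 1)
        (x + (l - 1) • Pi.single i 1) := by
      have e1 : (x + l • Pi.single i 1 : TV N d)
          = x + (l - 1) • Pi.single i 1 + Pi.single i 1 := by module
      rw [e1]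
      exact LG.J_comm.mp J_pos
    have hx := hP.mem l le_rfl (by omega)
    have hy := hP.new_vertex h4 (l - 1) (Or.inl (by omega)) (by omega) (by omega)
    have he := hP.new_edge h4 (l - 1) (Or.inl (by omega)) (by omega) (by omega)
    have hcard := card_lt_of_new (fun h1 => he (mem_image_of_mem _ h1))
    have hfr2 : ∀ z ∈ S.fr, ∃ f ∈ insert ((x + (l - 1) • Pi.single i 1, i) : TE N d) (S.O ∪ S.C),
        Over z.2 (pr4 N d z.1) f := by
      intro z hz
      obtain ⟨f, hf, hov⟩ := hG.fre z hz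
      exact ⟨f, mem_insert_of_mem hf, hov⟩
    have hPP : ∀ i' u', ¬ PL x i i' u' → (¬ PL x i i' u' ∧
        ¬ Over i' u' ((x + (l - 1) • Pi.single i 1, i) : TE N d)) ∨ Dirty S i' u' :=
      fun i' u' h => Or.inl ⟨h, not_over_of_not_PL h4 _ h⟩
    refine Run.query he
      (v1 := Phi c S + p ^ m) (v2 := Phi c S) ?_ ?_ (by ring)
    · exact ih _ (l - 1) (by omega) (by omega)
        (hG.step_open h4 hJ hx hy he (Subset.refl _) hG.frm hfr2 hPP)
        (hP.bwd_open h4 (by omega) (by omega) S.fr) hfr hC (by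
          show (univ \ (insert _ S.O ∪ S.C)).card < M
          omega)
    · have hG2 := hG.step_closed h4 hJ hx hy he (Subset.refl _) hG.frm hfr2 hPP
      have hG3 := hG2.finish h4 hl hr hfr hP.mem hP.only S.Xm (Subset.refl _) hG2.xml
        (Or.inl (mem_insert_of_mem hC)) (Or.inl (mem_insert_self _ _))
      exact IH _ hG3 (by
        show (univ \ (S.O ∪ insert _ S.C)).card < M
        omega)

/-- first phase of a macro step -/
lemma phase1 (h4 : 4 ∣ N) (hN : 8 ≤ N) {p c : ℝ} {M : ℕ}
    (IH : ∀ S : St N d, GInv S (fun _ _ => False) → (univ \ (S.O ∪ S.C)).card < M →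
      Run p c S.O S.C (Phi c S)) {x : TV N d} {i : Fin d} (n : ℕ) :
    ∀ (S : St N d) (r : ℤ), 0 ≤ r → r + n = 3 → GInv S (PL x i) → Prog S x i 0 r r →
      (x, i) ∈ S.fr → (univ \ (S.O ∪ S.C)).card < M →
      Run p c S.O S.C (Phi c S + 2 * p ^ n + n * (1 - p) * p ^ n) := by
  induction n with
  | zero =>
    intro S r hr hrn hG hP hfr hM
    push_cast at hrn
    have hr3 : r = 3 := by omega
    subst hr3
    have hne1 : (x + (3 : ℤ) • Pi.single i 1, x + ((3 : ℤ) + 1) • Pi.single i 1) ∉
        insert (x + (0 : ℤ) • Pi.single i 1, x + ((0 : ℤ) - 1) • Pi.single i 1) S.Xm := by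
      intro h
      rcases mem_insert.mp h with h1 | h1
      · have h2 := (Prod.mk.inj h1).1
        obtain ⟨m, hm⟩ := eq_of_zsmul h2
        have hm1 : 0 < m := by
          by_contra hm2
          have : (N : ℤ) * m ≤ 0 := mul_nonpos_of_nonneg_of_nonpos (by positivity) (by omega)
          omega
        have : (N : ℤ) ≤ N * m := by nlinarith
        omega
      · exact (hP.xm 3).1 h1
    have hG' := hG.finish h4 le_rfl (by norm_num) hfr hP.mem hP.only
      (insert (x + (3 : ℤ) • Pi.single i 1, x + ((3 : ℤ) + 1) • Pi.single i 1)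
        (insert (x + (0 : ℤ) • Pi.single i 1, x + ((0 : ℤ) - 1) • Pi.single i 1) S.Xm))
      ((subset_insert _ _).trans (subset_insert _ _))
      (by
        intro z hz
        rcases mem_insert.mp hz with rfl | hz1
        · exact hP.xok_right h4 hN (by norm_num)
        · rcases mem_insert.mp hz1 with rfl | hz2
          · exact hP.xok_left h4 hN (by norm_num) (by norm_num)
          · exact hG.xml z hz2) (Or.inr (mem_insert_self _ _))
      (Or.inr (mem_insert_of_mem (mem_insert_self _ _)))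
    have h1 := IH _ hG' hM
    have h2 : Phi c (⟨S.D, S.O, S.C, S.fr,
        insert (x + (3 : ℤ) • Pi.single i 1, x + ((3 : ℤ) + 1) • Pi.single i 1)
        (insert (x + (0 : ℤ) • Pi.single i 1, x + ((0 : ℤ) - 1) • Pi.single i 1) S.Xm)⟩ : St N d)
        = Phi c S + 2 * p ^ 0 + ((0 : ℕ) : ℝ) * (1 - p) * p ^ 0 := by
      unfold Phi
      simp only
      rw [card_insert_of_notMem hne1, card_insert_of_notMem (hP.xm 0).2]
      push_cast
      ring
    rw [← h2]
    exact h1
  | succ n ih =>
    intro S r hr hrn hG hP hfr hM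
    push_cast at hrn
    have hJ : (T N d).J (x + r • Pi.single i 1, i) (x + r • Pi.single i 1)
        (x + (r + 1) • Pi.single i 1) := by
      have e1 : (x + (r + 1) • Pi.single i 1 : TV N d)
          = x + r • Pi.single i 1 + Pi.single i 1 := by module
      rw [e1]
      exact J_pos
    have hx := hP.mem r (by omega) le_rfl
    have hy := hP.new_vertex h4 (r + 1) (Or.inr (by omega)) (by omega) (by omega)
    have he := hP.new_edge h4 r (Or.inr le_rfl) (by omega) (by omega)
    have hcard := card_lt_of_new (fun h1 => he (mem_image_of_mem _ h1))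
    have hfr2 : ∀ z ∈ S.fr, ∃ f ∈ insert ((x + r • Pi.single i 1, i) : TE N d) (S.O ∪ S.C),
        Over z.2 (pr4 N d z.1) f := by
      intro z hz
      obtain ⟨f, hf, hov⟩ := hG.fre z hz
      exact ⟨f, mem_insert_of_mem hf, hov⟩
    have hPP : ∀ i' u', ¬ PL x i i' u' → (¬ PL x i i' u' ∧
        ¬ Over i' u' ((x + r • Pi.single i 1, i) : TE N d)) ∨ Dirty S i' u' :=
      fun i' u' h => Or.inl ⟨h, not_over_of_not_PL h4 _ h⟩
    refine Run.query he
      (v1 := Phi c S + 2 * p ^ n + n * (1 - p) * p ^ n) (v2 := Phi c S + p ^ (n + 1)) ?_ ?_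
      (by push_cast; ring)
    · exact ih _ (r + 1) (by omega) (by omega)
        (hG.step_open h4 hJ hx hy he (Subset.refl _) hG.frm hfr2 hPP)
        (hP.fwd_open h4 hr S.fr) hfr (by
          show (univ \ (insert _ S.O ∪ S.C)).card < M
          omega)
    · exact phase2 h4 hN IH hr (n + 1) _ 0 le_rfl (by push_cast; omega)
        (hG.step_closed h4 hJ hx hy he (Subset.refl _) hG.frm hfr2 hPP)
        (hP.fwd_closed h4 hr S.fr) hfr (mem_insert_self _ _) (by
          show (univ \ (S.O ∪ insert _ S.C)).card < M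
          omega)

/-- the exploration from a given state -/
lemma explore2 (h4 : 4 ∣ N) (hN : 8 ≤ N) (p : ℝ) (M : ℕ) : ∀ S : St N d,
    GInv S (fun _ _ => False) → (univ \ (S.O ∪ S.C)).card = M →
    Run p (5 * p ^ 3 - 3 * p ^ 4) S.O S.C (Phi (5 * p ^ 3 - 3 * p ^ 4) S) := by
  induction M using Nat.strong_induction_on with
  | _ M ih =>
    intro S hG hM
    have IH : ∀ S : St N d, GInv S (fun _ _ => False) → (univ \ (S.O ∪ S.C)).card < M →
        Run p (5 * p ^ 3 - 3 * p ^ 4) S.O S.C (Phi (5 * p ^ 3 - 3 * p ^ 4) S) :=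
      fun S' hG' hM' => ih _ hM' S' hG' rfl
    by_cases hnf : NoFresh S
    · by_cases ht : Term S.D S.O S.C
      · exact Run.stop hG ht hnf
      · -- a single query
        unfold Term at ht
        push Not at ht
        obtain ⟨e, x, y, hJ, hx, hy, he⟩ := ht
        have heOC : e ∉ S.O ∪ S.C := fun h => he (mem_image_of_mem _ h)
        have hcard := card_lt_of_new heOC
        have hdirty : Dirty S e.2 (pr4 N d x) := by
          rcases hG.line e.2 (pr4 N d x) (fun h => h) with h | h | h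
          · obtain ⟨w, hw, hne, hwl⟩ := hnf x hx e.2 h
            exact dirty_of_fresh hG.base h hx hw hne.symm SameLine.rfl' hwl
          · exact absurd (Done.no_query h4 hG h hJ hx hy heOC) (fun h => h)
          · exact h
        have hPP : ∀ i' u', ¬ (fun (_ : Fin d) (_ : TV 4 d) => False) i' u' →
            (¬ (fun (_ : Fin d) (_ : TV 4 d) => False) i' u' ∧ ¬ Over i' u' e) ∨
              Dirty S i' u' := by
          intro i' u' h
          by_cases hov : Over i' u' e
          · right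
            obtain ⟨h1, h2⟩ := hov
            subst h1
            have h3 := h2.trans' (over_of_J h4 hJ).symm'
            obtain ⟨v, hv, w, hw, hne, h5, h6, O', hO', h7, h8⟩ := hdirty
            refine ⟨v, hv, w, hw, hne, h3.trans' h5, h3.trans' h6, O', hO', ?_, h8⟩
            intro e' he' hov'
            exact h7 e' he' ⟨hov'.1, h3.symm'.trans' hov'.2⟩
          · exact Or.inl ⟨h, hov⟩
        have hfr2 : ∀ z ∈ S.fr, ∃ f ∈ insert e (S.O ∪ S.C), Over z.2 (pr4 N d z.1) f := by
          intro z hz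
          obtain ⟨f, hf, hov⟩ := hG.fre z hz
          exact ⟨f, mem_insert_of_mem hf, hov⟩
        refine Run.query he (v1 := Phi _ S) (v2 := Phi _ S) ?_ ?_ (by ring)
        · exact IH _ (hG.step_open h4 hJ hx hy he (Subset.refl _) hG.frm hfr2 hPP) (by
            show (univ \ (insert _ S.O ∪ S.C)).card < M
            omega)
        · exact IH _ (hG.step_closed h4 hJ hx hy he (Subset.refl _) hG.frm hfr2 hPP) (by
            show (univ \ (S.O ∪ insert _ S.C)).card < M
            omega)
    · -- a macro step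
      unfold NoFresh at hnf
      push Not at hnf
      obtain ⟨x, hx0, i, hfresh, honly⟩ := hnf
      have hPr : Prog S x i 0 0 0 := by
        refine ⟨?_, ?_, ?_, ?_, ?_⟩
        · intro k h1 h2
          have : k = 0 := by omega
          rw [this, zero_smul, add_zero]
          exact hx0
        · intro y hy hyl
          refine ⟨0, le_rfl, le_rfl, ?_⟩
          rw [zero_smul, add_zero]
          by_contra hne
          exact honly y hy hne hyl
        · intro k h1 h2
          omega
        · intro f hf hov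
          exact absurd hov (hfresh f hf)
        · intro k
          have key : ∀ z ∈ S.Xm, ∀ k : ℤ, ∀ b : TV N d, z = (x + k • Pi.single i 1, b) →
              (b = x + k • Pi.single i 1 + Pi.single i 1 ∨
                b = x + k • Pi.single i 1 + - Pi.single i 1) → False := by
            intro z hz k b hzb hb
            obtain ⟨i', s, hs, h1, h2, h3, h5⟩ := hG.xml z hz
            rw [hzb] at h1 h3
            have h1' : b = x + k • Pi.single i 1 + s := h1
            have hi' : i' = i := by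
              rcases hb with hb | hb <;> rcases hs with hs | hs <;> rw [hb, hs] at h1'
              · exact (eq_single_of (by omega) (add_left_cancel h1')).symm
              · exact absurd (add_left_cancel h1') (neg_single_ne (by omega))
              · exact absurd (add_left_cancel h1').symm (neg_single_ne (by omega))
              · exact (eq_single_of (by omega) (neg_injective (add_left_cancel h1'))).symm
            subst hi'
            obtain ⟨f, hf, hJ⟩ := h3 0 (by norm_num)
            have hJ' : (T N d).J f (x + k • Pi.single i' 1 - 0 • s)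
              (x + k • Pi.single i' 1 - (0 + 1) • s) := by simpa using hJ
            rw [zero_smul, sub_zero, zero_add, one_smul] at hJ'
            have hf2 : f.2 = i' := by
              rcases hs with hs | hs
              · rw [hs] at hJ'
                have e1 : x + k • Pi.single i' 1
                    = (x + k • Pi.single i' 1 - Pi.single i' 1 : TV N d) + Pi.single i' 1 := by
                  abel
                rw [e1] at hJ'
                have e2 : (x + k • Pi.single i' 1 - Pi.single i' 1 + Pi.single i' 1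
                    - Pi.single i' 1 : TV N d) = x + k • Pi.single i' 1 - Pi.single i' 1 := by
                  abel
                rw [e2] at hJ'
                rw [J_neg_eq (by omega) hJ']
              · rw [hs, sub_neg_eq_add] at hJ'
                rw [J_pos_eq (by omega) hJ']
            have h6 := over_of_J h4 hJ'
            rw [hf2] at h6
            exact hfresh f (mem_union_left _ hf) ⟨hf2, (sameLine_pr4 h4 k).trans' h6⟩
          constructor
          · intro h
            exact key _ h k _ rfl (Or.inl (by module))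
          · intro h
            exact key _ h k _ rfl (Or.inr (by module))
      have hxi : (x, i) ∉ S.fr := by
        intro h
        obtain ⟨f, hf, hov⟩ := hG.fre _ h
        exact hfresh f hf hov
      have hx : x + (0 : ℤ) • Pi.single i 1 ∈ S.D := hPr.mem 0 le_rfl le_rfl
      have hJ : (T N d).J (x + (0 : ℤ) • Pi.single i 1, i) (x + (0 : ℤ) • Pi.single i 1)
          (x + ((0 : ℤ) + 1) • Pi.single i 1) := by
        have e1 : (x + ((0 : ℤ) + 1) • Pi.single i 1 : TV N d)
            = x + (0 : ℤ) • Pi.single i 1 + Pi.single i 1 := by module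
        rw [e1]
        exact J_pos
      have hy := hPr.new_vertex h4 (0 + 1) (Or.inr (by omega)) (by omega) (by omega)
      have he := hPr.new_edge h4 0 (Or.inr le_rfl) (by omega) (by omega)
      have hcard := card_lt_of_new (fun h1 => he (mem_image_of_mem _ h1))
      have hfr1 : ∀ z ∈ insert (x, i) S.fr, z.1 ∈ S.D := by
        intro z hz
        rcases mem_insert.mp hz with rfl | hz1
        · exact hx0
        · exact hG.frm z hz1
      have hfr2 : ∀ z ∈ insert (x, i) S.fr,
          ∃ f ∈ insert ((x + (0 : ℤ) • Pi.single i 1, i) : TE N d) (S.O ∪ S.C),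
          Over z.2 (pr4 N d z.1) f := by
        intro z hz
        rcases mem_insert.mp hz with rfl | hz1
        · exact ⟨_, mem_insert_self _ _, rfl, sameLine_pr4 h4 0⟩
        · obtain ⟨f, hf, hov⟩ := hG.fre z hz1
          exact ⟨f, mem_insert_of_mem hf, hov⟩
      have hPP : ∀ i' u', ¬ PL x i i' u' → (¬ (fun (_ : Fin d) (_ : TV 4 d) => False) i' u' ∧
          ¬ Over i' u' ((x + (0 : ℤ) • Pi.single i 1, i) : TE N d)) ∨ Dirty S i' u' :=
        fun i' u' h => Or.inl ⟨fun h => h, not_over_of_not_PL h4 _ h⟩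
      have hPhi : ∀ (D : Finset (TV N d)) (O C : Finset (TE N d)) (c : ℝ),
          Phi c (⟨D, O, C, insert (x, i) S.fr, S.Xm⟩ : St N d) = Phi c S - c := by
        intro D O C c
        unfold Phi
        simp only
        rw [card_insert_of_notMem hxi]
        push_cast
        ring
      have h1 := phase1 h4 hN IH 2 _ (0 + 1) (by norm_num) (by norm_num)
        (hG.step_open h4 hJ hx hy he (subset_insert _ _) hfr1 hfr2 hPP)
        (hPr.fwd_open h4 le_rfl (insert (x, i) S.fr)) (mem_insert_self _ _) (by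
          show (univ \ (insert _ S.O ∪ S.C)).card < M
          omega)
      have h2 := phase2 h4 hN IH le_rfl 3 _ 0 le_rfl (by norm_num)
        (hG.step_closed h4 hJ hx hy he (subset_insert _ _) hfr1 hfr2 hPP)
        (hPr.fwd_closed h4 le_rfl (insert (x, i) S.fr)) (mem_insert_self _ _)
        (mem_insert_self _ _) (by
          show (univ \ (S.O ∪ insert _ S.C)).card < M
          omega)
      rw [hPhi] at h1 h2
      refine Run.query he h1 h2 ?_
      push_cast
      ring

theorem coupling2 (h4 : 4 ∣ N) (hN : 8 ≤ N) (p : ℝ) :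
    ∃ L : ∀ ω : Finset (TE 4 d), Lift2 N d ω, (∀ f : Finset (TE N d) → ℝ,
      Ex univ p (fun ω => Ex univ p (fun η => f ((L ω).O ∪ (η \ ((L ω).O ∪ (L ω).C)))))
        = Ex univ p f) ∧
      Ex univ p (fun ω => (((L ω).Xm.card : ℕ) : ℝ))
        = (5 * p ^ 3 - 3 * p ^ 4) * Ex univ p (fun ω => (((L ω).fr.card : ℕ) : ℝ)) := by
  obtain ⟨L, h1, _, h3, h5⟩ := explore2 (N := N) (d := d) h4 hN p _ ⟨{0}, ∅, ∅, ∅, ∅⟩ GInv.start rfl
  have h6 : ∀ ω, ∃ M : Lift2 N d ω, M.O = (L ω).O ∧ M.C = (L ω).C ∧ M.fr = (L ω).fr ∧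
      M.Xm = (L ω).Xm := by
    intro ω
    obtain ⟨hc, hG, ht, hnf⟩ := h1 ω ⟨fun e he => absurd he (notMem_empty _),
      fun e he => absurd he (notMem_empty _)⟩
    obtain ⟨M, hD, hO, hC⟩ := (hG.base.toInv hc).lift h4 ht
    refine ⟨{ M with
      fr := (L ω).fr
      Xm := (L ω).Xm
      fr_mem := ?_
      fr_of := ?_
      Xm_line := ?_
      X_all := ?_ }, hO, hC, rfl, rfl⟩
    · rw [hD]
      exact hG.frm
    · rw [hD]
      intro x hx i honly
      rcases hG.line i (pr4 N d x) (fun h => h) with h | h | h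
      · obtain ⟨w, hw, hne, hwl⟩ := hnf x hx i h
        exact absurd (honly w hw hwl) hne
      · obtain ⟨x0, l, r, h7, h8, h9, h10, h11, _⟩ := h
        have hx0 : x0 ∈ (L ω).D := by simpa using h11 0 h7 h8
        rw [← honly x0 hx0 h10]
        exact h9
      · obtain ⟨v, hv, w, hw, hne, h7, h8, _⟩ := h
        exact absurd ((honly v hv h7).trans (honly w hw h8).symm) hne
    · rw [hD, hO, hC]
      exact hG.xml
    · rw [hD, hO, hC]
      intro e a b hJ ha hb he
      rcases hG.line e.2 (pr4 N d a) (fun h => h) with h | h | h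
      · right
        obtain ⟨w, hw, hne, hwl⟩ := hnf a ha e.2 h
        exact dirty_of_fresh hG.base h ha hw hne.symm SameLine.rfl' hwl
      · left
        obtain ⟨x0, l, r, h7, h8, h9, h10, h11, h12, h13, h14⟩ := h
        obtain ⟨k, hk1, hk2, hk⟩ := h12 a ha SameLine.rfl'
        rw [T_J] at hJ
        rcases hJ with ⟨a1, b1⟩ | ⟨a1, b1⟩
        · have hb' : b = x0 + (k + 1) • Pi.single e.2 1 := by
            rw [b1, hk]; module
          by_cases hkr : k + 1 ≤ r
          · exact absurd (hb' ▸ h11 (k + 1) (by omega) hkr) hb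
          · have hkr' : k = r := by omega
            subst hkr'
            rcases h13 with h13 | h13
            · exfalso
              apply he
              apply mem_union_right
              rw [← hk, ← a1] at h13
              exact h13
            · rw [← hb', ← hk] at h13
              exact h13
        · have hb' : b = x0 + (k - 1) • Pi.single e.2 1 := by
            rw [b1, hk]; module
          by_cases hkr : l ≤ k - 1
          · exact absurd (hb' ▸ h11 (k - 1) hkr (by omega)) hb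
          · have hkr' : k = l := by omega
            subst hkr'
            rcases h14 with h14 | h14
            · exfalso
              apply he
              apply mem_union_right
              rw [← hb', ← a1] at h14
              exact h14
            · rw [← hb', ← hk] at h14
              exact h14
      · right
        exact h
  choose M hO hC hfr hXm using h6
  refine ⟨M, fun f => ?_, ?_⟩
  · have h7 := h3 f
    simp only [empty_union, union_empty, sdiff_empty] at h7
    rw [← h7]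
    apply Ex_congr
    intro ω _
    apply Ex_congr
    intro η _
    rw [hO, hC]
  · simp only [hXm, hfr]
    have h8 : Phi (5 * p ^ 3 - 3 * p ^ 4) (⟨{0}, ∅, ∅, ∅, ∅⟩ : St N d) = 0 := by
      unfold Phi
      simp
    rw [h8, Ex_sub, Ex_mul_left] at h5
    linarith

end DDA
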