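import Pool.Agent.DDA.DLowB
import Pool.Agent.DDA.Kernel
import Pool.Agent.DDA.OneStepTau

/-!
# DDA: pairs at the two ends of a straight path of length three with a closed edge
-/

open Finset DDA.DLo

namespace DDA

set_option linter.unusedSectionVars false

namespace SC

variable {N d : ℕ}

lemma sg_sub (i : Fin d) {a b : ℕ} (h : b ≤ a) : sg N d i a - sg N d i b = sg N d i (a - b) := by
  unfold sg
  rw [← Pi.single_sub, ← Nat.cast_sub h]

lemma sg_sub_one (i : Fin d) (a : ℕ) : sg N d i (a + 1) - Pi.single i 1 = sg N d i a := by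
  rw [sg_succ, add_sub_cancel_right]

variable [NeZero N]

lemma wabs_cast (hN : 8 ≤ N) {c : ℕ} (hc : c ≤ 4) : ((c : ZMod N)).valMinAbs.natAbs = c := by
  rw [wabs, ZMod.val_natCast, Nat.mod_eq_of_lt (by omega)]
  omega

lemma nrm_sg (hN : 8 ≤ N) (i : Fin d) {c : ℕ} (hc : c ≤ 4) : nrm (sg N d i c) = c := by
  have h := nrm_add_single (0 : TV N d) i (c : ZMod N)
  rw [zero_add, Pi.zero_apply, zero_add, nrm_zero, zero_add, wabs_cast hN hc,
    ZMod.valMinAbs_zero, Int.natAbs_zero, add_zero] at h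
  exact h

lemma wabs_one (hN : 8 ≤ N) : (1 : ZMod N).valMinAbs.natAbs = 1 := by
  have := wabs_cast (N := N) hN (c := 1) (by norm_num)
  simpa using this

/-- all neighbours of a point of the straight segment but one are further away from its end -/
lemma nrm_off (hN : 8 ≤ N) (i : Fin d) {k m : ℕ} (hkm : k + (m + 1) = 3) (j : Fin d × Bool)
    (hj : j ≠ (i, true)) : nrm (sg N d i 3 - nb (sg N d i k) j) = m + 2 := by
  have hc : m + 1 ≤ 4 := by omega
  have e0 : sg N d i 3 - sg N d i k = sg N d i (m + 1) := by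
    rw [sg_sub i (by omega)]
    congr 1
    omega
  obtain ⟨j1, b⟩ := j
  cases b
  · have e1 : sg N d i 3 - nb (sg N d i k) (j1, false) = sg N d i (m + 1) + Pi.single j1 1 := by
      simp only [nb]
      rw [← e0, if_neg (by simp)]
      abel
    rw [e1]
    have h := nrm_add_single (sg N d i (m + 1)) j1 1
    rw [nrm_sg hN i hc] at h
    by_cases h1 : j1 = i
    · subst h1
      have e2 : (sg N d j1 (m + 1)) j1 = ((m + 1 : ℕ) : ZMod N) := by simp [sg]
      have e3 : ((m + 1 : ℕ) : ZMod N) + 1 = ((m + 2 : ℕ) : ZMod N) := by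
        push_cast
        ring
      rw [e2, e3, wabs_cast hN hc, wabs_cast hN (by omega)] at h
      omega
    · have e2 : (sg N d i (m + 1)) j1 = 0 := by
        unfold sg
        rw [Pi.single_eq_of_ne h1]
      rw [e2, zero_add, ZMod.valMinAbs_zero, Int.natAbs_zero, wabs_one hN] at h
      omega
  · have h1 : j1 ≠ i := by
      rintro rfl
      exact hj rfl
    have e1 : sg N d i 3 - nb (sg N d i k) (j1, true) = sg N d i (m + 1) - Pi.single j1 1 := by
      simp only [nb]
      rw [← e0, if_pos trivial]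
      abel
    rw [e1]
    have h := nrm_sub_single (sg N d i (m + 1)) j1 1
    rw [nrm_sg hN i hc] at h
    have e2 : (sg N d i (m + 1)) j1 = 0 := by
      unfold sg
      rw [Pi.single_eq_of_ne h1]
    rw [e2, zero_sub, ZMod.valMinAbs_zero, Int.natAbs_zero, ZMod.natAbs_valMinAbs_neg,
      wabs_one hN] at h
    omega

/-- parity -/
lemma DD_parity (hE : Even N) (hN : 4 ≤ N) (n : ℕ) (x : TV N d) (h : (n + nrm x) % 2 = 1) :
    DD N d n x = 0 := by
  induction n generalizing x with
  | zero =>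
    unfold DD
    rw [if_neg]
    rintro rfl
    simp at h
  | succ n ih =>
    rw [DD_succ]
    unfold nbS
    rw [sum_eq_zero, mul_zero]
    intro k _
    have h1 := nrm_nb hE hN x k
    rw [ih _ (by omega), ih _ (by omega), add_zero]

/-! ### the averaging operator which does not use the edge `f` -/

noncomputable def K (f : TE N d) : (TV N d → ℝ) →ₗ[ℝ] (TV N d → ℝ) where
  toFun g x := (2 * (d : ℝ))⁻¹ * ∑ j : Fin d × Bool, if eg x j = f then 0 else g (nb x j)
  map_add' g h := by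
    funext x
    simp only [Pi.add_apply]
    rw [← mul_add, ← sum_add_distrib]
    congr 1
    apply sum_congr rfl
    intro j _
    split_ifs <;> simp
  map_smul' c g := by
    funext x
    simp only [Pi.smul_apply, smul_eq_mul, RingHom.id_apply]
    have h : (∑ j : Fin d × Bool, if eg x j = f then 0 else c * g (nb x j))
        = c * ∑ j : Fin d × Bool, if eg x j = f then 0 else g (nb x j) := by
      rw [mul_sum]
      apply sum_congr rfl
      intro j _
      split_ifs <;> simp
    rw [h]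
    ring

lemma K_apply (f : TE N d) (g : TV N d → ℝ) (x : TV N d) :
    K f g x = (2 * (d : ℝ))⁻¹ * ∑ j : Fin d × Bool, if eg x j = f then 0 else g (nb x j) := rfl

lemma K_mono (f : TE N d) {g h : TV N d → ℝ} (hgh : g ≤ h) : K f g ≤ K f h := by
  intro x
  rw [K_apply, K_apply]
  apply mul_le_mul_of_nonneg_left _ (by positivity)
  apply sum_le_sum
  intro j _
  split_ifs
  · exact le_rfl
  · exact hgh _

lemma Kp_mono (f : TE N d) (n : ℕ) {g h : TV N d → ℝ} (hgh : g ≤ h) :
    (K f ^ n) g ≤ (K f ^ n) h := by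
  induction n with
  | zero => simpa using hgh
  | succ n ih =>
    rw [pow_succ', Module.End.mul_apply, Module.End.mul_apply]
    exact K_mono f ih

lemma Kp_nonneg (f : TE N d) (n : ℕ) {g : TV N d → ℝ} (hg : 0 ≤ g) : 0 ≤ (K f ^ n) g := by
  have := Kp_mono f n hg
  rwa [map_zero] at this

lemma Kp_le (f : TE N d) (n : ℕ) {g : TV N d → ℝ} (hg : 0 ≤ g) (x : TV N d) :
    (K f ^ n) g x ≤ ∑ z, DD N d n (z - x) * g z := by
  induction n generalizing x with
  | zero =>
    have : ∑ z, DD N d 0 (z - x) * g z = g x := by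
      rw [sum_eq_single x]
      · simp [DD]
      · intro z _ hz
        have : z - x ≠ 0 := sub_ne_zero.mpr hz
        simp [DD, this]
      · intro h
        exact absurd (mem_univ x) h
    rw [this]
    simp
  | succ n ih =>
    rw [pow_succ', Module.End.mul_apply, K_apply]
    have h1 : ∑ j : Fin d × Bool, (if eg x j = f then 0 else (K f ^ n) g (nb x j))
        ≤ ∑ j : Fin d × Bool, ∑ z, DD N d n (z - nb x j) * g z := by
      apply sum_le_sum
      intro j _
      have h2 : 0 ≤ ∑ z, DD N d n (z - nb x j) * g z :=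
        sum_nonneg (fun z _ => mul_nonneg (DD_nonneg _ _) (hg z))
      split_ifs
      · exact h2
      · exact ih _
    refine (mul_le_mul_of_nonneg_left h1 (by positivity)).trans (le_of_eq ?_)
    rw [sum_comm, mul_sum]
    apply sum_congr rfl
    intro z _
    rw [← sum_mul, ← mul_assoc]
    congr 1
    rw [DD_succ]
    congr 1
    rw [Fintype.sum_prod_type]
    unfold nbS
    apply sum_congr rfl
    intro i _
    rw [Fintype.sum_bool]
    simp only [nb]
    rw [if_pos trivial, if_neg (by simp)]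
    have e1 : z - (x + Pi.single i 1) = z - x - Pi.single i 1 := by abel
    have e2 : z - (x - Pi.single i 1) = z - x + Pi.single i 1 := by abel
    rw [e1, e2, add_comm]

/-- the indicator function of the end of the segment -/
noncomputable def dl (N d : ℕ) (i : Fin d) : TV N d → ℝ := fun x => if x = sg N d i 3 then 1 else 0

lemma dl_nonneg (i : Fin d) : 0 ≤ dl N d i := by
  intro x
  unfold dl
  split_ifs <;> simp

lemma Kp_dl (f : TE N d) (n : ℕ) (i : Fin d) (x : TV N d) :
    (K f ^ n) (dl N d i) x ≤ DD N d n (sg N d i 3 - x) := by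
  refine (Kp_le f n (dl_nonneg i) x).trans (le_of_eq ?_)
  rw [sum_eq_single (sg N d i 3)]
  · simp [dl]
  · intro z _ hz
    simp [dl, hz]
  · intro h
    exact absurd (mem_univ _) h

/-- the straight path is the only path of length three -/
lemma Kp_three (hE : Even N) (hN : 8 ≤ N) (i : Fin d) {k : ℕ} (hk : k ≤ 2) (m : ℕ)
    (hm : 3 ≤ k + m) (hm3 : m ≤ 3) :
    (K ((sg N d i k, i) : TE N d) ^ m) (dl N d i) (sg N d i (3 - m)) = 0 := by
  induction m with
  | zero => omega
  | succ m ih =>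
    rw [pow_succ', Module.End.mul_apply, K_apply]
    rw [sum_eq_zero, mul_zero]
    intro j _
    by_cases hj : j = (i, true)
    · subst hj
      by_cases hk' : k = 3 - (m + 1)
      · rw [if_pos]
        subst hk'
        rfl
      · rw [if_neg]
        · have e1 : nb (sg N d i (3 - (m + 1))) (i, true) = sg N d i (3 - m) := by
            simp only [nb, if_true]
            rw [← sg_succ]
            congr 1
            omega
          rw [e1]
          exact ih (by omega) (by omega)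
        · intro h
          have h1 : sg N d i (3 - (m + 1)) = sg N d i k := by
            simp only [eg, if_true] at h
            exact congrArg Prod.fst h
          exact hk' (sg_inj (by omega) (by omega) h1).symm
    · have h1 : (K ((sg N d i k, i) : TE N d) ^ m) (dl N d i)
          (nb (sg N d i (3 - (m + 1))) j) = 0 := by
        apply le_antisymm
        · refine (Kp_dl _ m i _).trans (le_of_eq ?_)
          apply DD_eq_zero hE (by omega)
          rw [nrm_off hN i (k := 3 - (m + 1)) (m := m) (by omega) j hj]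
          omega
        · exact Kp_nonneg _ m (dl_nonneg i) _
      split_ifs
      · rfl
      · exact h1

lemma Kp_main (hE : Even N) (hN : 8 ≤ N) (hd : 1 ≤ d) (i : Fin d) {k : ℕ} (hk : k ≤ 2) (n : ℕ) :
    (K ((sg N d i k, i) : TE N d) ^ n) (dl N d i) 0 ≤ (n + 1).factorial * ((2 * (d : ℝ)) ^ 4)⁻¹ := by
  have hd1 : (1 : ℝ) ≤ 2 * d := by
    have : (1 : ℝ) ≤ d := by exact_mod_cast hd
    linarith
  have hpos : (0 : ℝ) ≤ (n + 1).factorial * ((2 * (d : ℝ)) ^ 4)⁻¹ := by positivity
  have hn3 : nrm (sg N d i 3) = 3 := nrm_sg hN i (by norm_num)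
  by_cases h3 : n = 3
  · subst h3
    have := Kp_three hE hN i hk 3 (by omega) le_rfl
    rw [Nat.sub_self, sg_zero] at this
    rw [this]
    exact hpos
  refine (Kp_dl _ n i 0).trans ?_
  rw [sub_zero]
  by_cases h1 : n < 3
  · rw [DD_eq_zero hE (by omega) n _ (by omega)]
    exact hpos
  by_cases h4 : n = 4
  · subst h4
    rw [DD_parity hE (by omega) 4 _ (by rw [hn3])]
    exact hpos
  have h5 : 5 ≤ n := by omega
  refine (DD_le' hE (by omega) hd n _).trans ?_
  apply mul_le_mul_of_nonneg_left _ (by positivity)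
  rw [hn3]
  have hs0 : 0 < Real.sqrt (2 * d) := Real.sqrt_pos.mpr (by linarith)
  have hs1 : 1 ≤ Real.sqrt (2 * d) := by
    rw [Real.one_le_sqrt]
    exact hd1
  have hr1 : (Real.sqrt (2 * d))⁻¹ ≤ 1 := inv_le_one_of_one_le₀ hs1
  calc (Real.sqrt (2 * d))⁻¹ ^ (n + 3) ≤ (Real.sqrt (2 * d))⁻¹ ^ 8 :=
        pow_le_pow_of_le_one (by positivity) hr1 (by omega)
    _ = ((2 * (d : ℝ)) ^ 4)⁻¹ := by
        rw [inv_pow]
        congr 1
        calc Real.sqrt (2 * d) ^ 8 = (Real.sqrt (2 * d) ^ 2) ^ 4 := by ring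
          _ = (2 * (d : ℝ)) ^ 4 := by rw [Real.sq_sqrt (by linarith)]

lemma iter (f : TE N d) {q : ℝ} (hq : 0 ≤ q) {u v : TV N d → ℝ}
    (h : ∀ x, u x ≤ v x + q * K f u x) (L : ℕ) (x : TV N d) :
    u x ≤ ∑ a ∈ range L, q ^ a * (K f ^ a) v x + q ^ L * (K f ^ L) u x := by
  induction L with
  | zero => simp
  | succ L ih =>
    have h1 : u ≤ v + q • K f u := fun x => by
      simpa using h x
    have h2 := Kp_mono f L h1 x
    rw [map_add, map_smul] at h2
    simp only [Pi.add_apply, Pi.smul_apply, smul_eq_mul] at h2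
    have h3 : (K f ^ L) (K f u) = (K f ^ (L + 1)) u := by
      rw [pow_succ, Module.End.mul_apply]
    rw [h3] at h2
    rw [sum_range_succ]
    have h4 := mul_le_mul_of_nonneg_left h2 (pow_nonneg hq L)
    have h5 : q ^ L * ((K f ^ L) v x + q * (K f ^ (L + 1)) u x)
        = q ^ L * (K f ^ L) v x + q ^ (L + 1) * (K f ^ (L + 1)) u x := by
      rw [pow_succ]
      ring
    rw [h5] at h4
    linarith

/-- bound for the iterates applied to a summable function -/
lemma Kp_sum (hE : Even N) (hN : 8 ≤ N) (hd : 1 ≤ d) (f : TE N d) (n : ℕ) {g : TV N d → ℝ}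
    (hg : 0 ≤ g) {M : ℝ} (hM : ∑ x, g x ≤ M) {m : ℕ} (hm : 2 * m ≤ n) (x : TV N d) :
    (K f ^ n) g x ≤ (n + 1).factorial * ((2 * (d : ℝ)) ^ m)⁻¹ * M := by
  have hd1 : (1 : ℝ) ≤ 2 * d := by
    have : (1 : ℝ) ≤ d := by exact_mod_cast hd
    linarith
  have hs1 : 1 ≤ Real.sqrt (2 * d) := by
    rw [Real.one_le_sqrt]
    exact hd1
  have hr1 : (Real.sqrt (2 * d))⁻¹ ≤ 1 := inv_le_one_of_one_le₀ hs1
  have hs0 : 0 < Real.sqrt (2 * d) := by linarith
  have hDD : ∀ z : TV N d, DD N d n z ≤ (n + 1).factorial * ((2 * (d : ℝ)) ^ m)⁻¹ := by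
    intro z
    refine (DD_le' hE (by omega) hd n z).trans ?_
    apply mul_le_mul_of_nonneg_left _ (by positivity)
    calc (Real.sqrt (2 * d))⁻¹ ^ (n + nrm z) ≤ (Real.sqrt (2 * d))⁻¹ ^ (2 * m) :=
          pow_le_pow_of_le_one (by positivity) hr1 (by omega)
      _ = ((2 * (d : ℝ)) ^ m)⁻¹ := by
          rw [inv_pow]
          congr 1
          rw [pow_mul, Real.sq_sqrt (by linarith)]
  refine (Kp_le f n hg x).trans ?_
  calc ∑ z, DD N d n (z - x) * g z
      ≤ ∑ z, (n + 1).factorial * ((2 * (d : ℝ)) ^ m)⁻¹ * g z :=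
        sum_le_sum (fun z _ => mul_le_mul_of_nonneg_right (hDD _) (hg z))
    _ = (n + 1).factorial * ((2 * (d : ℝ)) ^ m)⁻¹ * ∑ z, g z := by rw [mul_sum]
    _ ≤ (n + 1).factorial * ((2 * (d : ℝ)) ^ m)⁻¹ * M :=
        mul_le_mul_of_nonneg_left hM (by positivity)

lemma exists_D : ∃ D : ℝ, 0 < D ∧ ∀ n ≤ 48, ∀ q : ℝ, 0 ≤ q → q ≤ 2 →
    q ^ n * (n + 1).factorial ≤ D := by
  refine ⟨2 ^ 48 * (49 : ℕ).factorial, by positivity, ?_⟩
  intro n hn q hq0 hq2
  apply mul_le_mul _ _ (by positivity) (by positivity)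
  · calc q ^ n ≤ 2 ^ n := pow_le_pow_left₀ hq0 hq2 n
      _ ≤ 2 ^ 48 := pow_le_pow_right₀ (by norm_num) hn
  · exact_mod_cast Nat.factorial_le (by omega)

/-- the convolution of two functions satisfying one-step inequalities off the edge `f` -/
lemma two_conv : ∃ C : ℝ, 0 < C ∧ ∀ (N d : ℕ) [NeZero N], Even N → 8 ≤ N → 1 ≤ d →
    ∀ (i : Fin d) (k : ℕ), k ≤ 2 → ∀ q : ℝ, 0 ≤ q → q ≤ 2 → ∀ M : ℝ, 0 ≤ M →
    M ≤ (2 * (d : ℝ)) ^ 4 → ∀ h g : TV N d → ℝ, 0 ≤ h → 0 ≤ g →
    (∀ x, h x ≤ dl N d i x + q * K ((sg N d i k, i) : TE N d) h x) →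
    (∀ x, g x ≤ h x + q * K ((sg N d i k, i) : TE N d) g x) →
    ∑ x, h x ≤ M → ∑ x, g x ≤ M ^ 2 → g 0 ≤ C * ((2 * (d : ℝ)) ^ 4)⁻¹ := by
  obtain ⟨D, hD0, hD⟩ := exists_D
  refine ⟨601 * D, by positivity, ?_⟩
  intro N d _ hE hN hd i k hk q hq0 hq2 M hM0 hM h g hh0 hg0 hh hg hsh hsg
  have hd1 : (1 : ℝ) ≤ 2 * d := by
    have : (1 : ℝ) ≤ d := by exact_mod_cast hd
    linarith
  set f : TE N d := (sg N d i k, i) with hf
  obtain ⟨O, hO⟩ : ∃ O : ℝ, O = 2 * (d : ℝ) := ⟨_, rfl⟩
  rw [← hO] at hM hd1 ⊢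
  have hO0 : 0 < O := by linarith
  set W : ℝ := (O ^ 4)⁻¹ with hW
  have hW0 : 0 < W := by positivity
  -- iterate the inequality for `g`
  have h1 := iter f hq0 hg 24 0
  -- iterate the inequality for `h`
  have h2 : ∀ a < 24, q ^ a * (K f ^ a) h 0 ≤ 25 * (D * W) := by
    intro a ha
    have h3 : h ≤ ∑ b ∈ range 24, q ^ b • (K f ^ b) (dl N d i) + q ^ 24 • (K f ^ 24) h := by
      intro x
      have := iter f hq0 hh 24 x
      simpa [Finset.sum_apply] using this
    have h4 := Kp_mono f a h3 0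
    rw [map_add, map_sum, map_smul] at h4
    simp only [map_smul] at h4
    rw [Pi.add_apply, Finset.sum_apply] at h4
    simp only [Pi.smul_apply, smul_eq_mul] at h4
    have e1 : ∀ b, (K f ^ a) ((K f ^ b) (dl N d i)) 0 = (K f ^ (a + b)) (dl N d i) 0 := by
      intro b
      rw [pow_add, Module.End.mul_apply]
    have e2 : (K f ^ a) ((K f ^ 24) h) 0 = (K f ^ (a + 24)) h 0 := by
      rw [pow_add, Module.End.mul_apply]
    simp only [e1, e2] at h4
    have h5 := mul_le_mul_of_nonneg_left h4 (pow_nonneg hq0 a)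
    refine h5.trans ?_
    rw [mul_add, mul_sum]
    have h6 : ∑ b ∈ range 24, q ^ a * (q ^ b * (K f ^ (a + b)) (dl N d i) 0)
        ≤ ∑ _b ∈ range 24, D * W := by
      apply sum_le_sum
      intro b hb
      have hb' := mem_range.mp hb
      have h7 := Kp_main hE hN hd i hk (a + b)
      rw [← hO] at h7
      have h8 := hD (a + b) (by omega) q hq0 hq2
      calc q ^ a * (q ^ b * (K f ^ (a + b)) (dl N d i) 0)
          = q ^ (a + b) * (K f ^ (a + b)) (dl N d i) 0 := by
            rw [pow_add]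
            ring
        _ ≤ q ^ (a + b) * ((a + b + 1).factorial * W) :=
            mul_le_mul_of_nonneg_left h7 (by positivity)
        _ = q ^ (a + b) * (a + b + 1).factorial * W := by ring
        _ ≤ D * W := mul_le_mul_of_nonneg_right h8 hW0.le
    have h9 : q ^ a * (q ^ 24 * (K f ^ (a + 24)) h 0) ≤ D * W := by
      have h7 := Kp_sum hE hN hd f (a + 24) hh0 hsh (m := 12) (by omega) 0
      rw [← hO] at h7
      have h8 := hD (a + 24) (by omega) q hq0 hq2
      calc q ^ a * (q ^ 24 * (K f ^ (a + 24)) h 0)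
          = q ^ (a + 24) * (K f ^ (a + 24)) h 0 := by
            rw [pow_add]
            ring
        _ ≤ q ^ (a + 24) * ((a + 24 + 1).factorial * (O ^ 12)⁻¹ * M) :=
            mul_le_mul_of_nonneg_left h7 (by positivity)
        _ = q ^ (a + 24) * (a + 24 + 1).factorial * ((O ^ 12)⁻¹ * M) := by ring
        _ ≤ D * W := by
            apply mul_le_mul h8 _ (by positivity) hD0.le
            calc (O ^ 12)⁻¹ * M ≤ (O ^ 12)⁻¹ * O ^ 4 :=
                  mul_le_mul_of_nonneg_left hM (by positivity)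
              _ = (O ^ 8)⁻¹ := by
                  field_simp
              _ ≤ W := by
                  rw [hW]
                  apply inv_anti₀ (by positivity)
                  exact pow_le_pow_right₀ hd1 (by norm_num)
    have h10 : ∑ _b ∈ range 24, D * W = 24 * (D * W) := by simp
    linarith
  have h3 : ∑ a ∈ range 24, q ^ a * (K f ^ a) h 0 ≤ ∑ _a ∈ range 24, 25 * (D * W) :=
    sum_le_sum (fun a ha => h2 a (mem_range.mp ha))
  have h4 : ∑ _a ∈ range 24, 25 * (D * W) = 600 * (D * W) := by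
    simp
    ring
  have h5 : q ^ 24 * (K f ^ 24) g 0 ≤ D * W := by
    have h7 := Kp_sum hE hN hd f 24 hg0 hsg (m := 12) (by omega) 0
    rw [← hO] at h7
    have h8 := hD 24 (by omega) q hq0 hq2
    calc q ^ 24 * (K f ^ 24) g 0
        ≤ q ^ 24 * ((24 + 1).factorial * (O ^ 12)⁻¹ * M ^ 2) :=
          mul_le_mul_of_nonneg_left h7 (by positivity)
      _ = q ^ 24 * (24 + 1).factorial * ((O ^ 12)⁻¹ * M ^ 2) := by ring
      _ ≤ D * W := by
          apply mul_le_mul h8 _ (by positivity) hD0.le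
          calc (O ^ 12)⁻¹ * M ^ 2 ≤ (O ^ 12)⁻¹ * (O ^ 4) ^ 2 :=
                mul_le_mul_of_nonneg_left (pow_le_pow_left₀ hM0 hM 2) (by positivity)
            _ = W := by
                rw [hW]
                field_simp
  have : 601 * D * W = 600 * (D * W) + D * W := by ring
  rw [this]
  linarith

/-! ### two-point functions without the edge `f` -/

/-- two-point function on the torus without the edge `f` -/
noncomputable def tf (p : ℝ) (f : TE N d) (x y : TV N d) : ℝ :=
  (T N d).tau (univ.erase f) p univ (nv N d) x y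

lemma tf_nonneg {p : ℝ} (hp0 : 0 ≤ p) (hp1 : p ≤ 1) (f : TE N d) (x y : TV N d) :
    0 ≤ tf p f x y := LG.tau_nonneg hp0 hp1 _ _

lemma tf_comm (p : ℝ) (f : TE N d) (x y : TV N d) : tf p f x y = tf p f y x := LG.tau_comm _ _

lemma Pr_erase_le {E : Type*} [DecidableEq E] {F : Finset E} {e : E} (he : e ∈ F) {p : ℝ}
    (hp0 : 0 ≤ p) (hp1 : p ≤ 1) {A : Finset E → Prop} (hA : Incr A) :
    Pr (F.erase e) p A ≤ Pr F p A := by
  classical
  conv_rhs => rw [← insert_erase he]
  rw [Pr_insert (notMem_erase e F)]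
  have h1 : Pr (F.erase e) p A ≤ Pr (F.erase e) p (fun ω => A (insert e ω)) :=
    Pr_mono hp0 hp1 (fun ω _ h => hA _ _ (subset_insert _ _) h)
  nlinarith

lemma tf_le {p : ℝ} (hp0 : 0 ≤ p) (hp1 : p ≤ 1) (f : TE N d) (x y : TV N d) :
    tf p f x y ≤ Mt N d p x y :=
  Pr_erase_le (mem_univ f) hp0 hp1 (LG.Re_incr _ _ _ _)

lemma tf_row {p : ℝ} (hp0 : 0 ≤ p) (hp1 : p ≤ 1) (f : TE N d) (x : TV N d) :
    ∑ y, tf p f x y ≤ chi N d p := by
  rw [← Mt_row p x]
  exact sum_le_sum (fun y _ => tf_le hp0 hp1 f x y)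

lemma tf_col {p : ℝ} (hp0 : 0 ≤ p) (hp1 : p ≤ 1) (f : TE N d) (y : TV N d) :
    ∑ x, tf p f x y ≤ chi N d p := by
  rw [← Mt_col p y]
  exact sum_le_sum (fun x _ => tf_le hp0 hp1 f x y)

lemma Pr_zero {E : Type*} [DecidableEq E] {F : Finset E} {p : ℝ} {A : Finset E → Prop}
    (h : ∀ ω ⊆ F, ¬ A ω) : Pr F p A = 0 := by
  classical
  have h2 : Pr F p A = Pr F p (fun _ => False) := by
    apply Pr_congr
    intro ω hω
    exact ⟨fun h' => h ω hω h', fun h' => h'.elim⟩
  rw [h2]
  unfold Pr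
  simp [Ex_const]

lemma tau_step {p : ℝ} (hp0 : 0 ≤ p) (hp1 : p ≤ 1) (f : TE N d) (k : ℕ) (x y : TV N d) :
    (T N d).tau (univ.erase f) p univ k x y ≤ (if x = y then 1 else 0)
      + p * ∑ j : Fin d × Bool, if eg x j = f then 0 else
        (T N d).tau (univ.erase f) p univ k (nb x j) y := by
  have hnn : 0 ≤ p * ∑ j : Fin d × Bool, (if eg x j = f then 0 else
        (T N d).tau (univ.erase f) p univ k (nb x j) y) := by
    apply mul_nonneg hp0
    apply sum_nonneg
    intro j _
    split_ifs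
    · exact le_rfl
    · exact LG.tau_nonneg hp0 hp1 _ _
  by_cases hxy : x = y
  · rw [if_pos hxy]
    have := LG.tau_le_one (G := T N d) (F := univ.erase f) (S := univ) (k := k) hp0 hp1 x y
    linarith
  rw [if_neg hxy, zero_add]
  cases k with
  | zero =>
    have : (T N d).tau (univ.erase f) p univ 0 x y = 0 :=
      Pr_zero (fun ω _ h => hxy (LG.mem_ball_zero.mp h).2.symm)
    rw [this]
    exact hnn
  | succ k =>
    have h1 : (T N d).tau (univ.erase f) p univ (k + 1) x y ≤ ∑ j : Fin d × Bool,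
        Pr (univ.erase f) p (fun ω => eg x j ∈ ω ∧
        y ∈ (T N d).ball (univ \ {x}) ω (nb x j) k) := by
      apply Pr_sum_le hp0 hp1
      intro ω _ h
      obtain ⟨e, he, z, hz, hJ, hy⟩ := LG.first_step h (Ne.symm hxy)
      obtain ⟨j, rfl, rfl⟩ := J_eg hJ
      exact ⟨j, mem_univ _, he, hy⟩
    refine h1.trans ?_
    rw [mul_sum]
    apply sum_le_sum
    intro j _
    by_cases hj : eg x j = f
    · rw [if_pos hj, mul_zero]
      apply le_of_eq
      apply Pr_zero
      rintro ω hω ⟨h, _⟩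
      exact (mem_erase.mp (hω h)).1 hj
    · rw [if_neg hj]
      have h2 : Pr (univ.erase f) p (fun ω => eg x j ∈ ω ∧
          y ∈ (T N d).ball (univ \ {x}) ω (nb x j) k)
          = Pr (univ.erase f) p (fun ω => eg x j ∈ ω)
            * Pr (univ.erase f) p (fun ω => y ∈ (T N d).ball (univ \ {x}) ω (nb x j) k) := by
        apply Pr_indep (A := {eg x j}) (B := (T N d).ins (univ \ {x}) (univ.erase f))
        · rw [disjoint_singleton_left, LG.mem_ins]
          rintro ⟨_, h⟩
          exact eg_not_in x j univ h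
        · intro ω _
          simp
        · intro ω hω
          rw [LG.ball_ins hω]
      rw [h2, Pr_mem (mem_erase.mpr ⟨hj, mem_univ _⟩)]
      apply mul_le_mul_of_nonneg_left _ hp0
      exact LG.tau_mono hp0 hp1 sdiff_subset (Nat.le_succ k) _ _

lemma tf_step (hd : 1 ≤ d) {p : ℝ} (hp0 : 0 ≤ p) (hp1 : p ≤ 1) (f : TE N d) (x y : TV N d) :
    tf p f x y ≤ (if x = y then 1 else 0) + (2 * d * p) * K f (fun x' => tf p f x' y) x := by
  have h := tau_step hp0 hp1 f (nv N d) x y
  have hd0 : (d : ℝ) ≠ 0 := by positivity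
  have e : (2 * d * p) * K f (fun x' => tf p f x' y) x = p * ∑ j : Fin d × Bool,
      if eg x j = f then 0 else (T N d).tau (univ.erase f) p univ (nv N d) (nb x j) y := by
    rw [K_apply]
    simp only [tf]
    field_simp
  rw [e]
  exact h

/-- translation invariance -/
lemma tf_translate (p : ℝ) (v x : TV N d) (i : Fin d) (a b : TV N d) :
    tf p ((x + v, i) : TE N d) (a + v) (b + v) = tf p ((x, i) : TE N d) a b := by
  classical
  have hJ : ∀ e ∈ (T N d).ins univ (univ.erase ((x, i) : TE N d)), ∀ x ∈ (univ : Finset (TV N d)),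
      ∀ y ∈ (univ : Finset (TV N d)),
      ((T N d).J (shE v e) (x + v) (y + v) ↔ (T N d).J e x y) := by
    intro e _ x _ y _
    rw [T_J, T_J]
    have h1 : (shE v e).1 = e.1 + v := rfl
    have h2 : (shE v e).2 = e.2 := rfl
    rw [h1, h2]
    constructor
    · rintro (⟨a, b⟩ | ⟨a, b⟩)
      · left
        refine ⟨add_right_cancel a, ?_⟩
        rw [add_right_comm] at b
        exact add_right_cancel b
      · right
        refine ⟨add_right_cancel a, ?_⟩
        rw [add_sub_right_comm] at b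
        exact add_right_cancel b
    · rintro (⟨a, b⟩ | ⟨a, b⟩)
      · left
        refine ⟨by rw [a], ?_⟩
        rw [b, add_right_comm]
      · right
        refine ⟨by rw [a], ?_⟩
        rw [b, add_sub_right_comm]
  have hF : (T N d).ins (univ.image (· + v)) (univ.erase ((x + v, i) : TE N d))
      = ((T N d).ins univ (univ.erase ((x, i) : TE N d))).image (shE v) := by
    rw [image_univ_add]
    ext e
    rw [LG.mem_ins, mem_image]
    constructor
    · rintro ⟨h1, _, _⟩
      refine ⟨(e.1 - v, e.2), ?_, ?_⟩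
      · rw [LG.mem_ins, mem_erase]
        refine ⟨⟨?_, mem_univ _⟩, mem_univ _, mem_univ _⟩
        intro h
        apply (mem_erase.mp h1).1
        rw [Prod.mk.injEq] at h
        apply Prod.ext
        · show e.1 = x + v
          rw [← h.1]
          simp
        · exact h.2
      · unfold shE
        simp
    · rintro ⟨e', he', rfl⟩
      refine ⟨?_, mem_univ _, mem_univ _⟩
      rw [mem_erase]
      refine ⟨?_, mem_univ _⟩
      intro h
      apply (mem_erase.mp (LG.mem_ins.mp he').1).1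
      exact (shE v).injective h
  have h := LG.Ex_ball_image (G := T N d) (G' := T N d) (φ := (· + v)) (ψ := shE v)
    (shE v).injective.injOn hJ hF (mem_univ a) (nv N d) p (fun B => if b + v ∈ B then (1 : ℝ) else 0)
  rw [image_univ_add] at h
  unfold tf LG.tau
  rw [Pr_eq_Ex, Pr_eq_Ex]
  have e2 : Ex (univ.erase ((x, i) : TE N d)) p
      (fun ω => if (T N d).Re univ (nv N d) a b ω then (1 : ℝ) else 0)
      = Ex (univ.erase ((x, i) : TE N d)) p (fun ω => (fun B => if b + v ∈ B then (1:ℝ) else 0)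
          (((T N d).ball univ ω a (nv N d)).image (· + v))) := by
    apply Ex_congr
    intro ω _
    simp only
    have : b + v ∈ ((T N d).ball univ ω a (nv N d)).image (· + v) ↔
        (T N d).Re univ (nv N d) a b ω := by
      rw [mem_image]
      constructor
      · rintro ⟨c, hc, hb⟩
        have := add_right_cancel hb
        exact this ▸ hc
      · intro h
        exact ⟨b, h, rfl⟩
    by_cases h' : (T N d).Re univ (nv N d) a b ω
    · rw [if_pos h', if_pos (this.mpr h')]
    · rw [if_neg h', if_neg (fun h => h' (this.mp h))]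
  rw [e2, ← h]
  apply Ex_congr
  intro ω _
  by_cases h' : b + v ∈ (T N d).ball univ ω (a + v) (nv N d)
  · have h'' : (T N d).Re univ (nv N d) (a + v) (b + v) ω := h'
    rw [if_pos h', if_pos h'']
  · have h'' : ¬ (T N d).Re univ (nv N d) (a + v) (b + v) ω := h'
    rw [if_neg h', if_neg h'']

/-- the sum of the products of two-point functions to the two ends -/
noncomputable def GG (p : ℝ) (f : TE N d) (i : Fin d) (x : TV N d) : ℝ :=
  ∑ w, tf p f x w * tf p f w (sg N d i 3)

lemma GG_bound : ∃ C : ℝ, 0 < C ∧ ∀ (N d : ℕ) [NeZero N], Even N → 8 ≤ N → 1 ≤ d →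
    ∀ p : ℝ, 0 ≤ p → p ≤ 1 / d → chi N d p ≤ (2 * (d : ℝ)) ^ 4 → ∀ (i : Fin d) (k : ℕ), k ≤ 2 →
    GG p ((sg N d i k, i) : TE N d) i 0 ≤ C * ((2 * (d : ℝ)) ^ 4)⁻¹ := by
  obtain ⟨C, hC, H⟩ := two_conv
  refine ⟨C, hC, ?_⟩
  intro N d _ hE hN hd p hp0 hp1 hchi i k hk
  have hd1 : (1 : ℝ) ≤ d := by exact_mod_cast hd
  have hd0 : (0 : ℝ) < d := by linarith
  have hpp : p ≤ 1 := by
    refine hp1.trans ?_
    rw [div_le_one hd0]
    exact hd1
  set f : TE N d := (sg N d i k, i) with hf
  have hq2 : 2 * d * p ≤ 2 := by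
    rw [le_div_iff₀ hd0] at hp1
    linarith
  have hchi0 : 0 ≤ chi N d p := by
    rw [← Mt_row p 0]
    exact sum_nonneg (fun y _ => Mt_nonneg hp0 hpp _ _)
  refine H N d hE hN hd i k hk (2 * d * p) (by positivity) hq2 (chi N d p) hchi0 hchi
    (fun x => tf p f x (sg N d i 3)) (GG p f i) (fun x => tf_nonneg hp0 hpp _ _ _)
    (fun x => sum_nonneg (fun w _ => mul_nonneg (tf_nonneg hp0 hpp _ _ _)
      (tf_nonneg hp0 hpp _ _ _))) ?_ ?_ ?_ ?_
  · intro x
    exact tf_step hd hp0 hpp f x (sg N d i 3)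
  · intro x
    have h1 : GG p f i x ≤ ∑ w, ((if x = w then 1 else 0)
        + (2 * d * p) * K f (fun x' => tf p f x' w) x) * tf p f w (sg N d i 3) :=
      sum_le_sum (fun w _ => mul_le_mul_of_nonneg_right (tf_step hd hp0 hpp f x w)
        (tf_nonneg hp0 hpp _ _ _))
    refine h1.trans (le_of_eq ?_)
    simp only [add_mul]
    rw [sum_add_distrib]
    congr 1
    · simp
    · have e1 : GG p f i = ∑ w, tf p f w (sg N d i 3) • (fun x' => tf p f x' w) := by
        funext x'
        rw [Finset.sum_apply]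
        unfold GG
        apply sum_congr rfl
        intro w _
        simp only [Pi.smul_apply, smul_eq_mul]
        ring
      rw [e1, map_sum, Finset.sum_apply, mul_sum]
      apply sum_congr rfl
      intro w _
      rw [map_smul]
      simp only [Pi.smul_apply, smul_eq_mul]
      ring
  · exact tf_col hp0 hpp f _
  · unfold GG
    rw [sum_comm]
    calc ∑ w, ∑ x, tf p f x w * tf p f w (sg N d i 3)
        = ∑ w, (∑ x, tf p f x w) * tf p f w (sg N d i 3) := by
          apply sum_congr rfl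
          intro w _
          rw [sum_mul]
      _ ≤ ∑ w, chi N d p * tf p f w (sg N d i 3) := by
          apply sum_le_sum
          intro w _
          exact mul_le_mul_of_nonneg_right (tf_col hp0 hpp f w) (tf_nonneg hp0 hpp _ _ _)
      _ = chi N d p * ∑ w, tf p f w (sg N d i 3) := by rw [mul_sum]
      _ ≤ chi N d p * chi N d p := mul_le_mul_of_nonneg_left (tf_col hp0 hpp f _) hchi0
      _ = chi N d p ^ 2 := by ring

lemma Pr_notMem_le {E : Type*} [DecidableEq E] {F : Finset E} {e : E} (he : e ∈ F) {p : ℝ}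
    (hp0 : 0 ≤ p) (hp1 : p ≤ 1) (A : Finset E → Prop) :
    Pr F p (fun ω => A ω ∧ e ∉ ω) ≤ Pr (F.erase e) p A := by
  classical
  conv_lhs => rw [← insert_erase he]
  rw [Pr_insert (notMem_erase e F)]
  have h1 : Pr (F.erase e) p (fun ω => A (insert e ω) ∧ e ∉ insert e ω) = 0 :=
    Pr_zero (fun ω _ h => h.2 (mem_insert_self _ _))
  have h2 : Pr (F.erase e) p (fun ω => A ω ∧ e ∉ ω) ≤ Pr (F.erase e) p A :=
    Pr_mono hp0 hp1 (fun ω _ h => h.1)
  have h3 := Pr_nonneg (F := F.erase e) hp0 hp1 A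
  rw [h1, mul_zero, zero_add]
  nlinarith

lemma one_term (hN : 8 ≤ N) {p : ℝ} (hp0 : 0 ≤ p) (hp1 : p ≤ 1 / 2) (y : TV N d) (i : Fin d) :
    Pr univ p (fun ζ => y ∈ (T N d).cl univ ζ 0 ∧ y + sg N d i 3 ∈ (T N d).cl univ ζ 0 ∧
      ¬ run N d y i ⊆ ζ) ≤ ∑ k ∈ range 3, ∑ w, Mt N d p 0 w *
        (tf p ((sg N d i k, i) : TE N d) (w - y) 0 *
          tf p ((sg N d i k, i) : TE N d) (w - y) (sg N d i 3)) := by
  have hpp : p ≤ 1 := by linarith
  have h1 : Pr univ p (fun ζ => y ∈ (T N d).cl univ ζ 0 ∧ y + sg N d i 3 ∈ (T N d).cl univ ζ 0 ∧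
      ¬ run N d y i ⊆ ζ) ≤ ∑ k ∈ range 3, Pr univ p (fun ζ => (y ∈ (T N d).cl univ ζ 0 ∧
        y + sg N d i 3 ∈ (T N d).cl univ ζ 0) ∧ ((y + sg N d i k, i) : TE N d) ∉ ζ) := by
    apply Pr_sum_le hp0 hpp
    rintro ζ _ ⟨h1, h2, h3⟩
    rw [Finset.not_subset] at h3
    obtain ⟨e, he, he'⟩ := h3
    rcases mem_run.mp he with rfl | rfl | rfl
    · refine ⟨0, by simp, ⟨h1, h2⟩, ?_⟩
      rw [sg_zero, add_zero]
      exact he'
    · exact ⟨1, by simp, ⟨h1, h2⟩, he'⟩
    · exact ⟨2, by simp, ⟨h1, h2⟩, he'⟩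
  refine h1.trans (sum_le_sum (fun k _ => ?_))
  refine (Pr_notMem_le (mem_univ _) hp0 hpp _).trans ?_
  set f : TE N d := (y + sg N d i k, i) with hf
  have h2 := LG.tree_graph (G := T N d) (F := univ.erase f) (S := univ) (k := nv N d)
    (l := nv N d) (T_loopless (by omega)) hp0 hp1 0 y (y + sg N d i 3)
  refine h2.trans (sum_le_sum (fun w _ => ?_))
  have e0 : f = ((sg N d i k + y, i) : TE N d) := by
    rw [hf, add_comm]
  have e1 : (T N d).tau (univ.erase f) p univ (nv N d) w y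
      = tf p ((sg N d i k, i) : TE N d) (w - y) 0 := by
    have := tf_translate p y (sg N d i k) i (w - y) 0
    rw [sub_add_cancel, zero_add, ← e0] at this
    exact this
  have e2 : (T N d).tau (univ.erase f) p univ (nv N d) w (y + sg N d i 3)
      = tf p ((sg N d i k, i) : TE N d) (w - y) (sg N d i 3) := by
    have := tf_translate p y (sg N d i k) i (w - y) (sg N d i 3)
    rw [sub_add_cancel, add_comm (sg N d i 3) y, ← e0] at this
    exact this
  rw [e1, e2, mul_assoc]
  apply mul_le_mul_of_nonneg_right (tf_le hp0 hpp f 0 w)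
  exact mul_nonneg (tf_nonneg hp0 hpp _ _ _) (tf_nonneg hp0 hpp _ _ _)

end SC

open SC

theorem straight_closed : ∃ C : ℝ, 0 < C ∧ ∃ d0 : ℕ, ∀ d ≥ d0, ∀ (N : ℕ) [NeZero N], Even N → 8 ≤ N →
    ∀ p : ℝ, 0 ≤ p → p ≤ 1 / d → chi N d p ≤ (2 * (d : ℝ)) ^ 4 →
    ∑ y : TV N d, ∑ i, Pr univ p (fun ζ => y ∈ (T N d).cl univ ζ 0 ∧
      y + sg N d i 3 ∈ (T N d).cl univ ζ 0 ∧ ¬ run N d y i ⊆ ζ) ≤ C / (2 * (d : ℝ)) ^ 3 * chi N d p := by
  obtain ⟨C, hC, H⟩ := GG_bound
  refine ⟨2 * C, by positivity, 2, ?_⟩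
  intro d hd N _ hE hN p hp0 hp1 hchi
  have hd2 : (2 : ℝ) ≤ d := by exact_mod_cast hd
  have hd0 : (0 : ℝ) < d := by linarith
  have hp2 : p ≤ 1 / 2 := hp1.trans (one_div_le_one_div_of_le (by norm_num) hd2)
  have hpp : p ≤ 1 := by linarith
  have hchi0 : 0 ≤ chi N d p := by
    rw [← Mt_row p 0]
    exact sum_nonneg (fun y _ => Mt_nonneg hp0 hpp _ _)
  set Om : ℝ := 2 * (d : ℝ) with hOm
  have hOm0 : 0 < Om := by positivity
  have h1 : ∑ y : TV N d, ∑ i, Pr univ p (fun ζ => y ∈ (T N d).cl univ ζ 0 ∧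
      y + sg N d i 3 ∈ (T N d).cl univ ζ 0 ∧ ¬ run N d y i ⊆ ζ) ≤
      ∑ y : TV N d, ∑ i, ∑ k ∈ range 3, ∑ w, Mt N d p 0 w *
        (tf p ((sg N d i k, i) : TE N d) (w - y) 0 *
          tf p ((sg N d i k, i) : TE N d) (w - y) (sg N d i 3)) :=
    sum_le_sum (fun y _ => sum_le_sum (fun i _ => one_term hN hp0 hp2 y i))
  refine h1.trans ?_
  have h2 : ∀ (i : Fin d), ∀ k ∈ range 3, ∑ y : TV N d, ∑ w, Mt N d p 0 w *
        (tf p ((sg N d i k, i) : TE N d) (w - y) 0 *
          tf p ((sg N d i k, i) : TE N d) (w - y) (sg N d i 3))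
      ≤ chi N d p * (C * (Om ^ 4)⁻¹) := by
    intro i k hk
    have hk2 : k ≤ 2 := by
      have := mem_range.mp hk
      omega
    rw [sum_comm]
    have h3 : ∀ w : TV N d, ∑ y : TV N d, Mt N d p 0 w *
        (tf p ((sg N d i k, i) : TE N d) (w - y) 0 *
          tf p ((sg N d i k, i) : TE N d) (w - y) (sg N d i 3))
        = Mt N d p 0 w * GG p ((sg N d i k, i) : TE N d) i 0 := by
      intro w
      rw [← mul_sum]
      congr 1
      unfold GG
      rw [← Equiv.sum_comp (Equiv.subLeft w)]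
      apply sum_congr rfl
      intro y _
      have e : w - (Equiv.subLeft w) y = y := by
        simp
      rw [e, tf_comm p _ y 0]
    rw [sum_congr rfl (fun w _ => h3 w), ← sum_mul, Mt_row]
    exact mul_le_mul_of_nonneg_left (H N d hE hN (by omega) p hp0 hp1 hchi i k hk2) hchi0
  have h4 : ∑ y : TV N d, ∑ i, ∑ k ∈ range 3, ∑ w, Mt N d p 0 w *
        (tf p ((sg N d i k, i) : TE N d) (w - y) 0 *
          tf p ((sg N d i k, i) : TE N d) (w - y) (sg N d i 3))
      = ∑ i : Fin d, ∑ k ∈ range 3, ∑ y : TV N d, ∑ w, Mt N d p 0 w *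
        (tf p ((sg N d i k, i) : TE N d) (w - y) 0 *
          tf p ((sg N d i k, i) : TE N d) (w - y) (sg N d i 3)) := by
    rw [sum_comm]
    apply sum_congr rfl
    intro i _
    rw [sum_comm]
  rw [h4]
  calc ∑ i : Fin d, ∑ k ∈ range 3, ∑ y : TV N d, ∑ w, Mt N d p 0 w *
        (tf p ((sg N d i k, i) : TE N d) (w - y) 0 *
          tf p ((sg N d i k, i) : TE N d) (w - y) (sg N d i 3))
      ≤ ∑ _i : Fin d, ∑ _k ∈ range 3, chi N d p * (C * (Om ^ 4)⁻¹) :=
        sum_le_sum (fun i _ => sum_le_sum (fun k hk => h2 i k hk))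
    _ = d * (3 * (chi N d p * (C * (Om ^ 4)⁻¹))) := by simp
    _ = (3 / 2 * C) / Om ^ 3 * chi N d p := by
        have : (d : ℝ) = Om / 2 := by
          rw [hOm]
          ring
        rw [this]
        field_simp
    _ ≤ 2 * C / Om ^ 3 * chi N d p := by
        apply mul_le_mul_of_nonneg_right _ hchi0
        apply div_le_div_of_nonneg_right _ (by positivity)
        linarith

end DDA
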