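import Pool.Agent.DDA.DLowC

/-!
# DDA: connections through a set of open edges
-/

open Finset

namespace DDA

open DDA.DLo

set_option linter.unusedSectionVars false

namespace LG

section

variable {V E : Type*} [DecidableEq V] [DecidableEq E] {G : LG V E}

/-- If a cluster meets `Lv`, then it meets `Lv` already without the edges inside `Lv`. -/
lemma reach_off {S : Finset V} {ζ A : Finset E} {Lv : Finset V}
    (hA : ∀ e ∈ A, G.s e ∈ Lv ∧ G.t e ∈ Lv) {x0 x : V} (hx : x ∈ Lv)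
    (h : x ∈ G.cl S ζ x0) : ∃ y ∈ Lv, y ∈ G.cl S (ζ \ A) x0 := by
  by_contra hcon
  push Not at hcon
  have key : ∀ k, G.ball S ζ x0 k ⊆ G.cl S (ζ \ A) x0 := by
    intro k
    induction k with
    | zero =>
      intro z hz
      obtain ⟨h1, rfl⟩ := mem_ball_zero.mp hz
      exact self_mem_cl h1
    | succ k ih =>
      intro z hz
      rcases mem_ball_succ.mp hz with h' | ⟨h1, y, hy, e, he, hJ⟩
      · exact ih h'
      · have hy' := ih hy
        refine mem_cl_step hy' ⟨e, mem_sdiff.mpr ⟨he, fun heA => ?_⟩, hJ⟩ h1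
        have hyL : y ∈ Lv := by
          rcases hJ with ⟨a, _⟩ | ⟨_, a⟩
          · exact a ▸ (hA e heA).1
          · exact a ▸ (hA e heA).2
        exact hcon y hyL hy'
  exact hcon x hx (key _ h)

end

end LG

variable {N d : ℕ} [NeZero N]

lemma Pr_off {F : Finset (TE N d)} {p : ℝ} (hp0 : 0 ≤ p) (hp1 : p ≤ 1) (A : Finset (TE N d))
    (hAF : A ⊆ F) {B : Finset (TE N d) → Prop} (hB : Incr B) {C : Finset (TE N d) → Prop}
    (hC : ∀ ζ ⊆ F, A ⊆ ζ → C ζ → B (ζ \ A)) :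
    Pr F p (fun ζ => A ⊆ ζ ∧ C ζ) ≤ p ^ A.card * Pr F p B := by
  calc Pr F p (fun ζ => A ⊆ ζ ∧ C ζ) ≤ Pr F p (fun ζ => A ⊆ ζ ∧ B (ζ \ A)) :=
        Pr_mono hp0 hp1 (fun ζ hζ h => ⟨h.1, hC ζ hζ h.1 h.2⟩)
    _ = Pr F p (fun ζ => A ⊆ ζ) * Pr F p (fun ζ => B (ζ \ A)) := by
        apply Pr_indep (A := A) (B := F \ A) disjoint_sdiff
        · intro ω _
          constructor
          · intro h
            exact subset_inter h (Subset.refl _)
          · intro h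
            exact h.trans inter_subset_left
        · intro ω hω
          have : (ω ∩ (F \ A)) \ A = ω \ A := by
            ext e
            simp only [mem_sdiff, mem_inter]
            constructor
            · rintro ⟨⟨h1, _⟩, h2⟩
              exact ⟨h1, h2⟩
            · rintro ⟨h1, h2⟩
              exact ⟨⟨h1, hω h1, h2⟩, h2⟩
          rw [this]
    _ = p ^ A.card * Pr F p (fun ζ => B (ζ \ A)) := by rw [Pr_subset p A hAF]
    _ ≤ p ^ A.card * Pr F p B := by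
        apply mul_le_mul_of_nonneg_left _ (by positivity)
        exact Pr_mono hp0 hp1 (fun ζ _ h => hB _ _ sdiff_subset h)

/-- two connections -/
lemma Pr_two {p : ℝ} (hp0 : 0 ≤ p) (hp1 : p ≤ 1 / 2) (x y v c : TV N d) :
    Pr univ p (Disj ((T N d).Re univ (nv N d) x y) ((T N d).Re univ (nv N d) v c))
      ≤ Mt N d p x y * Mt N d p v c :=
  BK hp0 hp1 (LG.Re_incr _ _ _ _) (LG.Re_incr _ _ _ _)

/-- three connections -/
lemma Pr_three {p : ℝ} (hp0 : 0 ≤ p) (hp1 : p ≤ 1 / 2) (x y v c z w : TV N d) :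
    Pr univ p (Disj (Disj ((T N d).Re univ (nv N d) x y) ((T N d).Re univ (nv N d) v c))
      ((T N d).Re univ (nv N d) z w)) ≤ Mt N d p x y * Mt N d p v c * Mt N d p z w := by
  have hpp : p ≤ 1 := by linarith
  calc _ ≤ Pr univ p (Disj ((T N d).Re univ (nv N d) x y) ((T N d).Re univ (nv N d) v c)) *
        Pr univ p ((T N d).Re univ (nv N d) z w) :=
        BK hp0 hp1 (Disj_incr _ _) (LG.Re_incr _ _ _ _)
    _ ≤ _ := mul_le_mul_of_nonneg_right (Pr_two hp0 hp1 x y v c) (Pr_nonneg hp0 hpp _)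

theorem three_edges (hN : 2 ≤ N) {p : ℝ} (hp0 : 0 ≤ p) (hp1 : p ≤ 1 / 2) (A : Finset (TE N d))
    (Lv : Finset (TV N d)) (hA : ∀ e ∈ A, (T N d).s e ∈ Lv ∧ (T N d).t e ∈ Lv) (x0 c : TV N d) :
    Pr univ p (fun ζ => A ⊆ ζ ∧ (∃ x ∈ Lv, x ∈ (T N d).cl univ ζ x0) ∧ c ∈ (T N d).cl univ ζ x0)
      ≤ p ^ A.card * ∑ x ∈ Lv, ((∑ w, Mt N d p x0 w * Mt N d p w x * Mt N d p w c)
        + ∑ v ∈ Lv, Mt N d p x0 x * Mt N d p v c) := by
  classical
  have hpp : p ≤ 1 := by linarith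
  set R := (T N d).Re univ (nv N d) with hR
  let B : TV N d → Finset (TE N d) → Prop := fun x ζ =>
    (∃ w ∈ (univ : Finset (TV N d)), Disj (Disj (R x0 w) (R w x)) (R w c) ζ) ∨
      (∃ v ∈ Lv, Disj (R x0 x) (R v c) ζ)
  have hBi : Incr (fun ζ => ∃ x ∈ Lv, B x ζ) := by
    rintro ω ω' h ⟨x, hx, hB⟩
    refine ⟨x, hx, ?_⟩
    rcases hB with ⟨w, hw, hB⟩ | ⟨v, hv, hB⟩
    · exact Or.inl ⟨w, hw, Disj_incr _ _ _ _ h hB⟩
    · exact Or.inr ⟨v, hv, Disj_incr _ _ _ _ h hB⟩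
  refine (Pr_off hp0 hpp A (subset_univ _) hBi ?_).trans ?_
  · rintro ζ _ hAζ ⟨⟨x', hx', hxc⟩, hc⟩
    obtain ⟨x, hx, hx0⟩ := LG.reach_off hA hx' hxc
    refine ⟨x, hx, ?_⟩
    obtain ⟨P, hP, h0P, hxP, hw⟩ := LG.path_exists hx0
    obtain ⟨w, hwP, _, hcb⟩ := LG.last_exit (P := P ∪ Lv) (mem_union_left _ h0P) hc
    set S' : Finset (TV N d) := insert w (univ \ (P ∪ Lv)) with hS'
    -- edges inside `S'` are neither inside `P` nor in `A`
    have hin : ∀ e, (T N d).In S' e → ∀ Q ⊆ P ∪ Lv, ¬ (T N d).In Q e := by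
      intro e he Q hQ heQ
      apply T_loopless hN e
      have a1 : (T N d).s e = w := by
        rcases mem_insert.mp he.1 with h | h
        · exact h
        · exact absurd (hQ heQ.1) (mem_sdiff.mp h).2
      have a2 : (T N d).t e = w := by
        rcases mem_insert.mp he.2 with h | h
        · exact h
        · exact absurd (hQ heQ.2) (mem_sdiff.mp h).2
      rw [a1, a2]
    have hK : (T N d).ins S' ζ ⊆ ζ \ A := by
      intro e he
      obtain ⟨h1, h2, h3⟩ := LG.mem_ins.mp he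
      refine mem_sdiff.mpr ⟨h1, fun heA => ?_⟩
      exact hin e ⟨h2, h3⟩ Lv subset_union_right (hA e heA)
    have hcK : c ∈ (T N d).ball univ ((T N d).ins S' ζ) w (nv N d) := by
      have h1 : c ∈ (T N d).ball S' ((T N d).ins S' ζ) w (nv N d) := by
        rw [LG.ball_filter]
        exact hcb
      exact LG.ball_mono (subset_univ _) (Subset.refl _) h1
    rcases mem_union.mp hwP with hwP | hwL
    · left
      obtain ⟨I, J, h1, h2, h3, h4, h5, h6, h7⟩ := hw w hwP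
      refine ⟨w, mem_univ _, I ∪ J, (T N d).ins S' ζ, union_subset h1 h2, hK, ?_,
        ⟨I, J, subset_union_left, subset_union_right, h3,
          LG.ball_mono (subset_univ _) (Subset.refl _) h6,
          LG.ball_mono (subset_univ _) (Subset.refl _) h7⟩, hcK⟩
      rw [Finset.disjoint_left]
      intro e he he'
      obtain ⟨_, h9, h10⟩ := LG.mem_ins.mp he'
      refine hin e ⟨h9, h10⟩ P subset_union_left ?_
      rcases mem_union.mp he with h | h
      · exact h4 e h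
      · exact h5 e h
    · right
      obtain ⟨I, J, h1, h2, h3, h4, h5, h6, h7⟩ := hw x0 h0P
      refine ⟨w, hwL, J, (T N d).ins S' ζ, h2, hK, ?_,
        LG.ball_mono (subset_univ _) (Subset.refl _) h7, hcK⟩
      rw [Finset.disjoint_left]
      intro e he he'
      obtain ⟨_, h9, h10⟩ := LG.mem_ins.mp he'
      exact hin e ⟨h9, h10⟩ P subset_union_left (h5 e he)
  · apply mul_le_mul_of_nonneg_left _ (by positivity)
    refine (Pr_sum_le hp0 hpp Lv B (fun ω _ h => h)).trans ?_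
    apply sum_le_sum
    intro x _
    have h1 : Pr univ p (B x) ≤ Pr univ p (fun ζ => ∃ w ∈ (univ : Finset (TV N d)),
          Disj (Disj (R x0 w) (R w x)) (R w c) ζ) + Pr univ p (fun ζ =>
          ∃ v ∈ Lv, Disj (R x0 x) (R v c) ζ) := by
      have h2 := Pr_or_add_and (univ : Finset (TE N d)) p (fun ζ => ∃ w ∈ (univ : Finset (TV N d)),
          Disj (Disj (R x0 w) (R w x)) (R w c) ζ) (fun ζ => ∃ v ∈ Lv, Disj (R x0 x) (R v c) ζ)
      have h3 := Pr_nonneg (F := (univ : Finset (TE N d))) hp0 hpp (fun ζ =>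
        (∃ w ∈ (univ : Finset (TV N d)), Disj (Disj (R x0 w) (R w x)) (R w c) ζ) ∧
          (∃ v ∈ Lv, Disj (R x0 x) (R v c) ζ))
      have h4 : Pr univ p (B x) = Pr univ p (fun ζ => (∃ w ∈ (univ : Finset (TV N d)),
          Disj (Disj (R x0 w) (R w x)) (R w c) ζ) ∨ ∃ v ∈ Lv, Disj (R x0 x) (R v c) ζ) := rfl
      rw [h4]
      linarith
    refine h1.trans (add_le_add ?_ ?_)
    · refine (Pr_sum_le hp0 hpp univ (fun w => Disj (Disj (R x0 w) (R w x)) (R w c))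
        (fun ω _ h => h)).trans ?_
      exact sum_le_sum (fun w _ => Pr_three hp0 hp1 x0 w w x w c)
    · refine (Pr_sum_le hp0 hpp Lv (fun v => Disj (R x0 x) (R v c)) (fun ω _ h => h)).trans ?_
      exact sum_le_sum (fun v _ => Pr_two hp0 hp1 x0 x v c)

/-- connections in different clusters are disjoint -/
lemma disj_clusters {ω : Finset (TE N d)} {x0 x v w : TV N d}
    (hx : x ∈ (T N d).cl univ ω x0) (hw : w ∈ (T N d).cl univ ω v)
    (hv : v ∉ (T N d).cl univ ω x0) :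
    Disj ((T N d).Re univ (nv N d) x0 x) ((T N d).Re univ (nv N d) v w) ω := by
  classical
  obtain ⟨P, hP, h0P, hxP, hpath⟩ := LG.path_exists hx
  obtain ⟨Q, hQ, hvQ, hwQ, hpath'⟩ := LG.path_exists hw
  obtain ⟨I, J, h1, h2, h3, h4, h5, h6, h7⟩ := hpath x0 h0P
  obtain ⟨I', J', h1', h2', h3', h4', h5', h6', h7'⟩ := hpath' v hvQ
  refine ⟨J, J', h2, h2', ?_, LG.ball_mono (subset_univ _) (Subset.refl _) h7,
    LG.ball_mono (subset_univ _) (Subset.refl _) h7'⟩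
  rw [Finset.disjoint_left]
  intro e he he'
  have a1 : (T N d).s e ∈ (T N d).cl univ ω x0 := hP (h5 e he).1
  have a2 : (T N d).s e ∈ (T N d).cl univ ω v := hQ (h5' e he').1
  apply hv
  exact LG.mem_cl_trans a1 (LG.mem_cl_symm a2)

theorem three_dirty (hN : 2 ≤ N) {p : ℝ} (hp0 : 0 ≤ p) (hp1 : p ≤ 1 / 2) (A : Finset (TE N d))
    (Lv : Finset (TV N d)) (hA : ∀ e ∈ A, (T N d).s e ∈ Lv ∧ (T N d).t e ∈ Lv) (x0 : TV N d) :
    Pr univ p (fun ζ => A ⊆ ζ ∧ (∃ x ∈ Lv, x ∈ (T N d).cl univ ζ x0) ∧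
      ∃ v ∈ Lv, ∃ w ∈ Lv, v ≠ w ∧ w ∈ (T N d).cl univ (ζ \ A) v)
      ≤ p ^ A.card * ∑ v ∈ Lv, ∑ w ∈ Lv.erase v, ((∑ u, Mt N d p x0 u * Mt N d p u v * Mt N d p u w)
        + ∑ x ∈ Lv, Mt N d p x0 x * Mt N d p v w) := by
  classical
  have hpp : p ≤ 1 := by linarith
  set R := (T N d).Re univ (nv N d) with hR
  let B : TV N d → TV N d → Finset (TE N d) → Prop := fun v w ζ =>
    (∃ u ∈ (univ : Finset (TV N d)), Disj (Disj (R x0 u) (R u v)) (R u w) ζ) ∨
      (∃ x ∈ Lv, Disj (R x0 x) (R v w) ζ)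
  have hBi : Incr (fun ζ => ∃ v ∈ Lv, ∃ w ∈ Lv.erase v, B v w ζ) := by
    rintro ω ω' h ⟨v, hv, w, hw, hB⟩
    refine ⟨v, hv, w, hw, ?_⟩
    rcases hB with ⟨u, hu, hB⟩ | ⟨x, hx, hB⟩
    · exact Or.inl ⟨u, hu, Disj_incr _ _ _ _ h hB⟩
    · exact Or.inr ⟨x, hx, Disj_incr _ _ _ _ h hB⟩
  refine (Pr_off hp0 hpp A (subset_univ _) hBi ?_).trans ?_
  · rintro ζ _ hAζ ⟨⟨x', hx', hxc⟩, v, hv, w, hw, hvw, hcl⟩
    obtain ⟨x, hx, hx0⟩ := LG.reach_off hA hx' hxc
    refine ⟨v, hv, w, mem_erase.mpr ⟨fun h => hvw h.symm, hw⟩, ?_⟩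
    by_cases hvc : v ∈ (T N d).cl univ (ζ \ A) x0
    · left
      have hwc : w ∈ (T N d).cl univ (ζ \ A) x0 := LG.mem_cl_trans hvc hcl
      obtain ⟨u, hu, hd⟩ := LG.three_point (T_loopless hN) hvc hwc
      exact ⟨u, hu, hd⟩
    · right
      exact ⟨x, hx, disj_clusters hx0 hcl hvc⟩
  · apply mul_le_mul_of_nonneg_left _ (by positivity)
    refine (Pr_sum_le hp0 hpp Lv (fun v ζ => ∃ w ∈ Lv.erase v, B v w ζ) (fun ω _ h => h)).trans ?_
    apply sum_le_sum
    intro v _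
    refine (Pr_sum_le hp0 hpp (Lv.erase v) (fun w => B v w) (fun ω _ h => h)).trans ?_
    apply sum_le_sum
    intro w _
    have h1 : Pr univ p (B v w) ≤ Pr univ p (fun ζ => ∃ u ∈ (univ : Finset (TV N d)),
          Disj (Disj (R x0 u) (R u v)) (R u w) ζ) + Pr univ p (fun ζ =>
          ∃ x ∈ Lv, Disj (R x0 x) (R v w) ζ) := by
      have h2 := Pr_or_add_and (univ : Finset (TE N d)) p (fun ζ => ∃ u ∈ (univ : Finset (TV N d)),
          Disj (Disj (R x0 u) (R u v)) (R u w) ζ) (fun ζ => ∃ x ∈ Lv, Disj (R x0 x) (R v w) ζ)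
      have h3 := Pr_nonneg (F := (univ : Finset (TE N d))) hp0 hpp (fun ζ =>
        (∃ u ∈ (univ : Finset (TV N d)), Disj (Disj (R x0 u) (R u v)) (R u w) ζ) ∧
          (∃ x ∈ Lv, Disj (R x0 x) (R v w) ζ))
      have h4 : Pr univ p (B v w) = Pr univ p (fun ζ => (∃ u ∈ (univ : Finset (TV N d)),
          Disj (Disj (R x0 u) (R u v)) (R u w) ζ) ∨ ∃ x ∈ Lv, Disj (R x0 x) (R v w) ζ) := rfl
      rw [h4]
      linarith
    refine h1.trans (add_le_add ?_ ?_)
    · refine (Pr_sum_le hp0 hpp univ (fun u => Disj (Disj (R x0 u) (R u v)) (R u w))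
        (fun ω _ h => h)).trans ?_
      exact sum_le_sum (fun u _ => Pr_three hp0 hp1 x0 u u v u w)
    · refine (Pr_sum_le hp0 hpp Lv (fun x => Disj (R x0 x) (R v w)) (fun ω _ h => h)).trans ?_
      exact sum_le_sum (fun x _ => Pr_two hp0 hp1 x0 x v w)

end DDA
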