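import Pool.Agent.DDA.DUp
import Pool.Agent.DDA.Coupling2
import Pool.Agent.DDA.StraightClosed
import Pool.Agent.DDA.ThreeEdges

/-!
# DDA: a straight run of three open edges with a further connection between points of its line
-/

open Finset

namespace DDA

set_option linter.unusedSectionVars false

namespace DBd

open DLo SC DUp

section
variable {N d : ℕ} [NeZero N] {p : ℝ}

lemma MM_nonneg (hp0 : 0 ≤ p) (hp1 : p ≤ 1) (x y : TV N d) :
    0 ≤ (Mt N d p * Mt N d p) x y := by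
  rw [Matrix.mul_apply]
  exact sum_nonneg (fun z _ => mul_nonneg (Mt_nonneg hp0 hp1 _ _) (Mt_nonneg hp0 hp1 _ _))

lemma Mt_le_MM (hp0 : 0 ≤ p) (hp1 : p ≤ 1) (x y : TV N d) :
    Mt N d p x y ≤ (Mt N d p * Mt N d p) x y := by
  rw [Matrix.mul_apply]
  refine le_trans (le_of_eq ?_) (single_le_sum (f := fun z => Mt N d p x z * Mt N d p z y)
    (fun z _ => mul_nonneg (Mt_nonneg hp0 hp1 _ _) (Mt_nonneg hp0 hp1 _ _)) (mem_univ x))
  rw [Mt_self, one_mul]

lemma MM_shift (x y : TV N d) :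
    (Mt N d p * Mt N d p) x y = (Mt N d p * Mt N d p) 0 (y - x) := by
  have := Mt_mul_add (N := N) (d := d) (A := Mt N d p) (B := Mt N d p) Mt_add Mt_add 0 (y - x) x
  rw [zero_add, sub_add_cancel] at this
  exact this

lemma sum_tree (a b : TV N d) :
    ∑ y : TV N d, ∑ u, Mt N d p 0 u * Mt N d p u (y + a) * Mt N d p u (y + b)
      = chi N d p * (Mt N d p * Mt N d p) 0 (b - a) := by
  rw [sum_comm]
  have h : ∀ u : TV N d, ∑ y : TV N d, Mt N d p 0 u * Mt N d p u (y + a) * Mt N d p u (y + b)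
      = Mt N d p 0 u * (Mt N d p * Mt N d p) 0 (b - a) := by
    intro u
    rw [← MM_shift a b, Matrix.mul_apply, mul_sum, ← Equiv.sum_comp (Equiv.subLeft u)]
    apply sum_congr rfl
    intro y _
    have e : (Equiv.subLeft u) y = u - y := rfl
    rw [e]
    have e1 : ∀ c, Mt N d p u (u - y + c) = Mt N d p y c := by
      intro c
      have := Mt_add (p := p) y c (u - y)
      rw [add_sub_cancel, add_comm c] at this
      exact this
    rw [e1, e1, Mt_comm p y a]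
    ring
  rw [sum_congr rfl (fun u _ => h u), ← sum_mul, Mt_row]

lemma sum_two (a b c : TV N d) :
    ∑ y : TV N d, Mt N d p 0 (y + a) * Mt N d p (y + b) (y + c) = chi N d p * Mt N d p b c := by
  have h : ∀ y : TV N d, Mt N d p (y + b) (y + c) = Mt N d p b c := by
    intro y
    rw [add_comm y b, add_comm y c, Mt_add]
  simp only [h]
  rw [← sum_mul]
  congr 1
  rw [← Mt_row p 0]
  exact Equiv.sum_comp (Equiv.addRight a) (fun x => Mt N d p 0 x)

/-- displacements which stay on the line of `T_4` -/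
def Ln (N : ℕ) {d : ℕ} [NeZero N] (i : Fin d) : Finset (TV N d) :=
  Fintype.piFinset (fun j => if j = i then univ else cf N 0)

lemma mem_Ln {i : Fin d} {z : TV N d} : z ∈ Ln N i ↔ ∀ j, j ≠ i → pr4 N d z j = 0 := by
  unfold Ln
  rw [Fintype.mem_piFinset]
  constructor
  · intro h j hj
    have := h j
    rw [if_neg hj] at this
    exact mem_cf.mp this
  · intro h j
    split_ifs with hj
    · exact mem_univ _
    · exact mem_cf.mpr (h j hj)

lemma sum_all {t : ℝ} (h0 : 0 ≤ t) (h1 : t < 1) :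
    ∑ a : ZMod N, t ^ a.valMinAbs.natAbs ≤ 1 + 2 * (t * (1 - t)⁻¹) := by
  have hsplit : ∑ a : ZMod N, t ^ a.valMinAbs.natAbs
      ≤ ∑ a ∈ (univ : Finset (ZMod N)).filter (fun a => a.valMinAbs = 0), t ^ a.valMinAbs.natAbs
        + (∑ a ∈ (univ : Finset (ZMod N)).filter (fun a => 0 < a.valMinAbs),
            t ^ a.valMinAbs.natAbs
        + ∑ a ∈ (univ : Finset (ZMod N)).filter (fun a => a.valMinAbs < 0),
            t ^ a.valMinAbs.natAbs) := by
    rw [sum_filter, sum_filter, sum_filter, ← sum_add_distrib, ← sum_add_distrib]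
    apply sum_le_sum
    intro a _
    have hp : 0 ≤ t ^ a.valMinAbs.natAbs := by positivity
    rcases lt_trichotomy a.valMinAbs 0 with h | h | h
    · rw [if_neg (by omega), if_neg (by omega), if_pos h]; linarith
    · rw [if_pos h, if_neg (by omega), if_neg (by omega)]; linarith
    · rw [if_neg (by omega), if_pos h, if_neg (by omega)]; linarith
  refine hsplit.trans ?_
  have hA : ∑ a ∈ (univ : Finset (ZMod N)).filter (fun a => a.valMinAbs = 0),
      t ^ a.valMinAbs.natAbs ≤ 1 := by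
    have h2 : (univ : Finset (ZMod N)).filter (fun a => a.valMinAbs = 0) ⊆ {(0 : ZMod N)} := by
      intro a ha
      rw [mem_singleton]
      exact (ZMod.valMinAbs_eq_zero a).mp (mem_filter.mp ha).2
    refine (sum_le_sum_of_subset_of_nonneg h2 (fun a _ _ => by positivity)).trans ?_
    rw [sum_singleton, ZMod.valMinAbs_zero]
    simp
  have key : ∀ S : Finset (ZMod N), (∀ a ∈ S, a.valMinAbs ≠ 0) →
      (∀ a ∈ S, ∀ b ∈ S, a.valMinAbs ≠ -b.valMinAbs) →
      ∑ a ∈ S, t ^ a.valMinAbs.natAbs ≤ t * (1 - t)⁻¹ := by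
    intro S hne hpm
    have hval : ∀ a ∈ S, a.valMinAbs.natAbs = (a.valMinAbs.natAbs - 1) + 1 := by
      intro a ha
      have h3 := hne a ha
      omega
    have hinj : Set.InjOn (fun a : ZMod N => a.valMinAbs.natAbs - 1) S := by
      intro a ha b hb hab
      have h2 := hval a ha
      have h3 := hval b hb
      simp only at hab
      have h5 : a.valMinAbs.natAbs = b.valMinAbs.natAbs := by omega
      rcases Int.natAbs_eq_natAbs_iff.mp h5 with h | h
      · exact vma_inj h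
      · exact absurd h (hpm a ha b hb)
    have h2 : ∑ a ∈ S, t ^ a.valMinAbs.natAbs
        = t * ∑ a ∈ S, t ^ (a.valMinAbs.natAbs - 1) := by
      rw [mul_sum]
      apply sum_congr rfl
      intro a ha
      rw [← pow_succ', ← hval a ha]
    rw [h2]
    apply mul_le_mul_of_nonneg_left _ h0
    exact geo _ _ hinj h0 h1
  have hB := key ((univ : Finset (ZMod N)).filter (fun a => 0 < a.valMinAbs))
    (fun a ha => by have := (mem_filter.mp ha).2; omega)
    (fun a ha b hb => by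
      have h2 := (mem_filter.mp ha).2
      have h3 := (mem_filter.mp hb).2
      omega)
  have hC := key ((univ : Finset (ZMod N)).filter (fun a => a.valMinAbs < 0))
    (fun a ha => by have := (mem_filter.mp ha).2; omega)
    (fun a ha b hb => by
      have h2 := (mem_filter.mp ha).2
      have h3 := (mem_filter.mp hb).2
      omega)
  linarith

lemma zero_mem_Ln (i : Fin d) : (0 : TV N d) ∈ Ln N i := by
  rw [mem_Ln]
  intro j _
  rw [pr4_zero]
  rfl

/-- **the weighted count of a line** -/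
theorem line_weight (h4 : 4 ∣ N) (hd : 4 ≤ d) (i : Fin d) :
    ∑ z ∈ (Ln N i).erase 0, ((2 * (d : ℝ))⁻¹) ^ (max 1 (nrm z)) ≤ 3 * (2 * (d : ℝ))⁻¹ := by
  have hdR : (4 : ℝ) ≤ d := by exact_mod_cast hd
  set t : ℝ := (2 * (d : ℝ))⁻¹ with ht
  have ht0 : 0 < t := by rw [ht]; positivity
  have htd : (d : ℝ) * t = 1 / 2 := by rw [ht]; field_simp
  have ht8 : t ≤ 1 / 8 := by
    rw [ht, one_div]
    apply inv_anti₀ (by norm_num)
    linarith
  have h3 : ∑ z ∈ (Ln N i).erase 0, t ^ (max 1 (nrm z)) = ∑ z ∈ (Ln N i).erase 0, t ^ nrm z := by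
    apply sum_congr rfl
    intro z hz
    have h6 : nrm z ≠ 0 := fun h => (ne_of_mem_erase hz) (eq_zero_of_nrm h)
    rw [max_eq_right (by omega)]
  rw [h3]
  have h5 : t ^ nrm (0 : TV N d) + ∑ z ∈ (Ln N i).erase 0, t ^ nrm z = ∑ z ∈ Ln N i, t ^ nrm z :=
    add_sum_erase (Ln N i) (fun z => t ^ nrm z) (zero_mem_Ln i)
  rw [nrm_zero, pow_zero] at h5
  have hprod : ∑ z ∈ Ln N i, t ^ nrm z
      = ∏ j, ∑ a ∈ (if j = i then (univ : Finset (ZMod N)) else cf N 0),
          t ^ a.valMinAbs.natAbs := by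
    rw [Finset.prod_univ_sum]
    apply sum_congr rfl
    intro z _
    unfold nrm
    rw [prod_pow_eq_pow_sum]
  rw [← mul_prod_erase univ _ (mem_univ i), if_pos rfl] at hprod
  have h1 := sum_all (N := N) ht0.le (by linarith)
  set y : ℝ := 2 * (t ^ 4 * (1 - t ^ 4)⁻¹) with hy
  have ht4 : t ^ 4 ≤ 1 / 4096 := by
    calc t ^ 4 ≤ (1 / 8) ^ 4 := by gcongr
      _ = _ := by norm_num
  have ht4p : 0 < t ^ 4 := by positivity
  have hy0 : 0 ≤ y := by
    rw [hy]
    have : 0 < 1 - t ^ 4 := by linarith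
    positivity
  have hy1 : y ≤ 21 / 10 * t ^ 4 := by
    rw [hy]
    have h5 : (1 - t ^ 4)⁻¹ ≤ 21 / 20 := by
      rw [inv_le_comm₀ (by linarith) (by norm_num)]
      norm_num
      linarith
    nlinarith
  have h2 : ∏ j ∈ univ.erase i, ∑ a ∈ (if j = i then (univ : Finset (ZMod N)) else cf N 0),
      t ^ a.valMinAbs.natAbs ≤ (1 + y) ^ d := by
    calc ∏ j ∈ univ.erase i, ∑ a ∈ (if j = i then (univ : Finset (ZMod N)) else cf N 0),
          t ^ a.valMinAbs.natAbs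
        ≤ ∏ j ∈ univ.erase i, (1 + y) := by
          apply prod_le_prod
          · intro j _
            exact sum_nonneg (fun a _ => by positivity)
          · intro j hj
            rw [if_neg (ne_of_mem_erase hj)]
            exact cf_zero h4 ht0.le (by linarith)
      _ = (1 + y) ^ (univ.erase i).card := by rw [prod_const]
      _ ≤ (1 + y) ^ d := by
          apply pow_le_pow_right₀ (by linarith)
          rw [card_erase_of_mem (mem_univ _), card_univ, Fintype.card_fin]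
          omega
  have hdy : (d : ℝ) * y ≤ 21 / 20 * t ^ 3 := by
    calc (d : ℝ) * y ≤ d * (21 / 10 * t ^ 4) := by gcongr
      _ = 21 / 10 * (d * t) * t ^ 3 := by ring
      _ = _ := by rw [htd]; ring
  have ht3 : t ^ 3 ≤ 1 / 512 := by
    calc t ^ 3 ≤ (1 / 8) ^ 3 := by gcongr
      _ = _ := by norm_num
  have ht3p : 0 < t ^ 3 := by positivity
  have h6 : (1 + y) ^ d ≤ 1 + 2 * t ^ 3 := by
    refine (one_add_pow_le hy0 d (by linarith)).trans ?_
    rw [inv_le_comm₀ (by linarith) (by linarith)]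
    rw [← one_div, div_le_iff₀ (by linarith)]
    nlinarith
  have h7 : t * (1 - t)⁻¹ ≤ 8 / 7 * t := by
    have : (1 - t)⁻¹ ≤ 8 / 7 := by
      rw [inv_le_comm₀ (by linarith) (by norm_num)]
      linarith
    nlinarith
  have h8 : 0 ≤ ∏ j ∈ univ.erase i, ∑ a ∈ (if j = i then (univ : Finset (ZMod N)) else cf N 0),
      t ^ a.valMinAbs.natAbs :=
    prod_nonneg (fun j _ => sum_nonneg (fun a _ => by positivity))
  have h9 : ∑ z ∈ Ln N i, t ^ nrm z ≤ (1 + 16 / 7 * t) * (1 + 2 * t ^ 3) := by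
    rw [hprod]
    exact mul_le_mul (h1.trans (by linarith)) (h2.trans h6) h8 (by positivity)
  have h10 : t ^ 3 ≤ 1 / 64 * t := by
    calc t ^ 3 = t * t * t := by ring
      _ ≤ 1 / 8 * (1 / 8) * t := by gcongr
      _ = _ := by ring
  have h11 : t ^ 4 ≤ 1 / 512 * t := by
    calc t ^ 4 = t ^ 3 * t := by ring
      _ ≤ 1 / 512 * t := by gcongr
  nlinarith

end

/-- the square of the two-point function, summed over a line -/
theorem line_bound : ∃ C : ℝ, 0 < C ∧ ∃ d0 : ℕ, ∀ d ≥ d0,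
    ∀ (N : ℕ) [NeZero N], 4 ∣ N → 4 ≤ N → ∀ p : ℝ, 0 ≤ p → p ≤ 1 / d →
    chi N d p ≤ (2 * (d : ℝ)) ^ 4 → ∀ i : Fin d,
    ∑ z ∈ (Ln N i).erase 0, (Mt N d p * Mt N d p) 0 z ≤ C * (2 * (d : ℝ))⁻¹ := by
  classical
  obtain ⟨C, hC, d1, H⟩ := coset_bound 4 1 2 (by norm_num)
  refine ⟨3 * C + 4, by linarith, max d1 4, ?_⟩
  intro d hd N _ h4 hN p hp0 hpd hchi i
  have hd1 : d1 ≤ d := (le_max_left _ _).trans hd
  have hd4 : 4 ≤ d := (le_max_right _ _).trans hd
  have hdR : (4 : ℝ) ≤ d := by exact_mod_cast hd4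
  have hp4 : p ≤ 1 / 4 := by
    refine hpd.trans ?_
    apply one_div_le_one_div_of_le (by norm_num) hdR
  have hpp : p ≤ 1 := by linarith
  set t : ℝ := (2 * (d : ℝ))⁻¹ with ht
  have ht0 : 0 < t := by rw [ht]; positivity
  have hone : OneStep 2 ((2 * (d : ℝ)) ^ 4) (Mt N d p) :=
    Mt_oneStep (by omega) (by omega) hp0 hpp hpd hchi
  have h1 : ∀ c : ZMod 4, ∑ z ∈ ((Ln N i).erase 0).filter (fun z => pr4 N d z i = c),
      (Mt N d p * Mt N d p) 0 z
      ≤ C * ∑ z ∈ ((Ln N i).erase 0).filter (fun z => pr4 N d z i = c), t ^ (max 1 (nrm z))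
        + t := by
    intro c
    have h2 := H d hd1 N h4 hN (Mt N d p) hone Mt_add (Pi.single i c)
      (((Ln N i).erase 0).filter (fun z => pr4 N d z i = c)) (by
        intro z hz
        obtain ⟨h3, h5⟩ := mem_filter.mp hz
        funext j
        by_cases hj : j = i
        · subst hj
          rw [Pi.single_eq_same]
          exact h5
        · rw [Pi.single_eq_of_ne hj]
          exact mem_Ln.mp (mem_of_mem_erase h3) j hj)
    have h3 : (0 : TV N d) ∉ ((Ln N i).erase 0).filter (fun z => pr4 N d z i = c) := by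
      intro h
      exact (notMem_erase _ _) (mem_filter.mp h).1
    rw [if_neg h3, zero_add, pow_one] at h2
    exact h2
  have h2 := sum_le_sum (fun c (_ : c ∈ (univ : Finset (ZMod 4))) => h1 c)
  rw [sum_fiberwise, sum_add_distrib, ← mul_sum, sum_fiberwise] at h2
  refine h2.trans ?_
  have h3 := mul_le_mul_of_nonneg_left (line_weight (N := N) h4 hd4 i) hC.le
  rw [← ht] at h3
  have h5 : ∑ _c : ZMod 4, t = 4 * t := by
    rw [sum_const, card_univ, ZMod.card, nsmul_eq_mul]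
    norm_num
  rw [h5]
  linarith

section
variable {N d : ℕ} [NeZero N] {p : ℝ}

/-- the vertices of the run -/
def Lv (y : TV N d) (i : Fin d) : Finset (TV N d) := (range 4).image (fun k => y + sg N d i k)

lemma mem_Lv {y x : TV N d} {i : Fin d} : x ∈ Lv y i ↔ ∃ k < 4, y + sg N d i k = x := by
  unfold Lv
  simp

lemma Lv_inj (hN : 8 ≤ N) (y : TV N d) (i : Fin d) :
    Set.InjOn (fun k => y + sg N d i k) (range 4 : Finset ℕ) := by
  intro k hk l hl h
  have hk' := mem_range.mp (mem_coe.mp hk)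
  have hl' := mem_range.mp (mem_coe.mp hl)
  exact sg_inj (by omega) (by omega) (add_left_cancel h)

lemma sum_Lv (hN : 8 ≤ N) (f : TV N d → ℝ) (y : TV N d) (i : Fin d) :
    ∑ x ∈ Lv y i, f x = ∑ k ∈ range 4, f (y + sg N d i k) := by
  unfold Lv
  rw [sum_image (Lv_inj hN y i)]

lemma sum_Lv_erase (hN : 8 ≤ N) (f : TV N d → ℝ) (y : TV N d) (i : Fin d) {k : ℕ}
    (hk : k ∈ range 4) :
    ∑ x ∈ (Lv y i).erase (y + sg N d i k), f x
      = ∑ l ∈ (range 4).erase k, f (y + sg N d i l) := by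
  have h1 : (Lv y i).erase (y + sg N d i k)
      = ((range 4).erase k).image (fun l => y + sg N d i l) := by
    ext x
    rw [mem_erase, mem_image]
    constructor
    · rintro ⟨h1, h2⟩
      obtain ⟨l, hl, rfl⟩ := mem_Lv.mp h2
      refine ⟨l, mem_erase.mpr ⟨?_, mem_range.mpr hl⟩, rfl⟩
      rintro rfl
      exact h1 rfl
    · rintro ⟨l, hl, rfl⟩
      obtain ⟨h1, h2⟩ := mem_erase.mp hl
      refine ⟨?_, mem_Lv.mpr ⟨l, mem_range.mp h2, rfl⟩⟩
      intro h
      exact h1 (Lv_inj hN y i (mem_coe.mpr h2) (mem_coe.mpr hk) h)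
  rw [h1, sum_image]
  intro a ha b hb h
  exact Lv_inj hN y i (mem_coe.mpr (mem_of_mem_erase (mem_coe.mp ha)))
    (mem_coe.mpr (mem_of_mem_erase (mem_coe.mp hb))) h

lemma run_in (y : TV N d) (i : Fin d) :
    ∀ e ∈ run N d y i, (T N d).s e ∈ Lv y i ∧ (T N d).t e ∈ Lv y i := by
  intro e he
  rcases mem_run.mp he with rfl | rfl | rfl
  · refine ⟨mem_Lv.mpr ⟨0, by norm_num, ?_⟩, mem_Lv.mpr ⟨1, by norm_num, ?_⟩⟩
    · rw [sg_zero, add_zero]; rfl
    · rw [sg_one]; rfl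
  · refine ⟨mem_Lv.mpr ⟨1, by norm_num, rfl⟩, mem_Lv.mpr ⟨2, by norm_num, ?_⟩⟩
    rw [sg_succ, ← add_assoc]; rfl
  · refine ⟨mem_Lv.mpr ⟨2, by norm_num, rfl⟩, mem_Lv.mpr ⟨3, by norm_num, ?_⟩⟩
    rw [sg_succ, ← add_assoc]; rfl

lemma card_run (hN : 8 ≤ N) (y : TV N d) (i : Fin d) : (run N d y i).card = 3 := by
  have h1 : run N d y i = (range 3).image (fun k => ((y + sg N d i k, i) : TE N d)) := by
    ext e
    rw [mem_run, mem_image]
    constructor
    · rintro (rfl | rfl | rfl)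
      · exact ⟨0, by simp, by rw [sg_zero, add_zero]⟩
      · exact ⟨1, by simp, rfl⟩
      · exact ⟨2, by simp, rfl⟩
    · rintro ⟨k, hk, rfl⟩
      have := mem_range.mp hk
      interval_cases k
      · left; rw [sg_zero, add_zero]
      · right; left; rfl
      · right; right; rfl
  rw [h1, card_image_of_injOn, card_range]
  intro k hk l hl h
  have hk' := mem_range.mp (mem_coe.mp hk)
  have hl' := mem_range.mp (mem_coe.mp hl)
  exact sg_inj (by omega) (by omega) (add_left_cancel (congrArg Prod.fst h))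

lemma sg_mem_Ln (i : Fin d) (k : ℕ) : sg N d i k ∈ Ln N i := by
  rw [mem_Ln]
  intro j hj
  unfold sg pr4
  rw [Pi.single_eq_of_ne hj]
  exact ZMod.cast_zero

lemma Ln_sub (h4 : 4 ∣ N) {i : Fin d} {x y : TV N d} (hx : x ∈ Ln N i) (hy : y ∈ Ln N i) :
    x - y ∈ Ln N i := by
  rw [mem_Ln] at *
  intro j hj
  rw [pr4_sub h4, Pi.sub_apply, hx j hj, hy j hj, sub_zero]

/-- the displacements to the points of the line which are not on the run -/
def Zs (N : ℕ) {d : ℕ} [NeZero N] (i : Fin d) : Finset (TV N d) :=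
  Ln N i \ (range 4).image (fun k => sg N d i k)

lemma mem_Zs {i : Fin d} {z : TV N d} : z ∈ Zs N i ↔ z ∈ Ln N i ∧ ∀ k < 4, sg N d i k ≠ z := by
  unfold Zs
  simp

/-- the sum over the line, off the run, of the distances to a point of the run -/
lemma sum_Zs (h4 : 4 ∣ N) (hp0 : 0 ≤ p) (hp1 : p ≤ 1) (i : Fin d) {k : ℕ} (hk : k ∈ range 4) :
    ∑ z ∈ Zs N i, (Mt N d p * Mt N d p) 0 (z - sg N d i k)
      ≤ ∑ z ∈ (Ln N i).erase 0, (Mt N d p * Mt N d p) 0 z := by
  have h1 : ∑ z ∈ Zs N i, (Mt N d p * Mt N d p) 0 (z - sg N d i k)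
      = ∑ z ∈ (Zs N i).image (fun z => z - sg N d i k), (Mt N d p * Mt N d p) 0 z := by
    rw [sum_image]
    intro a _ b _ h
    exact sub_left_injective h
  rw [h1]
  apply sum_le_sum_of_subset_of_nonneg
  · intro x hx
    obtain ⟨z, hz, rfl⟩ := mem_image.mp hx
    obtain ⟨h2, h3⟩ := mem_Zs.mp hz
    refine mem_erase.mpr ⟨?_, Ln_sub h4 h2 (sg_mem_Ln i k)⟩
    intro h
    exact h3 k (mem_range.mp hk) (sub_eq_zero.mp h).symm
  · intro x _ _
    exact MM_nonneg hp0 hp1 _ _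

lemma sum_run (h4 : 4 ∣ N) (hN : 8 ≤ N) (hp0 : 0 ≤ p) (hp1 : p ≤ 1) (i : Fin d) {k : ℕ}
    (hk : k ∈ range 4) :
    ∑ l ∈ (range 4).erase k, (Mt N d p * Mt N d p) 0 (sg N d i l - sg N d i k)
      ≤ ∑ z ∈ (Ln N i).erase 0, (Mt N d p * Mt N d p) 0 z := by
  have hinj : ∀ a ∈ (range 4).erase k, ∀ b ∈ (range 4).erase k,
      sg N d i a - sg N d i k = sg N d i b - sg N d i k → a = b := by
    intro a ha b hb h
    have h1 := mem_range.mp (mem_of_mem_erase ha)
    have h2 := mem_range.mp (mem_of_mem_erase hb)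
    exact sg_inj (by omega) (by omega) (sub_left_injective h)
  have h1 : ∑ l ∈ (range 4).erase k, (Mt N d p * Mt N d p) 0 (sg N d i l - sg N d i k)
      = ∑ z ∈ ((range 4).erase k).image (fun l => sg N d i l - sg N d i k),
        (Mt N d p * Mt N d p) 0 z := by
    rw [sum_image]
    intro a ha b hb h
    exact hinj a ha b hb h
  rw [h1]
  apply sum_le_sum_of_subset_of_nonneg
  · intro x hx
    obtain ⟨l, hl, rfl⟩ := mem_image.mp hx
    obtain ⟨h2, h3⟩ := mem_erase.mp hl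
    refine mem_erase.mpr ⟨?_, Ln_sub h4 (sg_mem_Ln i l) (sg_mem_Ln i k)⟩
    intro h
    have h5 := mem_range.mp h3
    have h6 := mem_range.mp hk
    exact h2 (sg_inj (by omega) (by omega) (sub_eq_zero.mp h))
  · intro x _ _
    exact MM_nonneg hp0 hp1 _ _

/-- the event -/
def EvD (y : TV N d) (i : Fin d) (ζ : Finset (TE N d)) : Prop :=
  y ∈ (T N d).cl univ ζ 0 ∧ run N d y i ⊆ ζ ∧ ∃ v w, v ≠ w ∧
      v ∈ (T N d).cl univ ζ 0 ∧ SameLine i (pr4 N d y) (pr4 N d v) ∧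
      SameLine i (pr4 N d y) (pr4 N d w) ∧ w ∈ (T N d).cl univ (ζ \ run N d y i) v

lemma line_disp (h4 : 4 ∣ N) {y v : TV N d} {i : Fin d}
    (h : SameLine i (pr4 N d y) (pr4 N d v)) (hv : v ∉ Lv y i) : v - y ∈ Zs N i := by
  rw [mem_Zs]
  constructor
  · rw [mem_Ln]
    intro j hj
    rw [pr4_sub h4, Pi.sub_apply, h j hj, sub_self]
  · intro k hk h1
    apply hv
    rw [mem_Lv]
    exact ⟨k, hk, by rw [h1, add_sub_cancel]⟩

lemma EvD_cases (h4 : 4 ∣ N) {y : TV N d} {i : Fin d} {ζ : Finset (TE N d)} (h : EvD y i ζ) :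
    (run N d y i ⊆ ζ ∧ (∃ x ∈ Lv y i, x ∈ (T N d).cl univ ζ 0) ∧
      ∃ v ∈ Lv y i, ∃ w ∈ Lv y i, v ≠ w ∧ w ∈ (T N d).cl univ (ζ \ run N d y i) v) ∨
    ∃ z ∈ Zs N i, (run N d y i ⊆ ζ ∧ (∃ x ∈ Lv y i, x ∈ (T N d).cl univ ζ 0) ∧
      y + z ∈ (T N d).cl univ ζ 0) := by
  obtain ⟨hy, hrun, v, w, hvw, hv, hlv, hlw, hw⟩ := h
  have hyL : y ∈ Lv y i := mem_Lv.mpr ⟨0, by norm_num, by rw [sg_zero, add_zero]⟩
  have hw0 : w ∈ (T N d).cl univ ζ 0 :=
    LG.mem_cl_trans hv (LG.cl_mono (Subset.refl _) sdiff_subset hw)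
  by_cases h1 : v ∈ Lv y i
  · by_cases h2 : w ∈ Lv y i
    · left
      exact ⟨hrun, ⟨y, hyL, hy⟩, v, h1, w, h2, hvw, hw⟩
    · right
      refine ⟨w - y, line_disp h4 hlw h2, hrun, ⟨y, hyL, hy⟩, ?_⟩
      rw [add_sub_cancel]
      exact hw0
  · right
    refine ⟨v - y, line_disp h4 hlv h1, hrun, ⟨y, hyL, hy⟩, ?_⟩
    rw [add_sub_cancel]
    exact hv

/-- the contribution of one place -/
lemma one_place (h4 : 4 ∣ N) (hN : 8 ≤ N) (hp0 : 0 ≤ p) (hp1 : p ≤ 1 / 2) (y : TV N d)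
    (i : Fin d) :
    Pr univ p (EvD y i) ≤ p ^ 3 * (∑ k ∈ range 4, ∑ l ∈ (range 4).erase k,
        ((∑ u, Mt N d p 0 u * Mt N d p u (y + sg N d i k) * Mt N d p u (y + sg N d i l))
          + ∑ m ∈ range 4, Mt N d p 0 (y + sg N d i m) *
            Mt N d p (y + sg N d i k) (y + sg N d i l)))
      + ∑ z ∈ Zs N i, p ^ 3 * (∑ k ∈ range 4,
        ((∑ u, Mt N d p 0 u * Mt N d p u (y + sg N d i k) * Mt N d p u (y + z))
          + ∑ l ∈ range 4, Mt N d p 0 (y + sg N d i k) * Mt N d p (y + sg N d i l) (y + z))) := by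
  classical
  have hpp : p ≤ 1 := by linarith
  have h1 := Pr_mono (F := (univ : Finset (TE N d))) hp0 hpp
    (A := EvD y i) (B := fun ζ => (run N d y i ⊆ ζ ∧ (∃ x ∈ Lv y i, x ∈ (T N d).cl univ ζ 0) ∧
      ∃ v ∈ Lv y i, ∃ w ∈ Lv y i, v ≠ w ∧ w ∈ (T N d).cl univ (ζ \ run N d y i) v) ∨
    ∃ z ∈ Zs N i, (run N d y i ⊆ ζ ∧ (∃ x ∈ Lv y i, x ∈ (T N d).cl univ ζ 0) ∧
      y + z ∈ (T N d).cl univ ζ 0)) (fun ζ _ h => EvD_cases h4 h)
  refine h1.trans ?_
  have h2 := Pr_or_add_and (univ : Finset (TE N d)) p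
    (fun ζ => run N d y i ⊆ ζ ∧ (∃ x ∈ Lv y i, x ∈ (T N d).cl univ ζ 0) ∧
      ∃ v ∈ Lv y i, ∃ w ∈ Lv y i, v ≠ w ∧ w ∈ (T N d).cl univ (ζ \ run N d y i) v)
    (fun ζ => ∃ z ∈ Zs N i, (run N d y i ⊆ ζ ∧ (∃ x ∈ Lv y i, x ∈ (T N d).cl univ ζ 0) ∧
      y + z ∈ (T N d).cl univ ζ 0))
  have h3 := Pr_nonneg (F := (univ : Finset (TE N d))) hp0 hpp
    (fun ζ => (run N d y i ⊆ ζ ∧ (∃ x ∈ Lv y i, x ∈ (T N d).cl univ ζ 0) ∧
      ∃ v ∈ Lv y i, ∃ w ∈ Lv y i, v ≠ w ∧ w ∈ (T N d).cl univ (ζ \ run N d y i) v) ∧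
    ∃ z ∈ Zs N i, (run N d y i ⊆ ζ ∧ (∃ x ∈ Lv y i, x ∈ (T N d).cl univ ζ 0) ∧
      y + z ∈ (T N d).cl univ ζ 0))
  have h5 := three_dirty (by omega) hp0 hp1 (run N d y i) (Lv y i) (run_in y i) 0
  have h6 := Pr_sum_le (F := (univ : Finset (TE N d))) hp0 hpp (Zs N i)
    (fun z ζ => run N d y i ⊆ ζ ∧ (∃ x ∈ Lv y i, x ∈ (T N d).cl univ ζ 0) ∧
      y + z ∈ (T N d).cl univ ζ 0) (A := fun ζ => ∃ z ∈ Zs N i, (run N d y i ⊆ ζ ∧
      (∃ x ∈ Lv y i, x ∈ (T N d).cl univ ζ 0) ∧ y + z ∈ (T N d).cl univ ζ 0))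
      (fun ω _ h => h)
  have h7 : ∀ z ∈ Zs N i, Pr univ p (fun ζ => run N d y i ⊆ ζ ∧
      (∃ x ∈ Lv y i, x ∈ (T N d).cl univ ζ 0) ∧ y + z ∈ (T N d).cl univ ζ 0)
      ≤ p ^ 3 * (∑ k ∈ range 4,
        ((∑ u, Mt N d p 0 u * Mt N d p u (y + sg N d i k) * Mt N d p u (y + z))
          + ∑ l ∈ range 4, Mt N d p 0 (y + sg N d i k) * Mt N d p (y + sg N d i l) (y + z))) := by
    intro z _
    have h8 := three_edges (by omega) hp0 hp1 (run N d y i) (Lv y i) (run_in y i) 0 (y + z)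
    rw [card_run hN, sum_Lv hN] at h8
    refine h8.trans (le_of_eq ?_)
    congr 1
    apply sum_congr rfl
    intro k _
    rw [sum_Lv hN]
  have h9 := sum_le_sum h7
  rw [card_run hN, sum_Lv hN] at h5
  have h10 : ∑ k ∈ range 4, ∑ w ∈ (Lv y i).erase (y + sg N d i k),
      ((∑ u, Mt N d p 0 u * Mt N d p u (y + sg N d i k) * Mt N d p u w)
        + ∑ x ∈ Lv y i, Mt N d p 0 x * Mt N d p (y + sg N d i k) w)
      = ∑ k ∈ range 4, ∑ l ∈ (range 4).erase k,
        ((∑ u, Mt N d p 0 u * Mt N d p u (y + sg N d i k) * Mt N d p u (y + sg N d i l))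
          + ∑ m ∈ range 4, Mt N d p 0 (y + sg N d i m) *
            Mt N d p (y + sg N d i k) (y + sg N d i l)) := by
    apply sum_congr rfl
    intro k hk
    rw [sum_Lv_erase hN _ y i hk]
    apply sum_congr rfl
    intro l _
    rw [sum_Lv hN]
  rw [h10] at h5
  linarith

/-- the contribution of one direction -/
lemma one_dir (h4 : 4 ∣ N) (hN : 8 ≤ N) (hp0 : 0 ≤ p) (hp1 : p ≤ 1 / 2) (i : Fin d) :
    ∑ y : TV N d, Pr univ p (EvD y i) ≤ 40 * p ^ 3 * (chi N d p *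
      ∑ z ∈ (Ln N i).erase 0, (Mt N d p * Mt N d p) 0 z) := by
  have hpp : p ≤ 1 := by linarith
  have hchi0 : 0 ≤ chi N d p := by
    rw [← Mt_row p 0]
    exact sum_nonneg (fun y _ => Mt_nonneg hp0 hpp _ _)
  set B := ∑ z ∈ (Ln N i).erase 0, (Mt N d p * Mt N d p) 0 z with hB
  refine (sum_le_sum (fun y _ => one_place h4 hN hp0 hp1 y i)).trans ?_
  rw [sum_add_distrib]
  have e1 : ∑ y : TV N d, p ^ 3 * (∑ k ∈ range 4, ∑ l ∈ (range 4).erase k,
        ((∑ u, Mt N d p 0 u * Mt N d p u (y + sg N d i k) * Mt N d p u (y + sg N d i l))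
          + ∑ m ∈ range 4, Mt N d p 0 (y + sg N d i m) *
            Mt N d p (y + sg N d i k) (y + sg N d i l)))
      ≤ 20 * p ^ 3 * (chi N d p * B) := by
    rw [← mul_sum, sum_comm]
    have e2 : ∀ k ∈ range 4, ∑ y : TV N d, ∑ l ∈ (range 4).erase k,
        ((∑ u, Mt N d p 0 u * Mt N d p u (y + sg N d i k) * Mt N d p u (y + sg N d i l))
          + ∑ m ∈ range 4, Mt N d p 0 (y + sg N d i m) *
            Mt N d p (y + sg N d i k) (y + sg N d i l)) ≤ 5 * (chi N d p * B) := by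
      intro k hk
      rw [sum_comm]
      have e3 : ∀ l ∈ (range 4).erase k, ∑ y : TV N d,
        ((∑ u, Mt N d p 0 u * Mt N d p u (y + sg N d i k) * Mt N d p u (y + sg N d i l))
          + ∑ m ∈ range 4, Mt N d p 0 (y + sg N d i m) *
            Mt N d p (y + sg N d i k) (y + sg N d i l))
          ≤ 5 * (chi N d p * (Mt N d p * Mt N d p) 0 (sg N d i l - sg N d i k)) := by
        intro l _
        rw [sum_add_distrib, sum_tree, sum_comm]
        simp only [sum_two]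
        rw [sum_const, card_range, nsmul_eq_mul]
        have e4 := Mt_le_MM (N := N) (d := d) hp0 hpp (sg N d i k) (sg N d i l)
        rw [MM_shift] at e4
        have e5 := mul_le_mul_of_nonneg_left e4 hchi0
        push_cast
        linarith
      refine (sum_le_sum e3).trans ?_
      rw [← mul_sum, ← mul_sum]
      have e6 := sum_run h4 hN hp0 hpp i hk
      gcongr
    have e7 := sum_le_sum e2
    rw [sum_const, card_range, nsmul_eq_mul] at e7
    have e8 := mul_le_mul_of_nonneg_left e7 (by positivity : (0:ℝ) ≤ p ^ 3)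
    refine e8.trans (le_of_eq ?_)
    push_cast
    ring
  have e2 : ∑ y : TV N d, ∑ z ∈ Zs N i, p ^ 3 * (∑ k ∈ range 4,
        ((∑ u, Mt N d p 0 u * Mt N d p u (y + sg N d i k) * Mt N d p u (y + z))
          + ∑ l ∈ range 4, Mt N d p 0 (y + sg N d i k) * Mt N d p (y + sg N d i l) (y + z)))
      ≤ 20 * p ^ 3 * (chi N d p * B) := by
    rw [sum_comm]
    have e3 : ∀ z ∈ Zs N i, ∑ y : TV N d, p ^ 3 * (∑ k ∈ range 4,
        ((∑ u, Mt N d p 0 u * Mt N d p u (y + sg N d i k) * Mt N d p u (y + z))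
          + ∑ l ∈ range 4, Mt N d p 0 (y + sg N d i k) * Mt N d p (y + sg N d i l) (y + z)))
        ≤ p ^ 3 * (5 * (chi N d p * ∑ k ∈ range 4,
          (Mt N d p * Mt N d p) 0 (z - sg N d i k))) := by
      intro z _
      rw [← mul_sum]
      apply mul_le_mul_of_nonneg_left _ (by positivity)
      rw [sum_comm]
      simp only [sum_add_distrib, sum_tree]
      have e4 : ∑ k ∈ range 4, ∑ y : TV N d, ∑ l ∈ range 4,
          Mt N d p 0 (y + sg N d i k) * Mt N d p (y + sg N d i l) (y + z)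
          ≤ 4 * (chi N d p * ∑ k ∈ range 4, (Mt N d p * Mt N d p) 0 (z - sg N d i k)) := by
        have e5 : ∀ k ∈ range 4, ∑ y : TV N d, ∑ l ∈ range 4,
          Mt N d p 0 (y + sg N d i k) * Mt N d p (y + sg N d i l) (y + z)
          ≤ chi N d p * ∑ l ∈ range 4, (Mt N d p * Mt N d p) 0 (z - sg N d i l) := by
          intro k _
          rw [sum_comm, mul_sum]
          apply sum_le_sum
          intro l _
          rw [sum_two]
          have e6 := Mt_le_MM (N := N) (d := d) hp0 hpp (sg N d i l) z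
          rw [MM_shift] at e6
          exact mul_le_mul_of_nonneg_left e6 hchi0
        refine (sum_le_sum e5).trans (le_of_eq ?_)
        rw [sum_const, card_range, nsmul_eq_mul]
        norm_num
      rw [← mul_sum]
      linarith
    refine (sum_le_sum e3).trans ?_
    rw [← mul_sum, ← mul_sum, ← mul_sum, sum_comm]
    have e7 := sum_le_sum (fun k hk => sum_Zs (N := N) (d := d) h4 hp0 hpp i (k := k) hk)
    rw [sum_const, card_range, nsmul_eq_mul, ← hB] at e7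
    calc p ^ 3 * (5 * (chi N d p * ∑ k ∈ range 4, ∑ z ∈ Zs N i,
            (Mt N d p * Mt N d p) 0 (z - sg N d i k)))
        ≤ p ^ 3 * (5 * (chi N d p * (((4 : ℕ) : ℝ) * B))) := by gcongr
      _ = _ := by push_cast; ring
  linarith

end

end DBd

open DBd in
theorem dirty_bound : ∃ C : ℝ, 0 < C ∧ ∃ d0 : ℕ, ∀ d ≥ d0, ∀ (N : ℕ) [NeZero N], 4 ∣ N → 8 ≤ N →
    ∀ p : ℝ, 0 ≤ p → p ≤ 1 / d → chi N d p ≤ (2 * (d : ℝ)) ^ 4 →
    ∑ y : TV N d, ∑ i, Pr univ p (fun ζ => y ∈ (T N d).cl univ ζ 0 ∧ DLo.run N d y i ⊆ ζ ∧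
      ∃ v w, v ≠ w ∧ v ∈ (T N d).cl univ ζ 0 ∧ SameLine i (pr4 N d y) (pr4 N d v) ∧
      SameLine i (pr4 N d y) (pr4 N d w) ∧ w ∈ (T N d).cl univ (ζ \ DLo.run N d y i) v)
      ≤ C / (2 * (d : ℝ)) ^ 3 * chi N d p := by
  obtain ⟨C, hC, d0, H⟩ := line_bound
  refine ⟨160 * C, by linarith, max d0 4, ?_⟩
  intro d hd N _ h4 hN p hp0 hpd hchi
  have hd1 : d0 ≤ d := (le_max_left _ _).trans hd
  have hd4 : 4 ≤ d := (le_max_right _ _).trans hd
  have hdR : (4 : ℝ) ≤ d := by exact_mod_cast hd4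
  have hp4 : p ≤ 1 / 4 := by
    refine hpd.trans ?_
    apply one_div_le_one_div_of_le (by norm_num) hdR
  have hpp : p ≤ 1 := by linarith
  have hchi0 : 0 ≤ chi N d p := by
    rw [← DLo.Mt_row p 0]
    exact sum_nonneg (fun y _ => DLo.Mt_nonneg hp0 hpp _ _)
  set t : ℝ := (2 * (d : ℝ))⁻¹ with ht
  have ht0 : 0 < t := by rw [ht]; positivity
  have htd : (d : ℝ) * t = 1 / 2 := by rw [ht]; field_simp
  have hpt : p ≤ 2 * t := by
    refine hpd.trans (le_of_eq ?_)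
    rw [ht]
    field_simp
  rw [sum_comm]
  have h1 : ∀ i : Fin d, ∑ y : TV N d, Pr univ p (EvD y i)
      ≤ 40 * (2 * t) ^ 3 * (chi N d p * (C * t)) := by
    intro i
    refine (one_dir h4 hN hp0 (by linarith) i).trans ?_
    have h2 := H d hd1 N h4 (by omega) p hp0 hpd hchi i
    have h3 : 0 ≤ ∑ z ∈ (Ln N i).erase 0, (DLo.Mt N d p * DLo.Mt N d p) 0 z :=
      sum_nonneg (fun z _ => MM_nonneg hp0 hpp _ _)
    gcongr
  refine (sum_le_sum (fun i _ => h1 i)).trans (le_of_eq ?_)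
  rw [sum_const, card_univ, Fintype.card_fin, nsmul_eq_mul]
  calc (d : ℝ) * (40 * (2 * t) ^ 3 * (chi N d p * (C * t)))
      = (d * t) * (320 * C * t ^ 3 * chi N d p) := by ring
    _ = 160 * C * t ^ 3 * chi N d p := by rw [htd]; ring
    _ = _ := by rw [ht, inv_pow, div_eq_mul_inv]

end DDA
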