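import Pool.Agent.DDA.DUSA
import Pool.Agent.DDA.DirtyBound

/-!
# DDA: the sharp upper bound for the susceptibility of `T_N` in terms of that of `T_4`
-/

open Finset

namespace DDA

set_option linter.unusedSectionVars false

namespace DUp

open DLo SC

section
variable {N d : ℕ} [NeZero N]

open Classical in
/-- expectation of the number of bad places -/
lemma Ex_WW (p : ℝ) (hp0 : 0 ≤ p) (hp1 : p ≤ 1) :
    Ex univ p (fun ζ => ((WW N d ζ).card : ℝ))
      ≤ ∑ y : TV N d, ∑ i, Pr univ p (fun ζ => y ∈ (T N d).cl univ ζ 0 ∧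
          y + sg N d i 3 ∈ (T N d).cl univ ζ 0 ∧ ¬ run N d y i ⊆ ζ)
        + ∑ y : TV N d, ∑ i, Pr univ p (fun ζ => y ∈ (T N d).cl univ ζ 0 ∧ run N d y i ⊆ ζ ∧
          ∃ v w, v ≠ w ∧ v ∈ (T N d).cl univ ζ 0 ∧ SameLine i (pr4 N d y) (pr4 N d v) ∧
          SameLine i (pr4 N d y) (pr4 N d w) ∧ w ∈ (T N d).cl univ (ζ \ run N d y i) v) := by
  have h1 : ∀ ζ : Finset (TE N d), ((WW N d ζ).card : ℝ)
      ≤ ∑ y : TV N d, ∑ i : Fin d, ((if EvA (y, i) ζ then (1:ℝ) else 0)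
        + (if EvB (y, i) ζ then (1:ℝ) else 0)) := by
    intro ζ
    unfold WW
    rw [card_filter]
    push_cast
    rw [← Fintype.sum_prod_type']
    apply sum_le_sum
    intro Y _
    by_cases hA : EvA Y ζ <;> by_cases hB : EvB Y ζ <;> simp [hA, hB]
  refine (Ex_mono hp0 hp1 (fun ζ _ => h1 ζ)).trans (le_of_eq ?_)
  rw [Ex_sum, ← sum_add_distrib]
  apply sum_congr rfl
  intro y _
  rw [Ex_sum, ← sum_add_distrib]
  apply sum_congr rfl
  intro i _
  rw [Ex_add, ← Pr_eq_Ex, ← Pr_eq_Ex]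
  rfl

end

/-- **the expected number of unexplored edges which leave the explored set, sharp form** -/
theorem EXL_sharp : ∃ C : ℝ, 0 < C ∧ ∃ d0 : ℕ, ∀ d ≥ d0, ∀ (N : ℕ) [NeZero N], 4 ∣ N → 8 ≤ N →
    ∀ p : ℝ, 0 ≤ p → p ≤ 1 / d → chi N d p ≤ (2 * (d : ℝ)) ^ 4 →
    ∃ L : (∀ ω : Finset (TE 4 d), Lift N d ω), Cpl p L ∧
    Ex univ p (fun ω => ((XL (L ω)).card : ℝ)) ≤ 5 * p ^ 3 * (d * chi 4 d p)
      + C * ((2 * (d : ℝ))⁻¹) ^ 3 * chi N d p := by
  classical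
  obtain ⟨C, hC, d1, H⟩ := coset_bound 4 4 2 (by norm_num)
  obtain ⟨C1, hC1, d2, H1⟩ := straight_closed
  obtain ⟨C2, hC2, d3, H2⟩ := dirty_bound
  refine ⟨6 * C + 1 + 2 * (C1 + C2), by linarith, max (max d1 4) (max d2 d3), ?_⟩
  intro d hd N _ h4 hN p hp0 hpd hchi
  have hd1 : d1 ≤ d := ((le_max_left _ _).trans (le_max_left _ _)).trans hd
  have hd4 : 4 ≤ d := ((le_max_right _ _).trans (le_max_left _ _)).trans hd
  have hd2 : d2 ≤ d := ((le_max_left _ _).trans (le_max_right _ _)).trans hd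
  have hd3 : d3 ≤ d := ((le_max_right _ _).trans (le_max_right _ _)).trans hd
  have hdR : (4 : ℝ) ≤ d := by exact_mod_cast hd4
  have hE : Even N := by
    obtain ⟨m, rfl⟩ := h4
    exact ⟨2 * m, by ring⟩
  have hp4 : p ≤ 1 / 4 := by
    refine hpd.trans ?_
    apply one_div_le_one_div_of_le (by norm_num) hdR
  have hp1 : p ≤ 1 / 2 := by linarith
  have hpp : p ≤ 1 := by linarith
  have hchi1 : 1 ≤ chi N d p := chi_pos hp0 hpp
  obtain ⟨L2, hL2, hXm⟩ := coupling2 (N := N) (d := d) h4 hN p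
  set L : ∀ ω : Finset (TE 4 d), Lift N d ω := fun ω => (L2 ω).toLift with hLdef
  have hL : Cpl p L := fun f => hL2 f
  refine ⟨L, hL, ?_⟩
  set t : ℝ := (2 * (d : ℝ))⁻¹ with ht
  have ht0 : 0 < t := by rw [ht]; positivity
  have htd : (d : ℝ) * t = 1 / 2 := by rw [ht]; field_simp
  have hone : OneStep 2 ((2 * (d : ℝ)) ^ 4) (Mt N d p) :=
    Mt_oneStep (by omega) (by omega) hp0 hpp hpd hchi
  -- the classification, averaged over `η`
  have h1 : ∀ ω : Finset (TE 4 d), ((XL (L ω)).card : ℝ) ≤ ((L2 ω).Xm.card : ℝ)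
      + (∑ j : Fin d × Bool, ∑ z ∈ (disp N j).erase (z3 N j),
      (((univ : Finset (TV N d)).filter (fun a => a ∈ (L ω).D ∧ a + z ∈ (L ω).D)).card : ℝ))
      + 2 * Ex univ p (fun η => ((WW N d (wt (L ω) η)).card : ℝ)) := by
    intro ω
    have h2 := Ex_mono (F := (univ : Finset (TE N d))) hp0 hpp
      (fun η _ => card_XL_le2 h4 hN (L2 ω) η)
    rw [Ex_const, Ex_add, Ex_const, Ex_mul_left] at h2
    exact h2
  have h2 := Ex_mono (F := (univ : Finset (TE 4 d))) hp0 hpp (fun ω _ => h1 ω)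
  rw [Ex_add, Ex_add, Ex_mul_left, hL (fun ζ => ((WW N d ζ).card : ℝ)), hXm] at h2
  -- the main part
  have h3 : (5 * p ^ 3 - 3 * p ^ 4) * Ex univ p (fun ω => (((L2 ω).fr.card : ℕ) : ℝ))
      ≤ 5 * p ^ 3 * (d * chi 4 d p) := by
    have e1 : Ex univ p (fun ω => (((L2 ω).fr.card : ℕ) : ℝ)) ≤ d * chi 4 d p := by
      have e2 : ∀ ω : Finset (TE 4 d), (((L2 ω).fr.card : ℕ) : ℝ)
          ≤ d * (((T 4 d).cl univ ω 0).card : ℝ) := by
        intro ω
        have e3 : (L2 ω).fr ⊆ (L2 ω).D ×ˢ (univ : Finset (Fin d)) := by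
          intro Y hY
          exact mem_product.mpr ⟨(L2 ω).fr_mem Y hY, mem_univ _⟩
        have e4 := card_le_card e3
        rw [card_product, card_univ, Fintype.card_fin] at e4
        have e5 : (L2 ω).D.card = ((T 4 d).cl univ ω 0).card := cpl_card (L2 ω).toLift
        rw [e5, mul_comm] at e4
        exact_mod_cast e4
      refine (Ex_mono hp0 hpp (fun ω _ => e2 ω)).trans (le_of_eq ?_)
      rw [Ex_mul_left]
      rfl
    have e2 : 0 ≤ Ex univ p (fun ω => (((L2 ω).fr.card : ℕ) : ℝ)) :=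
      Ex_nonneg hp0 hpp (fun _ _ => Nat.cast_nonneg _)
    calc (5 * p ^ 3 - 3 * p ^ 4) * Ex univ p (fun ω => (((L2 ω).fr.card : ℕ) : ℝ))
        ≤ 5 * p ^ 3 * Ex univ p (fun ω => (((L2 ω).fr.card : ℕ) : ℝ)) := by
          apply mul_le_mul_of_nonneg_right _ e2
          have : 0 ≤ 3 * p ^ 4 := by positivity
          linarith
      _ ≤ _ := mul_le_mul_of_nonneg_left e1 (by positivity)
  -- the displacements which are not straight
  have h5 : Ex univ p (fun ω => ∑ j : Fin d × Bool, ∑ z ∈ (disp N j).erase (z3 N j),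
      (((univ : Finset (TV N d)).filter (fun a => a ∈ (L ω).D ∧ a + z ∈ (L ω).D)).card : ℝ))
      ≤ (6 * C + 1) * t ^ 3 * chi N d p := by
    rw [Ex_sum]
    have e1 : ∀ j : Fin d × Bool, Ex univ p (fun ω => ∑ z ∈ (disp N j).erase (z3 N j),
        (((univ : Finset (TV N d)).filter (fun a => a ∈ (L ω).D ∧ a + z ∈ (L ω).D)).card : ℝ))
        ≤ chi N d p * ((6 * C + 1) * t ^ 4) := by
      intro j
      rw [Ex_sum]
      refine (sum_le_sum (fun z _ => pair_bound (by omega) hp0 hp1 hL z)).trans ?_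
      rw [← mul_sum]
      apply mul_le_mul_of_nonneg_left _ (by linarith)
      have e2 := H d hd1 N h4 (by omega) (Mt N d p) hone Mt_add (pr4 N d (nb 0 j))
        ((disp N j).erase (z3 N j)) (fun z hz => mem_fib.mp (mem_of_mem_erase (mem_of_mem_erase hz)))
      have e0 : (0 : TV N d) ∉ (disp N j).erase (z3 N j) :=
        fun h => zero_notMem_fib h4 j (mem_of_mem_erase (mem_of_mem_erase h))
      rw [if_neg e0, zero_add] at e2
      have e3 := mul_le_mul_of_nonneg_left (disp_weight' (N := N) h4 hN hd4 j) hC.le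
      refine e2.trans ?_
      rw [← ht] at e3 ⊢
      linarith
    refine (sum_le_sum (fun j _ => e1 j)).trans (le_of_eq ?_)
    rw [sum_const, card_univ, Fintype.card_prod, Fintype.card_fin, Fintype.card_bool, nsmul_eq_mul]
    push_cast
    calc (d : ℝ) * 2 * (chi N d p * ((6 * C + 1) * t ^ 4))
        = 2 * (d * t) * ((6 * C + 1) * t ^ 3 * chi N d p) := by ring
      _ = _ := by rw [htd]; ring
  -- the bad places
  have h6 : Ex univ p (fun ζ => ((WW N d ζ).card : ℝ)) ≤ (C1 + C2) * t ^ 3 * chi N d p := by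
    have e1 := Ex_WW (N := N) (d := d) p hp0 hpp
    have e2 := H1 d hd2 N hE hN p hp0 hpd hchi
    have e3 := H2 d hd3 N h4 hN p hp0 hpd hchi
    have e4 : ∀ c : ℝ, c / (2 * (d : ℝ)) ^ 3 = c * t ^ 3 := by
      intro c
      rw [ht, inv_pow, div_eq_mul_inv]
    rw [e4] at e2 e3
    refine e1.trans ((add_le_add e2 e3).trans (le_of_eq ?_))
    ring
  linarith

end DUp

open DUp DLo

theorem D_up_sharp : ∃ C : ℝ, 0 < C ∧ ∃ d0 : ℕ, ∀ d ≥ d0, ∀ (N : ℕ) [NeZero N], 4 ∣ N → 8 ≤ N →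
    ∀ p : ℝ, 0 ≤ p → p ≤ 1 / d → chi N d p ≤ (2 * (d : ℝ)) ^ 4 →
    chi N d p ≤ chi 4 d p + 5 / 2 * (2 * (d : ℝ)) * p ^ 4 * chi 4 d p * chi N d p
      + C / (2 * (d : ℝ)) ^ 4 * chi N d p ^ 2 := by
  obtain ⟨C, hC, d0, H⟩ := EXL_sharp
  refine ⟨2 * C, by linarith, max d0 4, ?_⟩
  intro d hd N _ h4 hN p hp0 hpd hchi
  have hd0 : d0 ≤ d := (le_max_left _ _).trans hd
  have hd4 : 4 ≤ d := (le_max_right _ _).trans hd
  have hdR : (4 : ℝ) ≤ d := by exact_mod_cast hd4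
  have hp4 : p ≤ 1 / 4 := by
    refine hpd.trans ?_
    apply one_div_le_one_div_of_le (by norm_num) hdR
  have hpp : p ≤ 1 := by linarith
  have hchi1 : 1 ≤ chi N d p := chi_pos hp0 hpp
  obtain ⟨L, hL, h1⟩ := H d hd0 N h4 hN p hp0 hpd hchi
  have h2 := chi_le_XL hp0 hpp hL
  set t : ℝ := (2 * (d : ℝ))⁻¹ with ht
  have ht0 : 0 < t := by rw [ht]; positivity
  have hpt : p ≤ 2 * t := by
    refine hpd.trans (le_of_eq ?_)
    rw [ht]
    field_simp
  have h3 : 2 * C / (2 * (d : ℝ)) ^ 4 = 2 * C * t ^ 4 := by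
    rw [ht, inv_pow, div_eq_mul_inv]
  rw [h3]
  have h5 := mul_le_mul_of_nonneg_left h1 (mul_nonneg hp0 (by linarith : (0:ℝ) ≤ chi N d p))
  have h6 : p * chi N d p * (C * t ^ 3 * chi N d p) ≤ 2 * t * chi N d p * (C * t ^ 3 * chi N d p) := by
    gcongr
  have e1 : p * chi N d p * (5 * p ^ 3 * (d * chi 4 d p) + C * t ^ 3 * chi N d p)
      = 5 / 2 * (2 * (d : ℝ)) * p ^ 4 * chi 4 d p * chi N d p
        + p * chi N d p * (C * t ^ 3 * chi N d p) := by ring
  have e2 : 2 * t * chi N d p * (C * t ^ 3 * chi N d p) = 2 * C * t ^ 4 * chi N d p ^ 2 := by ring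
  linarith

end DDA
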