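import Pool.Agent.DDA.AsmUp2

/-!
# DDA: a giant cluster in the hypercube, and the susceptibility above it
-/

open Finset Filter

namespace DDA

set_option linter.unusedSectionVars false

/-- the sum of the cluster sizes is at least the square of the size of one cluster -/
lemma sum_cl_ge {N d : ℕ} [NeZero N] (ω : Finset (TE N d)) (x : TV N d) :
    (((T N d).cl univ ω x).card : ℝ) ^ 2 ≤ ∑ y, (((T N d).cl univ ω y).card : ℝ) := by
  have h1 : ∑ y ∈ (T N d).cl univ ω x, (((T N d).cl univ ω y).card : ℝ)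
      = (((T N d).cl univ ω x).card : ℝ) ^ 2 := by
    rw [sum_congr rfl (fun y hy => by rw [LG.cl_eq_of_mem hy]), sum_const, nsmul_eq_mul, sq]
  rw [← h1]
  exact sum_le_sum_of_subset_of_nonneg (subset_univ _) (fun _ _ _ => Nat.cast_nonneg _)

/-- two moments give a lower bound on the magnetization -/
lemma MM_univ_ge {d : ℕ} {p2 X : ℝ} (hp20 : 0 ≤ p2) (hp2 : p2 ≤ 1 / 2) (hX : 0 < X)
    (hchi : chi 4 d p2 = X) :
    1 / (2 * X) ≤ (T 4 d).MM univ p2 univ ((X ^ 2)⁻¹) 0 := by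
  have h1 := LG.MM_ge (G := T 4 d) (F := univ) hp20 (by linarith) (univ : Finset (TV 4 d))
    (by positivity : (0:ℝ) ≤ (X ^ 2)⁻¹) 0
    (fun ω => (((T 4 d).ball univ ω 0 (univ : Finset (TV 4 d)).card).card : ℝ))
    (fun ω _ => Nat.cast_nonneg _)
    (fun ω _ => le_refl _)
  have h2 := second_moment (N := 4) (d := d) (by omega) hp20 hp2 (univ : Finset (TV 4 d)).card
  rw [← chi_eq_bb, hchi] at h2
  have h3 : Ex univ p2 (fun ω =>
      (((T 4 d).ball univ ω 0 (univ : Finset (TV 4 d)).card).card : ℝ)) = X := hchi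
  rw [h3] at h1
  refine le_trans ?_ h1
  have h4 : ((X ^ 2)⁻¹) ^ 2 / 2 * Ex univ p2 (fun ω =>
        (((T 4 d).ball univ ω 0 (univ : Finset (TV 4 d)).card).card : ℝ) ^ 2)
      ≤ ((X ^ 2)⁻¹) ^ 2 / 2 * X ^ 3 := mul_le_mul_of_nonneg_left h2 (by positivity)
  have h5 : (X ^ 2)⁻¹ * X = 1 / X := by
    field_simp
  have h6 : ((X ^ 2)⁻¹) ^ 2 / 2 * X ^ 3 = 1 / X / 2 := by
    field_simp
  have h7 : 1 / (2 * X) = 1 / X / 2 := by
    field_simp
  rw [h5, h7]
  rw [h6] at h4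
  linarith

lemma aux_div {v P c : ℝ} (hP : 0 < P) (hc : 0 ≤ c) (h : 15 * v ≤ 16 * (c * P)) :
    v / (2 * P) ≤ c := by
  rw [div_le_iff₀ (by positivity)]
  have h5 : 0 ≤ c * P := by positivity
  linarith

/-- from a good configuration with probability `≥ 1/2` to a huge susceptibility -/
lemma chi_ge_of_good {d : ℕ} {X0 : ℕ} {p3 e : ℝ} (hp30 : 0 ≤ p3) (hp31 : p3 ≤ 1) (he0 : 0 ≤ e)
    (he1 : e ≤ 1) (hsum : p3 + e ≤ 1)
    (hbad : Ex univ p3 (fun ω => Pr univ e (fun η => ¬ Good (fun _ : TV 4 d => univ) X0 15 univ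
      univ ω η)) ≤ 1 / 2) :
    (4:ℝ) ^ d / (8 * (2 * (d:ℝ) + 1) ^ 30) ≤ chi 4 d (p3 + e) := by
  classical
  obtain ⟨a, ha⟩ : ∃ a : ℝ, a = (4:ℝ) ^ d / (2 * (2 * (d:ℝ) + 1) ^ 15) := ⟨_, rfl⟩
  have ha0 : 0 < a := by rw [ha]; positivity
  have hcard : ((univ : Finset (TV 4 d)).card : ℝ) = (4:ℝ) ^ d := by
    rw [card_TV4]
    push_cast
    rfl
  have hne : (univ : Finset (TV 4 d)).Nonempty := ⟨0, mem_univ _⟩
  have key : ∀ ω η : Finset (TE 4 d), a ^ 2 * (1 - (if ¬ Good (fun _ : TV 4 d => univ) X0 15 univ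
      univ ω η then (1:ℝ) else 0)) ≤ ∑ x, (((T 4 d).cl univ (ω ∪ η) x).card : ℝ) := by
    intro ω η
    by_cases hG : Good (fun _ : TV 4 d => univ) X0 15 univ univ ω η
    · rw [if_neg (not_not.mpr hG), sub_zero, mul_one]
      obtain ⟨x, _, _, hx⟩ := dense_cluster hG hne
      have h1 := nbd_card_le (N := 4) (by norm_num) (fun _ : TV 4 d => univ) X0 15 univ ω
        ((T 4 d).cl univ (ω ∪ η) x)
      have h2 : 15 * (univ : Finset (TV 4 d)).card ≤
          16 * (((T 4 d).cl univ (ω ∪ η) x).card * (2 * d + 1) ^ 15) :=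
        hx.trans (Nat.mul_le_mul_left 16 h1)
      have h3 : 15 * (4:ℝ) ^ d ≤ 16 * ((((T 4 d).cl univ (ω ∪ η) x).card : ℝ) *
          (2 * (d:ℝ) + 1) ^ 15) := by
        rw [← hcard]
        exact_mod_cast h2
      have h4 : a ≤ (((T 4 d).cl univ (ω ∪ η) x).card : ℝ) :=
        (le_of_eq ha).trans (aux_div (by positivity) (Nat.cast_nonneg _) h3)
      exact (pow_le_pow_left₀ ha0.le h4 2).trans (sum_cl_ge _ _)
    · rw [if_pos hG, sub_self, mul_zero]
      positivity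
  have h1 : a ^ 2 * (1 / 2) ≤ Ex univ p3 (fun ω => Ex univ e (fun η =>
      ∑ x, (((T 4 d).cl univ (ω ∪ η) x).card : ℝ))) := by
    calc a ^ 2 * (1 / 2) ≤ a ^ 2 * (1 - Ex univ p3 (fun ω => Pr univ e (fun η =>
            ¬ Good (fun _ : TV 4 d => univ) X0 15 univ univ ω η))) := by
          apply mul_le_mul_of_nonneg_left _ (by positivity)
          linarith
      _ = Ex univ p3 (fun ω => Ex univ e (fun η => a ^ 2 * (1 - (if ¬ Good
            (fun _ : TV 4 d => univ) X0 15 univ univ ω η then (1:ℝ) else 0)))) := by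
          have : ∀ ω, Ex univ e (fun η => a ^ 2 * (1 - (if ¬ Good
            (fun _ : TV 4 d => univ) X0 15 univ univ ω η then (1:ℝ) else 0))) =
            a ^ 2 * (1 - Pr univ e (fun η => ¬ Good (fun _ : TV 4 d => univ) X0 15 univ univ ω η)) := by
            intro ω
            rw [Ex_mul_left, Ex_sub, Ex_const]
            congr 2
            unfold Pr
            apply Ex_congr
            intro η _
            by_cases hG : Good (fun _ : TV 4 d => univ) X0 15 univ univ ω η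
            · rw [if_neg (not_not.mpr hG), if_neg (not_not.mpr hG)]
            · rw [if_pos hG, if_pos hG]
          simp only [this]
          rw [Ex_mul_left, Ex_sub, Ex_const]
      _ ≤ _ := by
          apply Ex_mono hp30 hp31
          intro ω _
          apply Ex_mono he0 he1
          intro η _
          exact key ω η
  rw [Ex_sprinkle univ (fun ω => ∑ x, (((T 4 d).cl univ ω x).card : ℝ)), sum_cl, hcard] at h1
  have hp4 : 1 - (1 - p3) * (1 - e) ≤ p3 + e := by nlinarith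
  have hp40 : 0 ≤ 1 - (1 - p3) * (1 - e) := by nlinarith [mul_nonneg hp30 (sub_nonneg.mpr he1)]
  have h2 := chi_mono (N := 4) (d := d) hp40 hp4 hsum
  refine le_trans ?_ h2
  have hV : (0:ℝ) < 4 ^ d := by positivity
  have h3 : a ^ 2 * (1 / 2) = 4 ^ d * ((4:ℝ) ^ d / (8 * (2 * (d:ℝ) + 1) ^ 30)) := by
    have : (2 * (d:ℝ) + 1) ^ 30 = ((2 * (d:ℝ) + 1) ^ 15) ^ 2 := by rw [← pow_mul]
    rw [ha, this]
    field_simp
    norm_num
  rw [h3] at h1
  exact le_of_mul_le_mul_left h1 hV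

theorem Q_giant {c0 : ℝ} (hc0 : 0 < c0) : ∀ᶠ d : ℕ in atTop, ∀ p2 : ℝ, 0 < p2 →
    p2 + 2 * c0 / (2 * (d : ℝ)) ^ 4 ≤ 1 / d → chi 4 d p2 = (2 * (d : ℝ)) ^ 224 →
    ((4 : ℝ) ^ d) ^ ((1 : ℝ) / 3) < chi 4 d (p2 + 2 * c0 / (2 * (d : ℝ)) ^ 4) := by
  obtain ⟨C, hC, hcov⟩ := coverage 56 15 (by norm_num) hc0
  simp only [show 4 * 56 = 224 from rfl, show 3 * 56 - 5 = 163 from rfl] at hcov
  filter_upwards [hcov, ev_ge 2, eventually_ge_atTop 2, ev_ge c0, ev_ge (2 ^ 19 * C),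
    ev_ge (2 ^ 52 / c0 ^ 31), ev_four_pow (2 ^ 53 / c0 ^ 31) 157,
    ev_four_pow ((9 * 2 ^ 30) ^ 3) 90]
    with d hcov hd2 hd2' hdc0 hdC hdc1 hV1 hV2
  intro p2 hp2 hp2' hchi
  obtain ⟨Om, hOm⟩ : ∃ Om : ℝ, Om = 2 * (d : ℝ) := ⟨_, rfl⟩
  rw [← hOm] at hcov hd2 hdc0 hdC hdc1 hV1 hV2 hp2' hchi ⊢
  have hOm0 : 0 < Om := by linarith
  have hOm1 : 1 ≤ Om := by linarith
  obtain ⟨V, hV⟩ : ∃ V : ℝ, V = (4:ℝ) ^ d := ⟨_, rfl⟩
  have hV0 : 0 < V := by rw [hV]; positivity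
  rw [← hV] at hV1 hV2 ⊢
  obtain ⟨e, he⟩ : ∃ e : ℝ, e = c0 / Om ^ 4 := ⟨_, rfl⟩
  have he0 : 0 < e := by rw [he]; positivity
  have he1 : e ≤ 1 := by
    rw [he, div_le_one (by positivity)]
    calc c0 ≤ Om := hdc0
      _ = Om ^ 1 := (pow_one _).symm
      _ ≤ Om ^ 4 := pow_le_pow_right₀ hOm1 (by norm_num)
  have h2e : 2 * c0 / Om ^ 4 = e + e := by
    rw [he]
    ring
  rw [← he] at hcov
  rw [h2e] at hp2' ⊢
  have hdle : (1:ℝ) / d ≤ 1 / 2 := by
    have : (2:ℝ) ≤ d := by exact_mod_cast hd2'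
    exact one_div_le_one_div_of_le (by norm_num) this
  have hp2half : p2 ≤ 1 / 2 := by linarith
  have hM := MM_univ_ge hp2.le hp2half (by positivity : (0:ℝ) < Om ^ 224) hchi
  have hcov' := hcov 4 (by decide) le_rfl univ (fun _ => univ) (mem_univ _) (fun _ => mem_univ _)
    (fun p h _ _ _ z _ y => by rw [MM_univ z, MM_univ y]) p2 hp2 (by linarith) hM
  obtain ⟨p3, hp3⟩ : ∃ p3 : ℝ, p3 = p2 + e := ⟨_, rfl⟩
  rw [← hp3] at hcov'
  have hp30 : 0 ≤ p3 := by rw [hp3]; positivity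
  have hp3e : p3 + e ≤ 1 := by rw [hp3]; linarith
  have hp31 : p3 ≤ 1 := by linarith
  have hX0 : 1 ≤ (2 * d) ^ 163 := Nat.one_le_iff_ne_zero.mpr (by
    have : 0 < d := by omega
    positivity)
  have hκ0 : 0 ≤ C / Om ^ 15 * Om ^ 8 := by positivity
  have haks := aks (N := 4) (d := d) (by norm_num) (by omega) (fun _ => univ) hX0 15 univ 0
    (fun _ => 4) (m := 4) (by norm_num) (fun _ => le_rfl) (fun _ => le_rfl)
    (fun v _ y _ => ⟨mem_univ _, subset_univ _⟩) hp30 hp31 he0.le he1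
    (fun v _ => hcov' v) hκ0
  rw [box_four] at haks
  have hcardR : ((univ : Finset (TV 4 d)).card : ℝ) = V := by
    rw [card_TV4, hV]
    push_cast
    rfl
  rw [hcardR] at haks
  have hX0' : (((2 * d) ^ 163 : ℕ) : ℝ) = Om ^ 163 := by
    rw [hOm]
    push_cast
    rfl
  rw [hX0'] at haks
  have hbad : 2 ^ 16 * ((4 : ℕ) : ℝ) * d * (C / Om ^ 15 * Om ^ 8) + (2:ℝ) ^ (V / Om ^ 163) *
      Real.exp (-(e ^ (2 * 15 + 1) * V / (2 ^ 16 * ((4 : ℕ) : ℝ) * (2 * d + 1) ^ (2 * 15 + 3))))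
      ≤ 1 / 2 := by
    have h1 : 2 ^ 16 * ((4 : ℕ) : ℝ) * d * (C / Om ^ 15 * Om ^ 8) ≤ 1 / 4 := by
      have e1 : 2 ^ 16 * ((4 : ℕ) : ℝ) * d * (C / Om ^ 15 * Om ^ 8) = 2 ^ 17 * C / Om ^ 6 := by
        have : (d:ℝ) = Om / 2 := by rw [hOm]; ring
        rw [this]
        push_cast
        field_simp
        norm_num
      rw [e1, div_le_div_iff₀ (by positivity) (by norm_num)]
      have e2 : Om ≤ Om ^ 6 := by
        calc Om = Om ^ 1 := (pow_one _).symm
          _ ≤ Om ^ 6 := pow_le_pow_right₀ hOm1 (by norm_num)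
      linarith
    have h2 : (2:ℝ) ^ (V / Om ^ 163) ≤ Real.exp (V / Om ^ 163) := by
      rw [Real.rpow_def_of_pos (by norm_num)]
      apply Real.exp_le_exp.mpr
      have : Real.log 2 ≤ 1 := by
        have := Real.log_two_lt_d9
        linarith
      have h0 : 0 ≤ V / Om ^ 163 := by positivity
      nlinarith
    have h3 : V / Om ^ 163 + 2 ≤ e ^ (2 * 15 + 1) * V /
        (2 ^ 16 * ((4 : ℕ) : ℝ) * (2 * d + 1) ^ (2 * 15 + 3)) := by
      have hden : 2 ^ 16 * ((4 : ℕ) : ℝ) * (2 * d + 1) ^ (2 * 15 + 3) ≤ 2 ^ 51 * Om ^ 33 := by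
        have : (2 * (d:ℝ) + 1) ^ (2 * 15 + 3) ≤ (2 * Om) ^ 33 := by
          apply pow_le_pow_left₀ (by positivity)
          rw [← hOm]
          linarith
        rw [mul_pow] at this
        push_cast
        calc (2:ℝ) ^ 16 * 4 * (2 * d + 1) ^ (2 * 15 + 3) ≤ 2 ^ 16 * 4 * (2 ^ 33 * Om ^ 33) := by
              apply mul_le_mul_of_nonneg_left this (by norm_num)
          _ = 2 ^ 51 * Om ^ 33 := by ring
      have hnum : e ^ (2 * 15 + 1) * V / (2 ^ 51 * Om ^ 33) ≤ e ^ (2 * 15 + 1) * V /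
          (2 ^ 16 * ((4 : ℕ) : ℝ) * (2 * d + 1) ^ (2 * 15 + 3)) := by
        apply div_le_div_of_nonneg_left (by positivity) (by positivity) hden
      refine le_trans ?_ hnum
      have e31 : e ^ (2 * 15 + 1) * V / (2 ^ 51 * Om ^ 33) = c0 ^ 31 * V / (2 ^ 51 * Om ^ 157) := by
        have : Om ^ 157 = (Om ^ 4) ^ 31 * Om ^ 33 := by rw [← pow_mul, ← pow_add]
        rw [he, this]
        norm_num [div_pow]
        field_simp
      rw [e31]
      have g1 : V / Om ^ 163 ≤ c0 ^ 31 * V / (2 ^ 51 * Om ^ 157) / 2 := by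
        rw [div_div, div_le_div_iff₀ (by positivity) (by positivity)]
        have g2 : 2 ^ 52 ≤ c0 ^ 31 * Om ^ 6 := by
          rw [div_le_iff₀ (by positivity)] at hdc1
          have e2 : Om ≤ Om ^ 6 := by
            calc Om = Om ^ 1 := (pow_one _).symm
              _ ≤ Om ^ 6 := pow_le_pow_right₀ hOm1 (by norm_num)
          have : Om * c0 ^ 31 ≤ Om ^ 6 * c0 ^ 31 := mul_le_mul_of_nonneg_right e2 (by positivity)
          linarith
        have g3 : Om ^ 163 = Om ^ 6 * Om ^ 157 := by rw [← pow_add]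
        rw [g3]
        have : V * Om ^ 157 * 2 ^ 52 ≤ V * Om ^ 157 * (c0 ^ 31 * Om ^ 6) :=
          mul_le_mul_of_nonneg_left g2 (by positivity)
        linarith
      have g4 : 2 ≤ c0 ^ 31 * V / (2 ^ 51 * Om ^ 157) / 2 := by
        rw [div_div, le_div_iff₀ (by positivity)]
        rw [div_mul_eq_mul_div, div_le_iff₀ (by positivity)] at hV1
        linarith
      linarith
    have h4 : (2:ℝ) ^ (V / Om ^ 163) * Real.exp (-(e ^ (2 * 15 + 1) * V /
        (2 ^ 16 * ((4 : ℕ) : ℝ) * (2 * d + 1) ^ (2 * 15 + 3)))) ≤ 1 / 4 := by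
      calc _ ≤ Real.exp (V / Om ^ 163) * Real.exp (-(e ^ (2 * 15 + 1) * V /
            (2 ^ 16 * ((4 : ℕ) : ℝ) * (2 * d + 1) ^ (2 * 15 + 3)))) :=
            mul_le_mul_of_nonneg_right h2 (Real.exp_pos _).le
        _ = Real.exp (V / Om ^ 163 + -(e ^ (2 * 15 + 1) * V /
            (2 ^ 16 * ((4 : ℕ) : ℝ) * (2 * d + 1) ^ (2 * 15 + 3)))) := (Real.exp_add _ _).symm
        _ ≤ Real.exp (-2) := by
            apply Real.exp_le_exp.mpr
            linarith
        _ ≤ 1 / 4 := by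
            rw [Real.exp_neg, ← one_div]
            apply one_div_le_one_div_of_le (by norm_num)
            have h5 : (2:ℝ) ≤ Real.exp 1 := by
              have := Real.add_one_le_exp (1:ℝ)
              linarith
            have h6 : Real.exp 2 = Real.exp 1 * Real.exp 1 := by
              rw [← Real.exp_add]
              norm_num
            rw [h6]
            nlinarith
    linarith
  have hres := chi_ge_of_good (d := d) hp30 hp31 he0.le he1 hp3e (haks.trans hbad)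
  have hp3' : p3 + e = p2 + (e + e) := by rw [hp3]; ring
  rw [hp3', ← hV] at hres
  refine lt_of_lt_of_le ?_ hres
  -- the final numerical comparison
  obtain ⟨W, hW⟩ : ∃ W : ℝ, W = V ^ ((1:ℝ) / 3) := ⟨_, rfl⟩
  have hW0 : 0 < W := by rw [hW]; positivity
  have hW3 : W ^ 3 = V := by
    rw [hW, ← Real.rpow_natCast, ← Real.rpow_mul hV0.le]
    norm_num
  rw [← hW]
  have hB : (2 * (d:ℝ) + 1) ^ 30 ≤ 2 ^ 30 * Om ^ 30 := by
    rw [← mul_pow]
    apply pow_le_pow_left₀ (by positivity)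
    rw [← hOm]
    linarith
  have hB0 : (1:ℝ) ≤ 2 ^ 30 * Om ^ 30 := by
    have h1 : (1:ℝ) ≤ Om ^ 30 := one_le_pow₀ hOm1
    have h2 : (1:ℝ) ≤ 2 ^ 30 := by norm_num
    exact one_le_mul_of_one_le_of_one_le h2 h1
  obtain ⟨B, hBdef⟩ : ∃ B : ℝ, B = 2 ^ 30 * Om ^ 30 := ⟨_, rfl⟩
  rw [← hBdef] at hB hB0
  have hWB : 9 * B ≤ W := by
    have h1 : (9 * B) ^ 3 ≤ W ^ 3 := by
      rw [hW3]
      refine le_trans (le_of_eq ?_) hV2
      rw [hBdef]
      have : Om ^ 90 = (Om ^ 30) ^ 3 := by rw [← pow_mul]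
      rw [this]
      ring
    exact le_of_pow_le_pow_left₀ (by norm_num) hW0.le h1
  rw [← hW3, lt_div_iff₀ (by positivity)]
  generalize (2 * (d:ℝ) + 1) ^ 30 = P at hB ⊢
  have h1 : W * (8 * P) ≤ W * (8 * B) :=
    mul_le_mul_of_nonneg_left (by linarith) hW0.le
  have h2 : W * (8 * B) < W * W := by
    apply mul_lt_mul_of_pos_left _ hW0
    linarith
  have h3 : W * W ≤ W ^ 3 := by
    have h4 : 1 ≤ W := by linarith
    have h5 : W ^ 3 = W * W * W := by ring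
    rw [h5]
    exact le_mul_of_one_le_right (mul_pos hW0 hW0).le h4
  exact lt_of_le_of_lt h1 (lt_of_lt_of_le h2 h3)

end DDA
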