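import Pool.Agent.DDA.AsmUp2
import Pool.Agent.DDA.QGiant
import Pool.Agent.DDA.DUpSharp

open Finset Filter

namespace DDA

set_option linter.unusedSectionVars false

/-- **Sharp upper bound.** -/
theorem upper_sharp {δ : ℝ} (hδ : 0 < δ) (hδ1 : δ ≤ 1) : ∀ᶠ d : ℕ in atTop, ∀ p : ℝ, 0 ≤ p →
    p ≤ 1 → chi 4 d p ≤ ((4 : ℝ) ^ d) ^ ((1 : ℝ) / 3) →
    p ≤ pcZ d + (5 / 2 + δ) / (2 * (d : ℝ)) ^ 4 := by
  obtain ⟨C, hC, dD, hD⟩ := D_up_sharp
  obtain ⟨CL, hCL, dL, hL⟩ := chi_lower 224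
  set A : ℝ := 5 / 2 + δ / 2 with hA
  have hA0 : 5 / 2 < A := by rw [hA]; linarith
  have hA1 : A ≤ 3 := by rw [hA]; linarith
  -- `c3 = 1 / A`
  set θ : ℝ := 5 / 2 / A with hθ
  have hθ1 : θ < 1 := by rw [hθ, div_lt_one (by linarith)]; exact hA0
  have hθ0 : 0 < θ := by rw [hθ]; positivity
  set g : ℝ := (1 - θ) / 4 with hg
  have hg0 : 0 < g := by rw [hg]; linarith
  set B : ℝ := 1 / (A * (2 * g)) with hB
  have hB0 : 0 < B := by positivity
  have hδ8 : 0 < δ / 8 := by positivity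
  filter_upwards [Q_giant hδ8, eventually_ge_atTop dD, eventually_ge_atTop dL,
    eventually_ge_atTop 4, ev_ge (16 * CL), ev_ge (1000 / δ), ev_ge 1000, ev_ge (B + 1),
    ev_ge (C * B / g), ev_ge (32 * (CL + 1) / g), ev_ge (32 * CL / δ)]
    with d hgi hdD hdL hd4 hdC hdδ hd1000 hdB hdCB hdg hdCδ
  set Om : ℝ := 2 * (d : ℝ) with hOm
  have hOm0 : 0 < Om := by linarith
  have hOm1 : 1 ≤ Om := by linarith
  have hdpos : (0:ℝ) < d := by
    have : 0 < d := by omega
    exact_mod_cast this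
  have hdd : (1:ℝ) / d = 2 / Om := by
    rw [hOm]
    field_simp
  have hdle : (1:ℝ) / d ≤ 1 / 2 := by
    have : (2:ℝ) ≤ d := by linarith
    exact one_div_le_one_div_of_le (by norm_num) this
  have hchi_inv : ∀ q : ℝ, 0 ≤ q → q ≤ 1 → 0 < 1 / chi 4 d q := fun q h0 h1 => by
    have := chi_ge_one (N := 4) (d := d) h0 h1
    positivity
  have hOmCL : CL ≤ Om / 16 := by linarith
  obtain ⟨X, hX⟩ : ∃ X : ℝ, X = Om ^ 224 := ⟨_, rfl⟩
  have hX3 : Om ^ 3 ≤ X := by rw [hX]; exact pow_le_pow_right₀ hOm1 (by norm_num)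
  rw [← hX] at hgi
  have hL' : ∀ q q' : ℝ, 0 ≤ q → q ≤ q' → q' ≤ 1 / d → chi 4 d q' ≤ X →
      (Om - CL) * (q' - q) ≤ 1 / chi 4 d q - 1 / chi 4 d q' := by
    intro q q' h1 h2 h3 h4
    rw [hX] at h4
    exact hL d hdL 4 (by decide) le_rfl q q' h1 h2 h3 h4
  clear hX hL
  have hOm3 : Om ≤ Om ^ 3 := by
    calc Om = Om ^ 1 := (pow_one _).symm
      _ ≤ Om ^ 3 := pow_le_pow_right₀ hOm1 (by norm_num)
  have hX1 : 1 ≤ X := by linarith
  -- the value at 1/d is large
  have hbig : X ≤ chi 4 d (1 / d) := by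
    by_contra hcon
    push Not at hcon
    have h2 := hL' 0 (1 / d) le_rfl (by positivity) le_rfl hcon.le
    rw [chi_p_zero, sub_zero, hdd] at h2
    have h3 := hchi_inv (1 / d) (by positivity) (by linarith)
    rw [hdd] at h3
    have h4 : (Om - CL) * (2 / Om) = 2 - 2 * CL / Om := by
      field_simp
    rw [h4] at h2
    have h5 : 2 * CL / Om ≤ 1 / 2 := by
      rw [div_le_iff₀ hOm0]
      linarith
    linarith
  obtain ⟨p2, hp2, hp2e⟩ : ∃ p2 ∈ Set.Icc (0:ℝ) (1 / d), chi 4 d p2 = X := by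
    have := intermediate_value_Icc (by positivity : (0:ℝ) ≤ 1 / d)
      (chi_continuous (N := 4) (d := d)).continuousOn
    exact this ⟨by simp only [chi_p_zero]; exact hX1, hbig⟩
  have hc3 : 1 ≤ Om ^ 3 / A := by
    rw [le_div_iff₀ (by linarith)]
    linarith
  have hc3X : Om ^ 3 / A ≤ X := by
    refine le_trans ?_ hX3
    exact div_le_self (by positivity) (by linarith)
  obtain ⟨ps, hps, hpse⟩ : ∃ ps ∈ Set.Icc (0:ℝ) p2, chi 4 d ps = Om ^ 3 / A := by
    have := intermediate_value_Icc hp2.1 (chi_continuous (N := 4) (d := d)).continuousOn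
    exact this ⟨by simp only [chi_p_zero]; exact hc3, by rw [hp2e]; exact hc3X⟩
  have hps0 : 0 ≤ ps := hps.1
  have hpsp2 : ps ≤ p2 := hps.2
  have hp2d : p2 ≤ 1 / d := hp2.2
  have hX0 : 0 < X := by linarith
  -- p2 ≤ 1 / (Om - CL)
  have hp2b : (Om - CL) * p2 ≤ 1 := by
    have h2 := hL' 0 p2 le_rfl hp2.1 hp2d hp2e.le
    rw [chi_p_zero, sub_zero, hp2e] at h2
    have : 0 < 1 / X := by positivity
    linarith
  have hp2c : p2 ≤ (1 + 2 * CL / Om) / Om := by
    rw [le_div_iff₀ hOm0]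
    have h1 : CL * p2 ≤ 2 * CL / Om := by
      have : p2 ≤ 2 / Om := hdd ▸ hp2d
      calc CL * p2 ≤ CL * (2 / Om) := mul_le_mul_of_nonneg_left this hCL.le
        _ = 2 * CL / Om := by ring
    linarith
  have hCLs : 2 * CL / Om ≤ 1 / 8 := by
    rw [div_le_iff₀ hOm0]
    linarith
  -- distance between ps and p2
  have hdist : p2 - ps ≤ (A + δ / 8) / Om ^ 4 := by
    have h2 := hL' ps p2 hps0 hpsp2 hp2d hp2e.le
    rw [hpse, hp2e] at h2
    have h3 : 0 < 1 / X := by positivity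
    have h4 : (Om - CL) * (p2 - ps) ≤ A / Om ^ 3 := by
      have : 1 / (Om ^ 3 / A) = A / Om ^ 3 := by
        field_simp
      linarith
    rw [le_div_iff₀ (by positivity)]
    have h5 : (p2 - ps) * Om ^ 4 * (1 - CL / Om) ≤ A := by
      have e1 : (p2 - ps) * Om ^ 4 * (1 - CL / Om) = (Om - CL) * (p2 - ps) * Om ^ 3 := by
        field_simp
      rw [e1]
      calc (Om - CL) * (p2 - ps) * Om ^ 3 ≤ A / Om ^ 3 * Om ^ 3 :=
            mul_le_mul_of_nonneg_right h4 (by positivity)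
        _ = A := by field_simp
    have h6 : CL / Om ≤ δ / 32 := by
      rw [div_le_div_iff₀ hOm0 (by norm_num)]
      rw [div_le_iff₀ hδ] at hdCδ
      linarith
    have h7 : 0 ≤ CL / Om := by positivity
    have h8 : A ≤ (A + δ / 8) * (1 - CL / Om) := by
      obtain ⟨t, ht⟩ : ∃ t : ℝ, t = CL / Om := ⟨_, rfl⟩
      rw [← ht] at h6 h7 ⊢
      have h81 : (A + δ / 8) * t ≤ 4 * (δ / 32) := by
        apply mul_le_mul (by linarith) h6 h7 (by norm_num)
      have e : (A + δ / 8) * (1 - t) = A + δ / 8 - (A + δ / 8) * t := by ring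
      rw [e]
      linarith
    have h9 : 0 < 1 - CL / Om := by linarith
    exact le_of_mul_le_mul_right (h5.trans h8) h9
  -- the tori
  have htori : ∀ (N : ℕ) [NeZero N], 4 ∣ N → 8 ≤ N → chi N d ps ≤ B * Om ^ 3 := by
    intro N _ h4 h8
    by_contra hcon
    push Not at hcon
    have hB1 : 1 ≤ B * Om ^ 3 := by
      rw [hB]
      have hg1 : g ≤ 1 / 4 := by rw [hg]; linarith
      have : A * (2 * g) ≤ 3 / 2 := by nlinarith
      rw [div_mul_eq_mul_div, one_mul, le_div_iff₀ (by positivity)]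
      linarith
    obtain ⟨q, hq, hqe⟩ : ∃ q ∈ Set.Icc (0:ℝ) ps, chi N d q = B * Om ^ 3 := by
      have := intermediate_value_Icc hps0 (chi_continuous (N := N) (d := d)).continuousOn
      exact this ⟨by simp only [chi_p_zero]; exact hB1, hcon.le⟩
    have hq0 : 0 ≤ q := hq.1
    have hqps : q ≤ ps := hq.2
    have hq4 : chi N d q ≤ Om ^ 4 := by
      rw [hqe]
      calc B * Om ^ 3 ≤ Om * Om ^ 3 := mul_le_mul_of_nonneg_right (by linarith) (by positivity)
        _ = Om ^ 4 := by ring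
    have h1 := hD d hdD N h4 h8 q hq0 (by linarith) hq4
    have h2 : chi 4 d q ≤ Om ^ 3 / A := hpse ▸ chi_mono hq0 hqps (by linarith)
    have h3 : 1 ≤ chi 4 d q := chi_ge_one hq0 (by linarith)
    rw [hqe, ← hOm] at h1
    -- bound of Om q^4 chi
    have h5 : q ≤ (1 + 2 * CL / Om) / Om := by linarith
    have h6 : q ^ 4 ≤ (1 + 2 * CL / Om) ^ 4 / Om ^ 4 := by
      rw [← div_pow]
      exact pow_le_pow_left₀ hq0 h5 4
    have h7 : (1 + 2 * CL / Om) ^ 4 ≤ 1 + 30 * (CL / Om) := by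
      obtain ⟨t, ht⟩ : ∃ t : ℝ, t = CL / Om := ⟨_, rfl⟩
      have ht0 : 0 ≤ t := by rw [ht]; positivity
      have ht1 : t ≤ 1 / 16 := by
        have : 2 * CL / Om = 2 * t := by rw [ht]; ring
        linarith
      have e : 2 * CL / Om = 2 * t := by rw [ht]; ring
      rw [e, ← ht]
      have t2 : t * t ≤ t * (1 / 16) := mul_le_mul_of_nonneg_left ht1 ht0
      have s1 : (1 + 2 * t) ^ 2 ≤ 1 + 5 * t := by
        have e1 : (1 + 2 * t) ^ 2 = 1 + 4 * t + 4 * (t * t) := by ring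
        rw [e1]
        linarith
      have s2 : (1 + 5 * t) ^ 2 ≤ 1 + 30 * t := by
        have e1 : (1 + 5 * t) ^ 2 = 1 + 10 * t + 25 * (t * t) := by ring
        rw [e1]
        linarith
      calc (1 + 2 * t) ^ 4 = ((1 + 2 * t) ^ 2) ^ 2 := by ring
        _ ≤ (1 + 5 * t) ^ 2 := pow_le_pow_left₀ (by positivity) s1 2
        _ ≤ 1 + 30 * t := s2
    have h8' : 5 / 2 * Om * q ^ 4 * chi 4 d q ≤ θ * (1 + 30 * (CL / Om)) := by
      calc 5 / 2 * Om * q ^ 4 * chi 4 d q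
          ≤ 5 / 2 * Om * ((1 + 30 * (CL / Om)) / Om ^ 4) * (Om ^ 3 / A) := by
            apply mul_le_mul _ h2 (by linarith) (by positivity)
            apply mul_le_mul_of_nonneg_left _ (by positivity)
            exact h6.trans (div_le_div_of_nonneg_right h7 (by positivity))
        _ = θ * (1 + 30 * (CL / Om)) := by
            rw [hθ]
            field_simp
    have hs30 : 30 * (CL / Om) < g := by
      rw [div_le_iff₀ hg0] at hdg
      rw [← mul_div_assoc, div_lt_iff₀ hOm0]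
      linarith
    have hs0 : 0 ≤ 30 * (CL / Om) := by positivity
    have h9 : θ * (1 + 30 * (CL / Om)) < θ + g := by
      have e1 : θ * (1 + 30 * (CL / Om)) = θ + θ * (30 * (CL / Om)) := by ring
      have e2 : θ * (30 * (CL / Om)) ≤ 1 * (30 * (CL / Om)) :=
        mul_le_mul_of_nonneg_right hθ1.le hs0
      rw [e1]
      linarith
    have h10 : C / Om ^ 4 * (B * Om ^ 3) ≤ g := by
      have : C / Om ^ 4 * (B * Om ^ 3) = C * B / Om := by
        field_simp
      rw [this, div_le_iff₀ hOm0]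
      rw [div_le_iff₀ hg0] at hdCB
      linarith
    have h12 : (1 - θ - g - g) * (B * Om ^ 3) = Om ^ 3 / A := by
      have : 1 - θ - g - g = 2 * g := by rw [hg]; ring
      rw [this, hB]
      field_simp
    have h14 : 5 / 2 * Om * q ^ 4 * chi 4 d q < θ + g := lt_of_le_of_lt h8' h9
    have hposs : 0 < B * Om ^ 3 := by positivity
    have k1 : 5 / 2 * Om * q ^ 4 * chi 4 d q * (B * Om ^ 3) < (θ + g) * (B * Om ^ 3) :=
      mul_lt_mul_of_pos_right h14 hposs
    have k2 : C / Om ^ 4 * (B * Om ^ 3) ^ 2 ≤ g * (B * Om ^ 3) := by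
      have : C / Om ^ 4 * (B * Om ^ 3) ^ 2 = C / Om ^ 4 * (B * Om ^ 3) * (B * Om ^ 3) := by ring
      rw [this]
      exact mul_le_mul_of_nonneg_right h10 hposs.le
    linarith
  have hpsZ : ps ≤ pcZ d := le_pcZ (by omega) hps0 (by linarith) (fun N _ h4 h8 => htori N h4 h8)
  -- giant cluster
  have hp20 : 0 < p2 := by
    rcases eq_or_lt_of_le hp2.1 with h | h
    · rw [← h, chi_p_zero] at hp2e
      linarith
    · exact h
  have hp2δ : p2 + 2 * (δ / 8) / Om ^ 4 ≤ 1 / d := by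
    rw [hdd]
    have h1 : 2 * (δ / 8) / Om ^ 4 ≤ 1 / 4 / Om := by
      rw [div_le_div_iff₀ (by positivity) hOm0]
      have : Om ≤ Om ^ 4 := by
        calc Om = Om ^ 1 := (pow_one _).symm
          _ ≤ Om ^ 4 := pow_le_pow_right₀ hOm1 (by norm_num)
      nlinarith
    have h2 : p2 ≤ (9 / 8) / Om := hp2c.trans (by
      apply div_le_div_of_nonneg_right _ hOm0.le
      linarith)
    have h3 : (2:ℝ) / Om = (9 / 8) / Om + 1 / 4 / Om + 5 / 8 / Om := by ring
    have h4 : 0 < 5 / 8 / Om := by positivity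
    linarith
  have hgiant := hgi p2 hp20 hp2δ hp2e
  intro p hp0 hp1 hp
  have hfin : p ≤ p2 + 2 * (δ / 8) / Om ^ 4 := by
    by_contra hcon
    push Not at hcon
    have := chi_mono (N := 4) (d := d) (by positivity : 0 ≤ p2 + 2 * (δ / 8) / Om ^ 4) hcon.le hp1
    linarith
  have e1 : 2 * (δ / 8) / Om ^ 4 = δ / 4 * (1 / Om ^ 4) := by ring
  have e2 : (A + δ / 8) / Om ^ 4 = (A + δ / 8) * (1 / Om ^ 4) := by ring
  have e3 : (5 / 2 + δ) / Om ^ 4 = (5 / 2 + δ) * (1 / Om ^ 4) := by ring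
  have e4 : 0 < 1 / Om ^ 4 := by positivity
  rw [e1] at hfin
  rw [e2] at hdist
  rw [e3]
  rw [hA] at hdist
  nlinarith

end DDA
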