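import Pool.Agent.DDA.AsmLow4

/-!
# DDA: lower bound on `p_c(ℤ^d)` from bounded torus susceptibilities
-/

open Finset Filter

namespace DDA

set_option linter.unusedSectionVars false

lemma card_cl_ge {N d : ℕ} [NeZero N] {ω : Finset (TE N d)} {y : TV N d}
    (hy : y ∈ (T N d).cl univ ω 0) (i : Fin d) :
    (y i).valMinAbs.natAbs + 1 ≤ ((T N d).cl univ ω 0).card := by
  classical
  have hex : ∃ k, y ∈ (T N d).ball univ ω 0 k := ⟨_, hy⟩
  have h1 := Nat.find_spec hex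
  rcases Nat.eq_zero_or_pos (Nat.find hex) with h0 | h0
  · rw [h0] at h1
    have h2 := (LG.mem_ball_zero.mp h1).2
    have h3 : 0 < ((T N d).cl univ ω 0).card := card_pos.mpr ⟨0, LG.self_mem_cl (mem_univ _)⟩
    rw [h2]
    simp only [Pi.zero_apply, ZMod.valMinAbs_zero, Int.natAbs_zero]
    omega
  · obtain ⟨k, hk⟩ := Nat.exists_eq_succ_of_ne_zero h0.ne'
    rw [hk] at h1
    have h2 : y ∉ (T N d).ball univ ω 0 k := Nat.find_min hex (by omega)
    rcases LG.card_ball_ge (G := T N d) (ω := ω) (mem_univ (0 : TV N d)) k with h3 | h3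
    · exact absurd (h3 ▸ h1) h2
    · have h4 := card_le_card (LG.ball_subset_cl (G := T N d) (S := univ) (ω := ω) (x := 0) (k + 1))
      have h5 := mem_bx_iff.mp (ball_subset_bx_aux h1).1 i
      omega

lemma thT_le {N d n : ℕ} [NeZero N] {p : ℝ} (hp0 : 0 ≤ p) (hp1 : p ≤ 1) (hd : 1 ≤ d) :
    n * thT N d n p ≤ chi N d p := by
  classical
  unfold thT Pr chi
  rw [← Ex_mul_left]
  apply Ex_mono hp0 hp1
  intro ω _
  by_cases h : ∃ y ∈ (T N d).cl (bx N d n) ω 0, ∃ i, (y i).valMinAbs.natAbs = n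
  · rw [if_pos h]
    obtain ⟨y, hy, i, hi⟩ := h
    have := card_cl_ge (LG.cl_mono (subset_univ _) (Subset.refl _) hy) i
    rw [hi] at this
    have h2 : n ≤ ((T N d).cl univ ω 0).card := by omega
    rw [mul_one]
    exact_mod_cast h2
  · rw [if_neg h, mul_zero]
    positivity

lemma le_pcZ {d : ℕ} (hd : 1 ≤ d) {p B : ℝ} (hp0 : 0 ≤ p) (hp1 : p ≤ 1)
    (h : ∀ (N : ℕ) [NeZero N], 4 ∣ N → 8 ≤ N → chi N d p ≤ B) : p ≤ pcZ d := by
  apply le_csSup
  · exact ⟨1, fun q ⟨hq, _⟩ => hq.2⟩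
  · refine ⟨⟨hp0, hp1⟩, ?_⟩
    apply le_antisymm _ (theta_nonneg _ _ _)
    by_contra hcon
    push Not at hcon
    set θ := theta (Zd d) 0 ⟨p, ⟨hp0, hp1⟩⟩ with hθ
    obtain ⟨n, hn⟩ := exists_nat_gt (B / θ)
    rw [div_lt_iff₀ hcon] at hn
    have hne : NeZero (4 * (2 * n + 3)) := ⟨by omega⟩
    have h1 := theta_le hd ⟨p, ⟨hp0, hp1⟩⟩ n (4 * (2 * n + 3)) (by omega)
    have h2 := thT_le (N := 4 * (2 * n + 3)) (d := d) (n := n) hp0 hp1 hd
    have h3 := h (4 * (2 * n + 3)) (Dvd.intro _ rfl) (by omega)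
    have h4 : (n:ℝ) * θ ≤ n * thT (4 * (2 * n + 3)) d n p :=
      mul_le_mul_of_nonneg_left h1 (by positivity)
    linarith

end DDA
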