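import Pool.Agent.DDA.Defs3

/-!
# DDA: a good region has a dense cluster
-/

open Finset

namespace DDA

set_option linter.unusedSectionVars false

variable {N d : ℕ} [NeZero N]

lemma mem_nbd {Sy : TV N d → Finset (TV N d)} {X0 ℓ : ℕ} {B : Finset (TV N d)}
    {ω : Finset (TE N d)} {K : Finset (TV N d)} {v : TV N d} :
    v ∈ nbd Sy X0 ℓ B ω K ↔ v ∈ B ∧ ∃ y ∈ bigU Sy X0 ω, y ∈ K ∧ nrm (y - v) ≤ ℓ := by
  classical
  unfold nbd
  rw [mem_filter]

lemma nbd_empty (Sy : TV N d → Finset (TV N d)) (X0 ℓ : ℕ) (B : Finset (TV N d))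
    (ω : Finset (TE N d)) : nbd Sy X0 ℓ B ω ∅ = ∅ := by
  ext v
  rw [mem_nbd]
  simp

lemma nbd_union (Sy : TV N d → Finset (TV N d)) (X0 ℓ : ℕ) (B : Finset (TV N d))
    (ω : Finset (TE N d)) (K K' : Finset (TV N d)) :
    nbd Sy X0 ℓ B ω (K ∪ K') = nbd Sy X0 ℓ B ω K ∪ nbd Sy X0 ℓ B ω K' := by
  ext v
  rw [mem_union, mem_nbd, mem_nbd, mem_nbd]
  constructor
  · rintro ⟨h, y, hy, hK, hn⟩
    rcases mem_union.mp hK with h' | h'
    · exact Or.inl ⟨h, y, hy, h', hn⟩
    · exact Or.inr ⟨h, y, hy, h', hn⟩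
  · rintro (⟨h, y, hy, hK, hn⟩ | ⟨h, y, hy, hK, hn⟩)
    · exact ⟨h, y, hy, mem_union_left _ hK, hn⟩
    · exact ⟨h, y, hy, mem_union_right _ hK, hn⟩

lemma ClosedIn.empty (R : Finset (TV N d)) (ω : Finset (TE N d)) : ClosedIn R ω ∅ :=
  ⟨empty_subset _, fun x hx => absurd hx (notMem_empty x)⟩

lemma ClosedIn.union {R : Finset (TV N d)} {ω : Finset (TE N d)} {K K' : Finset (TV N d)}
    (h : ClosedIn R ω K) (h' : ClosedIn R ω K') : ClosedIn R ω (K ∪ K') := by
  refine ⟨union_subset h.1 h'.1, ?_⟩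
  intro x hx y hy ha
  rcases mem_union.mp hx with h1 | h1
  · exact mem_union_left _ (h.2 x h1 y hy ha)
  · exact mem_union_right _ (h'.2 x h1 y hy ha)

lemma ClosedIn.cl (R : Finset (TV N d)) (ω : Finset (TE N d)) (x : TV N d) :
    ClosedIn R ω ((T N d).cl R ω x) :=
  ⟨LG.cl_subset, fun _ hx _ hy ha => LG.mem_cl_step hx ha hy⟩

/-- In a good region there is a cluster which is seen from most of the vertices of the core, and
whose complement is seen from few of them. -/
theorem dense_cluster {Sy : TV N d → Finset (TV N d)} {X0 ℓ : ℕ} {R B : Finset (TV N d)}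
    {ω η : Finset (TE N d)} (hG : Good Sy X0 ℓ R B ω η) (hB : B.Nonempty) :
    ∃ x ∈ R, 16 * (nbd Sy X0 ℓ B ω (R \ (T N d).cl R (ω ∪ η) x)).card ≤ B.card ∧
      15 * B.card ≤ 16 * (nbd Sy X0 ℓ B ω ((T N d).cl R (ω ∪ η) x)).card := by
  classical
  by_contra hcon
  push Not at hcon
  have hBpos : 0 < B.card := card_pos.mpr hB
  have hlight1 : ∀ x ∈ R, 16 * (nbd Sy X0 ℓ B ω ((T N d).cl R (ω ∪ η) x)).card ≤ B.card := by
    intro x hx
    rcases hG _ (ClosedIn.cl R (ω ∪ η) x) with h | h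
    · exact h.1
    · exact absurd h.2 (not_le.mpr (hcon x hx h.1))
  have key : ∀ S : Finset (TV N d), S ⊆ R →
      ClosedIn R (ω ∪ η) (S.biUnion (fun x => (T N d).cl R (ω ∪ η) x)) ∧
      16 * (nbd Sy X0 ℓ B ω (S.biUnion (fun x => (T N d).cl R (ω ∪ η) x))).card ≤ B.card ∧
      15 * B.card ≤ 16 * (nbd Sy X0 ℓ B ω
        (R \ S.biUnion (fun x => (T N d).cl R (ω ∪ η) x))).card := by
    intro S
    induction S using Finset.induction_on with
    | empty =>
      intro _
      rw [biUnion_empty]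
      refine ⟨ClosedIn.empty _ _, ?_⟩
      rcases hG _ (ClosedIn.empty R (ω ∪ η)) with h | h
      · exact h
      · exfalso
        have h2 := h.2
        rw [nbd_empty, card_empty] at h2
        omega
    | insert x S hx ih =>
      intro hS
      obtain ⟨h1, h2, _⟩ := ih ((subset_insert _ _).trans hS)
      have hxR : x ∈ R := hS (mem_insert_self _ _)
      rw [biUnion_insert]
      have hc := (ClosedIn.cl R (ω ∪ η) x).union h1
      refine ⟨hc, ?_⟩
      rcases hG _ hc with h | h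
      · exact h
      · exfalso
        have h3 := h.2
        rw [nbd_union] at h3
        have h4 := card_union_le (nbd Sy X0 ℓ B ω ((T N d).cl R (ω ∪ η) x))
          (nbd Sy X0 ℓ B ω (S.biUnion (fun x => (T N d).cl R (ω ∪ η) x)))
        have h5 := hlight1 x hxR
        omega
  obtain ⟨_, _, h3⟩ := key R (Subset.refl _)
  have h4 : R \ R.biUnion (fun x => (T N d).cl R (ω ∪ η) x) = ∅ := by
    rw [sdiff_eq_empty_iff_subset]
    intro x hx
    exact mem_biUnion.mpr ⟨x, hx, LG.self_mem_cl hx⟩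
  rw [h4, nbd_empty, card_empty] at h3
  omega

end DDA
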