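import Pool.Agent.DDA.AsmUp1
import Pool.Agent.DDA.Dense

/-!
# DDA: a giant cluster in the hypercube
-/

open Finset Filter

namespace DDA

set_option linter.unusedSectionVars false

/-- four to the power `d` beats polynomials -/
lemma ev_four_pow (A : ℝ) (m : ℕ) : ∀ᶠ d : ℕ in atTop, A * (2 * (d : ℝ)) ^ m ≤ (4 : ℝ) ^ d := by
  have h1 : Tendsto (fun d : ℕ => (d : ℝ) ^ m / (4:ℝ) ^ d) atTop (nhds 0) :=
    tendsto_pow_const_div_const_pow_of_one_lt m (by norm_num)
  have h2 : Tendsto (fun d : ℕ => A * 2 ^ m * ((d : ℝ) ^ m / (4:ℝ) ^ d)) atTop (nhds (A * 2 ^ m * 0)) :=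
    h1.const_mul _
  rw [mul_zero] at h2
  have h3 := h2.eventually_le_const (zero_lt_one)
  filter_upwards [h3] with d hd
  have h4 : (0:ℝ) < (4:ℝ) ^ d := by positivity
  have h5 : A * 2 ^ m * ((d : ℝ) ^ m / (4:ℝ) ^ d) = A * (2 * (d : ℝ)) ^ m / (4:ℝ) ^ d := by
    rw [mul_pow]
    ring
  rw [h5, div_le_one h4] at hd
  exact hd

lemma box_four (d : ℕ) : box (0 : TV 4 d) (fun _ => 4) = univ := by
  ext x
  simp only [box, mem_filter, mem_univ, true_and, iff_true]
  intro i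
  exact ZMod.val_lt _

lemma card_TV4 (d : ℕ) : (univ : Finset (TV 4 d)).card = 4 ^ d := by
  simp [ZMod.card]

/-- sum of the cluster sizes -/
lemma sum_cl {N d : ℕ} [NeZero N] (p : ℝ) :
    Ex univ p (fun ω => ∑ x, (((T N d).cl univ ω x).card : ℝ))
      = ((univ : Finset (TV N d)).card : ℝ) * chi N d p := by
  rw [Ex_sum]
  have : ∀ x ∈ (univ : Finset (TV N d)),
      Ex univ p (fun ω => (((T N d).cl univ ω x).card : ℝ)) = chi N d p := by
    intro x _
    have h := Ex_cl_translate (univ : Finset (TV N d)) x 0 p (mem_univ _) (fun n => (n:ℝ))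
    rw [zero_add, image_univ_add] at h
    exact h
  rw [sum_congr rfl this, sum_const, nsmul_eq_mul]

/-- a dense cluster is large -/
lemma nbd_card_le {N d : ℕ} [NeZero N] (hN : 3 ≤ N) (Sy : TV N d → Finset (TV N d)) (X0 ℓ : ℕ)
    (B : Finset (TV N d)) (ω : Finset (TE N d)) (K : Finset (TV N d)) :
    (nbd Sy X0 ℓ B ω K).card ≤ K.card * (2 * d + 1) ^ ℓ := by
  classical
  have h1 : nbd Sy X0 ℓ B ω K ⊆ K.biUnion (fun y =>
      ((univ : Finset (TV N d)).filter (fun z => nrm z ≤ ℓ)).image (fun z => y - z)) := by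
    intro v hv
    obtain ⟨_, y, _, hyK, hn⟩ := mem_nbd.mp hv
    refine mem_biUnion.mpr ⟨y, hyK, mem_image.mpr ⟨y - v, ?_, by simp⟩⟩
    exact mem_filter.mpr ⟨mem_univ _, hn⟩
  refine (card_le_card h1).trans ?_
  exact card_biUnion_le_card_mul _ _ _ (fun y _ => card_image_le.trans (AK.card_nrm_le hN ℓ))

end DDA
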