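import Pool.Agent.DDA.Prob

/-!
# DDA: clusters in labelled graphs

A labelled graph is given by the two endpoint maps `s, t : E → V`.  `G.ball S ω x k` is the set of
the vertices which are joined to `x` by a path of at most `k` edges of `ω` all whose vertices lie in
the finite set `S`; `G.cl S ω x` is the cluster of `x` inside `S`.
-/

open Finset

namespace DDA

set_option linter.unusedSectionVars false

structure LG (V E : Type*) where
  s : E → V
  t : E → V

namespace LG

variable {V E : Type*} [DecidableEq V] [DecidableEq E] (G : LG V E)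

/-- the edge `e` joins `x` and `y` -/
def J (e : E) (x y : V) : Prop := (G.s e = x ∧ G.t e = y) ∨ (G.s e = y ∧ G.t e = x)

/-- `x` and `y` are joined by an edge of `ω` -/
def Adj (ω : Finset E) (x y : V) : Prop := ∃ e ∈ ω, G.J e x y

open Classical in
/-- vertices joined to `x` by a path of at most `k` edges of `ω`, inside `S` -/
noncomputable def ball (S : Finset V) (ω : Finset E) (x : V) : ℕ → Finset V
  | 0 => S.filter (fun y => y = x)
  | k + 1 => ball S ω x k ∪ S.filter (fun y => ∃ z ∈ ball S ω x k, G.Adj ω z y)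

/-- the cluster of `x` inside `S` -/
noncomputable def cl (S : Finset V) (ω : Finset E) (x : V) : Finset V := G.ball S ω x S.card

/-- both endpoints of `e` are in `S` -/
def In (S : Finset V) (e : E) : Prop := G.s e ∈ S ∧ G.t e ∈ S

/-- the edges of `F` which have both endpoints in `S` -/
def ins (S : Finset V) (F : Finset E) : Finset E := F.filter (fun e => G.s e ∈ S ∧ G.t e ∈ S)

variable {G}

lemma mem_ins {S : Finset V} {F : Finset E} {e : E} :
    e ∈ G.ins S F ↔ e ∈ F ∧ G.s e ∈ S ∧ G.t e ∈ S := by simp [ins]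

lemma J_comm {e : E} {x y : V} : G.J e x y ↔ G.J e y x := by
  unfold J
  tauto

lemma Adj_comm {ω : Finset E} {x y : V} : G.Adj ω x y ↔ G.Adj ω y x := by
  unfold Adj
  simp only [J_comm]

lemma Adj.mono {ω ω' : Finset E} (h : ω ⊆ ω') {x y : V} (hxy : G.Adj ω x y) : G.Adj ω' x y := by
  obtain ⟨e, he, hj⟩ := hxy
  exact ⟨e, h he, hj⟩

lemma mem_ball_zero {S : Finset V} {ω : Finset E} {x y : V} :
    y ∈ G.ball S ω x 0 ↔ y ∈ S ∧ y = x := by
  simp [ball]

lemma mem_ball_succ {S : Finset V} {ω : Finset E} {x y : V} {k : ℕ} :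
    y ∈ G.ball S ω x (k + 1) ↔
      y ∈ G.ball S ω x k ∨ (y ∈ S ∧ ∃ z ∈ G.ball S ω x k, G.Adj ω z y) := by
  simp [ball]

lemma ball_subset {S : Finset V} {ω : Finset E} {x : V} {k : ℕ} : G.ball S ω x k ⊆ S := by
  induction k with
  | zero =>
    intro y hy
    exact (mem_ball_zero.mp hy).1
  | succ k ih =>
    intro y hy
    rcases mem_ball_succ.mp hy with h | h
    · exact ih h
    · exact h.1

lemma ball_mono_k {S : Finset V} {ω : Finset E} {x : V} {k l : ℕ} (h : k ≤ l) :
    G.ball S ω x k ⊆ G.ball S ω x l := by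
  induction l, h using Nat.le_induction with
  | base => exact Subset.refl _
  | succ l _ ih =>
    intro y hy
    exact mem_ball_succ.mpr (Or.inl (ih hy))

lemma ball_mono {S S' : Finset V} {ω ω' : Finset E} {x : V} {k : ℕ} (hS : S ⊆ S') (hω : ω ⊆ ω') :
    G.ball S ω x k ⊆ G.ball S' ω' x k := by
  induction k with
  | zero =>
    intro y hy
    obtain ⟨h1, h2⟩ := mem_ball_zero.mp hy
    exact mem_ball_zero.mpr ⟨hS h1, h2⟩
  | succ k ih =>
    intro y hy
    rcases mem_ball_succ.mp hy with h | ⟨h1, z, hz, ha⟩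
    · exact mem_ball_succ.mpr (Or.inl (ih h))
    · exact mem_ball_succ.mpr (Or.inr ⟨hS h1, z, ih hz, ha.mono hω⟩)

lemma self_mem_ball {S : Finset V} {ω : Finset E} {x : V} {k : ℕ} (hx : x ∈ S) :
    x ∈ G.ball S ω x k := ball_mono_k (Nat.zero_le k) (mem_ball_zero.mpr ⟨hx, rfl⟩)

lemma base_mem_of_mem {S : Finset V} {ω : Finset E} {x y : V} {k : ℕ} (h : y ∈ G.ball S ω x k) :
    x ∈ S := by
  induction k generalizing y with
  | zero =>
    obtain ⟨h1, h2⟩ := mem_ball_zero.mp h
    exact h2 ▸ h1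
  | succ k ih =>
    rcases mem_ball_succ.mp h with h | ⟨h1, z, hz, ha⟩
    · exact ih h
    · exact ih hz

lemma ball_empty_of_notMem {S : Finset V} {ω : Finset E} {x : V} {k : ℕ} (hx : x ∉ S) :
    G.ball S ω x k = ∅ := by
  ext y
  simp only [notMem_empty, iff_false]
  exact fun h => hx (base_mem_of_mem h)

lemma mem_ball_step {S : Finset V} {ω : Finset E} {x y z : V} {k : ℕ} (h : y ∈ G.ball S ω x k)
    (ha : G.Adj ω y z) (hz : z ∈ S) : z ∈ G.ball S ω x (k + 1) :=
  mem_ball_succ.mpr (Or.inr ⟨hz, y, h, ha⟩)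

lemma mem_ball_trans {S : Finset V} {ω : Finset E} {x y z : V} {k l : ℕ}
    (h : y ∈ G.ball S ω x k) (h' : z ∈ G.ball S ω y l) : z ∈ G.ball S ω x (k + l) := by
  induction l generalizing z with
  | zero =>
    obtain ⟨_, h2⟩ := mem_ball_zero.mp h'
    exact h2 ▸ h
  | succ l ih =>
    rcases mem_ball_succ.mp h' with h1 | ⟨h1, w, hw, ha⟩
    · exact ball_mono_k (by omega) (ih h1)
    · exact mem_ball_step (ih hw) ha h1

lemma mem_ball_symm {S : Finset V} {ω : Finset E} {x y : V} {k : ℕ} (h : y ∈ G.ball S ω x k) :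
    x ∈ G.ball S ω y k := by
  induction k generalizing y with
  | zero =>
    obtain ⟨h1, h2⟩ := mem_ball_zero.mp h
    subst h2
    exact mem_ball_zero.mpr ⟨h1, rfl⟩
  | succ k ih =>
    rcases mem_ball_succ.mp h with h | ⟨h1, z, hz, ha⟩
    · exact ball_mono_k (Nat.le_succ k) (ih h)
    · have h2 : z ∈ G.ball S ω y 1 :=
        mem_ball_step (self_mem_ball (k := 0) h1) (Adj_comm.mp ha) (ball_subset hz)
      have := mem_ball_trans h2 (ih hz)
      rwa [add_comm] at this

lemma mem_ball_comm {S : Finset V} {ω : Finset E} {x y : V} {k : ℕ} :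
    y ∈ G.ball S ω x k ↔ x ∈ G.ball S ω y k := ⟨mem_ball_symm, mem_ball_symm⟩

/-- `ball S ω x k` only depends on the edges inside `S` -/
lemma ball_congr {S : Finset V} {ω ω' : Finset E} {x : V} {k : ℕ}
    (h : ∀ e, G.In S e → (e ∈ ω ↔ e ∈ ω')) : G.ball S ω x k = G.ball S ω' x k := by
  induction k with
  | zero => rfl
  | succ k ih =>
    ext y
    rw [mem_ball_succ, mem_ball_succ, ih]
    constructor
    · rintro (h1 | ⟨h1, z, hz, e, he, hj⟩)
      · exact Or.inl h1
      · refine Or.inr ⟨h1, z, hz, e, (h e ?_).mp he, hj⟩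
        have hzS := ball_subset hz
        rcases hj with ⟨a, b⟩ | ⟨a, b⟩
        · exact ⟨a ▸ hzS, b ▸ h1⟩
        · exact ⟨a ▸ h1, b ▸ hzS⟩
    · rintro (h1 | ⟨h1, z, hz, e, he, hj⟩)
      · exact Or.inl h1
      · refine Or.inr ⟨h1, z, hz, e, (h e ?_).mpr he, hj⟩
        have hzS := ball_subset hz
        rcases hj with ⟨a, b⟩ | ⟨a, b⟩
        · exact ⟨a ▸ hzS, b ▸ h1⟩
        · exact ⟨a ▸ h1, b ▸ hzS⟩

lemma ball_ins {S : Finset V} {ω F : Finset E} {x : V} {k : ℕ} (hω : ω ⊆ F) :
    G.ball S (ω ∩ G.ins S F) x k = G.ball S ω x k := by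
  apply ball_congr
  rintro e ⟨h1, h2⟩
  rw [mem_inter, mem_ins]
  exact ⟨fun h => h.1, fun h => ⟨h, hω h, h1, h2⟩⟩

/-- locality of the exploration of a ball: it is determined by the edges which touch it. -/
lemma ball_local {S : Finset V} {ω ω' : Finset E} {x : V} {k : ℕ}
    (h : ∀ e, G.In S e → ¬ G.In (S \ G.ball S ω x k) e → (e ∈ ω ↔ e ∈ ω')) {j : ℕ} (hj : j ≤ k) :
    G.ball S ω' x j = G.ball S ω x j := by
  induction j with
  | zero => rfl
  | succ j ih =>
    have ih' := ih (by omega)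
    ext y
    rw [mem_ball_succ, mem_ball_succ, ih']
    have key : ∀ z ∈ G.ball S ω x j, ∀ e, G.J e z y → y ∈ S → (e ∈ ω ↔ e ∈ ω') := by
      intro z hz e hj' hy
      have hzS := ball_subset hz
      have hzk : z ∈ G.ball S ω x k := ball_mono_k (by omega) hz
      apply h
      · rcases hj' with ⟨a, b⟩ | ⟨a, b⟩
        · exact ⟨a ▸ hzS, b ▸ hy⟩
        · exact ⟨a ▸ hy, b ▸ hzS⟩
      · rintro ⟨h1, h2⟩
        rcases hj' with ⟨a, b⟩ | ⟨a, b⟩
        · rw [a] at h1
          exact (mem_sdiff.mp h1).2 hzk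
        · rw [b] at h2
          exact (mem_sdiff.mp h2).2 hzk
    constructor
    · rintro (h1 | ⟨h1, z, hz, e, he, hj'⟩)
      · exact Or.inl h1
      · exact Or.inr ⟨h1, z, hz, e, (key z hz e hj' h1).mpr he, hj'⟩
    · rintro (h1 | ⟨h1, z, hz, e, he, hj'⟩)
      · exact Or.inl h1
      · exact Or.inr ⟨h1, z, hz, e, (key z hz e hj' h1).mp he, hj'⟩

/-- first step of a path -/
lemma first_step {S : Finset V} {ω : Finset E} {x y : V} {k : ℕ} (h : y ∈ G.ball S ω x (k + 1))
    (hne : y ≠ x) : ∃ e ∈ ω, ∃ z, z ≠ x ∧ G.J e x z ∧ y ∈ G.ball (S \ {x}) ω z k := by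
  induction k generalizing y with
  | zero =>
    rcases mem_ball_succ.mp h with h | ⟨h1, z, hz, e, he, hj⟩
    · exact absurd (mem_ball_zero.mp h).2 hne
    · obtain ⟨_, rfl⟩ := mem_ball_zero.mp hz
      refine ⟨e, he, y, hne, hj, mem_ball_zero.mpr ⟨?_, rfl⟩⟩
      rw [mem_sdiff, mem_singleton]
      exact ⟨h1, hne⟩
  | succ k ih =>
    rcases mem_ball_succ.mp h with h | ⟨h1, z, hz, hadj⟩
    · obtain ⟨e, he, z, hz, hj, hy⟩ := ih h hne
      exact ⟨e, he, z, hz, hj, ball_mono_k (Nat.le_succ _) hy⟩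
    · by_cases hzx : z = x
      · subst hzx
        obtain ⟨e, he, hj⟩ := hadj
        refine ⟨e, he, y, hne, hj, ball_mono_k (Nat.zero_le _) (mem_ball_zero.mpr ⟨?_, rfl⟩)⟩
        rw [mem_sdiff, mem_singleton]
        exact ⟨h1, hne⟩
      · obtain ⟨e, he, w, hw, hj, hy⟩ := ih hz hzx
        refine ⟨e, he, w, hw, hj, mem_ball_step hy hadj ?_⟩
        rw [mem_sdiff, mem_singleton]
        exact ⟨h1, hne⟩

/-- if the ball does not grow at step `k`, it never grows again -/
lemma ball_stable {S : Finset V} {ω : Finset E} {x : V} {k : ℕ}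
    (h : G.ball S ω x (k + 1) = G.ball S ω x k) {l : ℕ} (hl : k ≤ l) :
    G.ball S ω x l = G.ball S ω x k := by
  induction l, hl using Nat.le_induction with
  | base => rfl
  | succ l hl ih =>
    ext y
    rw [mem_ball_succ, ih, ← mem_ball_succ, h]

lemma card_ball_ge {S : Finset V} {ω : Finset E} {x : V} (hx : x ∈ S) (k : ℕ) :
    G.ball S ω x (k + 1) = G.ball S ω x k ∨ k + 2 ≤ (G.ball S ω x (k + 1)).card := by
  induction k with
  | zero =>
    by_cases h : G.ball S ω x 1 = G.ball S ω x 0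
    · exact Or.inl h
    · right
      have h0 : G.ball S ω x 0 = {x} := by
        ext y
        rw [mem_ball_zero, mem_singleton]
        constructor
        · exact fun h => h.2
        · rintro rfl
          exact ⟨hx, rfl⟩
      have h1 : G.ball S ω x 0 ⊂ G.ball S ω x 1 :=
        Finset.ssubset_iff_subset_ne.mpr ⟨ball_mono_k (Nat.zero_le _), fun h' => h h'.symm⟩
      have := card_lt_card h1
      rw [h0, card_singleton] at this
      exact this
  | succ k ih =>
    by_cases h : G.ball S ω x (k + 1 + 1) = G.ball S ω x (k + 1)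
    · exact Or.inl h
    · right
      have h1 : G.ball S ω x (k + 1) ⊂ G.ball S ω x (k + 1 + 1) :=
        Finset.ssubset_iff_subset_ne.mpr ⟨ball_mono_k (Nat.le_succ _), fun h' => h h'.symm⟩
      have h2 := card_lt_card h1
      rcases ih with h3 | h3
      · exact absurd ((ball_stable h3 (by omega)).trans h3.symm) h
      · omega

lemma ball_subset_cl {S : Finset V} {ω : Finset E} {x : V} (k : ℕ) :
    G.ball S ω x k ⊆ G.cl S ω x := by
  by_cases hx : x ∈ S
  · unfold cl
    -- there is a step `j ≤ card S` at which the ball is stable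
    have : ∃ j ≤ S.card, G.ball S ω x (j + 1) = G.ball S ω x j := by
      by_contra hcon
      push Not at hcon
      have h1 := hcon S.card le_rfl
      rcases card_ball_ge (G := G) (ω := ω) hx S.card with h | h
      · exact h1 h
      · have := card_le_card (ball_subset (G := G) (S := S) (ω := ω) (x := x) (k := S.card + 1))
        omega
    obtain ⟨j, hj, hst⟩ := this
    by_cases hk : k ≤ S.card
    · exact ball_mono_k hk
    · rw [ball_stable hst (show j ≤ k by omega)]
      exact ball_mono_k hj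
  · rw [ball_empty_of_notMem hx]
    exact empty_subset _

lemma mem_cl_iff {S : Finset V} {ω : Finset E} {x y : V} :
    y ∈ G.cl S ω x ↔ ∃ k, y ∈ G.ball S ω x k :=
  ⟨fun h => ⟨_, h⟩, fun ⟨k, hk⟩ => ball_subset_cl k hk⟩

lemma ball_eq_cl {S : Finset V} {ω : Finset E} {x : V} {k : ℕ} (hk : S.card ≤ k) :
    G.ball S ω x k = G.cl S ω x :=
  Subset.antisymm (ball_subset_cl k) (ball_mono_k hk)

lemma cl_subset {S : Finset V} {ω : Finset E} {x : V} : G.cl S ω x ⊆ S := ball_subset

lemma self_mem_cl {S : Finset V} {ω : Finset E} {x : V} (hx : x ∈ S) : x ∈ G.cl S ω x :=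
  self_mem_ball hx

lemma cl_empty_of_notMem {S : Finset V} {ω : Finset E} {x : V} (hx : x ∉ S) :
    G.cl S ω x = ∅ := ball_empty_of_notMem hx

lemma mem_cl_symm {S : Finset V} {ω : Finset E} {x y : V} (h : y ∈ G.cl S ω x) :
    x ∈ G.cl S ω y := mem_ball_symm h

lemma mem_cl_trans {S : Finset V} {ω : Finset E} {x y z : V} (h : y ∈ G.cl S ω x)
    (h' : z ∈ G.cl S ω y) : z ∈ G.cl S ω x := ball_subset_cl _ (mem_ball_trans h h')

lemma mem_cl_step {S : Finset V} {ω : Finset E} {x y z : V} (h : y ∈ G.cl S ω x)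
    (ha : G.Adj ω y z) (hz : z ∈ S) : z ∈ G.cl S ω x := ball_subset_cl _ (mem_ball_step h ha hz)

lemma cl_eq_of_mem {S : Finset V} {ω : Finset E} {x y : V} (h : y ∈ G.cl S ω x) :
    G.cl S ω y = G.cl S ω x := by
  ext z
  exact ⟨fun h' => mem_cl_trans h h', fun h' => mem_cl_trans (mem_cl_symm h) h'⟩

lemma cl_mono {S S' : Finset V} {ω ω' : Finset E} {x : V} (hS : S ⊆ S') (hω : ω ⊆ ω') :
    G.cl S ω x ⊆ G.cl S' ω' x :=
  (ball_mono hS hω).trans (ball_subset_cl _)

lemma cl_congr {S : Finset V} {ω ω' : Finset E} {x : V}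
    (h : ∀ e, G.In S e → (e ∈ ω ↔ e ∈ ω')) : G.cl S ω x = G.cl S ω' x := ball_congr h

lemma cl_ins {S : Finset V} {ω F : Finset E} {x : V} (hω : ω ⊆ F) :
    G.cl S (ω ∩ G.ins S F) x = G.cl S ω x := ball_ins hω

/-- locality of the exploration of a cluster -/
lemma cl_local {S : Finset V} {ω ω' : Finset E} {x : V}
    (h : ∀ e, G.In S e → ¬ G.In (S \ G.cl S ω x) e → (e ∈ ω ↔ e ∈ ω')) :
    G.cl S ω' x = G.cl S ω x := ball_local h le_rfl

/-- the cluster in the complement of a set which is closed for the open edges -/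
lemma ball_off {S A : Finset V} {ω : Finset E} {x : V} {k : ℕ}
    (hA : ∀ a ∈ A, ∀ y ∈ S, G.Adj ω a y → y ∈ A) (hx : x ∉ A) :
    G.ball (S \ A) ω x k = G.ball S ω x k := by
  apply Subset.antisymm (ball_mono sdiff_subset (Subset.refl _))
  induction k with
  | zero =>
    intro y hy
    obtain ⟨h1, h2⟩ := mem_ball_zero.mp hy
    subst h2
    exact mem_ball_zero.mpr ⟨mem_sdiff.mpr ⟨h1, hx⟩, rfl⟩
  | succ k ih =>
    intro y hy
    rcases mem_ball_succ.mp hy with h | ⟨h1, z, hz, ha⟩
    · exact mem_ball_succ.mpr (Or.inl (ih h))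
    · have hz' := ih hz
      refine mem_ball_succ.mpr (Or.inr ⟨mem_sdiff.mpr ⟨h1, fun hyA => ?_⟩, z, hz', ha⟩)
      have := hA y hyA z (mem_sdiff.mp (ball_subset hz')).1 (Adj_comm.mp ha)
      exact (mem_sdiff.mp (ball_subset hz')).2 this

lemma cl_off {S A : Finset V} {ω : Finset E} {x : V}
    (hA : ∀ a ∈ A, ∀ y ∈ S, G.Adj ω a y → y ∈ A) (hx : x ∉ A) :
    G.cl (S \ A) ω x = G.cl S ω x := by
  apply Subset.antisymm (cl_mono sdiff_subset (Subset.refl _))
  unfold cl
  rw [← ball_off hA hx]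
  exact ball_subset_cl _

lemma cl_closed {S : Finset V} {ω : Finset E} {x : V} :
    ∀ a ∈ G.cl S ω x, ∀ y ∈ S, G.Adj ω a y → y ∈ G.cl S ω x :=
  fun _ ha _ hy hadj => mem_cl_step ha hadj hy

/-- **Path lemma.**  If `y` is within distance `k` of `x`, there is a vertex set `P` (a path) such
that every `w ∈ P` is joined to `x` and to `y` by disjoint sets of open edges inside `P`. -/
theorem path_exists {S : Finset V} {ω : Finset E} {x y : V} {k : ℕ} (h : y ∈ G.ball S ω x k) :
    ∃ P ⊆ G.ball S ω x k, x ∈ P ∧ y ∈ P ∧ ∀ w ∈ P, ∃ I J : Finset E, I ⊆ ω ∧ J ⊆ ω ∧ Disjoint I J ∧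
      (∀ e ∈ I, G.In P e) ∧ (∀ e ∈ J, G.In P e) ∧ w ∈ G.ball P I x k ∧ y ∈ G.ball P J w k := by
  induction k generalizing y with
  | zero =>
    obtain ⟨h1, rfl⟩ := mem_ball_zero.mp h
    refine ⟨{y}, ?_, mem_singleton_self _, mem_singleton_self _, ?_⟩
    · intro w hw
      rw [mem_singleton] at hw
      subst hw
      exact h
    · intro w hw
      rw [mem_singleton] at hw
      subst hw
      exact ⟨∅, ∅, empty_subset _, empty_subset _, disjoint_empty_left _, by simp, by simp,
        self_mem_ball (mem_singleton_self _), self_mem_ball (mem_singleton_self _)⟩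
  | succ k ih =>
    by_cases hk : y ∈ G.ball S ω x k
    · obtain ⟨P, hP, hx, hy, hw⟩ := ih hk
      refine ⟨P, hP.trans (ball_mono_k (Nat.le_succ k)), hx, hy, ?_⟩
      intro w hwP
      obtain ⟨I, J, h1, h2, h3, h4, h5, h6, h7⟩ := hw w hwP
      exact ⟨I, J, h1, h2, h3, h4, h5, ball_mono_k (Nat.le_succ k) h6,
        ball_mono_k (Nat.le_succ k) h7⟩
    · rcases mem_ball_succ.mp h with h' | ⟨h1, z, hz, e, he, hj⟩
      · exact absurd h' hk
      · obtain ⟨P, hP, hx, hzP, hw⟩ := ih hz
        have hyP : y ∉ P := fun h' => hk (hP h')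
        have heP : ¬ G.In P e := by
          rintro ⟨a, b⟩
          rcases hj with ⟨a', b'⟩ | ⟨a', b'⟩
          · exact hyP (b' ▸ b)
          · exact hyP (a' ▸ a)
        have heP' : G.In (insert y P) e := by
          rcases hj with ⟨a', b'⟩ | ⟨a', b'⟩
          · exact ⟨mem_insert_of_mem (a' ▸ hzP), b' ▸ mem_insert_self _ _⟩
          · exact ⟨a' ▸ mem_insert_self _ _, mem_insert_of_mem (b' ▸ hzP)⟩
        have hPm : ∀ e', G.In P e' → G.In (insert y P) e' :=
          fun e' h' => ⟨mem_insert_of_mem h'.1, mem_insert_of_mem h'.2⟩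
        refine ⟨insert y P, ?_, mem_insert_of_mem hx, mem_insert_self _ _, ?_⟩
        · intro w hw'
          rcases mem_insert.mp hw' with rfl | hw'
          · exact h
          · exact ball_mono_k (Nat.le_succ k) (hP hw')
        · intro w hw'
          rcases mem_insert.mp hw' with rfl | hwP
          · obtain ⟨I, J, h1', h2', h3', h4', h5', h6', h7'⟩ := hw z hzP
            refine ⟨insert e I, ∅, insert_subset he h1', empty_subset _, disjoint_empty_right _,
              ?_, by simp, ?_, self_mem_ball (mem_insert_self _ _)⟩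
            · intro e' he'
              rcases mem_insert.mp he' with rfl | he'
              · exact heP'
              · exact hPm _ (h4' _ he')
            · refine mem_ball_step (y := z) ?_ ⟨e, mem_insert_self _ _, hj⟩ (mem_insert_self _ _)
              exact ball_mono (subset_insert _ _) (subset_insert _ _) h6'
          · obtain ⟨I, J, h1', h2', h3', h4', h5', h6', h7'⟩ := hw w hwP
            refine ⟨I, insert e J, h1', insert_subset he h2', ?_, fun e' he' => hPm _ (h4' _ he'),
              ?_, ?_, ?_⟩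
            · rw [disjoint_insert_right]
              exact ⟨fun h' => heP (h4' _ h'), h3'⟩
            · intro e' he'
              rcases mem_insert.mp he' with rfl | he'
              · exact heP'
              · exact hPm _ (h5' _ he')
            · exact ball_mono_k (Nat.le_succ k) (ball_mono (subset_insert _ _) (Subset.refl _) h6')
            · refine mem_ball_step (y := z) ?_ ⟨e, mem_insert_self _ _, hj⟩ (mem_insert_self _ _)
              exact ball_mono (subset_insert _ _) (subset_insert _ _) h7'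

end LG

end DDA
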