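import Pool.Agent.DDA.Hyp

/-!
# DDA: existence and uniqueness of the critical value of the hypercube
-/

open Finset MeasureTheory ProbabilityTheory

namespace DDA

namespace CU

section general
variable {E : Type} [DecidableEq E]

lemma le_Ex_full {F : Finset E} {r c : ℝ} (h0 : 0 ≤ r) (h1 : r ≤ 1) {g : Finset E → ℝ}
    (hg : ∀ ω ⊆ F, c ≤ g ω) : c + r ^ F.card * (g F - c) ≤ Ex F r g := by
  have h2 : r ^ F.card * (g F - c) ≤ Ex F r (fun ω => g ω - c) := by
    unfold Ex
    have h3 := Finset.single_le_sum (f := fun s => r ^ s.card * (1 - r) ^ (F \ s).card * (g s - c))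
      (s := F.powerset) (fun s hs => by
        have := hg s (mem_powerset.1 hs)
        have h5 : 0 ≤ 1 - r := by linarith
        have h6 : 0 ≤ g s - c := by linarith
        positivity) (mem_powerset.2 (subset_refl F))
    simpa using h3
  rw [Ex_sub, Ex_const] at h2
  linarith

lemma Ex_le_empty {F : Finset E} {r c : ℝ} (h0 : 0 ≤ r) (h1 : r ≤ 1) {g : Finset E → ℝ}
    (hg : ∀ ω ⊆ F, g ω ≤ c) : Ex F r g ≤ c - (1 - r) ^ F.card * (c - g ∅) := by
  have h2 : (1 - r) ^ F.card * (c - g ∅) ≤ Ex F r (fun ω => c - g ω) := by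
    unfold Ex
    have h3 := Finset.single_le_sum (f := fun s => r ^ s.card * (1 - r) ^ (F \ s).card * (c - g s))
      (s := F.powerset) (fun s hs => by
        have := hg s (mem_powerset.1 hs)
        have h5 : 0 ≤ 1 - r := by linarith
        have h6 : 0 ≤ c - g s := by linarith
        positivity) (mem_powerset.2 (empty_subset F))
    simpa using h3
  rw [Ex_sub, Ex_const] at h2
  linarith

lemma Ex_strict {F : Finset E} {f : Finset E → ℝ} (hf : ∀ ω ω', ω ⊆ ω' → f ω ≤ f ω')
    (hlt : f ∅ < f F) {p q : ℝ} (hp0 : 0 ≤ p) (hpq : p < q) (hq1 : q ≤ 1) : Ex F p f < Ex F q f := by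
  obtain ⟨r, hr⟩ : ∃ r, r = (q - p) / (1 - p) := ⟨_, rfl⟩
  have hp1 : 0 < 1 - p := by linarith
  have hr0 : 0 < r := by rw [hr]; apply div_pos <;> linarith
  have hr1 : r ≤ 1 := by rw [hr, div_le_one hp1]; linarith
  have hq : q = 1 - (1 - p) * (1 - r) := by
    rw [hr]
    field_simp
    ring
  rw [hq, ← Ex_sprinkle]
  have h1 : Ex F p (fun ω => f ω + r ^ F.card * (f F - f ω))
      ≤ Ex F p (fun ω => Ex F r (fun η => f (ω ∪ η))) := by
    apply Ex_mono hp0 (by linarith)
    intro ω hω
    have h2 := le_Ex_full (F := F) (c := f ω) hr0.le hr1 (g := fun η => f (ω ∪ η))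
      (fun η _ => hf _ _ subset_union_left)
    simp only [union_eq_right.2 hω] at h2
    exact h2
  refine lt_of_lt_of_le ?_ h1
  have h3 : Ex F p (fun ω => f ω + r ^ F.card * (f F - f ω))
      = Ex F p f + r ^ F.card * (f F - Ex F p f) := by
    rw [Ex_add, Ex_mul_left, Ex_sub, Ex_const]
  rw [h3]
  have h4 : Ex F p f ≤ f F - (1 - p) ^ F.card * (f F - f ∅) :=
    Ex_le_empty hp0 (by linarith) (fun ω hω => hf _ _ hω)
  have h5 : 0 < (1 - p) ^ F.card * (f F - f ∅) := by
    have : 0 < f F - f ∅ := by linarith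
    positivity
  have h6 : 0 < f F - Ex F p f := by linarith
  have h7 : 0 < r ^ F.card * (f F - Ex F p f) := by positivity
  linarith

end general

open Classical in
/-- the mean cluster size of a finite graph is a finite sum -/
theorem meanCluster_eq {V : Type} [Fintype V] [DecidableEq V] (G : SimpleGraph V) (x : V)
    (p : unitInterval) :
    meanCluster G x p
      = Ex G.edgeFinset p (fun s => ((cluster (s : Set (Sym2 V)) x).ncard : ℝ)) := by
  have h2 := integral_setBer G.edgeSet p G.edgeFinset (fun e => e) (Function.injective_id.injOn)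
    (fun e he => SimpleGraph.mem_edgeFinset.1 he)
    (fun s => ((cluster (s : Set (Sym2 V)) x).ncard : ℝ))
  rw [← h2]
  unfold meanCluster
  apply integral_congr_ae
  have hc : ∀ᵐ ω ∂(setBernoulli G.edgeSet p), ω ⊆ G.edgeSet := setBernoulli_ae_subset
  filter_upwards [hc] with ω hω
  have h3 : ((G.edgeFinset.filter (fun e => e ∈ ω) : Finset (Sym2 V)) : Set (Sym2 V)) = ω := by
    ext e
    simp only [coe_filter, SimpleGraph.mem_edgeFinset, Set.mem_ofPred_eq]
    exact ⟨fun h => h.2, fun h => ⟨hω h, h⟩⟩
  show ((cluster ω x).ncard : ℝ) = ((cluster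
    ((G.edgeFinset.filter (fun e => e ∈ ω) : Finset (Sym2 V)) : Set (Sym2 V)) x).ncard : ℝ)
  rw [h3]

lemma cube_reach {n : ℕ} (y : Fin n → Bool) : ∀ k : ℕ, ∀ x : Fin n → Bool,
    (univ.filter (fun i => x i ≠ y i)).card = k → (cube n).Reachable x y := by
  intro k
  induction k with
  | zero =>
    intro x hx
    rw [card_eq_zero, filter_eq_empty_iff] at hx
    have : x = y := by
      funext i
      by_contra h
      exact hx (mem_univ i) h
    rw [this]
  | succ k ih =>
    intro x hx
    have hne : (univ.filter (fun i => x i ≠ y i)).Nonempty := by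
      rw [← card_pos]; omega
    obtain ⟨i, hi⟩ := hne
    have hi' : x i ≠ y i := (mem_filter.1 hi).2
    have hadj : (cube n).Adj x (Function.update x i (y i)) := by
      show {j | x j ≠ Function.update x i (y i) j}.ncard = 1
      rw [Set.ncard_eq_one]
      refine ⟨i, ?_⟩
      ext j
      simp only [Set.mem_ofPred_eq, Set.mem_singleton_iff]
      by_cases hj : j = i
      · subst hj
        simp [hi']
      · simp [hj]
    refine hadj.reachable.trans (ih _ ?_)
    have h3 : univ.filter (fun j => Function.update x i (y i) j ≠ y j)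
        = (univ.filter (fun j => x j ≠ y j)).erase i := by
      ext j
      simp only [mem_filter, mem_univ, true_and, mem_erase]
      by_cases hj : j = i
      · subst hj
        simp
      · simp [hj]
    rw [h3, card_erase_of_mem hi, hx]
    omega

end CU

open CU in
/-- for every `n ≥ 1` there is exactly one `p` with `χ_n(p) = (2^n)^(1/3)` -/
theorem exists_pQ : ∃ pQ : ℕ → unitInterval, ∀ n, 1 ≤ n → ∀ p : unitInterval,
    meanCluster (cube n) (fun _ => false) p = ((2 : ℝ) ^ n) ^ ((1 : ℝ) / 3) ↔ p = pQ n := by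
  classical
  have key : ∀ n : ℕ, ∃ q : unitInterval, 1 ≤ n → ∀ p : unitInterval,
      meanCluster (cube n) (fun _ => false) p = ((2 : ℝ) ^ n) ^ ((1 : ℝ) / 3) ↔ p = q := by
    intro n
    by_cases hn : 1 ≤ n
    swap
    · exact ⟨0, fun h => absurd h hn⟩
    obtain ⟨F, hF⟩ : ∃ F, F = (cube n).edgeFinset := ⟨_, rfl⟩
    obtain ⟨f, hf⟩ : ∃ f : Finset (Sym2 (Fin n → Bool)) → ℝ,
      f = fun s : Finset (Sym2 (Fin n → Bool)) => ((cluster (s : Set (Sym2 (Fin n → Bool))) (fun _ => false)).ncard : ℝ) := ⟨_, rfl⟩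
    have hmc : ∀ p : unitInterval, meanCluster (cube n) (fun _ => false) p = Ex F p f := by
      intro p
      rw [meanCluster_eq, hF, hf]
    have hmono : ∀ ω ω', ω ⊆ ω' → f ω ≤ f ω' := by
      intro ω ω' h
      rw [hf]
      simp only [Nat.cast_le]
      apply Set.ncard_le_ncard _ (Set.toFinite _)
      intro z hz
      exact SimpleGraph.Reachable.mono
        (SimpleGraph.fromEdgeSet_mono (by exact_mod_cast h)) hz
    have hempty : f ∅ = 1 := by
      rw [hf]
      have h1 : cluster ((∅ : Finset (Sym2 (Fin n → Bool))) : Set (Sym2 (Fin n → Bool)))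
          (fun _ => false) = {fun _ => false} := by
        ext z
        unfold cluster
        simp only [coe_empty, SimpleGraph.fromEdgeSet_empty, SimpleGraph.reachable_bot,
          Set.mem_ofPred_eq, Set.mem_singleton_iff]
        exact eq_comm
      simp only [h1]
      simp
    have hfull : f F = 2 ^ n := by
      rw [hf, hF]
      have h1 : cluster (((cube n).edgeFinset : Finset (Sym2 (Fin n → Bool))) :
          Set (Sym2 (Fin n → Bool))) (fun _ => false) = Set.univ := by
        ext z
        unfold cluster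
        simp only [SimpleGraph.coe_edgeFinset, SimpleGraph.fromEdgeSet_edgeSet,
          Set.mem_ofPred_eq, Set.mem_univ, iff_true]
        exact cube_reach z _ _ rfl
      simp only [h1]
      rw [Set.ncard_univ, Nat.card_eq_fintype_card]
      simp
    have h2n : (1 : ℝ) < 2 ^ n := one_lt_pow₀ (by norm_num) (by omega)
    have hcont : ContinuousOn (fun p => Ex F p f) (Set.Icc 0 1) := (Ex_continuous _ _).continuousOn
    have hv0 : Ex F 0 f = 1 := by
      rw [← hempty]
      unfold Ex
      rw [Finset.sum_eq_single ∅]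
      · simp
      · intro s _ hs
        have : s.card ≠ 0 := by rwa [Ne, card_eq_zero]
        simp [this]
      · simp
    have hv1 : Ex F 1 f = 2 ^ n := by
      rw [← hfull]
      unfold Ex
      rw [Finset.sum_eq_single F]
      · simp
      · intro s hs hne
        have : (F \ s).card ≠ 0 := by
          rw [Ne, card_eq_zero, sdiff_eq_empty_iff_subset]
          intro h
          exact hne (subset_antisymm (mem_powerset.1 hs) h)
        simp [this]
      · simp
    have hmid : ((2 : ℝ) ^ n) ^ ((1 : ℝ) / 3) ∈ Set.Icc (Ex F 0 f) (Ex F 1 f) := by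
      rw [hv0, hv1]
      constructor
      · exact Real.one_le_rpow h2n.le (by norm_num)
      · calc ((2 : ℝ) ^ n) ^ ((1 : ℝ) / 3) ≤ ((2 : ℝ) ^ n) ^ (1 : ℝ) :=
            Real.rpow_le_rpow_of_exponent_le h2n.le (by norm_num)
          _ = 2 ^ n := Real.rpow_one _
    obtain ⟨q, hq, hqv⟩ := intermediate_value_Icc (by norm_num) hcont hmid
    refine ⟨⟨q, hq⟩, fun _ p => ?_⟩
    rw [hmc, ← hqv]
    constructor
    · intro h
      have hlt : f ∅ < f F := by rw [hempty, hfull]; exact h2n
      rcases lt_trichotomy (p : ℝ) q with h3 | h3 | h3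
      · exact absurd h (ne_of_lt (Ex_strict hmono hlt p.2.1 h3 hq.2))
      · exact Subtype.ext h3
      · exact absurd h (ne_of_gt (Ex_strict hmono hlt hq.1 h3 p.2.2))
    · intro h
      rw [h]
  choose q hq using key
  exact ⟨q, hq⟩

end DDA
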