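import Pool.Agent.DDA.ThreeEdges
import Pool.Agent.DDA.Coupling2
import Pool.Agent.DDA.DLow

/-!
# DDA: sharp lower bound, part A: straight lines, the general bound with a connection off the line
-/

open Finset

namespace DDA

open DDA.DLo

set_option linter.unusedSectionVars false

namespace DLs

section general

variable {V E : Type*} [DecidableEq V] [DecidableEq E] {G : LG V E}

/-- a vertex connected to `Lv` is connected to a vertex of `Lv` without the edges inside `Lv` -/
lemma leave_off {S : Finset V} {ζ A : Finset E} {Lv : Finset V}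
    (hA : ∀ e ∈ A, G.s e ∈ Lv ∧ G.t e ∈ Lv) (hLS : Lv ⊆ S) {x0 x : V} (hx0 : x0 ∈ Lv)
    (h : x ∈ G.cl S ζ x0) : ∃ v ∈ Lv, x ∈ G.cl S (ζ \ A) v := by
  have key : ∀ k, ∀ z ∈ G.ball S ζ x0 k, ∃ v ∈ Lv, z ∈ G.cl S (ζ \ A) v := by
    intro k
    induction k with
    | zero =>
      intro z hz
      obtain ⟨h1, rfl⟩ := LG.mem_ball_zero.mp hz
      exact ⟨z, hx0, LG.self_mem_cl h1⟩
    | succ k ih =>
      intro z hz
      rcases LG.mem_ball_succ.mp hz with h' | ⟨h1, y, hy, e, he, hJ⟩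
      · exact ih z h'
      · obtain ⟨v, hv, hyv⟩ := ih y hy
        by_cases heA : e ∈ A
        · have hzL : z ∈ Lv := by
            rcases hJ with ⟨_, a⟩ | ⟨a, _⟩
            · exact a ▸ (hA e heA).2
            · exact a ▸ (hA e heA).1
          exact ⟨z, hzL, LG.self_mem_cl h1⟩
        · exact ⟨v, hv, LG.mem_cl_step hyv ⟨e, mem_sdiff.mpr ⟨he, heA⟩, hJ⟩ h1⟩
  exact key _ x h

end general

variable {N d : ℕ} [NeZero N]

theorem three_off (hN : 2 ≤ N) {p : ℝ} (hp0 : 0 ≤ p) (hp1 : p ≤ 1 / 2) (A : Finset (TE N d))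
    (Lv : Finset (TV N d)) (hA : ∀ e ∈ A, (T N d).s e ∈ Lv ∧ (T N d).t e ∈ Lv) (x0 v c : TV N d) :
    Pr univ p (fun ζ => A ⊆ ζ ∧ (∃ x ∈ Lv, x ∈ (T N d).cl univ ζ x0) ∧
        c ∈ (T N d).cl univ (ζ \ A) v)
      ≤ p ^ A.card * ((∑ w, Mt N d p x0 w * Mt N d p w v * Mt N d p w c)
        + ∑ x ∈ Lv, Mt N d p x0 x * Mt N d p v c) := by
  classical
  have hpp : p ≤ 1 := by linarith
  set R := (T N d).Re univ (nv N d) with hR
  let B : Finset (TE N d) → Prop := fun ζ =>
    (∃ u ∈ (univ : Finset (TV N d)), Disj (Disj (R x0 u) (R u v)) (R u c) ζ) ∨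
      (∃ x ∈ Lv, Disj (R x0 x) (R v c) ζ)
  have hBi : Incr B := by
    rintro ω ω' h hB
    rcases hB with ⟨u, hu, hB⟩ | ⟨x, hx, hB⟩
    · exact Or.inl ⟨u, hu, Disj_incr _ _ _ _ h hB⟩
    · exact Or.inr ⟨x, hx, Disj_incr _ _ _ _ h hB⟩
  refine (Pr_off hp0 hpp A (subset_univ _) hBi ?_).trans ?_
  · rintro ζ _ hAζ ⟨⟨x', hx', hxc⟩, hcl⟩
    obtain ⟨x, hx, hx0⟩ := LG.reach_off hA hx' hxc
    by_cases hvc : v ∈ (T N d).cl univ (ζ \ A) x0
    · left
      have hwc : c ∈ (T N d).cl univ (ζ \ A) x0 := LG.mem_cl_trans hvc hcl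
      obtain ⟨u, hu, hd⟩ := LG.three_point (T_loopless hN) hvc hwc
      exact ⟨u, hu, hd⟩
    · right
      exact ⟨x, hx, disj_clusters hx0 hcl hvc⟩
  · apply mul_le_mul_of_nonneg_left _ (by positivity)
    have h1 : Pr univ p B ≤ Pr univ p (fun ζ => ∃ u ∈ (univ : Finset (TV N d)),
          Disj (Disj (R x0 u) (R u v)) (R u c) ζ) + Pr univ p (fun ζ =>
          ∃ x ∈ Lv, Disj (R x0 x) (R v c) ζ) := by
      have h2 := Pr_or_add_and (univ : Finset (TE N d)) p (fun ζ => ∃ u ∈ (univ : Finset (TV N d)),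
          Disj (Disj (R x0 u) (R u v)) (R u c) ζ) (fun ζ => ∃ x ∈ Lv, Disj (R x0 x) (R v c) ζ)
      have h3 := Pr_nonneg (F := (univ : Finset (TE N d))) hp0 hpp (fun ζ =>
        (∃ u ∈ (univ : Finset (TV N d)), Disj (Disj (R x0 u) (R u v)) (R u c) ζ) ∧
          (∃ x ∈ Lv, Disj (R x0 x) (R v c) ζ))
      have h4 : Pr univ p B = Pr univ p (fun ζ => (∃ u ∈ (univ : Finset (TV N d)),
          Disj (Disj (R x0 u) (R u v)) (R u c) ζ) ∨ ∃ x ∈ Lv, Disj (R x0 x) (R v c) ζ) := rfl
      rw [h4]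
      linarith
    refine h1.trans (add_le_add ?_ ?_)
    · refine (Pr_sum_le hp0 hpp univ (fun u => Disj (Disj (R x0 u) (R u v)) (R u c))
        (fun ω _ h => h)).trans ?_
      exact sum_le_sum (fun u _ => Pr_three hp0 hp1 x0 u u v u c)
    · refine (Pr_sum_le hp0 hpp Lv (fun x => Disj (R x0 x) (R v c)) (fun ω _ h => h)).trans ?_
      exact sum_le_sum (fun x _ => Pr_two hp0 hp1 x0 x v c)

/-! ### lines -/

section lines

variable {M : ℕ}

/-- unit step in direction `j` -/
def st (M d : ℕ) (j : Fin d × Bool) : TV M d := if j.2 then Pi.single j.1 1 else - Pi.single j.1 1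

lemma nb_st (x : TV M d) (j : Fin d × Bool) : nb x j = x + st M d j := by
  unfold nb st
  split_ifs
  · rfl
  · rw [sub_eq_add_neg]

/-- `k` steps from `u` in direction `j` -/
def pt (u : TV M d) (j : Fin d × Bool) (k : ℕ) : TV M d := u + k • st M d j

lemma pt_zero (u : TV M d) (j : Fin d × Bool) : pt u j 0 = u := by simp [pt]

lemma pt_succ (u : TV M d) (j : Fin d × Bool) (k : ℕ) : pt u j (k + 1) = nb (pt u j k) j := by
  rw [nb_st]
  unfold pt
  rw [add_smul, one_smul, add_assoc]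

lemma pt_pt (u : TV M d) (j : Fin d × Bool) (k l : ℕ) : pt (pt u j k) j l = pt u j (k + l) := by
  unfold pt
  rw [add_smul, add_assoc]

/-- the four vertices -/
def Lvj (u : TV M d) (j : Fin d × Bool) : Finset (TV M d) := (range 4).image (pt u j)

/-- the three edges -/
def Edj (u : TV M d) (j : Fin d × Bool) : Finset (TE M d) :=
  (range 3).image (fun k => eg (pt u j k) j)

lemma smul_st_self (j : Fin d × Bool) (k : ℕ) :
    (k • st M d j) j.1 = if j.2 then (k : ZMod M) else -(k : ZMod M) := by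
  unfold st
  split_ifs <;> simp

lemma smul_st_ne {j : Fin d × Bool} {i : Fin d} (h : i ≠ j.1) (k : ℕ) :
    (k • st M d j) i = 0 := by
  unfold st
  split_ifs <;> simp [Pi.single_eq_of_ne h]

lemma smul_st_ne_zero {j : Fin d × Bool} {k : ℕ} (hk0 : 0 < k) (hk : k < M) :
    k • st M d j ≠ 0 := by
  intro h
  have h1 := congrFun h j.1
  rw [smul_st_self, Pi.zero_apply] at h1
  have h2 : (k : ZMod M) = 0 := by
    split_ifs at h1
    · exact h1
    · exact neg_eq_zero.mp h1
  rw [ZMod.natCast_eq_zero_iff] at h2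
  have := Nat.le_of_dvd hk0 h2
  omega

lemma pt_inj {u : TV M d} {j : Fin d × Bool} {k l : ℕ} (hk : k < M) (hl : l < M)
    (h : pt u j k = pt u j l) : k = l := by
  unfold pt at h
  have h1 := add_left_cancel h
  by_contra hne
  rcases Nat.lt_or_gt_of_ne hne with hlt | hlt
  · have h2 : (l - k) • st M d j = 0 := by
      have : l • st M d j = k • st M d j + (l - k) • st M d j := by
        rw [← add_smul]
        congr 1
        omega
      rw [this] at h1
      simpa using h1.symm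
    exact smul_st_ne_zero (by omega) (by omega) h2
  · have h2 : (k - l) • st M d j = 0 := by
      have : k • st M d j = l • st M d j + (k - l) • st M d j := by
        rw [← add_smul]
        congr 1
        omega
      rw [this] at h1
      simpa using h1
    exact smul_st_ne_zero (by omega) (by omega) h2

lemma st_inj (hM : 3 ≤ M) {j j' : Fin d × Bool} (h : st M d j = st M d j') : j = j' := by
  obtain ⟨i, b⟩ := j
  obtain ⟨i', b'⟩ := j'
  unfold st at h
  cases b <;> cases b' <;> simp only [if_true] at h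
  · have := eq_single_of hM (neg_injective h)
    rw [this]
  · exact absurd h.symm (neg_single_ne hM)
  · exact absurd h (neg_single_ne hM)
  · have := eq_single_of hM h
    rw [this]

lemma pt_mem_Lvj {u : TV M d} {j : Fin d × Bool} {k : ℕ} (hk : k < 4) : pt u j k ∈ Lvj u j :=
  mem_image_of_mem _ (mem_range.mpr hk)

lemma mem_Lvj {u x : TV M d} {j : Fin d × Bool} : x ∈ Lvj u j ↔ ∃ k < 4, pt u j k = x := by
  simp [Lvj]

lemma mem_Edj {u : TV M d} {e : TE M d} {j : Fin d × Bool} :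
    e ∈ Edj u j ↔ ∃ k < 3, eg (pt u j k) j = e := by
  simp [Edj]

lemma Edj_in {u : TV M d} {j : Fin d × Bool} : ∀ e ∈ Edj u j,
    (T M d).s e ∈ Lvj u j ∧ (T M d).t e ∈ Lvj u j := by
  intro e he
  obtain ⟨k, hk, rfl⟩ := mem_Edj.mp he
  have h1 : pt u j k ∈ Lvj u j := pt_mem_Lvj (by omega)
  have h2 : nb (pt u j k) j ∈ Lvj u j := by
    rw [← pt_succ]
    exact pt_mem_Lvj (by omega)
  rcases eg_J (pt u j k) j with ⟨a, b⟩ | ⟨a, b⟩
  · rw [a, b]; exact ⟨h1, h2⟩
  · rw [a, b]; exact ⟨h2, h1⟩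

lemma eg_inj {x y : TV M d} {j : Fin d × Bool} (h : eg x j = eg y j) : x = y := by
  unfold eg at h
  split_ifs at h
  · exact congrArg Prod.fst h
  · have := congrArg Prod.fst h
    simpa using this

lemma card_Edj (hM : 4 ≤ M) (u : TV M d) (j : Fin d × Bool) : (Edj u j).card = 3 := by
  unfold Edj
  rw [card_image_of_injOn, card_range]
  intro k hk l hl h
  have hk' := mem_range.mp (mem_coe.mp hk)
  have hl' := mem_range.mp (mem_coe.mp hl)
  exact pt_inj (by omega) (by omega) (eg_inj h)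

/-- the only edge between neighbours -/
lemma J_unique [NeZero M] (hM : 3 ≤ M) {x : TV M d} {j : Fin d × Bool} {e : TE M d}
    (h : (T M d).J e x (nb x j)) : e = eg x j := by
  obtain ⟨i, b⟩ := j
  cases b
  · simp only [nb, eg] at h ⊢
    apply J_neg_eq hM
    simpa using h
  · simp only [nb, eg, if_true] at h ⊢
    exact J_pos_eq hM h

lemma sum_Lvj_le {f : TV M d → ℝ} (hf : ∀ x, 0 ≤ f x) (u : TV M d) (j : Fin d × Bool) :
    ∑ x ∈ Lvj u j, f x ≤ ∑ k ∈ range 4, f (pt u j k) := by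
  unfold Lvj
  exact sum_image_le_of_nonneg' hf
where
  sum_image_le_of_nonneg' {f : TV M d → ℝ} (hf : ∀ x, 0 ≤ f x) :
      ∑ x ∈ (range 4).image (pt u j), f x ≤ ∑ k ∈ range 4, f (pt u j k) := by
    have key : ∀ s : Finset ℕ, ∑ x ∈ s.image (pt u j), f x ≤ ∑ k ∈ s, f (pt u j k) := by
      intro s
      induction s using Finset.induction_on with
      | empty => simp
      | insert a s ha ih =>
        rw [image_insert, sum_insert ha]
        by_cases h : pt u j a ∈ s.image (pt u j)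
        · rw [insert_eq_of_mem h]
          have := hf (pt u j a)
          linarith
        · rw [sum_insert h]
          linarith
    exact key _

end lines

section proj

lemma pr4_neg (h4 : 4 ∣ N) (x : TV N d) : pr4 N d (-x) = - pr4 N d x :=
  map_neg (pr4H h4) x

lemma pr4_st (h4 : 4 ∣ N) (j : Fin d × Bool) : pr4 N d (st N d j) = st 4 d j := by
  unfold st
  split_ifs
  · exact pr4_single h4 _
  · rw [pr4_neg h4, pr4_single h4]

lemma pr4_pt (h4 : 4 ∣ N) (u : TV N d) (j : Fin d × Bool) (k : ℕ) :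
    pr4 N d (pt u j k) = pt (pr4 N d u) j k := by
  unfold pt
  rw [pr4_add h4]
  congr 1
  have h1 : pr4 N d (k • st N d j) = k • pr4 N d (st N d j) :=
    map_nsmul (pr4H h4) k (st N d j)
  rw [h1, pr4_st h4]

lemma pr4E_eg (h4 : 4 ∣ N) (x : TV N d) (j : Fin d × Bool) :
    pr4E N d (eg x j) = eg (pr4 N d x) j := by
  unfold eg pr4E
  split_ifs
  · rfl
  · simp only
    rw [pr4_sub h4, pr4_single h4]

lemma pt4_four (x : TV 4 d) (j : Fin d × Bool) : pt x j 4 = x := by
  unfold pt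
  have : (4 : ℕ) • st 4 d j = 0 := by
    funext i
    by_cases h : i = j.1
    · subst h
      rw [smul_st_self]
      have : ((4 : ℕ) : ZMod 4) = 0 := by decide
      rw [this]
      simp
    · rw [smul_st_ne h]
      rfl
  rw [this, add_zero]

end proj

end DLs

end DDA
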