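import Pool.Agent.DDA.DLSA

/-!
# DDA: sharp lower bound, part B: the vertices gained through the main unexplored edges
-/

open Finset

namespace DDA

open DDA.DLo

set_option linter.unusedSectionVars false

namespace DLs

variable {N d : ℕ} [NeZero N] {ω : Finset (TE 4 d)}

/-- the unexplored edge at the end of a line -/
def fj (P : TV N d × (Fin d × Bool)) : TE N d := eg (pt P.1 P.2 3) P.2

/-- the new vertex at the end of a line -/
def wj (P : TV N d × (Fin d × Bool)) : TV N d := pt P.1 P.2 4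

open Classical in
/-- the main unexplored edges, by the lines -/
noncomputable def PM (L : Lift2 N d ω) : Finset (TV N d × (Fin d × Bool)) :=
  univ.filter (fun P => (pt P.1 P.2 3, wj P) ∈ L.Xm)

lemma mem_PM {L : Lift2 N d ω} {P : TV N d × (Fin d × Bool)} :
    P ∈ PM L ↔ (pt P.1 P.2 3, wj P) ∈ L.Xm := by
  unfold PM
  simp

lemma wj_eq (P : TV N d × (Fin d × Bool)) : wj P = nb (pt P.1 P.2 3) P.2 := pt_succ _ _ _

lemma PM_spec (h4 : 4 ∣ N) (hN : 8 ≤ N) {L : Lift2 N d ω} {P : TV N d × (Fin d × Bool)}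
    (hP : P ∈ PM L) : (∀ k ≤ 3, pt P.1 P.2 k ∈ L.D) ∧ Edj P.1 P.2 ⊆ L.O ∧
      fj P ∉ L.O ∪ L.C ∧ wj P ∉ L.D := by
  obtain ⟨i, s, hs, h1, h2, h3, h4'⟩ := L.Xm_line _ (mem_PM.mp hP)
  simp only at h1 h2 h3 h4'
  have hst : s = st N d P.2 := by
    rw [wj_eq, nb_st] at h1
    exact (add_left_cancel h1).symm
  have hpt : ∀ k ≤ 3, pt P.1 P.2 3 - k • s = pt P.1 P.2 (3 - k) := by
    intro k hk
    have : pt P.1 P.2 3 = pt P.1 P.2 (3 - k) + k • s := by
      unfold pt
      rw [hst, add_assoc, ← add_smul]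
      congr 2
      omega
    rw [this, add_sub_cancel_right]
  have hD : ∀ k ≤ 3, pt P.1 P.2 k ∈ L.D := by
    intro k hk
    have := h2 (3 - k) (by omega)
    rw [hpt (3 - k) (by omega)] at this
    have h5 : 3 - (3 - k) = k := by omega
    rwa [h5] at this
  refine ⟨hD, ?_, ?_, ?_⟩
  · intro e he
    obtain ⟨k, hk, rfl⟩ := mem_Edj.mp he
    obtain ⟨e, he, hJ⟩ := h3 (2 - k) (by omega)
    rw [hpt _ (by omega), hpt _ (by omega)] at hJ
    have h5 : 3 - (2 - k) = k + 1 := by omega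
    have h6 : 3 - (2 - k + 1) = k := by omega
    rw [h5, h6, pt_succ, LG.J_comm] at hJ
    rw [← J_unique (by omega) hJ]
    exact he
  · apply h4'
    rw [wj_eq]
    exact eg_J _ _
  · intro h
    have h5 : wj P = P.1 := by
      refine L.inj h ?_ ?_
      · have := hD 0 (by omega)
        rwa [pt_zero] at this
      · unfold wj
        rw [pr4_pt h4, pt4_four]
    unfold wj at h5
    have h6 : pt P.1 P.2 4 = pt P.1 P.2 0 := by rw [pt_zero]; exact h5
    have := pt_inj (by omega) (by omega) h6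
    omega

lemma PM_inj (hN : 3 ≤ N) {P Q : TV N d × (Fin d × Bool)}
    (h : pt P.1 P.2 3 = pt Q.1 Q.2 3) (h' : wj P = wj Q) : P = Q := by
  obtain ⟨u, j⟩ := P
  obtain ⟨v, l⟩ := Q
  rw [wj_eq, wj_eq, nb_st, nb_st] at h'
  simp only at h h'
  rw [h] at h'
  have h1 := st_inj hN (add_left_cancel h')
  subst h1
  unfold pt at h
  rw [add_right_cancel h]

lemma card_PM (hN : 3 ≤ N) (L : Lift2 N d ω) : (PM L).card = L.Xm.card := by
  apply card_bij (fun P _ => (pt P.1 P.2 3, wj P))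
  · intro P hP
    exact mem_PM.mp hP
  · intro P _ Q _ h
    exact PM_inj hN (congrArg Prod.fst h) (congrArg Prod.snd h)
  · intro z hz
    obtain ⟨i, s, hs, h1, _⟩ := L.Xm_line _ hz
    obtain ⟨j, hj⟩ : ∃ j : Fin d × Bool, st N d j = s := by
      rcases hs with rfl | rfl
      · exact ⟨(i, true), by simp [st]⟩
      · exact ⟨(i, false), by simp [st]⟩
    have h2 : pt (z.1 - 3 • s) j 3 = z.1 := by
      unfold pt
      rw [hj, sub_add_cancel]
    have h3 : wj (z.1 - 3 • s, j) = z.2 := by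
      rw [wj_eq, nb_st, h1, hj]
      simp only
      rw [h2]
    refine ⟨(z.1 - 3 • s, j), mem_PM.mpr ?_, ?_⟩
    · simp only
      rw [h2, h3]
      exact hz
    · simp only
      rw [h2, h3]

/-- the unexplored edges are different -/
lemma fj_inj (h4 : 4 ∣ N) (hN : 8 ≤ N) {L : Lift2 N d ω} {P Q : TV N d × (Fin d × Bool)}
    (hP : P ∈ PM L) (hQ : Q ∈ PM L) (h : fj P = fj Q) : P = Q := by
  obtain ⟨a1, _, _, a2⟩ := PM_spec h4 hN hP
  obtain ⟨b1, _, _, b2⟩ := PM_spec h4 hN hQ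
  have hJ := eg_J (pt P.1 P.2 3) P.2
  have hJ' := eg_J (pt Q.1 Q.2 3) Q.2
  unfold fj at h
  rw [h, ← wj_eq] at hJ
  rw [← wj_eq] at hJ'
  have c1 := a1 3 (by omega)
  have d1 := b1 3 (by omega)
  rcases hJ with ⟨x1, x2⟩ | ⟨x1, x2⟩ <;> rcases hJ' with ⟨y1, y2⟩ | ⟨y1, y2⟩
  · exact PM_inj (by omega) (x1.symm.trans y1) (x2.symm.trans y2)
  · exfalso
    apply b2
    rw [← y1, x1]
    exact c1
  · exfalso
    apply a2
    rw [← x1, y1]
    exact d1
  · exact PM_inj (by omega) (x2.symm.trans y2) (x1.symm.trans y1)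

/-- the vertices gained -/
lemma gain_sub2 (h4 : 4 ∣ N) (hN : 8 ≤ N) {L : Lift2 N d ω} {P : TV N d × (Fin d × Bool)}
    (hP : P ∈ PM L) {η : Finset (TE N d)} (hη : fj P ∈ η) (k : ℕ) :
    (T N d).ball (univ \ L.D) η (wj P) k ⊆ (T N d).cl univ (wt L.toLift η) 0 \ L.D := by
  obtain ⟨a1, _, a3, a4⟩ := PM_spec h4 hN hP
  have h5 : wj P ∈ (T N d).cl univ (wt L.toLift η) 0 := by
    refine LG.mem_cl_step (D_sub η (a1 3 (by omega))) ⟨fj P, ?_, ?_⟩ (mem_univ _)
    · exact mem_union_right _ (mem_sdiff.mpr ⟨hη, a3⟩)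
    · rw [wj_eq]
      exact eg_J _ _
  intro z hz
  rw [mem_sdiff]
  refine ⟨?_, (mem_sdiff.mp (LG.ball_subset hz)).2⟩
  rw [off_eq] at hz
  exact LG.mem_cl_trans h5 (LG.ball_subset_cl k (LG.ball_mono (subset_univ _) (Subset.refl _) hz))

/-- the vertices reached from the new vertex of a line off the explored set -/
noncomputable def BJ (D : Finset (TV N d)) (η : Finset (TE N d)) (P : TV N d × (Fin d × Bool)) :
    Finset (TV N d) :=
  (T N d).ball (univ \ D) η (wj P) (nv N d)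

open Classical in
lemma det_gain2 (h4 : 4 ∣ N) (hN : 8 ≤ N) (L : Lift2 N d ω) (η : Finset (TE N d)) :
    (L.D.card : ℝ) + ∑ P ∈ PM L, (if fj P ∈ η then (1:ℝ) else 0) * ((BJ L.D η P).card : ℝ)
      - ∑ P ∈ PM L, ∑ Q ∈ (PM L).erase P, ((if fj P ∈ η then (1:ℝ) else 0) *
        (if fj Q ∈ η then (1:ℝ) else 0)) * ((BJ L.D η P ∩ BJ L.D η Q).card : ℝ)
      ≤ (((T N d).cl univ (wt L.toLift η) 0).card : ℝ) := by
  let S : TV N d × (Fin d × Bool) → Finset (TV N d) := fun P => if fj P ∈ η then BJ L.D η P else ∅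
  have h1 := bonf (PM L) S
  have e1 : ∀ P, ((S P).card : ℝ) = (if fj P ∈ η then (1:ℝ) else 0) * ((BJ L.D η P).card : ℝ) := by
    intro P
    by_cases h : fj P ∈ η <;> simp [S, h]
  have e2 : ∀ P Q, ((S P ∩ S Q).card : ℝ) = ((if fj P ∈ η then (1:ℝ) else 0) *
        (if fj Q ∈ η then (1:ℝ) else 0)) * ((BJ L.D η P ∩ BJ L.D η Q).card : ℝ) := by
    intro P Q
    by_cases h : fj P ∈ η <;> by_cases h' : fj Q ∈ η <;> simp [S, h, h']
  simp only [e1, e2] at h1
  have h2 : (PM L).biUnion S ⊆ (T N d).cl univ (wt L.toLift η) 0 \ L.D := by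
    intro z hz
    obtain ⟨P, hP, hzP⟩ := mem_biUnion.mp hz
    by_cases h : fj P ∈ η
    · simp only [S, h, if_true] at hzP
      exact gain_sub2 h4 hN hP h _ hzP
    · simp only [S, h, if_false] at hzP
      exact absurd hzP (notMem_empty _)
  have h3 : (((PM L).biUnion S).card : ℝ) ≤
      (((T N d).cl univ (wt L.toLift η) 0).card : ℝ) - (L.D.card : ℝ) := by
    have h4 := card_le_card h2
    have h5 := card_sdiff_add_card_eq_card (D_sub (L := L.toLift) η)
    have h6 : ((((T N d).cl univ (wt L.toLift η) 0 \ L.D).card : ℝ)) + (L.D.card : ℝ)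
        = (((T N d).cl univ (wt L.toLift η) 0).card : ℝ) := by exact_mod_cast h5
    have h7 : (((PM L).biUnion S).card : ℝ) ≤
        ((((T N d).cl univ (wt L.toLift η) 0 \ L.D).card : ℝ)) := by
      exact_mod_cast h4
    linarith
  linarith

/-- expected size of the intersection of two clusters -/
lemma vol_inter2 {p : ℝ} (hN : 2 ≤ N) (hp0 : 0 ≤ p) (hp1 : p ≤ 1 / 2) (D : Finset (TV N d))
    (P Q : TV N d × (Fin d × Bool)) :
    Ex univ p (fun η => ((BJ D η P ∩ BJ D η Q).card : ℝ)) ≤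
      chi N d p * ∑ v, Mt N d p (wj P) v * Mt N d p v (wj Q) := by
  classical
  have hpp : p ≤ 1 := by linarith
  have h1 : Ex univ p (fun η => ((BJ D η P ∩ BJ D η Q).card : ℝ)) ≤
      Ex univ p (fun η => ∑ z : TV N d, if (wj P ∈ (T N d).ball univ η z (nv N d) ∧
        wj Q ∈ (T N d).ball univ η z (nv N d)) then (1:ℝ) else 0) := by
    apply Ex_mono hp0 hpp
    intro η _
    have h2 : BJ D η P ∩ BJ D η Q ⊆ univ.filter (fun z => wj P ∈ (T N d).ball univ η z (nv N d) ∧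
        wj Q ∈ (T N d).ball univ η z (nv N d)) := by
      intro z hz
      obtain ⟨h3, h4⟩ := mem_inter.mp hz
      rw [mem_filter]
      refine ⟨mem_univ _, ?_, ?_⟩
      · exact LG.mem_ball_symm (LG.ball_mono (subset_univ _) (Subset.refl _) h3)
      · exact LG.mem_ball_symm (LG.ball_mono (subset_univ _) (Subset.refl _) h4)
    have h3 := card_le_card h2
    rw [card_filter] at h3
    exact_mod_cast h3
  refine h1.trans ?_
  rw [Ex_sum]
  have h2 : ∀ z : TV N d, Ex univ p (fun η => if (wj P ∈ (T N d).ball univ η z (nv N d) ∧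
        wj Q ∈ (T N d).ball univ η z (nv N d)) then (1:ℝ) else 0) ≤
      ∑ v, Mt N d p z v * Mt N d p v (wj P) * Mt N d p v (wj Q) := by
    intro z
    have h3 := LG.tree_graph (G := T N d) (F := univ) (S := univ) (k := nv N d) (l := nv N d)
      (T_loopless hN) hp0 hp1 z (wj P) (wj Q)
    rw [Pr_eq_Ex] at h3
    exact h3
  refine (sum_le_sum (fun z _ => h2 z)).trans (le_of_eq ?_)
  rw [sum_comm, mul_sum]
  apply sum_congr rfl
  intro v _
  have h3 : ∑ z, Mt N d p z v * Mt N d p v (wj P) * Mt N d p v (wj Q)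
      = (∑ z, Mt N d p z v) * (Mt N d p v (wj P) * Mt N d p v (wj Q)) := by
    rw [sum_mul]
    exact sum_congr rfl (fun z _ => by ring)
  rw [h3, Mt_col, Mt_comm p v (wj P)]

open Classical in
lemma exp_gain2 (h4 : 4 ∣ N) (hN : 8 ≤ N) {p : ℝ} (hp0 : 0 ≤ p) (hp1 : p ≤ 1 / 2)
    (L : Lift2 N d ω) :
    (L.D.card : ℝ) + p * chi N d p * (((PM L).card : ℝ)
        - ∑ P ∈ PM L, ∑ a ∈ L.D, Mt N d p (wj P) a
        - p * ∑ P ∈ PM L, ∑ Q ∈ (PM L).erase P, ∑ v, Mt N d p (wj P) v * Mt N d p v (wj Q))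
      ≤ Ex univ p (fun η => (((T N d).cl univ (wt L.toLift η) 0).card : ℝ)) := by
  have hpp : p ≤ 1 := by linarith
  have hmain := Ex_mono (F := univ) hp0 hpp (fun η _ => det_gain2 h4 hN L η)
  refine le_trans ?_ hmain
  rw [Ex_sub, Ex_add, Ex_const, Ex_sum]
  have e0 : Ex univ p (fun η => ∑ P ∈ PM L, ∑ Q ∈ (PM L).erase P,
      ((if fj P ∈ η then (1:ℝ) else 0) * (if fj Q ∈ η then (1:ℝ) else 0)) *
        ((BJ L.D η P ∩ BJ L.D η Q).card : ℝ))
      = ∑ P ∈ PM L, ∑ Q ∈ (PM L).erase P, Ex univ p (fun η =>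
      ((if fj P ∈ η then (1:ℝ) else 0) * (if fj Q ∈ η then (1:ℝ) else 0)) *
        ((BJ L.D η P ∩ BJ L.D η Q).card : ℝ)) := by
    rw [Ex_sum]
    exact sum_congr rfl (fun P _ => Ex_sum _ _ _ _)
  rw [e0]
  -- the edge is not inside the complement of `D`
  have hfe : ∀ P ∈ PM L, fj P ∉ (T N d).ins (univ \ L.D) univ := by
    intro P hP h
    obtain ⟨a1, _, _, _⟩ := PM_spec h4 hN hP
    obtain ⟨_, h5, h6⟩ := LG.mem_ins.mp h
    have a2 := a1 3 (by omega)
    rcases eg_J (pt P.1 P.2 3) P.2 with ⟨b1, b2⟩ | ⟨b1, b2⟩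
    · unfold fj at h5
      rw [b1] at h5
      exact (mem_sdiff.mp h5).2 a2
    · unfold fj at h6
      rw [b2] at h6
      exact (mem_sdiff.mp h6).2 a2
  have hBJloc : ∀ P : TV N d × (Fin d × Bool), ∀ η : Finset (TE N d),
      BJ L.D η P = BJ L.D (η ∩ (T N d).ins (univ \ L.D) univ) P := by
    intro P η
    unfold BJ
    rw [LG.ball_ins (subset_univ η)]
  have e1 : ∀ P ∈ PM L, p * (chi N d p - ∑ a ∈ L.D, Mt N d p (wj P) a * chi N d p) ≤
      Ex univ p (fun η => (if fj P ∈ η then (1:ℝ) else 0) * ((BJ L.D η P).card : ℝ)) := by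
    intro P hP
    have hdis : Disjoint ({fj P} : Finset (TE N d)) ((T N d).ins (univ \ L.D) univ) :=
      disjoint_singleton_left.mpr (hfe P hP)
    rw [Ex_indep (f := fun η => if fj P ∈ η then (1:ℝ) else 0)
      (g := fun η => ((BJ L.D η P).card : ℝ)) hdis (fun η _ => by simp)
      (fun η _ => by rw [← hBJloc])]
    have h1 : Ex univ p (fun η => if fj P ∈ η then (1:ℝ) else 0) = p := by
      have := Pr_mem (mem_univ (fj P)) p
      rw [Pr_eq_Ex] at this
      exact this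
    rw [h1]
    apply mul_le_mul_of_nonneg_left _ hp0
    exact vol_off hp0 hp1 L.D (wj P)
  have e2 : ∀ P ∈ PM L, ∀ Q ∈ (PM L).erase P, Ex univ p (fun η =>
      ((if fj P ∈ η then (1:ℝ) else 0) * (if fj Q ∈ η then (1:ℝ) else 0)) *
        ((BJ L.D η P ∩ BJ L.D η Q).card : ℝ)) ≤
      p * p * (chi N d p * ∑ v, Mt N d p (wj P) v * Mt N d p v (wj Q)) := by
    intro P hP Q hQ
    have hQ' := mem_of_mem_erase hQ
    have hne : fj P ≠ fj Q := fun h => (ne_of_mem_erase hQ) (fj_inj h4 hN hP hQ' h).symm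
    have hdis : Disjoint ({fj P, fj Q} : Finset (TE N d)) ((T N d).ins (univ \ L.D) univ) := by
      rw [disjoint_insert_left, disjoint_singleton_left]
      exact ⟨hfe P hP, hfe Q hQ'⟩
    rw [Ex_indep (f := fun η => (if fj P ∈ η then (1:ℝ) else 0) * (if fj Q ∈ η then (1:ℝ) else 0))
      (g := fun η => ((BJ L.D η P ∩ BJ L.D η Q).card : ℝ)) hdis (fun η _ => by simp)
      (fun η _ => by rw [← hBJloc, ← hBJloc])]
    have hdis2 : Disjoint ({fj P} : Finset (TE N d)) {fj Q} := by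
      rw [disjoint_singleton]; exact hne
    rw [Ex_indep (f := fun η => if fj P ∈ η then (1:ℝ) else 0)
      (g := fun η => if fj Q ∈ η then (1:ℝ) else 0) hdis2 (fun η _ => by simp)
      (fun η _ => by simp)]
    have h1 : ∀ e : TE N d, Ex univ p (fun η => if e ∈ η then (1:ℝ) else 0) = p := by
      intro e
      have := Pr_mem (mem_univ e) p
      rw [Pr_eq_Ex] at this
      exact this
    rw [h1, h1]
    apply mul_le_mul_of_nonneg_left _ (by positivity)
    exact vol_inter2 (by omega) hp0 hp1 L.D P Q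
  have s1 := sum_le_sum e1
  have s2 : ∑ P ∈ PM L, ∑ Q ∈ (PM L).erase P, Ex univ p (fun η =>
      ((if fj P ∈ η then (1:ℝ) else 0) * (if fj Q ∈ η then (1:ℝ) else 0)) *
        ((BJ L.D η P ∩ BJ L.D η Q).card : ℝ)) ≤ ∑ P ∈ PM L, ∑ Q ∈ (PM L).erase P,
      p * p * (chi N d p * ∑ v, Mt N d p (wj P) v * Mt N d p v (wj Q)) :=
    sum_le_sum (fun P hP => sum_le_sum (fun Q hQ => e2 P hP Q hQ))
  have s3 : ∑ P ∈ PM L, p * (chi N d p - ∑ a ∈ L.D, Mt N d p (wj P) a * chi N d p)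
      = p * chi N d p * (((PM L).card : ℝ) - ∑ P ∈ PM L, ∑ a ∈ L.D, Mt N d p (wj P) a) := by
    have : ∀ P ∈ PM L, p * (chi N d p - ∑ a ∈ L.D, Mt N d p (wj P) a * chi N d p)
        = p * chi N d p * (1 - ∑ a ∈ L.D, Mt N d p (wj P) a) := by
      intro P _
      rw [← sum_mul]
      ring
    rw [sum_congr rfl this, ← mul_sum, sum_sub_distrib]
    simp
  have s4 : ∑ P ∈ PM L, ∑ Q ∈ (PM L).erase P,
      p * p * (chi N d p * ∑ v, Mt N d p (wj P) v * Mt N d p v (wj Q))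
      = p * chi N d p * (p * ∑ P ∈ PM L, ∑ Q ∈ (PM L).erase P,
        ∑ v, Mt N d p (wj P) v * Mt N d p v (wj Q)) := by
    rw [mul_sum, mul_sum]
    apply sum_congr rfl
    intro P _
    rw [mul_sum, mul_sum]
    apply sum_congr rfl
    intro Q _
    ring
  rw [s3] at s1
  rw [s4] at s2
  linarith

end DLs

end DDA
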