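import Pool.Agent.DDA.DLSB

/-!
# DDA: sharp lower bound, part C: averaged inequality, expected number of macro steps
-/

open Finset

namespace DDA

open DDA.DLo

set_option linter.unusedSectionVars false

namespace DLs

variable {N d : ℕ} [NeZero N] {p : ℝ} {L : ∀ ω : Finset (TE 4 d), Lift2 N d ω}

/-- the coupling identity -/
def Cpl2 (p : ℝ) (L : ∀ ω : Finset (TE 4 d), Lift2 N d ω) : Prop :=
  Cpl p (fun ω => (L ω).toLift)

/-- the averaged inequality -/
lemma main_ineq2 (h4 : 4 ∣ N) (hN : 8 ≤ N) (hp0 : 0 ≤ p) (hp1 : p ≤ 1 / 2) (hL : Cpl2 p L) :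
    chi 4 d p + p * chi N d p * (Ex univ p (fun ω => ((PM (L ω)).card : ℝ))
      - Ex univ p (fun ω => ∑ P ∈ PM (L ω), ∑ a ∈ (L ω).D, Mt N d p (wj P) a)
      - p * Ex univ p (fun ω => ∑ P ∈ PM (L ω), ∑ Q ∈ (PM (L ω)).erase P,
        ∑ v, Mt N d p (wj P) v * Mt N d p v (wj Q))) ≤ chi N d p := by
  have hpp : p ≤ 1 := by linarith
  have h1 := Ex_mono (F := univ) hp0 hpp (fun ω _ => exp_gain2 h4 hN hp0 hp1 (L ω))
  have h2 : Ex univ p (fun ω => Ex univ p (fun η =>
      (((T N d).cl univ (wt (L ω).toLift η) 0).card : ℝ))) = chi N d p :=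
    hL (fun ω' => (((T N d).cl univ ω' 0).card : ℝ))
  rw [h2] at h1
  refine le_trans (le_of_eq ?_) h1
  rw [Ex_add, Ex_mul_left, Ex_sub, Ex_sub, Ex_mul_left]
  congr 1
  unfold chi
  congr 1
  funext ω
  rw [cpl_card (L ω).toLift]

/-! ### the expected number of macro steps -/

lemma sameLine_cases {i : Fin d} {x y : TV 4 d} (h : SameLine i x y) :
    y = x ∨ ∃ k : ℕ, 0 < k ∧ k < 4 ∧ y = x + sg 4 d i k := by
  by_cases h0 : y i = x i
  · left
    funext j
    by_cases hj : j = i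
    · subst hj; exact h0
    · exact h j hj
  · right
    refine ⟨(y i - x i).val, ?_, ZMod.val_lt _, ?_⟩
    · rw [Nat.pos_iff_ne_zero]
      intro h1
      rw [ZMod.val_eq_zero] at h1
      exact h0 (sub_eq_zero.mp h1)
    · funext j
      by_cases hj : j = i
      · subst hj
        rw [Pi.add_apply, sg_apply_self, ZMod.natCast_zmod_val]
        abel
      · rw [Pi.add_apply, sg_apply_ne hj, add_zero]
        exact h j hj
where
  sg_apply_self {i : Fin d} {k : ℕ} : sg 4 d i k i = (k : ZMod 4) := by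
    unfold sg
    rw [Pi.single_eq_same]
  sg_apply_ne {i j : Fin d} {k : ℕ} (h : j ≠ i) : sg 4 d i k j = 0 := by
    unfold sg
    rw [Pi.single_eq_of_ne h]

open Classical in
lemma fr_det (ω : Finset (TE 4 d)) (M : Lift2 N d ω) :
    ∑ i : Fin d, ∑ x : TV 4 d, ((if x ∈ (T 4 d).cl univ ω 0 then (1:ℝ) else 0)
      - ∑ k ∈ range 3, (if x ∈ (T 4 d).cl univ ω 0 ∧ x + sg 4 d i (k + 1) ∈ (T 4 d).cl univ ω 0
        then (1:ℝ) else 0)) ≤ (M.fr.card : ℝ) := by
  set C := (T 4 d).cl univ ω 0 with hC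
  set S : Finset (TV 4 d × Fin d) := univ.filter (fun P => P.1 ∈ C ∧
    ∀ k : ℕ, 0 < k → k < 4 → P.1 + sg 4 d P.2 k ∉ C) with hS
  have h1 : S ⊆ M.fr.image (fun P => (pr4 N d P.1, P.2)) := by
    rintro ⟨x, i⟩ hP
    obtain ⟨_, hx, hk⟩ := mem_filter.mp hP
    simp only at hx hk
    rw [hC, ← M.image] at hx
    obtain ⟨u, hu, hux⟩ := mem_image.mp hx
    rw [mem_image]
    refine ⟨(u, i), M.fr_of u hu i ?_, by simp only; rw [hux]⟩
    intro y hy hsl
    rcases sameLine_cases hsl with h | ⟨k, hk0, hk4, h⟩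
    · exact M.inj hy hu h
    · exfalso
      apply hk k hk0 hk4
      rw [← hux, ← h, hC, ← M.image]
      exact mem_image_of_mem _ hy
  have h2 : (S.card : ℝ) ≤ M.fr.card := by
    exact_mod_cast (card_le_card h1).trans card_image_le
  refine le_trans ?_ h2
  rw [hS, card_filter]
  push_cast
  rw [Fintype.sum_prod_type, sum_comm]
  apply sum_le_sum
  intro x _
  apply sum_le_sum
  intro i _
  simp only
  by_cases hx : x ∈ C
  · by_cases hk : ∀ k : ℕ, 0 < k → k < 4 → x + sg 4 d i k ∉ C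
    · rw [if_pos hx, if_pos ⟨hx, hk⟩]
      have : 0 ≤ ∑ k ∈ range 3, (if x ∈ C ∧ x + sg 4 d i (k + 1) ∈ C then (1:ℝ) else 0) :=
        sum_nonneg (fun k _ => by split_ifs <;> norm_num)
      linarith
    · rw [if_pos hx, if_neg (fun h => hk h.2)]
      push Not at hk
      obtain ⟨k, hk0, hk4, hkC⟩ := hk
      have h3 : (if x ∈ C ∧ x + sg 4 d i (k - 1 + 1) ∈ C then (1:ℝ) else 0) ≤
          ∑ k ∈ range 3, (if x ∈ C ∧ x + sg 4 d i (k + 1) ∈ C then (1:ℝ) else 0) :=
        single_le_sum (f := fun k => (if x ∈ C ∧ x + sg 4 d i (k + 1) ∈ C then (1:ℝ) else 0))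
          (fun k _ => by split_ifs <;> norm_num) (mem_range.mpr (by omega))
      have h4 : k - 1 + 1 = k := by omega
      rw [h4, if_pos ⟨hx, hkC⟩] at h3
      linarith
  · rw [if_neg hx, if_neg (fun h => hx h.1)]
    have : ∑ k ∈ range 3, (if x ∈ C ∧ x + sg 4 d i (k + 1) ∈ C then (1:ℝ) else 0) = 0 :=
      sum_eq_zero (fun k _ => if_neg (fun h => hx h.1))
    rw [this]
    norm_num

lemma Mt_shift (x y c : TV N d) : Mt N d p x (y + c) = Mt N d p (x - c) y := by
  rw [← Mt_add (x - c) y c, sub_add_cancel]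

/-- two points at a given displacement in the cluster -/
lemma two_sum (hN : 2 ≤ N) (hp0 : 0 ≤ p) (hp1 : p ≤ 1 / 2) {b : ℝ} {c : TV N d}
    (hb : ∀ x : TV N d, (Mt N d p * Mt N d p) x (x - c) ≤ b) :
    ∑ x : TV N d, Pr univ p (fun ω => x ∈ (T N d).cl univ ω 0 ∧ x + c ∈ (T N d).cl univ ω 0)
      ≤ chi N d p * b := by
  have hpp : p ≤ 1 := by linarith
  have h1 : ∀ x : TV N d, Pr univ p (fun ω => x ∈ (T N d).cl univ ω 0 ∧
      x + c ∈ (T N d).cl univ ω 0) ≤ ∑ w, Mt N d p 0 w * Mt N d p w x * Mt N d p w (x + c) :=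
    fun x => LG.tree_graph (G := T N d) (F := univ) (S := univ) (k := nv N d) (l := nv N d)
      (T_loopless hN) hp0 hp1 0 x (x + c)
  refine (sum_le_sum (fun x _ => h1 x)).trans ?_
  rw [sum_comm]
  have h2 : ∀ w : TV N d, ∑ x, Mt N d p 0 w * Mt N d p w x * Mt N d p w (x + c)
      = Mt N d p 0 w * (Mt N d p * Mt N d p) w (w - c) := by
    intro w
    rw [Matrix.mul_apply, mul_sum]
    apply sum_congr rfl
    intro x _
    rw [Mt_shift w x c, Mt_comm p (w - c) x, mul_assoc]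
  rw [sum_congr rfl (fun w _ => h2 w)]
  calc ∑ w, Mt N d p 0 w * (Mt N d p * Mt N d p) w (w - c) ≤ ∑ w, Mt N d p 0 w * b :=
        sum_le_sum (fun w _ => mul_le_mul_of_nonneg_left (hb w) (Mt_nonneg hp0 hpp _ _))
    _ = chi N d p * b := by rw [← sum_mul, Mt_row]

/-- lower bound for the expected number of macro steps -/
theorem fr_lower (hp0 : 0 ≤ p) (hp1 : p ≤ 1 / 2) (L : ∀ ω : Finset (TE 4 d), Lift2 N d ω) {b : ℝ}
    (hb : ∀ (i : Fin d) (k : ℕ), 0 < k → k < 4 → ∀ x : TV 4 d,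
      (Mt 4 d p * Mt 4 d p) x (x - sg 4 d i k) ≤ b) :
    d * chi 4 d p * (1 - 3 * b) ≤ Ex univ p (fun ω => ((L ω).fr.card : ℝ)) := by
  classical
  have hpp : p ≤ 1 := by linarith
  have h1 := Ex_mono (F := univ) hp0 hpp (fun ω _ => fr_det ω (L ω))
  refine le_trans ?_ h1
  rw [Ex_sum]
  have h2 : ∀ i : Fin d, chi 4 d p * (1 - 3 * b) ≤ Ex univ p (fun ω => ∑ x : TV 4 d,
      ((if x ∈ (T 4 d).cl univ ω 0 then (1:ℝ) else 0)
      - ∑ k ∈ range 3, (if x ∈ (T 4 d).cl univ ω 0 ∧ x + sg 4 d i (k + 1) ∈ (T 4 d).cl univ ω 0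
        then (1:ℝ) else 0))) := by
    intro i
    have h3 : ∀ ω : Finset (TE 4 d), ∑ x : TV 4 d,
      ((if x ∈ (T 4 d).cl univ ω 0 then (1:ℝ) else 0)
      - ∑ k ∈ range 3, (if x ∈ (T 4 d).cl univ ω 0 ∧ x + sg 4 d i (k + 1) ∈ (T 4 d).cl univ ω 0
        then (1:ℝ) else 0)) = (∑ x : TV 4 d, (if x ∈ (T 4 d).cl univ ω 0 then (1:ℝ) else 0))
      - ∑ k ∈ range 3, ∑ x : TV 4 d, (if x ∈ (T 4 d).cl univ ω 0 ∧
        x + sg 4 d i (k + 1) ∈ (T 4 d).cl univ ω 0 then (1:ℝ) else 0) := by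
      intro ω
      rw [sum_sub_distrib, sum_comm]
    simp only [h3]
    rw [Ex_sub, Ex_sum, Ex_sum]
    have h4 : ∑ x : TV 4 d, Ex univ p (fun ω => if x ∈ (T 4 d).cl univ ω 0 then (1:ℝ) else 0)
        = chi 4 d p := by
      rw [← Mt_row p (0 : TV 4 d)]
      apply sum_congr rfl
      intro x _
      unfold Mt LG.tau
      rw [Pr_eq_Ex]
      apply Ex_congr
      intro ω _
      by_cases h : x ∈ (T 4 d).cl univ ω 0
      · have h' : (T 4 d).Re univ (nv 4 d) 0 x ω := h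
        rw [if_pos h, if_pos h']
      · have h' : ¬ (T 4 d).Re univ (nv 4 d) 0 x ω := h
        rw [if_neg h, if_neg h']
    have h5 : ∑ k ∈ range 3, Ex univ p (fun ω => ∑ x : TV 4 d, (if x ∈ (T 4 d).cl univ ω 0 ∧
        x + sg 4 d i (k + 1) ∈ (T 4 d).cl univ ω 0 then (1:ℝ) else 0))
        ≤ ∑ _k ∈ range 3, chi 4 d p * b := by
      apply sum_le_sum
      intro k hk
      have hk' := mem_range.mp hk
      rw [Ex_sum]
      refine le_trans (le_of_eq ?_) (two_sum (N := 4) (by norm_num) hp0 hp1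
        (hb i (k + 1) (by omega) (by omega)))
      apply sum_congr rfl
      intro x _
      rw [Pr_eq_Ex]
    rw [sum_const, card_range] at h5
    rw [h4]
    simp only [nsmul_eq_mul] at h5
    push_cast at h5
    linarith
  refine le_trans (le_of_eq ?_) (sum_le_sum (fun i _ => h2 i))
  rw [sum_const, nsmul_eq_mul, card_univ, Fintype.card_fin]
  ring

/-! ### connections off the line -/

open Classical in
/-- the part of the first correction which is connected to the `k`-th vertex off the line -/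
noncomputable def SS {ω : Finset (TE 4 d)} (p : ℝ) (M : Lift2 N d ω) (k : ℕ) : ℝ :=
  ∑ P ∈ PM M, ∑ a ∈ M.D,
    if a ∈ (T N d).cl univ (M.O \ Edj P.1 P.2) (pt P.1 P.2 k) then Mt N d p (wj P) a else 0

lemma conn_line (h4 : 4 ∣ N) (hN : 8 ≤ N) {ω : Finset (TE 4 d)} {M : Lift2 N d ω}
    {P : TV N d × (Fin d × Bool)} (hP : P ∈ PM M) {a : TV N d} (ha : a ∈ M.D) :
    ∃ k < 4, a ∈ (T N d).cl univ (M.O \ Edj P.1 P.2) (pt P.1 P.2 k) := by
  obtain ⟨h1, h2, _, _⟩ := PM_spec h4 hN hP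
  have h3 : a ∈ (T N d).cl univ M.O (pt P.1 P.2 0) := by
    have h5 := LG.cl_mono (subset_univ _) (Subset.refl _) (M.conn a ha)
    have h6 := LG.cl_mono (subset_univ _) (Subset.refl _) (M.conn _ (h1 0 (by omega)))
    exact LG.mem_cl_trans (LG.mem_cl_symm h6) h5
  obtain ⟨v, hv, hav⟩ := leave_off Edj_in (subset_univ _) (pt_mem_Lvj (by omega)) h3
  obtain ⟨k, hk, rfl⟩ := mem_Lvj.mp hv
  exact ⟨k, hk, hav⟩

lemma E2_split (h4 : 4 ∣ N) (hN : 8 ≤ N) (hp0 : 0 ≤ p) (hp1 : p ≤ 1) {ω : Finset (TE 4 d)}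
    (M : Lift2 N d ω) :
    ∑ P ∈ PM M, ∑ a ∈ M.D, Mt N d p (wj P) a ≤ ∑ k ∈ range 4, SS p M k := by
  classical
  have e : ∑ k ∈ range 4, SS p M k = ∑ P ∈ PM M, ∑ a ∈ M.D, ∑ k ∈ range 4,
      (if a ∈ (T N d).cl univ (M.O \ Edj P.1 P.2) (pt P.1 P.2 k) then Mt N d p (wj P) a
        else 0) := by
    unfold SS
    rw [sum_comm]
    exact sum_congr rfl (fun P _ => sum_comm)
  rw [e]
  apply sum_le_sum
  intro P hP
  apply sum_le_sum
  intro a ha
  obtain ⟨k, hk, hak⟩ := conn_line h4 hN hP ha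
  refine le_trans (le_of_eq ?_) (single_le_sum (f := fun k =>
    if a ∈ (T N d).cl univ (M.O \ Edj P.1 P.2) (pt P.1 P.2 k) then Mt N d p (wj P) a else 0)
    (fun k _ => by
      beta_reduce
      split_ifs
      · exact Mt_nonneg hp0 hp1 _ _
      · exact le_rfl) (mem_range.mpr hk))
  beta_reduce
  rw [if_pos hak]

/-- the first sum in `T_N` -/
lemma sumA (hp0 : 0 ≤ p) (hp1 : p ≤ 1) (j : Fin d × Bool) {B B' : ℝ}
    (hB : ∀ w : TV N d, (Mt N d p * (Mt N d p * Mt N d p)) w (w - 4 • st N d j) ≤ B)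
    (hB' : ∀ w : TV N d, (Mt N d p * Mt N d p) (w + 4 • st N d j) w ≤ B') :
    ∑ u : TV N d, ∑ a : TV N d, Mt N d p (pt u j 4) a *
      ((∑ w, Mt N d p 0 w * Mt N d p w u * Mt N d p w a)
        + ∑ x ∈ Lvj u j, Mt N d p 0 x * Mt N d p u a) ≤ chi N d p * (B + 4 * B') := by
  classical
  have h1 : ∑ u : TV N d, ∑ a : TV N d, Mt N d p (pt u j 4) a *
      (∑ w, Mt N d p 0 w * Mt N d p w u * Mt N d p w a) ≤ chi N d p * B := by
    have e1 : ∀ u : TV N d, ∑ a : TV N d, Mt N d p (pt u j 4) a *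
        (∑ w, Mt N d p 0 w * Mt N d p w u * Mt N d p w a)
        = ∑ w, Mt N d p 0 w * (Mt N d p w u * (Mt N d p * Mt N d p) u (w - 4 • st N d j)) := by
      intro u
      simp only [mul_sum]
      rw [sum_comm]
      apply sum_congr rfl
      intro w _
      have e2 : (Mt N d p * Mt N d p) u (w - 4 • st N d j)
          = ∑ a, Mt N d p (pt u j 4) a * Mt N d p w a := by
        rw [← Mt2_add u (w - 4 • st N d j) (4 • st N d j), sub_add_cancel, Matrix.mul_apply]
        apply sum_congr rfl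
        intro a _
        rw [Mt_comm p a w]
        rfl
      rw [e2, mul_sum, mul_sum]
      apply sum_congr rfl
      intro a _
      ring
    rw [sum_congr rfl (fun u _ => e1 u), sum_comm]
    calc ∑ w, ∑ u, Mt N d p 0 w * (Mt N d p w u * (Mt N d p * Mt N d p) u (w - 4 • st N d j))
        = ∑ w, Mt N d p 0 w * (Mt N d p * (Mt N d p * Mt N d p)) w (w - 4 • st N d j) := by
          apply sum_congr rfl
          intro w _
          rw [Matrix.mul_apply (M := Mt N d p) (N := Mt N d p * Mt N d p), mul_sum]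
      _ ≤ ∑ w, Mt N d p 0 w * B :=
          sum_le_sum (fun w _ => mul_le_mul_of_nonneg_left (hB w) (Mt_nonneg hp0 hp1 _ _))
      _ = chi N d p * B := by rw [← sum_mul, Mt_row]
  have hB'0 : 0 ≤ B' := (Mt2_nonneg hp0 hp1 _ _).trans (hB' 0)
  have h2 : ∑ u : TV N d, ∑ a : TV N d, Mt N d p (pt u j 4) a *
      (∑ x ∈ Lvj u j, Mt N d p 0 x * Mt N d p u a) ≤ chi N d p * (4 * B') := by
    have e1 : ∀ u : TV N d, ∑ a : TV N d, Mt N d p (pt u j 4) a *
        (∑ x ∈ Lvj u j, Mt N d p 0 x * Mt N d p u a) ≤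
        ∑ k ∈ range 4, Mt N d p 0 (pt u j k) * B' := by
      intro u
      have e2 : ∑ a : TV N d, Mt N d p (pt u j 4) a *
        (∑ x ∈ Lvj u j, Mt N d p 0 x * Mt N d p u a)
        = (∑ x ∈ Lvj u j, Mt N d p 0 x) * (Mt N d p * Mt N d p) (pt u j 4) u := by
        rw [Matrix.mul_apply, mul_sum]
        apply sum_congr rfl
        intro a _
        rw [← sum_mul, Mt_comm p u a]
        ring
      rw [e2]
      calc (∑ x ∈ Lvj u j, Mt N d p 0 x) * (Mt N d p * Mt N d p) (pt u j 4) u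
          ≤ (∑ k ∈ range 4, Mt N d p 0 (pt u j k)) * B' := by
            apply mul_le_mul (sum_Lvj_le (fun x => Mt_nonneg hp0 hp1 _ _) u j) (hB' u)
              (Mt2_nonneg hp0 hp1 _ _) (sum_nonneg (fun k _ => Mt_nonneg hp0 hp1 _ _))
        _ = _ := by rw [sum_mul]
    refine (sum_le_sum (fun u _ => e1 u)).trans ?_
    rw [sum_comm]
    have e3 : ∀ k ∈ range 4, ∑ u : TV N d, Mt N d p 0 (pt u j k) * B' = chi N d p * B' := by
      intro k _
      rw [← sum_mul]
      congr 1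
      rw [← Mt_row p (0 : TV N d)]
      exact Equiv.sum_comp (Equiv.addRight (k • st N d j)) (fun x => Mt N d p 0 x)
    rw [sum_congr rfl e3, sum_const, card_range, nsmul_eq_mul]
    push_cast
    linarith
  calc _ = ∑ u : TV N d, ∑ a : TV N d, Mt N d p (pt u j 4) a *
      (∑ w, Mt N d p 0 w * Mt N d p w u * Mt N d p w a) + ∑ u : TV N d, ∑ a : TV N d,
        Mt N d p (pt u j 4) a * (∑ x ∈ Lvj u j, Mt N d p 0 x * Mt N d p u a) := by
        rw [← sum_add_distrib]
        apply sum_congr rfl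
        intro u _
        rw [← sum_add_distrib]
        apply sum_congr rfl
        intro a _
        ring
    _ ≤ _ := by linarith

/-- first correction, connected to the first vertex of the line -/
theorem E2A (h4 : 4 ∣ N) (hN : 8 ≤ N) (hp0 : 0 ≤ p) (hp1 : p ≤ 1 / 2) (hL : Cpl2 p L) {B B' : ℝ}
    (hB : ∀ (j : Fin d × Bool) (w : TV N d),
      (Mt N d p * (Mt N d p * Mt N d p)) w (w - 4 • st N d j) ≤ B)
    (hB' : ∀ (j : Fin d × Bool) (w : TV N d), (Mt N d p * Mt N d p) (w + 4 • st N d j) w ≤ B') :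
    Ex univ p (fun ω => SS p (L ω) 0) ≤ p ^ 3 * (2 * d * (chi N d p * (B + 4 * B'))) := by
  classical
  have hpp : p ≤ 1 := by linarith
  let ev : TV N d × (Fin d × Bool) → TV N d → Finset (TE N d) → Prop := fun P a ζ =>
    Edj P.1 P.2 ⊆ ζ ∧ (∃ x ∈ Lvj P.1 P.2, x ∈ (T N d).cl univ ζ 0) ∧
      a ∈ (T N d).cl univ (ζ \ Edj P.1 P.2) P.1
  have h1 : Ex univ p (fun ω => SS p (L ω) 0) ≤ ∑ P : TV N d × (Fin d × Bool), ∑ a : TV N d,
      Mt N d p (wj P) a * Pr univ p (ev P a) := by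
    have e1 : ∀ ω : Finset (TE 4 d), SS p (L ω) 0 ≤ Ex univ p (fun η =>
        ∑ P : TV N d × (Fin d × Bool), ∑ a : TV N d,
        Mt N d p (wj P) a * (if ev P a (wt (L ω).toLift η) then (1:ℝ) else 0)) := by
      intro ω
      apply le_Ex hp0 hpp
      intro η _
      unfold SS
      refine le_trans ?_ (sum_le_sum_of_subset_of_nonneg (subset_univ (PM (L ω))) ?_)
      · apply sum_le_sum
        intro P hP
        refine le_trans ?_ (sum_le_sum_of_subset_of_nonneg (subset_univ (L ω).D) ?_)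
        · apply sum_le_sum
          intro a ha
          by_cases h : a ∈ (T N d).cl univ ((L ω).O \ Edj P.1 P.2) (pt P.1 P.2 0)
          · rw [if_pos h, if_pos, mul_one]
            obtain ⟨h5, h6, _, _⟩ := PM_spec h4 hN hP
            refine ⟨h6.trans subset_union_left, ⟨pt P.1 P.2 0, pt_mem_Lvj (by omega),
              D_sub η (h5 0 (by omega))⟩, ?_⟩
            rw [pt_zero] at h
            exact LG.cl_mono (subset_univ _) (sdiff_subset_sdiff subset_union_left
              (Subset.refl _)) h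
          · rw [if_neg h]
            apply mul_nonneg (Mt_nonneg hp0 hpp _ _)
            split_ifs <;> norm_num
        · intro a _ _
          apply mul_nonneg (Mt_nonneg hp0 hpp _ _)
          split_ifs <;> norm_num
      · intro P _ _
        apply sum_nonneg
        intro a _
        apply mul_nonneg (Mt_nonneg hp0 hpp _ _)
        split_ifs <;> norm_num
    refine (Ex_mono hp0 hpp (fun ω _ => e1 ω)).trans (le_of_eq ?_)
    have e2 := hL (fun ζ => ∑ P : TV N d × (Fin d × Bool), ∑ a : TV N d,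
        Mt N d p (wj P) a * (if ev P a ζ then (1:ℝ) else 0))
    beta_reduce at e2
    rw [e2, Ex_sum]
    apply sum_congr rfl
    intro P _
    rw [Ex_sum]
    apply sum_congr rfl
    intro a _
    rw [Ex_mul_left, Pr_eq_Ex]
  refine h1.trans ?_
  have h2 : ∀ P : TV N d × (Fin d × Bool), ∀ a : TV N d,
      Mt N d p (wj P) a * Pr univ p (ev P a) ≤ p ^ 3 * (Mt N d p (wj P) a *
        ((∑ w, Mt N d p 0 w * Mt N d p w P.1 * Mt N d p w a)
        + ∑ x ∈ Lvj P.1 P.2, Mt N d p 0 x * Mt N d p P.1 a)) := by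
    intro P a
    have h3 := three_off (N := N) (by omega) hp0 hp1 (Edj P.1 P.2) (Lvj P.1 P.2) Edj_in 0 P.1 a
    rw [card_Edj (by omega)] at h3
    calc Mt N d p (wj P) a * Pr univ p (ev P a) ≤ Mt N d p (wj P) a * _ :=
          mul_le_mul_of_nonneg_left h3 (Mt_nonneg hp0 hpp _ _)
      _ = _ := by ring
  refine (sum_le_sum (fun P _ => sum_le_sum (fun a _ => h2 P a))).trans ?_
  simp only [← mul_sum]
  apply mul_le_mul_of_nonneg_left _ (by positivity)
  rw [Fintype.sum_prod_type, sum_comm]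
  have h3 : ∀ j : Fin d × Bool, _ := fun j => sumA (p := p) hp0 hpp j (hB j) (hB' j)
  refine (sum_le_sum (fun j _ => h3 j)).trans (le_of_eq ?_)
  rw [sum_const, nsmul_eq_mul, card_univ, Fintype.card_prod, Fintype.card_fin, Fintype.card_bool]
  push_cast
  ring

end DLs

end DDA
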