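import Pool.Agent.DDA.DLSC

/-!
# DDA: sharp lower bound, part D: connections off the line, projected to `T_4`
-/

open Finset

namespace DDA

open DDA.DLo

set_option linter.unusedSectionVars false

namespace DLs

variable {N d : ℕ} [NeZero N] {p : ℝ} {L : ∀ ω : Finset (TE 4 d), Lift2 N d ω}

/-! ### the projected two-point function -/

/-- the two-point function of `T_N` summed over the fibres of the covering map -/
noncomputable def Ms (N d : ℕ) [NeZero N] (p : ℝ) : Matrix (TV 4 d) (TV 4 d) ℝ :=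
  fun x y => ∑ c : TV N d, if pr4 N d c = y - x then Mt N d p 0 c else 0

lemma Ms_nonneg (hp0 : 0 ≤ p) (hp1 : p ≤ 1) (x y : TV 4 d) : 0 ≤ Ms N d p x y := by
  unfold Ms
  apply sum_nonneg
  intro c _
  split_ifs
  · exact Mt_nonneg hp0 hp1 _ _
  · exact le_rfl

lemma Mt_le_Ms (h4 : 4 ∣ N) (hp0 : 0 ≤ p) (hp1 : p ≤ 1) (b c : TV N d) :
    Mt N d p b c ≤ Ms N d p (pr4 N d b) (pr4 N d c) := by
  unfold Ms
  refine le_trans (le_of_eq ?_) (single_le_sum (f := fun e : TV N d =>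
    if pr4 N d e = pr4 N d c - pr4 N d b then Mt N d p 0 e else 0) (fun e _ => by
      beta_reduce
      split_ifs
      · exact Mt_nonneg hp0 hp1 _ _
      · exact le_rfl) (mem_univ (c - b)))
  beta_reduce
  rw [if_pos (pr4_sub h4 c b)]
  have := Mt_add (p := p) (0 : TV N d) (c - b) b
  rw [zero_add, sub_add_cancel] at this
  exact this

lemma Ms_comm (h4 : 4 ∣ N) (x y : TV 4 d) : Ms N d p x y = Ms N d p y x := by
  unfold Ms
  rw [← Equiv.sum_comp (Equiv.neg (TV N d))]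
  apply sum_congr rfl
  intro c _
  simp only [Equiv.neg_apply]
  have h1 : (pr4 N d (-c) = y - x) ↔ (pr4 N d c = x - y) := by
    rw [pr4_neg h4]
    constructor
    · intro h
      rw [← neg_neg (pr4 N d c), h, neg_sub]
    · intro h
      rw [h, neg_sub]
  have h2 : Mt N d p 0 (-c) = Mt N d p 0 c := by
    have := Mt_add (p := p) (0 : TV N d) (-c) c
    rw [zero_add, neg_add_cancel] at this
    rw [← this, Mt_comm]
  simp only [h1, h2]

lemma Ms_add (x y c : TV 4 d) : Ms N d p (x + c) (y + c) = Ms N d p x y := by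
  unfold Ms
  rw [add_sub_add_right_eq_sub]

lemma Ms_row (x : TV 4 d) : ∑ y, Ms N d p x y = chi N d p := by
  unfold Ms
  rw [sum_comm, ← Mt_row p (0 : TV N d)]
  apply sum_congr rfl
  intro c _
  rw [sum_eq_single (pr4 N d c + x)]
  · rw [if_pos (add_sub_cancel_right _ _).symm]
  · intro y _ hy
    rw [if_neg]
    intro h
    apply hy
    rw [h, sub_add_cancel]
  · intro h
    exact absurd (mem_univ _) h

lemma Ms_oneStep (h4 : 4 ∣ N) (hN : 3 ≤ N) (hd : 1 ≤ d) (hp0 : 0 ≤ p) (hp1 : p ≤ 1)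
    (hpd : p ≤ 1 / d) {F : ℝ} (hF : chi N d p ≤ F) : OneStep 2 F (Ms N d p) := by
  have h0 := Mt_oneStep (N := N) (d := d) hN hd hp0 hp1 hpd hF
  refine ⟨fun x y => Ms_nonneg hp0 hp1 x y, ?_, fun x => (Ms_row x).trans_le hF, ?_⟩
  · intro x y
    have h1 : ∀ c : TV N d, (if pr4 N d c = y - x then Mt N d p 0 c else 0) ≤
        (if pr4 N d c = y - x then (if (0 : TV N d) = c then (1:ℝ) else 0) else 0)
        + 2 / (2 * d) * (if pr4 N d c = y - x then nbS (fun x' => Mt N d p x' c) 0 else 0) := by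
      intro c
      by_cases h : pr4 N d c = y - x
      · simp only [h, if_true]
        exact h0.step 0 c
      · simp only [h, if_false]
        simp
    have h2 : Ms N d p x y ≤ ∑ c : TV N d,
        ((if pr4 N d c = y - x then (if (0 : TV N d) = c then (1:ℝ) else 0) else 0)
        + 2 / (2 * d) * (if pr4 N d c = y - x then nbS (fun x' => Mt N d p x' c) 0 else 0)) :=
      sum_le_sum (fun c _ => h1 c)
    refine h2.trans ?_
    rw [sum_add_distrib, ← mul_sum]
    apply add_le_add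
    · rw [sum_eq_single (0 : TV N d)]
      · rw [pr4_zero]
        by_cases h : x = y
        · subst h
          simp
        · rw [if_neg h, if_neg]
          intro h'
          exact h (sub_eq_zero.mp h'.symm).symm
      · intro c _ hc
        have h9 : (if (0 : TV N d) = c then (1:ℝ) else 0) = 0 := if_neg (fun h => hc h.symm)
        rw [h9, ite_self]
      · intro h
        exact absurd (mem_univ _) h
    · apply mul_le_mul_of_nonneg_left _ (by positivity)
      apply le_of_eq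
      rw [nbS_eq]
      have h3 : ∀ c : TV N d, (if pr4 N d c = y - x then nbS (fun x' => Mt N d p x' c) 0 else 0)
          = ∑ j : Fin d × Bool, (if pr4 N d c = y - x then Mt N d p (nb 0 j) c else 0) := by
        intro c
        rw [nbS_eq]
        split_ifs
        · rfl
        · simp
      rw [sum_congr rfl (fun c _ => h3 c), sum_comm]
      apply sum_congr rfl
      intro j _
      unfold Ms
      rw [← Equiv.sum_comp (Equiv.addRight (st N d j))]
      apply sum_congr rfl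
      intro c _
      simp only [Equiv.coe_addRight]
      have h5 : (pr4 N d (c + st N d j) = y - x) ↔ (pr4 N d c = y - nb x j) := by
        rw [pr4_add h4, pr4_st h4, nb_st]
        constructor
        · intro h
          rw [eq_sub_iff_add_eq] at h ⊢
          rw [← h]
          abel
        · intro h
          rw [h]
          abel
      have h6 : Mt N d p (nb 0 j) (c + st N d j) = Mt N d p 0 c := by
        rw [nb_st, Mt_add]
      simp only [h5, h6]
  · intro y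
    have : ∀ x, Ms N d p x y = Ms N d p y x := fun x => Ms_comm h4 x y
    simp only [this]
    exact (Ms_row y).trans_le hF

/-! ### the projection of the exploration -/

/-- the covering map on lines -/
def prP (P : TV N d × (Fin d × Bool)) : TV 4 d × (Fin d × Bool) := (pr4 N d P.1, P.2)

/-- images of connections -/
lemma map_cl (h4 : 4 ∣ N) {O' : Finset (TE N d)} {ω' : Finset (TE 4 d)}
    (h : ∀ e ∈ O', pr4E N d e ∈ ω') {v a : TV N d} (ha : a ∈ (T N d).cl univ O' v) :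
    pr4 N d a ∈ (T 4 d).cl univ ω' (pr4 N d v) := by
  have key : ∀ k, ∀ z ∈ (T N d).ball univ O' v k, pr4 N d z ∈ (T 4 d).cl univ ω' (pr4 N d v) := by
    intro k
    induction k with
    | zero =>
      intro z hz
      obtain ⟨_, rfl⟩ := LG.mem_ball_zero.mp hz
      exact LG.self_mem_cl (mem_univ _)
    | succ k ih =>
      intro z hz
      rcases LG.mem_ball_succ.mp hz with h' | ⟨_, y, hy, e, he, hJ⟩
      · exact ih z h'
      · exact LG.mem_cl_step (ih y hy) ⟨_, h e he, pr4_J h4 hJ⟩ (mem_univ _)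
  exact key _ a ha

/-- the event in `T_4` -/
def ev4 (k : ℕ) (Q : TV 4 d × (Fin d × Bool)) (c : TV 4 d) (ω : Finset (TE 4 d)) : Prop :=
  Edj Q.1 Q.2 ⊆ ω ∧ (∃ x ∈ Lvj Q.1 Q.2, x ∈ (T 4 d).cl univ ω 0) ∧
    c ∈ (T 4 d).cl univ (ω \ Edj Q.1 Q.2) (pt Q.1 Q.2 k)

lemma proj_ev (h4 : 4 ∣ N) (hN : 8 ≤ N) {ω : Finset (TE 4 d)} {M : Lift2 N d ω}
    {P : TV N d × (Fin d × Bool)} (hP : P ∈ PM M) {k : ℕ} {a : TV N d}
    (h : a ∈ (T N d).cl univ (M.O \ Edj P.1 P.2) (pt P.1 P.2 k)) :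
    ev4 k (prP P) (pr4 N d a) ω := by
  obtain ⟨h1, h2, _, _⟩ := PM_spec h4 hN hP
  refine ⟨?_, ?_, ?_⟩
  · intro e he
    obtain ⟨l, hl, rfl⟩ := mem_Edj.mp he
    have h3 : eg (pt P.1 P.2 l) P.2 ∈ M.O := h2 (mem_Edj.mpr ⟨l, hl, rfl⟩)
    have h5 := (M.open_mem _ h3).1
    rw [pr4E_eg h4, pr4_pt h4] at h5
    exact h5
  · refine ⟨pt (pr4 N d P.1) P.2 0, pt_mem_Lvj (by omega), ?_⟩
    rw [pt_zero, ← M.image]
    have := h1 0 (by omega)
    rw [pt_zero] at this
    exact mem_image_of_mem _ this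
  · have h3 : pt (prP P).1 (prP P).2 k = pr4 N d (pt P.1 P.2 k) := (pr4_pt h4 _ _ _).symm
    rw [h3]
    refine map_cl h4 ?_ h
    intro e he
    obtain ⟨heO, heE⟩ := mem_sdiff.mp he
    refine mem_sdiff.mpr ⟨(M.open_mem e heO).1, fun h5 => heE ?_⟩
    obtain ⟨l, hl, h6⟩ := mem_Edj.mp h5
    have h7 : eg (pt (prP P).1 (prP P).2 l) (prP P).2 = pr4E N d (eg (pt P.1 P.2 l) P.2) := by
      rw [pr4E_eg h4, pr4_pt h4]
      rfl
    rw [h7] at h6
    have h8 : eg (pt P.1 P.2 l) P.2 ∈ M.O := h2 (mem_Edj.mpr ⟨l, hl, rfl⟩)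
    have h9 : eg (pt P.1 P.2 l) P.2 = e := by
      have g1 := congrArg Prod.fst h6
      have g2 := congrArg Prod.snd h6
      apply Prod.ext
      · exact M.inj (M.open_mem _ h8).2.1 (M.open_mem _ heO).2.1 g1
      · exact g2
    rw [← h9]
    exact mem_Edj.mpr ⟨l, hl, rfl⟩

open Classical in
/-- deterministic projection bound -/
lemma SS_le (h4 : 4 ∣ N) (hN : 8 ≤ N) (hp0 : 0 ≤ p) (hp1 : p ≤ 1) {ω : Finset (TE 4 d)}
    (M : Lift2 N d ω) (k : ℕ) :
    SS p M k ≤ ∑ Q : TV 4 d × (Fin d × Bool), ∑ c : TV 4 d,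
      Ms N d p Q.1 c * (if ev4 k Q c ω then (1:ℝ) else 0) := by
  set F : TV 4 d × (Fin d × Bool) → TV 4 d → ℝ := fun Q c =>
    Ms N d p Q.1 c * (if ev4 k Q c ω then (1:ℝ) else 0) with hF
  have hF0 : ∀ Q c, 0 ≤ F Q c := by
    intro Q c
    apply mul_nonneg (Ms_nonneg hp0 hp1 _ _)
    split_ifs <;> norm_num
  have h1 : SS p M k ≤ ∑ P ∈ PM M, ∑ a ∈ M.D, F (prP P) (pr4 N d a) := by
    unfold SS
    apply sum_le_sum
    intro P hP
    apply sum_le_sum
    intro a ha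
    by_cases h : a ∈ (T N d).cl univ (M.O \ Edj P.1 P.2) (pt P.1 P.2 k)
    · rw [if_pos h, hF]
      simp only
      rw [if_pos (proj_ev h4 hN hP h), mul_one]
      have h2 := Mt_le_Ms (p := p) h4 hp0 hp1 (wj P) a
      have h3 : pr4 N d (wj P) = (prP P).1 := by
        unfold wj
        rw [pr4_pt h4, pt4_four]
        rfl
      rw [h3] at h2
      exact h2
    · rw [if_neg h]
      exact hF0 _ _
  refine h1.trans ?_
  have h2 : ∀ Q, ∑ a ∈ M.D, F Q (pr4 N d a) ≤ ∑ c, F Q c := by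
    intro Q
    rw [← sum_image (f := F Q) (g := pr4 N d) M.inj]
    exact sum_le_sum_of_subset_of_nonneg (subset_univ _) (fun c _ _ => hF0 Q c)
  refine (sum_le_sum (fun P _ => h2 (prP P))).trans ?_
  have hinj : Set.InjOn (prP (N := N) (d := d)) (PM M : Set (TV N d × (Fin d × Bool))) := by
    intro P hP Q hQ h
    obtain ⟨a1, _⟩ := PM_spec h4 hN (mem_coe.mp hP)
    obtain ⟨b1, _⟩ := PM_spec h4 hN (mem_coe.mp hQ)
    have a2 := a1 0 (by omega)
    have b2 := b1 0 (by omega)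
    rw [pt_zero] at a2 b2
    have g1 := congrArg Prod.fst h
    have g2 := congrArg Prod.snd h
    exact Prod.ext (M.inj a2 b2 g1) g2
  rw [← sum_image (f := fun Q => ∑ c, F Q c) (g := prP) hinj]
  exact sum_le_sum_of_subset_of_nonneg (subset_univ _) (fun Q _ _ => sum_nonneg (fun c _ => hF0 Q c))

/-! ### the sums in `T_4` -/

lemma MMs_nonneg (hp0 : 0 ≤ p) (hp1 : p ≤ 1) (x y : TV 4 d) :
    0 ≤ (Mt 4 d p * Ms N d p) x y := by
  rw [Matrix.mul_apply]
  exact sum_nonneg (fun v _ => mul_nonneg (Mt_nonneg hp0 hp1 _ _) (Ms_nonneg hp0 hp1 _ _))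

lemma sumB (h4 : 4 ∣ N) (hp0 : 0 ≤ p) (hp1 : p ≤ 1) (j : Fin d × Bool) (k : ℕ) {B B' : ℝ}
    (hB : ∀ w : TV 4 d, ((Mt 4 d p * Ms N d p) * Mt 4 d p) w (w - k • st 4 d j) ≤ B)
    (hB' : ∀ w : TV 4 d, (Mt 4 d p * Ms N d p) (w + k • st 4 d j) w ≤ B') :
    ∑ u : TV 4 d, ∑ a : TV 4 d, Ms N d p u a *
      ((∑ w, Mt 4 d p 0 w * Mt 4 d p w (pt u j k) * Mt 4 d p w a)
        + ∑ x ∈ Lvj u j, Mt 4 d p 0 x * Mt 4 d p (pt u j k) a) ≤ chi 4 d p * (B + 4 * B') := by
  classical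
  have h1 : ∑ u : TV 4 d, ∑ a : TV 4 d, Ms N d p u a *
      (∑ w, Mt 4 d p 0 w * Mt 4 d p w (pt u j k) * Mt 4 d p w a) ≤ chi 4 d p * B := by
    have e1 : ∀ u : TV 4 d, ∑ a : TV 4 d, Ms N d p u a *
        (∑ w, Mt 4 d p 0 w * Mt 4 d p w (pt u j k) * Mt 4 d p w a)
        = ∑ w, Mt 4 d p 0 w * ((Mt 4 d p * Ms N d p) w u * Mt 4 d p u (w - k • st 4 d j)) := by
      intro u
      simp only [mul_sum]
      rw [sum_comm]
      apply sum_congr rfl
      intro w _
      have e2 : Mt 4 d p u (w - k • st 4 d j) = Mt 4 d p w (pt u j k) := by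
        unfold pt
        rw [Mt_shift w u, Mt_comm]
      rw [e2, Matrix.mul_apply, sum_mul, mul_sum]
      apply sum_congr rfl
      intro a _
      rw [Ms_comm h4 a u]
      ring
    rw [sum_congr rfl (fun u _ => e1 u), sum_comm]
    calc ∑ w, ∑ u, Mt 4 d p 0 w * ((Mt 4 d p * Ms N d p) w u * Mt 4 d p u (w - k • st 4 d j))
        = ∑ w, Mt 4 d p 0 w * ((Mt 4 d p * Ms N d p) * Mt 4 d p) w (w - k • st 4 d j) := by
          apply sum_congr rfl
          intro w _
          rw [Matrix.mul_apply (M := Mt 4 d p * Ms N d p) (N := Mt 4 d p), mul_sum]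
      _ ≤ ∑ w, Mt 4 d p 0 w * B :=
          sum_le_sum (fun w _ => mul_le_mul_of_nonneg_left (hB w) (Mt_nonneg hp0 hp1 _ _))
      _ = chi 4 d p * B := by rw [← sum_mul, Mt_row]
  have hB'0 : 0 ≤ B' := (MMs_nonneg hp0 hp1 _ _).trans (hB' 0)
  have h2 : ∑ u : TV 4 d, ∑ a : TV 4 d, Ms N d p u a *
      (∑ x ∈ Lvj u j, Mt 4 d p 0 x * Mt 4 d p (pt u j k) a) ≤ chi 4 d p * (4 * B') := by
    have e1 : ∀ u : TV 4 d, ∑ a : TV 4 d, Ms N d p u a *
        (∑ x ∈ Lvj u j, Mt 4 d p 0 x * Mt 4 d p (pt u j k) a) ≤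
        ∑ l ∈ range 4, Mt 4 d p 0 (pt u j l) * B' := by
      intro u
      have e2 : ∑ a : TV 4 d, Ms N d p u a *
        (∑ x ∈ Lvj u j, Mt 4 d p 0 x * Mt 4 d p (pt u j k) a)
        = (∑ x ∈ Lvj u j, Mt 4 d p 0 x) * (Mt 4 d p * Ms N d p) (pt u j k) u := by
        rw [Matrix.mul_apply, mul_sum]
        apply sum_congr rfl
        intro a _
        rw [← sum_mul, Ms_comm h4 a u]
        ring
      rw [e2]
      calc (∑ x ∈ Lvj u j, Mt 4 d p 0 x) * (Mt 4 d p * Ms N d p) (pt u j k) u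
          ≤ (∑ l ∈ range 4, Mt 4 d p 0 (pt u j l)) * B' := by
            apply mul_le_mul (sum_Lvj_le (fun x => Mt_nonneg hp0 hp1 _ _) u j) (hB' u)
              (MMs_nonneg hp0 hp1 _ _) (sum_nonneg (fun l _ => Mt_nonneg hp0 hp1 _ _))
        _ = _ := by rw [sum_mul]
    refine (sum_le_sum (fun u _ => e1 u)).trans ?_
    rw [sum_comm]
    have e3 : ∀ l ∈ range 4, ∑ u : TV 4 d, Mt 4 d p 0 (pt u j l) * B' = chi 4 d p * B' := by
      intro l _
      rw [← sum_mul]
      congr 1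
      rw [← Mt_row p (0 : TV 4 d)]
      exact Equiv.sum_comp (Equiv.addRight (l • st 4 d j)) (fun x => Mt 4 d p 0 x)
    rw [sum_congr rfl e3, sum_const, card_range, nsmul_eq_mul]
    push_cast
    linarith
  calc _ = ∑ u : TV 4 d, ∑ a : TV 4 d, Ms N d p u a *
      (∑ w, Mt 4 d p 0 w * Mt 4 d p w (pt u j k) * Mt 4 d p w a) + ∑ u : TV 4 d, ∑ a : TV 4 d,
        Ms N d p u a * (∑ x ∈ Lvj u j, Mt 4 d p 0 x * Mt 4 d p (pt u j k) a) := by
        rw [← sum_add_distrib]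
        apply sum_congr rfl
        intro u _
        rw [← sum_add_distrib]
        apply sum_congr rfl
        intro a _
        ring
    _ ≤ _ := by linarith

/-- first correction, connected to the other vertices of the line -/
theorem E2B (h4 : 4 ∣ N) (hN : 8 ≤ N) (hp0 : 0 ≤ p) (hp1 : p ≤ 1 / 2)
    (L : ∀ ω : Finset (TE 4 d), Lift2 N d ω) (k : ℕ) {B B' : ℝ}
    (hB : ∀ (j : Fin d × Bool) (w : TV 4 d),
      ((Mt 4 d p * Ms N d p) * Mt 4 d p) w (w - k • st 4 d j) ≤ B)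
    (hB' : ∀ (j : Fin d × Bool) (w : TV 4 d), (Mt 4 d p * Ms N d p) (w + k • st 4 d j) w ≤ B') :
    Ex univ p (fun ω => SS p (L ω) k) ≤ p ^ 3 * (2 * d * (chi 4 d p * (B + 4 * B'))) := by
  classical
  have hpp : p ≤ 1 := by linarith
  have h1 : Ex univ p (fun ω => SS p (L ω) k) ≤ ∑ Q : TV 4 d × (Fin d × Bool), ∑ c : TV 4 d,
      Ms N d p Q.1 c * Pr univ p (ev4 k Q c) := by
    refine (Ex_mono hp0 hpp (fun ω _ => SS_le h4 hN hp0 hpp (L ω) k)).trans (le_of_eq ?_)
    rw [Ex_sum]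
    apply sum_congr rfl
    intro Q _
    rw [Ex_sum]
    apply sum_congr rfl
    intro c _
    rw [Ex_mul_left, Pr_eq_Ex]
  refine h1.trans ?_
  have h2 : ∀ Q : TV 4 d × (Fin d × Bool), ∀ c : TV 4 d,
      Ms N d p Q.1 c * Pr univ p (ev4 k Q c) ≤ p ^ 3 * (Ms N d p Q.1 c *
        ((∑ w, Mt 4 d p 0 w * Mt 4 d p w (pt Q.1 Q.2 k) * Mt 4 d p w c)
        + ∑ x ∈ Lvj Q.1 Q.2, Mt 4 d p 0 x * Mt 4 d p (pt Q.1 Q.2 k) c)) := by
    intro Q c
    have h3 := three_off (N := 4) (by norm_num) hp0 hp1 (Edj Q.1 Q.2) (Lvj Q.1 Q.2) Edj_in 0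
      (pt Q.1 Q.2 k) c
    rw [card_Edj (by norm_num)] at h3
    calc Ms N d p Q.1 c * Pr univ p (ev4 k Q c) ≤ Ms N d p Q.1 c * _ :=
          mul_le_mul_of_nonneg_left h3 (Ms_nonneg hp0 hpp _ _)
      _ = _ := by ring
  refine (sum_le_sum (fun Q _ => sum_le_sum (fun c _ => h2 Q c))).trans ?_
  simp only [← mul_sum]
  apply mul_le_mul_of_nonneg_left _ (by positivity)
  rw [Fintype.sum_prod_type, sum_comm]
  have h3 : ∀ j : Fin d × Bool, _ := fun j => sumB (p := p) h4 hp0 hpp j k (hB j) (hB' j)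
  refine (sum_le_sum (fun j _ => h3 j)).trans (le_of_eq ?_)
  rw [sum_const, nsmul_eq_mul, card_univ, Fintype.card_prod, Fintype.card_fin, Fintype.card_bool]
  push_cast
  ring

end DLs

end DDA
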