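import Pool.Agent.DDA.DLSD

/-!
# DDA: sharp lower bound, part E: the second correction
-/

open Finset

namespace DDA

open DDA.DLo

set_option linter.unusedSectionVars false

namespace DLs

variable {N d : ℕ} [NeZero N] {p : ℝ} {L : ∀ ω : Finset (TE 4 d), Lift2 N d ω}

/-- displacement between two lines -/
def cd (N : ℕ) (j j' : Fin d × Bool) (k : ℕ) : TV N d := 4 • st N d j' - (4 - k) • st N d j

lemma cd_ne (hN : 12 ≤ N) {j j' : Fin d × Bool} {k : ℕ} (hk : k < 4) (h : cd N j j' k = 0) :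
    j' = j ∧ k = 0 := by
  have h1 := congrFun h j'.1
  unfold cd at h1
  rw [Pi.sub_apply, smul_st_self, Pi.zero_apply] at h1
  have nz : ∀ m : ℕ, 0 < m → m < 12 → (m : ZMod N) ≠ 0 := by
    intro m hm1 hm2 h0
    rw [ZMod.natCast_eq_zero_iff] at h0
    have := Nat.le_of_dvd hm1 h0
    omega
  by_cases hj : j'.1 = j.1
  · rw [hj, smul_st_self] at h1
    obtain ⟨i, b⟩ := j
    obtain ⟨i', b'⟩ := j'
    simp only at hj
    subst hj
    have hsub : (4:ℕ) = k + (4 - k) := by omega
    cases b <;> cases b' <;> simp only [if_true] at h1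
    · by_cases hk0 : k = 0
      · exact ⟨rfl, hk0⟩
      · exfalso
        apply nz k (by omega) (by omega)
        have h2 : ((4:ℕ) : ZMod N) = k + ((4 - k : ℕ) : ZMod N) := by
          rw [← Nat.cast_add, ← hsub]
        simp only [Bool.false_eq_true, if_false] at h1
        rw [h2] at h1
        have : (k : ZMod N) = -(-(↑k + ↑(4 - k)) - -((4 - k : ℕ) : ZMod N)) := by abel
        rw [this, h1, neg_zero]
    · exfalso
      apply nz (4 + (4 - k)) (by omega) (by omega)
      push_cast
      simp only [Bool.false_eq_true, if_false] at h1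
      push_cast at h1
      rw [sub_neg_eq_add] at h1
      exact h1
    · exfalso
      apply nz (4 + (4 - k)) (by omega) (by omega)
      push_cast
      simp only [Bool.false_eq_true, if_false] at h1
      push_cast at h1
      have : (4 : ZMod N) + ((4 - k : ℕ) : ZMod N) = -(-4 - ((4 - k : ℕ) : ZMod N)) := by abel
      rw [this, h1, neg_zero]
    · by_cases hk0 : k = 0
      · exact ⟨rfl, hk0⟩
      · exfalso
        apply nz k (by omega) (by omega)
        have h2 : ((4:ℕ) : ZMod N) = k + ((4 - k : ℕ) : ZMod N) := by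
          rw [← Nat.cast_add, ← hsub]
        rw [h2] at h1
        simpa using h1
  · exfalso
    rw [smul_st_ne hj, sub_zero] at h1
    have h2 := nz 4 (by omega) (by omega)
    split_ifs at h1
    · exact h2 h1
    · exact h2 (neg_eq_zero.mp h1)

lemma cd_nrm (hN : 8 ≤ N) {j j' : Fin d × Bool} (k : ℕ) (h : j'.1 ≠ j.1) :
    2 ≤ nrm (cd N j j' k) := by
  apply nrm_ge hN j'.1
  unfold cd
  rw [Pi.sub_apply, smul_st_self, smul_st_ne h, sub_zero]
  split_ifs
  · left; norm_num
  · right; norm_num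

lemma nrm_neg' (x : TV N d) : nrm (-x) = nrm x := by
  unfold nrm
  apply sum_congr rfl
  intro i _
  rw [Pi.neg_apply]
  exact ZMod.natAbs_valMinAbs_neg _

/-- sums over pairs, three-point part -/
lemma H1_le (hN : 12 ≤ N) (hp0 : 0 ≤ p) (hp1 : p ≤ 1) {β : TV N d → ℝ}
    (h4 : ∀ w c : TV N d, (Mt N d p * ((Mt N d p * Mt N d p) * Mt N d p)) w (w + c)
      ≤ (if c = 0 then 1 else 0) + β c) (j j' : Fin d × Bool) {k : ℕ} (hk : k < 4) :
    ∑ u : TV N d, ∑ u' : TV N d, (if ((u', j') : TV N d × (Fin d × Bool)) = (u, j) then (0:ℝ) else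
      (Mt N d p * Mt N d p) (pt u j 4) (pt u' j' 4) *
        ∑ w, Mt N d p 0 w * Mt N d p w (pt u j k) * Mt N d p w u')
      ≤ chi N d p * β (cd N j j' k) := by
  classical
  set K := Mt N d p * Mt N d p with hK
  have hKn : ∀ x y, 0 ≤ K x y := fun x y => Mt2_nonneg hp0 hp1 x y
  have hMn : ∀ x y, 0 ≤ Mt N d p x y := fun x y => Mt_nonneg hp0 hp1 x y
  set c := cd N j j' k with hc
  have full : ∀ w : TV N d, ∑ u : TV N d, ∑ u' : TV N d, Mt N d p w (pt u j k) *
      (Mt N d p w u' * K (pt u j 4) (pt u' j' 4)) = (Mt N d p * (K * Mt N d p)) w (w + c) := by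
    intro w
    have r1 := Equiv.sum_comp (Equiv.addRight (k • st N d j))
      (fun y => Mt N d p w y * (K * Mt N d p) y (w + c))
    rw [Matrix.mul_apply (M := Mt N d p) (N := K * Mt N d p), ← r1]
    apply sum_congr rfl
    intro u _
    simp only [Equiv.coe_addRight]
    have r2 := Equiv.sum_comp (Equiv.addRight c)
      (fun z => K (u + k • st N d j) z * Mt N d p z (w + c))
    rw [Matrix.mul_apply (M := K) (N := Mt N d p), ← r2, mul_sum]
    apply sum_congr rfl
    intro u' _
    simp only [Equiv.coe_addRight]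
    have e1 : K (u + k • st N d j) (u' + c) = K (pt u j 4) (pt u' j' 4) := by
      have q4 : u + k • st N d j + (4 - k) • st N d j = pt u j 4 := by
        unfold pt
        rw [add_assoc, ← add_smul]
        congr 2
        omega
      have q5 : u' + c + (4 - k) • st N d j = pt u' j' 4 := by
        unfold pt
        rw [hc, cd, add_assoc, sub_add_cancel]
      rw [hK, ← Mt2_add (u + k • st N d j) (u' + c) ((4 - k) • st N d j), q4, q5]
    have e2 : Mt N d p (u' + c) (w + c) = Mt N d p w u' := by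
      rw [Mt_add, Mt_comm]
    rw [e1, e2]
    unfold pt
    ring
  have key : ∀ w : TV N d, ∑ u : TV N d, ∑ u' : TV N d,
      (if ((u', j') : TV N d × (Fin d × Bool)) = (u, j) then (0:ℝ) else
      Mt N d p w (pt u j k) * (Mt N d p w u' * K (pt u j 4) (pt u' j' 4))) ≤ β c := by
    intro w
    have hf := full w
    have hb := h4 w c
    by_cases hc0 : c = 0
    · obtain ⟨rfl, rfl⟩ := cd_ne hN hk hc0
      rw [if_pos hc0] at hb
      have e1 : ∀ u : TV N d, ∑ u' : TV N d,
        (if ((u', j') : TV N d × (Fin d × Bool)) = (u, j') then (0:ℝ) else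
        Mt N d p w (pt u j' 0) * (Mt N d p w u' * K (pt u j' 4) (pt u' j' 4)))
        = ∑ u' : TV N d, Mt N d p w (pt u j' 0) * (Mt N d p w u' * K (pt u j' 4) (pt u' j' 4))
          - Mt N d p w (pt u j' 0) * (Mt N d p w u * K (pt u j' 4) (pt u j' 4)) := by
        intro u
        rw [← add_sum_erase univ (fun u' : TV N d => Mt N d p w (pt u j' 0) *
          (Mt N d p w u' * K (pt u j' 4) (pt u' j' 4))) (mem_univ u),
          ← add_sum_erase univ (fun u' : TV N d =>
          if ((u', j') : TV N d × (Fin d × Bool)) = (u, j') then (0:ℝ) else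
          Mt N d p w (pt u j' 0) * (Mt N d p w u' * K (pt u j' 4) (pt u' j' 4))) (mem_univ u)]
        simp only [if_true, zero_add, add_sub_cancel_left]
        apply sum_congr rfl
        intro u' hu'
        have hne : ¬ ((u', j') : TV N d × (Fin d × Bool)) = (u, j') := by
          intro h
          exact (ne_of_mem_erase hu') (congrArg Prod.fst h)
        rw [if_neg hne]
      rw [sum_congr rfl (fun u _ => e1 u), sum_sub_distrib, hf]
      have e2 : 1 ≤ ∑ u : TV N d, Mt N d p w (pt u j' 0) *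
          (Mt N d p w u * K (pt u j' 4) (pt u j' 4)) := by
        have h5 := single_le_sum (f := fun u : TV N d => Mt N d p w (pt u j' 0) *
          (Mt N d p w u * K (pt u j' 4) (pt u j' 4))) (fun u _ =>
            mul_nonneg (hMn _ _) (mul_nonneg (hMn _ _) (hKn _ _))) (mem_univ w)
        simp only [pt_zero, Mt_self, one_mul] at h5
        simp only [pt_zero]
        exact (Mt2_self hp0 hp1 _).trans h5
      linarith
    · rw [if_neg hc0, zero_add] at hb
      refine le_trans ?_ (hf.le.trans hb)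
      apply sum_le_sum
      intro u _
      apply sum_le_sum
      intro u' _
      split_ifs
      · exact mul_nonneg (hMn _ _) (mul_nonneg (hMn _ _) (hKn _ _))
      · exact le_rfl
  have e3 : ∑ u : TV N d, ∑ u' : TV N d, (if ((u', j') : TV N d × (Fin d × Bool)) = (u, j) then
      (0:ℝ) else K (pt u j 4) (pt u' j' 4) *
        ∑ w, Mt N d p 0 w * Mt N d p w (pt u j k) * Mt N d p w u')
      = ∑ w, Mt N d p 0 w * ∑ u : TV N d, ∑ u' : TV N d,
      (if ((u', j') : TV N d × (Fin d × Bool)) = (u, j) then (0:ℝ) else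
      Mt N d p w (pt u j k) * (Mt N d p w u' * K (pt u j 4) (pt u' j' 4))) := by
    have e5 : ∀ u u' : TV N d, (if ((u', j') : TV N d × (Fin d × Bool)) = (u, j) then
      (0:ℝ) else K (pt u j 4) (pt u' j' 4) *
        ∑ w, Mt N d p 0 w * Mt N d p w (pt u j k) * Mt N d p w u')
        = ∑ w, Mt N d p 0 w * (if ((u', j') : TV N d × (Fin d × Bool)) = (u, j) then (0:ℝ) else
      Mt N d p w (pt u j k) * (Mt N d p w u' * K (pt u j 4) (pt u' j' 4))) := by
      intro u u'
      split_ifs
      · simp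
      · rw [mul_sum]
        apply sum_congr rfl
        intro w _
        ring
    rw [sum_congr rfl (fun u _ => sum_congr rfl (fun u' _ => e5 u u'))]
    rw [sum_congr rfl (fun u _ => sum_comm), sum_comm]
    apply sum_congr rfl
    intro w _
    rw [mul_sum]
    apply sum_congr rfl
    intro u _
    rw [mul_sum]
  rw [e3]
  calc _ ≤ ∑ w, Mt N d p 0 w * β c :=
        sum_le_sum (fun w _ => mul_le_mul_of_nonneg_left (key w) (hMn _ _))
    _ = chi N d p * β c := by rw [← sum_mul, Mt_row]

/-- sums over pairs, disjoint part -/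
lemma H2_le (hN : 12 ≤ N) (hp0 : 0 ≤ p) (hp1 : p ≤ 1) {β : TV N d → ℝ}
    (h3 : ∀ w c : TV N d, (Mt N d p * (Mt N d p * Mt N d p)) w (w + c)
      ≤ (if c = 0 then 1 else 0) + β c) (j j' : Fin d × Bool) (k : ℕ) {l : ℕ} (hl : l < 4) :
    ∑ u : TV N d, ∑ u' : TV N d, (if ((u', j') : TV N d × (Fin d × Bool)) = (u, j) then (0:ℝ) else
      (Mt N d p * Mt N d p) (pt u j 4) (pt u' j' 4) *
        (Mt N d p 0 (pt u j k) * Mt N d p (pt u j l) u'))
      ≤ chi N d p * β (- cd N j j' l) := by
  classical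
  set K := Mt N d p * Mt N d p with hK
  have hKn : ∀ x y, 0 ≤ K x y := fun x y => Mt2_nonneg hp0 hp1 x y
  have hMn : ∀ x y, 0 ≤ Mt N d p x y := fun x y => Mt_nonneg hp0 hp1 x y
  have hKc : ∀ x y, K x y = K y x := by
    intro x y
    rw [hK, mul_comm_symm (fun x y => Mt_comm p x y) (fun x y => Mt_comm p x y)]
  set c := cd N j j' l with hc
  have full : ∀ u : TV N d, ∑ u' : TV N d, Mt N d p (pt u j l) u' * K (pt u j 4) (pt u' j' 4)
      = (Mt N d p * K) (pt u j l) (pt u j l + -c) := by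
    intro u
    rw [Matrix.mul_apply (M := Mt N d p) (N := K)]
    apply sum_congr rfl
    intro u' _
    congr 1
    have e1 : K u' (pt u j l + -c) = K (pt u' j' 4) (pt u j 4) := by
      have q3 : pt u j 4 = pt u j l + (4 - l) • st N d j := by
        unfold pt
        rw [add_assoc, ← add_smul]
        congr 2
        omega
      have q2 : pt u j l + -c + 4 • st N d j' = pt u j 4 := by
        rw [q3, hc, cd]
        abel
      have q1 : u' + 4 • st N d j' = pt u' j' 4 := rfl
      rw [hK, ← Mt2_add u' (pt u j l + -c) (4 • st N d j'), q1, q2]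
    rw [e1, hKc]
  have key : ∀ u : TV N d, ∑ u' : TV N d,
      (if ((u', j') : TV N d × (Fin d × Bool)) = (u, j) then (0:ℝ) else
      Mt N d p (pt u j l) u' * K (pt u j 4) (pt u' j' 4)) ≤ β (-c) := by
    intro u
    have hf := full u
    have hb := h3 (pt u j l) (-c)
    by_cases hc0 : c = 0
    · obtain ⟨rfl, rfl⟩ := cd_ne hN hl hc0
      rw [if_pos (neg_eq_zero.mpr hc0)] at hb
      rw [← add_sum_erase univ (fun u' : TV N d =>
          if ((u', j') : TV N d × (Fin d × Bool)) = (u, j') then (0:ℝ) else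
          Mt N d p (pt u j' 0) u' * K (pt u j' 4) (pt u' j' 4)) (mem_univ u)]
      rw [← add_sum_erase univ (fun u' : TV N d =>
          Mt N d p (pt u j' 0) u' * K (pt u j' 4) (pt u' j' 4)) (mem_univ u)] at hf
      simp only [if_true, zero_add]
      have e1 : ∑ u' ∈ univ.erase u, (if ((u', j') : TV N d × (Fin d × Bool)) = (u, j') then (0:ℝ)
          else Mt N d p (pt u j' 0) u' * K (pt u j' 4) (pt u' j' 4))
          = ∑ u' ∈ univ.erase u, Mt N d p (pt u j' 0) u' * K (pt u j' 4) (pt u' j' 4) := by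
        apply sum_congr rfl
        intro u' hu'
        have hne : ¬ ((u', j') : TV N d × (Fin d × Bool)) = (u, j') := by
          intro h
          exact (ne_of_mem_erase hu') (congrArg Prod.fst h)
        rw [if_neg hne]
      rw [e1]
      have e2 : 1 ≤ Mt N d p (pt u j' 0) u * K (pt u j' 4) (pt u j' 4) := by
        rw [pt_zero, Mt_self, one_mul]
        exact Mt2_self hp0 hp1 _
      linarith
    · rw [if_neg (fun h => hc0 (neg_eq_zero.mp h)), zero_add] at hb
      refine le_trans ?_ (hf.le.trans hb)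
      apply sum_le_sum
      intro u' _
      split_ifs
      · exact mul_nonneg (hMn _ _) (hKn _ _)
      · exact le_rfl
  have e3 : ∀ u : TV N d, ∑ u' : TV N d, (if ((u', j') : TV N d × (Fin d × Bool)) = (u, j) then
      (0:ℝ) else K (pt u j 4) (pt u' j' 4) * (Mt N d p 0 (pt u j k) * Mt N d p (pt u j l) u'))
      = Mt N d p 0 (pt u j k) * ∑ u' : TV N d,
      (if ((u', j') : TV N d × (Fin d × Bool)) = (u, j) then (0:ℝ) else
      Mt N d p (pt u j l) u' * K (pt u j 4) (pt u' j' 4)) := by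
    intro u
    rw [mul_sum]
    apply sum_congr rfl
    intro u' _
    split_ifs
    · simp
    · ring
  rw [sum_congr rfl (fun u _ => e3 u)]
  calc _ ≤ ∑ u : TV N d, Mt N d p 0 (pt u j k) * β (-c) :=
        sum_le_sum (fun u _ => mul_le_mul_of_nonneg_left (key u) (hMn _ _))
    _ = chi N d p * β (-c) := by
        rw [← sum_mul]
        congr 1
        rw [← Mt_row p (0 : TV N d)]
        exact Equiv.sum_comp (Equiv.addRight (k • st N d j)) (fun x => Mt N d p 0 x)

/-- second correction -/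
theorem E3B (h4 : 4 ∣ N) (hN : 12 ≤ N) (hp0 : 0 ≤ p) (hp1 : p ≤ 1 / 2) (hL : Cpl2 p L)
    {β : TV N d → ℝ} {B B' : ℝ} (hB0 : 0 ≤ B) (hB0' : 0 ≤ B')
    (hβ4 : ∀ w c : TV N d, (Mt N d p * ((Mt N d p * Mt N d p) * Mt N d p)) w (w + c)
      ≤ (if c = 0 then 1 else 0) + β c)
    (hβ3 : ∀ w c : TV N d, (Mt N d p * (Mt N d p * Mt N d p)) w (w + c)
      ≤ (if c = 0 then 1 else 0) + β c)
    (hβB : ∀ c, β c ≤ B) (hβB' : ∀ c, 2 ≤ nrm c → β c ≤ B') :
    Ex univ p (fun ω => ∑ P ∈ PM (L ω), ∑ Q ∈ (PM (L ω)).erase P,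
        ∑ v, Mt N d p (wj P) v * Mt N d p v (wj Q))
      ≤ p ^ 3 * (chi N d p * (20 * (2 * d * (2 * B + 2 * d * B')))) := by
  classical
  have hpp : p ≤ 1 := by linarith
  set K := Mt N d p * Mt N d p with hK
  have hKn : ∀ x y, 0 ≤ K x y := fun x y => Mt2_nonneg hp0 hpp x y
  have hMn : ∀ x y, 0 ≤ Mt N d p x y := fun x y => Mt_nonneg hp0 hpp x y
  let ev : TV N d × (Fin d × Bool) → TV N d → Finset (TE N d) → Prop := fun P a ζ =>
    Edj P.1 P.2 ⊆ ζ ∧ (∃ x ∈ Lvj P.1 P.2, x ∈ (T N d).cl univ ζ 0) ∧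
      a ∈ (T N d).cl univ ζ 0
  have h1 : Ex univ p (fun ω => ∑ P ∈ PM (L ω), ∑ Q ∈ (PM (L ω)).erase P,
        ∑ v, Mt N d p (wj P) v * Mt N d p v (wj Q)) ≤ ∑ P : TV N d × (Fin d × Bool),
        ∑ Q : TV N d × (Fin d × Bool), (if Q = P then 0 else
          K (wj P) (wj Q) * Pr univ p (ev P Q.1)) := by
    have e1 : ∀ ω : Finset (TE 4 d), ∑ P ∈ PM (L ω), ∑ Q ∈ (PM (L ω)).erase P,
        ∑ v, Mt N d p (wj P) v * Mt N d p v (wj Q) ≤ Ex univ p (fun η =>
        ∑ P : TV N d × (Fin d × Bool), ∑ Q : TV N d × (Fin d × Bool), (if Q = P then 0 else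
        K (wj P) (wj Q) * (if ev P Q.1 (wt (L ω).toLift η) then (1:ℝ) else 0))) := by
      intro ω
      apply le_Ex hp0 hpp
      intro η _
      have hnn : ∀ P Q : TV N d × (Fin d × Bool), 0 ≤ (if Q = P then 0 else
        K (wj P) (wj Q) * (if ev P Q.1 (wt (L ω).toLift η) then (1:ℝ) else 0)) := by
        intro P Q
        split_ifs
        · exact le_rfl
        · exact mul_nonneg (hKn _ _) (by norm_num)
        · exact mul_nonneg (hKn _ _) (by norm_num)
      refine le_trans ?_ (sum_le_sum_of_subset_of_nonneg (subset_univ (PM (L ω)))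
        (fun P _ _ => sum_nonneg (fun Q _ => hnn P Q)))
      apply sum_le_sum
      intro P hP
      refine le_trans ?_ (sum_le_sum_of_subset_of_nonneg (subset_univ ((PM (L ω)).erase P))
        (fun Q _ _ => hnn P Q))
      apply sum_le_sum
      intro Q hQ
      obtain ⟨h5, h6, _, _⟩ := PM_spec h4 (by omega) hP
      obtain ⟨h7, _, _, _⟩ := PM_spec h4 (by omega) (mem_of_mem_erase hQ)
      have hev : ev P Q.1 (wt (L ω).toLift η) := by
        refine ⟨h6.trans subset_union_left, ⟨pt P.1 P.2 0, pt_mem_Lvj (by omega),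
              D_sub η (h5 0 (by omega))⟩, ?_⟩
        have h8 := D_sub (L := (L ω).toLift) η (h7 0 (by omega))
        rwa [pt_zero] at h8
      rw [if_neg (ne_of_mem_erase hQ), if_pos hev, mul_one, hK, Matrix.mul_apply]
    refine (Ex_mono hp0 hpp (fun ω _ => e1 ω)).trans (le_of_eq ?_)
    have e2 := hL (fun ζ => ∑ P : TV N d × (Fin d × Bool), ∑ Q : TV N d × (Fin d × Bool),
        (if Q = P then 0 else K (wj P) (wj Q) * (if ev P Q.1 ζ then (1:ℝ) else 0)))
    beta_reduce at e2
    rw [e2, Ex_sum]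
    apply sum_congr rfl
    intro P _
    rw [Ex_sum]
    apply sum_congr rfl
    intro Q _
    by_cases hQP : Q = P
    · simp only [hQP, if_true]
      exact Ex_const _ _ _
    · simp only [hQP, if_false]
      rw [Ex_mul_left, Pr_eq_Ex]
  refine h1.trans ?_
  have h2 : ∀ P Q : TV N d × (Fin d × Bool), (if Q = P then 0 else
      K (wj P) (wj Q) * Pr univ p (ev P Q.1)) ≤ p ^ 3 * (
        (∑ k ∈ range 4, (if Q = P then 0 else K (wj P) (wj Q) *
          ∑ w, Mt N d p 0 w * Mt N d p w (pt P.1 P.2 k) * Mt N d p w Q.1))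
        + ∑ k ∈ range 4, ∑ l ∈ range 4, (if Q = P then 0 else K (wj P) (wj Q) *
          (Mt N d p 0 (pt P.1 P.2 k) * Mt N d p (pt P.1 P.2 l) Q.1))) := by
    intro P Q
    by_cases hQP : Q = P
    · simp [hQP]
    · simp only [hQP, if_false]
      have h3 := three_edges (N := N) (by omega) hp0 hp1 (Edj P.1 P.2) (Lvj P.1 P.2) Edj_in 0 Q.1
      rw [card_Edj (by omega)] at h3
      have h5 : ∑ x ∈ Lvj P.1 P.2, ((∑ w, Mt N d p 0 w * Mt N d p w x * Mt N d p w Q.1)
          + ∑ v ∈ Lvj P.1 P.2, Mt N d p 0 x * Mt N d p v Q.1) ≤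
          (∑ k ∈ range 4, ∑ w, Mt N d p 0 w * Mt N d p w (pt P.1 P.2 k) * Mt N d p w Q.1)
          + ∑ k ∈ range 4, ∑ l ∈ range 4, Mt N d p 0 (pt P.1 P.2 k) *
            Mt N d p (pt P.1 P.2 l) Q.1 := by
        rw [sum_add_distrib]
        apply add_le_add
        · exact sum_Lvj_le (f := fun x => ∑ w, Mt N d p 0 w * Mt N d p w x * Mt N d p w Q.1)
            (fun x => sum_nonneg (fun w _ => mul_nonneg (mul_nonneg (hMn _ _) (hMn _ _))
              (hMn _ _))) P.1 P.2
        · refine (sum_Lvj_le (f := fun x => ∑ v ∈ Lvj P.1 P.2, Mt N d p 0 x * Mt N d p v Q.1)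
            (fun x => sum_nonneg (fun w _ => mul_nonneg (hMn _ _) (hMn _ _))) P.1 P.2).trans ?_
          apply sum_le_sum
          intro k _
          exact sum_Lvj_le (f := fun v => Mt N d p 0 (pt P.1 P.2 k) * Mt N d p v Q.1)
            (fun x => mul_nonneg (hMn _ _) (hMn _ _)) P.1 P.2
      calc K (wj P) (wj Q) * Pr univ p (ev P Q.1) ≤ K (wj P) (wj Q) * (p ^ 3 *
          ((∑ k ∈ range 4, ∑ w, Mt N d p 0 w * Mt N d p w (pt P.1 P.2 k) * Mt N d p w Q.1)
          + ∑ k ∈ range 4, ∑ l ∈ range 4, Mt N d p 0 (pt P.1 P.2 k) *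
            Mt N d p (pt P.1 P.2 l) Q.1)) := by
            apply mul_le_mul_of_nonneg_left _ (hKn _ _)
            exact h3.trans (mul_le_mul_of_nonneg_left h5 (by positivity))
        _ = _ := by
            simp only [← mul_sum]
            ring
  refine (sum_le_sum (fun P _ => sum_le_sum (fun Q _ => h2 P Q))).trans ?_
  simp only [← mul_sum]
  apply mul_le_mul_of_nonneg_left _ (by positivity)
  have h3 : ∑ P : TV N d × (Fin d × Bool), ∑ Q : TV N d × (Fin d × Bool),
      ((∑ k ∈ range 4, (if Q = P then 0 else K (wj P) (wj Q) *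
          ∑ w, Mt N d p 0 w * Mt N d p w (pt P.1 P.2 k) * Mt N d p w Q.1))
        + ∑ k ∈ range 4, ∑ l ∈ range 4, (if Q = P then 0 else K (wj P) (wj Q) *
          (Mt N d p 0 (pt P.1 P.2 k) * Mt N d p (pt P.1 P.2 l) Q.1)))
      = ∑ j : Fin d × Bool, ∑ j' : Fin d × Bool,
        ((∑ k ∈ range 4, ∑ u : TV N d, ∑ u' : TV N d,
          (if ((u', j') : TV N d × (Fin d × Bool)) = (u, j) then (0:ℝ) else
          K (pt u j 4) (pt u' j' 4) *
          ∑ w, Mt N d p 0 w * Mt N d p w (pt u j k) * Mt N d p w u'))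
        + ∑ k ∈ range 4, ∑ l ∈ range 4, ∑ u : TV N d, ∑ u' : TV N d,
          (if ((u', j') : TV N d × (Fin d × Bool)) = (u, j) then (0:ℝ) else
          K (pt u j 4) (pt u' j' 4) * (Mt N d p 0 (pt u j k) * Mt N d p (pt u j l) u'))) := by
    have g1 : ∀ f : TV N d × (Fin d × Bool) → TV N d × (Fin d × Bool) → ℝ,
        ∑ P, ∑ Q, f P Q = ∑ j, ∑ j', ∑ u, ∑ u', f (u, j) (u', j') := by
      intro f
      rw [Fintype.sum_prod_type, sum_comm]
      apply sum_congr rfl
      intro j _
      have : ∀ u, ∑ Q, f (u, j) Q = ∑ j', ∑ u', f (u, j) (u', j') := by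
        intro u
        rw [Fintype.sum_prod_type, sum_comm]
      rw [sum_congr rfl (fun u _ => this u), sum_comm]
    rw [g1]
    apply sum_congr rfl
    intro j _
    apply sum_congr rfl
    intro j' _
    simp only [sum_add_distrib]
    congr 1
    · rw [sum_congr rfl (fun u _ => sum_comm), sum_comm]
      rfl
    · have g2 : ∀ f : TV N d → TV N d → ℕ → ℕ → ℝ, ∑ u, ∑ u', ∑ k ∈ range 4, ∑ l ∈ range 4,
          f u u' k l = ∑ k ∈ range 4, ∑ l ∈ range 4, ∑ u, ∑ u', f u u' k l := by
        intro f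
        rw [sum_congr rfl (fun u _ => sum_comm), sum_comm]
        apply sum_congr rfl
        intro k _
        rw [sum_congr rfl (fun u _ => sum_comm), sum_comm]
      rw [g2]
      rfl
  rw [h3]
  have h5 : ∀ j j' : Fin d × Bool, ((∑ k ∈ range 4, ∑ u : TV N d, ∑ u' : TV N d,
          (if ((u', j') : TV N d × (Fin d × Bool)) = (u, j) then (0:ℝ) else
          K (pt u j 4) (pt u' j' 4) *
          ∑ w, Mt N d p 0 w * Mt N d p w (pt u j k) * Mt N d p w u'))
        + ∑ k ∈ range 4, ∑ l ∈ range 4, ∑ u : TV N d, ∑ u' : TV N d,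
          (if ((u', j') : TV N d × (Fin d × Bool)) = (u, j) then (0:ℝ) else
          K (pt u j 4) (pt u' j' 4) * (Mt N d p 0 (pt u j k) * Mt N d p (pt u j l) u')))
      ≤ chi N d p * (20 * (if j'.1 = j.1 then B else B')) := by
    intro j j'
    have hchi : 0 ≤ chi N d p := le_trans zero_le_one (chi_pos hp0 hpp)
    have hb : ∀ l : ℕ, β (cd N j j' l) ≤ (if j'.1 = j.1 then B else B') ∧
        β (- cd N j j' l) ≤ (if j'.1 = j.1 then B else B') := by
      intro l
      by_cases hj : j'.1 = j.1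
      · rw [if_pos hj]
        exact ⟨hβB _, hβB _⟩
      · rw [if_neg hj]
        refine ⟨hβB' _ (cd_nrm (by omega) l hj), hβB' _ ?_⟩
        rw [nrm_neg']
        exact cd_nrm (by omega) l hj
    have g1 : ∑ k ∈ range 4, ∑ u : TV N d, ∑ u' : TV N d,
          (if ((u', j') : TV N d × (Fin d × Bool)) = (u, j) then (0:ℝ) else
          K (pt u j 4) (pt u' j' 4) *
          ∑ w, Mt N d p 0 w * Mt N d p w (pt u j k) * Mt N d p w u')
          ≤ ∑ _k ∈ range 4, chi N d p * (if j'.1 = j.1 then B else B') := by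
      apply sum_le_sum
      intro k hk
      exact (H1_le hN hp0 hpp hβ4 j j' (mem_range.mp hk)).trans
        (mul_le_mul_of_nonneg_left (hb k).1 hchi)
    have g2 : ∑ k ∈ range 4, ∑ l ∈ range 4, ∑ u : TV N d, ∑ u' : TV N d,
          (if ((u', j') : TV N d × (Fin d × Bool)) = (u, j) then (0:ℝ) else
          K (pt u j 4) (pt u' j' 4) * (Mt N d p 0 (pt u j k) * Mt N d p (pt u j l) u'))
          ≤ ∑ _k ∈ range 4, ∑ _l ∈ range 4, chi N d p * (if j'.1 = j.1 then B else B') := by
      apply sum_le_sum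
      intro k _
      apply sum_le_sum
      intro l hl
      exact (H2_le hN hp0 hpp hβ3 j j' k (mem_range.mp hl)).trans
        (mul_le_mul_of_nonneg_left (hb l).2 hchi)
    simp only [sum_const, card_range, nsmul_eq_mul] at g1 g2
    push_cast at g1 g2
    linarith
  refine (sum_le_sum (fun j _ => sum_le_sum (fun j' _ => h5 j j'))).trans ?_
  simp only [← mul_sum]
  have hchi : 0 ≤ chi N d p := le_trans zero_le_one (chi_pos hp0 hpp)
  apply mul_le_mul_of_nonneg_left _ hchi
  apply mul_le_mul_of_nonneg_left _ (by norm_num)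
  have h6 : ∀ j : Fin d × Bool, ∑ j' : Fin d × Bool, (if j'.1 = j.1 then B else B')
      ≤ 2 * B + 2 * d * B' := by
    intro j
    rw [Fintype.sum_prod_type]
    have g1 : ∀ i : Fin d, ∑ b : Bool, (if ((i, b) : Fin d × Bool).1 = j.1 then B else B')
        = 2 * (if i = j.1 then B else B') := by
      intro i
      rw [Fintype.sum_bool]
      ring
    rw [sum_congr rfl (fun i _ => g1 i)]
    rw [← add_sum_erase univ _ (mem_univ j.1)]
    rw [if_pos rfl]
    have h7 : ∑ x ∈ univ.erase j.1, 2 * (if x = j.1 then B else B')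
        = ∑ _x ∈ (univ : Finset (Fin d)).erase j.1, 2 * B' := by
      apply sum_congr rfl
      intro x hx
      rw [if_neg (ne_of_mem_erase hx)]
    rw [h7, sum_const, nsmul_eq_mul]
    have h8 : (((univ : Finset (Fin d)).erase j.1).card : ℝ) ≤ d := by
      have := card_le_card (erase_subset j.1 (univ : Finset (Fin d)))
      rw [card_univ, Fintype.card_fin] at this
      exact_mod_cast this
    have h9 : (((univ : Finset (Fin d)).erase j.1).card : ℝ) * (2 * B') ≤ d * (2 * B') :=
      mul_le_mul_of_nonneg_right h8 (by positivity)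
    push_cast
    linarith
  refine (sum_le_sum (fun j _ => h6 j)).trans (le_of_eq ?_)
  rw [sum_const, nsmul_eq_mul, card_univ, Fintype.card_prod, Fintype.card_fin, Fintype.card_bool]
  push_cast
  ring

end DLs

end DDA
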