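import Pool.Agent.DDA.Coupling
import Pool.Agent.DDA.Defs2

/-!
# DDA: straight 4-cycles and the lifted exploration (deterministic part)

`Pat ω x i`: the vertex `x` is in the cluster of `0` in `T_4`, the three edges of the path
`x, x + e_i, x + 2 e_i, x + 3 e_i` are open and all other edges at `x + e_i, x + 2 e_i, x + 3 e_i`
are closed.  The exploration then leads to `x + 3 e_i` along this path, and the edge from the lift
of `x + 3 e_i` in direction `e_i` has not been queried and leads to a new vertex.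
-/

open Finset

namespace DDA

set_option linter.unusedSectionVars false

namespace DLo

/-- exit from a set along a connection -/
lemma exit {V E : Type*} [DecidableEq V] [DecidableEq E] {G : LG V E} {S : Finset V}
    {ω : Finset E} {x y : V} {k : ℕ} (A : V → Prop) (h : y ∈ G.ball S ω x k) (hy : A y)
    (hx : ¬ A x) : ∃ z ∈ S, ∃ v ∈ S, ¬ A z ∧ A v ∧ G.Adj ω z v := by
  induction k generalizing y with
  | zero =>
    obtain ⟨_, rfl⟩ := LG.mem_ball_zero.mp h
    exact absurd hy hx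
  | succ k ih =>
    rcases LG.mem_ball_succ.mp h with h1 | ⟨h1, z, hz, ha⟩
    · exact ih h1 hy
    · by_cases hAz : A z
      · exact ih hz hAz
      · exact ⟨z, LG.ball_subset hz, y, h1, hAz, hy, ha⟩

section
variable (N d : ℕ)

/-- `k` steps in direction `i` -/
def sg (i : Fin d) (k : ℕ) : TV N d := Pi.single i (k : ZMod N)

/-- the three inner and last vertices of the straight path of length 3 -/
def dang (u : TV N d) (i : Fin d) : Finset (TV N d) :=
  {u + sg N d i 1, u + sg N d i 2, u + sg N d i 3}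

/-- the three edges of the straight path -/
def run (u : TV N d) (i : Fin d) : Finset (TE N d) :=
  {(u, i), (u + sg N d i 1, i), (u + sg N d i 2, i)}

end

variable {N d : ℕ}

lemma sg_zero (i : Fin d) : sg N d i 0 = 0 := by simp [sg]

lemma sg_one (i : Fin d) : sg N d i 1 = Pi.single i 1 := by simp [sg]

lemma sg_succ (i : Fin d) (k : ℕ) : sg N d i (k + 1) = sg N d i k + Pi.single i 1 := by
  unfold sg
  rw [← Pi.single_add]
  push_cast
  rfl

lemma sg_inj {i : Fin d} {j k : ℕ} (hj : j < N) (hk : k < N) (h : sg N d i j = sg N d i k) :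
    j = k := by
  have h1 := congrFun h i
  unfold sg at h1
  rw [Pi.single_eq_same, Pi.single_eq_same, ZMod.natCast_eq_natCast_iff', Nat.mod_eq_of_lt hj,
    Nat.mod_eq_of_lt hk] at h1
  exact h1

lemma sg_ne_zero {i : Fin d} {k : ℕ} (hk0 : 0 < k) (hk : k < N) : sg N d i k ≠ 0 := by
  intro h
  rw [← sg_zero i] at h
  have := sg_inj hk (by omega) h
  omega

lemma sg4 (i : Fin d) : sg 4 d i 4 = 0 := by
  unfold sg
  have : ((4 : ℕ) : ZMod 4) = 0 := by decide
  rw [this, Pi.single_zero]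

lemma pr4_sg [NeZero N] (h4 : 4 ∣ N) (i : Fin d) (k : ℕ) : pr4 N d (sg N d i k) = sg 4 d i k := by
  induction k with
  | zero => rw [sg_zero, sg_zero, pr4_zero]
  | succ k ih => rw [sg_succ, sg_succ, pr4_add h4, ih, pr4_single h4]

lemma mem_dang {u v : TV N d} {i : Fin d} :
    v ∈ dang N d u i ↔ v = u + sg N d i 1 ∨ v = u + sg N d i 2 ∨ v = u + sg N d i 3 := by
  simp [dang]

lemma mem_run {u : TV N d} {i : Fin d} {e : TE N d} :
    e ∈ run N d u i ↔ e = (u, i) ∨ e = (u + sg N d i 1, i) ∨ e = (u + sg N d i 2, i) := by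
  simp [run]

lemma self_notMem_dang (hN : 4 ≤ N) (u : TV N d) (i : Fin d) : u ∉ dang N d u i := by
  intro h
  have key : ∀ k : ℕ, 0 < k → k < N → u ≠ u + sg N d i k := by
    intro k h0 hk h1
    exact sg_ne_zero h0 hk (by simpa using h1.symm)
  rcases mem_dang.mp h with h | h | h
  · exact key 1 (by omega) (by omega) h
  · exact key 2 (by omega) (by omega) h
  · exact key 3 (by omega) (by omega) h

lemma pr4_dang [NeZero N] (h4 : 4 ∣ N) {u v : TV N d} {i : Fin d} (h : v ∈ dang N d u i) :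
    pr4 N d v ∈ dang 4 d (pr4 N d u) i := by
  rw [mem_dang] at h ⊢
  rcases h with h | h | h
  · left; rw [h, pr4_add h4, pr4_sg h4]
  · right; left; rw [h, pr4_add h4, pr4_sg h4]
  · right; right; rw [h, pr4_add h4, pr4_sg h4]

/-- the pattern -/
def Pat (ω : Finset (TE 4 d)) (x : TV 4 d) (i : Fin d) : Prop :=
  x ∈ (T 4 d).cl univ ω 0 ∧ (0 : TV 4 d) ∉ dang 4 d x i ∧ run 4 d x i ⊆ ω ∧
    ∀ f ∈ ω, (f.1 ∈ dang 4 d x i ∨ f.1 + Pi.single f.2 1 ∈ dang 4 d x i) → f ∈ run 4 d x i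

section
variable [NeZero N] {ω : Finset (TE 4 d)} {L : Lift N d ω} {u : TV N d} {i : Fin d}

/-- an open explored edge touching the dangerous set -/
lemma touch (h4 : 4 ∣ N) {x : TV 4 d} (hP : Pat ω x i) {e : TE N d} (he : e ∈ L.O) {v : TV N d}
    (hv : v = e.1 ∨ v = e.1 + Pi.single e.2 1) (hvd : pr4 N d v ∈ dang 4 d x i) :
    e.2 = i ∧ (pr4 N d e.1 = x ∨ pr4 N d e.1 = x + sg 4 d i 1 ∨ pr4 N d e.1 = x + sg 4 d i 2) ∧
      e.1 ∈ L.D ∧ e.1 + Pi.single e.2 1 ∈ L.D := by
  obtain ⟨h1, h2, h3⟩ := L.open_mem e he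
  have h4' : pr4E N d e ∈ run 4 d x i := by
    apply hP.2.2.2 _ h1
    rcases hv with rfl | rfl
    · left; exact hvd
    · right
      have : (pr4E N d e).1 + Pi.single (pr4E N d e).2 1 = pr4 N d (e.1 + Pi.single e.2 1) := by
        rw [pr4_add h4, pr4_single h4]; rfl
      rw [this]; exact hvd
  rw [mem_run] at h4'
  refine ⟨?_, ?_, h2, h3⟩
  · rcases h4' with h | h | h
    · exact congrArg Prod.snd h
    · exact congrArg Prod.snd h
    · exact congrArg Prod.snd h
  · rcases h4' with h | h | h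
    · left; exact congrArg Prod.fst h
    · right; left; exact congrArg Prod.fst h
    · right; right; exact congrArg Prod.fst h

lemma J_cases {e : TE N d} {z v : TV N d} (h : (T N d).J e z v) :
    (e.1 = z ∧ v = e.1 + Pi.single e.2 1) ∨ (e.1 = v ∧ z = e.1 + Pi.single e.2 1) := by
  rcases h with ⟨h1, h2⟩ | ⟨h1, h2⟩
  · exact Or.inl ⟨h1, h2.symm⟩
  · exact Or.inr ⟨h1, h2.symm⟩

lemma ne_of_sg {x : TV 4 d} {i : Fin d} {j k : ℕ} (hj : j < 4) (hk : k < 4) (hjk : j ≠ k) :
    x + sg 4 d i j ≠ x + sg 4 d i k := by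
  intro h
  exact hjk (sg_inj hj hk (add_left_cancel h))

/-- the lifts of the three edges of the pattern -/
lemma steps (h4 : 4 ∣ N) (hu : u ∈ L.D) (hP : Pat ω (pr4 N d u) i) :
    ((u, i) : TE N d) ∈ L.O ∧ u + sg N d i 1 ∈ L.D ∧
    ((u + sg N d i 1, i) : TE N d) ∈ L.O ∧ u + sg N d i 2 ∈ L.D ∧
    ((u + sg N d i 2, i) : TE N d) ∈ L.O ∧ u + sg N d i 3 ∈ L.D := by
  set x := pr4 N d u with hx
  have hx0 : x + sg 4 d i 0 = x := by rw [sg_zero, add_zero]
  have hstep : ∀ j : ℕ, x + sg 4 d i j + Pi.single i 1 = x + sg 4 d i (j + 1) := by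
    intro j; rw [sg_succ, add_assoc]
  have ne : ∀ j k : ℕ, j < 4 → k < 4 → j ≠ k → x + sg 4 d i j ≠ x + sg 4 d i k :=
    fun j k hj hk hjk => ne_of_sg hj hk hjk
  -- the end of the path is in the cluster
  have hc1 : x + sg 4 d i 1 ∈ (T 4 d).cl univ ω 0 := by
    refine LG.mem_cl_step hP.1 ⟨(x, i), hP.2.2.1 (mem_run.mpr (Or.inl rfl)), ?_⟩ (mem_univ _)
    rw [T_J]; left; exact ⟨rfl, by rw [sg_one]⟩
  have hc2 : x + sg 4 d i 2 ∈ (T 4 d).cl univ ω 0 := by
    refine LG.mem_cl_step hc1 ⟨(x + sg 4 d i 1, i),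
      hP.2.2.1 (mem_run.mpr (Or.inr (Or.inl rfl))), ?_⟩ (mem_univ _)
    rw [T_J]; left; exact ⟨rfl, (hstep 1).symm⟩
  have hc3 : x + sg 4 d i 3 ∈ (T 4 d).cl univ ω 0 := by
    refine LG.mem_cl_step hc2 ⟨(x + sg 4 d i 2, i),
      hP.2.2.1 (mem_run.mpr (Or.inr (Or.inr rfl))), ?_⟩ (mem_univ _)
    rw [T_J]; left; exact ⟨rfl, (hstep 2).symm⟩
  rw [← L.image] at hc3
  obtain ⟨y3, hy3, hy3'⟩ := mem_image.mp hc3
  obtain ⟨k, hk⟩ := LG.mem_cl_iff.mp (L.conn y3 hy3)
  -- exits
  have key : ∀ m : ℕ, m = 0 ∨ m = 1 ∨ m = 2 → ∃ z ∈ L.D, pr4 N d z = x + sg 4 d i m ∧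
      z + Pi.single i 1 ∈ L.D ∧ ((z, i) : TE N d) ∈ L.O := by
    intro m hm
    let A : TV N d → Prop := fun v => ∃ j : ℕ, m < j ∧ j < 4 ∧ pr4 N d v = x + sg 4 d i j
    have hA3 : A y3 := ⟨3, by omega, by omega, hy3'⟩
    have hA0 : ¬ A 0 := by
      rintro ⟨j, hj1, hj2, hj3⟩
      rw [pr4_zero] at hj3
      apply hP.2.1
      rw [mem_dang, hj3]
      have : j = 1 ∨ j = 2 ∨ j = 3 := by omega
      rcases this with rfl | rfl | rfl <;> simp
    obtain ⟨z, hz, v, hv, hAz, ⟨j, hj1, hj2, hj3⟩, e, he, hJ⟩ := exit A hk hA3 hA0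
    have hvd : pr4 N d v ∈ dang 4 d x i := by
      rw [mem_dang, hj3]
      have : j = 1 ∨ j = 2 ∨ j = 3 := by omega
      rcases this with rfl | rfl | rfl <;> simp
    have hpr : ∀ w : TV N d, pr4 N d (w + Pi.single i 1) = pr4 N d w + Pi.single i 1 := by
      intro w; rw [pr4_add h4, pr4_single h4]
    rcases J_cases hJ with ⟨h1, h2⟩ | ⟨h1, h2⟩
    · obtain ⟨t1, t2, t3, t4⟩ := touch h4 hP he (Or.inr h2) hvd
      have hze : e = (z, i) := Prod.ext h1 t1
      rw [t1, h1] at h2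
      rw [h1] at t2
      -- pr4 z = x + sg m'
      obtain ⟨m', hm', hm3⟩ : ∃ m' : ℕ, m' < 3 ∧ pr4 N d z = x + sg 4 d i m' := by
        rcases t2 with h | h | h
        · exact ⟨0, by omega, by rw [h, hx0]⟩
        · exact ⟨1, by omega, h⟩
        · exact ⟨2, by omega, h⟩
      have h5 : pr4 N d v = x + sg 4 d i (m' + 1) := by rw [h2, hpr, hm3, hstep]
      have h6 : j = m' + 1 := by
        by_contra hne
        exact ne j (m' + 1) hj2 (by omega) hne (by rw [← hj3, h5])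
      have h7 : m' = m := by
        by_contra hne
        exact hAz ⟨m', by omega, by omega, hm3⟩
      subst h7
      refine ⟨z, hz, hm3, ?_, ?_⟩
      · rw [← h2]; exact hv
      · rw [← hze]; exact he
    · exfalso
      obtain ⟨t1, t2, t3, t4⟩ := touch h4 hP he (Or.inl h1.symm) hvd
      rw [t1, h1] at h2
      rw [h1] at t2
      obtain ⟨m', hm', hm3⟩ : ∃ m' : ℕ, m' < 3 ∧ pr4 N d v = x + sg 4 d i m' := by
        rcases t2 with h | h | h
        · exact ⟨0, by omega, by rw [h, hx0]⟩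
        · exact ⟨1, by omega, h⟩
        · exact ⟨2, by omega, h⟩
      have h6 : j = m' := by
        by_contra hne
        exact ne j m' hj2 (by omega) hne (by rw [← hj3, hm3])
      apply hAz
      exact ⟨m' + 1, by omega, by omega, by rw [h2, hpr, hm3, hstep]⟩
  obtain ⟨z0, z0D, z0p, z0s, z0O⟩ := key 0 (Or.inl rfl)
  obtain ⟨z1, z1D, z1p, z1s, z1O⟩ := key 1 (Or.inr (Or.inl rfl))
  obtain ⟨z2, z2D, z2p, z2s, z2O⟩ := key 2 (Or.inr (Or.inr rfl))
  have e0 : z0 = u := L.inj z0D hu (by rw [z0p, hx0])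
  subst e0
  have s1 : z0 + sg N d i 1 ∈ L.D := by rw [sg_one]; exact z0s
  have e1 : z1 = z0 + sg N d i 1 := by
    refine L.inj z1D s1 ?_
    rw [z1p, pr4_add h4, pr4_sg h4]
  subst e1
  have s2 : z0 + sg N d i 2 ∈ L.D := by
    rw [show sg N d i 2 = sg N d i 1 + Pi.single i 1 from sg_succ i 1, ← add_assoc]; exact z1s
  have e2 : z2 = z0 + sg N d i 2 := by
    refine L.inj z2D s2 ?_
    rw [z2p, pr4_add h4, pr4_sg h4]
  subst e2
  have s3 : z0 + sg N d i 3 ∈ L.D := by
    rw [show sg N d i 3 = sg N d i 2 + Pi.single i 1 from sg_succ i 2, ← add_assoc]; exact z2s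
  exact ⟨z0O, s1, z1O, s2, z2O, s3⟩

lemma dang_sub (h4 : 4 ∣ N) (hu : u ∈ L.D) (hP : Pat ω (pr4 N d u) i) : dang N d u i ⊆ L.D := by
  obtain ⟨_, h1, _, h2, _, h3⟩ := steps h4 hu hP
  intro v hv
  rcases mem_dang.mp hv with rfl | rfl | rfl
  · exact h1
  · exact h2
  · exact h3

lemma run_sub (h4 : 4 ∣ N) (hu : u ∈ L.D) (hP : Pat ω (pr4 N d u) i) : run N d u i ⊆ L.O := by
  obtain ⟨h1, _, h2, _, h3, _⟩ := steps h4 hu hP
  intro v hv
  rcases mem_run.mp hv with rfl | rfl | rfl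
  · exact h1
  · exact h2
  · exact h3

lemma touch_run (h4 : 4 ∣ N) (hu : u ∈ L.D) (hP : Pat ω (pr4 N d u) i) {e : TE N d}
    (he : e ∈ L.O) {v : TV N d} (hv : v = e.1 ∨ v = e.1 + Pi.single e.2 1)
    (hvd : v ∈ dang N d u i) : e ∈ run N d u i := by
  obtain ⟨t1, t2, t3, _⟩ := touch h4 hP he hv (pr4_dang h4 hvd)
  obtain ⟨_, h1, _, h2, _, _⟩ := steps h4 hu hP
  rw [mem_run]
  rcases t2 with h | h | h
  · left; exact Prod.ext (L.inj t3 hu h) t1
  · right; left; exact Prod.ext (L.inj t3 h1 (by rw [h, pr4_add h4, pr4_sg h4])) t1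
  · right; right; exact Prod.ext (L.inj t3 h2 (by rw [h, pr4_add h4, pr4_sg h4])) t1

lemma zero_notMem (h4 : 4 ∣ N) (hP : Pat ω (pr4 N d u) i) : (0 : TV N d) ∉ dang N d u i := by
  intro h
  have := pr4_dang h4 h
  rw [pr4_zero] at this
  exact hP.2.1 this

lemma new_vertex (h4 : 4 ∣ N) (hN : 8 ≤ N) (hu : u ∈ L.D) : u + sg N d i 4 ∉ L.D := by
  intro h
  have h1 : u + sg N d i 4 = u := by
    refine L.inj h hu ?_
    rw [pr4_add h4, pr4_sg h4, sg4, add_zero]
  exact sg_ne_zero (N := N) (i := i) (k := 4) (by omega) (by omega) (by simpa using h1)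

/-- an edge of the run with an endpoint outside the dangerous set -/
lemma run_exit {e : TE N d} (he : e ∈ run N d u i) {z v : TV N d} (hJ : (T N d).J e z v)
    (hz : z ∉ dang N d u i) : z = u := by
  have h1 : u + sg N d i 1 ∈ dang N d u i := mem_dang.mpr (Or.inl rfl)
  have h2 : u + sg N d i 2 ∈ dang N d u i := mem_dang.mpr (Or.inr (Or.inl rfl))
  have h3 : u + sg N d i 3 ∈ dang N d u i := mem_dang.mpr (Or.inr (Or.inr rfl))
  have s1 : u + sg N d i 1 + Pi.single i 1 = u + sg N d i 2 := by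
    rw [show sg N d i 2 = sg N d i 1 + Pi.single i 1 from sg_succ i 1, add_assoc]
  have s2 : u + sg N d i 2 + Pi.single i 1 = u + sg N d i 3 := by
    rw [show sg N d i 3 = sg N d i 2 + Pi.single i 1 from sg_succ i 2, add_assoc]
  have s0 : u + Pi.single i 1 = u + sg N d i 1 := by rw [sg_one]
  rcases mem_run.mp he with rfl | rfl | rfl
  · rcases J_cases hJ with ⟨a, b⟩ | ⟨a, b⟩
    · exact a.symm
    · exfalso; apply hz; rw [b]; simp only; rw [s0]; exact h1
  · exfalso
    rcases J_cases hJ with ⟨a, b⟩ | ⟨a, b⟩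
    · apply hz; rw [← a]; exact h1
    · apply hz; rw [b]; simp only; rw [s1]; exact h2
  · exfalso
    rcases J_cases hJ with ⟨a, b⟩ | ⟨a, b⟩
    · apply hz; rw [← a]; exact h2
    · apply hz; rw [b]; simp only; rw [s2]; exact h3

/-- the edge leaving the end of the path has not been queried -/
lemma fresh (h4 : 4 ∣ N) (hN : 8 ≤ N) (hu : u ∈ L.D) (hP : Pat ω (pr4 N d u) i) :
    ((u + sg N d i 3, i) : TE N d) ∉ L.O ∪ L.C := by
  have hnew : u + sg N d i 4 ∉ L.D := new_vertex h4 hN hu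
  have s3 : u + sg N d i 3 + Pi.single i 1 = u + sg N d i 4 := by
    rw [show sg N d i 4 = sg N d i 3 + Pi.single i 1 from sg_succ i 3, add_assoc]
  intro hmem
  obtain ⟨D', hD', O', hO', a, b, hJ, haD, h0D, hb, hconn⟩ := L.history _ hmem
  rcases J_cases hJ with ⟨h1, h2⟩ | ⟨h1, h2⟩
  · simp only at h1 h2
    rw [s3] at h2
    -- `b` projects to `pr4 u`
    have hub : u ∉ D' := by
      intro hu'
      apply hb
      rw [h2, pr4_add h4, pr4_sg h4, sg4, add_zero]
      exact mem_image_of_mem _ hu'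
    obtain ⟨k, hk⟩ := LG.mem_cl_iff.mp (hconn a haD)
    obtain ⟨z, hz, v, hv, hAz, hAv, e, he, hJe⟩ := exit (fun v => v ∈ dang N d u i) hk
      (by rw [← h1]; exact mem_dang.mpr (Or.inr (Or.inr rfl))) (zero_notMem h4 hP)
    have hev : v = e.1 ∨ v = e.1 + Pi.single e.2 1 := by
      rcases J_cases hJe with ⟨_, c⟩ | ⟨c, _⟩
      · exact Or.inr c
      · exact Or.inl c.symm
    have hrun := touch_run h4 hu hP (hO' he) hev hAv
    have := run_exit hrun hJe hAz
    rw [this] at hz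
    exact hub hz
  · simp only at h2
    rw [s3] at h2
    apply hnew
    rw [← h2]
    exact hD' haD

/-- the other discovered vertices are connected to `0` off the dangerous set -/
lemma conn_off (h4 : 4 ∣ N) (hN : 4 ≤ N) (hu : u ∈ L.D) (hP : Pat ω (pr4 N d u) i) {a : TV N d}
    (ha : a ∈ L.D) (had : a ∉ dang N d u i) : a ∈ (T N d).cl (univ \ dang N d u i) L.O 0 := by
  obtain ⟨k, hk⟩ := LG.mem_cl_iff.mp (L.conn a ha)
  have key : ∀ k, ∀ z ∈ (T N d).ball L.D L.O 0 k,
      z ∈ (T N d).cl (univ \ dang N d u i) L.O 0 ∨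
      (z ∈ dang N d u i ∧ u ∈ (T N d).cl (univ \ dang N d u i) L.O 0) := by
    intro k
    induction k with
    | zero =>
      intro z hz
      obtain ⟨_, rfl⟩ := LG.mem_ball_zero.mp hz
      left
      exact LG.self_mem_cl (mem_sdiff.mpr ⟨mem_univ _, zero_notMem h4 hP⟩)
    | succ k ih =>
      intro z hz
      rcases LG.mem_ball_succ.mp hz with h1 | ⟨h1, y, hy, e, he, hJ⟩
      · exact ih z h1
      · have hez : z = e.1 ∨ z = e.1 + Pi.single e.2 1 := by
          rcases J_cases hJ with ⟨_, c⟩ | ⟨c, _⟩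
          · exact Or.inr c
          · exact Or.inl c.symm
        have hey : y = e.1 ∨ y = e.1 + Pi.single e.2 1 := by
          rcases J_cases hJ with ⟨c, _⟩ | ⟨_, c⟩
          · exact Or.inl c.symm
          · exact Or.inr c
        by_cases hzd : z ∈ dang N d u i
        · right
          refine ⟨hzd, ?_⟩
          rcases ih y hy with h2 | ⟨_, h2⟩
          · have hyd : y ∉ dang N d u i := (mem_sdiff.mp (LG.cl_subset h2)).2
            have hrun := touch_run h4 hu hP he hez hzd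
            rw [run_exit hrun hJ hyd] at h2
            exact h2
          · exact h2
        · left
          rcases ih y hy with h2 | ⟨h3, h2⟩
          · exact LG.mem_cl_step h2 ⟨e, he, hJ⟩ (mem_sdiff.mpr ⟨mem_univ _, hzd⟩)
          · have hrun := touch_run h4 hu hP he hey h3
            rw [run_exit hrun (LG.J_comm.mp hJ) hzd]
            exact h2
  rcases key k a hk with h | h
  · exact h
  · exact absurd h.1 had

/-- the coupled configuration -/
noncomputable def wt (L : Lift N d ω) (η : Finset (TE N d)) : Finset (TE N d) :=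
  L.O ∪ (η \ (L.O ∪ L.C))

lemma D_sub (η : Finset (TE N d)) : L.D ⊆ (T N d).cl univ (wt L η) 0 := by
  intro z hz
  exact LG.cl_mono (subset_univ _) subset_union_left (L.conn z hz)

lemma off_eq (η : Finset (TE N d)) (w : TV N d) (k : ℕ) :
    (T N d).ball (univ \ L.D) η w k = (T N d).ball (univ \ L.D) (wt L η) w k := by
  apply LG.ball_congr
  rintro e ⟨h1, h2⟩
  have h1' := (mem_sdiff.mp h1).2
  have h2' := (mem_sdiff.mp h2).2
  have hO : e ∉ L.O := fun h => h1' (L.open_mem e h).2.1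
  have hC : e ∉ L.C := by
    intro h
    rcases (L.closed_mem e h).2 with h | h
    · exact h1' h
    · exact h2' h
  unfold wt
  simp [hO, hC]

/-- the vertices gained -/
lemma gain_sub (h4 : 4 ∣ N) (hN : 8 ≤ N) (hu : u ∈ L.D) (hP : Pat ω (pr4 N d u) i)
    {η : Finset (TE N d)} (hη : ((u + sg N d i 3, i) : TE N d) ∈ η) (k : ℕ) :
    (T N d).ball (univ \ L.D) η (u + sg N d i 4) k ⊆ (T N d).cl univ (wt L η) 0 \ L.D := by
  have hfr := fresh h4 hN hu hP
  obtain ⟨_, _, _, _, _, h3⟩ := steps h4 hu hP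
  have h5 : u + sg N d i 4 ∈ (T N d).cl univ (wt L η) 0 := by
    refine LG.mem_cl_step (D_sub η h3) ⟨(u + sg N d i 3, i), ?_, ?_⟩ (mem_univ _)
    · exact mem_union_right _ (mem_sdiff.mpr ⟨hη, hfr⟩)
    · rw [T_J]; left
      refine ⟨rfl, ?_⟩
      simp only
      rw [show sg N d i 4 = sg N d i 3 + Pi.single i 1 from sg_succ i 3, add_assoc]
  intro z hz
  rw [mem_sdiff]
  refine ⟨?_, (mem_sdiff.mp (LG.ball_subset hz)).2⟩
  rw [off_eq] at hz
  exact LG.mem_cl_trans h5 (LG.ball_subset_cl k (LG.ball_mono (subset_univ _) (Subset.refl _) hz))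

end

end DLo

end DDA
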