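import Pool.Agent.DDA.DLowA

/-!
# DDA: the expected number of vertices gained through the unexplored edges
-/

open Finset

namespace DDA

set_option linter.unusedSectionVars false

namespace DLo

lemma Pr_eq_Ex {E : Type*} [DecidableEq E] (F : Finset E) (p : ℝ) (A : Finset E → Prop)
    [DecidablePred A] : Pr F p A = Ex F p (fun ω => if A ω then (1:ℝ) else 0) := by
  unfold Pr
  congr 1
  funext ω
  congr

/-- Bonferroni inequality -/
lemma bonf {ι V : Type*} [DecidableEq ι] [DecidableEq V] (A : Finset ι) (S : ι → Finset V) :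
    ∑ i ∈ A, ((S i).card : ℝ) - ∑ i ∈ A, ∑ j ∈ A.erase i, ((S i ∩ S j).card : ℝ)
      ≤ ((A.biUnion S).card : ℝ) := by
  induction A using Finset.induction_on with
  | empty => simp
  | insert a A ha ih =>
    rw [sum_insert ha, sum_insert ha, erase_insert ha, biUnion_insert]
    have h1 : ∑ i ∈ A, ∑ j ∈ (insert a A).erase i, ((S i ∩ S j).card : ℝ)
        = ∑ i ∈ A, ((S a ∩ S i).card : ℝ) + ∑ i ∈ A, ∑ j ∈ A.erase i, ((S i ∩ S j).card : ℝ) := by
      rw [← sum_add_distrib]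
      apply sum_congr rfl
      intro i hi
      have hne : a ≠ i := fun h => ha (h ▸ hi)
      have h2 : (insert a A).erase i = insert a (A.erase i) := by
        rw [erase_insert_of_ne hne]
      rw [h2, sum_insert (fun h => ha (mem_of_mem_erase h)), inter_comm (S i) (S a)]
    have h2 : ((S a ∪ A.biUnion S).card : ℝ) + ((S a ∩ A.biUnion S).card : ℝ)
        = (S a).card + (A.biUnion S).card := by
      exact_mod_cast card_union_add_card_inter _ _
    have h3 : ((S a ∩ A.biUnion S).card : ℝ) ≤ ∑ i ∈ A, ((S a ∩ S i).card : ℝ) := by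
      rw [inter_biUnion]
      exact_mod_cast card_biUnion_le
    have h4 : 0 ≤ ∑ i ∈ A, ((S a ∩ S i).card : ℝ) := sum_nonneg (fun _ _ => Nat.cast_nonneg _)
    rw [h1]
    linarith

section
variable {N d : ℕ}

/-- the unexplored edge of a pattern -/
def fe (P : TV N d × Fin d) : TE N d := (P.1 + sg N d P.2 3, P.2)

/-- the new vertex of a pattern -/
def wv (P : TV N d × Fin d) : TV N d := P.1 + sg N d P.2 4

lemma fe_inj {P Q : TV N d × Fin d} (h : fe P = fe Q) : P = Q := by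
  obtain ⟨u, i⟩ := P
  obtain ⟨v, j⟩ := Q
  have h2 : i = j := congrArg Prod.snd h
  subst h2
  have h1 : u + sg N d i 3 = v + sg N d i 3 := congrArg Prod.fst h
  rw [add_right_cancel h1]

variable [NeZero N] {ω : Finset (TE 4 d)}

open Classical in
/-- the patterns, by their lifts -/
noncomputable def PL (L : Lift N d ω) : Finset (TV N d × Fin d) :=
  univ.filter (fun P => P.1 ∈ L.D ∧ Pat ω (pr4 N d P.1) P.2)

lemma mem_PL {L : Lift N d ω} {P : TV N d × Fin d} :
    P ∈ PL L ↔ P.1 ∈ L.D ∧ Pat ω (pr4 N d P.1) P.2 := by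
  unfold PL
  simp

/-- number of vertices -/
noncomputable def nv (N d : ℕ) [NeZero N] : ℕ := (univ : Finset (TV N d)).card

/-- the vertices reached from the new vertex of a pattern off the explored set -/
noncomputable def BP (D : Finset (TV N d)) (η : Finset (TE N d)) (P : TV N d × Fin d) :
    Finset (TV N d) :=
  (T N d).ball (univ \ D) η (wv P) (nv N d)

open Classical in
lemma det_gain (h4 : 4 ∣ N) (hN : 8 ≤ N) (L : Lift N d ω) (η : Finset (TE N d)) :
    (L.D.card : ℝ) + ∑ P ∈ PL L, (if fe P ∈ η then (1:ℝ) else 0) * ((BP L.D η P).card : ℝ)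
      - ∑ P ∈ PL L, ∑ Q ∈ (PL L).erase P, ((if fe P ∈ η then (1:ℝ) else 0) *
        (if fe Q ∈ η then (1:ℝ) else 0)) * ((BP L.D η P ∩ BP L.D η Q).card : ℝ)
      ≤ (((T N d).cl univ (wt L η) 0).card : ℝ) := by
  let S : TV N d × Fin d → Finset (TV N d) := fun P => if fe P ∈ η then BP L.D η P else ∅
  have h1 := bonf (PL L) S
  have e1 : ∀ P, ((S P).card : ℝ) = (if fe P ∈ η then (1:ℝ) else 0) * ((BP L.D η P).card : ℝ) := by
    intro P
    by_cases h : fe P ∈ η <;> simp [S, h]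
  have e2 : ∀ P Q, ((S P ∩ S Q).card : ℝ) = ((if fe P ∈ η then (1:ℝ) else 0) *
        (if fe Q ∈ η then (1:ℝ) else 0)) * ((BP L.D η P ∩ BP L.D η Q).card : ℝ) := by
    intro P Q
    by_cases h : fe P ∈ η <;> by_cases h' : fe Q ∈ η <;> simp [S, h, h']
  simp only [e1, e2] at h1
  have h2 : (PL L).biUnion S ⊆ (T N d).cl univ (wt L η) 0 \ L.D := by
    intro z hz
    obtain ⟨P, hP, hzP⟩ := mem_biUnion.mp hz
    by_cases h : fe P ∈ η
    · simp only [S, h, if_true] at hzP
      obtain ⟨hu, hPat⟩ := mem_PL.mp hP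
      exact gain_sub h4 hN hu hPat h _ hzP
    · simp only [S, h, if_false] at hzP
      exact absurd hzP (notMem_empty _)
  have h3 : (((PL L).biUnion S).card : ℝ) ≤
      (((T N d).cl univ (wt L η) 0).card : ℝ) - (L.D.card : ℝ) := by
    have h4 := card_le_card h2
    have h5 := card_sdiff_add_card_eq_card (D_sub (L := L) η)
    have h6 : ((((T N d).cl univ (wt L η) 0 \ L.D).card : ℝ)) + (L.D.card : ℝ)
        = (((T N d).cl univ (wt L η) 0).card : ℝ) := by exact_mod_cast h5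
    have h7 : (((PL L).biUnion S).card : ℝ) ≤ ((((T N d).cl univ (wt L η) 0 \ L.D).card : ℝ)) := by
      exact_mod_cast h4
    linarith
  linarith

/-- the two-point function as a matrix -/
noncomputable def Mt (N d : ℕ) [NeZero N] (p : ℝ) : Matrix (TV N d) (TV N d) ℝ :=
  fun x y => (T N d).tau univ p univ (nv N d) x y

lemma Mt_nonneg {p : ℝ} (hp0 : 0 ≤ p) (hp1 : p ≤ 1) (x y : TV N d) : 0 ≤ Mt N d p x y :=
  LG.tau_nonneg hp0 hp1 _ _

lemma Mt_comm (p : ℝ) (x y : TV N d) : Mt N d p x y = Mt N d p y x := LG.tau_comm _ _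

lemma Mt_self (p : ℝ) (x : TV N d) : Mt N d p x x = 1 := LG.tau_self (mem_univ _)

lemma Mt_row (p : ℝ) (x : TV N d) : ∑ y, Mt N d p x y = chi N d p := by
  have h1 := LG.bex_eq_sum (G := T N d) (F := univ) (p := p) (S := univ) (k := nv N d) x
  have h2 := bex_eq_bb (N := N) (d := d) x (nv N d) p
  unfold Mt
  rw [← h1, h2]
  rfl

lemma Mt_col (p : ℝ) (y : TV N d) : ∑ x, Mt N d p x y = chi N d p := by
  rw [← Mt_row p y]
  exact sum_congr rfl (fun x _ => Mt_comm p x y)

/-- expected volume off the explored set -/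
lemma vol_off {p : ℝ} (hp0 : 0 ≤ p) (hp1 : p ≤ 1 / 2) (D : Finset (TV N d)) (w : TV N d) :
    chi N d p - ∑ a ∈ D, Mt N d p w a * chi N d p ≤
      (T N d).bex univ p (univ \ D) (nv N d) w := by
  have h1 := LG.bex_off (G := T N d) (F := univ) (S := univ) (k := nv N d) hp0 hp1 D w
  have h2 := bex_eq_bb (N := N) (d := d) w (nv N d) p
  have h3 : ∑ a ∈ D ∩ univ, (T N d).tau univ p univ (nv N d) w a *
      (T N d).bex univ p univ (nv N d) a = ∑ a ∈ D, Mt N d p w a * chi N d p := by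
    rw [inter_univ]
    apply sum_congr rfl
    intro a _
    rw [bex_eq_bb a (nv N d) p]
    rfl
  rw [h2, h3] at h1
  have h4 : bb N d (nv N d) p = chi N d p := rfl
  rw [h4] at h1
  linarith

/-- expected size of the intersection of two clusters -/
lemma vol_inter {p : ℝ} (hN : 2 ≤ N) (hp0 : 0 ≤ p) (hp1 : p ≤ 1 / 2) (D : Finset (TV N d))
    (P Q : TV N d × Fin d) :
    Ex univ p (fun η => ((BP D η P ∩ BP D η Q).card : ℝ)) ≤
      chi N d p * ∑ v, Mt N d p (wv P) v * Mt N d p v (wv Q) := by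
  classical
  have hpp : p ≤ 1 := by linarith
  have h1 : Ex univ p (fun η => ((BP D η P ∩ BP D η Q).card : ℝ)) ≤
      Ex univ p (fun η => ∑ z : TV N d, if (wv P ∈ (T N d).ball univ η z (nv N d) ∧
        wv Q ∈ (T N d).ball univ η z (nv N d)) then (1:ℝ) else 0) := by
    apply Ex_mono hp0 hpp
    intro η _
    have h2 : BP D η P ∩ BP D η Q ⊆ univ.filter (fun z => wv P ∈ (T N d).ball univ η z (nv N d) ∧
        wv Q ∈ (T N d).ball univ η z (nv N d)) := by
      intro z hz
      obtain ⟨h3, h4⟩ := mem_inter.mp hz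
      rw [mem_filter]
      refine ⟨mem_univ _, ?_, ?_⟩
      · exact LG.mem_ball_symm (LG.ball_mono (subset_univ _) (Subset.refl _) h3)
      · exact LG.mem_ball_symm (LG.ball_mono (subset_univ _) (Subset.refl _) h4)
    have h3 := card_le_card h2
    rw [card_filter] at h3
    exact_mod_cast h3
  refine h1.trans ?_
  rw [Ex_sum]
  have h2 : ∀ z : TV N d, Ex univ p (fun η => if (wv P ∈ (T N d).ball univ η z (nv N d) ∧
        wv Q ∈ (T N d).ball univ η z (nv N d)) then (1:ℝ) else 0) ≤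
      ∑ v, Mt N d p z v * Mt N d p v (wv P) * Mt N d p v (wv Q) := by
    intro z
    have h3 := LG.tree_graph (G := T N d) (F := univ) (S := univ) (k := nv N d) (l := nv N d)
      (T_loopless hN) hp0 hp1 z (wv P) (wv Q)
    rw [Pr_eq_Ex] at h3
    exact h3
  refine (sum_le_sum (fun z _ => h2 z)).trans (le_of_eq ?_)
  rw [sum_comm, mul_sum]
  apply sum_congr rfl
  intro v _
  have h3 : ∑ z, Mt N d p z v * Mt N d p v (wv P) * Mt N d p v (wv Q)
      = (∑ z, Mt N d p z v) * (Mt N d p v (wv P) * Mt N d p v (wv Q)) := by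
    rw [sum_mul]
    exact sum_congr rfl (fun z _ => by ring)
  rw [h3, Mt_col, Mt_comm p v (wv P)]

open Classical in
lemma exp_gain (h4 : 4 ∣ N) (hN : 8 ≤ N) {p : ℝ} (hp0 : 0 ≤ p) (hp1 : p ≤ 1 / 2)
    (L : Lift N d ω) :
    (L.D.card : ℝ) + p * chi N d p * (((PL L).card : ℝ)
        - ∑ P ∈ PL L, ∑ a ∈ L.D, Mt N d p (wv P) a
        - p * ∑ P ∈ PL L, ∑ Q ∈ (PL L).erase P, ∑ v, Mt N d p (wv P) v * Mt N d p v (wv Q))
      ≤ Ex univ p (fun η => (((T N d).cl univ (wt L η) 0).card : ℝ)) := by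
  have hpp : p ≤ 1 := by linarith
  have hmain := Ex_mono (F := univ) hp0 hpp (fun η _ => det_gain h4 hN L η)
  refine le_trans ?_ hmain
  rw [Ex_sub, Ex_add, Ex_const, Ex_sum]
  have e0 : Ex univ p (fun η => ∑ P ∈ PL L, ∑ Q ∈ (PL L).erase P,
      ((if fe P ∈ η then (1:ℝ) else 0) * (if fe Q ∈ η then (1:ℝ) else 0)) *
        ((BP L.D η P ∩ BP L.D η Q).card : ℝ))
      = ∑ P ∈ PL L, ∑ Q ∈ (PL L).erase P, Ex univ p (fun η =>
      ((if fe P ∈ η then (1:ℝ) else 0) * (if fe Q ∈ η then (1:ℝ) else 0)) *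
        ((BP L.D η P ∩ BP L.D η Q).card : ℝ)) := by
    rw [Ex_sum]
    exact sum_congr rfl (fun P _ => Ex_sum _ _ _ _)
  rw [e0]
  -- the edge of a pattern is not inside the complement of `D`
  have hfe : ∀ P ∈ PL L, fe P ∉ (T N d).ins (univ \ L.D) univ := by
    intro P hP h
    obtain ⟨hu, hPat⟩ := mem_PL.mp hP
    obtain ⟨_, _, _, _, _, h3⟩ := steps h4 hu hPat
    obtain ⟨_, h5, _⟩ := LG.mem_ins.mp h
    exact (mem_sdiff.mp h5).2 h3
  have hBPloc : ∀ P : TV N d × Fin d, ∀ η : Finset (TE N d),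
      BP L.D η P = BP L.D (η ∩ (T N d).ins (univ \ L.D) univ) P := by
    intro P η
    unfold BP
    rw [LG.ball_ins (subset_univ η)]
  have e1 : ∀ P ∈ PL L, p * (chi N d p - ∑ a ∈ L.D, Mt N d p (wv P) a * chi N d p) ≤
      Ex univ p (fun η => (if fe P ∈ η then (1:ℝ) else 0) * ((BP L.D η P).card : ℝ)) := by
    intro P hP
    have hdis : Disjoint ({fe P} : Finset (TE N d)) ((T N d).ins (univ \ L.D) univ) :=
      disjoint_singleton_left.mpr (hfe P hP)
    rw [Ex_indep (f := fun η => if fe P ∈ η then (1:ℝ) else 0)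
      (g := fun η => ((BP L.D η P).card : ℝ)) hdis (fun η _ => by simp)
      (fun η _ => by rw [← hBPloc])]
    have h1 : Ex univ p (fun η => if fe P ∈ η then (1:ℝ) else 0) = p := by
      have := Pr_mem (mem_univ (fe P)) p
      rw [Pr_eq_Ex] at this
      exact this
    rw [h1]
    apply mul_le_mul_of_nonneg_left _ hp0
    exact vol_off hp0 hp1 L.D (wv P)
  have e2 : ∀ P ∈ PL L, ∀ Q ∈ (PL L).erase P, Ex univ p (fun η =>
      ((if fe P ∈ η then (1:ℝ) else 0) * (if fe Q ∈ η then (1:ℝ) else 0)) *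
        ((BP L.D η P ∩ BP L.D η Q).card : ℝ)) ≤
      p * p * (chi N d p * ∑ v, Mt N d p (wv P) v * Mt N d p v (wv Q)) := by
    intro P hP Q hQ
    have hQ' := mem_of_mem_erase hQ
    have hne : fe P ≠ fe Q := fun h => (ne_of_mem_erase hQ) (fe_inj h).symm
    have hdis : Disjoint ({fe P, fe Q} : Finset (TE N d)) ((T N d).ins (univ \ L.D) univ) := by
      rw [disjoint_insert_left, disjoint_singleton_left]
      exact ⟨hfe P hP, hfe Q hQ'⟩
    rw [Ex_indep (f := fun η => (if fe P ∈ η then (1:ℝ) else 0) * (if fe Q ∈ η then (1:ℝ) else 0))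
      (g := fun η => ((BP L.D η P ∩ BP L.D η Q).card : ℝ)) hdis (fun η _ => by simp)
      (fun η _ => by rw [← hBPloc, ← hBPloc])]
    have hdis2 : Disjoint ({fe P} : Finset (TE N d)) {fe Q} := by
      rw [disjoint_singleton]; exact hne
    rw [Ex_indep (f := fun η => if fe P ∈ η then (1:ℝ) else 0)
      (g := fun η => if fe Q ∈ η then (1:ℝ) else 0) hdis2 (fun η _ => by simp)
      (fun η _ => by simp)]
    have h1 : ∀ e : TE N d, Ex univ p (fun η => if e ∈ η then (1:ℝ) else 0) = p := by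
      intro e
      have := Pr_mem (mem_univ e) p
      rw [Pr_eq_Ex] at this
      exact this
    rw [h1, h1]
    apply mul_le_mul_of_nonneg_left _ (by positivity)
    exact vol_inter (by omega) hp0 hp1 L.D P Q
  have s1 := sum_le_sum e1
  have s2 : ∑ P ∈ PL L, ∑ Q ∈ (PL L).erase P, Ex univ p (fun η =>
      ((if fe P ∈ η then (1:ℝ) else 0) * (if fe Q ∈ η then (1:ℝ) else 0)) *
        ((BP L.D η P ∩ BP L.D η Q).card : ℝ)) ≤ ∑ P ∈ PL L, ∑ Q ∈ (PL L).erase P,
      p * p * (chi N d p * ∑ v, Mt N d p (wv P) v * Mt N d p v (wv Q)) :=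
    sum_le_sum (fun P hP => sum_le_sum (fun Q hQ => e2 P hP Q hQ))
  have s3 : ∑ P ∈ PL L, p * (chi N d p - ∑ a ∈ L.D, Mt N d p (wv P) a * chi N d p)
      = p * chi N d p * (((PL L).card : ℝ) - ∑ P ∈ PL L, ∑ a ∈ L.D, Mt N d p (wv P) a) := by
    have : ∀ P ∈ PL L, p * (chi N d p - ∑ a ∈ L.D, Mt N d p (wv P) a * chi N d p)
        = p * chi N d p * (1 - ∑ a ∈ L.D, Mt N d p (wv P) a) := by
      intro P _
      rw [← sum_mul]
      ring
    rw [sum_congr rfl this, ← mul_sum, sum_sub_distrib]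
    simp
  have s4 : ∑ P ∈ PL L, ∑ Q ∈ (PL L).erase P,
      p * p * (chi N d p * ∑ v, Mt N d p (wv P) v * Mt N d p v (wv Q))
      = p * chi N d p * (p * ∑ P ∈ PL L, ∑ Q ∈ (PL L).erase P,
        ∑ v, Mt N d p (wv P) v * Mt N d p v (wv Q)) := by
    rw [mul_sum, mul_sum]
    apply sum_congr rfl
    intro P _
    rw [mul_sum, mul_sum]
    apply sum_congr rfl
    intro Q _
    ring
  rw [s3] at s1
  rw [s4] at s2
  linarith

end

end DLo

end DDA
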