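import Pool.Agent.DDA.DLowB

/-!
# DDA: decoupling of the patterns, and the correction terms
-/

open Finset

namespace DDA

set_option linter.unusedSectionVars false

namespace DLo

section general

variable {E : Type*} [DecidableEq E]

/-- probability that all edges of `B` are open -/
lemma Pr_subset {F : Finset E} (p : ℝ) (B : Finset E) (hB : B ⊆ F) :
    Pr F p (fun ω => B ⊆ ω) = p ^ B.card := by
  induction B using Finset.induction_on with
  | empty =>
    classical
    rw [Pr_eq_Ex]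
    simp [Ex_one]
  | insert e B he ih =>
    have h1 : Pr F p (fun ω => insert e B ⊆ ω) = Pr F p (fun ω => e ∈ ω ∧ B ⊆ ω) :=
      Pr_congr (fun ω _ => insert_subset_iff)
    rw [h1, Pr_indep (A := {e}) (B := B) (disjoint_singleton_left.mpr he) (fun ω _ => by simp)
      (fun ω _ => by simp [subset_inter_iff]), Pr_mem (hB (mem_insert_self _ _)),
      ih ((subset_insert _ _).trans hB), card_insert_of_notMem he, pow_succ]
    ring

/-- probability of a given configuration on `A` -/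
lemma Pr_config {F : Finset E} (p : ℝ) {A B : Finset E} (hA : A ⊆ F) (hB : B ⊆ A) :
    Pr F p (fun ω => ω ∩ A = B) = p ^ B.card * (1 - p) ^ (A \ B).card := by
  classical
  rw [Pr_eq_Ex, Ex_restrict (A := A) (fun ω _ => by simp), inter_eq_right.mpr hA]
  unfold Ex
  rw [sum_eq_single B]
  · simp [inter_eq_left.mpr hB]
  · intro ω hω hne
    beta_reduce
    rw [if_neg, mul_zero]
    intro h
    rw [inter_eq_left.mpr (mem_powerset.mp hω)] at h
    exact hne h
  · intro h
    exact absurd (mem_powerset.mpr hB) h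

end general

section
variable {N d : ℕ} [NeZero N]

lemma card_run (hN : 4 ≤ N) (u : TV N d) (i : Fin d) : (run N d u i).card = 3 := by
  have key : ∀ j k : ℕ, j < 3 → k < 3 → j ≠ k →
      ((u + sg N d i j, i) : TE N d) ≠ (u + sg N d i k, i) := by
    intro j k hj hk hjk h
    have h1 : u + sg N d i j = u + sg N d i k := congrArg Prod.fst h
    exact hjk (sg_inj (by omega) (by omega) (add_left_cancel h1))
  have h0 : ((u, i) : TE N d) = (u + sg N d i 0, i) := by rw [sg_zero, add_zero]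
  unfold run
  rw [h0, card_insert_of_notMem, card_insert_of_notMem, card_singleton]
  · rw [mem_singleton]
    exact key 1 2 (by omega) (by omega) (by omega)
  · rw [mem_insert, mem_singleton, not_or]
    exact ⟨key 0 1 (by omega) (by omega) (by omega), key 0 2 (by omega) (by omega) (by omega)⟩

lemma run_disj (u : TV N d) (i : Fin d) :
    Disjoint (run N d u i) ((T N d).ins (univ \ dang N d u i) univ) := by
  rw [Finset.disjoint_left]
  intro e he he'
  obtain ⟨_, h1, h2⟩ := LG.mem_ins.mp he'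
  have h1' := (mem_sdiff.mp h1).2
  have h2' := (mem_sdiff.mp h2).2
  rcases mem_run.mp he with rfl | rfl | rfl
  · apply h2'
    show u + Pi.single i 1 ∈ _
    rw [mem_dang, sg_one]
    exact Or.inl rfl
  · exact h1' (mem_dang.mpr (Or.inl rfl))
  · exact h1' (mem_dang.mpr (Or.inr (Or.inl rfl)))

/-- the coupling identity -/
def Cpl (p : ℝ) (L : ∀ ω : Finset (TE 4 d), Lift N d ω) : Prop :=
  ∀ f : Finset (TE N d) → ℝ,
    Ex univ p (fun ω => Ex univ p (fun η => f (wt (L ω) η))) = Ex univ p f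

open Classical in
/-- probability that `P` is a pattern and `a` is discovered -/
noncomputable def qa (p : ℝ) (L : ∀ ω : Finset (TE 4 d), Lift N d ω) (P : TV N d × Fin d)
    (a : TV N d) : ℝ :=
  Ex univ p (fun ω => if P ∈ PL (L ω) ∧ a ∈ (L ω).D then (1:ℝ) else 0)

open Classical in
/-- probability that `P` is a pattern -/
noncomputable def qp (p : ℝ) (L : ∀ ω : Finset (TE 4 d), Lift N d ω) (P : TV N d × Fin d) : ℝ :=
  Ex univ p (fun ω => if P ∈ PL (L ω) then (1:ℝ) else 0)

/-- expected number of patterns -/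
noncomputable def EP (p : ℝ) (L : ∀ ω : Finset (TE 4 d), Lift N d ω) : ℝ :=
  Ex univ p (fun ω => ((PL (L ω)).card : ℝ))

variable {p : ℝ} {L : ∀ ω : Finset (TE 4 d), Lift N d ω}

lemma EP_eq : EP p L = ∑ P, qp p L P := by
  classical
  unfold EP qp
  rw [← Ex_sum]
  congr 1
  funext ω
  rw [sum_ite_mem, univ_inter, sum_const, nsmul_eq_mul, mul_one]

lemma qp_nonneg (hp0 : 0 ≤ p) (hp1 : p ≤ 1) (P : TV N d × Fin d) : 0 ≤ qp p L P := by
  classical
  exact Ex_nonneg hp0 hp1 (fun ω _ => by split_ifs <;> norm_num)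

lemma qa_nonneg (hp0 : 0 ≤ p) (hp1 : p ≤ 1) (P : TV N d × Fin d) (a : TV N d) :
    0 ≤ qa p L P a := by
  classical
  exact Ex_nonneg hp0 hp1 (fun ω _ => by split_ifs <;> norm_num)

lemma qa_le_qp (hp0 : 0 ≤ p) (hp1 : p ≤ 1) (P : TV N d × Fin d) (a : TV N d) :
    qa p L P a ≤ qp p L P := by
  classical
  apply Ex_mono hp0 hp1
  intro ω _
  by_cases h1 : P ∈ PL (L ω) <;> by_cases h2 : a ∈ (L ω).D <;> simp [h1, h2]

/-- three-point function through a vertex -/
noncomputable def T3 (N d : ℕ) [NeZero N] (p : ℝ) (x y : TV N d) : ℝ :=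
  ∑ v, Mt N d p 0 v * Mt N d p v x * Mt N d p v y

lemma T3_nonneg (hp0 : 0 ≤ p) (hp1 : p ≤ 1) (x y : TV N d) : 0 ≤ T3 N d p x y :=
  sum_nonneg (fun v _ => mul_nonneg (mul_nonneg (Mt_nonneg hp0 hp1 _ _) (Mt_nonneg hp0 hp1 _ _))
    (Mt_nonneg hp0 hp1 _ _))

/-- **decoupling** -/
theorem decouple (h4 : 4 ∣ N) (hN : 8 ≤ N) (hp0 : 0 ≤ p) (hp1 : p ≤ 1 / 2) (hL : Cpl p L)
    (P : TV N d × Fin d) (a : TV N d) (ha : a ∉ dang N d P.1 P.2) :
    qa p L P a ≤ p ^ 3 * T3 N d p P.1 a := by
  classical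
  have hpp : p ≤ 1 := by linarith
  obtain ⟨u, i⟩ := P
  simp only at ha ⊢
  set A := dang N d u i with hA
  let ev : Finset (TE N d) → Prop := fun ω' => u ∈ (T N d).ball (univ \ A) ω' 0 (nv N d) ∧
    a ∈ (T N d).ball (univ \ A) ω' 0 (nv N d)
  have h1 : qa p L (u, i) a ≤ Pr univ p (fun ω' => run N d u i ⊆ ω' ∧ ev ω') := by
    rw [Pr_eq_Ex]
    rw [← hL (fun ω' => if run N d u i ⊆ ω' ∧ ev ω' then (1:ℝ) else 0)]
    unfold qa
    apply Ex_mono hp0 hpp
    intro ω _
    apply le_Ex hp0 hpp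
    intro η _
    by_cases h : (u, i) ∈ PL (L ω) ∧ a ∈ (L ω).D
    · obtain ⟨hP, haD⟩ := h
      obtain ⟨hu, hPat⟩ := mem_PL.mp hP
      simp only at hu hPat
      have r1 : run N d u i ⊆ wt (L ω) η := (run_sub h4 hu hPat).trans subset_union_left
      have hmono : ∀ z ∈ (L ω).D, z ∉ A → z ∈ (T N d).ball (univ \ A) (wt (L ω) η) 0 (nv N d) := by
        intro z hz hzA
        have h5 := conn_off h4 (by omega) hu hPat hz hzA
        have h6 : (T N d).ball (univ \ A) (wt (L ω) η) 0 (nv N d)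
            = (T N d).cl (univ \ A) (wt (L ω) η) 0 :=
          LG.ball_eq_cl (card_le_card (subset_univ _))
        rw [h6]
        exact LG.cl_mono (Subset.refl _) subset_union_left h5
      have r2 : ev (wt (L ω) η) :=
        ⟨hmono u hu (self_notMem_dang (by omega) u i), hmono a haD ha⟩
      rw [if_pos ⟨hP, haD⟩, if_pos ⟨r1, r2⟩]
    · rw [if_neg h]
      split_ifs <;> norm_num
  have h2 : Pr univ p (fun ω' => run N d u i ⊆ ω' ∧ ev ω')
      = p ^ 3 * Pr univ p ev := by
    rw [Pr_indep (P := fun ω' => run N d u i ⊆ ω') (Q := ev) (run_disj u i)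
      (fun ω _ => by simp [subset_inter_iff]) ?_,
      Pr_subset p _ (subset_univ _), card_run (by omega)]
    intro ω _
    simp only [ev]
    rw [LG.ball_ins (subset_univ ω)]
  have h3 : Pr univ p ev ≤ T3 N d p u a := by
    have h5 := LG.tree_graph (G := T N d) (F := univ) (S := univ) (k := nv N d) (l := nv N d)
      (T_loopless (by omega)) hp0 hp1 0 u a
    refine le_trans (Pr_mono hp0 hpp ?_) h5
    rintro ω _ ⟨h6, h7⟩
    exact ⟨LG.ball_mono (subset_univ _) (Subset.refl _) h6,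
      LG.ball_mono (subset_univ _) (Subset.refl _) h7⟩
  rw [h2] at h1
  exact h1.trans (mul_le_mul_of_nonneg_left h3 (by positivity))

/-! ### matrix manipulations -/

lemma Mt_add (x y c : TV N d) : Mt N d p (x + c) (y + c) = Mt N d p x y := by
  unfold Mt
  rw [tau_eq_tt, tau_eq_tt, add_sub_add_right_eq_sub]

lemma Mt_mul_add {A B : Matrix (TV N d) (TV N d) ℝ} (hA : ∀ x y c, A (x + c) (y + c) = A x y)
    (hB : ∀ x y c, B (x + c) (y + c) = B x y) (x y c : TV N d) :
    (A * B) (x + c) (y + c) = (A * B) x y := by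
  rw [Matrix.mul_apply, Matrix.mul_apply]
  rw [← Equiv.sum_comp (Equiv.addRight c)]
  apply sum_congr rfl
  intro z _
  simp only [Equiv.coe_addRight]
  rw [hA, hB]

lemma mul_comm_symm {A B : Matrix (TV N d) (TV N d) ℝ} (hA : ∀ x y, A x y = A y x)
    (hB : ∀ x y, B x y = B y x) (x y : TV N d) : (A * B) x y = (B * A) y x := by
  rw [Matrix.mul_apply, Matrix.mul_apply]
  apply sum_congr rfl
  intro z _
  rw [hA x z, hB z y, mul_comm]

lemma sum_dang_le {f : TV N d → ℝ} (hf : ∀ x, 0 ≤ f x) (u : TV N d) (i : Fin d) :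
    ∑ a ∈ dang N d u i, f a ≤ f (u + sg N d i 1) + f (u + sg N d i 2) + f (u + sg N d i 3) := by
  unfold dang
  have h1 := sum_insert_le (s := {u + sg N d i 2, u + sg N d i 3}) (a := u + sg N d i 1) hf
  have h2 := sum_insert_le (s := {u + sg N d i 3}) (a := u + sg N d i 2) hf
  rw [sum_singleton] at h2
  linarith
where
  sum_insert_le {f : TV N d → ℝ} {s : Finset (TV N d)} {a : TV N d} (hf : ∀ x, 0 ≤ f x) :
      ∑ x ∈ insert a s, f x ≤ f a + ∑ x ∈ s, f x := by
    by_cases h : a ∈ s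
    · rw [insert_eq_of_mem h]
      have := hf a
      linarith
    · rw [sum_insert h]

/-- first correction term -/
theorem E2_bound (h4 : 4 ∣ N) (hN : 8 ≤ N) (hp0 : 0 ≤ p) (hp1 : p ≤ 1 / 2) (hL : Cpl p L)
    {B0 B4 : ℝ} (hB0 : ∀ P : TV N d × Fin d, ∀ a ∈ dang N d P.1 P.2, Mt N d p (wv P) a ≤ B0)
    (hB4 : ∀ (i : Fin d) (v : TV N d),
      (Mt N d p * (Mt N d p * Mt N d p)) v (v - sg N d i 4) ≤ B4) :
    Ex univ p (fun ω => ∑ P ∈ PL (L ω), ∑ a ∈ (L ω).D, Mt N d p (wv P) a)
      ≤ 3 * B0 * EP p L + p ^ 3 * (d * chi N d p * B4) := by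
  classical
  have hpp : p ≤ 1 := by linarith
  have e1 : Ex univ p (fun ω => ∑ P ∈ PL (L ω), ∑ a ∈ (L ω).D, Mt N d p (wv P) a)
      = ∑ P, ∑ a, Mt N d p (wv P) a * qa p L P a := by
    have : (fun ω => ∑ P ∈ PL (L ω), ∑ a ∈ (L ω).D, Mt N d p (wv P) a)
        = (fun ω => ∑ P, ∑ a, Mt N d p (wv P) a *
          (if P ∈ PL (L ω) ∧ a ∈ (L ω).D then (1:ℝ) else 0)) := by
      funext ω
      rw [← sum_ite_mem_univ' (PL (L ω))]
      apply sum_congr rfl
      intro P _
      by_cases hP : P ∈ PL (L ω)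
      · rw [if_pos hP, ← sum_ite_mem_univ' (L ω).D]
        apply sum_congr rfl
        intro a _
        by_cases ha : a ∈ (L ω).D <;> simp [hP, ha]
      · simp [hP]
    rw [this, Ex_sum]
    apply sum_congr rfl
    intro P _
    rw [Ex_sum]
    apply sum_congr rfl
    intro a _
    rw [Ex_mul_left]
    rfl
  rw [e1]
  have e2 : ∀ P : TV N d × Fin d, ∑ a, Mt N d p (wv P) a * qa p L P a ≤
      3 * B0 * qp p L P + ∑ a, Mt N d p (wv P) a * (p ^ 3 * T3 N d p P.1 a) := by
    intro P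
    rw [← sum_sdiff (subset_univ (dang N d P.1 P.2)), add_comm]
    apply add_le_add
    · have h1 : ∑ a ∈ dang N d P.1 P.2, Mt N d p (wv P) a * qa p L P a
          ≤ ∑ _a ∈ dang N d P.1 P.2, B0 * qp p L P := by
        apply sum_le_sum
        intro a ha
        exact mul_le_mul (hB0 P a ha) (qa_le_qp hp0 hpp P a) (qa_nonneg hp0 hpp P a)
          ((Mt_nonneg hp0 hpp _ _).trans (hB0 P a ha))
      refine h1.trans ?_
      rw [sum_const, nsmul_eq_mul]
      have h2 : ((dang N d P.1 P.2).card : ℝ) ≤ 3 := by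
        have : (dang N d P.1 P.2).card ≤ 3 := card_le_three
        exact_mod_cast this
      have h3 : 0 ≤ B0 := (Mt_nonneg hp0 hpp _ _).trans
        (hB0 P (P.1 + sg N d P.2 1) (mem_dang.mpr (Or.inl rfl)))
      have h4' := qp_nonneg (L := L) hp0 hpp P
      calc _ ≤ 3 * (B0 * qp p L P) := by gcongr
        _ = _ := by ring
    · have h1 : ∑ a ∈ univ \ dang N d P.1 P.2, Mt N d p (wv P) a * qa p L P a
          ≤ ∑ a ∈ univ \ dang N d P.1 P.2, Mt N d p (wv P) a * (p ^ 3 * T3 N d p P.1 a) := by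
        apply sum_le_sum
        intro a ha
        exact mul_le_mul_of_nonneg_left (decouple h4 hN hp0 hp1 hL P a (mem_sdiff.mp ha).2)
          (Mt_nonneg hp0 hpp _ _)
      refine h1.trans (sum_le_sum_of_subset_of_nonneg (subset_univ _) ?_)
      intro a _ _
      exact mul_nonneg (Mt_nonneg hp0 hpp _ _) (mul_nonneg (by positivity)
        (T3_nonneg hp0 hpp _ _))
  refine (sum_le_sum (fun P _ => e2 P)).trans ?_
  rw [sum_add_distrib, ← mul_sum, ← EP_eq]
  gcongr
  -- the sum over all `P` and `a`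
  have e3 : ∀ P : TV N d × Fin d, ∑ a, Mt N d p (wv P) a * (p ^ 3 * T3 N d p P.1 a)
      = p ^ 3 * ∑ v, Mt N d p 0 v * (Mt N d p v P.1 * (Mt N d p * Mt N d p) (P.1 + sg N d P.2 4) v) := by
    intro P
    rw [mul_sum]
    have : ∀ a, Mt N d p (wv P) a * (p ^ 3 * T3 N d p P.1 a)
        = ∑ v, p ^ 3 * (Mt N d p 0 v * (Mt N d p v P.1 * (Mt N d p (wv P) a * Mt N d p a v))) := by
      intro a
      unfold T3
      rw [mul_sum, mul_sum]
      apply sum_congr rfl
      intro v _
      rw [Mt_comm p a v]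
      ring
    rw [sum_congr rfl (fun a _ => this a), sum_comm]
    apply sum_congr rfl
    intro v _
    rw [Matrix.mul_apply, mul_sum, mul_sum, mul_sum]
    rfl
  rw [sum_congr rfl (fun P _ => e3 P), ← mul_sum]
  apply mul_le_mul_of_nonneg_left _ (by positivity)
  rw [sum_comm]
  have e4 : ∀ v : TV N d, ∑ P : TV N d × Fin d, Mt N d p 0 v * (Mt N d p v P.1 *
      (Mt N d p * Mt N d p) (P.1 + sg N d P.2 4) v) ≤ Mt N d p 0 v * (d * B4) := by
    intro v
    rw [← mul_sum]
    apply mul_le_mul_of_nonneg_left _ (Mt_nonneg hp0 hpp _ _)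
    rw [Fintype.sum_prod_type, sum_comm]
    have : ∀ i : Fin d, ∑ u, Mt N d p v u * (Mt N d p * Mt N d p) (u + sg N d i 4) v ≤ B4 := by
      intro i
      refine le_trans (le_of_eq ?_) (hB4 i v)
      rw [Matrix.mul_apply]
      apply sum_congr rfl
      intro u _
      congr 1
      have := Mt_mul_add (A := Mt N d p) (B := Mt N d p) Mt_add Mt_add u (v - sg N d i 4)
        (sg N d i 4)
      rw [sub_add_cancel] at this
      exact this
    refine (sum_le_sum (fun i _ => this i)).trans ?_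
    rw [sum_const, nsmul_eq_mul, card_univ, Fintype.card_fin]
  refine (sum_le_sum (fun v _ => e4 v)).trans (le_of_eq ?_)
  rw [← sum_mul, Mt_row]
  ring
where
  sum_ite_mem_univ' {α : Type _} [Fintype α] [DecidableEq α] (s : Finset α) {f : α → ℝ} :
      ∑ x, (if x ∈ s then f x else 0) = ∑ x ∈ s, f x := by
    rw [sum_ite_mem, univ_inter]

end

end DLo

end DDA
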