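import Pool.Agent.DDA.DLowC

/-!
# DDA: the second correction term and the expected number of patterns
-/

open Finset

namespace DDA

set_option linter.unusedSectionVars false

namespace DLo

section
variable {N d : ℕ} [NeZero N] {p : ℝ} {L : ∀ ω : Finset (TE 4 d), Lift N d ω}

lemma Mt2_nonneg (hp0 : 0 ≤ p) (hp1 : p ≤ 1) (x y : TV N d) :
    0 ≤ (Mt N d p * Mt N d p) x y := by
  rw [Matrix.mul_apply]
  exact sum_nonneg (fun v _ => mul_nonneg (Mt_nonneg hp0 hp1 _ _) (Mt_nonneg hp0 hp1 _ _))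

lemma Mt2_self (hp0 : 0 ≤ p) (hp1 : p ≤ 1) (x : TV N d) : 1 ≤ (Mt N d p * Mt N d p) x x := by
  rw [Matrix.mul_apply]
  have h1 := single_le_sum (f := fun v => Mt N d p x v * Mt N d p v x)
    (fun v _ => mul_nonneg (Mt_nonneg hp0 hp1 _ _) (Mt_nonneg hp0 hp1 _ _)) (mem_univ x)
  simp only [Mt_self, mul_one] at h1
  exact h1

lemma Mt2_add (x y c : TV N d) :
    (Mt N d p * Mt N d p) (x + c) (y + c) = (Mt N d p * Mt N d p) x y :=
  Mt_mul_add Mt_add Mt_add x y c

/-- expansion of the fourfold product -/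
lemma four_apply (v w : TV N d) :
    (Mt N d p * (Mt N d p * Mt N d p) * Mt N d p) v w
      = ∑ u, ∑ u', Mt N d p v u * ((Mt N d p * Mt N d p) u u' * Mt N d p u' w) := by
  rw [Matrix.mul_assoc, Matrix.mul_apply]
  apply sum_congr rfl
  intro u _
  rw [Matrix.mul_apply, mul_sum]

open Classical in
/-- sum over pairs of different patterns in the directions `i`, `j` -/
noncomputable def HH (N d : ℕ) [NeZero N] (p : ℝ) (v : TV N d) (i j : Fin d) : ℝ :=
  ∑ u : TV N d, ∑ u' : TV N d, if ((u', j) : TV N d × Fin d) = (u, i) then 0 else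
    Mt N d p v u * Mt N d p v u' *
      (Mt N d p * Mt N d p) (u + sg N d i 4) (u' + sg N d j 4)

lemma HH_diag (hp0 : 0 ≤ p) (hp1 : p ≤ 1) {B2 : ℝ}
    (hB2 : ∀ v : TV N d, (Mt N d p * (Mt N d p * Mt N d p) * Mt N d p) v v ≤ 1 + B2)
    (v : TV N d) (i : Fin d) : HH N d p v i i ≤ B2 := by
  classical
  have h1 : HH N d p v i i = ∑ u : TV N d, (∑ u' : TV N d,
      Mt N d p v u * Mt N d p v u' * (Mt N d p * Mt N d p) u u'
        - Mt N d p v u * Mt N d p v u * (Mt N d p * Mt N d p) u u) := by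
    unfold HH
    apply sum_congr rfl
    intro u _
    rw [← add_sum_erase univ (fun u' : TV N d =>
      Mt N d p v u * Mt N d p v u' * (Mt N d p * Mt N d p) u u') (mem_univ u),
      ← add_sum_erase univ (fun u' : TV N d => if ((u', i) : TV N d × Fin d) = (u, i) then (0:ℝ)
        else Mt N d p v u * Mt N d p v u' *
          (Mt N d p * Mt N d p) (u + sg N d i 4) (u' + sg N d i 4)) (mem_univ u)]
    simp only [if_true, zero_add, add_sub_cancel_left]
    apply sum_congr rfl
    intro u' hu'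
    have hne : ¬ ((u', i) : TV N d × Fin d) = (u, i) := by
      intro h
      exact (ne_of_mem_erase hu') (congrArg Prod.fst h)
    rw [if_neg hne, Mt2_add]
  rw [h1, sum_sub_distrib]
  have h2 : ∑ u : TV N d, ∑ u' : TV N d, Mt N d p v u * Mt N d p v u' *
      (Mt N d p * Mt N d p) u u' = (Mt N d p * (Mt N d p * Mt N d p) * Mt N d p) v v := by
    rw [four_apply]
    apply sum_congr rfl
    intro u _
    apply sum_congr rfl
    intro u' _
    rw [Mt_comm p u' v]
    ring
  have h3 : 1 ≤ ∑ u : TV N d, Mt N d p v u * Mt N d p v u * (Mt N d p * Mt N d p) u u := by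
    have h4 := single_le_sum (f := fun u : TV N d => Mt N d p v u * Mt N d p v u *
      (Mt N d p * Mt N d p) u u) (fun u _ => mul_nonneg (mul_nonneg (Mt_nonneg hp0 hp1 _ _)
        (Mt_nonneg hp0 hp1 _ _)) (Mt2_nonneg hp0 hp1 _ _)) (mem_univ v)
    simp only [Mt_self, mul_one, one_mul] at h4
    exact (Mt2_self hp0 hp1 v).trans h4
  have h5 := hB2 v
  rw [h2]
  linarith

lemma HH_off (hp0 : 0 ≤ p) (hp1 : p ≤ 1) {B3 : ℝ} {i j : Fin d} (hij : i ≠ j) (v : TV N d)
    (hB3 : (Mt N d p * (Mt N d p * Mt N d p) * Mt N d p) v (v + (sg N d j 4 - sg N d i 4)) ≤ B3) :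
    HH N d p v i j ≤ B3 := by
  classical
  refine le_trans (le_of_eq ?_) hB3
  rw [four_apply]
  unfold HH
  apply sum_congr rfl
  intro u _
  rw [← Equiv.sum_comp (Equiv.subRight (sg N d j 4 - sg N d i 4))]
  apply sum_congr rfl
  intro u' _
  have hne : ∀ w : TV N d, ¬ ((w, j) : TV N d × Fin d) = (u, i) := by
    intro w h
    exact hij (congrArg Prod.snd h).symm
  rw [if_neg (hne _)]
  simp only [Equiv.subRight_apply]
  have h1 : u' - (sg N d j 4 - sg N d i 4) + sg N d j 4 = u' + sg N d i 4 := by abel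
  have h2 : Mt N d p v (u' - (sg N d j 4 - sg N d i 4))
      = Mt N d p u' (v + (sg N d j 4 - sg N d i 4)) := by
    rw [Mt_comm, ← Mt_add _ _ (sg N d j 4 - sg N d i 4), sub_add_cancel]
  rw [h1, h2, Mt2_add]
  ring

/-- second correction term -/
theorem E3_bound (h4 : 4 ∣ N) (hN : 8 ≤ N) (hp0 : 0 ≤ p) (hp1 : p ≤ 1 / 2) (hL : Cpl p L)
    {B1 B2 B3 : ℝ} (hB1n : 0 ≤ B1) (hB3n : 0 ≤ B3)
    (hB1 : ∀ P Q : TV N d × Fin d, Q.1 ∈ dang N d P.1 P.2 →
      (Mt N d p * Mt N d p) (wv P) (wv Q) ≤ B1)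
    (hB2 : ∀ v : TV N d, (Mt N d p * (Mt N d p * Mt N d p) * Mt N d p) v v ≤ 1 + B2)
    (hB3 : ∀ i j : Fin d, i ≠ j → ∀ v : TV N d,
      (Mt N d p * (Mt N d p * Mt N d p) * Mt N d p) v (v + (sg N d j 4 - sg N d i 4)) ≤ B3) :
    Ex univ p (fun ω => ∑ P ∈ PL (L ω), ∑ Q ∈ (PL (L ω)).erase P,
        ∑ v, Mt N d p (wv P) v * Mt N d p v (wv Q))
      ≤ 3 * d * B1 * EP p L + p ^ 3 * (chi N d p * (d * B2 + (d : ℝ) ^ 2 * B3)) := by
  classical
  have hpp : p ≤ 1 := by linarith
  set K := Mt N d p * Mt N d p with hK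
  have hKn : ∀ x y, 0 ≤ K x y := fun x y => Mt2_nonneg hp0 hpp x y
  have e1 : Ex univ p (fun ω => ∑ P ∈ PL (L ω), ∑ Q ∈ (PL (L ω)).erase P,
        ∑ v, Mt N d p (wv P) v * Mt N d p v (wv Q))
      ≤ ∑ P, ∑ Q : TV N d × Fin d, (if Q = P then 0 else K (wv P) (wv Q) *
        min (qp p L P) (qa p L P Q.1)) := by
    have h1 : (fun ω => ∑ P ∈ PL (L ω), ∑ Q ∈ (PL (L ω)).erase P,
        ∑ v, Mt N d p (wv P) v * Mt N d p v (wv Q))
        = (fun ω => ∑ P, ∑ Q : TV N d × Fin d, (if Q = P then 0 else K (wv P) (wv Q)) *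
          (if P ∈ PL (L ω) ∧ Q ∈ PL (L ω) then (1:ℝ) else 0)) := by
      funext ω
      have s1 : ∀ (s : Finset (TV N d × Fin d)) (f : TV N d × Fin d → ℝ),
          ∑ x ∈ s, f x = ∑ x, (if x ∈ s then f x else 0) := by
        intro s f
        rw [sum_ite_mem, univ_inter]
      rw [s1]
      apply sum_congr rfl
      intro P _
      by_cases hP : P ∈ PL (L ω)
      · rw [if_pos hP, s1]
        apply sum_congr rfl
        intro Q _
        by_cases hQ : Q ∈ PL (L ω)
        · by_cases hQP : Q = P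
          · subst hQP
            simp
          · rw [if_pos (mem_erase.mpr ⟨hQP, hQ⟩), if_neg hQP, if_pos ⟨hP, hQ⟩, mul_one, hK,
              Matrix.mul_apply]
        · have hQ' : Q ∉ (PL (L ω)).erase P := fun h => hQ (mem_of_mem_erase h)
          simp only [hQ', hQ, and_false, if_false, mul_zero]
      · simp [hP]
    rw [h1, Ex_sum]
    apply sum_le_sum
    intro P _
    rw [Ex_sum]
    apply sum_le_sum
    intro Q _
    rw [Ex_mul_left]
    by_cases hQP : Q = P
    · rw [if_pos hQP, if_pos hQP, zero_mul]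
    · rw [if_neg hQP, if_neg hQP]
      apply mul_le_mul_of_nonneg_left _ (hKn _ _)
      apply le_min
      · apply Ex_mono hp0 hpp
        intro ω _
        by_cases h1 : P ∈ PL (L ω) <;> by_cases h2 : Q ∈ PL (L ω) <;> simp [h1, h2]
      · apply Ex_mono hp0 hpp
        intro ω _
        by_cases h2 : Q ∈ PL (L ω)
        · have h3 := (mem_PL.mp h2).1
          simp [h2, h3]
        · simp only [h2, and_false, if_false]
          split_ifs <;> norm_num
  refine e1.trans ?_
  have e2 : ∀ P : TV N d × Fin d, ∑ Q : TV N d × Fin d, (if Q = P then 0 else K (wv P) (wv Q) *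
        min (qp p L P) (qa p L P Q.1)) ≤ 3 * d * B1 * qp p L P + p ^ 3 *
        ∑ Q : TV N d × Fin d, (if Q = P then 0 else K (wv P) (wv Q) * T3 N d p P.1 Q.1) := by
    intro P
    have hq0 := qp_nonneg (L := L) hp0 hpp P
    set S := dang N d P.1 P.2 ×ˢ (univ : Finset (Fin d)) with hS
    have hcard : (S.card : ℝ) ≤ 3 * d := by
      rw [hS, card_product, card_univ, Fintype.card_fin]
      have h1 : (dang N d P.1 P.2).card ≤ 3 := card_le_three
      exact_mod_cast Nat.mul_le_mul_right d h1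
    rw [← sum_sdiff (subset_univ S), add_comm]
    apply add_le_add
    · have h1 : ∑ Q ∈ S, (if Q = P then 0 else K (wv P) (wv Q) *
          min (qp p L P) (qa p L P Q.1)) ≤ ∑ _Q ∈ S, B1 * qp p L P := by
        apply sum_le_sum
        intro Q hQ
        have hQ1 := (mem_product.mp hQ).1
        by_cases hQP : Q = P
        · rw [if_pos hQP]; positivity
        · rw [if_neg hQP]
          refine mul_le_mul (hB1 P Q hQ1) (min_le_left _ _) ?_ hB1n
          exact le_min hq0 (qa_nonneg hp0 hpp P Q.1)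
      refine h1.trans ?_
      rw [sum_const, nsmul_eq_mul]
      calc (S.card : ℝ) * (B1 * qp p L P) ≤ (3 * d) * (B1 * qp p L P) := by gcongr
        _ = _ := by ring
    · rw [mul_sum]
      have h1 : ∑ Q ∈ univ \ S, (if Q = P then 0 else K (wv P) (wv Q) *
          min (qp p L P) (qa p L P Q.1)) ≤ ∑ Q ∈ univ \ S, p ^ 3 *
          (if Q = P then 0 else K (wv P) (wv Q) * T3 N d p P.1 Q.1) := by
        apply sum_le_sum
        intro Q hQ
        have hQ1 : Q.1 ∉ dang N d P.1 P.2 := by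
          intro h
          exact (mem_sdiff.mp hQ).2 (mem_product.mpr ⟨h, mem_univ _⟩)
        by_cases hQP : Q = P
        · rw [if_pos hQP, if_pos hQP, mul_zero]
        · rw [if_neg hQP, if_neg hQP]
          have h2 := decouple h4 hN hp0 hp1 hL P Q.1 hQ1
          calc K (wv P) (wv Q) * min (qp p L P) (qa p L P Q.1)
              ≤ K (wv P) (wv Q) * (p ^ 3 * T3 N d p P.1 Q.1) := by
                apply mul_le_mul_of_nonneg_left _ (hKn _ _)
                exact (min_le_right _ _).trans h2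
            _ = _ := by ring
      refine h1.trans (sum_le_sum_of_subset_of_nonneg (subset_univ _) ?_)
      intro Q _ _
      apply mul_nonneg (by positivity)
      split_ifs
      · exact le_rfl
      · exact mul_nonneg (hKn _ _) (T3_nonneg hp0 hpp _ _)
  refine (sum_le_sum (fun P _ => e2 P)).trans ?_
  rw [sum_add_distrib, ← mul_sum, ← EP_eq, ← mul_sum]
  gcongr
  have e3 : ∑ P : TV N d × Fin d, ∑ Q : TV N d × Fin d,
      (if Q = P then 0 else K (wv P) (wv Q) * T3 N d p P.1 Q.1)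
      = ∑ v, Mt N d p 0 v * ∑ i, ∑ j, HH N d p v i j := by
    have h1 : ∀ P Q : TV N d × Fin d, (if Q = P then 0 else K (wv P) (wv Q) * T3 N d p P.1 Q.1)
        = ∑ v, Mt N d p 0 v * (if Q = P then 0 else
          Mt N d p v P.1 * Mt N d p v Q.1 * K (wv P) (wv Q)) := by
      intro P Q
      by_cases hQP : Q = P
      · simp [hQP]
      · simp only [hQP, if_false]
        unfold T3
        rw [mul_sum]
        apply sum_congr rfl
        intro v _
        ring
    rw [sum_congr rfl (fun P _ => sum_congr rfl (fun Q _ => h1 P Q))]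
    have h2 : ∀ P : TV N d × Fin d, ∑ Q : TV N d × Fin d, ∑ v, Mt N d p 0 v *
        (if Q = P then 0 else Mt N d p v P.1 * Mt N d p v Q.1 * K (wv P) (wv Q))
        = ∑ v, ∑ Q : TV N d × Fin d, Mt N d p 0 v *
        (if Q = P then 0 else Mt N d p v P.1 * Mt N d p v Q.1 * K (wv P) (wv Q)) :=
      fun P => sum_comm
    rw [sum_congr rfl (fun P _ => h2 P), sum_comm]
    apply sum_congr rfl
    intro v _
    rw [mul_sum, Fintype.sum_prod_type, sum_comm]
    apply sum_congr rfl
    intro i _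
    rw [mul_sum]
    have h3 : ∀ u : TV N d, ∑ Q : TV N d × Fin d, Mt N d p 0 v *
        (if Q = (u, i) then 0 else Mt N d p v (u, i).1 * Mt N d p v Q.1 * K (wv (u, i)) (wv Q))
        = ∑ j, ∑ u', Mt N d p 0 v * (if ((u', j) : TV N d × Fin d) = (u, i) then 0 else
          Mt N d p v u * Mt N d p v u' * K (u + sg N d i 4) (u' + sg N d j 4)) := by
      intro u
      rw [Fintype.sum_prod_type, sum_comm]
      rfl
    rw [sum_congr rfl (fun u _ => h3 u), sum_comm]
    apply sum_congr rfl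
    intro j _
    unfold HH
    rw [mul_sum]
    apply sum_congr rfl
    intro u _
    rw [mul_sum]
  rw [e3]
  have e4 : ∀ v : TV N d, ∑ i, ∑ j, HH N d p v i j ≤ d * B2 + (d : ℝ) ^ 2 * B3 := by
    intro v
    have h1 : ∀ i : Fin d, ∑ j, HH N d p v i j ≤ B2 + d * B3 := by
      intro i
      rw [← add_sum_erase univ _ (mem_univ i)]
      apply add_le_add (HH_diag hp0 hpp hB2 v i)
      have h2 : ∑ j ∈ univ.erase i, HH N d p v i j ≤ ∑ _j ∈ univ.erase i, B3 := by
        apply sum_le_sum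
        intro j hj
        have hij : i ≠ j := (ne_of_mem_erase hj).symm
        exact HH_off hp0 hpp hij v (hB3 i j hij v)
      refine h2.trans ?_
      rw [sum_const, nsmul_eq_mul]
      have h3 : (((univ : Finset (Fin d)).erase i).card : ℝ) ≤ d := by
        have := card_le_card (erase_subset i (univ : Finset (Fin d)))
        rw [card_univ, Fintype.card_fin] at this
        exact_mod_cast this
      gcongr
    refine (sum_le_sum (fun i _ => h1 i)).trans (le_of_eq ?_)
    rw [sum_const, nsmul_eq_mul, card_univ, Fintype.card_fin]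
    ring
  have e5 : ∑ v, Mt N d p 0 v * ∑ i, ∑ j, HH N d p v i j ≤
      ∑ v, Mt N d p 0 v * (d * B2 + (d : ℝ) ^ 2 * B3) :=
    sum_le_sum (fun v _ => mul_le_mul_of_nonneg_left (e4 v) (Mt_nonneg hp0 hpp _ _))
  rw [← sum_mul, Mt_row] at e5
  exact e5

/-! ### the expected number of patterns -/

open Classical in
lemma card_PL_ge (L : ∀ ω : Finset (TE 4 d), Lift N d ω) (ω : Finset (TE 4 d)) :
    ((univ : Finset (TV 4 d × Fin d)).filter (fun P => Pat ω P.1 P.2)).card
      ≤ (PL (L ω)).card := by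
  have h1 : (univ : Finset (TV 4 d × Fin d)).filter (fun P => Pat ω P.1 P.2) ⊆
      (PL (L ω)).image (fun P => (pr4 N d P.1, P.2)) := by
    rintro ⟨x, i⟩ hP
    have hPat : Pat ω x i := (mem_filter.mp hP).2
    have hx := hPat.1
    rw [← (L ω).image] at hx
    obtain ⟨u, hu, hux⟩ := mem_image.mp hx
    rw [mem_image]
    refine ⟨(u, i), mem_PL.mpr ⟨hu, ?_⟩, ?_⟩
    · simp only
      rw [hux]
      exact hPat
    · simp only
      rw [hux]
  exact (card_le_card h1).trans card_image_le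

/-- the edges touching the dangerous set -/
noncomputable def tch (d : ℕ) (x : TV 4 d) (i : Fin d) : Finset (TE 4 d) :=
  univ \ (T 4 d).ins (univ \ dang 4 d x i) univ

lemma mem_tch {x : TV 4 d} {i : Fin d} {f : TE 4 d} :
    f ∈ tch d x i ↔ f.1 ∈ dang 4 d x i ∨ f.1 + Pi.single f.2 1 ∈ dang 4 d x i := by
  unfold tch
  rw [mem_sdiff, LG.mem_ins]
  have h1 : (T 4 d).s f = f.1 := rfl
  have h2 : (T 4 d).t f = f.1 + Pi.single f.2 1 := rfl
  rw [h1, h2]
  simp only [mem_univ, true_and, mem_sdiff]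
  tauto

lemma card_tch (x : TV 4 d) (i : Fin d) : (tch d x i).card ≤ 6 * d := by
  classical
  have h1 : tch d x i ⊆ (dang 4 d x i ×ˢ (univ : Finset (Fin d))) ∪
      (dang 4 d x i ×ˢ (univ : Finset (Fin d))).image
        (fun e => ((e.1 - Pi.single e.2 1, e.2) : TE 4 d)) := by
    intro f hf
    rcases mem_tch.mp hf with h | h
    · exact mem_union_left _ (mem_product.mpr ⟨h, mem_univ _⟩)
    · apply mem_union_right
      rw [mem_image]
      refine ⟨(f.1 + Pi.single f.2 1, f.2), mem_product.mpr ⟨h, mem_univ _⟩, ?_⟩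
      simp
  have h2 : (dang 4 d x i ×ˢ (univ : Finset (Fin d))).card ≤ 3 * d := by
    rw [card_product, card_univ, Fintype.card_fin]
    exact Nat.mul_le_mul_right d card_le_three
  have h3 := card_union_le (dang 4 d x i ×ˢ (univ : Finset (Fin d)))
    ((dang 4 d x i ×ˢ (univ : Finset (Fin d))).image
        (fun e => ((e.1 - Pi.single e.2 1, e.2) : TE 4 d)))
  have h4 := card_image_le (s := dang 4 d x i ×ˢ (univ : Finset (Fin d)))
    (f := fun e => ((e.1 - Pi.single e.2 1, e.2) : TE 4 d))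
  have h5 := card_le_card h1
  omega

lemma run_sub_tch (x : TV 4 d) (i : Fin d) : run 4 d x i ⊆ tch d x i := by
  intro e he
  have h1 := Finset.disjoint_left.mp (run_disj x i) he
  exact mem_sdiff.mpr ⟨mem_univ _, h1⟩

lemma Pr_Pat (hp0 : 0 ≤ p) (hp1 : p ≤ 1) (x : TV 4 d) (i : Fin d) :
    p ^ 3 * (1 - p) ^ (6 * d) *
      (T 4 d).tau univ p (univ \ dang 4 d x i) (nv 4 d) 0 x ≤ Pr univ p (fun ω => Pat ω x i) := by
  classical
  have h1 : Pr univ p (fun ω => ω ∩ tch d x i = run 4 d x i ∧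
      (T 4 d).Re (univ \ dang 4 d x i) (nv 4 d) 0 x ω) ≤ Pr univ p (fun ω => Pat ω x i) := by
    apply Pr_mono hp0 hp1
    rintro ω _ ⟨h2, h3⟩
    refine ⟨?_, ?_, ?_, ?_⟩
    · exact LG.ball_mono (subset_univ _) (Subset.refl _) h3
    · exact (mem_sdiff.mp (LG.base_mem_of_mem h3)).2
    · rw [← h2]; exact inter_subset_left
    · intro f hf hft
      rw [← h2]
      exact mem_inter.mpr ⟨hf, mem_tch.mpr hft⟩
  refine le_trans ?_ h1
  rw [Pr_indep (A := tch d x i) (B := (T 4 d).ins (univ \ dang 4 d x i) univ)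
    (P := fun ω => ω ∩ tch d x i = run 4 d x i)
    (Q := (T 4 d).Re (univ \ dang 4 d x i) (nv 4 d) 0 x) sdiff_disjoint
    (fun ω _ => by simp [inter_assoc]) (fun ω _ => by
      unfold LG.Re
      rw [LG.ball_ins (subset_univ ω)]),
    Pr_config p (subset_univ _) (run_sub_tch x i), card_run (by norm_num)]
  apply mul_le_mul_of_nonneg_right _ (LG.tau_nonneg hp0 hp1 _ _)
  apply mul_le_mul_of_nonneg_left _ (by positivity)
  apply pow_le_pow_of_le_one (by linarith) (by linarith)
  exact (card_le_card sdiff_subset).trans (card_tch x i)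

/-- lower bound for the expected number of patterns -/
theorem EP_lower (hp0 : 0 ≤ p) (hp1 : p ≤ 1 / 2) {b : ℝ}
    (hb : ∀ (x : TV 4 d) (i : Fin d), ∀ a ∈ dang 4 d x i, Mt 4 d p a x ≤ b) :
    p ^ 3 * (1 - p) ^ (6 * d) * (d * chi 4 d p * (1 - 3 * b)) ≤ EP p L := by
  classical
  have hpp : p ≤ 1 := by linarith
  have h1 : ∑ P : TV 4 d × Fin d, Pr univ p (fun ω => Pat ω P.1 P.2) ≤ EP p L := by
    unfold EP
    have : ∑ P : TV 4 d × Fin d, Pr univ p (fun ω => Pat ω P.1 P.2)
        = Ex univ p (fun ω => (((univ : Finset (TV 4 d × Fin d)).filter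
          (fun P => Pat ω P.1 P.2)).card : ℝ)) := by
      have h2 : (fun ω : Finset (TE 4 d) => (((univ : Finset (TV 4 d × Fin d)).filter
          (fun P => Pat ω P.1 P.2)).card : ℝ))
          = (fun ω => ∑ P : TV 4 d × Fin d, if Pat ω P.1 P.2 then (1:ℝ) else 0) := by
        funext ω
        rw [card_filter]
        push_cast
        rfl
      rw [h2, Ex_sum]
      rfl
    rw [this]
    apply Ex_mono hp0 hpp
    intro ω _
    exact_mod_cast card_PL_ge L ω
  refine le_trans ?_ h1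
  have hc : 0 ≤ p ^ 3 * (1 - p) ^ (6 * d) := by
    have : 0 ≤ 1 - p := by linarith
    positivity
  have h2 := sum_le_sum (fun (P : TV 4 d × Fin d) (_ : P ∈ univ) =>
    Pr_Pat (d := d) hp0 hpp P.1 P.2)
  refine le_trans ?_ h2
  rw [← mul_sum]
  apply mul_le_mul_of_nonneg_left _ hc
  rw [Fintype.sum_prod_type, sum_comm]
  have h3 : ∀ i : Fin d, chi 4 d p * (1 - 3 * b) ≤
      ∑ x, (T 4 d).tau univ p (univ \ dang 4 d x i) (nv 4 d) 0 x := by
    intro i
    have h4 : ∀ x : TV 4 d, Mt 4 d p 0 x - (Mt 4 d p 0 (x + sg 4 d i 1) * b +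
        Mt 4 d p 0 (x + sg 4 d i 2) * b + Mt 4 d p 0 (x + sg 4 d i 3) * b) ≤
        (T 4 d).tau univ p (univ \ dang 4 d x i) (nv 4 d) 0 x := by
      intro x
      have h5 := LG.through_bound (G := T 4 d) (F := univ) (S := univ) (k := nv 4 d) hp0 hp1
        (dang 4 d x i) 0 x
      rw [inter_univ] at h5
      have h6 : ∑ a ∈ dang 4 d x i, (T 4 d).tau univ p univ (nv 4 d) 0 a *
          (T 4 d).tau univ p univ (nv 4 d) a x ≤ ∑ a ∈ dang 4 d x i, Mt 4 d p 0 a * b := by
        apply sum_le_sum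
        intro a ha
        exact mul_le_mul_of_nonneg_left (hb x i a ha) (Mt_nonneg hp0 hpp _ _)
      have hb0 : 0 ≤ b := (Mt_nonneg hp0 hpp _ _).trans
        (hb x i (x + sg 4 d i 1) (mem_dang.mpr (Or.inl rfl)))
      have h7 := sum_dang_le (f := fun a => Mt 4 d p 0 a * b)
        (fun a => mul_nonneg (Mt_nonneg hp0 hpp _ _) hb0) x i
      have h8 : Mt 4 d p 0 x = (T 4 d).tau univ p univ (nv 4 d) 0 x := rfl
      rw [h8]
      linarith
    refine le_trans (le_of_eq ?_) (sum_le_sum (fun x _ => h4 x))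
    rw [sum_sub_distrib, sum_add_distrib, sum_add_distrib]
    have h5 : ∀ c : TV 4 d, ∑ x, Mt 4 d p 0 (x + c) * b = chi 4 d p * b := by
      intro c
      have h6 := Equiv.sum_comp (Equiv.addRight c) (fun x => Mt 4 d p 0 x)
      simp only [Equiv.coe_addRight] at h6
      rw [← sum_mul, h6, Mt_row]
    rw [h5, h5, h5, Mt_row]
    ring
  refine le_trans (le_of_eq ?_) (sum_le_sum (fun i _ => h3 i))
  rw [sum_const, nsmul_eq_mul, card_univ, Fintype.card_fin]
  ring

end

end DLo

end DDA
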