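import Pool.Agent.DDA.DUp
import Pool.Agent.DDA.Coupling2
import Pool.Agent.DDA.StraightClosed

/-!
# DDA: classification of the unexplored edges which leave the explored set (refined coupling)
-/

open Finset

namespace DDA

set_option linter.unusedSectionVars false

namespace DUp

open DLo SC

section
variable {N d : ℕ} [NeZero N]

/-- the displacement of three steps in the direction opposite to `j` -/
def z3 (N : ℕ) {d : ℕ} (j : Fin d × Bool) : TV N d :=
  if j.2 then - sg N d j.1 3 else sg N d j.1 3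

lemma nrm_neg' (x : TV N d) : nrm (-x) = nrm x := by
  unfold nrm
  apply sum_congr rfl
  intro i _
  exact ZMod.natAbs_valMinAbs_neg (x i)

lemma nrm_z3 (hN : 8 ≤ N) (j : Fin d × Bool) : nrm (z3 N j) = 3 := by
  unfold z3
  split_ifs
  · rw [nrm_neg', nrm_sg hN j.1 (by norm_num)]
  · exact nrm_sg hN j.1 (by norm_num)

lemma sg4_three (i : Fin d) : sg 4 d i 3 = - Pi.single i 1 := by
  unfold sg
  rw [← Pi.single_neg]
  congr 1

lemma z3_mem_disp (h4 : 4 ∣ N) (hN : 8 ≤ N) (j : Fin d × Bool) : z3 N j ∈ disp N j := by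
  have hE : Even N := by
    obtain ⟨m, rfl⟩ := h4
    exact ⟨2 * m, by ring⟩
  unfold disp
  rw [mem_erase, mem_fib]
  constructor
  · intro h
    have h1 := nrm_z3 (N := N) hN j
    rw [h, nrm_nb_zero hE (by omega)] at h1
    omega
  · unfold z3 nb
    split_ifs
    · have : -sg N d j.1 3 = 0 - sg N d j.1 3 := by rw [zero_sub]
      rw [this, pr4_sub h4, pr4_sg h4, pr4_zero, sg4_three, zero_add, pr4_single h4, zero_sub,
        neg_neg]
    · rw [pr4_sg h4, sg4_three, pr4_sub h4, pr4_zero, pr4_single h4, zero_sub]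

/-- weighted count of the displacements other than the straight one -/
lemma disp_weight' (h4 : 4 ∣ N) (hN : 8 ≤ N) (hd : 4 ≤ d) (j : Fin d × Bool) :
    ∑ z ∈ (disp N j).erase (z3 N j), ((2 * (d : ℝ))⁻¹) ^ (max 1 (nrm z))
      ≤ 6 * ((2 * (d : ℝ))⁻¹) ^ 4 := by
  have hEven : Even N := by
    obtain ⟨m, rfl⟩ := h4
    exact ⟨2 * m, by ring⟩
  have h1 := fib_bound (N := N) h4 hd j
  have h2 : nb (0 : TV N d) j ∈ fib N (pr4 N d (nb 0 j)) := mem_fib.mpr rfl
  rw [← add_sum_erase _ _ h2, nrm_nb_zero hEven (by omega), pow_one] at h1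
  have h3 : ∑ z ∈ disp N j, ((2 * (d : ℝ))⁻¹) ^ (max 1 (nrm z))
      = ∑ z ∈ (fib N (pr4 N d (nb 0 j))).erase (nb 0 j), ((2 * (d : ℝ))⁻¹) ^ nrm z := by
    unfold disp
    apply sum_congr rfl
    intro z hz
    have h5 : z ≠ 0 := by
      rintro rfl
      exact zero_notMem_fib h4 j (mem_of_mem_erase hz)
    have h6 : nrm z ≠ 0 := fun h => h5 (eq_zero_of_nrm h)
    rw [max_eq_right (by omega)]
  rw [← h3, ← add_sum_erase _ _ (z3_mem_disp h4 hN j), nrm_z3 hN] at h1
  have h5 : max 1 3 = 3 := rfl
  rw [h5] at h1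
  linarith

/-- the two bad events at the straight line through `Y` -/
def EvA (Y : TV N d × Fin d) (ζ : Finset (TE N d)) : Prop :=
  Y.1 ∈ (T N d).cl univ ζ 0 ∧ Y.1 + sg N d Y.2 3 ∈ (T N d).cl univ ζ 0 ∧ ¬ run N d Y.1 Y.2 ⊆ ζ

def EvB (Y : TV N d × Fin d) (ζ : Finset (TE N d)) : Prop :=
  Y.1 ∈ (T N d).cl univ ζ 0 ∧ run N d Y.1 Y.2 ⊆ ζ ∧ ∃ v w, v ≠ w ∧
    v ∈ (T N d).cl univ ζ 0 ∧ SameLine Y.2 (pr4 N d Y.1) (pr4 N d v) ∧
    SameLine Y.2 (pr4 N d Y.1) (pr4 N d w) ∧ w ∈ (T N d).cl univ (ζ \ run N d Y.1 Y.2) v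

open Classical in
/-- the places where one of the two events happens -/
noncomputable def WW (N d : ℕ) [NeZero N] (ζ : Finset (TE N d)) : Finset (TV N d × Fin d) :=
  univ.filter (fun Y => EvA Y ζ ∨ EvB Y ζ)

lemma nb_inj (hN : 4 ≤ N) (x : TV N d) {j j' : Fin d × Bool} (h : nb x j = nb x j') : j = j' := by
  have : Fact (1 < N) := ⟨by omega⟩
  have h1 : (1 : ZMod N) ≠ 0 := one_ne_zero
  have h2 : (1 : ZMod N) ≠ -1 := by
    intro h
    have h3 : ((2 : ℕ) : ZMod N) = 0 := by
      push_cast
      have : (1 : ZMod N) + 1 = 0 := by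
        nth_rewrite 2 [h]
        ring
      rw [← this]
      norm_num
    rw [ZMod.natCast_eq_zero_iff] at h3
    have := Nat.le_of_dvd (by norm_num) h3
    omega
  obtain ⟨i, b⟩ := j
  obtain ⟨i', b'⟩ := j'
  have key : i = i' := by
    by_contra hne
    have h3 := congrFun h i
    cases b <;> cases b' <;>
      simp [nb, Pi.single_eq_of_ne hne] at h3
  subst key
  have h3 := congrFun h i
  cases b <;> cases b'
  · rfl
  · exfalso
    simp only [nb, if_true, Pi.add_apply, Pi.single_eq_same] at h3
    apply h2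
    have : x i - 1 = x i + 1 := by simpa using h3
    have h5 : -(1 : ZMod N) = 1 := by
      have := congrArg (fun u => u - x i) this
      simpa using this
    exact h5.symm
  · exfalso
    simp only [nb, if_true, Pi.add_apply, Pi.single_eq_same] at h3
    apply h2
    have : x i + 1 = x i - 1 := by simpa using h3
    have h5 : (1 : ZMod N) = -1 := by
      have := congrArg (fun u => u - x i) this
      simpa using this
    exact h5
  · rfl

lemma sameLine_add (h4 : 4 ∣ N) (i : Fin d) (x : TV N d) (b : ZMod N) :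
    SameLine i (pr4 N d x) (pr4 N d (x + Pi.single i b)) := by
  intro j hj
  rw [pr4_add h4]
  simp [pr4, Pi.single_eq_of_ne hj]

lemma run_sameLine (h4 : 4 ∣ N) {y : TV N d} {i : Fin d} {e : TE N d} (he : e ∈ run N d y i) :
    e.2 = i ∧ SameLine i (pr4 N d y) (pr4 N d e.1) := by
  rcases mem_run.mp he with rfl | rfl | rfl
  · exact ⟨rfl, SameLine.rfl'⟩
  · exact ⟨rfl, sameLine_add h4 i y _⟩
  · exact ⟨rfl, sameLine_add h4 i y _⟩

variable {ω : Finset (TE 4 d)}

/-- the straight case of the classification -/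
lemma straight_case (h4 : 4 ∣ N) (L : Lift2 N d ω) (η : Finset (TE N d))
    {e : TE N d} {a b : TV N d} (hJ : (T N d).J e a b) (ha : a ∈ L.D) (hb : b ∉ L.D)
    (he : e ∉ L.O ∪ L.C) (hXm : (a, b) ∉ L.Xm) {y : TV N d} (hy : y ∈ L.D)
    (hy3 : y + sg N d e.2 3 ∈ L.D) (hline : SameLine e.2 (pr4 N d a) (pr4 N d y)) :
    EvA (y, e.2) (wt L.toLift η) ∨ EvB (y, e.2) (wt L.toLift η) := by
  have hD : ∀ z ∈ L.D, z ∈ (T N d).cl univ (wt L.toLift η) 0 := fun z hz => D_sub (L := L.toLift) η hz
  by_cases hrun : run N d y e.2 ⊆ wt L.toLift η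
  · right
    rcases L.X_all e a b hJ ha hb he with h | ⟨v, hv, w, hw, hvw, hlv, hlw, O', hO', hO'2, hcl⟩
    · exact absurd h hXm
    · refine ⟨hD y hy, hrun, v, w, hvw, hD v hv, ?_, ?_, ?_⟩
      · exact (SameLine.symm' hline).trans' hlv
      · exact (SameLine.symm' hline).trans' hlw
      · refine LG.cl_mono (Subset.refl _) ?_ hcl
        intro e' he'
        rw [mem_sdiff]
        refine ⟨mem_union_left _ (hO' he'), ?_⟩
        intro hr
        obtain ⟨h1, h2⟩ := run_sameLine h4 hr
        exact hO'2 e' he' ⟨h1, hline.trans' h2⟩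
  · left
    exact ⟨hD y hy, hD _ hy3, hrun⟩

open Classical in
/-- **classification** -/
lemma card_XL_le2 (h4 : 4 ∣ N) (hN : 8 ≤ N) (L : Lift2 N d ω) (η : Finset (TE N d)) :
    ((XL L.toLift).card : ℝ) ≤ (L.Xm.card : ℝ) + (∑ j : Fin d × Bool,
      ∑ z ∈ (disp N j).erase (z3 N j),
      (((univ : Finset (TV N d)).filter (fun a => a ∈ L.D ∧ a + z ∈ L.D)).card : ℝ))
      + 2 * ((WW N d (wt L.toLift η)).card : ℝ) := by
  set S1 := (XL L.toLift).filter (fun P => (P.1, nb P.1 P.2) ∈ L.Xm) with hS1
  set S2 := (univ : Finset (Fin d × Bool)).biUnion (fun j => ((disp N j).erase (z3 N j)).biUnion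
    (fun z => ((univ : Finset (TV N d)).filter (fun a => a ∈ L.D ∧ a + z ∈ L.D)).image
        (fun a => (a, j)))) with hS2
  set S3 := (WW N d (wt L.toLift η)).image
    (fun Y => ((Y.1 + sg N d Y.2 3, (Y.2, true)) : TV N d × (Fin d × Bool))) with hS3
  set S4 := (WW N d (wt L.toLift η)).image
    (fun Y => ((Y.1, (Y.2, false)) : TV N d × (Fin d × Bool))) with hS4
  have hsub : XL L.toLift ⊆ S1 ∪ (S2 ∪ (S3 ∪ S4)) := by
    rintro ⟨a, j⟩ hP
    obtain ⟨c, hc, hc1, hc2⟩ := XL_above hP
    obtain ⟨ha, hb, he⟩ := mem_XL.mp hP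
    simp only at hc1 hc2 ha hb he
    by_cases h1 : (a, nb a j) ∈ L.Xm
    · exact mem_union_left _ (mem_filter.mpr ⟨hP, h1⟩)
    · apply mem_union_right
      have hdisp : c - a ∈ disp N j := by
        unfold disp
        rw [mem_erase, mem_fib]
        constructor
        · intro h
          apply hc2
          rw [nb_add, ← h]
          abel
        · rw [pr4_sub h4, hc1, nb_add, pr4_add h4]
          abel
      by_cases h2 : c - a = z3 N j
      · apply mem_union_right
        have hca : c = a + z3 N j := by rw [← h2]; abel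
        obtain ⟨i, b⟩ := j
        cases b
        · apply mem_union_right
          rw [hS4, mem_image]
          refine ⟨(a, i), ?_, rfl⟩
          unfold WW
          rw [mem_filter]
          refine ⟨mem_univ _, ?_⟩
          have hc3 : a + sg N d i 3 ∈ L.D := by
            simp only [z3] at hca
            rw [if_neg (by simp)] at hca
            rw [← hca]
            exact hc
          have := straight_case h4 L η (eg_J a (i, false)) ha hb he h1 (y := a) ha
            (by simpa [eg] using hc3) SameLine.rfl'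
          simpa [eg] using this
        · apply mem_union_left
          rw [hS3, mem_image]
          have hca' : c = a - sg N d i 3 := by
            simp only [z3] at hca
            rw [if_pos trivial, ← sub_eq_add_neg] at hca
            exact hca
          have hca2 : c + sg N d i 3 = a := by rw [hca']; abel
          refine ⟨(c, i), ?_, ?_⟩
          · unfold WW
            rw [mem_filter]
            refine ⟨mem_univ _, ?_⟩
            have hline : SameLine i (pr4 N d a) (pr4 N d c) := by
              have := sameLine_add h4 i c ((3 : ℕ) : ZMod N)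
              have h5 : c + Pi.single i ((3 : ℕ) : ZMod N) = a := hca2
              rw [h5] at this
              exact this.symm'
            have := straight_case h4 L η (eg_J a (i, true)) ha hb he h1 (y := c) hc
              (by simpa [eg, hca2] using ha) (by simpa [eg] using hline)
            simpa [eg] using this
          · simp only
            rw [hca2]
      · apply mem_union_left
        rw [hS2, mem_biUnion]
        refine ⟨j, mem_univ _, ?_⟩
        rw [mem_biUnion]
        refine ⟨c - a, mem_erase.mpr ⟨h2, hdisp⟩, ?_⟩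
        rw [mem_image]
        refine ⟨a, ?_, rfl⟩
        rw [mem_filter]
        refine ⟨mem_univ _, ha, ?_⟩
        rw [add_sub_cancel]
        exact hc
  have c1 : S1.card ≤ L.Xm.card := by
    apply card_le_card_of_injOn (fun P => (P.1, nb P.1 P.2))
    · intro P hP
      exact (mem_filter.mp hP).2
    · rintro ⟨a, j⟩ _ ⟨a', j'⟩ _ h
      have h1 : a = a' := congrArg Prod.fst h
      subst h1
      have h2 : nb a j = nb a j' := congrArg Prod.snd h
      rw [nb_inj (by omega) a h2]
  have c2 : S2.card ≤ ∑ j : Fin d × Bool, ∑ z ∈ (disp N j).erase (z3 N j),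
      ((univ : Finset (TV N d)).filter (fun a => a ∈ L.D ∧ a + z ∈ L.D)).card := by
    refine card_biUnion_le.trans (sum_le_sum (fun j _ => ?_))
    refine card_biUnion_le.trans (sum_le_sum (fun z _ => ?_))
    exact card_image_le
  have c3 : S3.card ≤ (WW N d (wt L.toLift η)).card := card_image_le
  have c4 : S4.card ≤ (WW N d (wt L.toLift η)).card := card_image_le
  have h1 := card_le_card hsub
  have h2 := card_union_le S1 (S2 ∪ (S3 ∪ S4))
  have h3 := card_union_le S2 (S3 ∪ S4)
  have h5 := card_union_le S3 S4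
  have h6 : (XL L.toLift).card ≤ L.Xm.card + (∑ j : Fin d × Bool, ∑ z ∈ (disp N j).erase (z3 N j),
      ((univ : Finset (TV N d)).filter (fun a => a ∈ L.D ∧ a + z ∈ L.D)).card)
      + 2 * (WW N d (wt L.toLift η)).card := by omega
  exact_mod_cast h6

end

end DUp

end DDA
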