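import Pool.Agent.DDA.DLow

/-!
# DDA: the susceptibility of `T_N` is controlled by the edges which leave the explored set
-/

open Finset

namespace DDA

set_option linter.unusedSectionVars false

namespace DUp

open DLo

variable {N d : ℕ} [NeZero N]

section
variable {ω : Finset (TE 4 d)}

open Classical in
/-- the unexplored edges which leave the explored set -/
noncomputable def XL (L : Lift N d ω) : Finset (TV N d × (Fin d × Bool)) :=
  univ.filter (fun P => P.1 ∈ L.D ∧ nb P.1 P.2 ∉ L.D ∧ eg P.1 P.2 ∉ L.O ∪ L.C)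

lemma mem_XL {L : Lift N d ω} {P : TV N d × (Fin d × Bool)} :
    P ∈ XL L ↔ P.1 ∈ L.D ∧ nb P.1 P.2 ∉ L.D ∧ eg P.1 P.2 ∉ L.O ∪ L.C := by
  unfold XL
  simp

/-- the other end of an edge of `XL` lies above the explored set -/
lemma XL_above {L : Lift N d ω} {P : TV N d × (Fin d × Bool)} (hP : P ∈ XL L) :
    ∃ b ∈ L.D, pr4 N d b = pr4 N d (nb P.1 P.2) ∧ b ≠ nb P.1 P.2 := by
  obtain ⟨h1, h2, h3⟩ := mem_XL.mp hP
  by_contra hcon
  push Not at hcon
  apply h3
  apply mem_union_right
  apply L.boundary (eg P.1 P.2) P.1 (nb P.1 P.2) (eg_J _ _) h1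
  intro h4
  obtain ⟨b, hb, hb2⟩ := mem_image.mp h4
  have h5 := hcon b hb hb2
  exact h2 (h5 ▸ hb)

open Classical in
/-- the cluster of the coupled configuration -/
lemma cover (L : Lift N d ω) (η : Finset (TE N d)) :
    (T N d).cl univ (wt L η) 0 ⊆ L.D ∪ (XL L).biUnion (fun P =>
      if eg P.1 P.2 ∈ η then (T N d).ball (univ \ L.D) η (nb P.1 P.2) (nv N d) else ∅) := by
  intro z hz
  obtain ⟨k, hk⟩ := LG.mem_cl_iff.mp hz
  clear hz
  induction k generalizing z with
  | zero =>
    obtain ⟨_, rfl⟩ := LG.mem_ball_zero.mp hk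
    exact mem_union_left _ L.zero_mem
  | succ k ih =>
    rcases LG.mem_ball_succ.mp hk with h | ⟨_, y, hy, e, he, hJ⟩
    · exact ih h
    · by_cases hzD : z ∈ L.D
      · exact mem_union_left _ hzD
      · have heO : e ∉ L.O := by
          intro h
          obtain ⟨_, h1, h2⟩ := L.open_mem e h
          rcases hJ with ⟨a, b⟩ | ⟨a, b⟩
          · exact hzD (b ▸ h2)
          · exact hzD (a ▸ h1)
        have heη : e ∈ η ∧ e ∉ L.O ∪ L.C := by
          rcases mem_union.mp he with h | h
          · exact absurd h heO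
          · exact mem_sdiff.mp h
        apply mem_union_right
        rw [mem_biUnion]
        by_cases hyD : y ∈ L.D
        · obtain ⟨j, hj1, hj2⟩ := J_eg hJ
          refine ⟨(y, j), ?_, ?_⟩
          · rw [mem_XL]
            refine ⟨hyD, ?_, ?_⟩
            · simp only; rw [← hj2]; exact hzD
            · simp only; rw [← hj1]; exact heη.2
          · simp only
            rw [← hj1, ← hj2, if_pos heη.1]
            exact LG.self_mem_ball (mem_sdiff.mpr ⟨mem_univ _, hzD⟩)
        · rcases mem_union.mp (ih hy) with h | h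
          · exact absurd h hyD
          · obtain ⟨P, hP, hyP⟩ := mem_biUnion.mp h
            refine ⟨P, hP, ?_⟩
            by_cases hPe : eg P.1 P.2 ∈ η
            · rw [if_pos hPe] at hyP ⊢
              have h1 := LG.mem_ball_step hyP ⟨e, heη.1, hJ⟩ (mem_sdiff.mpr ⟨mem_univ z, hzD⟩)
              have h2 : (T N d).ball (univ \ L.D) η (nb P.1 P.2) (nv N d)
                  = (T N d).cl (univ \ L.D) η (nb P.1 P.2) :=
                LG.ball_eq_cl (card_le_card (subset_univ _))
              rw [h2]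
              exact LG.ball_subset_cl _ h1
            · rw [if_neg hPe] at hyP
              exact absurd hyP (notMem_empty _)

open Classical in
/-- conditional expectation given the exploration -/
lemma exp_cover {p : ℝ} (hp0 : 0 ≤ p) (hp1 : p ≤ 1) (L : Lift N d ω) :
    Ex univ p (fun η => (((T N d).cl univ (wt L η) 0).card : ℝ))
      ≤ (L.D.card : ℝ) + p * chi N d p * ((XL L).card : ℝ) := by
  have h1 : ∀ η : Finset (TE N d), (((T N d).cl univ (wt L η) 0).card : ℝ)
      ≤ (L.D.card : ℝ) + ∑ P ∈ XL L, (if eg P.1 P.2 ∈ η then (1:ℝ) else 0) *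
        (((T N d).ball (univ \ L.D) η (nb P.1 P.2) (nv N d)).card : ℝ) := by
    intro η
    have h2 := (card_le_card (cover L η)).trans
      ((card_union_le _ _).trans (Nat.add_le_add_left card_biUnion_le _))
    have h3 : (((T N d).cl univ (wt L η) 0).card : ℝ) ≤ (L.D.card : ℝ) + ∑ P ∈ XL L,
        (((if eg P.1 P.2 ∈ η then (T N d).ball (univ \ L.D) η (nb P.1 P.2) (nv N d)
          else ∅ : Finset (TV N d))).card : ℝ) := by exact_mod_cast h2
    refine h3.trans (le_of_eq ?_)
    congr 1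
    apply sum_congr rfl
    intro P _
    by_cases h : eg P.1 P.2 ∈ η <;> simp [h]
  refine (Ex_mono hp0 hp1 (fun η _ => h1 η)).trans ?_
  rw [Ex_add, Ex_const, Ex_sum]
  have h2 : ∀ P ∈ XL L, Ex univ p (fun η => (if eg P.1 P.2 ∈ η then (1:ℝ) else 0) *
      (((T N d).ball (univ \ L.D) η (nb P.1 P.2) (nv N d)).card : ℝ)) ≤ p * chi N d p := by
    intro P hP
    obtain ⟨hP1, hP2, hP3⟩ := mem_XL.mp hP
    have hout : eg P.1 P.2 ∉ (T N d).ins (univ \ L.D) univ := by
      intro h
      obtain ⟨_, h5, h6⟩ := LG.mem_ins.mp h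
      rcases eg_J P.1 P.2 with ⟨a, b⟩ | ⟨a, b⟩
      · rw [a] at h5
        exact (mem_sdiff.mp h5).2 hP1
      · rw [b] at h6
        exact (mem_sdiff.mp h6).2 hP1
    have hdis : Disjoint ({eg P.1 P.2} : Finset (TE N d)) ((T N d).ins (univ \ L.D) univ) :=
      disjoint_singleton_left.mpr hout
    rw [Ex_indep (f := fun η => if eg P.1 P.2 ∈ η then (1:ℝ) else 0)
      (g := fun η => (((T N d).ball (univ \ L.D) η (nb P.1 P.2) (nv N d)).card : ℝ)) hdis
      (fun η _ => by simp) (fun η _ => by rw [LG.ball_ins (subset_univ η)])]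
    have h1 : Ex univ p (fun η => if eg P.1 P.2 ∈ η then (1:ℝ) else 0) = p := by
      have := Pr_mem (mem_univ (eg P.1 P.2)) p
      rw [Pr_eq_Ex] at this
      exact this
    rw [h1]
    apply mul_le_mul_of_nonneg_left _ hp0
    have h3 := LG.bex_mono (G := T N d) (F := univ) (p := p) hp0 hp1
      (subset_univ (univ \ L.D)) (le_refl (nv N d)) (nb P.1 P.2)
    rw [bex_eq_bb] at h3
    exact h3
  have h3 := sum_le_sum h2
  rw [sum_const, nsmul_eq_mul] at h3
  linarith

end

variable {p : ℝ} {L : ∀ ω : Finset (TE 4 d), Lift N d ω}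

/-- **the susceptibility of `T_N` and the edges which leave the explored set** -/
theorem chi_le_XL (hp0 : 0 ≤ p) (hp1 : p ≤ 1) (hL : Cpl p L) :
    chi N d p ≤ chi 4 d p + p * chi N d p * Ex univ p (fun ω => ((XL (L ω)).card : ℝ)) := by
  have h1 := hL (fun ω' => (((T N d).cl univ ω' 0).card : ℝ))
  have h2 : chi N d p = Ex univ p (fun ω => Ex univ p (fun η =>
      (((T N d).cl univ (wt (L ω) η) 0).card : ℝ))) := by
    unfold chi
    exact h1.symm
  have h3 := Ex_mono (F := (univ : Finset (TE 4 d))) hp0 hp1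
    (fun ω _ => exp_cover (N := N) hp0 hp1 (L ω))
  rw [← h2, Ex_add, Ex_mul_left] at h3
  refine h3.trans (le_of_eq ?_)
  congr 1
  unfold chi
  apply Ex_congr
  intro ω _
  rw [cpl_card]

open Classical in
/-- **pairs of discovered vertices with a given displacement** -/
theorem pair_bound (hN : 2 ≤ N) (hp0 : 0 ≤ p) (hp1 : p ≤ 1 / 2) (hL : Cpl p L) (z : TV N d) :
    Ex univ p (fun ω => (((univ : Finset (TV N d)).filter
      (fun a => a ∈ (L ω).D ∧ a + z ∈ (L ω).D)).card : ℝ))
      ≤ chi N d p * (Mt N d p * Mt N d p) 0 z := by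
  have hpp : p ≤ 1 := by linarith
  have h1 : Ex univ p (fun ω => (((univ : Finset (TV N d)).filter
      (fun a => a ∈ (L ω).D ∧ a + z ∈ (L ω).D)).card : ℝ))
      ≤ Ex univ p (fun ω' => ∑ a : TV N d, if (a ∈ (T N d).ball univ ω' 0 (nv N d) ∧
        a + z ∈ (T N d).ball univ ω' 0 (nv N d)) then (1:ℝ) else 0) := by
    rw [← hL (fun ω' => ∑ a : TV N d, if (a ∈ (T N d).ball univ ω' 0 (nv N d) ∧
        a + z ∈ (T N d).ball univ ω' 0 (nv N d)) then (1:ℝ) else 0)]
    apply Ex_mono hp0 hpp
    intro ω _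
    apply le_Ex hp0 hpp
    intro η _
    rw [card_filter]
    push_cast
    apply sum_le_sum
    intro a _
    have h2 : ∀ y, y ∈ (L ω).D → y ∈ (T N d).ball univ (wt (L ω) η) 0 (nv N d) :=
      fun y hy => D_sub η hy
    by_cases h : a ∈ (L ω).D ∧ a + z ∈ (L ω).D
    · rw [if_pos h, if_pos ⟨h2 _ h.1, h2 _ h.2⟩]
    · rw [if_neg h]
      split_ifs <;> norm_num
  refine h1.trans ?_
  rw [Ex_sum]
  have h2 : ∀ a : TV N d, Ex univ p (fun ω' => if (a ∈ (T N d).ball univ ω' 0 (nv N d) ∧
      a + z ∈ (T N d).ball univ ω' 0 (nv N d)) then (1:ℝ) else 0) ≤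
      ∑ v, Mt N d p 0 v * Mt N d p v a * Mt N d p v (a + z) := by
    intro a
    have h3 := LG.tree_graph (G := T N d) (F := univ) (S := univ) (k := nv N d) (l := nv N d)
      (T_loopless hN) hp0 hp1 0 a (a + z)
    rw [Pr_eq_Ex] at h3
    exact h3
  refine (sum_le_sum (fun a _ => h2 a)).trans (le_of_eq ?_)
  rw [sum_comm]
  have h3 : ∀ v : TV N d, ∑ a, Mt N d p 0 v * Mt N d p v a * Mt N d p v (a + z)
      = Mt N d p 0 v * (Mt N d p * Mt N d p) 0 z := by
    intro v
    have e1 : (Mt N d p * Mt N d p) 0 z = (Mt N d p * Mt N d p) (v - z) v := by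
      have := Mt_mul_add (N := N) (d := d) Mt_add Mt_add (v - z) v (z - v) (A := Mt N d p)
        (B := Mt N d p)
      have h5 : v - z + (z - v) = 0 := by abel
      have h6 : v + (z - v) = z := by abel
      rw [h5, h6] at this
      exact this
    rw [e1, Matrix.mul_apply, mul_sum]
    apply sum_congr rfl
    intro a _
    have e2 : Mt N d p v (a + z) = Mt N d p (v - z) a := by
      have := Mt_add (N := N) (d := d) (p := p) (v - z) a z
      rw [sub_add_cancel] at this
      exact this
    rw [e2, Mt_comm p v a]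
    ring
  rw [sum_congr rfl (fun v _ => h3 v), ← sum_mul, Mt_row]

end DUp

end DDA
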