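import Pool.Agent.DDA.DUpA

/-!
# DDA: the square of the two-point function, summed over a fibre of the covering `T_N → T_4`
-/

open Finset

namespace DDA

set_option linter.unusedSectionVars false

namespace DUp

open DLo

section
variable {N d : ℕ} [NeZero N]

/-- pushing the kernel forward to `T_4` -/
lemma DD_push (h4 : 4 ∣ N) (i : ℕ) (φ : TV 4 d → ℝ) :
    ∑ u : TV N d, DD N d i u * φ (pr4 N d u) = ∑ v, DD 4 d i v * φ v := by
  induction i generalizing φ with
  | zero =>
    simp [DD, pr4_zero]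
  | succ i ih =>
    have h1 : ∀ u : TV N d, DD N d (i + 1) u * φ (pr4 N d u)
        = (2 * (d : ℝ))⁻¹ * (nbS (DD N d i) u * (fun x => φ (pr4 N d x)) u) := by
      intro u
      rw [DD_succ]
      ring
    have h2 : ∀ v : TV 4 d, DD 4 d (i + 1) v * φ v
        = (2 * (d : ℝ))⁻¹ * (nbS (DD 4 d i) v * φ v) := by
      intro v
      rw [DD_succ]
      ring
    rw [sum_congr rfl (fun u _ => h1 u), sum_congr rfl (fun v _ => h2 v), ← mul_sum, ← mul_sum,
      sum_nbS_mul, sum_nbS_mul]
    congr 1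
    rw [← ih]
    apply sum_congr rfl
    intro u _
    congr 1
    unfold nbS
    apply sum_congr rfl
    intro j _
    show φ (pr4 N d (u + Pi.single j 1)) + φ (pr4 N d (u - Pi.single j 1)) = _
    rw [pr4_add h4, pr4_sub h4, pr4_single h4]

open Classical in
/-- convolution with the kernel, summed over a fibre -/
lemma fibre_conv (h4 : 4 ∣ N) (hd : 1 ≤ d) (m : ℕ) {g : TV N d → ℝ} (hg : ∀ w, 0 ≤ g w)
    (A : Finset (TV N d)) (v : TV 4 d) (hA : ∀ z ∈ A, pr4 N d z = v) :
    ∑ z ∈ A, ∑ u, DD N d m u * g (z - u)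
      ≤ (m + 1).factorial * (Real.sqrt (2 * d))⁻¹ ^ m * ∑ w, g w := by
  have h1 : ∑ z ∈ A, ∑ u, DD N d m u * g (z - u)
      ≤ ∑ z : TV N d, (if pr4 N d z = v then 1 else 0) * ∑ u, DD N d m u * g (z - u) := by
    have h2 : ∀ z : TV N d, 0 ≤ (if pr4 N d z = v then (1:ℝ) else 0) * ∑ u, DD N d m u * g (z - u) := by
      intro z
      apply mul_nonneg
      · split_ifs <;> norm_num
      · exact sum_nonneg (fun u _ => mul_nonneg (DD_nonneg _ _) (hg _))
    refine le_trans (le_of_eq ?_) (sum_le_sum_of_subset_of_nonneg (subset_univ A)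
      (fun z _ _ => h2 z))
    apply sum_congr rfl
    intro z hz
    rw [if_pos (hA z hz), one_mul]
  refine h1.trans ?_
  have h2 : ∑ z : TV N d, (if pr4 N d z = v then (1:ℝ) else 0) * ∑ u, DD N d m u * g (z - u)
      = ∑ w, g w * DD 4 d m (v - pr4 N d w) := by
    calc ∑ z : TV N d, (if pr4 N d z = v then (1:ℝ) else 0) * ∑ u, DD N d m u * g (z - u)
        = ∑ z : TV N d, ∑ u, DD N d m u * ((if pr4 N d z = v then (1:ℝ) else 0) * g (z - u)) := by
          apply sum_congr rfl
          intro z _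
          rw [mul_sum]
          apply sum_congr rfl
          intro u _
          ring
      _ = ∑ u, ∑ z : TV N d, DD N d m u * ((if pr4 N d z = v then (1:ℝ) else 0) * g (z - u)) :=
          sum_comm
      _ = ∑ u, ∑ w : TV N d, DD N d m u * ((if pr4 N d (w + u) = v then (1:ℝ) else 0) * g w) := by
          apply sum_congr rfl
          intro u _
          rw [← Equiv.sum_comp (Equiv.addRight u)]
          apply sum_congr rfl
          intro w _
          show DD N d m u * ((if pr4 N d (w + u) = v then (1:ℝ) else 0) * g (w + u - u)) = _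
          rw [add_sub_cancel_right]
      _ = ∑ w : TV N d, ∑ u, DD N d m u * ((if pr4 N d (w + u) = v then (1:ℝ) else 0) * g w) :=
          sum_comm
      _ = ∑ w, g w * DD 4 d m (v - pr4 N d w) := by
          apply sum_congr rfl
          intro w _
          have h3 := DD_push (N := N) (d := d) h4 m
            (fun v' => if v' = v - pr4 N d w then (1:ℝ) else 0)
          have h5 : ∑ v', DD 4 d m v' * (if v' = v - pr4 N d w then (1:ℝ) else 0)
              = DD 4 d m (v - pr4 N d w) := by simp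
          rw [h5] at h3
          rw [← h3, mul_sum]
          apply sum_congr rfl
          intro u _
          have h6 : (pr4 N d (w + u) = v) ↔ (pr4 N d u = v - pr4 N d w) := by
            rw [pr4_add h4, eq_sub_iff_add_eq, add_comm]
          simp only [h6]
          ring
  rw [h2, mul_sum]
  apply sum_le_sum
  intro w _
  rw [mul_comm]
  apply mul_le_mul_of_nonneg_right _ (hg w)
  refine (DD_le' (N := 4) (by decide) le_rfl hd m _).trans ?_
  have hd1 : (1 : ℝ) ≤ 2 * d := by
    have : (1 : ℝ) ≤ d := by exact_mod_cast hd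
    linarith
  have hr1 : (Real.sqrt (2 * d))⁻¹ ≤ 1 := by
    apply inv_le_one_of_one_le₀
    rw [Real.one_le_sqrt]
    exact hd1
  apply mul_le_mul_of_nonneg_left _ (by positivity)
  exact pow_le_pow_of_le_one (by positivity) hr1 (by omega)

/-- expansion of the square -/
lemma sq_expand {q F : ℝ} (hq : 0 ≤ q) {f : Matrix (TV N d) (TV N d) ℝ}
    (hf : OneStep q F f) (L : ℕ) (y : TV N d) :
    (f * f) 0 y ≤ ∑ i ∈ range L, ∑ j ∈ range L, q ^ (i + j) * DD N d (i + j) y
      + (∑ i ∈ range L, q ^ (i + L) * ∑ u, DD N d (i + L) u * f u y)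
      + q ^ L * ∑ u, DD N d L u * (f * f) u y := by
  have h1 : (f * f) 0 y ≤ ∑ i ∈ range L, q ^ i * ∑ z, DD N d i z * f z y
      + q ^ L * ∑ u, DD N d L u * (f * f) u y := by
    rw [Matrix.mul_apply]
    have h2 : ∀ z, f 0 z * f z y ≤ (∑ i ∈ range L, q ^ i * DD N d i z) * f z y
        + q ^ L * ∑ u, DD N d L u * (f u z * f z y) := by
      intro z
      have h3 := mul_le_mul_of_nonneg_right (hf.iterate hq L 0 z) (hf.nonneg z y)
      refine h3.trans (le_of_eq ?_)
      rw [add_mul]
      simp only [sub_zero]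
      congr 1
      rw [mul_assoc, sum_mul]
      congr 1
      apply sum_congr rfl
      intro u _
      ring
    refine (sum_le_sum (fun z _ => h2 z)).trans (le_of_eq ?_)
    rw [sum_add_distrib]
    congr 1
    · simp only [sum_mul]
      rw [sum_comm]
      apply sum_congr rfl
      intro i _
      rw [mul_sum]
      apply sum_congr rfl
      intro z _
      ring
    · rw [← mul_sum, sum_comm]
      congr 1
      apply sum_congr rfl
      intro u _
      rw [Matrix.mul_apply, mul_sum]
  refine h1.trans ?_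
  apply add_le_add _ le_rfl
  rw [← sum_add_distrib]
  apply sum_le_sum
  intro i _
  have h2 : ∑ z, DD N d i z * f z y ≤ ∑ j ∈ range L, q ^ j * DD N d (i + j) y
      + q ^ L * ∑ u, DD N d (i + L) u * f u y := by
    have h3 : ∀ z, DD N d i z * f z y ≤ ∑ j ∈ range L, q ^ j * (DD N d i z * DD N d j (y - z))
        + q ^ L * ∑ u, (DD N d i z * DD N d L (u - z)) * f u y := by
      intro z
      have h5 := mul_le_mul_of_nonneg_left (hf.iterate hq L z y) (DD_nonneg (N := N) (d := d) i z)
      refine h5.trans (le_of_eq ?_)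
      rw [mul_add, mul_sum]
      congr 1
      · apply sum_congr rfl
        intro j _
        ring
      · rw [mul_sum, mul_sum, mul_sum]
        apply sum_congr rfl
        intro u _
        ring
    refine (sum_le_sum (fun z _ => h3 z)).trans (le_of_eq ?_)
    rw [sum_add_distrib]
    have hconv : ∀ (j : ℕ) (x : TV N d), ∑ z, DD N d i z * DD N d j (x - z) = DD N d (i + j) x := by
      intro j x
      have := DD_conv (N := N) (d := d) i j 0 x
      simpa only [sub_zero] using this
    congr 1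
    · rw [sum_comm]
      apply sum_congr rfl
      intro j _
      rw [← mul_sum, hconv]
    · rw [← mul_sum, sum_comm]
      congr 1
      apply sum_congr rfl
      intro u _
      rw [← sum_mul, hconv]
  have h3 := mul_le_mul_of_nonneg_left h2 (pow_nonneg hq i)
  refine h3.trans (le_of_eq ?_)
  rw [mul_add, mul_sum]
  congr 1
  · apply sum_congr rfl
    intro j _
    rw [pow_add]
    ring
  · rw [pow_add]
    ring

end

open Classical in
/-- **the square of the two-point function, summed over a part of a fibre** -/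
theorem coset_bound (K K' : ℕ) (q : ℝ) (hq : 0 ≤ q) : ∃ C : ℝ, 0 < C ∧ ∃ d0 : ℕ, ∀ d ≥ d0,
    ∀ (N : ℕ) [NeZero N], 4 ∣ N → 4 ≤ N → ∀ f : Matrix (TV N d) (TV N d) ℝ,
    OneStep q ((2 * (d : ℝ)) ^ K) f → (∀ x y c, f (x + c) (y + c) = f x y) →
    ∀ (v : TV 4 d) (A : Finset (TV N d)), (∀ z ∈ A, pr4 N d z = v) →
    ∑ z ∈ A, (f * f) 0 z ≤ (if (0 : TV N d) ∈ A then 1 else 0)
      + C * ∑ z ∈ A, ((2 * (d : ℝ))⁻¹) ^ (max 1 (nrm z)) + ((2 * (d : ℝ))⁻¹) ^ K' := by
  obtain ⟨L, hL⟩ : ∃ L, L = 2 * (2 * K + K' + 1) := ⟨_, rfl⟩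
  have hL1 : 1 ≤ L := by omega
  set C : ℝ := ∑ i ∈ range L, ∑ j ∈ range L, q ^ (i + j) * ((i + j + 1).factorial : ℝ) with hC
  set E : ℝ := (∑ i ∈ range L, q ^ (i + L) * ((i + L + 1).factorial : ℝ))
    + q ^ L * ((L + 1).factorial : ℝ) with hE
  have hC0 : 0 ≤ C := sum_nonneg (fun i _ => sum_nonneg (fun j _ => by positivity))
  have hE0 : 0 ≤ E := by
    have : 0 ≤ ∑ i ∈ range L, q ^ (i + L) * ((i + L + 1).factorial : ℝ) :=
      sum_nonneg (fun i _ => by positivity)
    positivity
  refine ⟨C + 1, by linarith, max 1 ⌈E⌉₊, ?_⟩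
  intro d hd N _ h4 hN f hf hinv v A hA
  have hd1 : 1 ≤ d := (le_max_left _ _).trans hd
  have hdR : (1 : ℝ) ≤ d := by exact_mod_cast hd1
  have hEven : Even N := by
    obtain ⟨m, rfl⟩ := h4
    exact ⟨2 * m, by ring⟩
  have hdE : E ≤ 2 * (d : ℝ) := by
    have h1 : E ≤ (⌈E⌉₊ : ℝ) := Nat.le_ceil E
    have h2 : (⌈E⌉₊ : ℝ) ≤ (d : ℝ) := by exact_mod_cast (le_max_right _ _).trans hd
    linarith
  set t : ℝ := (2 * (d : ℝ))⁻¹ with ht
  have ht0 : 0 < t := by rw [ht]; positivity
  have htd : t * (2 * d) = 1 := by rw [ht]; field_simp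
  set F : ℝ := (2 * (d : ℝ)) ^ K with hF
  have hF1 : (1 : ℝ) ≤ F := one_le_pow₀ (by linarith)
  set r : ℝ := (Real.sqrt (2 * d))⁻¹ with hr
  have hr0 : 0 ≤ r := by rw [hr]; positivity
  have hr1 : r ≤ 1 := by
    apply inv_le_one_of_one_le₀
    rw [Real.one_le_sqrt]
    linarith
  -- translation invariance
  have hshift : ∀ u y, f u y = f 0 (y - u) := by
    intro u y
    have := hinv 0 (y - u) u
    rw [zero_add, sub_add_cancel] at this
    exact this
  have hshift2 : ∀ u y, (f * f) u y = (f * f) 0 (y - u) := by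
    intro u y
    have := Mt_mul_add (N := N) (d := d) hinv hinv 0 (y - u) u
    rw [zero_add, sub_add_cancel] at this
    exact this
  have hff0 : ∀ y, 0 ≤ (f * f) 0 y := by
    intro y
    rw [Matrix.mul_apply]
    exact sum_nonneg (fun z _ => mul_nonneg (hf.nonneg _ _) (hf.nonneg _ _))
  have hffsum : ∑ w, (f * f) 0 w ≤ F ^ 2 := by
    simp only [Matrix.mul_apply]
    rw [sum_comm]
    calc ∑ z, ∑ w, f 0 z * f z w = ∑ z, f 0 z * ∑ w, f z w := by
          apply sum_congr rfl
          intro z _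
          rw [mul_sum]
      _ ≤ ∑ z, f 0 z * F :=
          sum_le_sum (fun z _ => mul_le_mul_of_nonneg_left (hf.row z) (hf.nonneg 0 z))
      _ = (∑ z, f 0 z) * F := by rw [sum_mul]
      _ ≤ F * F := mul_le_mul_of_nonneg_right (hf.row 0) (by linarith)
      _ = F ^ 2 := by ring
  -- the remainders
  have hrem1 : ∀ i, ∑ z ∈ A, ∑ u, DD N d (i + L) u * f u z ≤ ((i + L + 1).factorial : ℝ) * r ^ L * F ^ 2 := by
    intro i
    have h1 := fibre_conv h4 hd1 (i + L) (g := fun w => f 0 w) (fun w => hf.nonneg 0 w) A v hA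
    have h2 : ∑ z ∈ A, ∑ u, DD N d (i + L) u * f u z
        = ∑ z ∈ A, ∑ u, DD N d (i + L) u * f 0 (z - u) := by
      apply sum_congr rfl
      intro z _
      apply sum_congr rfl
      intro u _
      rw [hshift u z]
    rw [h2]
    refine h1.trans ?_
    have h3 : r ^ (i + L) ≤ r ^ L := pow_le_pow_of_le_one hr0 hr1 (by omega)
    have h5 : ∑ w, f 0 w ≤ F ^ 2 := (hf.row 0).trans (by nlinarith)
    have h6 : 0 ≤ ∑ w, f 0 w := sum_nonneg (fun w _ => hf.nonneg 0 w)
    have h7 : (0:ℝ) ≤ ((i + L + 1).factorial : ℝ) := by positivity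
    calc ((i + L + 1).factorial : ℝ) * r ^ (i + L) * ∑ w, f 0 w
        ≤ ((i + L + 1).factorial : ℝ) * r ^ L * ∑ w, f 0 w := by gcongr
      _ ≤ _ := by gcongr
  have hrem2 : ∑ z ∈ A, ∑ u, DD N d L u * (f * f) u z ≤ ((L + 1).factorial : ℝ) * r ^ L * F ^ 2 := by
    have h1 := fibre_conv h4 hd1 L (g := fun w => (f * f) 0 w) hff0 A v hA
    have h2 : ∑ z ∈ A, ∑ u, DD N d L u * (f * f) u z
        = ∑ z ∈ A, ∑ u, DD N d L u * (f * f) 0 (z - u) := by
      apply sum_congr rfl
      intro z _
      apply sum_congr rfl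
      intro u _
      rw [hshift2 u z]
    rw [h2]
    refine h1.trans ?_
    gcongr
  -- the main part
  have hmain : ∀ z : TV N d, ∑ i ∈ range L, ∑ j ∈ range L, q ^ (i + j) * DD N d (i + j) z
      ≤ (if z = 0 then 1 else 0) + C * t ^ (max 1 (nrm z)) := by
    intro z
    have h1 : ∀ i ∈ range L, ∀ j ∈ range L, q ^ (i + j) * DD N d (i + j) z ≤
        (if i = 0 then (if j = 0 then (if z = 0 then (1:ℝ) else 0) else 0) else 0)
          + q ^ (i + j) * ((i + j + 1).factorial : ℝ) * t ^ (max 1 (nrm z)) := by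
      intro i _ j _
      have h2 : 0 ≤ q ^ (i + j) * ((i + j + 1).factorial : ℝ) * t ^ (max 1 (nrm z)) := by positivity
      rcases Nat.eq_zero_or_pos (i + j) with h | h
      · have hi : i = 0 := by omega
        have hj : j = 0 := by omega
        subst hi
        subst hj
        rw [if_pos rfl, if_pos rfl]
        have h3 : q ^ (0 + 0) * DD N d (0 + 0) z = if z = 0 then (1:ℝ) else 0 := by
          simp [DD]
        rw [h3]
        linarith
      · have h3 := mul_le_mul_of_nonneg_left (DD_le_max hEven hN hd1 h z) (pow_nonneg hq (i + j))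
        rw [← mul_assoc] at h3
        refine h3.trans ?_
        have h5 : (0:ℝ) ≤ (if i = 0 then (if j = 0 then (if z = 0 then (1:ℝ) else 0) else 0) else 0) := by
          split_ifs <;> norm_num
        linarith
    refine (sum_le_sum (fun i hi => sum_le_sum (fun j hj => h1 i hi j hj))).trans (le_of_eq ?_)
    simp only [sum_add_distrib, ← sum_mul]
    rw [hC]
    congr 1
    rw [sum_eq_single 0]
    · rw [sum_eq_single 0]
      · simp
      · intro j _ hj
        rw [if_pos rfl, if_neg hj]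
      · intro h
        exact absurd (mem_range.mpr hL1) h
    · intro i _ hi
      apply sum_eq_zero
      intro j _
      rw [if_neg hi]
    · intro h
      exact absurd (mem_range.mpr hL1) h
  -- put together
  have h1 : ∑ z ∈ A, (f * f) 0 z ≤ ∑ z ∈ A, ((if z = 0 then 1 else 0) + C * t ^ (max 1 (nrm z)))
      + ((∑ i ∈ range L, q ^ (i + L) * ∑ z ∈ A, ∑ u, DD N d (i + L) u * f u z)
      + q ^ L * ∑ z ∈ A, ∑ u, DD N d L u * (f * f) u z) := by
    have h2 := sum_le_sum (fun z (_ : z ∈ A) => sq_expand hq hf L z)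
    refine h2.trans ?_
    rw [sum_add_distrib, sum_add_distrib, add_assoc]
    apply add_le_add
    · exact sum_le_sum (fun z _ => hmain z)
    · apply le_of_eq
      congr 1
      · rw [sum_comm]
        apply sum_congr rfl
        intro i _
        rw [mul_sum]
      · rw [mul_sum]
  refine h1.trans ?_
  have h2 : ∑ z ∈ A, ((if z = 0 then (1:ℝ) else 0) + C * t ^ (max 1 (nrm z)))
      = (if (0 : TV N d) ∈ A then 1 else 0) + C * ∑ z ∈ A, t ^ (max 1 (nrm z)) := by
    rw [sum_add_distrib, ← mul_sum, sum_ite_eq']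
  rw [h2]
  have h3 : (∑ i ∈ range L, q ^ (i + L) * ∑ z ∈ A, ∑ u, DD N d (i + L) u * f u z)
      + q ^ L * ∑ z ∈ A, ∑ u, DD N d L u * (f * f) u z ≤ E * (r ^ L * F ^ 2) := by
    rw [hE, add_mul, sum_mul]
    apply add_le_add
    · apply sum_le_sum
      intro i _
      have := mul_le_mul_of_nonneg_left (hrem1 i) (pow_nonneg hq (i + L))
      refine this.trans (le_of_eq ?_)
      ring
    · have := mul_le_mul_of_nonneg_left hrem2 (pow_nonneg hq L)
      refine this.trans (le_of_eq ?_)
      ring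
  have h5 : E * (r ^ L * F ^ 2) ≤ t ^ K' := by
    have h6 : r ^ L = t ^ (2 * K + K' + 1) := by
      rw [hL, pow_mul, hr, inv_pow, Real.sq_sqrt (by positivity)]
    have h7 : (2 * (d : ℝ)) ^ (K * 2) * t ^ (K * 2) = 1 := by
      rw [← mul_pow, mul_comm (2 * (d : ℝ)), htd, one_pow]
    rw [h6, hF, ← pow_mul]
    calc E * (t ^ (2 * K + K' + 1) * (2 * (d : ℝ)) ^ (K * 2))
        = E * ((2 * (d : ℝ)) ^ (K * 2) * t ^ (K * 2)) * t ^ (K' + 1) := by
          rw [show 2 * K + K' + 1 = K * 2 + (K' + 1) by ring, pow_add t]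
          ring
      _ = E * t ^ (K' + 1) := by rw [h7, mul_one]
      _ ≤ (2 * d) * t ^ (K' + 1) := by gcongr
      _ = t ^ K' * (t * (2 * d)) := by ring
      _ = t ^ K' := by rw [htd, mul_one]
  have h6 : 0 ≤ ∑ z ∈ A, t ^ (max 1 (nrm z)) := sum_nonneg (fun z _ => by positivity)
  nlinarith

end DUp

end DDA
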