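import Pool.Agent.DDA.DUpB

/-!
# DDA: weighted count of a fibre of the covering `T_N → T_4`
-/

open Finset

namespace DDA

set_option linter.unusedSectionVars false

namespace DUp

open DLo

section
variable {N d : ℕ} [NeZero N]

/-- geometric sums along an injection -/
lemma geo {α : Type*} [DecidableEq α] (S : Finset α) (m : α → ℕ) (hm : Set.InjOn m S) {x : ℝ}
    (h0 : 0 ≤ x) (h1 : x < 1) : ∑ a ∈ S, x ^ m a ≤ (1 - x)⁻¹ := by
  have e1 : ∑ a ∈ S, x ^ m a = ∑ n ∈ S.image m, x ^ n := by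
    rw [sum_image hm]
  rw [e1, ← tsum_geometric_of_lt_one h0 h1]
  exact (summable_geometric_of_lt_one h0 h1).sum_le_tsum _ (fun i _ => pow_nonneg h0 i)

lemma cast_vma (h4 : 4 ∣ N) (a : ZMod N) : ((a.valMinAbs : ℤ) : ZMod 4) = (ZMod.cast a : ZMod 4) := by
  have h1 : ((a.valMinAbs : ℤ) : ZMod N) = a := ZMod.coe_valMinAbs a
  calc ((a.valMinAbs : ℤ) : ZMod 4) = (ZMod.cast ((a.valMinAbs : ℤ) : ZMod N) : ZMod 4) :=
        (ZMod.cast_intCast h4 _).symm
    _ = _ := by rw [h1]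

/-- a coordinate fibre -/
def cf (N : ℕ) [NeZero N] (c : ZMod 4) : Finset (ZMod N) :=
  univ.filter (fun a => (ZMod.cast a : ZMod 4) = c)

lemma mem_cf {c : ZMod 4} {a : ZMod N} : a ∈ cf N c ↔ (ZMod.cast a : ZMod 4) = c := by
  simp [cf]

lemma vma_inj {a b : ZMod N} (h : a.valMinAbs = b.valMinAbs) : a = b := by
  rw [← ZMod.coe_valMinAbs a, ← ZMod.coe_valMinAbs b, h]

/-- the fibres over `1` and `-1` -/
lemma cf_odd (h4 : 4 ∣ N) {c : ZMod 4} (hc : c = 1 ∨ c = -1) {t : ℝ} (h0 : 0 ≤ t) (h1 : t < 1) :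
    ∑ a ∈ cf N c, t ^ a.valMinAbs.natAbs ≤ t * (1 - t ^ 2)⁻¹ := by
  have hodd : ∀ a ∈ cf N c, a.valMinAbs.natAbs = 2 * (a.valMinAbs.natAbs / 2) + 1 := by
    intro a ha
    have h2 := cast_vma h4 a
    rw [mem_cf.mp ha] at h2
    have h3 : ∃ e : ℤ, (e = 1 ∨ e = -1) ∧ (4 : ℤ) ∣ (a.valMinAbs - e) := by
      rcases hc with rfl | rfl
      · refine ⟨1, Or.inl rfl, ?_⟩
        have : ((a.valMinAbs - 1 : ℤ) : ZMod 4) = 0 := by
          push_cast
          rw [h2]
          ring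
        exact (ZMod.intCast_zmod_eq_zero_iff_dvd _ 4).mp this
      · refine ⟨-1, Or.inr rfl, ?_⟩
        have : ((a.valMinAbs - (-1) : ℤ) : ZMod 4) = 0 := by
          push_cast
          rw [h2]
          ring
        exact (ZMod.intCast_zmod_eq_zero_iff_dvd _ 4).mp this
    obtain ⟨e, he, hdvd⟩ := h3
    omega
  have hinj : Set.InjOn (fun a : ZMod N => a.valMinAbs.natAbs / 2) (cf N c) := by
    intro a ha b hb hab
    have h2 := hodd a ha
    have h3 := hodd b hb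
    simp only at hab
    have h5 : a.valMinAbs.natAbs = b.valMinAbs.natAbs := by omega
    rcases Int.natAbs_eq_natAbs_iff.mp h5 with h | h
    · exact vma_inj h
    · exfalso
      have h6 := cast_vma h4 a
      have h7 := cast_vma h4 b
      rw [mem_cf.mp ha, h, Int.cast_neg, h7, mem_cf.mp hb] at h6
      rcases hc with rfl | rfl
      · revert h6; decide
      · revert h6; decide
  have h2 : ∑ a ∈ cf N c, t ^ a.valMinAbs.natAbs
      = t * ∑ a ∈ cf N c, (t ^ 2) ^ (a.valMinAbs.natAbs / 2) := by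
    rw [mul_sum]
    apply sum_congr rfl
    intro a ha
    rw [← pow_mul, ← pow_succ', ← hodd a ha]
  rw [h2]
  apply mul_le_mul_of_nonneg_left _ h0
  exact geo _ _ hinj (by positivity) (by nlinarith)

/-- the fibre over `0` -/
lemma cf_zero (h4 : 4 ∣ N) {t : ℝ} (h0 : 0 ≤ t) (h1 : t < 1) :
    ∑ a ∈ cf N 0, t ^ a.valMinAbs.natAbs ≤ 1 + 2 * (t ^ 4 * (1 - t ^ 4)⁻¹) := by
  have hdiv : ∀ a ∈ cf N 0, (4 : ℤ) ∣ a.valMinAbs := by
    intro a ha
    have h2 := cast_vma h4 a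
    rw [mem_cf.mp ha] at h2
    exact (ZMod.intCast_zmod_eq_zero_iff_dvd _ 4).mp h2
  have h14 : t ^ 4 < 1 := by
    have := pow_lt_one₀ h0 h1 (n := 4) (by norm_num)
    exact this
  have hsplit : ∑ a ∈ cf N 0, t ^ a.valMinAbs.natAbs
      ≤ ∑ a ∈ (cf N 0).filter (fun a => a.valMinAbs = 0), t ^ a.valMinAbs.natAbs
        + (∑ a ∈ (cf N 0).filter (fun a => 0 < a.valMinAbs), t ^ a.valMinAbs.natAbs
        + ∑ a ∈ (cf N 0).filter (fun a => a.valMinAbs < 0), t ^ a.valMinAbs.natAbs) := by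
    rw [sum_filter, sum_filter, sum_filter, ← sum_add_distrib, ← sum_add_distrib]
    apply sum_le_sum
    intro a _
    have hp : 0 ≤ t ^ a.valMinAbs.natAbs := by positivity
    rcases lt_trichotomy a.valMinAbs 0 with h | h | h
    · rw [if_neg (by omega), if_neg (by omega), if_pos h]; linarith
    · rw [if_pos h, if_neg (by omega), if_neg (by omega)]; linarith
    · rw [if_neg (by omega), if_pos h, if_neg (by omega)]; linarith
  refine hsplit.trans ?_
  have hA : ∑ a ∈ (cf N 0).filter (fun a => a.valMinAbs = 0), t ^ a.valMinAbs.natAbs ≤ 1 := by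
    have h2 : (cf N 0).filter (fun a => a.valMinAbs = 0) ⊆ {(0 : ZMod N)} := by
      intro a ha
      rw [mem_singleton]
      exact (ZMod.valMinAbs_eq_zero a).mp (mem_filter.mp ha).2
    refine (sum_le_sum_of_subset_of_nonneg h2 (fun a _ _ => by positivity)).trans ?_
    rw [sum_singleton, ZMod.valMinAbs_zero]
    simp
  have key : ∀ S : Finset (ZMod N), S ⊆ cf N 0 → (∀ a ∈ S, a.valMinAbs ≠ 0) →
      (∀ a ∈ S, ∀ b ∈ S, a.valMinAbs ≠ -b.valMinAbs) →
      ∑ a ∈ S, t ^ a.valMinAbs.natAbs ≤ t ^ 4 * (1 - t ^ 4)⁻¹ := by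
    intro S hS hne hpm
    have hval : ∀ a ∈ S, a.valMinAbs.natAbs = 4 * (a.valMinAbs.natAbs / 4 - 1) + 4 := by
      intro a ha
      have h2 := hdiv a (hS ha)
      have h3 := hne a ha
      omega
    have hinj : Set.InjOn (fun a : ZMod N => a.valMinAbs.natAbs / 4 - 1) S := by
      intro a ha b hb hab
      have h2 := hval a ha
      have h3 := hval b hb
      simp only at hab
      have h5 : a.valMinAbs.natAbs = b.valMinAbs.natAbs := by omega
      rcases Int.natAbs_eq_natAbs_iff.mp h5 with h | h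
      · exact vma_inj h
      · exact absurd h (hpm a ha b hb)
    have h2 : ∑ a ∈ S, t ^ a.valMinAbs.natAbs
        = t ^ 4 * ∑ a ∈ S, (t ^ 4) ^ (a.valMinAbs.natAbs / 4 - 1) := by
      rw [mul_sum]
      apply sum_congr rfl
      intro a ha
      rw [← pow_mul, ← pow_add, add_comm 4, ← hval a ha]
    rw [h2]
    apply mul_le_mul_of_nonneg_left _ (by positivity)
    exact geo _ _ hinj (by positivity) h14
  have hB := key ((cf N 0).filter (fun a => 0 < a.valMinAbs)) (filter_subset _ _)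
    (fun a ha => by have := (mem_filter.mp ha).2; omega)
    (fun a ha b hb => by
      have h2 := (mem_filter.mp ha).2
      have h3 := (mem_filter.mp hb).2
      omega)
  have hC := key ((cf N 0).filter (fun a => a.valMinAbs < 0)) (filter_subset _ _)
    (fun a ha => by have := (mem_filter.mp ha).2; omega)
    (fun a ha b hb => by
      have h2 := (mem_filter.mp ha).2
      have h3 := (mem_filter.mp hb).2
      omega)
  linarith

/-- a fibre of the covering -/
def fib (N : ℕ) {d : ℕ} [NeZero N] (v : TV 4 d) : Finset (TV N d) :=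
  Fintype.piFinset (fun i => cf N (v i))

lemma mem_fib {v : TV 4 d} {z : TV N d} : z ∈ fib N v ↔ pr4 N d z = v := by
  unfold fib
  rw [Fintype.mem_piFinset]
  constructor
  · intro h
    funext i
    exact mem_cf.mp (h i)
  · intro h i
    rw [mem_cf, ← h]
    rfl

lemma fib_prod (t : ℝ) (v : TV 4 d) :
    ∑ z ∈ fib N v, t ^ nrm z = ∏ i, ∑ a ∈ cf N (v i), t ^ a.valMinAbs.natAbs := by
  rw [Finset.prod_univ_sum]
  apply sum_congr rfl
  intro z _
  unfold nrm
  rw [prod_pow_eq_pow_sum]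

lemma pr4_nb (h4 : 4 ∣ N) (x : TV N d) (j : Fin d × Bool) : pr4 N d (nb x j) = nb (pr4 N d x) j := by
  unfold nb
  split_ifs
  · rw [pr4_add h4, pr4_single h4]
  · rw [pr4_sub h4, pr4_single h4]

lemma nb_add (x : TV N d) (j : Fin d × Bool) : nb x j = x + nb 0 j := by
  unfold nb
  split_ifs
  · rw [zero_add]
  · rw [zero_sub, sub_eq_add_neg]

lemma nb_zero_self (j : Fin d × Bool) :
    (nb (0 : TV 4 d) j) j.1 = 1 ∨ (nb (0 : TV 4 d) j) j.1 = -1 := by
  unfold nb
  split_ifs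
  · left; simp
  · right; simp

lemma nb_zero_ne (j : Fin d × Bool) {i : Fin d} (hi : i ≠ j.1) :
    (nb (0 : TV 4 d) j) i = 0 := by
  unfold nb
  split_ifs
  · simp [Pi.single_eq_of_ne hi]
  · simp [Pi.single_eq_of_ne hi]

lemma one_add_pow_le {x : ℝ} (hx : 0 ≤ x) (n : ℕ) (hn : n * x < 1) :
    (1 + x) ^ n ≤ (1 - n * x)⁻¹ := by
  rcases Nat.eq_zero_or_pos n with h | h
  · subst h; simp
  · have hx1 : x < 1 := by
      have : (1:ℝ) ≤ n := by exact_mod_cast h
      nlinarith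
    have h1 := one_add_mul_le_pow (a := -x) (by linarith) n
    have h2 : (1 + x) ^ n * (1 + -x) ^ n ≤ 1 := by
      rw [← mul_pow]
      apply pow_le_one₀
      · nlinarith
      · nlinarith
    have h3 : 0 < 1 - n * x := by linarith
    rw [le_inv_comm₀ (by positivity) h3]
    have h5 : 0 < (1 + x) ^ n := by positivity
    have h6 : (1 + -x) ^ n ≤ ((1 + x) ^ n)⁻¹ := by
      rw [← one_div, le_div_iff₀ h5]
      linarith
    linarith

/-- **the weighted count of a fibre** -/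
theorem fib_bound (h4 : 4 ∣ N) (hd : 4 ≤ d) (j : Fin d × Bool) :
    ∑ z ∈ fib N (pr4 N d (nb 0 j)), ((2 * (d : ℝ))⁻¹) ^ nrm z
      ≤ (2 * (d : ℝ))⁻¹ + ((2 * (d : ℝ))⁻¹) ^ 3 + 6 * ((2 * (d : ℝ))⁻¹) ^ 4 := by
  have hdR : (4 : ℝ) ≤ d := by exact_mod_cast hd
  set t : ℝ := (2 * (d : ℝ))⁻¹ with ht
  have ht0 : 0 < t := by rw [ht]; positivity
  have htd : (d : ℝ) * t = 1 / 2 := by rw [ht]; field_simp
  have ht8 : t ≤ 1 / 8 := by
    rw [ht, one_div]
    apply inv_anti₀ (by norm_num)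
    linarith
  rw [fib_prod, pr4_nb h4, pr4_zero]
  rw [← mul_prod_erase univ _ (mem_univ j.1)]
  have h1 := cf_odd (N := N) h4 (nb_zero_self (d := d) j) ht0.le (by linarith)
  set y : ℝ := 2 * (t ^ 4 * (1 - t ^ 4)⁻¹) with hy
  have ht4 : t ^ 4 ≤ 1 / 4096 := by
    calc t ^ 4 ≤ (1 / 8) ^ 4 := by gcongr
      _ = _ := by norm_num
  have ht4p : 0 < t ^ 4 := by positivity
  have hy0 : 0 ≤ y := by
    rw [hy]
    have : 0 < 1 - t ^ 4 := by linarith
    positivity
  have hy1 : y ≤ 21 / 10 * t ^ 4 := by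
    rw [hy]
    have h5 : (1 - t ^ 4)⁻¹ ≤ 21 / 20 := by
      rw [inv_le_comm₀ (by linarith) (by norm_num)]
      norm_num
      linarith
    nlinarith
  have h2 : ∏ i ∈ univ.erase j.1, ∑ a ∈ cf N (nb (0 : TV 4 d) j i), t ^ a.valMinAbs.natAbs
      ≤ (1 + y) ^ d := by
    calc ∏ i ∈ univ.erase j.1, ∑ a ∈ cf N (nb (0 : TV 4 d) j i), t ^ a.valMinAbs.natAbs
        ≤ ∏ i ∈ univ.erase j.1, (1 + y) := by
          apply prod_le_prod
          · intro i _
            exact sum_nonneg (fun a _ => by positivity)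
          · intro i hi
            rw [nb_zero_ne j (ne_of_mem_erase hi)]
            exact cf_zero h4 ht0.le (by linarith)
      _ = (1 + y) ^ (univ.erase j.1).card := by rw [prod_const]
      _ ≤ (1 + y) ^ d := by
          apply pow_le_pow_right₀ (by linarith)
          rw [card_erase_of_mem (mem_univ _), card_univ, Fintype.card_fin]
          omega
  have hdy : (d : ℝ) * y ≤ 21 / 20 * t ^ 3 := by
    calc (d : ℝ) * y ≤ d * (21 / 10 * t ^ 4) := by gcongr
      _ = 21 / 10 * (d * t) * t ^ 3 := by ring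
      _ = _ := by rw [htd]; ring
  have ht3 : t ^ 3 ≤ 1 / 512 := by
    calc t ^ 3 ≤ (1 / 8) ^ 3 := by gcongr
      _ = _ := by norm_num
  have ht3p : 0 < t ^ 3 := by positivity
  have h3 : (1 + y) ^ d ≤ 1 + 2 * t ^ 3 := by
    refine (one_add_pow_le hy0 d (by linarith)).trans ?_
    rw [inv_le_comm₀ (by linarith) (by linarith)]
    rw [← one_div, div_le_iff₀ (by linarith)]
    nlinarith
  have ht2 : t ^ 2 ≤ 1 / 64 := by
    calc t ^ 2 ≤ (1 / 8) ^ 2 := by gcongr
      _ = _ := by norm_num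
  have h5 : t * (1 - t ^ 2)⁻¹ ≤ t + t ^ 3 + 11 / 10 * t ^ 5 := by
    have h6 : (1 - t ^ 2)⁻¹ ≤ 1 + t ^ 2 + 11 / 10 * t ^ 4 := by
      rw [inv_le_comm₀ (by linarith) (by positivity)]
      rw [← one_div, div_le_iff₀ (by positivity)]
      nlinarith [mul_pos ht4p ht0, mul_nonneg ht4p.le (sub_nonneg.mpr ht2)]
    calc t * (1 - t ^ 2)⁻¹ ≤ t * (1 + t ^ 2 + 11 / 10 * t ^ 4) := by gcongr
      _ = _ := by ring
  have h7 : 0 ≤ ∏ i ∈ univ.erase j.1, ∑ a ∈ cf N (nb (0 : TV 4 d) j i), t ^ a.valMinAbs.natAbs :=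
    prod_nonneg (fun i _ => sum_nonneg (fun a _ => by positivity))
  calc _ ≤ (t + t ^ 3 + 11 / 10 * t ^ 5) * (1 + 2 * t ^ 3) :=
        mul_le_mul (h1.trans h5) (h2.trans h3) h7 (by positivity)
    _ ≤ _ := by
        have e5 : t ^ 5 ≤ 1 / 8 * t ^ 4 := by
          calc t ^ 5 = t * t ^ 4 := by ring
            _ ≤ 1 / 8 * t ^ 4 := by gcongr
        have e6 : t ^ 6 ≤ 1 / 64 * t ^ 4 := by
          calc t ^ 6 = t ^ 2 * t ^ 4 := by ring
            _ ≤ 1 / 64 * t ^ 4 := by gcongr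
        have e8 : t ^ 8 ≤ 1 / 4096 * t ^ 4 := by
          calc t ^ 8 = t ^ 4 * t ^ 4 := by ring
            _ ≤ 1 / 4096 * t ^ 4 := by gcongr
        nlinarith

end

end DUp

end DDA
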