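import Mathlib

/-! # DDA: from the two-sided estimate to the coefficients -/

open Filter Topology Finset

namespace DDA

/-- `x` has the expansion `∑ a_i / (2d)^i` to all orders -/
def HasExp (x : ℕ → ℝ) (a : ℕ → ℝ) : Prop :=
  ∀ M : ℕ, 1 ≤ M → ∃ C : ℝ, ∀ d : ℕ, 1 ≤ d →
    |x d - ∑ i ∈ Icc 1 M, a i / (2 * (d:ℝ)) ^ i| ≤ C / (d:ℝ) ^ (M + 1)

lemma tendsto_inv_nat_pow (k : ℕ) (hk : k ≠ 0) : Tendsto (fun d : ℕ => 1 / (d:ℝ) ^ k) atTop (𝓝 0) := by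
  have : Tendsto (fun d : ℕ => ((d:ℝ)⁻¹) ^ k) atTop (𝓝 (0 ^ k)) :=
    (tendsto_inv_atTop_nhds_zero_nat (𝕜 := ℝ)).pow k
  rw [zero_pow hk] at this
  refine this.congr (fun d => ?_)
  rw [one_div, inv_pow]

/-- a cubic polynomial which is bounded along the integers is constant -/
lemma cubic_bounded {g1 g2 g3 g4 K : ℝ}
    (h : ∀ᶠ d : ℕ in atTop, |g1 * (2 * (d:ℝ)) ^ 3 + g2 * (2 * (d:ℝ)) ^ 2 + g3 * (2 * (d:ℝ)) + g4| ≤ K) :
    g1 = 0 ∧ g2 = 0 ∧ g3 = 0 := by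
  have step : ∀ (f : ℕ → ℝ) (l : ℝ), Tendsto f atTop (𝓝 l) →
      (∀ᶠ d : ℕ in atTop, |f d| ≤ K * (1 / (d:ℝ) ^ 1)) → l = 0 := by
    intro f l hf hb
    have h1 : Tendsto (fun d : ℕ => K * (1 / (d:ℝ) ^ 1)) atTop (𝓝 (K * 0)) :=
      (tendsto_inv_nat_pow 1 (by norm_num)).const_mul K
    rw [mul_zero] at h1
    have h2 : Tendsto f atTop (𝓝 0) := squeeze_zero_norm' (by simpa using hb) (by simpa using h1)
    exact tendsto_nhds_unique hf h2
  have t1 := tendsto_inv_nat_pow 1 (by norm_num)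
  have t2 := tendsto_inv_nat_pow 2 (by norm_num)
  have t3 := tendsto_inv_nat_pow 3 (by norm_num)
  have hK : 0 ≤ K := by
    obtain ⟨d, hd⟩ := h.exists
    exact (abs_nonneg _).trans hd
  have h1 : g1 = 0 := by
    have : 8 * g1 = 0 := by
      refine step (fun d => 8 * g1 + 4 * g2 * (1 / (d:ℝ) ^ 1) + 2 * g3 * (1 / (d:ℝ) ^ 2)
        + g4 * (1 / (d:ℝ) ^ 3)) _ ?_ ?_
      · have := (((t1.const_mul (4 * g2)).const_add (8 * g1)).add (t2.const_mul (2 * g3))).add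
          (t3.const_mul g4)
        simpa using this
      · filter_upwards [h, eventually_ge_atTop 1] with d hd hd1
        have hd' : (1:ℝ) ≤ d := by exact_mod_cast hd1
        have e : 8 * g1 + 4 * g2 * (1 / (d:ℝ) ^ 1) + 2 * g3 * (1 / (d:ℝ) ^ 2)
            + g4 * (1 / (d:ℝ) ^ 3)
            = (g1 * (2 * (d:ℝ)) ^ 3 + g2 * (2 * (d:ℝ)) ^ 2 + g3 * (2 * (d:ℝ)) + g4) / (d:ℝ) ^ 3 := by
          field_simp
          ring
        rw [e, abs_div, abs_of_pos (by positivity : (0:ℝ) < (d:ℝ) ^ 3)]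
        rw [div_le_iff₀ (by positivity)]
        refine hd.trans ?_
        have : K * (1 / (d:ℝ) ^ 1) * (d:ℝ) ^ 3 = K * (d:ℝ) ^ 2 := by
          field_simp
        rw [this]
        exact le_mul_of_one_le_right hK (one_le_pow₀ hd')
    linarith
  subst h1
  have h2 : g2 = 0 := by
    have : 4 * g2 = 0 := by
      refine step (fun d => 4 * g2 + 2 * g3 * (1 / (d:ℝ) ^ 1) + g4 * (1 / (d:ℝ) ^ 2)) _ ?_ ?_
      · have := ((t1.const_mul (2 * g3)).const_add (4 * g2)).add (t2.const_mul g4)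
        simpa using this
      · filter_upwards [h, eventually_ge_atTop 1] with d hd hd1
        have hd' : (1:ℝ) ≤ d := by exact_mod_cast hd1
        have e : 4 * g2 + 2 * g3 * (1 / (d:ℝ) ^ 1) + g4 * (1 / (d:ℝ) ^ 2)
            = (0 * (2 * (d:ℝ)) ^ 3 + g2 * (2 * (d:ℝ)) ^ 2 + g3 * (2 * (d:ℝ)) + g4) / (d:ℝ) ^ 2 := by
          field_simp
          ring
        rw [e, abs_div, abs_of_pos (by positivity : (0:ℝ) < (d:ℝ) ^ 2)]
        rw [div_le_iff₀ (by positivity)]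
        refine hd.trans ?_
        have : K * (1 / (d:ℝ) ^ 1) * (d:ℝ) ^ 2 = K * (d:ℝ) := by
          field_simp
        rw [this]
        exact le_mul_of_one_le_right hK hd'
    linarith
  subst h2
  have h3 : g3 = 0 := by
    have : 2 * g3 = 0 := by
      refine step (fun d => 2 * g3 + g4 * (1 / (d:ℝ) ^ 1)) _ ?_ ?_
      · have := (t1.const_mul g4).const_add (2 * g3)
        simpa using this
      · filter_upwards [h, eventually_ge_atTop 1] with d hd hd1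
        have hd' : (1:ℝ) ≤ d := by exact_mod_cast hd1
        have e : 2 * g3 + g4 * (1 / (d:ℝ) ^ 1)
            = (0 * (2 * (d:ℝ)) ^ 3 + 0 * (2 * (d:ℝ)) ^ 2 + g3 * (2 * (d:ℝ)) + g4) / (d:ℝ) := by
          field_simp
          ring
        rw [e, abs_div, abs_of_pos (by positivity : (0:ℝ) < (d:ℝ))]
        rw [div_le_iff₀ (by positivity)]
        refine hd.trans (le_of_eq ?_)
        field_simp
    linarith
  exact ⟨rfl, rfl, h3⟩

theorem coeffs {x y a b : ℕ → ℝ} (ha : HasExp x a) (hb : HasExp y b) {c C : ℝ} (hc : 0 < c)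
    (h : ∀ᶠ d : ℕ in atTop, c / (d:ℝ) ^ 4 ≤ y d - x d ∧ y d - x d ≤ C / (d:ℝ) ^ 4) :
    (∀ i, 1 ≤ i → i < 4 → a i = b i) ∧ a 4 < b 4 := by
  -- `g i = b i - a i`
  obtain ⟨C1, h1⟩ := ha 4 (by norm_num)
  obtain ⟨C2, h2⟩ := hb 4 (by norm_num)
  have hS : ∀ f : ℕ → ℝ, ∑ i ∈ Icc 1 4, f i = f 1 + f 2 + f 3 + f 4 := by
    intro f
    have : Icc 1 4 = ({1, 2, 3, 4} : Finset ℕ) := by decide
    rw [this]
    simp
    ring
  -- multiply by `(2 d)^4`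
  have key : ∀ᶠ d : ℕ in atTop,
      |(b 1 - a 1) * (2 * (d:ℝ)) ^ 3 + (b 2 - a 2) * (2 * (d:ℝ)) ^ 2 + (b 3 - a 3) * (2 * (d:ℝ))
        + (b 4 - a 4) - (y d - x d) * (2 * (d:ℝ)) ^ 4| ≤ 16 * (|C1| + |C2|) / d := by
    filter_upwards [eventually_ge_atTop 1] with d hd
    have hd' : (0:ℝ) < d := by exact_mod_cast hd
    have e1 := h1 d hd
    have e2 := h2 d hd
    rw [hS] at e1 e2
    have hne : (2 * (d:ℝ)) ≠ 0 := by positivity
    have e3 : (b 1 - a 1) * (2 * (d:ℝ)) ^ 3 + (b 2 - a 2) * (2 * (d:ℝ)) ^ 2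
        + (b 3 - a 3) * (2 * (d:ℝ)) + (b 4 - a 4) - (y d - x d) * (2 * (d:ℝ)) ^ 4
        = (2 * (d:ℝ)) ^ 4 * ((x d - (a 1 / (2 * (d:ℝ)) ^ 1 + a 2 / (2 * (d:ℝ)) ^ 2
          + a 3 / (2 * (d:ℝ)) ^ 3 + a 4 / (2 * (d:ℝ)) ^ 4))
          - (y d - (b 1 / (2 * (d:ℝ)) ^ 1 + b 2 / (2 * (d:ℝ)) ^ 2
          + b 3 / (2 * (d:ℝ)) ^ 3 + b 4 / (2 * (d:ℝ)) ^ 4))) := by
      field_simp
      ring
    rw [e3, abs_mul, abs_of_pos (by positivity : (0:ℝ) < (2 * (d:ℝ)) ^ 4)]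
    have e4 : |(x d - (a 1 / (2 * (d:ℝ)) ^ 1 + a 2 / (2 * (d:ℝ)) ^ 2
          + a 3 / (2 * (d:ℝ)) ^ 3 + a 4 / (2 * (d:ℝ)) ^ 4))
          - (y d - (b 1 / (2 * (d:ℝ)) ^ 1 + b 2 / (2 * (d:ℝ)) ^ 2
          + b 3 / (2 * (d:ℝ)) ^ 3 + b 4 / (2 * (d:ℝ)) ^ 4))| ≤ |C1| / (d:ℝ) ^ 5 + |C2| / (d:ℝ) ^ 5 := by
      refine (abs_sub _ _).trans (add_le_add (e1.trans ?_) (e2.trans ?_))
      · gcongr
        exact le_abs_self _
      · gcongr
        exact le_abs_self _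
    calc (2 * (d:ℝ)) ^ 4 * _ ≤ (2 * (d:ℝ)) ^ 4 * (|C1| / (d:ℝ) ^ 5 + |C2| / (d:ℝ) ^ 5) := by gcongr
      _ = 16 * (|C1| + |C2|) / d := by
        field_simp
        ring
  obtain ⟨hg1, hg2, hg3⟩ : b 1 - a 1 = 0 ∧ b 2 - a 2 = 0 ∧ b 3 - a 3 = 0 := by
    refine cubic_bounded (g4 := b 4 - a 4) (K := 16 * (|C1| + |C2|) + 16 * |C|) ?_
    filter_upwards [key, h, eventually_ge_atTop 1] with d h1 h2 hd
    have hd' : (1:ℝ) ≤ d := by exact_mod_cast hd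
    have hd0 : (0:ℝ) < d := by linarith
    have e1 : 0 ≤ (y d - x d) * (2 * (d:ℝ)) ^ 4 := by
      apply mul_nonneg _ (by positivity)
      exact le_trans (by positivity) h2.1
    have e2 : (y d - x d) * (2 * (d:ℝ)) ^ 4 ≤ 16 * |C| := by
      calc (y d - x d) * (2 * (d:ℝ)) ^ 4 ≤ (|C| / (d:ℝ) ^ 4) * (2 * (d:ℝ)) ^ 4 := by
            gcongr
            refine h2.2.trans ?_
            gcongr
            exact le_abs_self _
        _ = 16 * |C| := by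
            field_simp
            ring
    have e3 : 16 * (|C1| + |C2|) / (d:ℝ) ≤ 16 * (|C1| + |C2|) :=
      div_le_self (by positivity) hd'
    have e4 := abs_le.mp h1
    rw [abs_le]
    constructor <;> linarith [e4.1, e4.2]
  refine ⟨?_, ?_⟩
  · intro i hi1 hi4
    interval_cases i <;> linarith
  · -- `b 4 - a 4 ≥ 16 c`
    have hlim : Tendsto (fun d : ℕ => 16 * c - 16 * (|C1| + |C2|) * (1 / (d:ℝ) ^ 1)) atTop
        (𝓝 (16 * c - 16 * (|C1| + |C2|) * 0)) :=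
      ((tendsto_inv_nat_pow 1 (by norm_num)).const_mul _).const_sub _
    rw [mul_zero, sub_zero] at hlim
    have hle : 16 * c ≤ b 4 - a 4 := by
      refine le_of_tendsto hlim ?_
      filter_upwards [key, h, eventually_ge_atTop 1] with d h1 h2 hd
      have hd0 : (0:ℝ) < d := by exact_mod_cast hd
      have e1 : 16 * c ≤ (y d - x d) * (2 * (d:ℝ)) ^ 4 := by
        calc 16 * c = (c / (d:ℝ) ^ 4) * (2 * (d:ℝ)) ^ 4 := by
              field_simp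
              ring
          _ ≤ _ := by
              gcongr
              exact h2.1
      rw [hg1, hg2, hg3] at h1
      have e4 := abs_le.mp h1
      have e5 : 16 * (|C1| + |C2|) * (1 / (d:ℝ) ^ 1) = 16 * (|C1| + |C2|) / d := by
        rw [pow_one]
        ring
      rw [e5]
      linarith [e4.1]
    linarith

end DDA
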