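import Pool.Agent.DDA.Exps

/-! # DDA: from the exact limit to the coefficients -/

open Filter Topology Finset

namespace DDA

theorem coeffs_lim {x y a b : ℕ → ℝ} (ha : HasExp x a) (hb : HasExp y b) {L : ℝ}
    (h : Tendsto (fun d : ℕ => (y d - x d) * (2 * (d:ℝ)) ^ 4) atTop (𝓝 L)) :
    (∀ i, 1 ≤ i → i < 4 → a i = b i) ∧ b 4 - a 4 = L := by
  obtain ⟨C1, h1⟩ := ha 4 (by norm_num)
  obtain ⟨C2, h2⟩ := hb 4 (by norm_num)
  have hS : ∀ f : ℕ → ℝ, ∑ i ∈ Icc 1 4, f i = f 1 + f 2 + f 3 + f 4 := by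
    intro f
    have : Icc 1 4 = ({1, 2, 3, 4} : Finset ℕ) := by decide
    rw [this]
    simp
    ring
  have key : ∀ᶠ d : ℕ in atTop,
      |(b 1 - a 1) * (2 * (d:ℝ)) ^ 3 + (b 2 - a 2) * (2 * (d:ℝ)) ^ 2 + (b 3 - a 3) * (2 * (d:ℝ))
        + (b 4 - a 4) - (y d - x d) * (2 * (d:ℝ)) ^ 4| ≤ 16 * (|C1| + |C2|) * (1 / (d:ℝ) ^ 1) := by
    filter_upwards [eventually_ge_atTop 1] with d hd
    have hd' : (0:ℝ) < d := by exact_mod_cast hd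
    have e1 := h1 d hd
    have e2 := h2 d hd
    rw [hS] at e1 e2
    have hne : (2 * (d:ℝ)) ≠ 0 := by positivity
    have e3 : (b 1 - a 1) * (2 * (d:ℝ)) ^ 3 + (b 2 - a 2) * (2 * (d:ℝ)) ^ 2
        + (b 3 - a 3) * (2 * (d:ℝ)) + (b 4 - a 4) - (y d - x d) * (2 * (d:ℝ)) ^ 4
        = (2 * (d:ℝ)) ^ 4 * ((x d - (a 1 / (2 * (d:ℝ)) ^ 1 + a 2 / (2 * (d:ℝ)) ^ 2
          + a 3 / (2 * (d:ℝ)) ^ 3 + a 4 / (2 * (d:ℝ)) ^ 4))
          - (y d - (b 1 / (2 * (d:ℝ)) ^ 1 + b 2 / (2 * (d:ℝ)) ^ 2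
          + b 3 / (2 * (d:ℝ)) ^ 3 + b 4 / (2 * (d:ℝ)) ^ 4))) := by
      field_simp
      ring
    rw [e3, abs_mul, abs_of_pos (by positivity : (0:ℝ) < (2 * (d:ℝ)) ^ 4)]
    have e4 : |(x d - (a 1 / (2 * (d:ℝ)) ^ 1 + a 2 / (2 * (d:ℝ)) ^ 2
          + a 3 / (2 * (d:ℝ)) ^ 3 + a 4 / (2 * (d:ℝ)) ^ 4))
          - (y d - (b 1 / (2 * (d:ℝ)) ^ 1 + b 2 / (2 * (d:ℝ)) ^ 2
          + b 3 / (2 * (d:ℝ)) ^ 3 + b 4 / (2 * (d:ℝ)) ^ 4))| ≤ |C1| / (d:ℝ) ^ 5 + |C2| / (d:ℝ) ^ 5 := by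
      refine (abs_sub _ _).trans (add_le_add (e1.trans ?_) (e2.trans ?_))
      · gcongr
        exact le_abs_self _
      · gcongr
        exact le_abs_self _
    calc (2 * (d:ℝ)) ^ 4 * _ ≤ (2 * (d:ℝ)) ^ 4 * (|C1| / (d:ℝ) ^ 5 + |C2| / (d:ℝ) ^ 5) := by gcongr
      _ = 16 * (|C1| + |C2|) * (1 / (d:ℝ) ^ 1) := by
        field_simp
        ring
  have hz : Tendsto (fun d : ℕ => 16 * (|C1| + |C2|) * (1 / (d:ℝ) ^ 1)) atTop (𝓝 0) := by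
    have := (tendsto_inv_nat_pow 1 (by norm_num)).const_mul (16 * (|C1| + |C2|))
    rwa [mul_zero] at this
  obtain ⟨hg1, hg2, hg3⟩ : b 1 - a 1 = 0 ∧ b 2 - a 2 = 0 ∧ b 3 - a 3 = 0 := by
    refine cubic_bounded (g4 := b 4 - a 4) (K := 16 * (|C1| + |C2|) + (|L| + 1)) ?_
    have hb1 : ∀ᶠ d : ℕ in atTop, |(y d - x d) * (2 * (d:ℝ)) ^ 4| ≤ |L| + 1 :=
      h.abs.eventually_le_const (by linarith)
    filter_upwards [key, hb1, eventually_ge_atTop 1] with d h1 h2 hd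
    have hd' : (1:ℝ) ≤ d := by exact_mod_cast hd
    have e3 : 16 * (|C1| + |C2|) * (1 / (d:ℝ) ^ 1) ≤ 16 * (|C1| + |C2|) := by
      rw [pow_one, mul_one_div]
      exact div_le_self (by positivity) hd'
    have e4 := abs_le.mp h1
    have e5 := abs_le.mp h2
    rw [abs_le]
    constructor <;> linarith [e4.1, e4.2, e5.1, e5.2]
  refine ⟨?_, ?_⟩
  · intro i hi1 hi4
    interval_cases i <;> linarith
  · rw [hg1, hg2, hg3] at key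
    have h3 : Tendsto (fun d : ℕ => (b 4 - a 4) - (y d - x d) * (2 * (d:ℝ)) ^ 4) atTop (𝓝 0) := by
      apply squeeze_zero_norm' _ hz
      filter_upwards [key] with d hd
      rw [Real.norm_eq_abs]
      simpa using hd
    have h4 : Tendsto (fun d : ℕ => (b 4 - a 4) - (y d - x d) * (2 * (d:ℝ)) ^ 4) atTop
        (𝓝 ((b 4 - a 4) - L)) := h.const_sub _
    have := tendsto_nhds_unique h4 h3
    linarith

end DDA
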