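import Pool.Agent.DDA.AsmSharpLow
import Pool.Agent.DDA.AsmUp2
import Pool.Agent.DDA.Exps2
import Pool.Agent.DDA.Hyp

open Finset Filter Topology

namespace DDA

/-- base version: two-sided estimate and the comparison of the coefficients -/
theorem final_base {c C : ℝ}
    (hlow : ∀ᶠ d : ℕ in atTop, ∀ p : ℝ, 0 ≤ p → p ≤ 1 →
      (2 * (d : ℝ)) ^ 4 ≤ chi 4 d p → pcZ d ≤ p - c / (2 * (d : ℝ)) ^ 4)
    (hupp : ∀ᶠ d : ℕ in atTop, ∀ p : ℝ, 0 ≤ p → p ≤ 1 →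
      chi 4 d p ≤ ((4 : ℝ) ^ d) ^ ((1 : ℝ) / 3) → p ≤ pcZ d + C / (2 * (d : ℝ)) ^ 4)
    (pQ : ℕ → unitInterval)
    (hpQ : ∀ n, 1 ≤ n →
      meanCluster (cube n) (fun _ => false) (pQ n) = ((2 : ℝ) ^ n) ^ ((1 : ℝ) / 3)) :
    ∀ᶠ d : ℕ in atTop, c / (2 * (d : ℝ)) ^ 4 ≤ (pQ (2 * d) : ℝ) - pcZ d ∧
      (pQ (2 * d) : ℝ) - pcZ d ≤ C / (2 * (d : ℝ)) ^ 4 := by
  have h4 : ∀ d : ℕ, ((2:ℝ) ^ (2 * d)) = (4:ℝ) ^ d := by
    intro d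
    rw [pow_mul]
    norm_num
  filter_upwards [hlow, hupp, ev_four_pow 1 12, eventually_ge_atTop 1] with d h1 h2 h3 hd
  have hp0 : 0 ≤ (pQ (2 * d) : ℝ) := (pQ (2 * d)).2.1
  have hp1 : (pQ (2 * d) : ℝ) ≤ 1 := (pQ (2 * d)).2.2
  have hchi : chi 4 d (pQ (2 * d)) = ((4 : ℝ) ^ d) ^ ((1 : ℝ) / 3) := by
    rw [← meanCluster_cube d (pQ (2 * d)) (fun _ => false), hpQ (2 * d) (by omega), h4]
  constructor
  · have := h1 _ hp0 hp1 (by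
      rw [hchi]
      have h5 : (2 * (d : ℝ)) ^ 4 = (((2 * (d : ℝ)) ^ 4) ^ 3) ^ ((1 : ℝ) / 3) := by
        rw [show (1 : ℝ) / 3 = ((3 : ℕ) : ℝ)⁻¹ by norm_num]
        exact (Real.pow_rpow_inv_natCast (by positivity) (by norm_num)).symm
      rw [h5]
      apply Real.rpow_le_rpow (by positivity) _ (by norm_num)
      have h6 : ((2 * (d : ℝ)) ^ 4) ^ 3 = 1 * (2 * (d : ℝ)) ^ 12 := by ring
      rw [h6]
      exact h3)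
    linarith
  · have := h2 _ hp0 hp1 hchi.le
    linarith

end DDA
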