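import Mathlib

/-!
# DDA: definitions used in the final statement

Bernoulli bond percolation on a simple graph `G` is Mathlib's product measure
`ProbabilityTheory.setBernoulli G.edgeSet p` on sets of edges.
-/

open MeasureTheory ProbabilityTheory

namespace DDA

/-- the nearest neighbour graph of `ℤ^d` -/
def Zd (d : ℕ) : SimpleGraph (Fin d → ℤ) where
  Adj x y := ∑ i, |x i - y i| = 1
  symm := ⟨fun x y h => by
    rw [← h]
    exact Finset.sum_congr rfl (fun i _ => abs_sub_comm _ _)⟩
  loopless := ⟨fun x h => by simp at h⟩

/-- the hypercube `{0,1}^n`: two vertices are adjacent when they differ in exactly one coordinate -/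
def cube (n : ℕ) : SimpleGraph (Fin n → Bool) where
  Adj x y := {i | x i ≠ y i}.ncard = 1
  symm := ⟨fun x y h => by
    rw [← h]
    congr 1
    ext i
    exact ne_comm⟩
  loopless := ⟨fun x h => by simp at h⟩

/-- the open cluster of `x` when `ω` is the set of open edges -/
def cluster {V : Type} (ω : Set (Sym2 V)) (x : V) : Set V :=
  {y | (SimpleGraph.fromEdgeSet ω).Reachable x y}

/-- the probability that the open cluster of `x` is infinite -/
noncomputable def theta {V : Type} (G : SimpleGraph V) (x : V) (p : unitInterval) : ℝ :=
  (setBernoulli G.edgeSet p).real {ω | (cluster ω x).Infinite}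

/-- the expected size of the open cluster of `x` (used for finite graphs) -/
noncomputable def meanCluster {V : Type} (G : SimpleGraph V) (x : V) (p : unitInterval) : ℝ :=
  ∫ ω, ((cluster ω x).ncard : ℝ) ∂(setBernoulli G.edgeSet p)

/-- the critical value of bond percolation on `ℤ^d` -/
noncomputable def pcZ (d : ℕ) : ℝ :=
  sSup {p : ℝ | ∃ h : p ∈ unitInterval, theta (Zd d) 0 ⟨p, h⟩ = 0}

end DDA
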