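import Pool.Agent.DDA.FinalBase
import Pool.Agent.DDA.AsmSharpLow
import Pool.Agent.DDA.AsmSharpUp

open Finset Filter Topology

namespace DDA

/-- the difference of the critical values is `(5/2 + o(1)) / (2d)^4` -/
theorem sharp_limit (pQ : ℕ → unitInterval)
    (hpQ : ∀ n, 1 ≤ n →
      meanCluster (cube n) (fun _ => false) (pQ n) = ((2 : ℝ) ^ n) ^ ((1 : ℝ) / 3)) :
    Tendsto (fun d : ℕ => ((pQ (2 * d) : ℝ) - pcZ d) * (2 * (d : ℝ)) ^ 4) atTop (𝓝 (5 / 2)) := by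
  rw [Metric.tendsto_atTop']
  intro ε hε
  set δ : ℝ := min (ε / 2) 1 with hδ
  have hδ0 : 0 < δ := lt_min (by positivity) one_pos
  have hδ1 : δ ≤ 1 := min_le_right _ _
  have hδε : δ ≤ ε / 2 := min_le_left _ _
  have h := final_base (lower_sharp hδ0 hδ1) (upper_sharp hδ0 hδ1) pQ hpQ
  have h' : ∀ᶠ d : ℕ in atTop, dist (((pQ (2 * d) : ℝ) - pcZ d) * (2 * (d : ℝ)) ^ 4) (5 / 2) < ε := by
    filter_upwards [h, eventually_ge_atTop 1] with d h1 hd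
    have hd' : (0:ℝ) < d := by exact_mod_cast hd
    have hpos : (0:ℝ) < (2 * (d : ℝ)) ^ 4 := by positivity
    obtain ⟨h1, h2⟩ := h1
    rw [div_le_iff₀ hpos] at h1
    rw [le_div_iff₀ hpos] at h2
    rw [Real.dist_eq, abs_lt]
    constructor <;> linarith
  obtain ⟨n, hn⟩ := eventually_atTop.mp h'
  exact ⟨n, fun d hd => hn d (le_of_lt hd)⟩

theorem sharp_final (a b : ℕ → ℝ) (pQ : ℕ → unitInterval)
    (hpQ : ∀ n, 1 ≤ n →
      meanCluster (cube n) (fun _ => false) (pQ n) = ((2 : ℝ) ^ n) ^ ((1 : ℝ) / 3))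
    (ha : ∀ M : ℕ, 1 ≤ M → ∃ C : ℝ, ∀ d : ℕ, 1 ≤ d →
      |pcZ d - ∑ i ∈ Icc 1 M, a i / (2 * (d : ℝ)) ^ i| ≤ C / (d : ℝ) ^ (M + 1))
    (hb : ∀ M : ℕ, 1 ≤ M → ∃ C : ℝ, ∀ n : ℕ, 1 ≤ n →
      |(pQ n : ℝ) - ∑ i ∈ Icc 1 M, b i / (n : ℝ) ^ i| ≤ C / (n : ℝ) ^ (M + 1)) :
    (∀ i, 1 ≤ i → i < 4 → a i = b i) ∧ b 4 = a 4 + 5 / 2 := by
  have hb' : HasExp (fun d => (pQ (2 * d) : ℝ)) b := by
    intro M hM
    obtain ⟨C, hC⟩ := hb M hM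
    refine ⟨|C|, fun d hd => ?_⟩
    have h1 := hC (2 * d) (by omega)
    have hd' : (0:ℝ) < d := by exact_mod_cast hd
    push_cast at h1
    refine h1.trans ?_
    have h2 : C / (2 * (d:ℝ)) ^ (M + 1) ≤ |C| / (2 * (d:ℝ)) ^ (M + 1) := by
      gcongr
      exact le_abs_self _
    refine h2.trans ?_
    gcongr
    linarith
  obtain ⟨h1, h2⟩ := coeffs_lim (x := pcZ) (y := fun d => (pQ (2 * d) : ℝ)) ha hb'
    (sharp_limit pQ hpQ)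
  exact ⟨h1, by linarith⟩

end DDA
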