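import Pool.Agent.DDA.Torus
import Pool.Agent.DDA.FinalDefs

/-!
# DDA: product measures and finite percolation
-/

open Finset MeasureTheory ProbabilityTheory

namespace DDA

/-- probabilities of elementary cylinders -/
theorem setBer_cyl {ι : Type*} [DecidableEq ι] (u : Set ι) (p : unitInterval) {F s : Finset ι}
    (hF : ∀ i ∈ F, i ∈ u) (hs : s ⊆ F) :
    (setBernoulli u p).real {ω | ∀ i ∈ F, (i ∈ ω ↔ i ∈ s)}
      = (p : ℝ) ^ s.card * (1 - (p : ℝ)) ^ (F \ s).card := by
  classical
  have h1 : (setBernoulli u p) {ω | ∀ i ∈ F, (i ∈ ω ↔ i ∈ s)}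
      = ∏ i ∈ F, (if i ∈ s then (unitInterval.toNNReal p : ENNReal)
        else (unitInterval.toNNReal (unitInterval.symm p) : ENNReal)) := by
    rw [setBernoulli_apply']
    have h2 : (fun q : ι → Prop => {i | q i}) ⁻¹' {ω | ∀ i ∈ F, (i ∈ ω ↔ i ∈ s)}
        = Set.pi F (fun i => {(i ∈ s : Prop)}) := by
      ext q
      simp only [Set.mem_preimage, Set.mem_ofPred_eq, Set.mem_pi, Finset.mem_coe,
        Set.mem_singleton_iff, eq_iff_iff]
    rw [h2, Measure.infinitePi_pi _ (by measurability)]
    apply Finset.prod_congr rfl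
    intro i hi
    have hiu : (i ∈ u) = True := eq_true (hF i hi)
    by_cases his : i ∈ s
    · simp [his, hiu]
    · simp [his, hiu]
  rw [measureReal_def, h1, ENNReal.toReal_prod]
  have h3 : ∀ i ∈ F, (if i ∈ s then (unitInterval.toNNReal p : ENNReal)
        else (unitInterval.toNNReal (unitInterval.symm p) : ENNReal)).toReal
      = if i ∈ s then (p : ℝ) else (1 - (p : ℝ)) := by
    intro i _
    split_ifs <;> simp
  rw [Finset.prod_congr rfl h3, Finset.prod_ite, Finset.prod_const, Finset.prod_const]
  congr 2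
  · congr 1
    ext i
    simp only [mem_filter]
    exact ⟨fun h => h.2, fun h => ⟨hs h, h⟩⟩
  · congr 1
    ext i
    simp only [mem_filter, mem_sdiff]

theorem measurable_cyl {ι : Type*} (F s : Finset ι) :
    MeasurableSet {ω : Set ι | ∀ i ∈ F, (i ∈ ω ↔ i ∈ s)} := by
  have : {ω : Set ι | ∀ i ∈ F, (i ∈ ω ↔ i ∈ s)} = ⋂ i ∈ F, {ω : Set ι | i ∈ ω ↔ i ∈ s} := by
    ext ω; simp
  rw [this]
  apply Finset.measurableSet_biInter
  intro i _
  exact (measurableSet_setOfPred.2 (by fun_prop))

open Classical in
/-- events depending on finitely many edges, read through an injective relabelling -/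
theorem setBer_event {ι κ : Type*} [DecidableEq κ] (u : Set ι) (p : unitInterval) (F : Finset κ)
    (ψ : κ → ι) (hψ : Set.InjOn ψ F) (hF : ∀ e ∈ F, ψ e ∈ u) (A : Finset κ → Prop) :
    MeasurableSet {ω : Set ι | A (F.filter (fun e => ψ e ∈ ω))} ∧
    (setBernoulli u p).real {ω | A (F.filter (fun e => ψ e ∈ ω))} = Pr F p A := by
  set Cy : Finset κ → Set (Set ι) := fun s => {ω | ∀ i ∈ F.image ψ, (i ∈ ω ↔ i ∈ s.image ψ)}
    with hCy
  have hmem : ∀ s ∈ F.powerset, ∀ ω : Set ι, ω ∈ Cy s ↔ F.filter (fun e => ψ e ∈ ω) = s := by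
    intro s hs ω
    rw [mem_powerset] at hs
    constructor
    · intro h
      ext e
      rw [mem_filter]
      constructor
      · rintro ⟨heF, he⟩
        have h1 := (h (ψ e) (mem_image_of_mem _ heF)).1 he
        obtain ⟨e', he', h2⟩ := mem_image.1 h1
        have := hψ (hs he') heF h2
        exact this ▸ he'
      · intro he
        exact ⟨hs he, (h (ψ e) (mem_image_of_mem _ (hs he))).2 (mem_image_of_mem _ he)⟩
    · intro h i hi
      obtain ⟨e, heF, rfl⟩ := mem_image.1 hi
      constructor
      · intro he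
        apply mem_image_of_mem
        rw [← h, mem_filter]
        exact ⟨heF, he⟩
      · intro he
        obtain ⟨e', he', h2⟩ := mem_image.1 he
        rw [← h, mem_filter] at he'
        rw [← h2]; exact he'.2
  have hU : {ω : Set ι | A (F.filter (fun e => ψ e ∈ ω))}
      = ⋃ s ∈ F.powerset.filter A, Cy s := by
    ext ω
    simp only [Set.mem_ofPred_eq, Set.mem_iUnion, exists_prop, mem_filter]
    constructor
    · intro h
      exact ⟨F.filter (fun e => ψ e ∈ ω), ⟨mem_powerset.2 (filter_subset _ _), h⟩,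
        (hmem _ (mem_powerset.2 (filter_subset _ _)) ω).2 rfl⟩
    · rintro ⟨s, ⟨hs, hA⟩, hω⟩
      rw [(hmem s hs ω).1 hω]
      exact hA
  have hmeas : ∀ s, MeasurableSet (Cy s) := fun s => measurable_cyl _ _
  refine ⟨?_, ?_⟩
  · rw [hU]
    exact Finset.measurableSet_biUnion _ (fun s _ => hmeas s)
  · rw [hU, measureReal_biUnion_finset]
    · unfold Pr Ex
      rw [Finset.sum_filter]
      apply Finset.sum_congr rfl
      intro s hs
      have hs' := mem_powerset.1 hs
      have h1 : (setBernoulli u p).real (Cy s)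
          = (p : ℝ) ^ s.card * (1 - (p : ℝ)) ^ (F \ s).card := by
        have := setBer_cyl u p (F := F.image ψ) (s := s.image ψ) (fun i hi => by
          obtain ⟨e, he, rfl⟩ := mem_image.1 hi
          exact hF e he) (image_subset_image hs')
        rw [hCy]
        simp only
        rw [this]
        have h2 : (s.image ψ).card = s.card := card_image_of_injOn (hψ.mono (by exact_mod_cast hs'))
        have h3 : (F.image ψ \ s.image ψ).card = (F \ s).card := by
          rw [card_sdiff_of_subset (image_subset_image hs'), card_sdiff_of_subset hs', h2,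
            card_image_of_injOn hψ]
        rw [h2, h3]
      rw [h1]
      by_cases hA : A s <;> simp [hA]
    · intro s hs t ht hst
      have hs' := (mem_filter.1 (mem_coe.1 hs)).1
      have ht' := (mem_filter.1 (mem_coe.1 ht)).1
      rw [Function.onFun, Set.disjoint_left]
      intro ω h1 h2
      exact hst (((hmem s hs' ω).1 h1).symm.trans ((hmem t ht' ω).1 h2))
    · exact fun s _ => hmeas s

end DDA
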