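import Mathlib

/-!
# DDA: Bernoulli percolation on a finite edge set

`Ex F p f` is the expectation of `f ω` when every edge of the finite set `F` is open (belongs to
`ω`) independently with probability `p`.
-/

open Finset

namespace DDA

set_option linter.unusedSectionVars false

variable {E : Type*} [DecidableEq E]

/-- Expectation of `f` under Bernoulli(p) percolation on the finite edge set `F`. -/
noncomputable def Ex (F : Finset E) (p : ℝ) (f : Finset E → ℝ) : ℝ :=
  ∑ ω ∈ F.powerset, p ^ ω.card * (1 - p) ^ (F \ ω).card * f ω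

open Classical in
/-- Probability of the event `A`. -/
noncomputable def Pr (F : Finset E) (p : ℝ) (A : Finset E → Prop) : ℝ :=
  Ex F p (fun ω => if A ω then 1 else 0)

lemma Ex_empty (p : ℝ) (f : Finset E → ℝ) : Ex ∅ p f = f ∅ := by
  simp [Ex]

lemma Ex_insert {e : E} {F : Finset E} (he : e ∉ F) (p : ℝ) (f : Finset E → ℝ) :
    Ex (insert e F) p f = p * Ex F p (fun ω => f (insert e ω)) + (1 - p) * Ex F p f := by
  unfold Ex
  rw [sum_powerset_insert he, add_comm, mul_sum, mul_sum]
  congr 1
  · apply sum_congr rfl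
    intro ω hω
    have hω' : e ∉ ω := fun h => he (mem_powerset.mp hω h)
    have h1 : insert e F \ insert e ω = F \ ω := by
      ext a
      simp only [mem_sdiff, mem_insert]
      constructor
      · rintro ⟨h1 | h1, h2⟩
        · exact absurd (Or.inl h1) h2
        · exact ⟨h1, fun h => h2 (Or.inr h)⟩
      · rintro ⟨h1, h2⟩
        refine ⟨Or.inr h1, ?_⟩
        rintro (h | h)
        · exact he (h ▸ h1)
        · exact h2 h
    rw [h1, card_insert_of_notMem hω', pow_succ]
    ring
  · apply sum_congr rfl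
    intro ω hω
    have hω' : e ∉ ω := fun h => he (mem_powerset.mp hω h)
    have h1 : insert e F \ ω = insert e (F \ ω) := by
      rw [insert_sdiff_of_notMem _ hω']
    have h2 : e ∉ F \ ω := fun h => he (mem_sdiff.mp h).1
    rw [h1, card_insert_of_notMem h2, pow_succ]
    ring

lemma Ex_congr {F : Finset E} {p : ℝ} {f g : Finset E → ℝ} (h : ∀ ω ⊆ F, f ω = g ω) :
    Ex F p f = Ex F p g := by
  unfold Ex
  apply sum_congr rfl
  intro ω hω
  rw [h ω (mem_powerset.mp hω)]

lemma Ex_add (F : Finset E) (p : ℝ) (f g : Finset E → ℝ) :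
    Ex F p (fun ω => f ω + g ω) = Ex F p f + Ex F p g := by
  unfold Ex
  rw [← sum_add_distrib]
  apply sum_congr rfl
  intros
  ring

lemma Ex_sub (F : Finset E) (p : ℝ) (f g : Finset E → ℝ) :
    Ex F p (fun ω => f ω - g ω) = Ex F p f - Ex F p g := by
  unfold Ex
  rw [← sum_sub_distrib]
  apply sum_congr rfl
  intros
  ring

lemma Ex_mul_left (F : Finset E) (p c : ℝ) (f : Finset E → ℝ) :
    Ex F p (fun ω => c * f ω) = c * Ex F p f := by
  unfold Ex
  rw [mul_sum]
  apply sum_congr rfl
  intros
  ring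

lemma Ex_mul_right (F : Finset E) (p c : ℝ) (f : Finset E → ℝ) :
    Ex F p (fun ω => f ω * c) = Ex F p f * c := by
  rw [mul_comm, ← Ex_mul_left]
  simp only [mul_comm]

lemma Ex_sum {ι : Type*} (s : Finset ι) (F : Finset E) (p : ℝ) (f : ι → Finset E → ℝ) :
    Ex F p (fun ω => ∑ i ∈ s, f i ω) = ∑ i ∈ s, Ex F p (f i) := by
  unfold Ex
  rw [sum_comm]
  apply sum_congr rfl
  intros
  rw [mul_sum]

lemma Ex_one (F : Finset E) (p : ℝ) : Ex F p (fun _ => 1) = 1 := by
  induction F using Finset.induction_on with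
  | empty => simp [Ex_empty]
  | insert e F he ih =>
    rw [Ex_insert he, ih]
    ring

lemma Ex_const (F : Finset E) (p c : ℝ) : Ex F p (fun _ => c) = c := by
  have := Ex_mul_left F p c (fun _ => 1)
  rw [Ex_one] at this
  simpa using this

lemma Ex_mono {F : Finset E} {p : ℝ} (hp0 : 0 ≤ p) (hp1 : p ≤ 1) {f g : Finset E → ℝ}
    (h : ∀ ω ⊆ F, f ω ≤ g ω) : Ex F p f ≤ Ex F p g := by
  unfold Ex
  apply sum_le_sum
  intro ω hω
  apply mul_le_mul_of_nonneg_left (h ω (mem_powerset.mp hω))
  have : 0 ≤ 1 - p := by linarith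
  positivity

lemma Ex_nonneg {F : Finset E} {p : ℝ} (hp0 : 0 ≤ p) (hp1 : p ≤ 1) {f : Finset E → ℝ}
    (h : ∀ ω ⊆ F, 0 ≤ f ω) : 0 ≤ Ex F p f := by
  have := Ex_mono hp0 hp1 (f := fun _ => 0) (g := f) (F := F) h
  rwa [Ex_const] at this

lemma Ex_le {F : Finset E} {p : ℝ} (hp0 : 0 ≤ p) (hp1 : p ≤ 1) {f : Finset E → ℝ} {c : ℝ}
    (h : ∀ ω ⊆ F, f ω ≤ c) : Ex F p f ≤ c := by
  have := Ex_mono hp0 hp1 (f := f) (g := fun _ => c) (F := F) h
  rwa [Ex_const] at this

lemma le_Ex {F : Finset E} {p : ℝ} (hp0 : 0 ≤ p) (hp1 : p ≤ 1) {f : Finset E → ℝ} {c : ℝ}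
    (h : ∀ ω ⊆ F, c ≤ f ω) : c ≤ Ex F p f := by
  have := Ex_mono hp0 hp1 (f := fun _ => c) (g := f) (F := F) h
  rwa [Ex_const] at this

/-- An expectation over `F` of a function which only looks at the edges in `A`. -/
lemma Ex_restrict {F A : Finset E} {p : ℝ} {f : Finset E → ℝ}
    (h : ∀ ω ⊆ F, f ω = f (ω ∩ A)) : Ex F p f = Ex (F ∩ A) p f := by
  induction F using Finset.induction_on generalizing f with
  | empty => simp
  | insert e F he ih =>
    have hF : ∀ ω ⊆ F, ω ⊆ insert e F := fun ω hω => hω.trans (subset_insert _ _)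
    by_cases heA : e ∈ A
    · have h1 : insert e F ∩ A = insert e (F ∩ A) := insert_inter_of_mem heA
      have h2 : e ∉ F ∩ A := fun h' => he (mem_inter.mp h').1
      rw [h1, Ex_insert he, Ex_insert h2, ih (fun ω hω => h ω (hF ω hω)), ih]
      intro ω hω
      rw [h _ (insert_subset_insert _ hω), insert_inter_of_mem heA]
    · have h1 : insert e F ∩ A = F ∩ A := insert_inter_of_notMem heA
      rw [h1, Ex_insert he, ← ih (fun ω hω => h ω (hF ω hω))]
      have : Ex F p (fun ω => f (insert e ω)) = Ex F p f := by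
        apply Ex_congr
        intro ω hω
        rw [h _ (insert_subset_insert _ hω), insert_inter_of_notMem heA, ← h ω (hF ω hω)]
      rw [this]
      ring

/-- Functions of the edges in two disjoint sets are independent. -/
lemma Ex_indep {F A B : Finset E} {p : ℝ} {f g : Finset E → ℝ} (hAB : Disjoint A B)
    (hf : ∀ ω ⊆ F, f ω = f (ω ∩ A)) (hg : ∀ ω ⊆ F, g ω = g (ω ∩ B)) :
    Ex F p (fun ω => f ω * g ω) = Ex F p f * Ex F p g := by
  induction F using Finset.induction_on generalizing f g with
  | empty => simp [Ex_empty]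
  | insert e F he ih =>
    have hF : ∀ ω ⊆ F, ω ⊆ insert e F := fun ω hω => hω.trans (subset_insert _ _)
    rw [Ex_insert he, Ex_insert he, Ex_insert he]
    by_cases heA : e ∈ A
    · have heB : e ∉ B := fun h => (Finset.disjoint_left.mp hAB heA h)
      have hg' : ∀ ω ⊆ F, g (insert e ω) = g ω := by
        intro ω hω
        rw [hg _ (insert_subset_insert _ hω), insert_inter_of_notMem heB, ← hg ω (hF ω hω)]
      have e1 : Ex F p (fun ω => f (insert e ω) * g (insert e ω))
          = Ex F p (fun ω => f (insert e ω)) * Ex F p g := by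
        rw [Ex_congr (g := fun ω => f (insert e ω) * g ω) (fun ω hω => by rw [hg' ω hω])]
        apply ih (f := fun ω => f (insert e ω))
        · intro ω hω
          rw [h_aux hf hω heA]
        · exact fun ω hω => hg ω (hF ω hω)
      have e2 : Ex F p (fun ω => f ω * g ω) = Ex F p f * Ex F p g :=
        ih (fun ω hω => hf ω (hF ω hω)) (fun ω hω => hg ω (hF ω hω))
      have e3 : Ex F p (fun ω => g (insert e ω)) = Ex F p g := Ex_congr hg'
      rw [e1, e2, e3]
      ring
    · have hf' : ∀ ω ⊆ F, f (insert e ω) = f ω := by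
        intro ω hω
        rw [hf _ (insert_subset_insert _ hω), insert_inter_of_notMem heA, ← hf ω (hF ω hω)]
      have e2 : Ex F p (fun ω => f ω * g ω) = Ex F p f * Ex F p g :=
        ih (fun ω hω => hf ω (hF ω hω)) (fun ω hω => hg ω (hF ω hω))
      have e3 : Ex F p (fun ω => f (insert e ω)) = Ex F p f := Ex_congr hf'
      have e1 : Ex F p (fun ω => f (insert e ω) * g (insert e ω))
          = Ex F p f * Ex F p (fun ω => g (insert e ω)) := by
        rw [Ex_congr (g := fun ω => f ω * g (insert e ω)) (fun ω hω => by rw [hf' ω hω])]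
        by_cases heB : e ∈ B
        · apply ih (g := fun ω => g (insert e ω))
          · exact fun ω hω => hf ω (hF ω hω)
          · intro ω hω
            rw [h_aux hg hω heB]
        · have hg' : ∀ ω ⊆ F, g (insert e ω) = g ω := by
            intro ω hω
            rw [hg _ (insert_subset_insert _ hω), insert_inter_of_notMem heB, ← hg ω (hF ω hω)]
          rw [Ex_congr (g := fun ω => f ω * g ω) (fun ω hω => by rw [hg' ω hω]), e2,
            Ex_congr (f := fun ω => g (insert e ω)) (g := g) hg']
      rw [e1, e2, e3]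
      ring
where
  h_aux {F A : Finset E} {e : E} {f : Finset E → ℝ} (hf : ∀ ω ⊆ insert e F, f ω = f (ω ∩ A))
      {ω : Finset E} (hω : ω ⊆ F) (heA : e ∈ A) : f (insert e ω) = f (insert e (ω ∩ A)) := by
    rw [hf _ (insert_subset_insert _ hω), insert_inter_of_mem heA]

/-- Conditioning on the state of one edge. -/
lemma Ex_edge {F : Finset E} {e : E} (he : e ∈ F) (p : ℝ) (f : Finset E → ℝ) :
    Ex F p f = p * Ex F p (fun ω => f (insert e ω)) + (1 - p) * Ex F p (fun ω => f (ω.erase e)) := by
  obtain ⟨F', he', rfl⟩ : ∃ F', e ∉ F' ∧ insert e F' = F :=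
    ⟨F.erase e, notMem_erase _ _, insert_erase he⟩
  rw [Ex_insert he', Ex_insert he', Ex_insert he']
  have h1 : Ex F' p (fun ω => f (insert e (insert e ω))) = Ex F' p (fun ω => f (insert e ω)) := by
    simp
  have h2 : Ex F' p (fun ω => f ((insert e ω).erase e)) = Ex F' p f := by
    apply Ex_congr
    intro ω hω
    rw [erase_insert (fun h => he' (hω h))]
  have h3 : Ex F' p (fun ω => f (ω.erase e)) = Ex F' p f := by
    apply Ex_congr
    intro ω hω
    rw [erase_eq_of_notMem (fun h => he' (hω h))]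
  rw [h1, h2, h3]
  ring

/-- Russo's formula. -/
theorem Ex_hasDerivAt (F : Finset E) (f : Finset E → ℝ) (p : ℝ) :
    HasDerivAt (fun p => Ex F p f)
      (∑ e ∈ F, Ex F p (fun ω => f (insert e ω) - f (ω.erase e))) p := by
  induction F using Finset.induction_on generalizing f with
  | empty => simpa [Ex_empty] using hasDerivAt_const p (f ∅)
  | insert e F he ih =>
    have h1 := ih (fun ω => f (insert e ω))
    have h2 := ih f
    have h3 : HasDerivAt (fun p => p * Ex F p (fun ω => f (insert e ω)) + (1 - p) * Ex F p f)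
        ((1 * Ex F p (fun ω => f (insert e ω)) + p * (∑ e' ∈ F, Ex F p (fun ω =>
          f (insert e (insert e' ω)) - f (insert e (ω.erase e')))))
          + ((0 - 1) * Ex F p f + (1 - p) * ∑ e' ∈ F, Ex F p (fun ω => f (insert e' ω)
            - f (ω.erase e')))) p := by
      apply HasDerivAt.add
      · exact (hasDerivAt_id p).mul h1
      · exact ((hasDerivAt_const p (1:ℝ)).sub (hasDerivAt_id p)).mul h2
    have h4 : (fun p => Ex (insert e F) p f)
        = (fun p => p * Ex F p (fun ω => f (insert e ω)) + (1 - p) * Ex F p f) := by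
      funext p
      exact Ex_insert he p f
    rw [h4]
    convert h3 using 1
    rw [sum_insert he]
    have h5 : Ex (insert e F) p (fun ω => f (insert e ω) - f (ω.erase e))
        = Ex F p (fun ω => f (insert e ω)) - Ex F p f := by
      rw [Ex_insert he, Ex_sub, Ex_sub]
      have a1 : Ex F p (fun ω => f (insert e (insert e ω))) = Ex F p (fun ω => f (insert e ω)) := by
        simp
      have a2 : Ex F p (fun ω => f ((insert e ω).erase e)) = Ex F p f := by
        apply Ex_congr
        intro ω hω
        rw [erase_insert (fun h => he (hω h))]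
      have a3 : Ex F p (fun ω => f (ω.erase e)) = Ex F p f := by
        apply Ex_congr
        intro ω hω
        rw [erase_eq_of_notMem (fun h => he (hω h))]
      rw [a1, a2, a3]
      ring
    rw [h5]
    have h6 : ∀ e' ∈ F, Ex (insert e F) p (fun ω => f (insert e' ω) - f (ω.erase e'))
        = p * Ex F p (fun ω => f (insert e (insert e' ω)) - f (insert e (ω.erase e')))
          + (1 - p) * Ex F p (fun ω => f (insert e' ω) - f (ω.erase e')) := by
      intro e' he'
      rw [Ex_insert he]
      congr 2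
      apply Ex_congr
      intro ω hω
      have hne : e ≠ e' := fun h => he (h ▸ he')
      rw [insert_comm e' e, erase_insert_of_ne hne]
    rw [sum_congr rfl h6, sum_add_distrib, ← mul_sum, ← mul_sum]
    ring

lemma Ex_continuous (F : Finset E) (f : Finset E → ℝ) : Continuous (fun p => Ex F p f) := by
  unfold Ex
  fun_prop

/-- Monotonicity in `p` for increasing functions. -/
theorem Ex_mono_p {F : Finset E} {f : Finset E → ℝ} (hf : ∀ ω ω', ω ⊆ ω' → f ω ≤ f ω')
    {p q : ℝ} (hp0 : 0 ≤ p) (hpq : p ≤ q) (hq1 : q ≤ 1) : Ex F p f ≤ Ex F q f := by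
  induction F using Finset.induction_on generalizing f with
  | empty => simp [Ex_empty]
  | insert e F he ih =>
    rw [Ex_insert he, Ex_insert he]
    have h1 := ih (f := fun ω => f (insert e ω)) (fun ω ω' h => hf _ _ (insert_subset_insert _ h))
    have h2 := ih hf
    have h3 : Ex F p f ≤ Ex F p (fun ω => f (insert e ω)) :=
      Ex_mono hp0 (hpq.trans hq1) (fun ω _ => hf _ _ (subset_insert _ _))
    nlinarith

/-- Sprinkling: the union of two independent configurations. -/
theorem Ex_sprinkle (F : Finset E) (f : Finset E → ℝ) (p q : ℝ) :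
    Ex F p (fun ω => Ex F q (fun η => f (ω ∪ η))) = Ex F (1 - (1 - p) * (1 - q)) f := by
  induction F using Finset.induction_on generalizing f with
  | empty => simp [Ex_empty]
  | insert e F he ih =>
    have h0 : (fun ω => Ex (insert e F) q (fun η => f (ω ∪ η)))
        = (fun ω => q * Ex F q (fun η => f (insert e (ω ∪ η)))
          + (1 - q) * Ex F q (fun η => f (ω ∪ η))) := by
      funext ω
      rw [Ex_insert he]
      simp only [union_insert]
    have h1 : (fun ω => Ex (insert e F) q (fun η => f (insert e ω ∪ η)))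
        = (fun ω => Ex F q (fun η => f (insert e (ω ∪ η)))) := by
      funext ω
      rw [Ex_insert he]
      simp only [union_insert, insert_union, insert_idem]
      ring
    rw [Ex_insert he, Ex_insert he, h1, h0, Ex_add, Ex_mul_left, Ex_mul_left,
      ih (fun ω => f (insert e ω)), ih f]
    ring

section BK

/-- `A` and `B` occur on disjoint sets of open edges. -/
def Disj (A B : Finset E → Prop) (ω : Finset E) : Prop :=
  ∃ I J : Finset E, I ⊆ ω ∧ J ⊆ ω ∧ Disjoint I J ∧ A I ∧ B J

/-- `A` is an increasing event. -/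
def Incr (A : Finset E → Prop) : Prop := ∀ ω ω', ω ⊆ ω' → A ω → A ω'

lemma Disj_incr (A B : Finset E → Prop) : Incr (Disj A B) := by
  rintro ω ω' h ⟨I, J, hI, hJ, hd, hA, hB⟩
  exact ⟨I, J, hI.trans h, hJ.trans h, hd, hA, hB⟩

lemma Pr_nonneg {F : Finset E} {p : ℝ} (hp0 : 0 ≤ p) (hp1 : p ≤ 1) (A : Finset E → Prop) :
    0 ≤ Pr F p A := Ex_nonneg hp0 hp1 (fun ω _ => by split_ifs <;> norm_num)

lemma Pr_le_one {F : Finset E} {p : ℝ} (hp0 : 0 ≤ p) (hp1 : p ≤ 1) (A : Finset E → Prop) :
    Pr F p A ≤ 1 := Ex_le hp0 hp1 (fun ω _ => by split_ifs <;> norm_num)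

lemma Pr_mono {F : Finset E} {p : ℝ} (hp0 : 0 ≤ p) (hp1 : p ≤ 1) {A B : Finset E → Prop}
    (h : ∀ ω ⊆ F, A ω → B ω) : Pr F p A ≤ Pr F p B := by
  classical
  apply Ex_mono hp0 hp1
  intro ω hω
  by_cases hA : A ω
  · simp [hA, h ω hω hA]
  · by_cases hB : B ω <;> simp [hA, hB]

lemma Pr_congr {F : Finset E} {p : ℝ} {A B : Finset E → Prop}
    (h : ∀ ω ⊆ F, A ω ↔ B ω) : Pr F p A = Pr F p B := by
  classical
  apply Ex_congr
  intro ω hω
  simp [h ω hω]

lemma Pr_insert {e : E} {F : Finset E} (he : e ∉ F) (p : ℝ) (A : Finset E → Prop) :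
    Pr (insert e F) p A = p * Pr F p (fun ω => A (insert e ω)) + (1 - p) * Pr F p A := by
  unfold Pr
  rw [Ex_insert he]

lemma Pr_or_add_and (F : Finset E) (p : ℝ) (A B : Finset E → Prop) :
    Pr F p (fun ω => A ω ∨ B ω) + Pr F p (fun ω => A ω ∧ B ω) = Pr F p A + Pr F p B := by
  classical
  unfold Pr
  rw [← Ex_add, ← Ex_add]
  apply Ex_congr
  intro ω _
  by_cases hA : A ω <;> by_cases hB : B ω <;> simp [hA, hB]

/-- **van den Berg–Kesten inequality** for increasing events and `p ≤ 1/2`. -/
theorem BK {F : Finset E} {p : ℝ} (hp0 : 0 ≤ p) (hp1 : p ≤ 1 / 2) {A B : Finset E → Prop}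
    (hA : Incr A) (hB : Incr B) : Pr F p (Disj A B) ≤ Pr F p A * Pr F p B := by
  classical
  induction F using Finset.induction_on generalizing A B with
  | empty =>
    have h1 : Pr ∅ p (Disj A B) = if A ∅ ∧ B ∅ then 1 else 0 := by
      unfold Pr
      rw [Ex_empty]
      congr 1
      simp only [Disj, eq_iff_iff]
      constructor
      · rintro ⟨I, J, hI, hJ, _, hA', hB'⟩
        rw [subset_empty] at hI hJ
        subst hI hJ
        exact ⟨hA', hB'⟩
      · rintro ⟨hA', hB'⟩
        exact ⟨∅, ∅, Subset.refl _, Subset.refl _, disjoint_empty_left _, hA', hB'⟩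
    have h2 : Pr ∅ p A = if A ∅ then 1 else 0 := by
      unfold Pr
      rw [Ex_empty]
    have h3 : Pr ∅ p B = if B ∅ then 1 else 0 := by
      unfold Pr
      rw [Ex_empty]
    rw [h1, h2, h3]
    by_cases hA' : A ∅ <;> by_cases hB' : B ∅ <;> simp [hA', hB']
  | insert e F he ih =>
    have hpp : p ≤ 1 := by linarith
    set A1 : Finset E → Prop := fun ω => A (insert e ω) with hA1
    set B1 : Finset E → Prop := fun ω => B (insert e ω) with hB1
    have iA1 : Incr A1 := fun ω ω' h => hA _ _ (insert_subset_insert _ h)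
    have iB1 : Incr B1 := fun ω ω' h => hB _ _ (insert_subset_insert _ h)
    have hAA1 : ∀ ω, A ω → A1 ω := fun ω h => hA _ _ (subset_insert _ _) h
    have hBB1 : ∀ ω, B ω → B1 ω := fun ω h => hB _ _ (subset_insert _ _) h
    -- section of the disjoint occurrence
    have hsec : Pr F p (fun ω => Disj A B (insert e ω))
        ≤ Pr F p (fun ω => Disj A1 B ω ∨ Disj A B1 ω) := by
      apply Pr_mono hp0 hpp
      rintro ω hω ⟨I, J, hI, hJ, hd, hAI, hBJ⟩
      by_cases heI : e ∈ I
      · left
        have heJ : e ∉ J := fun h => Finset.disjoint_left.mp hd heI h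
        refine ⟨I.erase e, J, ?_, ?_, ?_, ?_, hBJ⟩
        · intro a ha
          rcases mem_insert.mp (hI (mem_of_mem_erase ha)) with h | h
          · exact absurd h (ne_of_mem_erase ha)
          · exact h
        · intro a ha
          rcases mem_insert.mp (hJ ha) with h | h
          · exact absurd (h ▸ ha) heJ
          · exact h
        · exact Finset.disjoint_of_subset_left (erase_subset _ _) hd
        · rw [hA1]
          simp only [insert_erase heI]
          exact hAI
      · right
        refine ⟨I, J.erase e, ?_, ?_, ?_, hAI, ?_⟩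
        · intro a ha
          rcases mem_insert.mp (hI ha) with h | h
          · exact absurd (h ▸ ha) heI
          · exact h
        · intro a ha
          rcases mem_insert.mp (hJ (mem_of_mem_erase ha)) with h | h
          · exact absurd h (ne_of_mem_erase ha)
          · exact h
        · exact Finset.disjoint_of_subset_right (erase_subset _ _) hd
        · rw [hB1]
          simp only
          exact hB _ _ (by
            intro a ha
            by_cases h : a = e
            · exact mem_insert.mpr (Or.inl h)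
            · exact mem_insert.mpr (Or.inr (mem_erase.mpr ⟨h, ha⟩))) hBJ
    have hor := Pr_or_add_and F p (Disj A1 B) (Disj A B1)
    have hand : Pr F p (Disj A B) ≤ Pr F p (fun ω => Disj A1 B ω ∧ Disj A B1 ω) := by
      apply Pr_mono hp0 hpp
      rintro ω hω ⟨I, J, hI, hJ, hd, hAI, hBJ⟩
      exact ⟨⟨I, J, hI, hJ, hd, hAA1 _ hAI, hBJ⟩, ⟨I, J, hI, hJ, hd, hAI, hBB1 _ hBJ⟩⟩
    have i1 := ih iA1 hB
    have i2 := ih hA iB1
    have i3 := ih hA hB
    have m1 : Pr F p A ≤ Pr F p A1 := Pr_mono hp0 hpp (fun ω _ => hAA1 ω)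
    have m2 : Pr F p B ≤ Pr F p B1 := Pr_mono hp0 hpp (fun ω _ => hBB1 ω)
    have n1 : 0 ≤ Pr F p (Disj A B) := Pr_nonneg hp0 hpp _
    rw [Pr_insert he, Pr_insert he, Pr_insert he]
    have key : p * Pr F p (fun ω => Disj A B (insert e ω)) + (1 - p) * Pr F p (Disj A B)
        ≤ p * (Pr F p A1 * Pr F p B + Pr F p A * Pr F p B1 - Pr F p (Disj A B))
          + (1 - p) * Pr F p (Disj A B) := by
      gcongr
      linarith
    have h2p : 0 ≤ 1 - 2 * p := by linarith
    nlinarith [mul_nonneg hp0 hp0, mul_nonneg (sub_nonneg.mpr m1) (sub_nonneg.mpr m2),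
      mul_nonneg (mul_nonneg hp0 hp0) (mul_nonneg (sub_nonneg.mpr m1) (sub_nonneg.mpr m2)),
      mul_le_mul_of_nonneg_left i3 h2p]

end BK

end DDA
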