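import Pool.Agent.DDA.Tree

/-!
# DDA: two-point functions on a general labelled graph
-/

open Finset

namespace DDA

set_option linter.unusedSectionVars false

variable {V E : Type*} [DecidableEq V] [DecidableEq E]

lemma Pr_sum_le {ι : Type*} {F : Finset E} {p : ℝ} (hp0 : 0 ≤ p) (hp1 : p ≤ 1) (s : Finset ι)
    {A : Finset E → Prop} (B : ι → Finset E → Prop) (h : ∀ ω ⊆ F, A ω → ∃ i ∈ s, B i ω) :
    Pr F p A ≤ ∑ i ∈ s, Pr F p (B i) := by
  classical
  unfold Pr
  rw [← Ex_sum]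
  apply Ex_mono hp0 hp1
  intro ω hω
  by_cases hA : A ω
  · obtain ⟨i, hi, hB⟩ := h ω hω hA
    simp only [hA, if_true]
    calc (1:ℝ) = if B i ω then 1 else 0 := by simp [hB]
      _ ≤ _ := single_le_sum (f := fun i => if B i ω then (1:ℝ) else 0)
        (fun j _ => by split_ifs <;> norm_num) hi
  · simp only [hA, if_false]
    exact sum_nonneg (fun j _ => by split_ifs <;> norm_num)

/-- independence of events -/
lemma Pr_indep {F A B : Finset E} {p : ℝ} {P Q : Finset E → Prop} (hAB : Disjoint A B)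
    (hP : ∀ ω ⊆ F, P ω ↔ P (ω ∩ A)) (hQ : ∀ ω ⊆ F, Q ω ↔ Q (ω ∩ B)) :
    Pr F p (fun ω => P ω ∧ Q ω) = Pr F p P * Pr F p Q := by
  classical
  unfold Pr
  rw [← Ex_indep hAB (f := fun ω => if P ω then (1:ℝ) else 0)
    (g := fun ω => if Q ω then (1:ℝ) else 0)]
  · apply Ex_congr
    intro ω _
    by_cases h1 : P ω <;> by_cases h2 : Q ω <;> simp [h1, h2]
  · intro ω hω
    simp only [hP ω hω]
  · intro ω hω
    simp only [hQ ω hω]

lemma Pr_mem {F : Finset E} {e : E} (he : e ∈ F) (p : ℝ) : Pr F p (fun ω => e ∈ ω) = p := by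
  classical
  unfold Pr
  rw [Ex_edge he]
  simp [Ex_const]

lemma Pr_notMem {F : Finset E} {e : E} (he : e ∈ F) (p : ℝ) :
    Pr F p (fun ω => e ∉ ω) = 1 - p := by
  classical
  unfold Pr
  rw [Ex_edge he]
  simp [Ex_const]

namespace LG

variable (G : LG V E)

/-- two-point function inside `S` with at most `k` steps -/
noncomputable def tau (F : Finset E) (p : ℝ) (S : Finset V) (k : ℕ) (x y : V) : ℝ :=
  Pr F p (G.Re S k x y)

/-- expected volume of the ball of radius `k` around `x` inside `S` -/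
noncomputable def bex (F : Finset E) (p : ℝ) (S : Finset V) (k : ℕ) (x : V) : ℝ :=
  Ex F p (fun ω => ((G.ball S ω x k).card : ℝ))

variable {G} {F : Finset E} {p : ℝ} {S : Finset V} {k : ℕ}

lemma tau_nonneg (hp0 : 0 ≤ p) (hp1 : p ≤ 1) (x y : V) : 0 ≤ G.tau F p S k x y :=
  Pr_nonneg hp0 hp1 _

lemma tau_le_one (hp0 : 0 ≤ p) (hp1 : p ≤ 1) (x y : V) : G.tau F p S k x y ≤ 1 :=
  Pr_le_one hp0 hp1 _

lemma tau_comm (x y : V) : G.tau F p S k x y = G.tau F p S k y x :=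
  Pr_congr (fun _ _ => mem_ball_comm)

lemma tau_mono (hp0 : 0 ≤ p) (hp1 : p ≤ 1) {S' : Finset V} (hS : S ⊆ S') {l : ℕ} (hk : k ≤ l)
    (x y : V) : G.tau F p S k x y ≤ G.tau F p S' l x y :=
  Pr_mono hp0 hp1 (fun _ _ h => ball_mono hS (Subset.refl _) (ball_mono_k hk h))

lemma tau_mono_p {q : ℝ} (hp0 : 0 ≤ p) (hpq : p ≤ q) (hq1 : q ≤ 1) (x y : V) :
    G.tau F p S k x y ≤ G.tau F q S k x y := by
  classical
  apply Ex_mono_p _ hp0 hpq hq1
  intro ω ω' h
  by_cases h1 : G.Re S k x y ω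
  · simp [h1, Re_incr S k x y ω ω' h h1]
  · simp only [h1, if_false]
    split_ifs <;> norm_num

lemma tau_self {x : V} (hx : x ∈ S) : G.tau F p S k x x = 1 := by
  classical
  unfold tau Pr
  have : ∀ ω, G.Re S k x x ω := fun ω => self_mem_ball hx
  simp [this, Ex_const]

lemma tau_eq_zero_left {x y : V} (hx : x ∉ S) : G.tau F p S k x y = 0 := by
  classical
  unfold tau Pr
  have : ∀ ω, ¬ G.Re S k x y ω := fun ω h => hx (base_mem_of_mem h)
  simp [this, Ex_const]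

lemma tau_eq_zero_right {x y : V} (hy : y ∉ S) : G.tau F p S k x y = 0 := by
  rw [tau_comm, tau_eq_zero_left hy]

lemma bex_eq_sum (x : V) : G.bex F p S k x = ∑ y ∈ S, G.tau F p S k x y := by
  classical
  unfold bex tau Pr
  rw [← Ex_sum]
  apply Ex_congr
  intro ω _
  have h1 : G.ball S ω x k = S.filter (fun y => y ∈ G.ball S ω x k) := by
    ext y
    rw [mem_filter]
    exact ⟨fun h => ⟨ball_subset h, h⟩, fun h => h.2⟩
  rw [h1, card_filter]
  push_cast
  apply sum_congr rfl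
  intro y _
  by_cases h : y ∈ G.ball S ω x k <;> simp [Re, h]

lemma bex_mono_p {q : ℝ} (hp0 : 0 ≤ p) (hpq : p ≤ q) (hq1 : q ≤ 1) (x : V) :
    G.bex F p S k x ≤ G.bex F q S k x := by
  apply Ex_mono_p _ hp0 hpq hq1
  intro ω ω' h
  have := card_le_card (ball_mono (G := G) (x := x) (k := k) (Subset.refl S) h)
  exact_mod_cast this

lemma bex_mono (hp0 : 0 ≤ p) (hp1 : p ≤ 1) {S' : Finset V} (hS : S ⊆ S') {l : ℕ} (hk : k ≤ l)
    (x : V) : G.bex F p S k x ≤ G.bex F p S' l x := by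
  apply Ex_mono hp0 hp1
  intro ω _
  have := card_le_card ((ball_mono (G := G) (x := x) (k := k) hS (Subset.refl ω)).trans
    (ball_mono_k hk))
  exact_mod_cast this

/-- **tree-graph bound** -/
theorem tree_graph (hG : ∀ e, G.s e ≠ G.t e) (hp0 : 0 ≤ p) (hp1 : p ≤ 1 / 2) {l : ℕ} (x y z : V) :
    Pr F p (fun ω => y ∈ G.ball S ω x k ∧ z ∈ G.ball S ω x l)
      ≤ ∑ w ∈ S, G.tau F p S k x w * G.tau F p S k w y * G.tau F p S l w z := by
  have hpp : p ≤ 1 := by linarith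
  calc Pr F p (fun ω => y ∈ G.ball S ω x k ∧ z ∈ G.ball S ω x l)
      ≤ ∑ w ∈ S, Pr F p (Disj (Disj (G.Re S k x w) (G.Re S k w y)) (G.Re S l w z)) :=
        Pr_sum_le hp0 hpp S _ (fun ω _ h => three_point hG h.1 h.2)
    _ ≤ ∑ w ∈ S, G.tau F p S k x w * G.tau F p S k w y * G.tau F p S l w z := by
        apply sum_le_sum
        intro w _
        calc _ ≤ Pr F p (Disj (G.Re S k x w) (G.Re S k w y)) * Pr F p (G.Re S l w z) :=
              BK hp0 hp1 (Disj_incr _ _) (Re_incr _ _ _ _)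
          _ ≤ _ := by
              apply mul_le_mul_of_nonneg_right _ (Pr_nonneg hp0 hpp _)
              exact BK hp0 hp1 (Re_incr _ _ _ _) (Re_incr _ _ _ _)

/-- connections destroyed by the removal of `A` -/
theorem through_bound (hp0 : 0 ≤ p) (hp1 : p ≤ 1 / 2) (A : Finset V) (x z : V) :
    G.tau F p S k x z ≤ G.tau F p (S \ A) k x z
      + ∑ a ∈ A ∩ S, G.tau F p S k x a * G.tau F p S k a z := by
  classical
  have hpp : p ≤ 1 := by linarith
  have h1 : G.tau F p S k x z ≤ G.tau F p (S \ A) k x z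
      + Pr F p (fun ω => z ∈ G.ball S ω x k ∧ z ∉ G.ball (S \ A) ω x k) := by
    unfold tau Pr
    rw [← Ex_add]
    apply Ex_mono hp0 hpp
    intro ω _
    simp only [Re]
    by_cases h1 : z ∈ G.ball S ω x k <;> by_cases h2 : z ∈ G.ball (S \ A) ω x k <;> simp [h1, h2]
  refine h1.trans ?_
  gcongr
  calc Pr F p (fun ω => z ∈ G.ball S ω x k ∧ z ∉ G.ball (S \ A) ω x k)
      ≤ ∑ a ∈ A ∩ S, Pr F p (Disj (G.Re S k x a) (G.Re S k a z)) := by
        apply Pr_sum_le hp0 hpp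
        intro ω _ h
        obtain ⟨a, ha, haS, hd⟩ := through h.1 h.2
        exact ⟨a, mem_inter.mpr ⟨ha, haS⟩, hd⟩
    _ ≤ _ := sum_le_sum (fun a _ => BK hp0 hp1 (Re_incr _ _ _ _) (Re_incr _ _ _ _))

/-- the expected volume off `A` -/
theorem bex_off (hp0 : 0 ≤ p) (hp1 : p ≤ 1 / 2) (A : Finset V) (x : V) :
    G.bex F p S k x ≤ G.bex F p (S \ A) k x
      + ∑ a ∈ A ∩ S, G.tau F p S k x a * G.bex F p S k a := by
  have hpp : p ≤ 1 := by linarith
  rw [bex_eq_sum, bex_eq_sum]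
  have h1 : ∑ z ∈ S, G.tau F p S k x z ≤ ∑ z ∈ S, (G.tau F p (S \ A) k x z
      + ∑ a ∈ A ∩ S, G.tau F p S k x a * G.tau F p S k a z) :=
    sum_le_sum (fun z _ => through_bound hp0 hp1 A x z)
  refine h1.trans (le_of_eq ?_)
  rw [sum_add_distrib]
  congr 1
  · symm
    apply sum_subset sdiff_subset
    intro z _ hz
    exact tau_eq_zero_right hz
  · rw [sum_comm]
    apply sum_congr rfl
    intro a _
    rw [← mul_sum, bex_eq_sum]

end LG

end DDA
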