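import Pool.Agent.DDA.Defs3
import Pool.Agent.DDA.Iso

/-!
# DDA: deterministic part of the two-dimensional renormalization
-/

open Finset

namespace DDA
namespace Tiles

set_option linter.unusedSectionVars false

variable {N d : ℕ} [NeZero N] {Sy : TV N d → Finset (TV N d)} {X0 ℓ : ℕ}
  {R R' B B' K K' : Finset (TV N d)} {ω η : Finset (TE N d)}

lemma mem_nbd {v : TV N d} :
    v ∈ nbd Sy X0 ℓ B ω K ↔ v ∈ B ∧ ∃ y ∈ bigU Sy X0 ω, y ∈ K ∧ nrm (y - v) ≤ ℓ := by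
  simp [nbd]

lemma nbd_empty : nbd Sy X0 ℓ B ω ∅ = ∅ := by
  ext v
  simp [mem_nbd]

lemma nbd_card_le (C : Finset (TV N d)) :
    (nbd Sy X0 ℓ B ω K).card ≤
      (nbd Sy X0 ℓ B ω C).card + (nbd Sy X0 ℓ B ω (K \ C)).card := by
  refine (card_le_card ?_).trans (card_union_le _ _)
  intro v hv
  rw [mem_nbd] at hv
  obtain ⟨h1, y, h2, h3, h4⟩ := hv
  rw [mem_union, mem_nbd, mem_nbd]
  by_cases hy : y ∈ C
  · exact Or.inl ⟨h1, y, h2, hy, h4⟩
  · exact Or.inr ⟨h1, y, h2, mem_sdiff.2 ⟨h3, hy⟩, h4⟩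

lemma closedIn_cl (x : TV N d) : ClosedIn R ω ((T N d).cl R ω x) :=
  ⟨LG.cl_subset, fun _ ha _ hy hadj => LG.mem_cl_step ha hadj hy⟩

lemma closedIn_self : ClosedIn R ω R := ⟨Subset.refl _, fun _ _ _ hy _ => hy⟩

lemma cl_subset_of_closed (hK : ClosedIn R ω K) {x : TV N d} (hx : x ∈ K) :
    (T N d).cl R ω x ⊆ K := by
  intro y hy
  obtain ⟨k, hk⟩ := LG.mem_cl_iff.1 hy
  clear hy
  induction k generalizing y with
  | zero =>
    obtain ⟨_, rfl⟩ := LG.mem_ball_zero.1 hk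
    exact hx
  | succ k ih =>
    rcases LG.mem_ball_succ.1 hk with h | ⟨h1, z, hz, ha⟩
    · exact ih h
    · exact hK.2 z (ih hz) y h1 ha

lemma closedIn_sdiff (hK : ClosedIn R ω K) (x : TV N d) :
    ClosedIn R ω (K \ (T N d).cl R ω x) := by
  refine ⟨sdiff_subset.trans hK.1, ?_⟩
  intro a ha y hy hadj
  rw [mem_sdiff] at ha ⊢
  refine ⟨hK.2 a ha.1 y hy hadj, fun hyc => ha.2 ?_⟩
  exact LG.mem_cl_step hyc (LG.Adj_comm.1 hadj) (hK.1 ha.1)

/-- `K` dominates the region -/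
def Dom (Sy : TV N d → Finset (TV N d)) (X0 ℓ : ℕ) (R B : Finset (TV N d))
    (ω : Finset (TE N d)) (K : Finset (TV N d)) : Prop :=
  15 * B.card ≤ 16 * (nbd Sy X0 ℓ B ω K).card ∧ 16 * (nbd Sy X0 ℓ B ω (R \ K)).card ≤ B.card

/-- a good region has a dominating cluster -/
lemma exists_cluster (h : Good Sy X0 ℓ R B ω η) (hB : 0 < B.card) :
    ∃ x ∈ R, Dom Sy X0 ℓ R B ω ((T N d).cl R (ω ∪ η) x) := by
  -- minimal dominating closed set
  have key : ∀ m : ℕ, ∀ K, ClosedIn R (ω ∪ η) K → Dom Sy X0 ℓ R B ω K → K.card = m →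
      ∃ x ∈ R, Dom Sy X0 ℓ R B ω ((T N d).cl R (ω ∪ η) x) := by
    intro m
    induction m using Nat.strong_induction_on with
    | _ m ih =>
      intro K hK hD hm
      have hne : K.Nonempty := by
        rw [nonempty_iff_ne_empty]
        rintro rfl
        have h1 := hD.1
        rw [nbd_empty] at h1
        simp only [card_empty] at h1
        omega
      obtain ⟨x, hx⟩ := hne
      have hxR : x ∈ R := hK.1 hx
      have hCK := cl_subset_of_closed hK hx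
      have hxC : x ∈ (T N d).cl R (ω ∪ η) x := LG.self_mem_cl hxR
      rcases h _ (closedIn_cl (R := R) (ω := ω ∪ η) x) with hC | hC
      · rcases h _ (closedIn_sdiff hK x) with hC2 | hC2
        · exfalso
          have h1 := nbd_card_le (Sy := Sy) (X0 := X0) (ℓ := ℓ) (B := B) (ω := ω) (K := K)
            ((T N d).cl R (ω ∪ η) x)
          have h2 := hD.1
          have h3 := hC.1
          have h4 := hC2.1
          omega
        · refine ih _ ?_ _ (closedIn_sdiff hK x) ⟨hC2.2, hC2.1⟩ rfl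
          rw [← hm]
          apply card_lt_card
          rw [Finset.ssubset_iff_subset_ne]
          refine ⟨sdiff_subset, fun he => ?_⟩
          have : x ∈ K \ (T N d).cl R (ω ∪ η) x := by rw [he]; exact hx
          exact (mem_sdiff.1 this).2 hxC
      · exact ⟨x, hxR, hC.2, hC.1⟩
  rcases h _ (closedIn_self (R := R) (ω := ω ∪ η)) with h1 | h1
  · exfalso
    have h2 := h1.2
    rw [sdiff_self, bot_eq_empty, nbd_empty] at h2
    simp only [card_empty] at h2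
    omega
  · exact key _ R closedIn_self ⟨h1.2, h1.1⟩ rfl

/-- dominating clusters of regions which share a tile intersect -/
lemma dom_inter {tile : Finset (TV N d)} (h1 : Dom Sy X0 ℓ R B ω K) (h2 : Dom Sy X0 ℓ R' B' ω K')
    (ht : tile ⊆ B) (ht' : tile ⊆ B') (hc : B.card = 2 * tile.card) (hc' : B'.card = 2 * tile.card)
    (hpos : 0 < tile.card) (hR' : ∀ v ∈ B', ∀ y, nrm (y - v) ≤ ℓ → y ∈ R') :
    ∃ y, y ∈ K ∧ y ∈ K' := by
  by_contra hcon
  push Not at hcon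
  have h3 : tile ⊆ nbd Sy X0 ℓ B' ω (R' \ K') ∪ (B \ nbd Sy X0 ℓ B ω K) := by
    intro v hv
    rw [mem_union]
    by_cases hv2 : v ∈ nbd Sy X0 ℓ B ω K
    · left
      rw [mem_nbd] at hv2 ⊢
      obtain ⟨_, y, hy1, hy2, hy3⟩ := hv2
      exact ⟨ht' hv, y, hy1, mem_sdiff.2 ⟨hR' v (ht' hv) y hy3, hcon y hy2⟩, hy3⟩
    · right
      exact mem_sdiff.2 ⟨ht hv, hv2⟩
  have h4 := (card_le_card h3).trans (card_union_le _ _)
  have h5 : (B \ nbd Sy X0 ℓ B ω K).card + (nbd Sy X0 ℓ B ω K).card = B.card :=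
    card_sdiff_add_card_eq_card (filter_subset _ _)
  have h6 := h1.1
  have h7 := h2.2
  omega

lemma bigU_iff_restrict {A : Finset (TE N d)} {y : TV N d}
    (h : ∀ e, (T N d).In (Sy y) e → e ∈ A) :
    y ∈ bigU Sy X0 (ω ∩ A) ↔ y ∈ bigU Sy X0 ω := by
  unfold bigU
  rw [mem_filter, mem_filter]
  rw [LG.cl_congr (G := T N d) (S := Sy y) (ω := ω ∩ A) (ω' := ω) (x := y)]
  intro e he
  rw [mem_inter]
  exact ⟨fun h' => h'.1, fun h' => ⟨h', h e he⟩⟩

/-- locality of `Good` -/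
lemma good_restrict {A : Finset (TE N d)} (hA : ∀ e, (T N d).In R e → e ∈ A)
    (hS : ∀ v ∈ B, ∀ y, nrm (y - v) ≤ ℓ → Sy y ⊆ R) :
    Good Sy X0 ℓ R B (ω ∩ A) (η ∩ A) ↔ Good Sy X0 ℓ R B ω η := by
  have h1 : ∀ K, nbd Sy X0 ℓ B (ω ∩ A) K = nbd Sy X0 ℓ B ω K := by
    intro K
    ext v
    rw [mem_nbd, mem_nbd]
    constructor
    · rintro ⟨hv, y, hy, hyK, hn⟩
      refine ⟨hv, y, ?_, hyK, hn⟩
      rwa [bigU_iff_restrict] at hy
      intro e he
      exact hA e ⟨hS v hv y hn he.1, hS v hv y hn he.2⟩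
    · rintro ⟨hv, y, hy, hyK, hn⟩
      refine ⟨hv, y, ?_, hyK, hn⟩
      rwa [bigU_iff_restrict]
      intro e he
      exact hA e ⟨hS v hv y hn he.1, hS v hv y hn he.2⟩
  have h2 : ∀ K, ClosedIn R ((ω ∩ A) ∪ (η ∩ A)) K ↔ ClosedIn R (ω ∪ η) K := by
    intro K
    unfold ClosedIn
    rw [← union_inter_distrib_right]
    constructor
    · rintro ⟨a, b⟩
      refine ⟨a, fun x hx y hy hadj => b x hx y hy ?_⟩
      obtain ⟨e, he, hj⟩ := hadj
      refine ⟨e, mem_inter.2 ⟨he, hA e ?_⟩, hj⟩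
      have hxR := a hx
      rcases hj with ⟨p1, p2⟩ | ⟨p1, p2⟩
      · exact ⟨p1 ▸ hxR, p2 ▸ hy⟩
      · exact ⟨p1 ▸ hy, p2 ▸ hxR⟩
    · rintro ⟨a, b⟩
      exact ⟨a, fun x hx y hy hadj => b x hx y hy (hadj.mono inter_subset_left)⟩
  unfold Good
  constructor
  · intro h K hK
    have := h K ((h2 K).2 hK)
    rwa [h1, h1] at this
  · intro h K hK
    have := h K ((h2 K).1 hK)
    rwa [h1, h1]

/-! ### integer description of boxes -/

/-- box with integer corner -/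
def ibox (N d : ℕ) [NeZero N] (lo : Fin d → ℤ) (s : Fin d → ℕ) : Finset (TV N d) :=
  box (fun i => (lo i : ZMod N)) s

lemma mem_ibox {lo : Fin d → ℤ} {s : Fin d → ℕ} (hs : ∀ i, s i ≤ N) {x : TV N d} :
    x ∈ ibox N d lo s ↔ ∀ i, ∃ t : ℤ, lo i ≤ t ∧ t < lo i + s i ∧ x i = (t : ZMod N) := by
  unfold ibox
  rw [mem_box]
  apply forall_congr'
  intro i
  constructor
  · intro h
    refine ⟨lo i + ((x i - (lo i : ZMod N)).val : ℤ), by omega, by omega, ?_⟩
    push_cast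
    rw [ZMod.natCast_zmod_val]
    ring
  · rintro ⟨t, h1, h2, h3⟩
    have h4 : x i - (lo i : ZMod N) = (((t - lo i).toNat : ℕ) : ZMod N) := by
      rw [h3]
      have : ((t - lo i).toNat : ℤ) = t - lo i := Int.toNat_of_nonneg (by omega)
      have h5 : (((t - lo i).toNat : ℤ) : ZMod N) = ((t - lo i : ℤ) : ZMod N) := by rw [this]
      rw [Int.cast_natCast] at h5
      rw [h5]
      push_cast
      ring
    rw [h4, ZMod.val_natCast_of_lt]
    · omega
    · have := hs i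
      omega

lemma nrm_coord {x : TV N d} {l : ℕ} (h : nrm x ≤ l) (i : Fin d) :
    ∃ t : ℤ, -(l : ℤ) ≤ t ∧ t ≤ l ∧ x i = (t : ZMod N) := by
  refine ⟨(x i).valMinAbs, ?_, ?_, (ZMod.coe_valMinAbs _).symm⟩
  · have : (x i).valMinAbs.natAbs ≤ nrm x :=
      single_le_sum (f := fun i => (x i).valMinAbs.natAbs) (fun _ _ => Nat.zero_le _) (mem_univ i)
    omega
  · have : (x i).valMinAbs.natAbs ≤ nrm x :=
      single_le_sum (f := fun i => (x i).valMinAbs.natAbs) (fun _ _ => Nat.zero_le _) (mem_univ i)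
    omega

lemma mem_sbx {n : ℕ} {y z : TV N d} :
    z ∈ sbx N d n y ↔ ∀ i, (z i - y i).valMinAbs.natAbs ≤ n := by
  unfold sbx bx
  rw [mem_image]
  constructor
  · rintro ⟨x, hx, rfl⟩ i
    rw [mem_filter] at hx
    have := hx.2 i
    simpa using this
  · intro h
    refine ⟨z - y, ?_, by simp⟩
    rw [mem_filter]
    exact ⟨mem_univ _, fun i => by simpa using h i⟩

lemma self_mem_sbx {n : ℕ} (y : TV N d) : y ∈ sbx N d n y := by
  rw [mem_sbx]
  intro i
  simp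

lemma sbx_coord {n : ℕ} {y z : TV N d} (h : z ∈ sbx N d n y) (i : Fin d) :
    ∃ t : ℤ, -(n : ℤ) ≤ t ∧ t ≤ n ∧ z i - y i = (t : ZMod N) := by
  rw [mem_sbx] at h
  refine ⟨(z i - y i).valMinAbs, ?_, ?_, (ZMod.coe_valMinAbs _).symm⟩
  · have := h i; omega
  · have := h i; omega

/-- the local boxes seen from a box are in the enlarged box -/
lemma sbx_subset {lo : Fin d → ℤ} {s : Fin d → ℕ} {n1 w : ℕ} (hw : n1 + ℓ ≤ w)
    (hs : ∀ i, s i + 2 * w ≤ N) {v y : TV N d} (hv : v ∈ ibox N d lo s) (hy : nrm (y - v) ≤ ℓ) :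
    sbx N d n1 y ⊆ ibox N d (fun i => lo i - w) (fun i => s i + 2 * w) := by
  intro z hz
  rw [mem_ibox hs]
  intro i
  obtain ⟨t1, a1, b1, c1⟩ := (mem_ibox (fun i => by have := hs i; omega)).1 hv i
  obtain ⟨t2, a2, b2, c2⟩ := nrm_coord hy i
  obtain ⟨t3, a3, b3, c3⟩ := sbx_coord hz i
  refine ⟨t1 + t2 + t3, by omega, ?_, ?_⟩
  · push_cast
    omega
  · have e1 : z i = v i + (y - v) i + (z i - y i) := by
      simp
    rw [e1, c1, c2, c3]
    push_cast
    ring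

/-- equality of integers from equality in `ZMod N` -/
lemma int_eq_of_cast {a b : ℤ} (h : (a : ZMod N) = (b : ZMod N)) (h1 : |a - b| < N) : a = b := by
  have h2 : ((a - b : ℤ) : ZMod N) = 0 := by
    push_cast
    rw [h]
    ring
  rw [ZMod.intCast_zmod_eq_zero_iff_dvd] at h2
  have h3 := Int.eq_zero_of_abs_lt_dvd h2 h1
  omega

end Tiles
end DDA
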