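import Pool.Agent.DDA.TilesDet
import Pool.Agent.DDA.Two

/-!
# DDA: geometry of the tiles, translations, exit from a box
-/

open Finset

namespace DDA
namespace Tiles

set_option linter.unusedSectionVars false

variable {N d : ℕ} [NeZero N]

/-! ### translations -/

lemma J_shift (v : TV N d) (e : TE N d) (x y : TV N d) :
    (T N d).J (shE v e) (x + v) (y + v) ↔ (T N d).J e x y := by
  rw [T_J, T_J]
  have h1 : (shE v e).1 = e.1 + v := rfl
  have h2 : (shE v e).2 = e.2 := rfl
  rw [h1, h2]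
  constructor
  · rintro (⟨a, b⟩ | ⟨a, b⟩)
    · left
      refine ⟨add_right_cancel a, ?_⟩
      rw [add_right_comm] at b
      exact add_right_cancel b
    · right
      refine ⟨add_right_cancel a, ?_⟩
      rw [add_sub_right_comm] at b
      exact add_right_cancel b
  · rintro (⟨a, b⟩ | ⟨a, b⟩)
    · left
      refine ⟨by rw [a], ?_⟩
      rw [b, add_right_comm]
    · right
      refine ⟨by rw [a], ?_⟩
      rw [b, add_sub_right_comm]

lemma adj_shift (v : TV N d) (ω : Finset (TE N d)) (x y : TV N d) :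
    (T N d).Adj (ω.image (shE v)) (x + v) (y + v) ↔ (T N d).Adj ω x y := by
  constructor
  · rintro ⟨e', he', hj⟩
    obtain ⟨e, he, rfl⟩ := mem_image.1 he'
    exact ⟨e, he, (J_shift v e x y).1 hj⟩
  · rintro ⟨e, he, hj⟩
    exact ⟨shE v e, mem_image_of_mem _ he, (J_shift v e x y).2 hj⟩

lemma ball_shift (v : TV N d) (S : Finset (TV N d)) (ω : Finset (TE N d)) (x : TV N d) (k : ℕ) :
    (T N d).ball (S.image (· + v)) (ω.image (shE v)) (x + v) k
      = ((T N d).ball S ω x k).image (· + v) := by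
  have key : ∀ y, y + v ∈ (T N d).ball (S.image (· + v)) (ω.image (shE v)) (x + v) k ↔
      y ∈ (T N d).ball S ω x k := by
    induction k with
    | zero =>
      intro y
      rw [LG.mem_ball_zero, LG.mem_ball_zero]
      simp
    | succ k ih =>
      intro y
      rw [LG.mem_ball_succ, LG.mem_ball_succ, ih]
      apply or_congr Iff.rfl
      apply and_congr (by simp)
      constructor
      · rintro ⟨z, hz, ha⟩
        refine ⟨z - v, ?_, ?_⟩
        · rw [← ih, sub_add_cancel]
          exact hz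
        · rw [← adj_shift v, sub_add_cancel]
          exact ha
      · rintro ⟨z, hz, ha⟩
        exact ⟨z + v, (ih z).2 hz, (adj_shift v ω z y).2 ha⟩
  ext y
  rw [mem_image]
  constructor
  · intro h
    refine ⟨y - v, ?_, by simp⟩
    rw [← key, sub_add_cancel]
    exact h
  · rintro ⟨z, hz, rfl⟩
    exact (key z).2 hz

lemma card_image_add (v : TV N d) (S : Finset (TV N d)) : (S.image (· + v)).card = S.card :=
  card_image_of_injective _ (add_left_injective v)

lemma cl_shift (v : TV N d) (S : Finset (TV N d)) (ω : Finset (TE N d)) (x : TV N d) :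
    (T N d).cl (S.image (· + v)) (ω.image (shE v)) (x + v)
      = ((T N d).cl S ω x).image (· + v) := by
  unfold LG.cl
  rw [card_image_add, ball_shift]

lemma Pr_shift (v : TV N d) (p : ℝ) (A : Finset (TE N d) → Prop) :
    Pr univ p (fun ω => A (ω.image (shE v))) = Pr univ p A := by
  classical
  have h1 : (univ : Finset (TE N d)) = univ.image (shE v) := by
    ext e
    simp only [mem_univ, mem_image, true_and, true_iff]
    exact ⟨(shE v).symm e, by simp⟩
  unfold Pr
  conv_rhs => rw [h1]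
  rw [Ex_image (shE v).injective.injOn]

lemma sbx_shift (n : ℕ) (y v : TV N d) : (sbx N d n y).image (· + v) = sbx N d n (y + v) := by
  unfold sbx
  rw [image_image]
  congr 1
  funext x
  simp [add_assoc]

lemma kappa_shift (p : ℝ) (ℓ n1 X0 : ℕ) (v : TV N d) :
    Pr univ p (fun ω => ∀ y, nrm (y - v) ≤ ℓ → ((T N d).cl (sbx N d n1 y) ω y).card < X0)
      = Pr univ p (fun ω => ∀ y, nrm y ≤ ℓ → ((T N d).cl (sbx N d n1 y) ω y).card < X0) := by
  rw [← Pr_shift v]
  apply Pr_congr
  intro ω _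
  have key : ∀ y, ((T N d).cl (sbx N d n1 (y + v)) (ω.image (shE v)) (y + v)).card
      = ((T N d).cl (sbx N d n1 y) ω y).card := by
    intro y
    rw [← sbx_shift, cl_shift, card_image_add]
  constructor
  · intro h y hy
    rw [← key]
    apply h
    simpa using hy
  · intro h y hy
    have := key (y - v)
    rw [sub_add_cancel] at this
    rw [this]
    exact h _ hy

/-- the event that the cluster of `x` in the box around `x` reaches the boundary -/
def Exit (k : ℕ) (x : TV N d) (ω : Finset (TE N d)) : Prop :=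
  ∃ y ∈ (T N d).cl (sbx N d k x) ω x, ∃ i, (y i - x i).valMinAbs.natAbs = k

lemma Pr_exit (p : ℝ) (k : ℕ) (x : TV N d) : Pr univ p (Exit k x) = thT N d k p := by
  unfold thT
  rw [← Pr_shift x]
  apply Pr_congr
  intro ω _
  unfold Exit
  have h1 : (T N d).cl (sbx N d k x) (ω.image (shE x)) x
      = ((T N d).cl (bx N d k) ω 0).image (· + x) := by
    have := cl_shift x (bx N d k) ω 0
    rw [zero_add] at this
    exact this
  rw [h1]
  constructor
  · rintro ⟨y, hy, i, hi⟩
    obtain ⟨z, hz, rfl⟩ := mem_image.1 hy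
    exact ⟨z, hz, i, by simpa using hi⟩
  · rintro ⟨z, hz, i, hi⟩
    exact ⟨z + x, mem_image_of_mem _ hz, i, by simpa using hi⟩

lemma valMinAbs_le_of_cast {a : ZMod N} {t : ℤ} {k : ℕ} (h : a = (t : ZMod N))
    (ht : t.natAbs ≤ k) : a.valMinAbs.natAbs ≤ k := by
  refine le_trans ?_ ht
  apply ZMod.natAbs_min_of_le_div_two N
  · rw [ZMod.coe_valMinAbs]
    exact h
  · exact ZMod.natAbs_valMinAbs_le a

/-- a connection which leaves the box around `x` crosses its boundary -/
lemma exit_of_conn {k : ℕ} {x z : TV N d} {ω : Finset (TE N d)}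
    (hz : z ∈ (T N d).cl univ ω x) {i0 : Fin d} (hzx : k < (z i0 - x i0).valMinAbs.natAbs) :
    Exit k x ω := by
  by_contra hcon
  unfold Exit at hcon
  push Not at hcon
  have hx : x ∈ sbx N d k x := self_mem_sbx x
  have key : ∀ j, ∀ y ∈ (T N d).ball univ ω x j, y ∈ (T N d).cl (sbx N d k x) ω x := by
    intro j
    induction j with
    | zero =>
      intro y hy
      obtain ⟨_, rfl⟩ := LG.mem_ball_zero.1 hy
      exact LG.self_mem_cl hx
    | succ j ih =>
      intro y hy
      rcases LG.mem_ball_succ.1 hy with h | ⟨_, w, hw, hadj⟩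
      · exact ih y h
      · have hw' := ih w hw
        refine LG.mem_cl_step hw' hadj ?_
        have hwb := LG.cl_subset hw'
        rw [mem_sbx] at hwb ⊢
        intro i
        have h1 := hwb i
        have h2 := hcon w hw' i
        obtain ⟨e, _, hj⟩ := hadj
        rw [T_J] at hj
        rcases hj with ⟨_, b⟩ | ⟨_, b⟩
        · rw [b]
          by_cases hie : i = e.2
          · refine valMinAbs_le_of_cast (t := (w i - x i).valMinAbs + 1) ?_ (by omega)
            push_cast
            rw [hie]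
            simp
            ring
          · simp only [Pi.add_apply, Pi.single_eq_of_ne hie, add_zero]
            exact h1
        · rw [b]
          by_cases hie : i = e.2
          · refine valMinAbs_le_of_cast (t := (w i - x i).valMinAbs - 1) ?_ (by omega)
            push_cast
            rw [hie]
            simp
            ring
          · simp only [Pi.sub_apply, Pi.single_eq_of_ne hie, sub_zero]
            exact h1
  obtain ⟨j, hj⟩ := LG.mem_cl_iff.1 hz
  have h3 := LG.cl_subset (key j z hj)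
  rw [mem_sbx] at h3
  have := h3 i0
  omega

/-! ### tiles -/

/-- integer corner of the tile `u` -/
def cor (d n : ℕ) (u : ℤ × ℤ) : Fin d → ℤ :=
  fun j => if j.val = 0 then u.1 * n else if j.val = 1 then u.2 * n else 0

/-- sides of the block of a bond in direction `i` -/
def side (d n : ℕ) (i : Fin 2) : Fin d → ℕ := fun j => if j.val = i.val then 2 * n else n

/-- the tile `u` -/
def tileB (N d n : ℕ) [NeZero N] (u : ℤ × ℤ) : Finset (TV N d) := ibox N d (cor d n u) (fun _ => n)

/-- the block of the bond `c = (u, i)` from `u` to `u + e_i` -/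
def BB (N d n : ℕ) [NeZero N] (c : (ℤ × ℤ) × Fin 2) : Finset (TV N d) :=
  ibox N d (cor d n c.1) (side d n c.2)

/-- the region of the bond -/
def RR (N d n w : ℕ) [NeZero N] (c : (ℤ × ℤ) × Fin 2) : Finset (TV N d) :=
  ibox N d (fun j => cor d n c.1 j - w) (fun j => side d n c.2 j + 2 * w)

/-- unit step -/
def stp (i : Fin 2) : ℤ × ℤ := if i = 0 then (1, 0) else (0, 1)

lemma side_le (n : ℕ) (i : Fin 2) (j : Fin d) : side d n i j ≤ 2 * n := by
  unfold side
  split_ifs <;> omega

lemma le_side (n : ℕ) (i : Fin 2) (j : Fin d) : n ≤ side d n i j := by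
  unfold side
  split_ifs <;> omega

lemma card_ibox (lo : Fin d → ℤ) (s : Fin d → ℕ) (hs : ∀ i, s i ≤ N) :
    (ibox N d lo s).card = ∏ i, s i := card_box _ _ hs

lemma card_tileB {n : ℕ} (hn : n ≤ N) (u : ℤ × ℤ) : (tileB N d n u).card = n ^ d := by
  unfold tileB
  rw [card_ibox _ _ (fun _ => hn)]
  simp

lemma card_BB {n : ℕ} (hd : 2 ≤ d) (hn : 2 * n ≤ N) (c : (ℤ × ℤ) × Fin 2) :
    (BB N d n c).card = 2 * n ^ d := by
  unfold BB
  rw [card_ibox _ _ (fun j => (side_le n c.2 j).trans hn)]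
  have hi : c.2.val < d := by have := c.2.isLt; omega
  have h1 : ∀ j : Fin d, side d n c.2 j = n * (if j = (⟨c.2.val, hi⟩ : Fin d) then 2 else 1) := by
    intro j
    unfold side
    by_cases h : j = (⟨c.2.val, hi⟩ : Fin d)
    · rw [if_pos h, if_pos (by rw [h]), mul_comm]
    · rw [if_neg h, if_neg (fun h' => h (Fin.ext h')), mul_one]
  rw [Finset.prod_congr rfl (fun j _ => h1 j), Finset.prod_mul_distrib]
  simp [mul_comm]

lemma card_RR {n w : ℕ} (hn : 2 * n + 2 * w ≤ N) (hn0 : 0 < n)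
    (hw : 2 * d * (w + 1) ≤ n) (c : (ℤ × ℤ) × Fin 2) :
    ((RR N d n w c).card : ℝ) ≤ 3 * ((BB N d n c).card : ℝ) := by
  unfold RR BB
  rw [card_ibox _ _ (fun j => by have := side_le (d := d) n c.2 j; omega),
    card_ibox _ _ (fun j => (side_le n c.2 j).trans (by omega))]
  push_cast
  have hn0' : (0 : ℝ) < n := by exact_mod_cast hn0
  have h1 : ∏ j : Fin d, (((side d n c.2 j : ℕ) : ℝ) + 2 * w)
      ≤ ∏ j : Fin d, (((side d n c.2 j : ℕ) : ℝ) * (1 + 2 * w / n)) := by
    apply Finset.prod_le_prod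
    · intro j _
      positivity
    · intro j _
      have h2 : (n : ℝ) ≤ (side d n c.2 j : ℕ) := by exact_mod_cast le_side n c.2 j
      have h3 : (2 * w : ℝ) ≤ ((side d n c.2 j : ℕ) : ℝ) * (2 * w / n) := by
        calc (2 * w : ℝ) = n * (2 * w / n) := by field_simp
          _ ≤ _ := by gcongr
      linarith
  refine h1.trans ?_
  rw [Finset.prod_mul_distrib, mul_comm]
  have h4 : ∏ _j : Fin d, (1 + 2 * (w : ℝ) / n) ≤ 3 := by
    rw [Finset.prod_const, Finset.card_univ, Fintype.card_fin]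
    have h5 : (1 + 2 * (w : ℝ) / n) ≤ Real.exp (2 * w / n) := by
      rw [add_comm]
      exact Real.add_one_le_exp _
    calc (1 + 2 * (w : ℝ) / n) ^ d ≤ (Real.exp (2 * w / n)) ^ d := by gcongr
      _ = Real.exp (d * (2 * w / n)) := by rw [← Real.exp_nat_mul]
      _ ≤ Real.exp 1 := by
        apply Real.exp_le_exp.2
        have h6 : (2 * d * (w + 1) : ℝ) ≤ n := by exact_mod_cast hw
        rw [← mul_div_assoc, div_le_one hn0']
        have : (0:ℝ) ≤ d := Nat.cast_nonneg d
        nlinarith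
      _ ≤ 3 := Real.exp_one_lt_three.le
  gcongr

lemma tile_subset_left {n : ℕ} (hn : 2 * n ≤ N) (c : (ℤ × ℤ) × Fin 2) :
    tileB N d n c.1 ⊆ BB N d n c := by
  intro x hx
  unfold tileB at hx
  unfold BB
  rw [mem_ibox (fun _ => by omega)] at hx
  rw [mem_ibox (fun j => (side_le n c.2 j).trans hn)]
  intro j
  obtain ⟨t, a, b, h⟩ := hx j
  have := le_side (d := d) n c.2 j
  exact ⟨t, a, by omega, h⟩

lemma tile_subset_right {n : ℕ} (hn : 2 * n ≤ N) (c : (ℤ × ℤ) × Fin 2) :
    tileB N d n (c.1 + stp c.2) ⊆ BB N d n c := by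
  intro x hx
  unfold tileB at hx
  unfold BB
  rw [mem_ibox (fun _ => by omega)] at hx
  rw [mem_ibox (fun j => (side_le n c.2 j).trans hn)]
  intro j
  obtain ⟨t, a, b, h⟩ := hx j
  obtain ⟨⟨u1, u2⟩, i⟩ := c
  refine ⟨t, ?_, ?_, h⟩
  · revert a
    unfold cor stp
    fin_cases i <;> (simp; split_ifs <;> intro h <;> nlinarith)
  · revert b
    unfold cor stp side
    fin_cases i <;> (simp; split_ifs <;> intro h <;> nlinarith)

/-- the regions of bonds whose lower corners are far apart are disjoint -/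
lemma RR_disjoint {n w : ℕ} {M : ℤ} (hd : 2 ≤ d) (hw : 2 * w < n) (hN : (M + 4) * n ≤ N)
    {c c' : (ℤ × ℤ) × Fin 2} (hc : c.1 ∈ Pool.Agent.H95.Perc.rect 0 M 0 M)
    (hc' : c'.1 ∈ Pool.Agent.H95.Perc.rect 0 M 0 M)
    (hfar : 3 ≤ |c.1.1 - c'.1.1| ∨ 3 ≤ |c.1.2 - c'.1.2|) :
    Disjoint (RR N d n w c) (RR N d n w c') := by
  rw [Pool.Agent.H95.Perc.mem_rect] at hc hc'
  obtain ⟨⟨u1, u2⟩, i⟩ := c
  obtain ⟨⟨v1, v2⟩, i'⟩ := c'
  simp only at hc hc' hfar
  have hM : 0 ≤ M := by omega
  have hn0 : (0 : ℤ) ≤ n := by positivity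
  have hsz : ∀ (i : Fin 2) (j : Fin d), side d n i j + 2 * w ≤ N := by
    intro i j
    have h1 := side_le (d := d) n i j
    have h2 : (4 * n : ℤ) ≤ (M + 4) * n := by nlinarith
    have h3 : (4 * n : ℤ) ≤ N := h2.trans hN
    omega
  rw [Finset.disjoint_left]
  intro x hx hx'
  unfold RR at hx hx'
  rw [mem_ibox (hsz _)] at hx hx'
  -- the coordinate in which the corners are far apart
  have main : ∀ (j : Fin d) (a b : ℤ), cor d n (u1, u2) j = a * n → cor d n (v1, v2) j = b * n →
      0 ≤ a → a ≤ M → 0 ≤ b → b ≤ M → 3 ≤ |a - b| → False := by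
    intro j a b ha hb ha0 haM hb0 hbM hab
    obtain ⟨t, t1, t2, t3⟩ := hx j
    obtain ⟨t', t1', t2', t3'⟩ := hx' j
    simp only at t1 t2 t1' t2'
    rw [ha] at t1 t2
    rw [hb] at t1' t2'
    have e1 := side_le (d := d) n i j
    have e2 := side_le (d := d) n i' j
    push_cast at t2 t2'
    have e1' : ((side d n i j : ℕ) : ℤ) ≤ 2 * n := by exact_mod_cast e1
    have e2' : ((side d n i' j : ℕ) : ℤ) ≤ 2 * n := by exact_mod_cast e2
    have h1 : 0 ≤ a * n := by positivity
    have h2 : 0 ≤ b * n := by positivity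
    have h3 : a * n ≤ M * n := by gcongr
    have h4 : b * n ≤ M * n := by gcongr
    have h5 : t = t' := by
      apply int_eq_of_cast (N := N) (t3.symm.trans t3')
      rw [abs_lt]
      constructor <;> nlinarith
    rcases le_abs.1 hab with h6 | h6
    · have : (b + 3) * n ≤ a * n := by gcongr; omega
      nlinarith
    · have : (a + 3) * n ≤ b * n := by gcongr; omega
      nlinarith
  rcases hfar with h | h
  · exact main ⟨0, by omega⟩ u1 v1 (by simp [cor]) (by simp [cor]) hc.1 hc.2.1 hc'.1 hc'.2.1 h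
  · exact main ⟨1, by omega⟩ u2 v2 (by simp [cor]) (by simp [cor]) hc.2.2.1 hc.2.2.2
      hc'.2.2.1 hc'.2.2.2 h

/-- the starting zone -/
def A0 (N d n w : ℕ) [NeZero N] : Finset (TV N d) :=
  ibox N d (fun _ => -(w : ℤ)) (fun _ => 6 * n + 2 * w)

lemma card_A0 {n w : ℕ} (hN : 6 * n + 2 * w ≤ N) : (A0 N d n w).card = (6 * n + 2 * w) ^ d := by
  unfold A0
  rw [card_ibox _ _ (fun _ => hN)]
  simp

lemma RR_subset_A0 {n w : ℕ} (hN : 6 * n + 2 * w ≤ N) {c : (ℤ × ℤ) × Fin 2}
    (h : 0 ≤ c.1.1 ∧ c.1.1 ≤ 4 ∧ 0 ≤ c.1.2 ∧ c.1.2 ≤ 4) : RR N d n w c ⊆ A0 N d n w := by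
  intro x hx
  unfold RR at hx
  unfold A0
  rw [mem_ibox (fun j => by have := side_le (d := d) n c.2 j; omega)] at hx
  rw [mem_ibox (fun _ => hN)]
  intro j
  obtain ⟨t, t1, t2, t3⟩ := hx j
  refine ⟨t, ?_, ?_, t3⟩
  · have : 0 ≤ cor d n c.1 j := by
      unfold cor
      split_ifs
      · exact mul_nonneg h.1 (by positivity)
      · exact mul_nonneg h.2.2.1 (by positivity)
      · exact le_rfl
    omega
  · have h2 : cor d n c.1 j ≤ 4 * n := by
      unfold cor
      split_ifs
      · have := h.2.1; gcongr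
      · have := h.2.2.2; gcongr
      · positivity
    have h3 := side_le (d := d) n c.2 j
    push_cast at t2 ⊢
    omega

/-- the points of the region of a far bond are far from the starting zone -/
lemma far_point {n w k : ℕ} {M : ℤ} (hd : 2 ≤ d) (hw : 2 * w < n) (hk : k + 8 < M)
    (hN : 2 * (M + 4) * n < N) {c : (ℤ × ℤ) × Fin 2}
    (hc : c.1 ∈ Pool.Agent.H95.Perc.rect 0 M 0 M)
    (h : c.1.1 + 1 ≥ M ∨ c.1.2 + 1 ≥ M) {x z : TV N d} (hx : x ∈ A0 N d n w)
    (hz : z ∈ RR N d n w c) : ∃ i, k < (z i - x i).valMinAbs.natAbs := by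
  rw [Pool.Agent.H95.Perc.mem_rect] at hc
  obtain ⟨⟨u1, u2⟩, i⟩ := c
  simp only at hc h
  have hM : 0 ≤ M := by omega
  have hn0 : (1 : ℤ) ≤ n := by omega
  have hsz2 : 6 * n + 2 * w ≤ N := by
    have h3 : (8 * n : ℤ) ≤ 2 * (M + 4) * n := by nlinarith
    have h4 : (8 * n : ℤ) ≤ N := by omega
    omega
  have hsz : ∀ (i : Fin 2) (j : Fin d), side d n i j + 2 * w ≤ N := by
    intro i j
    have h1 := side_le (d := d) n i j
    omega
  unfold RR at hz
  unfold A0 at hx
  rw [mem_ibox (hsz _)] at hz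
  rw [mem_ibox (fun _ => hsz2)] at hx
  have main : ∀ (j : Fin d) (a : ℤ), cor d n (u1, u2) j = a * n → a + 1 ≥ M → a ≤ M →
      k < (z j - x j).valMinAbs.natAbs := by
    intro j a ha ha0 haM
    obtain ⟨t, t1, t2, t3⟩ := hz j
    obtain ⟨t', t1', t2', t3'⟩ := hx j
    simp only at t1 t2
    rw [ha] at t1 t2
    have e1 : ((side d n i j : ℕ) : ℤ) ≤ 2 * n := by exact_mod_cast side_le (d := d) n i j
    push_cast at t2 t2'
    have h1 : (M - 1) * n ≤ a * n := by gcongr; omega
    have h2 : a * n ≤ M * n := by gcongr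
    have h3 : (z j - x j).valMinAbs = t - t' := by
      rw [ZMod.valMinAbs_spec]
      refine ⟨?_, ?_, ?_⟩
      · rw [t3, t3']; push_cast; ring
      · nlinarith
      · nlinarith
    have h4 : (k : ℤ) + 1 ≤ t - t' := by nlinarith
    rw [h3]
    omega
  rcases h with h | h
  · exact ⟨⟨0, by omega⟩, main _ u1 (by simp [cor]) h hc.2.1⟩
  · exact ⟨⟨1, by omega⟩, main _ u2 (by simp [cor]) h hc.2.2.2⟩

end Tiles
end DDA
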