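import Pool.Agent.DDA.TilesGeo

/-!
# DDA: the probabilistic part of the two-dimensional renormalization
-/

open Finset Pool.Agent.H95.SumRule Pool.Agent.H95.Perc

namespace DDA
namespace Tiles

set_option linter.unusedSectionVars false

section pairs

variable {E : Type} [Fintype E] [DecidableEq E]

/-- weight of a configuration -/
noncomputable def wt (p : ℝ) (ω : Finset E) : ℝ :=
  p ^ ω.card * (1 - p) ^ ((univ : Finset E) \ ω).card

lemma Ex_eq_wt (p : ℝ) (f : Finset E → ℝ) : Ex univ p f = ∑ ω, wt p ω * f ω := by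
  unfold Ex wt
  rw [powerset_univ]

lemma wt_nonneg {p : ℝ} (hp0 : 0 ≤ p) (hp1 : p ≤ 1) (ω : Finset E) : 0 ≤ wt p ω := by
  unfold wt
  have : 0 ≤ 1 - p := by linarith
  positivity

/-- weight of a pair of configurations -/
noncomputable def W (p ε : ℝ) (o : Finset E × Finset E) : ℝ := wt p o.1 * wt ε o.2

lemma W_nonneg {p ε : ℝ} (hp0 : 0 ≤ p) (hp1 : p ≤ 1) (hε0 : 0 ≤ ε) (hε1 : ε ≤ 1)
    (o : Finset E × Finset E) : 0 ≤ W p ε o :=
  mul_nonneg (wt_nonneg hp0 hp1 _) (wt_nonneg hε0 hε1 _)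

lemma sum_wt (p : ℝ) : ∑ ω : Finset E, wt p ω = 1 := by
  have := Ex_eq_wt p (fun _ : Finset E => (1 : ℝ))
  rw [Ex_one] at this
  simpa using this.symm

lemma sum_W (p ε : ℝ) : ∑ o : Finset E × Finset E, W p ε o = 1 := by
  rw [Fintype.sum_prod_type]
  unfold W
  simp only
  simp only [← mul_sum, sum_wt, mul_one]

lemma fp_W (p ε : ℝ) (A : Finset E × Finset E → Prop) :
    fp (W p ε) A = Ex univ p (fun ω => Pr univ ε (fun η => A (ω, η))) := by
  classical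
  unfold fp
  rw [Fintype.sum_prod_type, Ex_eq_wt]
  apply sum_congr rfl
  intro ω _
  unfold Pr
  rw [Ex_eq_wt, mul_sum]
  apply sum_congr rfl
  intro η _
  unfold W
  by_cases h : A (ω, η) <;> simp [h]

lemma pair_indep {p ε : ℝ} {A B : Finset E} (hAB : Disjoint A B)
    {P Q : Finset E × Finset E → Prop} (hP : ∀ ω η, P (ω, η) ↔ P (ω ∩ A, η ∩ A))
    (hQ : ∀ ω η, Q (ω, η) ↔ Q (ω ∩ B, η ∩ B)) :
    fp (W p ε) (fun o => P o ∧ Q o) = fp (W p ε) P * fp (W p ε) Q := by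
  have hP2 : ∀ ω η, P (ω, η) ↔ P (ω, η ∩ A) := by
    intro ω η
    rw [hP ω η, hP ω (η ∩ A), inter_assoc, inter_self]
  have hQ2 : ∀ ω η, Q (ω, η) ↔ Q (ω, η ∩ B) := by
    intro ω η
    rw [hQ ω η, hQ ω (η ∩ B), inter_assoc, inter_self]
  have hP3 : ∀ ω η, P (ω, η) ↔ P (ω ∩ A, η) := by
    intro ω η
    rw [hP ω η, hP (ω ∩ A) η, inter_assoc, inter_self]
  have hQ3 : ∀ ω η, Q (ω, η) ↔ Q (ω ∩ B, η) := by
    intro ω η
    rw [hQ ω η, hQ (ω ∩ B) η, inter_assoc, inter_self]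
  rw [fp_W, fp_W, fp_W]
  have h1 : ∀ ω, Pr univ ε (fun η => P (ω, η) ∧ Q (ω, η))
      = Pr univ ε (fun η => P (ω, η)) * Pr univ ε (fun η => Q (ω, η)) := by
    intro ω
    exact Pr_indep hAB (fun η _ => hP2 ω η) (fun η _ => hQ2 ω η)
  simp only [h1]
  apply Ex_indep hAB
  · intro ω _
    exact Pr_congr (fun η _ => hP3 ω η)
  · intro ω _
    exact Pr_congr (fun η _ => hQ3 ω η)

end pairs

variable {N d : ℕ} [NeZero N]

/-- a good bond -/
def GB (N d n1 X0 ℓ n : ℕ) [NeZero N] (o : Finset (TE N d) × Finset (TE N d))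
    (c : (ℤ × ℤ) × Fin 2) : Prop :=
  Good (sbx N d n1) X0 ℓ (RR N d n (n1 + ℓ) c) (BB N d n c) o.1 o.2

open Classical in
/-- the good bonds of `[0,M]^2` -/
noncomputable def gam (N d n1 X0 ℓ n : ℕ) [NeZero N] (M : ℤ)
    (o : Finset (TE N d) × Finset (TE N d)) : Finset (Sym2 (ℤ × ℤ)) :=
  ((rect 0 M 0 M ×ˢ (univ : Finset (Fin 2))).filter (fun c => GB N d n1 X0 ℓ n o c)).image
    (fun c => s(c.1, c.1 + stp c.2))

lemma mem_gam {n1 X0 ℓ n : ℕ} {M : ℤ} {o : Finset (TE N d) × Finset (TE N d)}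
    {e : Sym2 (ℤ × ℤ)} : e ∈ gam N d n1 X0 ℓ n M o ↔
      ∃ c : (ℤ × ℤ) × Fin 2, c.1 ∈ rect 0 M 0 M ∧ GB N d n1 X0 ℓ n o c ∧
        e = s(c.1, c.1 + stp c.2) := by
  classical
  unfold gam
  rw [mem_image]
  constructor
  · rintro ⟨c, hc, rfl⟩
    rw [mem_filter, mem_product] at hc
    exact ⟨c, hc.1.1, hc.2, rfl⟩
  · rintro ⟨c, hc, hg, rfl⟩
    refine ⟨c, ?_, rfl⟩
    rw [mem_filter, mem_product]
    exact ⟨⟨hc, mem_univ _⟩, hg⟩

lemma exists_bond {V : Finset (ℤ × ℤ)} {e : Sym2 (ℤ × ℤ)} (he : e ∈ edgesIn V) :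
    ∃ c : (ℤ × ℤ) × Fin 2, c.1 ∈ V ∧ c.1 + stp c.2 ∈ V ∧ e = s(c.1, c.1 + stp c.2) := by
  induction e with
  | _ x y =>
    rw [mem_edgesIn'] at he
    obtain ⟨hx, hy, hadj⟩ := he
    have h' : IsUnit2 (y - x) := hadj
    obtain ⟨a, b⟩ := x
    obtain ⟨c, e⟩ := y
    simp only [IsUnit2, Prod.fst_sub, Prod.snd_sub] at h'
    rcases h' with h' | h' | h' | h'
    · have : ((a, b) : ℤ × ℤ) + stp 0 = (c, e) := by
        simp only [stp, if_true]; ext <;> simp <;> omega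
      exact ⟨((a, b), 0), hx, this ▸ hy, by rw [this]⟩
    · have : ((a, b) : ℤ × ℤ) + stp 1 = (c, e) := by
        simp only [stp]; ext <;> simp <;> omega
      exact ⟨((a, b), 1), hx, this ▸ hy, by rw [this]⟩
    · have : ((c, e) : ℤ × ℤ) + stp 0 = (a, b) := by
        simp only [stp, if_true]; ext <;> simp <;> omega
      exact ⟨((c, e), 0), hy, this ▸ hx, by rw [this]; exact Sym2.eq_swap⟩
    · have : ((c, e) : ℤ × ℤ) + stp 1 = (a, b) := by
        simp only [stp]; ext <;> simp <;> omega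
      exact ⟨((c, e), 1), hy, this ▸ hx, by rw [this]; exact Sym2.eq_swap⟩

/-- the sizes are fine -/
structure Fine (N n w : ℕ) (M : ℤ) : Prop where
  hn : 0 < n
  hw : 2 * w < n
  hM : 0 ≤ M
  hN : 2 * (M + 4) * n < N

lemma Fine.h8 {n w : ℕ} {M : ℤ} (h : Fine N n w M) : 8 * n ≤ N := by
  have h1 := h.hM
  have h2 := h.hn
  have h3 : (8 * n : ℤ) ≤ 2 * (M + 4) * n := by nlinarith
  have h4 : (8 * n : ℤ) ≤ N := by have := h.hN; omega
  omega

lemma Fine.side {n w : ℕ} {M : ℤ} (h : Fine N n w M) (i : Fin 2) (j : Fin d) :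
    side d n i j + 2 * w ≤ N := by
  have h1 := side_le (d := d) n i j
  have h2 := h.h8
  have h3 := h.hw
  omega

lemma seen_mem {n1 ℓ n : ℕ} {M : ℤ} (hf : Fine N n (n1 + ℓ) M) (c : (ℤ × ℤ) × Fin 2) :
    ∀ v ∈ BB N d n c, ∀ y, nrm (y - v) ≤ ℓ →
      y ∈ sbx N d n1 y ∧ sbx N d n1 y ⊆ RR N d n (n1 + ℓ) c := by
  intro v hv y hy
  refine ⟨self_mem_sbx y, ?_⟩
  exact sbx_subset le_rfl (fun i => hf.side c.2 i) hv hy

/-- the edges of the region of the bond -/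
def ER (N d n w : ℕ) [NeZero N] (c : (ℤ × ℤ) × Fin 2) : Finset (TE N d) :=
  (T N d).ins (RR N d n w c) univ

lemma GB_restrict {n1 X0 ℓ n : ℕ} {M : ℤ} (hf : Fine N n (n1 + ℓ) M) {c : (ℤ × ℤ) × Fin 2}
    {A ω η : Finset (TE N d)} (hA : ER N d n (n1 + ℓ) c ⊆ A) :
    GB N d n1 X0 ℓ n (ω, η) c ↔ GB N d n1 X0 ℓ n (ω ∩ A, η ∩ A) c := by
  unfold GB
  simp only
  rw [good_restrict (A := A)]
  · intro e he
    apply hA
    unfold ER
    rw [LG.mem_ins]
    exact ⟨mem_univ _, he.1, he.2⟩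
  · intro v hv y hy
    exact (seen_mem hf c v hv y hy).2

open Classical in
/-- edges of all the regions of the bonds of `R` -/
noncomputable def EA (N d n w : ℕ) [NeZero N] (R : Finset (ℤ × ℤ)) : Finset (TE N d) :=
  ((R ×ˢ (univ : Finset (Fin 2)))).biUnion (fun c => ER N d n w c)

lemma gam_restrict {n1 X0 ℓ n : ℕ} {M : ℤ} (hf : Fine N n (n1 + ℓ) M) {R : Finset (ℤ × ℤ)}
    {ω η : Finset (TE N d)} :
    gam N d n1 X0 ℓ n M (ω, η) ∩ edgesIn R =
      gam N d n1 X0 ℓ n M (ω ∩ EA N d n (n1 + ℓ) R, η ∩ EA N d n (n1 + ℓ) R) ∩ edgesIn R := by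
  classical
  ext e
  rw [mem_inter, mem_inter, mem_gam, mem_gam]
  apply and_congr_left
  intro heR
  constructor
  · rintro ⟨c, h1, h2, rfl⟩
    refine ⟨c, h1, ?_, rfl⟩
    rw [mem_edgesIn'] at heR
    rwa [← GB_restrict hf]
    unfold EA
    exact subset_biUnion_of_mem (fun c => ER N d n (n1 + ℓ) c)
      (mem_product.2 ⟨heR.1, mem_univ c.2⟩)
  · rintro ⟨c, h1, h2, rfl⟩
    refine ⟨c, h1, ?_, rfl⟩
    rw [mem_edgesIn'] at heR
    rwa [GB_restrict hf]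
    unfold EA
    exact subset_biUnion_of_mem (fun c => ER N d n (n1 + ℓ) c)
      (mem_product.2 ⟨heR.1, mem_univ c.2⟩)

lemma EA_disjoint {n w : ℕ} {M : ℤ} (hd : 2 ≤ d) (hf : Fine N n w M) {R R' : Finset (ℤ × ℤ)}
    (hR : R ⊆ rect 0 M 0 M) (hR' : R' ⊆ rect 0 M 0 M) (hfar : Far R R') :
    Disjoint (EA N d n w R) (EA N d n w R') := by
  classical
  unfold EA
  rw [Finset.disjoint_biUnion_left]
  intro c hc
  rw [Finset.disjoint_biUnion_right]
  intro c' hc'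
  rw [mem_product] at hc hc'
  have h1 : Disjoint (RR N d n w c) (RR N d n w c') := by
    apply RR_disjoint hd hf.hw _ (hR hc.1) (hR' hc'.1) (hfar _ hc.1 _ hc'.1)
    have := hf.hN
    have h2 := hf.hM
    have h3 : (0 : ℤ) ≤ n := by positivity
    nlinarith
  rw [Finset.disjoint_left] at h1 ⊢
  intro e he he'
  unfold ER at he he'
  rw [LG.mem_ins] at he he'
  exact h1 he.2.1 he'.2.1

lemma gam_indep {n1 X0 ℓ n : ℕ} {M : ℤ} (hd : 2 ≤ d) (hf : Fine N n (n1 + ℓ) M) {p ε : ℝ}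
    {R R' : Finset (ℤ × ℤ)} (hR : R ⊆ rect 0 M 0 M) (hR' : R' ⊆ rect 0 M 0 M) (hfar : Far R R')
    (A B : Finset (Sym2 (ℤ × ℤ)) → Prop) :
    fp (W p ε) (fun o => A (gam N d n1 X0 ℓ n M o ∩ edgesIn R) ∧
        B (gam N d n1 X0 ℓ n M o ∩ edgesIn R'))
      = fp (W p ε) (fun o => A (gam N d n1 X0 ℓ n M o ∩ edgesIn R)) *
        fp (W p ε) (fun o => B (gam N d n1 X0 ℓ n M o ∩ edgesIn R')) := by
  apply pair_indep (EA_disjoint hd hf hR hR' hfar)
  · intro ω η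
    rw [gam_restrict hf]
  · intro ω η
    rw [gam_restrict hf]

/-- **Linking.**  A path of good bonds from near the origin to the far sides gives a long
connection in the torus. -/
lemma linking {n1 X0 ℓ n : ℕ} {M : ℤ} (hd : 2 ≤ d) (hf : Fine N n (n1 + ℓ) M)
    {ω η : Finset (TE N d)} {u v : ℤ × ℤ} (hu : 0 ≤ u.1 ∧ u.1 ≤ 4 ∧ 0 ≤ u.2 ∧ u.2 ≤ 4)
    (hc : conn (rect 0 M 0 M) (gam N d n1 X0 ℓ n M (ω, η)) u v) :
    v = u ∨ ∃ c : (ℤ × ℤ) × Fin 2, c.1 ∈ rect 0 M 0 M ∧ (v = c.1 ∨ v = c.1 + stp c.2) ∧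
      ∃ z ∈ RR N d n (n1 + ℓ) c, Dom (sbx N d n1) X0 ℓ (RR N d n (n1 + ℓ) c) (BB N d n c) ω
          ((T N d).cl (RR N d n (n1 + ℓ) c) (ω ∪ η) z) ∧
        ∃ x ∈ A0 N d n (n1 + ℓ), z ∈ (T N d).cl univ (ω ∪ η) x := by
  have hn := hf.hn
  have h8 := hf.h8
  have hw := hf.hw
  have hB : ∀ c, 0 < (BB N d n c).card := by
    intro c
    rw [card_BB hd (by omega)]
    positivity
  unfold conn at hc
  rw [SimpleGraph.reachable_iff_reflTransGen] at hc
  induction hc with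
  | refl => exact Or.inl rfl
  | @tail v v' _ hadj ih =>
    right
    rw [openGraph_adj, mem_inter, mem_gam] at hadj
    obtain ⟨⟨⟨c', h1', h2', h3'⟩, _⟩, _⟩ := hadj
    have hend : (v = c'.1 ∧ v' = c'.1 + stp c'.2) ∨ (v = c'.1 + stp c'.2 ∧ v' = c'.1) := by
      rwa [Sym2.eq_iff] at h3'
    obtain ⟨z', hz', hD'⟩ := exists_cluster h2' (hB c')
    simp only at hD'
    have hv'end : v' = c'.1 ∨ v' = c'.1 + stp c'.2 := by tauto
    refine ⟨c', h1', hv'end, z', hz', hD', ?_⟩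
    rcases ih with rfl | ⟨c, h1, h2, z, hz, hD, x, hx, hzx⟩
    · -- first bond
      refine ⟨z', ?_, LG.self_mem_cl (mem_univ _)⟩
      refine RR_subset_A0 (by omega) ?_ hz'
      rw [mem_rect] at h1'
      rcases hend with ⟨h, _⟩ | ⟨h, _⟩
      · rw [← h]
        exact hu
      · obtain ⟨⟨a, b⟩, i⟩ := c'
        simp only at h h1' ⊢
        rw [h] at hu
        unfold stp at hu
        fin_cases i <;> simp at hu <;> omega
    · -- the clusters of consecutive bonds intersect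
      have htile : tileB N d n v ⊆ BB N d n c := by
        rcases h2 with h | h
        · rw [h]; exact tile_subset_left (by omega) c
        · rw [h]; exact tile_subset_right (by omega) c
      have htile' : tileB N d n v ⊆ BB N d n c' := by
        rcases hend with ⟨h, _⟩ | ⟨h, _⟩
        · rw [h]; exact tile_subset_left (by omega) c'
        · rw [h]; exact tile_subset_right (by omega) c'
      have hct : (tileB N d n v).card = n ^ d := card_tileB (by omega) v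
      obtain ⟨y, hy1, hy2⟩ := dom_inter hD hD' htile htile'
        (by rw [card_BB hd (by omega), hct]) (by rw [card_BB hd (by omega), hct])
        (by rw [hct]; positivity)
        (fun v hv y hy => (seen_mem hf c' v hv y hy).2 (seen_mem hf c' v hv y hy).1)
      refine ⟨x, hx, ?_⟩
      have a1 : y ∈ (T N d).cl univ (ω ∪ η) z := LG.cl_mono (subset_univ _) (Subset.refl _) hy1
      have a2 : y ∈ (T N d).cl univ (ω ∪ η) z' := LG.cl_mono (subset_univ _) (Subset.refl _) hy2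
      exact LG.mem_cl_trans (LG.mem_cl_trans hzx a1) (LG.mem_cl_symm a2)

/-- the numerical estimate -/
lemma numeric {q0 : ℝ} (hq0 : 0 < q0) {d ℓ X0 n Rc Bc : ℕ} {κ ε : ℝ} (hn : 0 < n) (hε : 0 < ε)
    (hX0 : 1 ≤ X0) (hκ : 2 ^ 18 * n * d * κ ≤ q0)
    (h1 : (2 : ℝ) ^ 20 * n * (2 * d + 1) ^ (2 * ℓ + 3) ≤ X0 * ε ^ (2 * ℓ + 1))
    (h2 : (2 : ℝ) ^ 18 * n * (2 * d + 1) ^ (2 * ℓ + 3) ≤ q0 * ε ^ (2 * ℓ + 1) * (n : ℝ) ^ d)
    (hR : (Rc : ℝ) ≤ 3 * Bc) (hB : Bc = 2 * n ^ d) :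
    2 ^ 16 * ((2 * n : ℕ) : ℝ) * d * κ + (2 : ℝ) ^ ((Rc : ℝ) / X0)
        * Real.exp (-(ε ^ (2 * ℓ + 1) * Bc / (2 ^ 16 * ((2 * n : ℕ) : ℝ) * (2 * d + 1) ^ (2 * ℓ + 3))))
      ≤ q0 := by
  have hn' : (0 : ℝ) < n := by exact_mod_cast hn
  have hX' : (0 : ℝ) < X0 := by exact_mod_cast (show 0 < X0 by omega)
  set D : ℝ := (2 * (d : ℝ) + 1) ^ (2 * ℓ + 3) with hD
  have hDpos : 0 < D := by positivity
  set E : ℝ := ε ^ (2 * ℓ + 1) with hE
  have hEpos : 0 < E := by positivity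
  have hBc : (Bc : ℝ) = 2 * (n : ℝ) ^ d := by rw [hB]; push_cast; ring
  have hBpos : (0 : ℝ) < Bc := by rw [hBc]; positivity
  push_cast
  have e1 : 2 ^ 16 * (2 * (n : ℝ)) * d * κ ≤ q0 / 2 := by linarith
  -- the exponential factor
  set s : ℝ := E * Bc / (2 ^ 20 * n * D) with hs
  have e2 : (Rc : ℝ) / X0 ≤ 3 * s := by
    rw [div_le_iff₀ hX', hs]
    have h3 : 3 * (Bc : ℝ) ≤ 3 * (E * Bc / (2 ^ 20 * n * D)) * X0 := by
      have h4 : 3 * (E * Bc / (2 ^ 20 * n * D)) * X0 = 3 * Bc * ((X0 * E) / (2 ^ 20 * n * D)) := by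
        ring
      rw [h4]
      have h5 : 1 ≤ (X0 * E) / (2 ^ 20 * n * D) := by
        rw [le_div_iff₀ (by positivity), one_mul]
        exact h1
      have : 0 ≤ 3 * (Bc : ℝ) := by positivity
      nlinarith
    linarith
  have e3 : E * Bc / (2 ^ 16 * (2 * (n : ℝ)) * D) = 8 * s := by
    rw [hs]
    field_simp
    norm_num
  have e4 : (2 : ℝ) ^ ((Rc : ℝ) / X0) ≤ Real.exp (3 * s) := by
    calc (2 : ℝ) ^ ((Rc : ℝ) / X0) ≤ (Real.exp 1) ^ ((Rc : ℝ) / X0) := by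
          apply Real.rpow_le_rpow (by norm_num) _ (by positivity)
          have := Real.add_one_le_exp (1 : ℝ)
          linarith
      _ = Real.exp ((Rc : ℝ) / X0) := by rw [Real.exp_one_rpow]
      _ ≤ _ := Real.exp_le_exp.2 e2
  have e5 : 5 * s ≥ 5 / (2 * q0) := by
    rw [hs, hBc]
    have h3 : 1 / (2 * q0) ≤ E * (2 * (n : ℝ) ^ d) / (2 ^ 20 * n * D) := by
      rw [div_le_div_iff₀ (by positivity) (by positivity)]
      nlinarith
    have h4 : (5 : ℝ) / (2 * q0) = 5 * (1 / (2 * q0)) := by ring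
    rw [h4]
    linarith
  rw [e3]
  have e6 : (2 : ℝ) ^ ((Rc : ℝ) / X0) * Real.exp (-(8 * s)) ≤ q0 / 2 := by
    calc (2 : ℝ) ^ ((Rc : ℝ) / X0) * Real.exp (-(8 * s))
        ≤ Real.exp (3 * s) * Real.exp (-(8 * s)) := by gcongr
      _ = Real.exp (-(5 * s)) := by rw [← Real.exp_add]; congr 1; ring
      _ ≤ Real.exp (-(5 / (2 * q0))) := Real.exp_le_exp.2 (by linarith)
      _ ≤ q0 / 2 := by
        rw [Real.exp_neg, inv_le_comm₀ (Real.exp_pos _) (by positivity)]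
        have h5 := Real.add_one_le_exp (5 / (2 * q0))
        have h6 : (q0 / 2)⁻¹ ≤ 5 / (2 * q0) := by
          rw [inv_div]
          rw [div_le_div_iff₀ (by positivity) (by positivity)]
          nlinarith
        linarith
  linarith

end Tiles
end DDA
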