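import Pool.Agent.DDA.Transport

/-!
# DDA: the discrete torus
-/

open Finset

namespace DDA

set_option linter.unusedSectionVars false

/-- vertices of the torus -/
abbrev TV (N d : ℕ) := Fin d → ZMod N
/-- edges of the torus: `(x, i)` joins `x` and `x + e_i` -/
abbrev TE (N d : ℕ) := TV N d × Fin d

/-- the discrete torus `(ℤ/N)^d` -/
def T (N d : ℕ) : LG (TV N d) (TE N d) where
  s := fun e => e.1
  t := fun e => e.1 + Pi.single e.2 1

variable {N d : ℕ}

/-- sum of `f` over the `2 d` neighbours of `x` -/
def nbS (f : TV N d → ℝ) (x : TV N d) : ℝ :=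
  ∑ i, (f (x + Pi.single i 1) + f (x - Pi.single i 1))

lemma T_J {e : TE N d} {x y : TV N d} :
    (T N d).J e x y ↔ (e.1 = x ∧ y = x + Pi.single e.2 1) ∨ (e.1 = y ∧ y = x - Pi.single e.2 1) := by
  unfold LG.J T
  simp only
  constructor
  · rintro (⟨rfl, rfl⟩ | ⟨rfl, rfl⟩)
    · exact Or.inl ⟨rfl, rfl⟩
    · exact Or.inr ⟨rfl, by simp⟩
  · rintro (⟨rfl, rfl⟩ | ⟨rfl, h⟩)
    · exact Or.inl ⟨rfl, rfl⟩
    · refine Or.inr ⟨rfl, ?_⟩
      rw [h]
      simp

lemma single_ne_zero (hN : 2 ≤ N) (i : Fin d) : (Pi.single i 1 : TV N d) ≠ 0 := by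
  intro h
  have h1 := congrFun h i
  simp only [Pi.single_eq_same, Pi.zero_apply] at h1
  have : Fact (1 < N) := ⟨hN⟩
  exact one_ne_zero h1

lemma T_loopless (hN : 2 ≤ N) (e : TE N d) : (T N d).s e ≠ (T N d).t e := by
  intro h
  have : (Pi.single e.2 1 : TV N d) = 0 := by
    have h2 : e.1 = e.1 + Pi.single e.2 1 := h
    simpa using h2
  exact single_ne_zero hN e.2 this

variable [NeZero N]

/-- number of steps `k`, two-point function of the whole torus, based at `0` -/
noncomputable def tt (N d : ℕ) [NeZero N] (p : ℝ) (k : ℕ) (x : TV N d) : ℝ :=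
  (T N d).tau univ p univ k 0 x

/-- expected volume of the ball of radius `k` -/
noncomputable def bb (N d : ℕ) [NeZero N] (k : ℕ) (p : ℝ) : ℝ := (T N d).bex univ p univ k 0

/-- susceptibility: expected size of the cluster of the origin in the torus -/
noncomputable def chi (N d : ℕ) [NeZero N] (p : ℝ) : ℝ :=
  Ex univ p (fun ω => (((T N d).cl univ ω 0).card : ℝ))

lemma chi_eq_bb (p : ℝ) : chi N d p = bb N d (univ : Finset (TV N d)).card p := rfl

/-- translation of the edges -/
def shE (v : TV N d) : TE N d ≃ TE N d where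
  toFun := fun e => (e.1 + v, e.2)
  invFun := fun e => (e.1 - v, e.2)
  left_inv := fun e => by simp
  right_inv := fun e => by simp

/-- invariance under translations, for functions of a ball -/
theorem Ex_translate (S : Finset (TV N d)) (v x : TV N d) (k : ℕ) (p : ℝ)
    (Φ : Finset (TV N d) → ℝ) (hx : x ∈ S) :
    Ex univ p (fun ω => Φ ((T N d).ball (S.image (· + v)) ω (x + v) k))
      = Ex univ p (fun ω => Φ (((T N d).ball S ω x k).image (· + v))) := by
  refine LG.Ex_ball_image (G := T N d) (G' := T N d) (F := univ) (F' := univ) (φ := (· + v))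
    (ψ := shE v) (shE v).injective.injOn ?_ ?_ hx k p Φ
  · intro e _ x _ y _
    rw [T_J, T_J]
    have h1 : (shE v e).1 = e.1 + v := rfl
    have h2 : (shE v e).2 = e.2 := rfl
    rw [h1, h2]
    constructor
    · rintro (⟨a, b⟩ | ⟨a, b⟩)
      · left
        refine ⟨add_right_cancel a, ?_⟩
        rw [add_right_comm] at b
        exact add_right_cancel b
      · right
        refine ⟨add_right_cancel a, ?_⟩
        rw [add_sub_right_comm] at b
        exact add_right_cancel b
    · rintro (⟨a, b⟩ | ⟨a, b⟩)
      · left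
        refine ⟨by rw [a], ?_⟩
        rw [b, add_right_comm]
      · right
        refine ⟨by rw [a], ?_⟩
        rw [b, add_sub_right_comm]
  · ext e
    constructor
    · intro he
      obtain ⟨_, h1, h2⟩ := LG.mem_ins.mp he
      refine mem_image.mpr ⟨(e.1 - v, e.2), ?_, ?_⟩
      · rw [LG.mem_ins]
        refine ⟨mem_univ _, ?_, ?_⟩
        · obtain ⟨a, ha, hb⟩ := mem_image.mp h1
          have : e.1 = a + v := hb.symm
          show e.1 - v ∈ S
          rw [this]
          simpa using ha
        · obtain ⟨a, ha, hb⟩ := mem_image.mp h2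
          have : e.1 + Pi.single e.2 1 = a + v := hb.symm
          show e.1 - v + Pi.single e.2 1 ∈ S
          have h3 : e.1 - v + Pi.single e.2 1 = a := by
            rw [sub_add_eq_add_sub, this]
            simp
          rw [h3]
          exact ha
      · unfold shE
        simp
    · intro he
      obtain ⟨e', he', rfl⟩ := mem_image.mp he
      obtain ⟨_, h1, h2⟩ := LG.mem_ins.mp he'
      refine LG.mem_ins.mpr ⟨mem_univ _, ?_, ?_⟩
      · exact mem_image.mpr ⟨_, h1, rfl⟩
      · refine mem_image.mpr ⟨_, h2, ?_⟩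
        show e'.1 + Pi.single e'.2 1 + v = e'.1 + v + Pi.single e'.2 1
        rw [add_right_comm]

lemma image_univ_add (v : TV N d) : (univ : Finset (TV N d)).image (· + v) = univ := by
  ext x
  simp only [mem_image, mem_univ, true_and, iff_true]
  exact ⟨x - v, by simp⟩

/-- translation invariance of the two-point function in a subset -/
theorem tau_translate (S : Finset (TV N d)) (v x y : TV N d) (k : ℕ) (p : ℝ) :
    (T N d).tau univ p (S.image (· + v)) k (x + v) (y + v) = (T N d).tau univ p S k x y := by
  classical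
  by_cases hx : x ∈ S
  · have h := Ex_translate S v x k p (fun B => if y + v ∈ B then (1:ℝ) else 0) hx
    unfold LG.tau Pr LG.Re
    have e1 : (fun ω => if y + v ∈ (T N d).ball (S.image (· + v)) ω (x + v) k then (1:ℝ) else 0)
        = (fun ω => (fun B => if y + v ∈ B then (1:ℝ) else 0)
          ((T N d).ball (S.image (· + v)) ω (x + v) k)) := rfl
    have e2 : Ex univ p (fun ω => if y ∈ (T N d).ball S ω x k then (1:ℝ) else 0)
        = Ex univ p (fun ω => (fun B => if y + v ∈ B then (1:ℝ) else 0)
          (((T N d).ball S ω x k).image (· + v))) := by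
      apply Ex_congr
      intro ω _
      simp only
      have : y + v ∈ ((T N d).ball S ω x k).image (· + v) ↔ y ∈ (T N d).ball S ω x k := by
        rw [mem_image]
        constructor
        · rintro ⟨a, ha, hb⟩
          have := add_right_cancel hb
          exact this ▸ ha
        · intro h
          exact ⟨y, h, rfl⟩
      by_cases h' : y ∈ (T N d).ball S ω x k
      · simp only [h', this.mpr h', if_true]
      · have h'' : ¬ (y + v ∈ ((T N d).ball S ω x k).image (· + v)) := fun h => h' (this.mp h)
        rw [if_neg h', if_neg h'']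
    rw [← e2] at h
    convert h using 2
    · funext ω
      congr
    · funext ω
      congr
  · rw [LG.tau_eq_zero_left hx, LG.tau_eq_zero_left]
    intro h
    obtain ⟨a, ha, hb⟩ := mem_image.mp h
    exact hx (add_right_cancel hb ▸ ha)

theorem tau_eq_tt (x y : TV N d) (k : ℕ) (p : ℝ) :
    (T N d).tau univ p univ k x y = tt N d p k (y - x) := by
  have := tau_translate (univ : Finset (TV N d)) x 0 (y - x) k p
  rw [image_univ_add, sub_add_cancel, zero_add] at this
  exact this

lemma tt_neg (x : TV N d) (k : ℕ) (p : ℝ) : tt N d p k (-x) = tt N d p k x := by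
  have h1 := tau_eq_tt (N := N) (d := d) x 0 k p
  rw [LG.tau_comm, zero_sub] at h1
  rw [← h1]
  rfl

theorem bex_eq_bb (x : TV N d) (k : ℕ) (p : ℝ) : (T N d).bex univ p univ k x = bb N d k p := by
  unfold bb
  rw [LG.bex_eq_sum, LG.bex_eq_sum]
  have : ∑ y, (T N d).tau univ p univ k x y = ∑ y, tt N d p k (y - x) :=
    sum_congr rfl (fun y _ => tau_eq_tt x y k p)
  rw [this]
  exact Fintype.sum_equiv (Equiv.subRight x) _ _ (fun y => rfl)

theorem bb_eq_sum (k : ℕ) (p : ℝ) : bb N d k p = ∑ x, tt N d p k x := LG.bex_eq_sum _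

end DDA
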