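import Pool.Agent.DDA.Tau

/-!
# DDA: transport of percolation along maps of graphs
-/

open Finset

namespace DDA

set_option linter.unusedSectionVars false

variable {V E V' E' : Type*} [DecidableEq V] [DecidableEq E] [DecidableEq V'] [DecidableEq E']

/-- change of variables for an injective relabelling of the edges -/
theorem Ex_image {F : Finset E} {ψ : E → E'} (hψ : Set.InjOn ψ F) (p : ℝ) (f : Finset E' → ℝ) :
    Ex (F.image ψ) p f = Ex F p (fun ω => f (ω.image ψ)) := by
  induction F using Finset.induction_on generalizing f with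
  | empty => simp [Ex_empty]
  | insert e F he ih =>
    have hinj : Set.InjOn ψ (F : Set E) := hψ.mono (by simp)
    have h1 : ψ e ∉ F.image ψ := by
      intro h
      obtain ⟨e', he', h2⟩ := mem_image.mp h
      have := hψ (by simp [he']) (by simp) h2
      exact he (this ▸ he')
    rw [image_insert, Ex_insert h1, Ex_insert he, ih hinj, ih hinj]
    simp only [image_insert]

namespace LG

variable {G : LG V E} {G' : LG V' E'}

theorem ball_image {S : Finset V} {F ω : Finset E} {φ : V → V'} {ψ : E → E'}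
    (hJ : ∀ e ∈ G.ins S F, ∀ x ∈ S, ∀ y ∈ S, (G'.J (ψ e) (φ x) (φ y) ↔ G.J e x y))
    (hω : ω ⊆ G.ins S F) {x : V} (hx : x ∈ S) (k : ℕ) :
    G'.ball (S.image φ) (ω.image ψ) (φ x) k = (G.ball S ω x k).image φ := by
  induction k with
  | zero =>
    ext v
    rw [mem_ball_zero, mem_image, mem_image]
    constructor
    · rintro ⟨_, h⟩
      exact ⟨x, self_mem_ball hx, h.symm⟩
    · rintro ⟨y, hy, rfl⟩
      obtain ⟨h1, rfl⟩ := mem_ball_zero.mp hy
      exact ⟨⟨y, h1, rfl⟩, rfl⟩
  | succ k ih =>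
    ext v
    rw [mem_ball_succ, ih, mem_image, mem_image, mem_image]
    constructor
    · rintro (⟨y, hy, rfl⟩ | ⟨⟨y, hy, rfl⟩, z', hz', e', he', hj⟩)
      · exact ⟨y, ball_mono_k (Nat.le_succ k) hy, rfl⟩
      · obtain ⟨z, hz, rfl⟩ := mem_image.mp hz'
        obtain ⟨e, he, rfl⟩ := mem_image.mp he'
        have := (hJ e (hω he) z (ball_subset hz) y hy).mp hj
        exact ⟨y, mem_ball_step hz ⟨e, he, this⟩ hy, rfl⟩
    · rintro ⟨y, hy, rfl⟩
      rcases mem_ball_succ.mp hy with h | ⟨h1, z, hz, e, he, hj⟩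
      · exact Or.inl ⟨y, h, rfl⟩
      · refine Or.inr ⟨⟨y, h1, rfl⟩, φ z, mem_image_of_mem _ hz, ψ e, mem_image_of_mem _ he, ?_⟩
        exact (hJ e (hω he) z (ball_subset hz) y h1).mpr hj

/-- transport of expectations of functions of a ball -/
theorem Ex_ball_image {S : Finset V} {F : Finset E} {F' : Finset E'} {φ : V → V'} {ψ : E → E'}
    (hψ : Set.InjOn ψ (G.ins S F))
    (hJ : ∀ e ∈ G.ins S F, ∀ x ∈ S, ∀ y ∈ S, (G'.J (ψ e) (φ x) (φ y) ↔ G.J e x y))
    (hF : G'.ins (S.image φ) F' = (G.ins S F).image ψ) {x : V} (hx : x ∈ S) (k : ℕ) (p : ℝ)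
    (Φ : Finset V' → ℝ) :
    Ex F' p (fun ω => Φ (G'.ball (S.image φ) ω (φ x) k))
      = Ex F p (fun ω => Φ ((G.ball S ω x k).image φ)) := by
  have h1 := Ex_restrict (F := F') (A := G'.ins (S.image φ) F') (p := p)
    (f := fun ω => Φ (G'.ball (S.image φ) ω (φ x) k))
    (fun ω hω => by rw [ball_ins hω])
  have h2 := Ex_restrict (F := F) (A := G.ins S F) (p := p)
    (f := fun ω => Φ ((G.ball S ω x k).image φ))
    (fun ω hω => by rw [ball_ins hω])
  have h3 : F' ∩ G'.ins (S.image φ) F' = G'.ins (S.image φ) F' :=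
    inter_eq_right.mpr (filter_subset _ _)
  have h4 : F ∩ G.ins S F = G.ins S F := inter_eq_right.mpr (filter_subset _ _)
  rw [h3] at h1
  rw [h4] at h2
  rw [h1, h2, hF, Ex_image hψ]
  apply Ex_congr
  intro ω hω
  rw [ball_image hJ hω hx]

end LG

end DDA
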