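import Pool.Agent.DDA.Conn

/-!
# DDA: disjoint connections, the tree-graph bound and the Markov property of explorations
-/

open Finset

namespace DDA

set_option linter.unusedSectionVars false

variable {V E : Type*} [DecidableEq V] [DecidableEq E] {G : LG V E}

namespace LG

/-- the event that `y` is within distance `k` of `x` inside `S` -/
def Re (G : LG V E) (S : Finset V) (k : ℕ) (x y : V) (ω : Finset E) : Prop := y ∈ G.ball S ω x k

lemma Re_incr (S : Finset V) (k : ℕ) (x y : V) : Incr (G.Re S k x y) :=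
  fun _ _ h h' => ball_mono (Subset.refl _) h h'

/-- last exit from the set `P` -/
lemma last_exit {S P : Finset V} {ω : Finset E} {x z : V} {k : ℕ} (hx : x ∈ P)
    (h : z ∈ G.ball S ω x k) :
    ∃ w ∈ P, w ∈ S ∧ z ∈ G.ball (insert w (S \ P)) ω w k := by
  induction k generalizing z with
  | zero =>
    obtain ⟨h1, rfl⟩ := mem_ball_zero.mp h
    exact ⟨z, hx, h1, self_mem_ball (mem_insert_self _ _)⟩
  | succ k ih =>
    rcases mem_ball_succ.mp h with h' | ⟨h1, z', hz', ha⟩
    · obtain ⟨w, hw, hwS, hz⟩ := ih h'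
      exact ⟨w, hw, hwS, ball_mono_k (Nat.le_succ k) hz⟩
    · by_cases hzP : z ∈ P
      · exact ⟨z, hzP, h1, self_mem_ball (mem_insert_self _ _)⟩
      · obtain ⟨w, hw, hwS, hz⟩ := ih hz'
        exact ⟨w, hw, hwS, mem_ball_step hz ha (mem_insert_of_mem (mem_sdiff.mpr ⟨h1, hzP⟩))⟩

/-- restriction of the witness to the edges inside the ambient set -/
lemma ball_filter {S : Finset V} {ω : Finset E} {x : V} {k : ℕ} :
    G.ball S (G.ins S ω) x k = G.ball S ω x k := by
  apply ball_congr
  rintro e ⟨h1, h2⟩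
  rw [mem_ins]
  exact ⟨fun h => h.1, fun h => ⟨h, h1, h2⟩⟩

/-- **three point lemma** -/
theorem three_point (hG : ∀ e, G.s e ≠ G.t e) {S : Finset V} {ω : Finset E} {x y z : V} {k l : ℕ}
    (hy : y ∈ G.ball S ω x k) (hz : z ∈ G.ball S ω x l) :
    ∃ w ∈ S, Disj (Disj (G.Re S k x w) (G.Re S k w y)) (G.Re S l w z) ω := by
  obtain ⟨P, hP, hx, hyP, hw⟩ := path_exists hy
  obtain ⟨w, hwP, hwS, hz'⟩ := last_exit hx hz
  obtain ⟨I, J, h1, h2, h3, h4, h5, h6, h7⟩ := hw w hwP
  have hPS : P ⊆ S := hP.trans ball_subset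
  refine ⟨w, hwS, I ∪ J, G.ins (insert w (S \ P)) ω, union_subset h1 h2, filter_subset _ _, ?_,
    ⟨I, J, subset_union_left, subset_union_right, h3, ?_, ?_⟩, ?_⟩
  · rw [Finset.disjoint_left]
    intro e he he'
    have h8 : G.In P e := by
      rcases mem_union.mp he with h | h
      · exact h4 e h
      · exact h5 e h
    obtain ⟨_, h9, h10⟩ := mem_ins.mp he'
    apply hG e
    have a1 : G.s e = w := by
      rcases mem_insert.mp h9 with h | h
      · exact h
      · exact absurd h8.1 (mem_sdiff.mp h).2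
    have a2 : G.t e = w := by
      rcases mem_insert.mp h10 with h | h
      · exact h
      · exact absurd h8.2 (mem_sdiff.mp h).2
    rw [a1, a2]
  · exact ball_mono hPS (Subset.refl _) h6
  · exact ball_mono hPS (Subset.refl _) h7
  · have := ball_filter (G := G) (S := insert w (S \ P)) (ω := ω) (x := w) (k := l)
    rw [← this] at hz'
    exact ball_mono (insert_subset hwS sdiff_subset) (Subset.refl _) hz'

/-- a connection which does not survive the removal of `A` passes through `A` -/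
theorem through {S A : Finset V} {ω : Finset E} {x z : V} {k : ℕ}
    (hz : z ∈ G.ball S ω x k) (hz' : z ∉ G.ball (S \ A) ω x k) :
    ∃ a ∈ A, a ∈ S ∧ Disj (G.Re S k x a) (G.Re S k a z) ω := by
  obtain ⟨P, hP, hx, hzP, hw⟩ := path_exists hz
  have hPS : P ⊆ S := hP.trans ball_subset
  by_cases hPA : Disjoint P A
  · exfalso
    apply hz'
    obtain ⟨I, J, h1, h2, h3, h4, h5, h6, h7⟩ := hw x hx
    refine ball_mono ?_ h2 h7
    intro v hv
    exact mem_sdiff.mpr ⟨hPS hv, fun h => Finset.disjoint_left.mp hPA hv h⟩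
  · rw [Finset.not_disjoint_iff] at hPA
    obtain ⟨a, haP, haA⟩ := hPA
    obtain ⟨I, J, h1, h2, h3, h4, h5, h6, h7⟩ := hw a haP
    exact ⟨a, haA, hPS haP, I, J, h1, h2, h3, ball_mono hPS (Subset.refl _) h6,
      ball_mono hPS (Subset.refl _) h7⟩

end LG

open LG

/-- **Markov property of explorations.**  `X ω` is the result of an exploration which has not looked
at the edges of `R (X ω)`. -/
theorem Ex_markov {α : Type*} {F : Finset E} {p : ℝ} (X : Finset E → α) (R : α → Finset E)
    (φ : α → Finset E → ℝ)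
    (hX : ∀ ω ⊆ F, ∀ ω' ⊆ F, ω \ R (X ω) = ω' \ R (X ω) → X ω' = X ω)
    (hφ : ∀ a, ∀ ω ⊆ F, φ a ω = φ a (ω ∩ R a)) :
    Ex F p (fun ω => φ (X ω) ω) = Ex F p (fun ω => Ex F p (fun ω' => φ (X ω) ω')) := by
  classical
  have h1 : ∀ ψ : α → Finset E → ℝ, Ex F p (fun ω => ψ (X ω) ω)
      = ∑ a ∈ F.powerset.image X, Ex F p (fun ω => (if X ω = a then 1 else 0) * ψ a ω) := by
    intro ψ
    rw [← Ex_sum]
    apply Ex_congr
    intro ω hω
    rw [sum_eq_single (X ω)]
    · simp
    · intro b _ hb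
      simp [hb.symm]
    · intro h
      exact absurd (mem_image_of_mem _ (mem_powerset.mpr hω)) h
  rw [h1, h1 (fun a _ => Ex F p (fun ω' => φ a ω'))]
  apply sum_congr rfl
  intro a _
  have hind : ∀ ω ⊆ F, (if X ω = a then (1:ℝ) else 0)
      = (if X (ω ∩ (F \ R a)) = a then (1:ℝ) else 0) := by
    intro ω hω
    have h2 : ω ∩ (F \ R a) = ω \ R a := by
      ext e
      simp only [mem_inter, mem_sdiff]
      constructor
      · rintro ⟨h, _, h'⟩
        exact ⟨h, h'⟩
      · rintro ⟨h, h'⟩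
        exact ⟨h, hω h, h'⟩
    have h3 : ω \ R a ⊆ F := sdiff_subset.trans hω
    rw [h2]
    by_cases hXa : X ω = a
    · have := hX ω hω (ω \ R a) h3 (by rw [hXa]; ext e; simp)
      rw [this]
    · have : X (ω \ R a) ≠ a := by
        intro h4
        apply hXa
        have := hX (ω \ R a) h3 ω hω (by rw [h4]; ext e; simp)
        rw [this, h4]
      simp [hXa, this]
  rw [Ex_indep (A := F \ R a) (B := R a) disjoint_sdiff_self_left
    (f := fun ω => if X ω = a then (1:ℝ) else 0) hind (hφ a), Ex_mul_right]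

end DDA
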