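import Pool.Agent.DDA.AsmUp2
import Pool.Agent.DDA.QGiant

/-!
# DDA: upper bound (finite-size scaling side)
-/

open Finset Filter

namespace DDA

set_option linter.unusedSectionVars false

/-- **Upper bound.** -/
theorem upper : ∃ C : ℝ, 0 < C ∧ ∀ᶠ d : ℕ in atTop, ∀ p : ℝ, 0 ≤ p → p ≤ 1 →
    chi 4 d p ≤ ((4 : ℝ) ^ d) ^ ((1 : ℝ) / 3) → p ≤ pcZ d + C / (2 * (d : ℝ)) ^ 4 := by
  obtain ⟨c3, hc3, dU, hU⟩ := D_up
  obtain ⟨CL, hCL, dL, hL⟩ := chi_lower 224
  refine ⟨2 / c3 + 2, by positivity, ?_⟩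
  filter_upwards [Q_giant (c0 := 1) one_pos, eventually_ge_atTop dU, eventually_ge_atTop dL,
    eventually_ge_atTop 4, ev_ge (8 * CL), ev_ge 8, ev_ge (1 / c3), ev_ge c3]
    with d hQ hdU hdL hd4 hdC hd8 hd1 hd3
  intro p hp0 hp1 hp
  set Om : ℝ := 2 * (d : ℝ) with hOm
  have hOm0 : 0 < Om := by linarith
  have hOm1 : 1 ≤ Om := by linarith
  have hdpos : (0:ℝ) < d := by
    have : 0 < d := by omega
    exact_mod_cast this
  have hdd : (1:ℝ) / d = 2 / Om := by
    rw [hOm]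
    field_simp
  have hdle : (1:ℝ) / d ≤ 1 / 2 := by
    have : (2:ℝ) ≤ d := by linarith
    exact one_div_le_one_div_of_le (by norm_num) this
  have hchi_inv : ∀ q : ℝ, 0 ≤ q → q ≤ 1 → 0 < 1 / chi 4 d q := fun q h0 h1 => by
    have := chi_ge_one (N := 4) (d := d) h0 h1
    positivity
  -- the point q0
  have hO4 : 2 / Om ^ 4 ≤ 1 / 4 / Om := by
    rw [div_div, div_le_div_iff₀ (by positivity) (by positivity)]
    have h1 : (8:ℝ) * Om ≤ Om ^ 4 := by
      calc (8:ℝ) * Om ≤ Om * Om := by nlinarith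
        _ = Om ^ 2 := by ring
        _ ≤ Om ^ 4 := pow_le_pow_right₀ hOm1 (by norm_num)
    linarith
  set q0 : ℝ := 1 / d - 2 / Om ^ 4 with hq0
  have hq0d : q0 ≤ 1 / d := by
    have : 0 ≤ 2 / Om ^ 4 := by positivity
    linarith
  have hq0low : (3 / 2) / Om ≤ q0 := by
    rw [hq0, hdd]
    have : (2:ℝ) / Om = 3 / 2 / Om + 1 / 4 / Om + 1 / 4 / Om := by ring
    have h2 : 0 ≤ 1 / 4 / Om := by positivity
    linarith
  have hq00 : 0 ≤ q0 := le_trans (by positivity) hq0low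
  obtain ⟨X, hX⟩ : ∃ X : ℝ, X = Om ^ 224 := ⟨_, rfl⟩
  have hX1 : 1 < X := by
    rw [hX]
    exact one_lt_pow₀ (by linarith) (by norm_num)
  have hXs : c3 * Om ^ 3 ≤ X := by
    rw [hX]
    calc c3 * Om ^ 3 ≤ Om * Om ^ 3 := mul_le_mul_of_nonneg_right hd3 (by positivity)
      _ = Om ^ 4 := by ring
      _ ≤ Om ^ 224 := pow_le_pow_right₀ hOm1 (by norm_num)
  have hs1 : 1 ≤ c3 * Om ^ 3 := by
    have h1 : 1 ≤ c3 * Om := by
      rw [div_le_iff₀ hc3] at hd1
      linarith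
    have h2 : Om ≤ Om ^ 3 := by
      calc Om = Om ^ 1 := (pow_one _).symm
        _ ≤ Om ^ 3 := pow_le_pow_right₀ hOm1 (by norm_num)
    have h3 : c3 * Om ≤ c3 * Om ^ 3 := mul_le_mul_of_nonneg_left h2 hc3.le
    linarith
  rw [← hX] at hQ
  have hL' := hL d hdL 4 (by decide) le_rfl
  rw [← hOm, ← hX] at hL'
  have hchiq0 : X ≤ chi 4 d q0 := by
    by_contra hcon
    push Not at hcon
    have h2 := hL' 0 q0 le_rfl hq00 hq0d hcon.le
    rw [chi_p_zero] at h2
    have h3 := hchi_inv q0 hq00 (by linarith)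
    have h4 : (7 / 8 * Om) * (3 / 2 / Om) ≤ (Om - CL) * (q0 - 0) := by
      rw [sub_zero]
      exact mul_le_mul (by linarith) hq0low (by positivity) (by linarith)
    have h5 : (7 / 8 * Om) * (3 / 2 / Om) = 21 / 16 := by
      field_simp
      norm_num
    rw [h5] at h4
    linarith
  obtain ⟨p2, hp2, hp2e⟩ : ∃ p2 ∈ Set.Icc (0:ℝ) q0, chi 4 d p2 = X := by
    have := intermediate_value_Icc hq00 (chi_continuous (N := 4) (d := d)).continuousOn
    exact this ⟨by simp only [chi_p_zero]; exact hX1.le, hchiq0⟩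
  have hp20 : 0 < p2 := by
    rcases eq_or_lt_of_le hp2.1 with h | h
    · rw [← h, chi_p_zero] at hp2e
      linarith
    · exact h
  have hp2q : p2 ≤ q0 := hp2.2
  obtain ⟨ps, hps, hpse⟩ : ∃ ps ∈ Set.Icc (0:ℝ) p2, chi 4 d ps = c3 * Om ^ 3 := by
    have := intermediate_value_Icc hp20.le (chi_continuous (N := 4) (d := d)).continuousOn
    exact this ⟨by simp only [chi_p_zero]; exact hs1, by rw [hp2e]; exact hXs⟩
  have hps0 : 0 ≤ ps := hps.1
  have hps2 : ps ≤ p2 := hps.2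
  have hpsd : ps ≤ 1 / d := by linarith
  -- the critical point of the lattice is at least ps
  have hpc : ps ≤ pcZ d := by
    apply le_pcZ (by omega) hps0 (by linarith) (B := 2 * c3 * Om ^ 3)
    intro N _ h4 h8
    exact hU d hdU N h4 h8 ps hps0 hpsd hpse.le
  -- the gap between ps and p2
  have hgap : p2 - ps ≤ 2 / c3 / Om ^ 4 := by
    have h1 := hL' ps p2 hps0 hps2 (by linarith) hp2e.le
    rw [hpse, hp2e] at h1
    have h2 : 0 ≤ 1 / X := by
      have : 0 < X := by linarith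
      positivity
    have h3 : (Om / 2) * (p2 - ps) ≤ 1 / (c3 * Om ^ 3) := by
      have : (Om / 2) * (p2 - ps) ≤ (Om - CL) * (p2 - ps) :=
        mul_le_mul_of_nonneg_right (by linarith) (by linarith)
      linarith
    have h4 : 1 / (c3 * Om ^ 3) = Om / 2 * (2 / c3 / Om ^ 4) := by
      field_simp
    rw [h4] at h3
    exact le_of_mul_le_mul_left h3 (by positivity)
  -- conclusion
  have h1 : p ≤ p2 + 2 * 1 / Om ^ 4 := by
    by_contra hcon
    push Not at hcon
    have h2 := hQ p2 hp20 (by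
      rw [mul_one]
      linarith) hp2e
    have h3 := chi_mono (N := 4) (d := d) (p := p2 + 2 * 1 / Om ^ 4) (q := p) (by positivity)
      hcon.le hp1
    linarith
  have h2 : (2 / c3 + 2) / Om ^ 4 = 2 / c3 / Om ^ 4 + 2 * 1 / Om ^ 4 := by ring
  rw [h2]
  linarith

end DDA
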